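import Pool.Agent.Helper930.BL.Slice

set_option autoImplicit false

open MeasureTheory Metric Set Filter Topology
open scoped ENNReal NNReal ContDiff

namespace H930.BL


lemma gr_le_sn_jac {k : ℕ} (v : E k → E k) (x : E k) (i : Fin k) :
    gr (fun y => v y i) x ≤ sn (jac v x) := by
  unfold sn
  exact Finset.single_le_sum (f := fun i => ∑ j, |jac v x i j|)
    (fun _ _ => Finset.sum_nonneg fun _ _ => abs_nonneg _) (Finset.mem_univ i)

/-- NOTE (helper49): the first integral is in parentheses here -/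
theorem face_sup {m : ℕ} (hm : 1 ≤ m) {p : ℝ} (hp : (m : ℝ) < p) :
    ∃ C : ℝ, 0 < C ∧ ∀ (v : E (m + 1) → E (m + 1)), ContDiff ℝ 1 v →
      ∀ (a : E (m + 1)) (h δ : ℝ), 0 < δ → δ ≤ h → ∃ s ∈ Ioo h (2 * h),
      ∀ y ∈ sphere a s, ∀ i, |v y i| ^ p ≤
        C / h * (δ ^ (-(m : ℝ)) * (∫ x in closedBall a (2 * h), ∑ i, |v x i| ^ p) +
          δ ^ (p - m) * ∫ x in closedBall a (2 * h), sn (jac v x) ^ p) := by
  obtain ⟨C1, hC1, hsl⟩ := slice_morrey hm hp
  have hp0 : 0 < p := lt_of_le_of_lt (Nat.cast_nonneg m) hp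
  refine ⟨C1.toReal * (2 * ((m : ℝ) + 1) ^ 2) + 1, by positivity, ?_⟩
  intro v hv a h δ hδ hδh
  have hh : 0 < h := lt_of_lt_of_le hδ hδh
  have hvi : ∀ i, ContDiff ℝ 1 (fun y => v y i) := fun i => (contDiff_pi.1 hv) i
  set T : ℝ := δ ^ (-(m : ℝ)) * (∫ x in closedBall a (2 * h), ∑ i, |v x i| ^ p) +
          δ ^ (p - m) * ∫ x in closedBall a (2 * h), sn (jac v x) ^ p with hT
  -- the total integrand
  have hc1 : Continuous (fun x => ∑ i, |v x i| ^ p) :=
    continuous_finsetSum _ fun i _ => ((hvi i).continuous.abs).rpow_const fun x => Or.inr hp0.le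
  have hc2 : Continuous (fun x => sn (jac v x) ^ p) :=
    (continuous_sn.comp (continuous_jac hv)).rpow_const fun x => Or.inr hp0.le
  have hi1 : IntegrableOn (fun x => ∑ i, |v x i| ^ p) (closedBall a (2 * h)) :=
    hc1.continuousOn.integrableOn_compact (isCompact_closedBall _ _)
  have hi2 : IntegrableOn (fun x => sn (jac v x) ^ p) (closedBall a (2 * h)) :=
    hc2.continuousOn.integrableOn_compact (isCompact_closedBall _ _)
  have hT0 : 0 ≤ T := by
    have h1 : 0 ≤ ∫ x in closedBall a (2 * h), ∑ i, |v x i| ^ p :=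
      integral_nonneg fun x => Finset.sum_nonneg fun i _ => Real.rpow_nonneg (abs_nonneg _) _
    have h2 : 0 ≤ ∫ x in closedBall a (2 * h), sn (jac v x) ^ p :=
      integral_nonneg fun x => Real.rpow_nonneg (sn_nonneg _) _
    positivity
  have hF : ∫⁻ x in closedBall a (2 * h), ENNReal.ofReal
      (δ ^ (-(m : ℝ)) * (∑ i, |v x i| ^ p) + δ ^ (p - m) * sn (jac v x) ^ p)
      = ENNReal.ofReal T := by
    rw [← ofReal_integral_eq_lintegral_ofReal]
    · rw [integral_add (hi1.const_mul _) (hi2.const_mul _), integral_const_mul,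
        integral_const_mul]
    · exact (hi1.const_mul _).add (hi2.const_mul _)
    · refine Filter.Eventually.of_forall fun x => ?_
      have h1 : 0 ≤ ∑ i, |v x i| ^ p :=
        Finset.sum_nonneg fun i _ => Real.rpow_nonneg (abs_nonneg _) _
      have h2 : 0 ≤ sn (jac v x) ^ p := Real.rpow_nonneg (sn_nonneg _) _
      change 0 ≤ _
      positivity
  choose Λ hΛm hΛb hΛi using fun (i l : Fin (m + 1)) =>
    hsl (fun y => v y i) (hvi i) a (2 * h) δ hδ (by linarith) l
  have hΛT : ∀ i l, ∫⁻ s, Λ i l s ≤ ENNReal.ofReal T := by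
    intro i l
    refine (hΛi i l).trans ?_
    rw [← hF]
    refine lintegral_mono fun x => ENNReal.ofReal_le_ofReal ?_
    have h1 : |v x i| ^ p ≤ ∑ i, |v x i| ^ p :=
      Finset.single_le_sum (f := fun i => |v x i| ^ p)
        (fun _ _ => Real.rpow_nonneg (abs_nonneg _) _) (Finset.mem_univ i)
    have h2 : gr (fun y => v y i) x ^ p ≤ sn (jac v x) ^ p :=
      Real.rpow_le_rpow (gr_nonneg _ _) (gr_le_sn_jac v x i) hp0.le
    gcongr
  set G : ℝ → ℝ≥0∞ := fun s => ∑ i, ∑ l, (Λ i l (a l + s) + Λ i l (a l - s)) with hG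
  have hm1 : ∀ i l, Measurable (fun s => Λ i l (a l + s)) := fun i l =>
    (hΛm i l).comp (measurable_const.add measurable_id)
  have hm2 : ∀ i l, Measurable (fun s => Λ i l (a l - s)) := fun i l =>
    (hΛm i l).comp (measurable_const.sub measurable_id)
  have hm3 : ∀ i l, Measurable (fun s => Λ i l (a l + s) + Λ i l (a l - s)) := fun i l =>
    (hm1 i l).add (hm2 i l)
  have hm4 : ∀ i, Measurable (fun s => ∑ l, (Λ i l (a l + s) + Λ i l (a l - s))) := fun i =>
    Finset.measurable_fun_sum _ fun l _ => hm3 i l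
  have hGm : Measurable G := Finset.measurable_fun_sum _ fun i _ => hm4 i
  have hGi : ∫⁻ s in Ioo h (2 * h), G s
      ≤ ENNReal.ofReal (2 * ((m : ℝ) + 1) ^ 2) * ENNReal.ofReal T := by
    refine (lintegral_mono' Measure.restrict_le_self (le_refl _)).trans ?_
    have e0 : ∫⁻ s, G s = ∑ i, ∫⁻ s, ∑ l, (Λ i l (a l + s) + Λ i l (a l - s)) :=
      lintegral_finsetSum _ (fun i _ => hm4 i)
    rw [e0]
    calc ∑ i, ∫⁻ s, ∑ l, (Λ i l (a l + s) + Λ i l (a l - s))
        ≤ ∑ _i : Fin (m + 1), ∑ _l : Fin (m + 1), (2 * ENNReal.ofReal T) := by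
          refine Finset.sum_le_sum fun i _ => ?_
          rw [lintegral_finsetSum _ (fun l _ => hm3 i l)]
          refine Finset.sum_le_sum fun l _ => ?_
          have e : ∫⁻ s, (Λ i l (a l + s) + Λ i l (a l - s))
              = (∫⁻ s, Λ i l (a l + s)) + ∫⁻ s, Λ i l (a l - s) :=
            lintegral_add_left (hm1 i l) _
          change ∫⁻ s, (Λ i l (a l + s) + Λ i l (a l - s)) ≤ _
          rw [e, lintegral_add_left_eq_self (μ := volume) (fun s => Λ i l s) (a l),
            lintegral_sub_left_eq_self (μ := volume) (fun s => Λ i l s) (a l), two_mul]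
          exact add_le_add (hΛT i l) (hΛT i l)
      _ = ENNReal.ofReal (2 * ((m : ℝ) + 1) ^ 2) * ENNReal.ofReal T := by
          rw [Finset.sum_const, Finset.sum_const, Finset.card_univ, Fintype.card_fin,
            smul_smul, nsmul_eq_mul, ← mul_assoc]
          congr 1
          rw [show (2 * ((m : ℝ) + 1) ^ 2) = (((m + 1) * (m + 1) * 2 : ℕ) : ℝ) by
            push_cast; ring, ENNReal.ofReal_natCast]
          push_cast
          ring
  have hvol : volume (Ioo h (2 * h)) = ENNReal.ofReal h := by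
    rw [Real.volume_Ioo]
    congr 1
    ring
  obtain ⟨s, hs, hsG⟩ := exists_le_setLAverage (μ := volume) (s := Ioo h (2 * h)) (f := G)
    (by rw [hvol]; exact (ENNReal.ofReal_pos.2 hh).ne') (by rw [hvol]; exact ENNReal.ofReal_ne_top)
    hGm.aemeasurable
  rw [setLAverage_eq, hvol] at hsG
  refine ⟨s, hs, ?_⟩
  intro y hy i
  have hs0 : 0 < s := hh.trans hs.1
  have hyd : dist y a = s := hy
  have hyB : y ∈ closedBall a (2 * h) := by
    rw [mem_closedBall, hyd]
    exact hs.2.le
  have hl : ∃ l, dist (y l) (a l) = s := by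
    by_contra hcon
    push Not at hcon
    have h1 : dist y a < s := by
      rw [dist_pi_lt_iff hs0]
      intro l
      exact lt_of_le_of_ne ((dist_le_pi_dist y a l).trans hyd.le) (hcon l)
    exact absurd hyd h1.ne
  obtain ⟨l, hl⟩ := hl
  have hΛG : Λ i l (y l) ≤ G s := by
    have h1 : Λ i l (y l) ≤ Λ i l (a l + s) + Λ i l (a l - s) := by
      rw [Real.dist_eq] at hl
      rcases (abs_eq hs0.le).1 hl with h2 | h2
      · have : y l = a l + s := by linarith
        rw [this]
        exact le_self_add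
      · have : y l = a l - s := by linarith
        rw [this]
        exact le_add_self
    refine h1.trans ?_
    refine le_trans (Finset.single_le_sum
      (f := fun l => Λ i l (a l + s) + Λ i l (a l - s)) (fun _ _ => zero_le)
      (Finset.mem_univ l)) ?_
    exact Finset.single_le_sum
      (f := fun i => ∑ l, (Λ i l (a l + s) + Λ i l (a l - s))) (fun _ _ => zero_le)
      (Finset.mem_univ i)
  have hfin : ENNReal.ofReal (|v y i| ^ p) ≤
      ENNReal.ofReal (C1.toReal * ((2 * ((m : ℝ) + 1) ^ 2 * T) / h)) := by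
    refine (hΛb i l y hyB).trans ?_
    rw [ENNReal.ofReal_mul ENNReal.toReal_nonneg, ENNReal.ofReal_toReal hC1,
      ENNReal.ofReal_div_of_pos hh, ENNReal.ofReal_mul (by positivity)]
    gcongr
    exact hΛG.trans (hsG.trans (by gcongr))
  rw [ENNReal.ofReal_le_ofReal_iff (by positivity)] at hfin
  refine hfin.trans ?_
  have e : C1.toReal * ((2 * ((m : ℝ) + 1) ^ 2 * T) / h)
      = C1.toReal * (2 * ((m : ℝ) + 1) ^ 2) / h * T := by ring
  rw [e]
  gcongr
  linarith

end H930.BL
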