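import Pool.Agent.Helper930.BL.LocConst

set_option autoImplicit false

open MeasureTheory Metric Set Filter Topology
open scoped ENNReal NNReal ContDiff

namespace H930.BL

variable {n : ℕ}


lemma glue_hasDerivAt (x : ℝ) : HasDerivAt expNegInvGlue ((x⁻¹) ^ 2 * expNegInvGlue x) x := by
  have h := expNegInvGlue.hasDerivAt_polynomial_eval_inv_mul 1 x
  simpa using h

lemma glue_deriv_nonneg (x : ℝ) : 0 ≤ (x⁻¹) ^ 2 * expNegInvGlue x :=
  mul_nonneg (sq_nonneg _) (expNegInvGlue.nonneg x)

lemma pd_psi (θ c' : ℝ) (i : Fin n) (y : E n) :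
    pd (fun y : E n => expNegInvGlue (θ * y i - c')) i y =
      (((θ * y i - c')⁻¹) ^ 2 * expNegInvGlue (θ * y i - c')) * θ := by
  have h1 : HasFDerivAt (fun y : E n => θ * y i - c')
      (θ • (ContinuousLinearMap.proj (R := ℝ) (φ := fun _ : Fin n => ℝ) i)) y := by
    have h2 : HasFDerivAt (fun y : E n => y i)
        (ContinuousLinearMap.proj (R := ℝ) (φ := fun _ : Fin n => ℝ) i) y :=
      (ContinuousLinearMap.proj (R := ℝ) (φ := fun _ : Fin n => ℝ) i).hasFDerivAt
    exact (h2.const_mul θ).sub_const c'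
  have h3 := (glue_hasDerivAt (θ * y i - c')).comp_hasFDerivAt y h1
  unfold pd
  have h4 : fderiv ℝ (fun y : E n => expNegInvGlue (θ * y i - c')) y = _ := h3.fderiv
  rw [h4]
  simp

theorem mono_aux {n : ℕ} {f : E n → E n} {D : E n → Matrix (Fin n) (Fin n) ℝ} {Ω : Set (E n)}
    (h : FDMap f D Ω) (hn : 2 ≤ n) {a : E n} {s : ℝ} (hs : 0 < s)
    (hsΩ : closedBall a s ⊆ Ω) (i : Fin n) (θ : ℝ) (hθ : θ * θ = 1) (c' : ℝ)
    (hc : ∀ x ∈ sphere a s, θ * f x i < c') :
    ∀ x ∈ closedBall a s, θ * f x i ≤ c' := by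
  intro x0 hx0
  by_contra hcon
  push Not at hcon
  -- continuity of u = θ f_i
  have hu : ContinuousOn (fun x => θ * f x i) (closedBall a s) := by
    have h1 : ContinuousOn f (closedBall a s) := h.cont.mono hsΩ
    exact continuousOn_const.mul ((continuous_apply i).comp_continuousOn h1)
  have hcpt : IsCompact (closedBall a s) := isCompact_closedBall a s
  -- Z
  set Z : Set (E n) := closedBall a s ∩ (fun x => θ * f x i) ⁻¹' (Ici c') with hZ
  have hZclosed : IsClosed Z := hu.preimage_isClosed_of_isClosed isClosed_closedBall isClosed_Ici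
  have hZc : IsCompact Z := hcpt.of_isClosed_subset hZclosed inter_subset_left
  have hx0Z : x0 ∈ Z := ⟨hx0, le_of_lt hcon⟩
  obtain ⟨z0, hz0, hz0max⟩ := hZc.exists_isMaxOn ⟨x0, hx0Z⟩
    (f := fun x => dist x a) (by fun_prop)
  set s0 : ℝ := dist z0 a with hs0
  have hs0n : 0 ≤ s0 := dist_nonneg
  have hs0s : s0 < s := by
    rcases lt_or_eq_of_le (mem_closedBall.1 hz0.1) with h1 | h1
    · exact h1
    · exact absurd (hc z0 (mem_sphere.2 h1)) (not_lt.2 hz0.2)
  have hZball : ∀ x ∈ Z, dist x a ≤ s0 := fun x hx => hz0max hx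
  let φ : ContDiffBump a := ⟨(2 * s0 + s) / 3, (s0 + 2 * s) / 3, by linarith, by linarith⟩
  have hφin : φ.rIn = (2 * s0 + s) / 3 := rfl
  have hφout : φ.rOut = (s0 + 2 * s) / 3 := rfl
  have hts : tsupport φ = closedBall a ((s0 + 2 * s) / 3) := by
    rw [φ.tsupport_eq, hφout]
  have hKs : closedBall a ((s0 + 2 * s) / 3) ⊆ closedBall a s :=
    closedBall_subset_closedBall (by linarith)
  have hφc : HasCompactSupport φ := φ.hasCompactSupport
  have hφd : ContDiff ℝ ∞ φ := φ.contDiff
  -- ψ
  have hψ : ContDiff ℝ ∞ (fun y : E n => expNegInvGlue (θ * y i - c')) := by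
    apply expNegInvGlue.contDiff.comp
    fun_prop
  have hid := h.ident φ hφd hφc (hts ▸ (hKs.trans hsΩ)) _ hψ i
  have hrhs : (∫ x, expNegInvGlue (θ * f x i - c') * ∑ j, (D x).adjugate j i * pd φ j x) = 0 := by
    rw [integral_eq_zero_of_ae]
    refine ae_of_all _ fun x => ?_
    show expNegInvGlue (θ * f x i - c') * ∑ j, (D x).adjugate j i * pd φ j x = 0
    by_cases hxZ : x ∈ Z
    · have h1 : ∀ j, pd φ j x = 0 := by
        intro j
        have hxin : x ∈ ball a φ.rIn := by
          rw [hφin]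
          exact mem_ball.2 (lt_of_le_of_lt (hZball x hxZ) (by linarith))
        have h2 : (φ : E n → ℝ) =ᶠ[𝓝 x] fun _ => 1 := φ.eventuallyEq_one_of_mem_ball hxin
        unfold pd
        rw [h2.fderiv_eq]
        simp
      simp [h1]
    · by_cases hxs : x ∈ closedBall a s
      · have h1 : θ * f x i < c' := by
          by_contra h2
          exact hxZ ⟨hxs, not_lt.1 h2⟩
        rw [expNegInvGlue.zero_of_nonpos (by linarith), zero_mul]
      · have h1 : ∀ j, pd φ j x = 0 := by
          intro j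
          apply pd_eq_zero_of_notMem
          rw [hts]
          exact fun h2 => hxs (hKs h2)
        simp [h1]
  rw [hrhs, neg_zero] at hid
  -- integrand
  set F : E n → ℝ := fun x => θ * (φ x * pd (fun y : E n => expNegInvGlue (θ * y i - c')) i (f x) * (D x).det)
    with hF
  have hFint0 : ∫ x, F x = 0 := by
    rw [hF, integral_const_mul, hid, mul_zero]
  have hFeq : ∀ x, F x = (φ x * ((θ * f x i - c')⁻¹ ^ 2 * expNegInvGlue (θ * f x i - c'))) * (D x).det := by
    intro x
    simp only [hF]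
    rw [pd_psi]
    linear_combination (φ x * ((θ * f x i - c')⁻¹ ^ 2 * expNegInvGlue (θ * f x i - c'))) * (D x).det * hθ
  have hFnn : 0 ≤ᵐ[volume] F := by
    have h1 := (ae_restrict_iff' h.isOpen.measurableSet).1 h.pos
    filter_upwards [h1] with x hx
    show 0 ≤ F x
    rw [hFeq]
    by_cases hxK : x ∈ closedBall a ((s0 + 2 * s) / 3)
    · have h2 := (hx (hsΩ (hKs hxK))).1
      exact mul_nonneg (mul_nonneg φ.nonneg (glue_deriv_nonneg _)) h2
    · have h3 : φ x = 0 := by
        have : x ∉ tsupport φ := by rw [hts]; exact hxK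
        exact image_eq_zero_of_notMem_tsupport this
      rw [h3]; simp
  have hFi : Integrable F := by
    have hK : IsCompact (closedBall a ((s0 + 2 * s) / 3)) := isCompact_closedBall _ _
    have h1 : IntegrableOn F (closedBall a ((s0 + 2 * s) / 3)) := by
      have h2 := h.det_int _ hK (hKs.trans hsΩ)
      have h3 : ContinuousOn (fun x => θ * (φ x * pd (fun y : E n => expNegInvGlue (θ * y i - c')) i (f x)))
          (closedBall a ((s0 + 2 * s) / 3)) := by
        have hfc : ContinuousOn f (closedBall a ((s0 + 2 * s) / 3)) := h.cont.mono (hKs.trans hsΩ)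
        have h4 : Continuous (pd (fun y : E n => expNegInvGlue (θ * y i - c')) i) :=
          continuous_pd (hψ.of_le (by exact_mod_cast le_top)) i
        exact continuousOn_const.mul (φ.continuous.continuousOn.mul (h4.comp_continuousOn hfc))
      have h5 := h2.continuousOn_mul h3 hK
      refine h5.congr_fun (fun x _ => ?_) measurableSet_closedBall
      simp only [hF]
      ring
    rw [← integrableOn_iff_integrable_of_support_subset (s := closedBall a ((s0 + 2 * s) / 3))]
    · exact h1
    · intro x hx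
      by_contra hxK
      apply hx
      have h3 : φ x = 0 := by
        have : x ∉ tsupport φ := by rw [hts]; exact hxK
        exact image_eq_zero_of_notMem_tsupport this
      simp only [hF]
      rw [h3]; simp
  have hF0 : F =ᵐ[volume] 0 := (integral_eq_zero_iff_of_nonneg_ae hFnn hFi).1 hFint0
  -- W
  set W : Set (E n) := ball a s ∩ (fun x => θ * f x i) ⁻¹' (Ioi c') with hW
  have hWo : IsOpen W :=
    (hu.mono ball_subset_closedBall).isOpen_inter_preimage isOpen_ball isOpen_Ioi
  have hWΩ : W ⊆ Ω := fun x hx => hsΩ (ball_subset_closedBall hx.1)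
  have hW0 : ∀ᵐ x ∂(volume.restrict W), (D x).det = 0 := by
    rw [ae_restrict_iff' hWo.measurableSet]
    filter_upwards [hF0] with x hx hxW
    have h1 : F x = 0 := hx
    rw [hFeq] at h1
    have hxW2 : c' < θ * f x i := hxW.2
    have hxZ : x ∈ Z := ⟨ball_subset_closedBall hxW.1, show c' ≤ θ * f x i from le_of_lt hxW2⟩
    have h2 : φ x = 1 := by
      apply φ.one_of_mem_closedBall
      rw [hφin]
      exact mem_closedBall.2 ((hZball x hxZ).trans (by linarith))
    have h3 : 0 < θ * f x i - c' := by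
      have : c' < θ * f x i := hxW.2
      linarith
    have h4 : 0 < (θ * f x i - c')⁻¹ ^ 2 * expNegInvGlue (θ * f x i - c') :=
      mul_pos (pow_pos (inv_pos.2 h3) 2) (expNegInvGlue.pos_of_pos h3)
    rw [h2, one_mul] at h1
    exact (mul_eq_zero.1 h1).resolve_left h4.ne'
  have hloc := loc_const h hWo hWΩ hW0
  -- P
  set P : Set (E n) := closedBall a s ∩ (fun x => θ * f x i) ⁻¹' {θ * f x0 i} with hP
  have hPclosed : IsClosed P := hu.preimage_isClosed_of_isClosed isClosed_closedBall isClosed_singleton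
  have hPc : IsCompact P := hcpt.of_isClosed_subset hPclosed inter_subset_left
  have hPW : P ⊆ W := by
    intro x hx
    have h1 : θ * f x i = θ * f x0 i := hx.2
    have h2 : c' < θ * f x i := by rw [h1]; exact hcon
    refine ⟨?_, h2⟩
    rcases lt_or_eq_of_le (mem_closedBall.1 hx.1) with h3 | h3
    · exact mem_ball.2 h3
    · exact absurd (hc x (mem_sphere.2 h3)) (not_lt.2 h2.le)
  have hPo : IsOpen P := by
    rw [isOpen_iff_mem_nhds]
    intro x hx
    have h1 := hloc x (hPW hx)
    have h2 : W ∈ 𝓝 x := hWo.mem_nhds (hPW hx)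
    filter_upwards [h1, h2] with y hy hyW
    refine ⟨ball_subset_closedBall hyW.1, ?_⟩
    show θ * f y i = θ * f x0 i
    rw [hy]; exact hx.2
  have hPe := no_compact_open (by omega : 1 ≤ n) hPc hPo
  have : x0 ∈ P := ⟨hx0, rfl⟩
  rw [hPe] at this
  exact this

theorem mono_max {n : ℕ} {f : E n → E n} {D : E n → Matrix (Fin n) (Fin n) ℝ} {Ω : Set (E n)}
    (h : FDMap f D Ω) (hn : 2 ≤ n) {a : E n} {s : ℝ} (hs : 0 < s)
    (hsΩ : closedBall a s ⊆ Ω) (i : Fin n) (c : ℝ) (hc : ∀ x ∈ sphere a s, f x i ≤ c) :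
    ∀ x ∈ closedBall a s, f x i ≤ c := by
  intro x hx
  refine le_of_forall_gt_imp_ge_of_dense fun c' hc' => ?_
  have := mono_aux h hn hs hsΩ i 1 (by norm_num) c'
    (fun y hy => by rw [one_mul]; exact lt_of_le_of_lt (hc y hy) hc') x hx
  linarith

theorem mono_min {n : ℕ} {f : E n → E n} {D : E n → Matrix (Fin n) (Fin n) ℝ} {Ω : Set (E n)}
    (h : FDMap f D Ω) (hn : 2 ≤ n) {a : E n} {s : ℝ} (hs : 0 < s)
    (hsΩ : closedBall a s ⊆ Ω) (i : Fin n) (c : ℝ) (hc : ∀ x ∈ sphere a s, c ≤ f x i) :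
    ∀ x ∈ closedBall a s, c ≤ f x i := by
  intro x hx
  refine le_of_forall_lt_imp_le_of_dense fun c' hc' => ?_
  have := mono_aux h hn hs hsΩ i (-1) (by norm_num) (-c')
    (fun y hy => by have := hc y hy; linarith) x hx
  linarith

end H930.BL

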