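import Pool.Agent.Helper930.BL.Defs

set_option autoImplicit false

open MeasureTheory Metric Set Filter Topology
open scoped ENNReal NNReal ContDiff

namespace H930.BL.XPoin

variable {n : ℕ}


/-- Jensen on a segment -/
lemma seg_bound {u : E n → ℝ} (hu : ContDiff ℝ 1 u) {p : ℝ} (hp : 1 ≤ p) (x h : E n) :
    |u (x + h) - u x| ^ p ≤ ‖h‖ ^ p * ∫ t in (0:ℝ)..1, gr u (x + t • h) ^ p := by
  have hp0 : 0 < p := by linarith
  have hcg : Continuous fun t : ℝ => gr u (x + t • h) := (continuous_gr hu).comp (by fun_prop)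
  have hcgp : Continuous fun t : ℝ => gr u (x + t • h) ^ p :=
    hcg.rpow_const (fun t => Or.inr hp0.le)
  have hderiv : ∀ t : ℝ, HasDerivAt (fun t : ℝ => u (x + t • h))
      (fderiv ℝ u (x + t • h) h) t := by
    intro t
    have h1 : HasFDerivAt u (fderiv ℝ u (x + t • h)) (x + t • h) :=
      (hu.differentiable (by norm_num) _).hasFDerivAt
    have h2 : HasDerivAt (fun t : ℝ => x + t • h) h t := by
      simpa using ((hasDerivAt_id t).smul_const h).const_add x
    exact h1.comp_hasDerivAt t h2
  have hcd : Continuous fun t : ℝ => fderiv ℝ u (x + t • h) h :=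
    ((hu.continuous_fderiv (by norm_num)).comp
      (by fun_prop : Continuous fun t : ℝ => x + t • h)).clm_apply continuous_const
  have h3 : ∫ t in (0:ℝ)..1, fderiv ℝ u (x + t • h) h = u (x + h) - u x := by
    rw [intervalIntegral.integral_eq_sub_of_hasDerivAt (fun t _ => hderiv t)
      (hcd.intervalIntegrable _ _)]
    simp
  have h4 : |u (x + h) - u x| ≤ ‖h‖ * ∫ t in (0:ℝ)..1, gr u (x + t • h) := by
    rw [← h3]
    calc |∫ t in (0:ℝ)..1, fderiv ℝ u (x + t • h) h|
        ≤ ∫ t in (0:ℝ)..1, |fderiv ℝ u (x + t • h) h| :=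
          intervalIntegral.abs_integral_le_integral_abs zero_le_one
      _ ≤ ∫ t in (0:ℝ)..1, ‖h‖ * gr u (x + t • h) := by
          apply intervalIntegral.integral_mono_on zero_le_one (hcd.abs.intervalIntegrable _ _)
            ((continuous_const.mul hcg).intervalIntegrable _ _)
          intro t _
          rw [mul_comm]
          exact abs_fderiv_apply_le u _ h
      _ = _ := by rw [intervalIntegral.integral_const_mul]
  have hI0 : 0 ≤ ∫ t in (0:ℝ)..1, gr u (x + t • h) :=
    intervalIntegral.integral_nonneg zero_le_one (fun t _ => gr_nonneg _ _)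
  have h5 : (∫ t in (0:ℝ)..1, gr u (x + t • h)) ^ p ≤
      ∫ t in (0:ℝ)..1, gr u (x + t • h) ^ p := by
    have hi1 : IntegrableOn (fun t : ℝ => gr u (x + t • h)) (Ioc (0:ℝ) 1) :=
      (hcg.integrableOn_Icc).mono_set Ioc_subset_Icc_self
    have hi2 : IntegrableOn (fun t : ℝ => gr u (x + t • h) ^ p) (Ioc (0:ℝ) 1) :=
      (hcgp.integrableOn_Icc).mono_set Ioc_subset_Icc_self
    rw [intervalIntegral.integral_of_le zero_le_one, intervalIntegral.integral_of_le zero_le_one]
    have : IsProbabilityMeasure (volume.restrict (Ioc (0:ℝ) 1)) := ⟨by simp⟩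
    exact (convexOn_rpow hp).map_integral_le
      (continuousOn_id.rpow_const (fun _ _ => Or.inr hp0.le)) isClosed_Ici
      (Eventually.of_forall fun t => gr_nonneg _ _) hi1 hi2
  calc |u (x + h) - u x| ^ p ≤ (‖h‖ * ∫ t in (0:ℝ)..1, gr u (x + t • h)) ^ p :=
        Real.rpow_le_rpow (abs_nonneg _) h4 hp0.le
    _ = ‖h‖ ^ p * (∫ t in (0:ℝ)..1, gr u (x + t • h)) ^ p := Real.mul_rpow (norm_nonneg _) hI0
    _ ≤ _ := mul_le_mul_of_nonneg_left h5 (Real.rpow_nonneg (norm_nonneg _) _)

/-- the gradient power cut off outside the cube -/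
noncomputable def Gam (u : E n → ℝ) (p : ℝ) (Q : Set (E n)) : E n → ℝ≥0∞ :=
  Q.indicator fun x => ENNReal.ofReal (gr u x ^ p)

lemma measurable_Gam {u : E n → ℝ} (hu : ContDiff ℝ 1 u) {p : ℝ} (hp : 1 ≤ p) {Q : Set (E n)}
    (hQ : MeasurableSet Q) : Measurable (Gam u p Q) := by
  refine Measurable.indicator ?_ hQ
  exact (((continuous_gr hu).rpow_const (fun t => Or.inr (by linarith))).measurable).ennreal_ofReal

lemma lintegral_Gam {u : E n → ℝ} (hu : ContDiff ℝ 1 u) {p : ℝ} (hp : 1 ≤ p) (a : E n) (L : ℝ) :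
    ∫⁻ x, Gam u p (closedBall a L) x =
      ENNReal.ofReal (∫ x in closedBall a L, gr u x ^ p) := by
  unfold Gam
  rw [lintegral_indicator measurableSet_closedBall, ofReal_integral_eq_lintegral_ofReal]
  · exact ((continuous_gr hu).rpow_const
      (fun t => Or.inr (by linarith))).continuousOn.integrableOn_compact
      (isCompact_closedBall a L)
  · exact Eventually.of_forall fun x => Real.rpow_nonneg (gr_nonneg _ _) _

/-- segment bound in a cube -/
lemma seg_Gam {u : E n → ℝ} (hu : ContDiff ℝ 1 u) {p : ℝ} (hp : 1 ≤ p) {Q : Set (E n)}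
    (hQ : Convex ℝ Q) (x h : E n) (hx : x ∈ Q) (hxh : x + h ∈ Q) :
    ENNReal.ofReal (|u (x + h) - u x| ^ p) ≤
      ENNReal.ofReal (‖h‖ ^ p) * ∫⁻ t in Ioc (0:ℝ) 1, Gam u p Q (x + t • h) := by
  have hp0 : 0 < p := by linarith
  have hcg : Continuous fun t : ℝ => gr u (x + t • h) := (continuous_gr hu).comp (by fun_prop)
  have hcgp : Continuous fun t : ℝ => gr u (x + t • h) ^ p :=
    hcg.rpow_const (fun t => Or.inr hp0.le)
  have hi2 : IntegrableOn (fun t : ℝ => gr u (x + t • h) ^ p) (Ioc (0:ℝ) 1) :=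
    (hcgp.integrableOn_Icc).mono_set Ioc_subset_Icc_self
  have h1 := seg_bound hu hp x h
  rw [intervalIntegral.integral_of_le zero_le_one] at h1
  refine (ENNReal.ofReal_le_ofReal h1).trans ?_
  rw [ENNReal.ofReal_mul (Real.rpow_nonneg (norm_nonneg _) _)]
  gcongr
  rw [ofReal_integral_eq_lintegral_ofReal hi2
    (Eventually.of_forall fun x => Real.rpow_nonneg (gr_nonneg _ _) _)]
  refine setLIntegral_mono' measurableSet_Ioc fun t ht => ?_
  have hmem : x + t • h ∈ Q := by
    have := hQ.add_smul_mem hx hxh (t := t) ⟨ht.1.le, ht.2⟩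
    exact this
  unfold Gam
  rw [indicator_of_mem hmem]

theorem poincare_cube {n : ℕ} (hn : 1 ≤ n) {p : ℝ} (hp : 1 ≤ p) : ∃ C : ℝ, 0 < C ∧
    ∀ (u : E n → ℝ), ContDiff ℝ 1 u → ∀ (a : E n) (L : ℝ), 0 < L → ∃ c : ℝ,
      ∫ x in closedBall a L, |u x - c| ^ p ≤ C * L ^ p * ∫ x in closedBall a L, gr u x ^ p := by
  refine ⟨2 ^ n * 2 ^ p, by positivity, ?_⟩
  intro u hu a L hL
  have hp0 : 0 < p := by linarith
  set Q : Set (E n) := closedBall a L with hQdef
  have hQm : MeasurableSet Q := measurableSet_closedBall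
  have hQc : Convex ℝ Q := convex_closedBall a L
  have hQk : IsCompact Q := isCompact_closedBall a L
  have hGm : Measurable (Gam u p Q) := measurable_Gam hu hp hQm
  have hucont : Continuous u := hu.continuous
  set f : E n → E n → ℝ≥0∞ := fun y x => ENNReal.ofReal (|u x - u y| ^ p) with hf
  have hfm : Measurable (Function.uncurry f) := by
    have : Continuous fun z : E n × E n => |u z.2 - u z.1| ^ p := by
      refine Continuous.rpow_const ?_ (fun t => Or.inr hp0.le)
      fun_prop
    exact this.measurable.ennreal_ofReal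
  -- main double integral
  have hmain : ∫⁻ y in Q, ∫⁻ x in Q, f y x ≤
      ENNReal.ofReal ((2 * L) ^ p) * volume (closedBall (0 : E n) (2 * L)) *
        ∫⁻ x, Gam u p Q x := by
    set B : E n → ℝ≥0∞ := (closedBall (0 : E n) (2 * L)).indicator
      (fun _ => ENNReal.ofReal ((2 * L) ^ p)) with hB
    have hBm : Measurable B := measurable_const.indicator measurableSet_closedBall
    have hGm2 : Measurable (fun z : (E n × E n) × ℝ => Gam u p Q (z.1.1 + z.2 • z.1.2)) := by
      apply hGm.comp
      have : Continuous (fun z : (E n × E n) × ℝ => z.1.1 + z.2 • z.1.2) := by fun_prop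
      exact this.measurable
    have hGm3 : Measurable (fun z : E n × E n =>
        ∫⁻ t in Ioc (0:ℝ) 1, Gam u p Q (z.1 + t • z.2)) := by
      exact Measurable.lintegral_prod_right' (f := fun z : (E n × E n) × ℝ =>
        Gam u p Q (z.1.1 + z.2 • z.1.2)) hGm2
    have h1 : ∀ y ∈ Q, ∫⁻ x in Q, f y x ≤
        ∫⁻ h, B h * ∫⁻ t in Ioc (0:ℝ) 1, Gam u p Q (y + t • h) := by
      intro y hy
      rw [← lintegral_indicator hQm, ← lintegral_add_left_eq_self _ y]
      refine lintegral_mono fun h => ?_
      by_cases hyh : y + h ∈ Q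
      · rw [indicator_of_mem hyh]
        have hnorm : ‖h‖ ≤ 2 * L := by
          have h2 : ‖h‖ = dist (y + h) y := by rw [dist_eq_norm]; simp
          rw [h2]
          calc dist (y + h) y ≤ dist (y + h) a + dist a y := dist_triangle _ _ _
            _ ≤ L + L := by
              refine add_le_add hyh ?_
              rw [dist_comm]; exact hy
            _ = 2 * L := by ring
        have hB1 : B h = ENNReal.ofReal ((2 * L) ^ p) := by
          rw [hB, indicator_of_mem]
          rw [mem_closedBall, dist_zero_right]; exact hnorm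
        rw [hB1]
        refine (seg_Gam hu hp hQc y h hy hyh).trans ?_
        gcongr
      · rw [indicator_of_notMem hyh]
        exact bot_le
    calc ∫⁻ y in Q, ∫⁻ x in Q, f y x
        ≤ ∫⁻ y in Q, ∫⁻ h, B h * ∫⁻ t in Ioc (0:ℝ) 1, Gam u p Q (y + t • h) :=
          setLIntegral_mono' hQm h1
      _ ≤ ∫⁻ y, ∫⁻ h, B h * ∫⁻ t in Ioc (0:ℝ) 1, Gam u p Q (y + t • h) :=
          setLIntegral_le_lintegral _ _
      _ = ∫⁻ h, ∫⁻ y, B h * ∫⁻ t in Ioc (0:ℝ) 1, Gam u p Q (y + t • h) := by
          refine lintegral_lintegral_swap ?_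
          exact ((hBm.comp measurable_snd).mul hGm3).aemeasurable
      _ = ∫⁻ h, B h * ∫⁻ x, Gam u p Q x := by
          refine lintegral_congr fun h => ?_
          have h5 : Measurable (fun z : E n × ℝ => Gam u p Q (z.1 + z.2 • h)) := by
            apply hGm.comp
            have : Continuous (fun z : E n × ℝ => z.1 + z.2 • h) := by fun_prop
            exact this.measurable
          rw [lintegral_const_mul _ (h5.lintegral_prod_right')]
          congr 1
          rw [lintegral_lintegral_swap h5.aemeasurable]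
          have h6 : ∀ t : ℝ, ∫⁻ y, Gam u p Q (y + t • h) = ∫⁻ x, Gam u p Q x := fun t =>
            lintegral_add_right_eq_self _ _
          simp_rw [h6]
          rw [lintegral_const]
          simp
      _ = _ := by
          rw [lintegral_mul_const _ hBm, hB, lintegral_indicator measurableSet_closedBall,
            setLIntegral_const]
  have hvolQ : volume Q = ENNReal.ofReal ((2 * L) ^ n) := volume_cube a hL.le
  have hvolQ0 : volume Q ≠ 0 := by
    rw [hvolQ]
    simp only [ne_eq, ENNReal.ofReal_eq_zero, not_le]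
    positivity
  have hvolQt : volume Q ≠ ⊤ := by rw [hvolQ]; exact ENNReal.ofReal_ne_top
  have hfm1 : Measurable fun y => ∫⁻ x in Q, f y x :=
    Measurable.lintegral_prod_right' (f := Function.uncurry f) hfm
  obtain ⟨y, hy, hyle⟩ := exists_le_setLAverage (μ := volume) hvolQ0 hvolQt
    (f := fun y => ∫⁻ x in Q, f y x) hfm1.aemeasurable
  refine ⟨u y, ?_⟩
  rw [setLAverage_eq] at hyle
  have hint : IntegrableOn (fun x => |u x - u y| ^ p) Q := by
    have : Continuous fun x => |u x - u y| ^ p := by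
      refine Continuous.rpow_const ?_ (fun t => Or.inr hp0.le)
      fun_prop
    exact this.continuousOn.integrableOn_compact hQk
  have hnn : 0 ≤ ∫ x in Q, gr u x ^ p :=
    integral_nonneg fun x => Real.rpow_nonneg (gr_nonneg _ _) _
  have hfin : ENNReal.ofReal (∫ x in Q, |u x - u y| ^ p) ≤
      ENNReal.ofReal (2 ^ n * 2 ^ p * L ^ p * ∫ x in Q, gr u x ^ p) := by
    rw [ofReal_integral_eq_lintegral_ofReal hint
      (Eventually.of_forall fun x => Real.rpow_nonneg (abs_nonneg _) _)]
    refine hyle.trans ?_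
    refine ENNReal.div_le_of_le_mul ?_
    refine hmain.trans ?_
    rw [lintegral_Gam hu hp, hvolQ, volume_cube _ (by positivity), ← ENNReal.ofReal_mul (by positivity),
      ← ENNReal.ofReal_mul (by positivity), ← ENNReal.ofReal_mul (by positivity)]
    apply ENNReal.ofReal_le_ofReal
    rw [Real.mul_rpow (by norm_num) hL.le, mul_pow 2 (2 * L) n]
    apply le_of_eq
    ring
  rwa [ENNReal.ofReal_le_ofReal_iff (by positivity)] at hfin

theorem poincare_zero {n : ℕ} (hn : 1 ≤ n) {p : ℝ} (hp : 1 ≤ p) (u : E n → ℝ)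
    (hu : ContDiff ℝ 1 u) (a : E n) (L : ℝ) (hL : 0 < L) (h0 : ∀ x ∈ sphere a L, u x = 0) :
    ∫ x in closedBall a L, |u x| ^ p ≤ (2 * L) ^ p * ∫ x in closedBall a L, gr u x ^ p := by
  have hp0 : 0 < p := by linarith
  set Q : Set (E n) := closedBall a L with hQdef
  have hQm : MeasurableSet Q := measurableSet_closedBall
  have hQc : Convex ℝ Q := convex_closedBall a L
  have hQk : IsCompact Q := isCompact_closedBall a L
  have hGm : Measurable (Gam u p Q) := measurable_Gam hu hp hQm
  have hucont : Continuous u := hu.continuous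
  set i0 : Fin n := ⟨0, hn⟩ with hi0
  set v : E n := Pi.single i0 1 with hv
  have hvn : ‖v‖ = 1 := by
    apply le_antisymm
    · rw [pi_norm_le_iff_of_nonneg zero_le_one]
      intro i
      rw [hv]
      by_cases h : i = i0
      · subst h; simp
      · rw [Pi.single_eq_of_ne h]; simp
    · have := norm_le_pi_norm v i0
      rw [hv, Pi.single_eq_same, norm_one] at this
      exact this
  -- pointwise bound
  have hpt : ∀ x ∈ Q, ENNReal.ofReal (|u x| ^ p) ≤
      ENNReal.ofReal ((2 * L) ^ (p - 1)) * ∫⁻ τ in Ioc (0:ℝ) (2 * L), Gam u p Q (x + (-τ) • v) := by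
    intro x hx
    set s : ℝ := x i0 - (a i0 - L) with hs
    have hxi : ∀ i, |x i - a i| ≤ L := by
      intro i
      have h1 : dist x a ≤ L := hx
      have h2 := (dist_pi_le_iff hL.le).mp h1 i
      rwa [Real.dist_eq] at h2
    have hs0 : 0 ≤ s := by have := (abs_le.mp (hxi i0)).1; linarith
    have hs1 : s ≤ 2 * L := by have := (abs_le.mp (hxi i0)).2; linarith
    have hcoord : ∀ (τ : ℝ) (i : Fin n), (x + (-τ) • v) i = if i = i0 then x i0 - τ else x i := by
      intro τ i
      rw [hv]
      by_cases h : i = i0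
      · subst h; simp [sub_eq_add_neg]
      · simp [h]
    have hmem : ∀ τ ∈ Icc 0 s, x + (-τ) • v ∈ Q := by
      intro τ hτ
      rw [hQdef, mem_closedBall, dist_pi_le_iff hL.le]
      intro i
      rw [hcoord, Real.dist_eq]
      by_cases h : i = i0
      · rw [if_pos h, h, abs_le]
        have h3 := (abs_le.mp (hxi i0))
        constructor <;> linarith [hτ.1, hτ.2]
      · rw [if_neg h]; exact hxi i
    have hus : u (x + (-s) • v) = 0 := by
      apply h0
      rw [mem_sphere]
      apply le_antisymm (hmem s ⟨hs0, le_rfl⟩)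
      have h3 : dist ((x + (-s) • v) i0) (a i0) ≤ dist (x + (-s) • v) a := dist_le_pi_dist _ _ _
      rw [hcoord, if_pos rfl, Real.dist_eq] at h3
      have h4 : x i0 - s - a i0 = - L := by rw [hs]; ring
      rw [h4, abs_neg, abs_of_pos hL] at h3
      exact h3
    have hcg : Continuous fun t : ℝ => gr u (x + (-t) • v) ^ p := by
      refine Continuous.rpow_const ((continuous_gr hu).comp (by fun_prop))
        (fun t => Or.inr hp0.le)
    have h1 := seg_bound hu hp x ((-s) • v)
    rw [hus, zero_sub, abs_neg, norm_smul, hvn, mul_one, norm_neg, Real.norm_of_nonneg hs0] at h1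
    have h2 : s * ∫ t in (0:ℝ)..1, gr u (x + t • (-s) • v) ^ p =
        ∫ τ in (0:ℝ)..s, gr u (x + (-τ) • v) ^ p := by
      have h3 := intervalIntegral.smul_integral_comp_mul_left (a := 0) (b := 1)
        (fun τ : ℝ => gr u (x + (-τ) • v) ^ p) s
      rw [smul_eq_mul, mul_zero, mul_one] at h3
      rw [← h3]
      congr 1
      refine intervalIntegral.integral_congr fun t _ => ?_
      rw [smul_smul, show t * -s = -(s * t) by ring]
    have h4 : |u x| ^ p ≤ (2 * L) ^ (p - 1) * ∫ τ in (0:ℝ)..s, gr u (x + (-τ) • v) ^ p := by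
      have hInn : 0 ≤ ∫ τ in (0:ℝ)..s, gr u (x + (-τ) • v) ^ p :=
        intervalIntegral.integral_nonneg hs0 (fun t _ => Real.rpow_nonneg (gr_nonneg _ _) _)
      rcases hs0.eq_or_lt with hs00 | hspos
      · rw [← hs00] at hus
        simp only [neg_zero, zero_smul, add_zero] at hus
        rw [hus, abs_zero, Real.zero_rpow hp0.ne']
        positivity
      · refine h1.trans ?_
        have h5 : s ^ p = s ^ (p - 1) * s := by
          rw [← Real.rpow_add_one hspos.ne']; ring_nf
        rw [h5, mul_assoc, h2]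
        exact mul_le_mul_of_nonneg_right (Real.rpow_le_rpow hs0 hs1 (by linarith)) hInn
    refine (ENNReal.ofReal_le_ofReal h4).trans ?_
    rw [ENNReal.ofReal_mul (by positivity)]
    gcongr
    rw [intervalIntegral.integral_of_le hs0, ofReal_integral_eq_lintegral_ofReal
      ((hcg.integrableOn_Icc).mono_set Ioc_subset_Icc_self)
      (Eventually.of_forall fun x => Real.rpow_nonneg (gr_nonneg _ _) _)]
    refine (setLIntegral_mono' measurableSet_Ioc fun t ht => ?_).trans
      (lintegral_mono_set (Ioc_subset_Ioc_right hs1))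
    unfold Gam
    rw [indicator_of_mem (hmem t ⟨ht.1.le, ht.2⟩)]
  have h5 : Measurable (fun z : E n × ℝ => Gam u p Q (z.1 + (-z.2) • v)) := by
    apply hGm.comp
    have : Continuous (fun z : E n × ℝ => z.1 + (-z.2) • v) := by fun_prop
    exact this.measurable
  have hmain : ∫⁻ x in Q, ENNReal.ofReal (|u x| ^ p) ≤
      ENNReal.ofReal ((2 * L) ^ p) * ∫⁻ x, Gam u p Q x := by
    calc ∫⁻ x in Q, ENNReal.ofReal (|u x| ^ p)
        ≤ ∫⁻ x in Q, ENNReal.ofReal ((2 * L) ^ (p - 1)) *
            ∫⁻ τ in Ioc (0:ℝ) (2 * L), Gam u p Q (x + (-τ) • v) := setLIntegral_mono' hQm hpt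
      _ ≤ ∫⁻ x, ENNReal.ofReal ((2 * L) ^ (p - 1)) *
            ∫⁻ τ in Ioc (0:ℝ) (2 * L), Gam u p Q (x + (-τ) • v) := setLIntegral_le_lintegral _ _
      _ = ENNReal.ofReal ((2 * L) ^ (p - 1)) *
            ∫⁻ x, ∫⁻ τ in Ioc (0:ℝ) (2 * L), Gam u p Q (x + (-τ) • v) := by
          rw [lintegral_const_mul _ (h5.lintegral_prod_right')]
      _ = ENNReal.ofReal ((2 * L) ^ (p - 1)) * (ENNReal.ofReal (2 * L) * ∫⁻ x, Gam u p Q x) := by
          congr 1
          rw [lintegral_lintegral_swap h5.aemeasurable]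
          have h6 : ∀ t : ℝ, ∫⁻ y, Gam u p Q (y + (-t) • v) = ∫⁻ x, Gam u p Q x := fun t =>
            lintegral_add_right_eq_self _ _
          simp_rw [h6]
          rw [lintegral_const, mul_comm]
          simp
      _ = _ := by
          rw [← mul_assoc, ← ENNReal.ofReal_mul (by positivity),
            ← Real.rpow_add_one (by positivity)]
          ring_nf
  have hint : IntegrableOn (fun x => |u x| ^ p) Q := by
    have : Continuous fun x => |u x| ^ p := by
      refine Continuous.rpow_const ?_ (fun t => Or.inr hp0.le)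
      fun_prop
    exact this.continuousOn.integrableOn_compact hQk
  have hnn : 0 ≤ ∫ x in Q, gr u x ^ p :=
    integral_nonneg fun x => Real.rpow_nonneg (gr_nonneg _ _) _
  have hfin : ENNReal.ofReal (∫ x in Q, |u x| ^ p) ≤
      ENNReal.ofReal ((2 * L) ^ p * ∫ x in Q, gr u x ^ p) := by
    rw [ofReal_integral_eq_lintegral_ofReal hint
      (Eventually.of_forall fun x => Real.rpow_nonneg (abs_nonneg _) _)]
    refine hmain.trans ?_
    rw [lintegral_Gam hu hp, ← ENNReal.ofReal_mul (by positivity)]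
  rwa [ENNReal.ofReal_le_ofReal_iff (by positivity)] at hfin

end H930.BL.XPoin

namespace H930.BL

export XPoin (poincare_cube poincare_zero)

end H930.BL
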