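import Pool.Agent.Helper930.BL.Hol
import Pool.Agent.Helper930.BL.Moll
import Pool.Agent.Helper930.BL.Face
import Pool.Agent.Helper930.BL.Mono
import Pool.Agent.Helper930.BL.Poin

set_option autoImplicit false

open MeasureTheory Metric Set Filter Topology
open scoped ENNReal NNReal ContDiff

namespace H930.BL.XOsc

variable {n : ℕ}


lemma pe_succ (m : ℕ) : pe (m + 1) = (m : ℝ) + 1 / 2 := by
  unfold pe
  push_cast
  ring

lemma gr_comp_le_sn (F : E n → E n) (x : E n) (i : Fin n) :
    gr (fun y => F y i) x ≤ sn (jac F x) := by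
  unfold gr sn
  exact Finset.single_le_sum (f := fun i => ∑ j, |jac F x i j|)
        (fun _ _ => Finset.sum_nonneg fun _ _ => abs_nonneg _) (Finset.mem_univ i)

lemma single_est {m : ℕ} (hm : 1 ≤ m) : ∃ C : ℝ, 0 < C ∧ ∀ F : E (m + 1) → E (m + 1),
    ContDiff ℝ 1 F → ∀ (a : E (m + 1)) (h : ℝ), 0 < h → ∃ s ∈ Ioo h (2 * h),
    ∃ c : Fin (m + 1) → ℝ, ∀ y ∈ sphere a s, ∀ i, |F y i - c i| ^ pe (m + 1) ≤
      C * h ^ (-(1 / 2 : ℝ)) * ∫ x in closedBall a (2 * h), sn (jac F x) ^ pe (m + 1) := by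
  have hp : (m : ℝ) < pe (m + 1) := by rw [pe_succ]; linarith
  have hm' : (1 : ℝ) ≤ m := by exact_mod_cast hm
  have hp1 : 1 ≤ pe (m + 1) := hm'.trans hp.le
  have hp0 : 0 < pe (m + 1) := by linarith
  obtain ⟨C2, hC2, hface⟩ := face_sup hm hp
  obtain ⟨C1, hC1, hpoin⟩ := poincare_cube (n := m + 1) (by omega) hp1
  set p := pe (m + 1) with hpdef
  refine ⟨C2 * ((m + 1) * C1 * 2 ^ p + 1), by positivity, ?_⟩
  intro F hF a h hh
  have hFi : ∀ i, ContDiff ℝ 1 (fun y => F y i) := fun i => (contDiff_pi.1 hF) i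
  choose c hc using fun i => hpoin (fun y => F y i) (hFi i) a (2 * h) (by linarith)
  have hv : ContDiff ℝ 1 (fun x i => F x i - c i : E (m + 1) → E (m + 1)) :=
    contDiff_pi.2 fun i => (hFi i).sub contDiff_const
  obtain ⟨s, hs, hs2⟩ := hface _ hv a h h hh le_rfl
  refine ⟨s, hs, c, ?_⟩
  intro y hy i
  have h1 := hs2 y hy i
  have hjac : ∀ x, jac (fun x i => F x i - c i) x = jac F x := by
    intro x
    ext i j
    simp only [jac, Matrix.of_apply]
    exact pd_sub_const _ _ _ _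
  simp only [hjac] at h1
  set K := closedBall a (2 * h) with hK
  have hKc : IsCompact K := isCompact_closedBall _ _
  set T := ∫ x in K, sn (jac F x) ^ p with hT
  have hT0 : 0 ≤ T := integral_nonneg fun x => Real.rpow_nonneg (sn_nonneg _) _
  have hint : ∀ i, IntegrableOn (fun x => |F x i - c i| ^ p) K := by
    intro i
    refine ContinuousOn.integrableOn_compact hKc (Continuous.continuousOn ?_)
    exact (((hFi i).continuous.sub continuous_const).abs).rpow_const fun x => Or.inr hp0.le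
  have hintT : IntegrableOn (fun x => sn (jac F x) ^ p) K := by
    refine ContinuousOn.integrableOn_compact hKc (Continuous.continuousOn ?_)
    exact (continuous_sn.comp (continuous_jac hF)).rpow_const fun x => Or.inr hp0.le
  have hintg : ∀ i, IntegrableOn (fun x => gr (fun y => F y i) x ^ p) K := by
    intro i
    refine ContinuousOn.integrableOn_compact hKc (Continuous.continuousOn ?_)
    exact (continuous_gr (hFi i)).rpow_const fun x => Or.inr hp0.le
  have h2 : ∫ x in K, ∑ i, |F x i - c i| ^ p ≤ (m + 1) * (C1 * (2 * h) ^ p * T) := by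
    rw [integral_finsetSum _ fun i _ => hint i]
    have h3 : ∀ i ∈ (Finset.univ : Finset (Fin (m + 1))), ∫ x in K, |F x i - c i| ^ p ≤
        C1 * (2 * h) ^ p * T := by
      intro i _
      refine (hc i).trans ?_
      refine mul_le_mul_of_nonneg_left ?_ (by positivity)
      refine integral_mono (hintg i) hintT fun x => ?_
      exact Real.rpow_le_rpow (gr_nonneg _ _) (gr_comp_le_sn F x i) hp0.le
    refine (Finset.sum_le_sum h3).trans ?_
    simp
  refine h1.trans ?_
  have h4 : h ^ (-(m : ℝ)) * h ^ p = h ^ (1 / 2 : ℝ) := by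
    rw [← Real.rpow_add hh, hpdef, pe_succ]
    congr 1
    ring
  have h5 : h ^ (p - m) = h ^ (1 / 2 : ℝ) := by
    rw [hpdef, pe_succ]
    congr 1
    ring
  have h6 : h ^ (-(1 / 2 : ℝ)) = h ^ (1 / 2 : ℝ) / h := by
    rw [eq_div_iff hh.ne']
    nth_rw 2 [← Real.rpow_one h]
    rw [← Real.rpow_add hh]
    congr 1
    norm_num
  have h7 : (2 * h) ^ p = 2 ^ p * h ^ p := Real.mul_rpow (by norm_num) hh.le
  calc C2 / h * (h ^ (-(m : ℝ)) * (∫ x in K, ∑ i, |F x i - c i| ^ p) + h ^ (p - m) * T)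
      ≤ C2 / h * (h ^ (-(m : ℝ)) * ((m + 1) * (C1 * (2 * h) ^ p * T)) + h ^ (p - m) * T) := by
        refine mul_le_mul_of_nonneg_left ?_ (by positivity)
        exact add_le_add (mul_le_mul_of_nonneg_left h2 (Real.rpow_nonneg hh.le _)) le_rfl
    _ = C2 / h * ((m + 1) * C1 * 2 ^ p * (h ^ (-(m : ℝ)) * h ^ p) * T + h ^ (p - m) * T) := by
        rw [h7]; ring
    _ = C2 * ((m + 1) * C1 * 2 ^ p + 1) * h ^ (-(1 / 2 : ℝ)) * T := by
        rw [h4, h5, h6]; field_simp

theorem osc_est {n : ℕ} (hn : 2 ≤ n) : ∃ C : ℝ, 0 < C ∧ ∀ (f : E n → E n)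
    (D : E n → Matrix (Fin n) (Fin n) ℝ) (Ω : Set (E n)), FDMap f D Ω →
    ∀ (a : E n) (h : ℝ), 0 < h → closedBall a (2 * h) ⊆ Ω →
    ∀ x ∈ closedBall a h, ∀ y ∈ closedBall a h, ∀ i,
      |f x i - f y i| ^ pe n ≤
        C * h ^ (-(1 / 2 : ℝ)) * ∫ x in closedBall a (2 * h), sn (D x) ^ pe n := by
  obtain ⟨m, rfl⟩ : ∃ m, n = m + 1 := ⟨n - 1, by omega⟩
  have hm : 1 ≤ m := by omega
  have hm' : (1 : ℝ) ≤ m := by exact_mod_cast hm
  have hp : (m : ℝ) < pe (m + 1) := by rw [pe_succ]; linarith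
  have hp1 : 1 ≤ pe (m + 1) := hm'.trans hp.le
  have hp0 : 0 < pe (m + 1) := by linarith
  obtain ⟨C, hC, hsing⟩ := single_est hm
  set p := pe (m + 1) with hpdef
  refine ⟨2 ^ p * C, by positivity, ?_⟩
  intro f D Ω hFD a h hh hKΩ x hx y hy i
  set K := closedBall a (2 * h) with hK
  have hKc : IsCompact K := isCompact_closedBall _ _
  obtain ⟨F, hFs, hFu, hFj, Φ, hΦ, hΦb⟩ := moll (by omega) hFD.isOpen hFD.cont hFD.meas hFD.weak
    hp1 (fun K hK hKΩ => (hol2 hFD (by omega) hK hKΩ).1) hKc hKΩ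
  have hF1 : ∀ k, ContDiff ℝ 1 (F k) := fun k => (hFs k).of_le (by exact_mod_cast le_top)
  -- convergence of the energies
  have hT : Tendsto (fun k => ∫ x in K, sn (jac (F k) x) ^ p) atTop
      (𝓝 (∫ x in K, sn (D x) ^ p)) := by
    refine tendsto_integral_of_dominated_convergence Φ (fun k => ?_) hΦ (fun k => ?_) ?_
    · exact ((continuous_sn.comp (continuous_jac (hF1 k))).rpow_const
        fun x => Or.inr hp0.le).aestronglyMeasurable
    · filter_upwards [hΦb] with x hx
      rw [Real.norm_of_nonneg (Real.rpow_nonneg (sn_nonneg _) _)]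
      exact hx k
    · filter_upwards [hFj] with x hx
      have h1 : Tendsto (fun k => sn (jac (F k) x)) atTop (𝓝 (sn (D x))) :=
        (continuous_sn.tendsto (D x)).comp hx
      exact h1.rpow_const (Or.inr hp0.le)
  have hT0 : 0 ≤ ∫ x in K, sn (D x) ^ p :=
    integral_nonneg fun x => Real.rpow_nonneg (sn_nonneg _) _
  have key : ∀ ε : ℝ, 0 < ε → |f x i - f y i| ≤
      2 * ((C * h ^ (-(1 / 2 : ℝ)) * ∫ x in K, sn (D x) ^ p) ^ (1 / p) + ε) := by
    intro ε hε
    have hlim : Tendsto (fun k => 2 * ((C * h ^ (-(1 / 2 : ℝ)) *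
        ∫ x in K, sn (jac (F k) x) ^ p) ^ (1 / p) + ε)) atTop
        (𝓝 (2 * ((C * h ^ (-(1 / 2 : ℝ)) * ∫ x in K, sn (D x) ^ p) ^ (1 / p) + ε))) := by
      refine Tendsto.const_mul _ (Tendsto.add_const _ ?_)
      exact (hT.const_mul _).rpow_const (Or.inr (by positivity))
    refine ge_of_tendsto hlim ?_
    filter_upwards [(Metric.tendstoUniformlyOn_iff.1 hFu) ε hε] with k hk
    obtain ⟨s, hs, c, hc⟩ := hsing (F k) (hF1 k) a h hh
    have hs0 : 0 < s := hh.trans hs.1
    have hsK : closedBall a s ⊆ K := closedBall_subset_closedBall hs.2.le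
    set T := ∫ x in K, sn (jac (F k) x) ^ p with hTdef
    have hTk0 : 0 ≤ T := integral_nonneg fun x => Real.rpow_nonneg (sn_nonneg _) _
    set R := (C * h ^ (-(1 / 2 : ℝ)) * T) ^ (1 / p) with hR
    have hb : ∀ z ∈ sphere a s, |f z i - c i| ≤ R + ε := by
      intro z hz
      have h1 := hc z hz i
      have h2 : |F k z i - c i| ≤ R := by
        have h3 := Real.rpow_le_rpow (Real.rpow_nonneg (abs_nonneg _) _) h1
          (by positivity : (0 : ℝ) ≤ 1 / p)
        rwa [← Real.rpow_mul (abs_nonneg _), mul_one_div_cancel hp0.ne', Real.rpow_one] at h3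
      have h4 := hk z (hsK (sphere_subset_closedBall hz))
      have h5 : |f z i - F k z i| ≤ ε := by
        rw [← Real.dist_eq]
        exact (dist_le_pi_dist _ _ i).trans h4.le
      calc |f z i - c i| = |(f z i - F k z i) + (F k z i - c i)| := by ring_nf
        _ ≤ |f z i - F k z i| + |F k z i - c i| := abs_add_le _ _
        _ ≤ ε + R := add_le_add h5 h2
        _ = R + ε := add_comm _ _
    have hmax := mono_max hFD hn hs0 (hsK.trans hKΩ) i (c i + (R + ε))
      (fun z hz => by linarith [(abs_le.1 (hb z hz)).2])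
    have hmin := mono_min hFD hn hs0 (hsK.trans hKΩ) i (c i - (R + ε))
      (fun z hz => by linarith [(abs_le.1 (hb z hz)).1])
    have hxs : x ∈ closedBall a s := closedBall_subset_closedBall hs.1.le hx
    have hys : y ∈ closedBall a s := closedBall_subset_closedBall hs.1.le hy
    have e1 := hmax x hxs
    have e2 := hmin x hxs
    have e3 := hmax y hys
    have e4 := hmin y hys
    rw [abs_le]
    constructor <;> linarith
  have key2 : |f x i - f y i| ≤ 2 * (C * h ^ (-(1 / 2 : ℝ)) * ∫ x in K, sn (D x) ^ p) ^ (1 / p) := by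
    refine le_of_forall_pos_le_add fun ε hε => ?_
    have := key (ε / 2) (by positivity)
    linarith
  have h8 := Real.rpow_le_rpow (abs_nonneg _) key2 hp0.le
  rw [Real.mul_rpow (by norm_num) (by positivity), ← Real.rpow_mul (by positivity),
    one_div_mul_cancel hp0.ne', Real.rpow_one] at h8
  linarith

end H930.BL.XOsc

namespace H930.BL

export XOsc (osc_est)

end H930.BL
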