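import Pool.Agent.Helper930.BL.J09a

set_option autoImplicit false
open MeasureTheory Metric Set Filter Topology
open scoped ENNReal NNReal ContDiff

namespace H930.BL.J09b






theorem conv_eq {n : ℕ} (g ρ : E n → ℝ) :
    (fun z => ∫ y, g y * ρ (z - y)) =
      (convolution g ρ (ContinuousLinearMap.lsmul ℝ ℝ) volume) := by
  ext z
  rw [convolution_lsmul]
  rfl

theorem moll_smooth {n : ℕ} {g : E n → ℝ} (hg : LocallyIntegrable g) {ρ : E n → ℝ}
    (hρ : ContDiff ℝ ∞ ρ) (hρc : HasCompactSupport ρ) :
    ContDiff ℝ ∞ (fun z => ∫ y, g y * ρ (z - y)) := by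
  rw [conv_eq]
  exact hρc.contDiff_convolution_right _ hg hρ

theorem moll_deriv {n : ℕ} {g : E n → ℝ} (hg : LocallyIntegrable g) {ρ : E n → ℝ}
    (hρ : ContDiff ℝ ∞ ρ) (hρc : HasCompactSupport ρ) (j : Fin n) (x : E n) :
    pd (fun z => ∫ y, g y * ρ (z - y)) j x = ∫ y, g y * pd ρ j (x - y) := by
  rw [conv_eq]
  unfold pd
  have h1 : ContDiff ℝ 1 ρ := hρ.of_le (by exact_mod_cast le_top)
  rw [(hρc.hasFDerivAt_convolution_right (ContinuousLinearMap.lsmul ℝ ℝ) hg h1 x).fderiv,
    convolution_precompR_apply _ hg (hρc.fderiv ℝ) (h1.continuous_fderiv (by simp))]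
  rfl

theorem tangent {p : ℕ} {s m : ℝ} (hp : 1 ≤ p) (hs : 0 ≤ s) (hm : 0 ≤ m) :
    m ^ p + p * m ^ (p - 1) * (s - m) ≤ s ^ p := by
  rcases hm.eq_or_lt with h | h
  · rw [← h]
    obtain ⟨q, rfl⟩ : ∃ q, p = q + 1 := ⟨p - 1, by omega⟩
    rcases Nat.eq_zero_or_pos q with hq | hq
    · subst hq; simp
    · simp [hq.ne', pow_nonneg hs]
  · have h1 := one_add_mul_le_pow (a := s / m - 1) (by
      have : 0 ≤ s / m := by positivity
      linarith) p
    have h2 : 0 < m ^ p := pow_pos h p
    have h3 := mul_le_mul_of_nonneg_left h1 h2.le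
    have h4 : m ^ p * (1 + (s / m - 1)) ^ p = s ^ p := by
      rw [← mul_pow]; congr 1; field_simp; ring
    have h5 : m ^ p * (1 + p * (s / m - 1)) = m ^ p + p * m ^ (p - 1) * (s - m) := by
      obtain ⟨q, rfl⟩ : ∃ q, p = q + 1 := ⟨p - 1, by omega⟩
      rw [Nat.add_sub_cancel, pow_succ]
      field_simp
    linarith

theorem jensen {n : ℕ} {p : ℕ} (hp : 1 ≤ p) (w s : E n → ℝ) (hw0 : ∀ y, 0 ≤ w y)
    (hw : Integrable w) (hw1 : ∫ y, w y = 1) (hs0 : ∀ y, 0 ≤ s y)
    (h1 : Integrable fun y => w y * s y) (h2 : Integrable fun y => w y * s y ^ p) :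
    (∫ y, w y * s y) ^ p ≤ ∫ y, w y * s y ^ p := by
  set m := ∫ y, w y * s y with hm
  have hm0 : 0 ≤ m := integral_nonneg fun y => mul_nonneg (hw0 y) (hs0 y)
  have h3 : ∫ y, (m ^ p * w y + p * m ^ (p - 1) * (w y * s y - m * w y)) ≤
      ∫ y, w y * s y ^ p := by
    apply integral_mono _ h2
    · intro y
      have := mul_le_mul_of_nonneg_left (tangent hp (hs0 y) hm0) (hw0 y)
      show _ ≤ _
      dsimp only
      nlinarith
    · exact (hw.const_mul _).add ((h1.sub (hw.const_mul _)).const_mul _)
  have h4 : ∫ y, (m ^ p * w y + p * m ^ (p - 1) * (w y * s y - m * w y)) = m ^ p := by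
    have i1 : Integrable fun y => m ^ p * w y := hw.const_mul _
    have i2 : Integrable fun y => m * w y := hw.const_mul _
    have i3 : Integrable fun y => w y * s y - m * w y := h1.sub i2
    have i4 : Integrable fun y => (p : ℝ) * m ^ (p - 1) * (w y * s y - m * w y) := i3.const_mul _
    rw [integral_add i1 i4,
      integral_const_mul, integral_const_mul, integral_sub h1 i2,
      integral_const_mul, hw1, ← hm]
    ring
  rw [h4] at h3
  exact h3



/-- L9. mollification -/
theorem mollification {n : ℕ} (hn : 1 ≤ n) {f : E n → E n} {Df : E n → Matrix (Fin n) (Fin n) ℝ}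
    (hfm : Measurable f) (hDm : ∀ i j, Measurable fun x => Df x i j) {a : E n} {R : ℝ} (hR : 0 < R)
    (hf : ∀ i, IntegrableOn (fun x => f x i) (closedBall a (2 * R)))
    (hW : ∀ φ : E n → ℝ, ContDiff ℝ ∞ φ → tsupport φ ⊆ closedBall a (2 * R) →
      ∀ i j, ∫ x, f x i * pd φ j x = - ∫ x, Df x i j * φ x)
    {p : ℕ} (hp : 1 ≤ p) (hD : IntegrableOn (fun x => sn (Df x) ^ p) (closedBall a (2 * R))) :
    ∃ F : ℕ → E n → E n, (∀ k, ContDiff ℝ ∞ (F k)) ∧
      (∀ᵐ x ∂(volume.restrict (closedBall a R)),
        Tendsto (fun k => F k x) atTop (𝓝 (f x)) ∧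
        Tendsto (fun k => jac (F k) x) atTop (𝓝 (Df x))) ∧
      ∃ Φ : E n → ℝ, IntegrableOn Φ (closedBall a R) ∧
        ∀ᵐ x ∂(volume.restrict (closedBall a R)), ∀ k, sn (jac (F k) x) ^ p ≤ Φ x := by
  have hRR : closedBall a R ⊆ closedBall a (2 * R) := closedBall_subset_closedBall (by linarith)
  set B := closedBall a (2 * R) with hB
  have hBm : MeasurableSet B := measurableSet_closedBall
  have hBfin : volume B < ⊤ := measure_closedBall_lt_top
  have hsn0 : ∀ x, 0 ≤ sn (Df x) := fun x =>
    Finset.sum_nonneg fun i _ => Finset.sum_nonneg fun j _ => abs_nonneg _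
  have hsnm : Measurable fun x => sn (Df x) := by
    unfold sn
    exact Finset.measurable_sum _ fun i _ => Finset.measurable_sum _ fun j _ => (hDm i j).abs
  have hsle : ∀ s : ℝ, 0 ≤ s → s ≤ 1 + s ^ p := by
    intro s hs
    rcases le_total s 1 with h | h
    · have := pow_nonneg hs p; linarith
    · have : s ^ 1 ≤ s ^ p := pow_le_pow_right₀ h hp
      rw [pow_one] at this; linarith
  have hone : IntegrableOn (fun _ : E n => (1 : ℝ)) B := by
    rw [integrableOn_const_iff]; right; exact hBfin
  have hsnint : IntegrableOn (fun x => sn (Df x)) B := by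
    refine (hone.add hD).mono' hsnm.aestronglyMeasurable ?_
    filter_upwards with x
    rw [Real.norm_of_nonneg (hsn0 x)]
    exact hsle _ (hsn0 x)
  have hDle : ∀ i j x, |Df x i j| ≤ sn (Df x) := by
    intro i j x
    calc |Df x i j| ≤ ∑ j, |Df x i j| :=
          Finset.single_le_sum (f := fun j => |Df x i j|) (fun j _ => abs_nonneg _) (Finset.mem_univ j)
      _ ≤ sn (Df x) := Finset.single_le_sum (f := fun i => ∑ j, |Df x i j|)
          (fun i _ => Finset.sum_nonneg fun j _ => abs_nonneg _) (Finset.mem_univ i)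
  have hDint : ∀ i j, IntegrableOn (fun x => Df x i j) B := by
    intro i j
    refine hsnint.mono' (hDm i j).aestronglyMeasurable ?_
    filter_upwards with x
    exact hDle i j x
  -- truncations
  set ft : Fin n → E n → ℝ := fun i => B.indicator fun y => f y i with hft
  set Dt : Fin n → Fin n → E n → ℝ := fun i j => B.indicator fun y => Df y i j with hDt
  set s : E n → ℝ := B.indicator fun y => sn (Df y) with hs
  set H : E n → ℝ := B.indicator fun y => sn (Df y) ^ p with hH
  have hfti : ∀ i, Integrable (ft i) := fun i => (integrable_indicator_iff hBm).mpr (hf i)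
  have hDti : ∀ i j, Integrable (Dt i j) := fun i j =>
    (integrable_indicator_iff hBm).mpr (hDint i j)
  have hsi : Integrable s := (integrable_indicator_iff hBm).mpr hsnint
  have hHi : Integrable H := (integrable_indicator_iff hBm).mpr hD
  have hs0 : ∀ y, 0 ≤ s y := fun y => indicator_nonneg (fun x _ => hsn0 x) y
  have hH0 : ∀ y, 0 ≤ H y := fun y => indicator_nonneg (fun x _ => pow_nonneg (hsn0 x) p) y
  have hsH : ∀ y, s y ^ p = H y := by
    intro y
    by_cases h : y ∈ B
    · rw [hs, hH, indicator_of_mem h, indicator_of_mem h]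
    · rw [hs, hH, indicator_of_notMem h, indicator_of_notMem h, zero_pow (by omega)]
  have hsD : ∀ y, ∑ i, ∑ j, |Dt i j y| = s y := by
    intro y
    by_cases h : y ∈ B
    · rw [hs, indicator_of_mem h]
      unfold sn
      apply Finset.sum_congr rfl; intro i _
      apply Finset.sum_congr rfl; intro j _
      rw [hDt]; dsimp only; rw [indicator_of_mem h]
    · rw [hs, indicator_of_notMem h]
      apply Finset.sum_eq_zero; intro i _
      apply Finset.sum_eq_zero; intro j _
      rw [hDt]; dsimp only; rw [indicator_of_notMem h, abs_zero]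
  -- bumps
  let φ : ℕ → ContDiffBump (0 : E n) := fun k =>
    { rIn := R / (2 * (k + 2)), rOut := R / (k + 2)
      rIn_pos := by positivity
      rIn_lt_rOut := by
        apply div_lt_div_of_pos_left hR (by positivity)
        have : (0 : ℝ) ≤ k := Nat.cast_nonneg k
        linarith }
  have hφout : ∀ k, (φ k).rOut = R / (k + 2) := fun k => rfl
  have hφin : ∀ k, (φ k).rIn = R / (2 * (k + 2)) := fun k => rfl
  have hφt : Tendsto (fun k => (φ k).rOut) atTop (𝓝 0) := by
    have h1 : Tendsto (fun k : ℕ => (k : ℝ) + 2) atTop atTop :=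
      tendsto_atTop_add_const_right _ _ tendsto_natCast_atTop_atTop
    exact h1.const_div_atTop R
  obtain ⟨κ, hκ, Φ, hΦ, hdom⟩ := moll_dom hHi hH0 φ hφt
  set ρ : ℕ → E n → ℝ := fun k => (φ (κ k)).normed volume with hρ
  have hρs : ∀ k, ContDiff ℝ ∞ (ρ k) := fun k => (φ (κ k)).contDiff_normed
  have hρc : ∀ k, HasCompactSupport (ρ k) := fun k => (φ (κ k)).hasCompactSupport_normed
  have hρ0 : ∀ k y, 0 ≤ ρ k y := fun k y => (φ (κ k)).nonneg_normed y
  have hρR : ∀ k, (φ (κ k)).rOut ≤ R := by
    intro k
    rw [hφout]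
    apply div_le_self hR.le
    have : (0 : ℝ) ≤ (κ k : ℝ) := Nat.cast_nonneg _
    linarith
  have hρsupp : ∀ k y, y ∉ closedBall (0 : E n) R → ρ k y = 0 := by
    intro k y hy
    by_contra hne
    have h1 : y ∈ Function.support (ρ k) := hne
    rw [hρ, (φ (κ k)).support_normed_eq] at h1
    exact hy (closedBall_subset_closedBall (hρR k) (ball_subset_closedBall h1))
  have hκt : Tendsto (fun k => (φ (κ k)).rOut) atTop (𝓝 0) := hφt.comp hκ.tendsto_atTop
  have hKφ : ∀ᶠ k in atTop, (φ (κ k)).rOut ≤ 2 * (φ (κ k)).rIn := by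
    filter_upwards with k
    rw [hφout, hφin]
    apply le_of_eq
    field_simp
  -- a.e. convergence
  have hconv : ∀ g : E n → ℝ, Integrable g →
      ∀ᵐ x, Tendsto (fun k => ∫ y, g y * ρ k (x - y)) atTop (𝓝 (g x)) := by
    intro g hg
    filter_upwards [ContDiffBump.ae_convolution_tendsto_right_of_locallyIntegrable
      (φ := fun k => φ (κ k)) hκt hKφ hg.locallyIntegrable] with x hx
    refine hx.congr (fun k => ?_)
    rw [convolution_lsmul_swap]
    apply integral_congr_ae
    filter_upwards with y
    rw [smul_eq_mul, mul_comm]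
  -- the sequence
  set F : ℕ → E n → E n := fun k z i => ∫ y, ft i y * ρ k (z - y) with hF
  have hFs : ∀ k, ContDiff ℝ ∞ (F k) := by
    intro k
    rw [contDiff_pi]
    intro i
    exact moll_smooth (hfti i).locallyIntegrable (hρs k) (hρc k)
  have hxsub : ∀ x ∈ closedBall a R, ∀ y, x - y ∈ closedBall (0 : E n) R → y ∈ B := by
    intro x hx y hy
    rw [mem_closedBall] at hx
    rw [mem_closedBall, dist_zero_right, ← dist_eq_norm, dist_comm] at hy
    rw [hB, mem_closedBall]
    calc dist y a ≤ dist y x + dist x a := dist_triangle _ _ _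
      _ ≤ R + R := add_le_add hy hx
      _ = 2 * R := by ring
  have hjac : ∀ k, ∀ x ∈ closedBall a R, ∀ i j,
      jac (F k) x i j = ∫ y, Dt i j y * ρ k (x - y) := by
    intro k x hx i j
    have e1 : jac (F k) x i j = pd (fun z => ∫ y, ft i y * ρ k (z - y)) j x := rfl
    rw [e1, moll_deriv (hfti i).locallyIntegrable (hρs k) (hρc k)]
    set ψ : E n → ℝ := fun y => ρ k (x - y) with hψ
    have hψs : ContDiff ℝ ∞ ψ := (hρs k).comp (contDiff_const.sub contDiff_id)
    have hψsupp : tsupport ψ ⊆ B := by
      apply closure_minimal _ isClosed_closedBall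
      intro y hy
      by_contra hyB
      apply hy
      apply hρsupp
      intro h
      exact hyB (hxsub x hx y h)
    have hpd : ∀ y, pd ψ j y = - pd (ρ k) j (x - y) := by
      intro y
      unfold pd
      have h1 : HasFDerivAt (ρ k) (fderiv ℝ (ρ k) (x - y)) (x - y) :=
        (((hρs k).differentiable (by simp)) (x - y)).hasFDerivAt
      have h2 : HasFDerivAt (fun y : E n => x - y) (-(ContinuousLinearMap.id ℝ (E n))) y :=
        (hasFDerivAt_id y).const_sub x
      have h3 := h1.comp y h2
      have h4 : fderiv ℝ ψ y = (fderiv ℝ (ρ k) (x - y)).comp (-(ContinuousLinearMap.id ℝ (E n))) :=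
        h3.fderiv
      rw [h4]
      simp
    have hW' := hW ψ hψs hψsupp i j
    have hpd0 : ∀ y, y ∉ B → pd (ρ k) j (x - y) = 0 := by
      intro y hy
      have h1 : pd ψ j y = 0 := by
        have h2 : y ∉ tsupport ψ := fun h => hy (hψsupp h)
        unfold pd
        rw [show fderiv ℝ ψ y = 0 from by
          by_contra hne
          exact h2 (support_fderiv_subset ℝ hne)]
        rfl
      rw [hpd y] at h1
      linarith
    have e2 : ∫ y, ft i y * pd (ρ k) j (x - y) = - ∫ y, f y i * pd ψ j y := by
      rw [← integral_neg]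
      apply integral_congr_ae
      filter_upwards with y
      by_cases h : y ∈ B
      · rw [hft]; dsimp only; rw [indicator_of_mem h, hpd y]; ring
      · rw [hpd y, hpd0 y h]; ring
    have e3 : ∫ y, Dt i j y * ρ k (x - y) = ∫ y, Df y i j * ψ y := by
      apply integral_congr_ae
      filter_upwards with y
      by_cases h : y ∈ B
      · rw [hDt]; dsimp only; rw [indicator_of_mem h]
      · have : ψ y = 0 := by
          by_contra hne
          exact h (hψsupp (subset_tsupport _ hne))
        rw [this, show ρ k (x - y) = 0 from this]; ring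
    rw [e2, e3, hW', neg_neg]
  refine ⟨F, hFs, ?_, Φ, hΦ.integrableOn, ?_⟩
  · have h1 : ∀ᵐ x, ∀ i, Tendsto (fun k => ∫ y, ft i y * ρ k (x - y)) atTop (𝓝 (ft i x)) :=
      ae_all_iff.mpr fun i => hconv _ (hfti i)
    have h2 : ∀ᵐ x, ∀ i j, Tendsto (fun k => ∫ y, Dt i j y * ρ k (x - y)) atTop (𝓝 (Dt i j x)) :=
      ae_all_iff.mpr fun i => ae_all_iff.mpr fun j => hconv _ (hDti i j)
    filter_upwards [ae_restrict_of_ae h1, ae_restrict_of_ae h2,
      ae_restrict_mem measurableSet_closedBall] with x hx1 hx2 hx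
    have hxB : x ∈ B := hRR hx
    constructor
    · rw [tendsto_pi_nhds]
      intro i
      have := hx1 i
      rw [hft] at this
      dsimp only at this
      rw [indicator_of_mem hxB] at this
      exact this
    · refine tendsto_pi_nhds.mpr fun i => ?_
      refine tendsto_pi_nhds.mpr fun j => ?_
      have := hx2 i j
      rw [hDt] at this
      dsimp only at this
      rw [indicator_of_mem hxB] at this
      refine this.congr (fun k => ?_)
      rw [hjac k x hx i j, hDt]
  · filter_upwards [ae_restrict_of_ae hdom, ae_restrict_mem measurableSet_closedBall] with x hxd hx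
    intro k
    have hw0 : ∀ y, 0 ≤ ρ k (x - y) := fun y => hρ0 k _
    have hwi : Integrable fun y => ρ k (x - y) :=
      ((φ (κ k)).integrable_normed (μ := volume)).comp_sub_left x
    have hw1 : ∫ y, ρ k (x - y) = 1 := by
      rw [integral_sub_left_eq_self]
      exact (φ (κ k)).integral_normed
    obtain ⟨C, hC⟩ : ∃ C, ∀ y, ‖ρ k y‖ ≤ C :=
      (hρc k).exists_bound_of_continuous (hρs k).continuous
    have hmul : ∀ g : E n → ℝ, Integrable g → Integrable fun y => ρ k (x - y) * g y := by
      intro g hg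
      refine (hg.norm.const_mul C).mono'
        (((hρs k).continuous.comp (continuous_const.sub continuous_id)).aestronglyMeasurable.mul
          hg.1) ?_
      filter_upwards with y
      rw [norm_mul]
      exact mul_le_mul_of_nonneg_right (hC _) (norm_nonneg _)
    have h1 : sn (jac (F k) x) ≤ ∫ y, ρ k (x - y) * s y := by
      have e1 : ∫ y, ρ k (x - y) * s y = ∑ i, ∑ j, ∫ y, ρ k (x - y) * |Dt i j y| := by
        have e2 : ∀ y, ρ k (x - y) * s y = ∑ i, ∑ j, ρ k (x - y) * |Dt i j y| := by
          intro y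
          rw [← hsD y, Finset.mul_sum]
          apply Finset.sum_congr rfl; intro i _
          rw [Finset.mul_sum]
        simp_rw [e2]
        rw [integral_finset_sum]
        · apply Finset.sum_congr rfl; intro i _
          rw [integral_finset_sum]
          intro j _
          exact hmul _ (hDti i j).abs
        · intro i _
          apply integrable_finset_sum
          intro j _
          exact hmul _ (hDti i j).abs
      rw [e1]
      unfold sn
      apply Finset.sum_le_sum; intro i _
      apply Finset.sum_le_sum; intro j _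
      rw [hjac k x hx i j]
      refine (abs_integral_le_integral_abs).trans (le_of_eq ?_)
      apply integral_congr_ae
      filter_upwards with y
      rw [abs_mul, abs_of_nonneg (hw0 y), mul_comm]
    have h2 : 0 ≤ sn (jac (F k) x) :=
      Finset.sum_nonneg fun i _ => Finset.sum_nonneg fun j _ => abs_nonneg _
    calc sn (jac (F k) x) ^ p ≤ (∫ y, ρ k (x - y) * s y) ^ p := pow_le_pow_left₀ h2 h1 p
      _ ≤ ∫ y, ρ k (x - y) * s y ^ p := by
          apply jensen hp _ _ hw0 hwi hw1 hs0 (hmul s hsi)
          simp_rw [hsH]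
          exact hmul H hHi
      _ = ∫ y, ρ k (x - y) * H y := by simp_rw [hsH]
      _ ≤ Φ x := hxd k


end H930.BL.J09b

namespace H930.BL

export J09b (mollification)

end H930.BL
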