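import Pool.Agent.Helper930.BL.Defs

set_option autoImplicit false
open MeasureTheory Metric Set Filter Topology
open scoped ENNReal NNReal ContDiff

namespace H930.BL.J12a



lemma fderiv_le_gr {n : ℕ} (v : E n → ℝ) (p w : E n) :
    |fderiv ℝ v p w| ≤ gr v p * ‖w‖ := by
  have hw : w = ∑ j, w j • (Pi.single j (1:ℝ) : E n) := by
    have := pi_eq_sum_univ' w
    rw [this]
    ext k
    simp [Finset.sum_apply, Pi.single_apply]
  have h1 : fderiv ℝ v p w = ∑ j, w j * pd v j p := by
    conv_lhs => rw [hw]
    rw [map_sum]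
    apply Finset.sum_congr rfl
    intro j _
    rw [map_smul, smul_eq_mul, pd]
  rw [h1]
  calc |∑ j, w j * pd v j p| ≤ ∑ j, |w j * pd v j p| := Finset.abs_sum_le_sum_abs _ _
    _ ≤ ∑ j, |pd v j p| * ‖w‖ := by
        apply Finset.sum_le_sum
        intro j _
        rw [abs_mul, mul_comm]
        apply mul_le_mul_of_nonneg_left _ (abs_nonneg _)
        exact norm_le_pi_norm w j
    _ = gr v p * ‖w‖ := by rw [gr, Finset.sum_mul]

lemma gr_cont {n : ℕ} {v : E n → ℝ} (hv : ContDiff ℝ 1 v) : Continuous (gr v) := by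
  unfold gr pd
  refine continuous_finsetSum _ (fun j _ => ?_)
  exact ((hv.continuous_fderiv (by norm_num)).clm_apply continuous_const).abs

lemma gr_nonneg {n : ℕ} (v : E n → ℝ) (p : E n) : 0 ≤ gr v p :=
  Finset.sum_nonneg (fun _ _ => abs_nonneg _)

lemma ptw {n : ℕ} {v : E n → ℝ} (hv : ContDiff ℝ 1 v) {c z : E n} {r : ℝ}
    (hz : z ∈ closedBall c r) :
    |v c - v z| ≤ ∫ s in (0:ℝ)..1, gr v (c + s • (z - c)) * r := by
  have hzr : ‖z - c‖ ≤ r := by rwa [mem_closedBall_iff_norm] at hz
  have hd : ∀ s : ℝ, HasDerivAt (fun s : ℝ => v (c + s • (z - c)))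
      (fderiv ℝ v (c + s • (z - c)) (z - c)) s := by
    intro s
    have h1 : HasDerivAt (fun s : ℝ => c + s • (z - c)) (z - c) s := by
      simpa using ((hasDerivAt_id s).smul_const (z - c)).const_add c
    exact ((hv.differentiable (by norm_num)) _).hasFDerivAt.comp_hasDerivAt s h1
  have hcont : Continuous (fun s : ℝ => fderiv ℝ v (c + s • (z - c)) (z - c)) := by
    have : Continuous (fun s : ℝ => fderiv ℝ v (c + s • (z - c))) :=
      (hv.continuous_fderiv (by norm_num)).comp (by fun_prop)
    exact this.clm_apply continuous_const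
  have hftc := intervalIntegral.integral_eq_sub_of_hasDerivAt (a := 0) (b := 1)
    (fun s _ => hd s) (hcont.intervalIntegrable 0 1)
  simp only [one_smul, zero_smul, add_zero, add_sub_cancel] at hftc
  have h2 : |v c - v z| = ‖∫ s in (0:ℝ)..1, fderiv ℝ v (c + s • (z - c)) (z - c)‖ := by
    rw [hftc, Real.norm_eq_abs, abs_sub_comm]
  rw [h2]
  have hgc : Continuous (fun s : ℝ => gr v (c + s • (z - c)) * r) :=
    ((gr_cont hv).comp (by fun_prop)).mul continuous_const
  refine (intervalIntegral.norm_integral_le_integral_norm (by norm_num)).trans ?_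
  apply intervalIntegral.integral_mono_on (by norm_num) (hcont.norm.intervalIntegrable 0 1)
    (hgc.intervalIntegrable 0 1)
  intro s _
  rw [Real.norm_eq_abs]
  exact (fderiv_le_gr v _ _).trans (mul_le_mul_of_nonneg_left hzr (gr_nonneg v _))

lemma shift_int {n : ℕ} (F : E n → ℝ) (c : E n) (r : ℝ) :
    ∫ z in closedBall c r, F (z - c) = ∫ w in closedBall (0 : E n) r, F w := by
  rw [← integral_indicator measurableSet_closedBall, ← integral_indicator measurableSet_closedBall,
    ← integral_sub_right_eq_self ((closedBall (0 : E n) r).indicator F) c]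
  congr 1
  ext z
  by_cases h : z ∈ closedBall c r
  · have h' : z - c ∈ closedBall (0 : E n) r := by
      rw [mem_closedBall_iff_norm] at h ⊢
      simpa using h
    rw [Set.indicator_of_mem h, Set.indicator_of_mem h']
  · have h' : z - c ∉ closedBall (0 : E n) r := by
      rw [mem_closedBall_iff_norm] at h ⊢
      simpa using h
    rw [Set.indicator_of_notMem h, Set.indicator_of_notMem h']

open scoped Pointwise in
lemma scale_int {n : ℕ} (g : E n → ℝ) (c : E n) (r s : ℝ) (hs : 0 < s) :
    ∫ z in closedBall c r, g (c + s • (z - c)) = (s ^ n)⁻¹ * ∫ z in closedBall c (s * r), g z := by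
  have h1 : ∫ z in closedBall c r, g (c + s • (z - c)) =
      ∫ w in closedBall (0 : E n) r, g (c + s • w) := shift_int (fun w => g (c + s • w)) c r
  have h2 : ∫ z in closedBall c (s * r), g z = ∫ w in closedBall (0 : E n) (s * r), g (c + w) := by
    have := shift_int (fun w => g (c + w)) c (s * r)
    simpa using this
  rw [h1, h2]
  have h3 := Measure.setIntegral_comp_smul_of_pos (volume : Measure (E n))
    (fun w => g (c + w)) (closedBall (0 : E n) r) hs
  rw [h3]
  have h4 : s • closedBall (0 : E n) r = closedBall (0 : E n) (s * r) := by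
    rw [smul_closedBall' hs.ne', smul_zero, Real.norm_eq_abs, abs_of_pos hs]
  rw [h4]
  simp [Module.finrank_fin_fun]

lemma avg {n : ℕ} {v : E n → ℝ} (hv : ContDiff ℝ 1 v) {c : E n} {r lam : ℝ} (hr : 0 < r)
    (hc : ∀ ρ : ℝ, 0 < ρ → ρ ≤ r → ∫ z in closedBall c ρ, gr v z ≤ lam * (2 * ρ) ^ n) :
    ∫ z in closedBall c r, |v c - v z| ≤ r * (lam * (2 * r) ^ n) := by
  set B := closedBall c r with hB
  have hBc : IsCompact B := isCompact_closedBall c r
  set F : E n → ℝ → ℝ := fun z s => gr v (c + s • (z - c)) * r with hF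
  have hFc : Continuous (Function.uncurry F) := by
    have : Continuous (fun p : E n × ℝ => gr v (c + p.2 • (p.1 - c)) * r) :=
      ((gr_cont hv).comp (by fun_prop)).mul continuous_const
    exact this
  have hint : Integrable (Function.uncurry F)
      ((volume.restrict B).prod (volume.restrict (Ioc (0:ℝ) 1))) := by
    rw [Measure.prod_restrict]
    have h1 : IntegrableOn (Function.uncurry F) (B ×ˢ Icc (0:ℝ) 1)
        ((volume : Measure (E n)).prod (volume : Measure ℝ)) :=
      hFc.continuousOn.integrableOn_compact (hBc.prod isCompact_Icc)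
    exact h1.mono_set (Set.prod_mono le_rfl Ioc_subset_Icc_self)
  have hstep1 : ∫ z in B, |v c - v z| ≤ ∫ z in B, ∫ s in Ioc (0:ℝ) 1, F z s := by
    apply setIntegral_mono_on
    · exact ((continuous_const.sub hv.continuous).abs).continuousOn.integrableOn_compact hBc
    · exact hint.integral_prod_left
    · exact measurableSet_closedBall
    · intro z hz
      have := ptw hv hz
      rwa [intervalIntegral.integral_of_le (by norm_num)] at this
  refine hstep1.trans ?_
  rw [integral_integral_swap hint]
  have hbound : ∀ s ∈ Ioc (0:ℝ) 1, ∫ z in B, F z s ≤ r * (lam * (2 * r) ^ n) := by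
    intro s hs
    simp only [hF]
    rw [integral_mul_const, hB, scale_int (gr v) c r s hs.1, mul_comm]
    apply mul_le_mul_of_nonneg_left _ hr.le
    have h5 := hc (s * r) (mul_pos hs.1 hr) (by nlinarith [hs.2])
    have hsn : 0 < s ^ n := pow_pos hs.1 n
    calc (s ^ n)⁻¹ * ∫ z in closedBall c (s * r), gr v z
        ≤ (s ^ n)⁻¹ * (lam * (2 * (s * r)) ^ n) :=
          mul_le_mul_of_nonneg_left h5 (inv_pos.2 hsn).le
      _ = lam * (2 * r) ^ n := by
          rw [show (2 * (s * r)) = s * (2 * r) by ring, mul_pow s (2 * r)]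
          field_simp
  have h6 : ∫ s in Ioc (0:ℝ) 1, ∫ z in B, F z s ≤ ∫ s in Ioc (0:ℝ) 1, r * (lam * (2 * r) ^ n) := by
    apply setIntegral_mono_on
    · exact hint.integral_prod_right
    · exact integrableOn_const (by simp)
    · exact measurableSet_Ioc
    · exact hbound
  refine h6.trans ?_
  simp



/-- L13a. pointwise estimate by the maximal function of the gradient -/
theorem pointwise_max {n : ℕ} (hn : 1 ≤ n) {v : E n → ℝ} (hv : ContDiff ℝ 1 v) {x y : E n}
    {lam : ℝ}
    (hx : ∀ ρ : ℝ, 0 < ρ → ρ ≤ dist x y → ∫ z in closedBall x ρ, gr v z ≤ lam * (2 * ρ) ^ n)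
    (hy : ∀ ρ : ℝ, 0 < ρ → ρ ≤ dist x y → ∫ z in closedBall y ρ, gr v z ≤ lam * (2 * ρ) ^ n) :
    |v x - v y| ≤ 2 ^ (n + 1) * lam * dist x y := by
  rcases eq_or_lt_of_le (dist_nonneg (x := x) (y := y)) with h0 | hr
  · have : x = y := by rw [← dist_eq_zero]; exact h0.symm
    subst this
    simp
  set r := dist x y with hrdef
  have ax := avg hv hr hx
  have ay := avg hv hr hy
  set m : E n := midpoint ℝ x y with hm
  set K := closedBall m (r / 2) with hK
  have hmx : dist m x = r / 2 := by
    rw [hm, dist_midpoint_left]; simp [hrdef]; ring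
  have hmy : dist m y = r / 2 := by
    rw [hm, dist_midpoint_right]; simp [hrdef]; ring
  have hKx : K ⊆ closedBall x r := closedBall_subset_closedBall' (by rw [hmx]; linarith)
  have hKy : K ⊆ closedBall y r := closedBall_subset_closedBall' (by rw [hmy]; linarith)
  have hcx : Continuous (fun z => |v x - v z|) := (continuous_const.sub hv.continuous).abs
  have hcy : Continuous (fun z => |v y - v z|) := (continuous_const.sub hv.continuous).abs
  have ix : IntegrableOn (fun z => |v x - v z|) (closedBall x r) :=
    hcx.continuousOn.integrableOn_compact (isCompact_closedBall x r)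
  have iy : IntegrableOn (fun z => |v y - v z|) (closedBall y r) :=
    hcy.continuousOn.integrableOn_compact (isCompact_closedBall y r)
  have k1 : ∫ z in K, |v x - v z| ≤ ∫ z in closedBall x r, |v x - v z| :=
    setIntegral_mono_set ix (Eventually.of_forall fun z => abs_nonneg _) hKx.eventuallyLE
  have k2 : ∫ z in K, |v y - v z| ≤ ∫ z in closedBall y r, |v y - v z| :=
    setIntegral_mono_set iy (Eventually.of_forall fun z => abs_nonneg _) hKy.eventuallyLE
  have hvol : (volume : Measure (E n)).real K = r ^ n := by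
    rw [Measure.real, hK, Real.volume_pi_closedBall _ (by positivity), Fintype.card_fin,
      ENNReal.toReal_ofReal (by positivity)]
    congr 1; ring
  have k3 : ∫ z in K, |v x - v y| ≤ ∫ z in K, (|v x - v z| + |v y - v z|) := by
    apply setIntegral_mono_on
    · exact integrableOn_const (isCompact_closedBall m (r/2)).measure_lt_top.ne
    · exact (ix.mono_set hKx).add (iy.mono_set hKy)
    · exact measurableSet_closedBall
    · intro z _
      have : v x - v y = (v x - v z) - (v y - v z) := by ring
      rw [this]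
      exact abs_sub _ _
  rw [integral_add (ix.mono_set hKx) (iy.mono_set hKy), setIntegral_const, hvol, smul_eq_mul] at k3
  have k4 : r ^ n * |v x - v y| ≤ 2 * (r * (lam * (2 * r) ^ n)) := by linarith
  have hrn : 0 < r ^ n := pow_pos hr n
  have k5 : 2 * (r * (lam * (2 * r) ^ n)) = r ^ n * (2 ^ (n + 1) * lam * r) := by
    rw [mul_pow, pow_succ]; ring
  rw [k5] at k4
  exact le_of_mul_le_mul_left k4 hrn


end H930.BL.J12a

namespace H930.BL

export J12a (pointwise_max)

end H930.BL
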