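import Pool.Agent.Helper930.BL.Hol
import Pool.Agent.Helper930.BL.J09b
import Pool.Agent.Helper930.BL.J12b
import Pool.Agent.Helper930.BL.J03

set_option autoImplicit false

open MeasureTheory Metric Set Filter Topology
open scoped ENNReal NNReal ContDiff

namespace H930.BL


theorem local_pieces_aux {n : ℕ} {f : E n → E n} {D : E n → Matrix (Fin n) (Fin n) ℝ}
    {Ω : Set (E n)} (h : FDMap f D Ω) (hn : 2 ≤ n) (a : E n) :
    ∃ t : Set (E n), ∃ A : ℕ → Set (E n), (a ∈ Ω → t ∈ 𝓝 a) ∧ (∀ j, MeasurableSet (A j)) ∧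
      (∀ j, A j ⊆ Ω) ∧
      volume (t \ ⋃ j, A j) = 0 ∧ ∀ j, ∀ x ∈ A j, HasFDerivWithinAt f (toC (D x)) (A j) x := by
  by_cases ha : a ∈ Ω
  swap
  · refine ⟨∅, fun _ => ∅, fun h => absurd h ha, fun _ => MeasurableSet.empty,
      fun _ => empty_subset _, by simp, fun j x hx => absurd hx (notMem_empty x)⟩
  obtain ⟨ε, hε, hball⟩ := Metric.isOpen_iff.1 h.isOpen a ha
  set R : ℝ := ε / 4 with hRdef
  have hR : 0 < R := by positivity
  have h2R : closedBall a (2 * R) ⊆ Ω :=
    (closedBall_subset_ball (by linarith)).trans hball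
  have hKc : IsCompact (closedBall a (2 * R)) := isCompact_closedBall a _
  set fh : E n → E n := Ω.indicator f with hfhdef
  have hfh : ∀ x ∈ Ω, fh x = f x := fun x hx => Set.indicator_of_mem hx f
  have hfm : Measurable fh := by
    classical
    have := ContinuousOn.measurable_piecewise (f := f) (g := (0 : E n → E n)) (s := Ω) h.cont
      continuousOn_const h.isOpen.measurableSet
    rwa [Set.piecewise_eq_indicator] at this
  have hf : ∀ i, IntegrableOn (fun x => fh x i) (closedBall a (2 * R)) := by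
    intro i
    have h1 : ContinuousOn (fun x => fh x i) (closedBall a (2 * R)) := by
      have h2 : ContinuousOn (fun x => f x i) (closedBall a (2 * R)) :=
        (continuous_apply i).comp_continuousOn (h.cont.mono h2R)
      refine h2.congr fun x hx => ?_
      rw [hfh x (h2R hx)]
    exact h1.integrableOn_compact hKc
  have hW : ∀ φ : E n → ℝ, ContDiff ℝ ∞ φ → tsupport φ ⊆ closedBall a (2 * R) →
      ∀ i j, ∫ x, fh x i * pd φ j x = - ∫ x, D x i j * φ x := by
    intro φ hφ hsupp i j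
    have hc : HasCompactSupport φ := hKc.of_isClosed_subset (isClosed_tsupport φ) hsupp
    rw [← h.weak φ hφ hc (hsupp.trans h2R) i j]
    congr 1
    funext x
    by_cases hx : x ∈ Ω
    · rw [hfh x hx]
    · have : x ∉ tsupport φ := fun h2 => hx (h2R (hsupp h2))
      rw [pd_eq_zero_of_notMem this, mul_zero, mul_zero]
  have hD : IntegrableOn (fun x => sn (D x) ^ 1) (closedBall a (2 * R)) := by
    have := (D_int h hn hKc h2R).1
    simpa only [pow_one] using this
  obtain ⟨F, hF, hconv, Φ, hΦ, hdom⟩ := mollification (by omega : 1 ≤ n) hfm h.meas hR hf hW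
    le_rfl hD
  have hdom' : ∀ᵐ x ∂(volume.restrict (closedBall a R)), ∀ k, sn (jac (F k) x) ≤ Φ x := by
    simpa only [pow_one] using hdom
  obtain ⟨A, hAm, hAsub, hA0, hAd⟩ := approx_diff (by omega : 1 ≤ n) hfm h.meas hR hF hΦ hconv hdom'
  have hAΩ : ∀ j, A j ⊆ Ω := fun j =>
    (hAsub j).trans ((closedBall_subset_closedBall (by linarith)).trans h2R)
  refine ⟨closedBall a (R / 4), A, fun _ => closedBall_mem_nhds a (by positivity), hAm, hAΩ, hA0, ?_⟩
  intro j x hx
  exact (hAd j x hx).congr (fun y hy => (hfh y (hAΩ j hy)).symm) (hfh x (hAΩ j hx)).symm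

theorem pieces_aux {n : ℕ} {f : E n → E n} {D : E n → Matrix (Fin n) (Fin n) ℝ}
    {Ω : Set (E n)} (h : FDMap f D Ω) (hn : 2 ≤ n) :
    ∃ B : ℕ → Set (E n), (∀ j, MeasurableSet (B j)) ∧ Pairwise (Function.onFun Disjoint B) ∧
      volume (Ω \ ⋃ j, B j) = 0 ∧ ∀ j, ∀ x ∈ B j, HasFDerivWithinAt f (toC (D x)) (B j) x := by
  choose t A ht hAm hAΩ hA0 hAd using fun a => local_pieces_aux h hn a
  obtain ⟨T, hTΩ, hTc, hcov⟩ := TopologicalSpace.countable_cover_nhdsWithin (s := Ω) (f := t)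
    (fun x hx => mem_nhdsWithin_of_mem_nhds (ht x hx))
  rcases Set.eq_empty_or_nonempty T with hT | hT
  · have hΩ : Ω = ∅ := by
      rw [hT] at hcov
      simpa using hcov
    refine ⟨fun _ => ∅, fun _ => MeasurableSet.empty, ?_, by simp [hΩ], ?_⟩
    · intro i j _
      simp [Function.onFun]
    · intro j x hx
      exact absurd hx (notMem_empty x)
  · obtain ⟨u, hu⟩ := hTc.exists_eq_range hT
    set B : ℕ → Set (E n) := fun m => A (u m.unpair.1) m.unpair.2 with hB
    have hUB : ∀ k j, A (u k) j ⊆ ⋃ m, B m := by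
      intro k j x hx
      refine mem_iUnion.2 ⟨Nat.pair k j, ?_⟩
      simp only [hB, Nat.unpair_pair]
      exact hx
    refine ⟨disjointed B, fun j => ?_, disjoint_disjointed B, ?_, ?_⟩
    · exact MeasurableSet.disjointed (fun m => hAm _ _) j
    · rw [iUnion_disjointed]
      have hsub : Ω \ ⋃ m, B m ⊆ ⋃ k : ℕ, (t (u k) \ ⋃ j, A (u k) j) := by
        rintro x ⟨hx, hxB⟩
        have h1 := hcov hx
        rw [hu] at h1
        simp only [mem_iUnion, mem_range, exists_prop, exists_exists_eq_and] at h1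
        obtain ⟨k, hk⟩ := h1
        refine mem_iUnion.2 ⟨k, hk, ?_⟩
        intro h2
        obtain ⟨j, hj⟩ := mem_iUnion.1 h2
        exact hxB (hUB k j hj)
      refine measure_mono_null hsub ?_
      rw [measure_iUnion_null_iff]
      exact fun k => hA0 (u k)
    · intro j x hx
      have hsub : disjointed B j ⊆ B j := disjointed_subset B j
      exact (hAd _ _ x (hsub hx)).mono hsub

theorem nat_sum_aux (c : ℕ → ℕ) (hM : (∑' l, (c l : ℝ≥0∞)) ≠ ⊤) :
    HasSum (fun l => (c l : ℝ)) ((⌊(∑' l, (c l : ℝ≥0∞)).toReal⌋₊ : ℕ) : ℝ) ∧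
      (∑' l, (c l : ℝ≥0∞)).toReal = ((⌊(∑' l, (c l : ℝ≥0∞)).toReal⌋₊ : ℕ) : ℝ) := by
  have hsum : Summable (fun l => (c l : ℝ)) := by
    have := ENNReal.summable_toReal hM
    simpa using this
  have h0 : ∀ᶠ l in atTop, c l = 0 := by
    have h1 := hsum.tendsto_atTop_zero
    have h2 := h1.eventually (gt_mem_nhds (one_pos : (0 : ℝ) < 1))
    filter_upwards [h2] with l hl
    have : c l < 1 := by exact_mod_cast hl
    omega
  obtain ⟨L, hL⟩ := eventually_atTop.1 h0
  have hts : (∑' l, (c l : ℝ≥0∞)) = ((∑ l ∈ Finset.range L, c l : ℕ) : ℝ≥0∞) := by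
    rw [tsum_eq_sum (s := Finset.range L)]
    · push_cast
      rfl
    · intro l hl
      rw [Finset.mem_range, not_lt] at hl
      rw [hL l hl, Nat.cast_zero]
  have hhs : HasSum (fun l => (c l : ℝ)) ((∑ l ∈ Finset.range L, c l : ℕ) : ℝ) := by
    push_cast
    apply hasSum_sum_of_ne_finset_zero
    intro l hl
    rw [Finset.mem_range, not_lt] at hl
    rw [hL l hl, Nat.cast_zero]
  rw [hts, ENNReal.toReal_natCast, Nat.floor_natCast]
  exact ⟨hhs, rfl⟩

/-- area formula with multiplicity -/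
theorem area {n : ℕ} {f : E n → E n} {D : E n → Matrix (Fin n) (Fin n) ℝ} {Ω : Set (E n)}
    (h : FDMap f D Ω) (hn : 2 ≤ n) {S : Set (E n)} (hS : MeasurableSet S) (hSΩ : S ⊆ Ω)
    (hint : IntegrableOn (fun x => (D x).det) S) :
    ∃ N : E n → ℕ, Measurable N ∧ Integrable (fun y => (N y : ℝ)) ∧
      ∀ ψ : E n → ℝ, Measurable ψ → (∃ C : ℝ, ∀ y, |ψ y| ≤ C) →
        ∫ x in S, ψ (f x) * (D x).det = ∫ y, ψ y * N y := by
  obtain ⟨B, hBm, hBd, hB0, hBder⟩ := pieces_aux h hn
  have hdm : Measurable fun x => (D x).det := meas_det' h.meas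
  set Sl : ℕ → Set (E n) := fun l => S ∩ B l ∩ {x | 0 ≤ (D x).det} with hSl
  have hSlm : ∀ l, MeasurableSet (Sl l) := fun l =>
    (hS.inter (hBm l)).inter (measurableSet_le measurable_const hdm)
  have hSld : Pairwise (Function.onFun Disjoint Sl) := by
    intro i j hij
    exact (hBd hij).mono (fun x hx => hx.1.2) (fun x hx => hx.1.2)
  have hSlS : ∀ l, Sl l ⊆ S := fun l x hx => hx.1.1
  have hUS : (⋃ l, Sl l) ⊆ S := iUnion_subset hSlS
  have hnull : volume (S \ ⋃ l, Sl l) = 0 := by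
    have hpos : volume {x | x ∈ Ω ∧ ¬ (0 ≤ (D x).det)} = 0 := by
      have h1 := (ae_restrict_iff' h.isOpen.measurableSet).1 h.pos
      have h2 : ∀ᵐ x : E n, ¬ (x ∈ Ω ∧ ¬ (0 ≤ (D x).det)) := by
        filter_upwards [h1] with x hx
        rintro ⟨h3, h4⟩
        exact h4 (hx h3).1
      rw [ae_iff] at h2
      simpa using h2
    have hsub : S \ ⋃ l, Sl l ⊆ (Ω \ ⋃ j, B j) ∪ {x | x ∈ Ω ∧ ¬ (0 ≤ (D x).det)} := by
      rintro x ⟨hx, hxS⟩
      by_cases h1 : x ∈ ⋃ j, B j
      · right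
        refine ⟨hSΩ hx, fun h2 => hxS ?_⟩
        obtain ⟨j, hj⟩ := mem_iUnion.1 h1
        exact mem_iUnion.2 ⟨j, ⟨hx, hj⟩, h2⟩
      · left
        exact ⟨hSΩ hx, h1⟩
    exact measure_mono_null hsub (measure_union_null hB0 hpos)
  have hae : (⋃ l, Sl l : Set (E n)) =ᵐ[volume] S := by
    rw [ae_eq_set]
    constructor
    · rw [Set.sdiff_eq_empty.2 hUS]
      exact measure_empty
    · exact hnull
  have harea : ∀ l, ∃ N : E n → ℤ, Measurable N ∧ Integrable (fun y => (N y : ℝ)) ∧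
      (∀ ψ : E n → ℝ, Measurable ψ → (∃ C : ℝ, ∀ y, |ψ y| ≤ C) →
        ∫ x in Sl l, ψ (f x) * (D x).det = ∫ y, ψ y * N y) ∧ ∀ y, 0 ≤ N y := by
    intro l
    have h1 := area_integer (f := f) (f' := fun x => toC (D x)) (hSlm l)
      (fun x hx => (hBder l x hx.1.2).mono (fun y hy => hy.1.2)) (by
        simp only [toC_det]
        exact hint.mono_set (hSlS l))
    obtain ⟨N, hNm, hNi, hNψ, hN0⟩ := h1
    simp only [toC_det] at hNψ hN0
    exact ⟨N, hNm, hNi, hNψ, hN0 fun x hx => hx.2⟩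
  choose Nl hNm hNi hNψ hN0 using harea
  set c : ℕ → E n → ℕ := fun l y => (Nl l y).toNat with hc
  have hcN : ∀ l y, ((c l y : ℕ) : ℝ) = (Nl l y : ℝ) := by
    intro l y
    have : ((Nl l y).toNat : ℤ) = Nl l y := Int.toNat_of_nonneg (hN0 l y)
    have h2 : (((Nl l y).toNat : ℤ) : ℝ) = (Nl l y : ℝ) := by rw [this]
    rw [← h2, Int.cast_natCast]
  have hcm : ∀ l, Measurable (c l) := by
    intro l
    exact (measurable_of_countable Int.toNat).comp (hNm l)
  -- sums over pieces
  have hψint : ∀ ψ : E n → ℝ, Measurable ψ → (∃ C : ℝ, ∀ y, |ψ y| ≤ C) →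
      IntegrableOn (fun x => ψ (f x) * (D x).det) S := by
    intro ψ hψ hC
    obtain ⟨C, hC⟩ := hC
    have hfm : AEMeasurable f (volume.restrict S) := (h.cont.mono hSΩ).aemeasurable hS
    have h1 : AEStronglyMeasurable (fun x => ψ (f x)) (volume.restrict S) :=
      (hψ.comp_aemeasurable hfm).aestronglyMeasurable
    exact Integrable.bdd_mul (c := C) hint h1 (Eventually.of_forall fun x => by
      rw [Real.norm_eq_abs]
      exact hC (f x))
  have hsumψ : ∀ ψ : E n → ℝ, Measurable ψ → (∃ C : ℝ, ∀ y, |ψ y| ≤ C) →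
      HasSum (fun l => ∫ y, ψ y * (Nl l y : ℝ)) (∫ x in S, ψ (f x) * (D x).det) := by
    intro ψ hψ hC
    have h1 := hasSum_integral_iUnion hSlm hSld ((hψint ψ hψ hC).mono_set hUS)
    rw [setIntegral_congr_set hae] at h1
    have h2 : (fun l => ∫ x in Sl l, ψ (f x) * (D x).det) =
        fun l => ∫ y, ψ y * (Nl l y : ℝ) := funext fun l => hNψ l ψ hψ hC
    rwa [h2] at h1
  have hsum1 : Summable (fun l => ∫ y, (Nl l y : ℝ)) := by
    have := (hsumψ (fun _ => 1) measurable_const ⟨1, fun _ => by simp⟩).summable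
    simpa using this
  set M : E n → ℝ≥0∞ := fun y => ∑' l, (c l y : ℝ≥0∞) with hM
  have hcem : ∀ l, Measurable fun y => (c l y : ℝ≥0∞) := fun l =>
    (measurable_of_countable (fun k : ℕ => (k : ℝ≥0∞))).comp (hcm l)
  have hMm : Measurable M := Measurable.tsum hcem
  have hMint : ∫⁻ y, M y ≠ ⊤ := by
    rw [hM, lintegral_tsum fun l => (hcem l).aemeasurable]
    have h1 : ∀ l, ∫⁻ y, (c l y : ℝ≥0∞) = ENNReal.ofReal (∫ y, (Nl l y : ℝ)) := by
      intro l
      rw [ofReal_integral_eq_lintegral_ofReal (hNi l) (Eventually.of_forall fun y => by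
        have h5 : (0 : ℝ) ≤ (Nl l y : ℝ) := by exact_mod_cast hN0 l y
        exact h5)]
      congr 1
      funext y
      rw [← hcN, ENNReal.ofReal_natCast]
    simp_rw [h1]
    rw [← ENNReal.ofReal_tsum_of_nonneg _ hsum1]
    · exact ENNReal.ofReal_ne_top
    · intro l
      exact integral_nonneg fun y => by
        have h5 : (0 : ℝ) ≤ (Nl l y : ℝ) := by exact_mod_cast hN0 l y
        exact h5
  have hMfin : ∀ᵐ y, M y ≠ ⊤ := by
    filter_upwards [ae_lt_top hMm hMint] with y hy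
    exact hy.ne
  set N : E n → ℕ := fun y => ⌊(M y).toReal⌋₊ with hN
  have hNsum : ∀ᵐ y, HasSum (fun l => (Nl l y : ℝ)) (N y : ℝ) ∧ (M y).toReal = (N y : ℝ) := by
    filter_upwards [hMfin] with y hy
    have := nat_sum_aux (fun l => c l y) hy
    refine ⟨?_, this.2⟩
    have h1 := this.1
    simp only [hcN] at h1
    exact h1
  refine ⟨N, Nat.measurable_floor.comp hMm.ennreal_toReal, ?_, ?_⟩
  · have h1 : Integrable fun y => (M y).toReal :=
      integrable_toReal_of_lintegral_ne_top hMm.aemeasurable hMint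
    refine h1.congr ?_
    filter_upwards [hNsum] with y hy
    exact hy.2
  · intro ψ hψ hC
    have h1 := hsumψ ψ hψ hC
    obtain ⟨C, hC⟩ := hC
    have hF : ∀ l, Integrable (fun y => ψ y * (Nl l y : ℝ)) := by
      intro l
      exact Integrable.bdd_mul (c := C) (hNi l) hψ.aestronglyMeasurable
        (Eventually.of_forall fun x => by
          rw [Real.norm_eq_abs]
          exact hC x)
    have hFs : Summable fun l => ∫ y, ‖ψ y * (Nl l y : ℝ)‖ := by
      refine Summable.of_nonneg_of_le (fun l => integral_nonneg fun y => norm_nonneg _)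
        (fun l => ?_) (hsum1.mul_left C)
      rw [← integral_const_mul]
      refine integral_mono (hF l).norm ((hNi l).const_mul C) fun y => ?_
      have h2 : (0 : ℝ) ≤ (Nl l y : ℝ) := by exact_mod_cast hN0 l y
      simp only [Real.norm_eq_abs, abs_mul, abs_of_nonneg h2]
      exact mul_le_mul_of_nonneg_right (hC y) h2
    have h2 := hasSum_integral_of_summable_integral_norm hF hFs
    rw [h1.unique h2]
    apply integral_congr_ae
    filter_upwards [hNsum] with y hy
    rw [tsum_mul_left, hy.1.tsum_eq]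

end H930.BL
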