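import Pool.Agent.Helper930.BL.Defs

set_option autoImplicit false

open MeasureTheory Metric Set Filter Topology
open scoped ENNReal NNReal ContDiff

namespace H930.BL.XAvB

variable {n : ℕ}


theorem av_eq {n : ℕ} {r : ℝ} (hr : 0 < r) (g : E n → ℝ) (x : E n) :
    av r g x = (2 ^ n)⁻¹ * ∫ z in closedBall (0 : E n) 1, g (x + r • z) := by
  unfold av
  have h1 := Measure.setIntegral_comp_smul_of_pos (volume : Measure (E n)) (fun w => g (x + w))
    (closedBall (0 : E n) 1) hr
  rw [h1, smul_unitClosedBall, Real.norm_of_nonneg hr.le]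
  have h2 : ∫ w in closedBall (0 : E n) r, g (x + w) = ∫ y in closedBall x r, g y := by
    have h3 := (measurePreserving_add_left (volume : Measure (E n)) x).setIntegral_preimage_emb
      (measurableEmbedding_addLeft x) g (closedBall x r)
    rw [← h3]
    congr 2
    ext w
    simp [dist_eq_norm]
  rw [h2]
  simp only [Module.finrank_fin_fun, smul_eq_mul]
  rw [mul_pow, mul_inv, mul_assoc]

theorem av_local {n : ℕ} {r : ℝ} {g g' : E n → ℝ} {x : E n} (h : ∀ y ∈ closedBall x r, g y = g' y) :
    av r g x = av r g' x := by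
  unfold av
  rw [setIntegral_congr_fun measurableSet_closedBall h]

theorem cb_sub {x z y : E n} {t r : ℝ} (hz : z ∈ closedBall x t) (hy : y ∈ closedBall z r) :
    y ∈ closedBall x (t + r) := by
  rw [mem_closedBall] at *
  linarith [dist_triangle y z x]

theorem avs_local {n : ℕ} (l : List ℝ) (hl : ∀ r ∈ l, 0 < r) {g g' : E n → ℝ} {x : E n} {t : ℝ}
    (h : ∀ y ∈ closedBall x (t + l.sum), g y = g' y) :
    ∀ z ∈ closedBall x t, avs l g z = avs l g' z := by
  induction l generalizing t with
  | nil => simpa [avs] using h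
  | cons r l ih =>
    intro z hz
    show av r (avs l g) z = av r (avs l g') z
    refine av_local fun y hy => ?_
    refine ih (fun s hs => hl s (List.mem_cons_of_mem _ hs)) (t := t + r) ?_ y (cb_sub hz hy)
    intro w hw
    refine h w ?_
    rwa [List.sum_cons, ← add_assoc]

theorem av_contDiff {n : ℕ} {r : ℝ} (hr : 0 < r) {g : E n → ℝ} (hg : ContDiff ℝ 1 g) :
    ContDiff ℝ 1 (av r g) ∧ ∀ j x, pd (av r g) j x = av r (pd g j) x := by
  have hfun : av r g = fun x => (2 ^ n)⁻¹ * ∫ z in closedBall (0 : E n) 1, g (x + r • z) := by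
    ext x; exact av_eq hr g x
  have hcf : Continuous (fun p : E n × E n => fderiv ℝ g (p.1 + r • p.2)) :=
    (hg.continuous_fderiv one_ne_zero).comp (by fun_prop)
  have hder : ∀ x : E n, HasFDerivAt (fun x => ∫ z in closedBall (0 : E n) 1, g (x + r • z))
      (∫ z in closedBall (0 : E n) 1, fderiv ℝ g (x + r • z)) x := by
    intro x₀
    -- bound
    obtain ⟨M, hM⟩ := (((isCompact_closedBall x₀ 1).prod
      (isCompact_closedBall (0 : E n) 1)).bddAbove_image hcf.norm.continuousOn)
    refine hasFDerivAt_integral_of_dominated_of_fderiv_le (s := closedBall x₀ 1)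
      (F := fun x z => g (x + r • z)) (F' := fun x z => fderiv ℝ g (x + r • z))
      (bound := fun _ => M) (closedBall_mem_nhds x₀ one_pos) ?_ ?_ ?_ ?_ ?_ ?_
    · filter_upwards with x
      exact (hg.continuous.comp (by fun_prop)).aestronglyMeasurable
    · exact (hg.continuous.comp (by fun_prop)).continuousOn.integrableOn_compact
        (isCompact_closedBall _ _)
    · have : Continuous fun z : E n => fderiv ℝ g (x₀ + r • z) :=
        (hg.continuous_fderiv one_ne_zero).comp (by fun_prop)
      exact this.aestronglyMeasurable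
    · rw [ae_restrict_iff' measurableSet_closedBall]
      filter_upwards with z hz x hx
      exact hM ⟨(x, z), ⟨hx, hz⟩, rfl⟩
    · exact integrableOn_const (isCompact_closedBall _ _).measure_lt_top.ne
    · filter_upwards with z x _
      have h1 : HasFDerivAt g (fderiv ℝ g (x + r • z)) (x + r • z) :=
        (hg.differentiable one_ne_zero _).hasFDerivAt
      exact (hasFDerivAt_comp_add_right (f := g) (r • z)).2 h1
  have hcont : Continuous fun x : E n => ∫ z in closedBall (0 : E n) 1, fderiv ℝ g (x + r • z) :=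
    continuous_parametric_integral_of_continuous (f := fun x z => fderiv ℝ g (x + r • z)) hcf
      (isCompact_closedBall _ _)
  have hI : ContDiff ℝ 1 (fun x : E n => ∫ z in closedBall (0 : E n) 1, g (x + r • z)) := by
    rw [contDiff_one_iff_fderiv]
    refine ⟨fun x => (hder x).differentiableAt, ?_⟩
    have : (fderiv ℝ fun x : E n => ∫ z in closedBall (0 : E n) 1, g (x + r • z)) =
        fun x : E n => ∫ z in closedBall (0 : E n) 1, fderiv ℝ g (x + r • z) := by
      ext1 x; exact (hder x).fderiv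
    rw [this]; exact hcont
  refine ⟨?_, fun j x => ?_⟩
  · rw [hfun]; exact contDiff_const.mul hI
  · rw [av_eq hr, pd, hfun]
    have h1 := ((hder x).const_mul ((2 ^ n : ℝ)⁻¹)).fderiv
    rw [h1, smul_apply, smul_eq_mul]
    congr 1
    rw [ContinuousLinearMap.integral_apply]
    · rfl
    · have : Continuous fun z : E n => fderiv ℝ g (x + r • z) :=
        (hg.continuous_fderiv one_ne_zero).comp (by fun_prop)
      exact this.continuousOn.integrableOn_compact (isCompact_closedBall _ _)

theorem avs_contDiff {n : ℕ} (l : List ℝ) (hl : ∀ r ∈ l, 0 < r) {g : E n → ℝ}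
    (hg : ContDiff ℝ 1 g) :
    ContDiff ℝ 1 (avs l g) ∧ ∀ j x, pd (avs l g) j x = avs l (pd g j) x := by
  induction l with
  | nil => exact ⟨hg, fun _ _ => rfl⟩
  | cons r l ih =>
    obtain ⟨h1, h2⟩ := ih fun s hs => hl s (List.mem_cons_of_mem _ hs)
    obtain ⟨h3, h4⟩ := av_contDiff (hl r List.mem_cons_self) h1
    refine ⟨h3, fun j x => ?_⟩
    show pd (av r (avs l g)) j x = av r (avs l (pd g j)) x
    rw [h4]
    exact av_local fun y _ => h2 j y

theorem av_measurable {r : ℝ} {g : E n → ℝ} (hg : Measurable g) : Measurable (av r g) := by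
  have h1 : StronglyMeasurable (Function.uncurry fun (x y : E n) =>
      indicator {p : E n × E n | dist p.2 p.1 ≤ r} (fun p => g p.2) (x, y)) := by
    refine Measurable.stronglyMeasurable ?_
    refine (hg.comp measurable_snd).indicator ?_
    exact measurableSet_le (measurable_snd.dist measurable_fst) measurable_const
  have h2 := h1.integral_prod_right (ν := (volume : Measure (E n)))
  have h3 : av r g = fun x => ((2 * r) ^ n)⁻¹ * ∫ y, indicator {p : E n × E n | dist p.2 p.1 ≤ r}
      (fun p => g p.2) (x, y) := by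
    ext x
    unfold av
    congr 1
    rw [← integral_indicator measurableSet_closedBall]
    rfl
  rw [h3]
  exact h2.measurable.const_mul _

theorem avs_measurable (l : List ℝ) {g : E n → ℝ} (hg : Measurable g) : Measurable (avs l g) := by
  induction l with
  | nil => exact hg
  | cons r l ih => exact av_measurable ih

/-- Tonelli -/
theorem tonelli_balls {r : ℝ} (hr : 0 < r) {f : E n → ℝ≥0∞} (hf : Measurable f) (c : E n) (t : ℝ) :
    ∫⁻ x in closedBall c t, ∫⁻ y in closedBall x r, f y ≤
      ENNReal.ofReal ((2 * r) ^ n) * ∫⁻ y in closedBall c (t + r), f y := by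
  have hmeas : Measurable (Function.uncurry fun (x y : E n) =>
      indicator {p : E n × E n | dist p.2 p.1 ≤ r} (fun p => f p.2) (x, y)) := by
    refine (hf.comp measurable_snd).indicator ?_
    exact measurableSet_le (measurable_snd.dist measurable_fst) measurable_const
  have h1 : ∀ x : E n, ∫⁻ y in closedBall x r, f y =
      ∫⁻ y, indicator {p : E n × E n | dist p.2 p.1 ≤ r} (fun p => f p.2) (x, y) := by
    intro x
    rw [← lintegral_indicator measurableSet_closedBall]
    rfl
  simp_rw [h1]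
  rw [lintegral_lintegral_swap hmeas.aemeasurable]
  have h2 : ∀ y : E n, (∫⁻ x in closedBall c t,
      indicator {p : E n × E n | dist p.2 p.1 ≤ r} (fun p => f p.2) (x, y)) ≤
      indicator (closedBall c (t + r)) (fun y => ENNReal.ofReal ((2 * r) ^ n) * f y) y := by
    intro y
    by_cases hy : y ∈ closedBall c (t + r)
    · rw [indicator_of_mem hy]
      calc (∫⁻ x in closedBall c t,
            indicator {p : E n × E n | dist p.2 p.1 ≤ r} (fun p => f p.2) (x, y))
          ≤ ∫⁻ x, indicator {p : E n × E n | dist p.2 p.1 ≤ r} (fun p => f p.2) (x, y) :=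
            setLIntegral_le_lintegral _ _
        _ = ∫⁻ x, indicator (closedBall y r) (fun _ => f y) x := by
            refine lintegral_congr fun x => ?_
            by_cases h : dist y x ≤ r
            · rw [indicator_of_mem (show (x, y) ∈ {p : E n × E n | dist p.2 p.1 ≤ r} from h),
                indicator_of_mem (show x ∈ closedBall y r by rwa [mem_closedBall, dist_comm])]
            · rw [indicator_of_notMem (show (x, y) ∉ {p : E n × E n | dist p.2 p.1 ≤ r} from h),
                indicator_of_notMem (show x ∉ closedBall y r by rwa [mem_closedBall, dist_comm])]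
        _ = f y * volume (closedBall y r) := by
            rw [lintegral_indicator measurableSet_closedBall, lintegral_const,
              Measure.restrict_apply_univ]
        _ = _ := by rw [volume_cube y hr.le, mul_comm]
    · rw [indicator_of_notMem hy, nonpos_iff_eq_zero]
      rw [← lintegral_zero (μ := volume.restrict (closedBall c t))]
      refine setLIntegral_congr_fun measurableSet_closedBall fun x hx => ?_
      refine indicator_of_notMem ?_ _
      intro h
      exact hy (cb_sub hx h)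
  refine (lintegral_mono h2).trans ?_
  rw [lintegral_indicator measurableSet_closedBall, lintegral_const_mul _ hf]

/-- Jensen -/
theorem jensen_ball {r : ℝ} (hr : 0 < r) {p : ℝ} (hp : 1 ≤ p) {g : E n → ℝ} {x : E n}
    (hg : AEStronglyMeasurable g (volume.restrict (closedBall x r))) :
    ‖av r g x‖ₑ ^ p ≤ (ENNReal.ofReal ((2 * r) ^ n))⁻¹ * ∫⁻ y in closedBall x r, ‖g y‖ₑ ^ p := by
  set V : ℝ≥0∞ := ENNReal.ofReal ((2 * r) ^ n) with hV
  have hVpos : 0 < (2 * r) ^ n := by positivity
  have hV0 : V ≠ 0 := by rw [hV, Ne, ENNReal.ofReal_eq_zero, not_le]; exact hVpos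
  have hVt : V ≠ (⊤ : ℝ≥0∞) := ENNReal.ofReal_ne_top
  set ν : Measure (E n) := V⁻¹ • volume.restrict (closedBall x r) with hν
  have hprob : IsProbabilityMeasure ν := by
    refine ⟨?_⟩
    rw [hν, Measure.smul_apply, Measure.restrict_apply_univ, volume_cube x hr.le, smul_eq_mul]
    exact ENNReal.inv_mul_cancel hV0 hVt
  have hgν : AEStronglyMeasurable g ν := hg.smul_measure _
  have h1 := eLpNorm'_le_eLpNorm'_of_exponent_le (μ := ν) (f := g) zero_lt_one hp hgν
  rw [eLpNorm'_eq_lintegral_enorm, eLpNorm'_eq_lintegral_enorm] at h1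
  simp only [ENNReal.rpow_one, div_one] at h1
  have hp0 : 0 < p := by linarith
  have h2 : (∫⁻ y, ‖g y‖ₑ ∂ν) ^ p ≤ ∫⁻ y, ‖g y‖ₑ ^ p ∂ν := by
    have := ENNReal.rpow_le_rpow h1 hp0.le
    rwa [← ENNReal.rpow_mul, one_div, inv_mul_cancel₀ hp0.ne', ENNReal.rpow_one] at this
  have h3 : ‖av r g x‖ₑ ≤ ∫⁻ y, ‖g y‖ₑ ∂ν := by
    rw [hν, lintegral_smul_measure]
    unfold av
    rw [enorm_mul, enorm_inv hVpos.ne', Real.enorm_of_nonneg hVpos.le, smul_eq_mul]
    gcongr
    exact enorm_integral_le_lintegral_enorm _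
  calc ‖av r g x‖ₑ ^ p ≤ (∫⁻ y, ‖g y‖ₑ ∂ν) ^ p := ENNReal.rpow_le_rpow h3 hp0.le
    _ ≤ ∫⁻ y, ‖g y‖ₑ ^ p ∂ν := h2
    _ = _ := by rw [hν, lintegral_smul_measure, smul_eq_mul]

theorem avs_lcontr {p : ℝ} (hp : 1 ≤ p) (l : List ℝ) (hl : ∀ r ∈ l, 0 < r) {g : E n → ℝ}
    (hgm : Measurable g) (x : E n) (t : ℝ) :
    ∫⁻ y in closedBall x t, ‖avs l g y‖ₑ ^ p ≤
      ∫⁻ y in closedBall x (t + l.sum), ‖g y‖ₑ ^ p := by
  induction l generalizing t with
  | nil => simp [avs]
  | cons r l ih =>
    have hr : 0 < r := hl r List.mem_cons_self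
    have hm := avs_measurable l hgm
    have hVpos : 0 < (2 * r) ^ n := by positivity
    have hV0 : ENNReal.ofReal ((2 * r) ^ n) ≠ 0 := by
      rw [Ne, ENNReal.ofReal_eq_zero, not_le]; exact hVpos
    have h1 := ih (fun s hs => hl s (List.mem_cons_of_mem _ hs)) (t + r)
    rw [List.sum_cons, ← add_assoc]
    refine le_trans ?_ h1
    calc ∫⁻ y in closedBall x t, ‖avs (r :: l) g y‖ₑ ^ p
        ≤ ∫⁻ y in closedBall x t, (ENNReal.ofReal ((2 * r) ^ n))⁻¹ *
            ∫⁻ z in closedBall y r, ‖avs l g z‖ₑ ^ p := by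
          refine lintegral_mono fun y => ?_
          exact jensen_ball hr hp hm.aestronglyMeasurable
      _ = (ENNReal.ofReal ((2 * r) ^ n))⁻¹ * ∫⁻ y in closedBall x t,
            ∫⁻ z in closedBall y r, ‖avs l g z‖ₑ ^ p :=
          lintegral_const_mul' _ _ (ENNReal.inv_ne_top.2 hV0)
      _ ≤ (ENNReal.ofReal ((2 * r) ^ n))⁻¹ * (ENNReal.ofReal ((2 * r) ^ n) *
            ∫⁻ z in closedBall x (t + r), ‖avs l g z‖ₑ ^ p) := by
          gcongr
          exact tonelli_balls hr (hm.enorm.pow_const p) x t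
      _ = _ := by
          rw [← mul_assoc, ENNReal.inv_mul_cancel hV0 ENNReal.ofReal_ne_top, one_mul]

theorem enorm_abs_rpow {p : ℝ} (hp : 1 ≤ p) (a : ℝ) : ‖|a| ^ p‖ₑ = ‖a‖ₑ ^ p := by
  rw [Real.enorm_rpow_of_nonneg (abs_nonneg _) (by linarith)]
  simp

theorem integral_abs_rpow {p : ℝ} (hp : 1 ≤ p) {g : E n → ℝ} (hgm : Measurable g)
    (s : Set (E n)) :
    ∫ y in s, |g y| ^ p = (∫⁻ y in s, ‖g y‖ₑ ^ p).toReal := by
  rw [integral_eq_lintegral_of_nonneg_ae]
  · congr 1
    refine lintegral_congr fun y => ?_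
    rw [← enorm_abs_rpow hp, Real.enorm_of_nonneg (Real.rpow_nonneg (abs_nonneg _) _)]
  · filter_upwards with y using Real.rpow_nonneg (abs_nonneg _) _
  · exact (hgm.norm.pow_const p).aestronglyMeasurable

theorem integrableOn_abs_rpow_iff {p : ℝ} (hp : 1 ≤ p) {g : E n → ℝ} (hgm : Measurable g)
    (s : Set (E n)) :
    IntegrableOn (fun y => |g y| ^ p) s ↔ ∫⁻ y in s, ‖g y‖ₑ ^ p < (⊤ : ℝ≥0∞) := by
  have h : ∫⁻ y in s, ‖|g y| ^ p‖ₑ = ∫⁻ y in s, ‖g y‖ₑ ^ p :=
    lintegral_congr fun y => enorm_abs_rpow hp _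
  unfold IntegrableOn Integrable HasFiniteIntegral
  rw [h]
  constructor
  · exact fun h => h.2
  · exact fun h => ⟨(hgm.norm.pow_const p).aestronglyMeasurable, h⟩

/-- contraction, local form -/
theorem avs_contr {n : ℕ} {p : ℝ} (hp : 1 ≤ p) (l : List ℝ) (hl : ∀ r ∈ l, 0 < r) {g : E n → ℝ}
    (hgm : Measurable g) {x : E n} {t : ℝ} (ht : 0 < t)
    (hg : IntegrableOn (fun y => |g y| ^ p) (closedBall x (t + l.sum))) :
    Measurable (avs l g) ∧ IntegrableOn (fun y => |avs l g y| ^ p) (closedBall x t) ∧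
    ∫ y in closedBall x t, |avs l g y| ^ p ≤ ∫ y in closedBall x (t + l.sum), |g y| ^ p := by
  have hm := avs_measurable l hgm
  have h1 := avs_lcontr hp l hl hgm x t
  have h2 := (integrableOn_abs_rpow_iff hp hgm _).1 hg
  refine ⟨hm, (integrableOn_abs_rpow_iff hp hm _).2 (h1.trans_lt h2), ?_⟩
  rw [integral_abs_rpow hp hm, integral_abs_rpow hp hgm]
  exact ENNReal.toReal_mono h2.ne h1

/-- integrability of an average -/
theorem av_integrableOn {r : ℝ} (hr : 0 < r) {g : E n → ℝ} {x : E n} {t : ℝ}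
    (hg : IntegrableOn g (closedBall x (t + r))) : IntegrableOn (av r g) (closedBall x t) := by
  obtain ⟨g', hg'm, hgg'⟩ := hg.1
  have hloc : ∀ z ∈ closedBall x t, av r g z = av r g' z := by
    intro z hz
    unfold av
    congr 1
    refine integral_congr_ae ?_
    exact ae_mono (Measure.restrict_mono (fun y hy => cb_sub hz hy) le_rfl) hgg'
  have hg'i : IntegrableOn g' (closedBall x (t + r)) := hg.congr hgg'
  refine IntegrableOn.congr_fun ?_ (fun z hz => (hloc z hz).symm) measurableSet_closedBall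
  have h1 := avs_lcontr (p := 1) le_rfl [r] (by simpa using hr) hg'm.measurable x t
  simp only [avs, ENNReal.rpow_one, List.sum_cons, List.sum_nil, add_zero] at h1
  exact ⟨(av_measurable hg'm.measurable).aestronglyMeasurable, h1.trans_lt hg'i.2⟩

theorem avs_integrableOn (l : List ℝ) (hl : ∀ r ∈ l, 0 < r) {g : E n → ℝ} {x : E n} {t : ℝ}
    (hg : IntegrableOn g (closedBall x (t + l.sum))) :
    IntegrableOn (avs l g) (closedBall x t) := by
  induction l generalizing t with
  | nil => simpa [avs] using hg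
  | cons r l ih =>
    refine av_integrableOn (hl r List.mem_cons_self) ?_
    refine ih (fun s hs => hl s (List.mem_cons_of_mem _ hs)) ?_
    rwa [List.sum_cons, ← add_assoc] at hg

/-- linearity, local form -/
theorem avs_sub {n : ℕ} (l : List ℝ) (hl : ∀ r ∈ l, 0 < r) {g g' : E n → ℝ}
    {x : E n} {t : ℝ} (hg : IntegrableOn g (closedBall x (t + l.sum)))
    (hg' : IntegrableOn g' (closedBall x (t + l.sum))) :
    ∀ z ∈ closedBall x t, avs l (fun y => g y - g' y) z = avs l g z - avs l g' z := by
  induction l generalizing t with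
  | nil => intro z _; rfl
  | cons r l ih =>
    intro z hz
    have hl' : ∀ s ∈ l, 0 < s := fun s hs => hl s (List.mem_cons_of_mem _ hs)
    rw [List.sum_cons, ← add_assoc] at hg hg'
    have h1 := ih hl' hg hg'
    have i1 := avs_integrableOn l hl' hg
    have i2 := avs_integrableOn l hl' hg'
    have hsub : closedBall z r ⊆ closedBall x (t + r) := fun y hy => cb_sub hz hy
    show av r (avs l fun y => g y - g' y) z = av r (avs l g) z - av r (avs l g') z
    rw [av_local (g' := fun y => avs l g y - avs l g' y) fun y hy => h1 y (hsub hy)]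
    unfold av
    rw [integral_sub (i1.mono_set hsub) (i2.mono_set hsub), mul_sub]

/-- pointwise bound by the local energy -/
theorem avs_bound {n : ℕ} {p : ℝ} (hp : 1 ≤ p) {r : ℝ} (hr : 0 < r) (l : List ℝ)
    (hl : ∀ r ∈ l, 0 < r) {g : E n → ℝ} (hgm : Measurable g) {x : E n}
    (hg : IntegrableOn (fun y => |g y| ^ p) (closedBall x (r + l.sum))) :
    |avs (r :: l) g x| ^ p ≤ ((2 * r) ^ n)⁻¹ * ∫ y in closedBall x (r + l.sum), |g y| ^ p := by
  have hm := avs_measurable l hgm
  have hVpos : 0 < (2 * r) ^ n := by positivity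
  have hV0 : ENNReal.ofReal ((2 * r) ^ n) ≠ 0 := by
    rw [Ne, ENNReal.ofReal_eq_zero, not_le]; exact hVpos
  have h1 := jensen_ball hr hp (g := avs l g) (x := x) hm.aestronglyMeasurable
  have h2 := avs_lcontr hp l hl hgm x r
  have h3 := (integrableOn_abs_rpow_iff hp hgm _).1 hg
  have h4 : ‖av r (avs l g) x‖ₑ ^ p ≤ (ENNReal.ofReal ((2 * r) ^ n))⁻¹ *
      ∫⁻ y in closedBall x (r + l.sum), ‖g y‖ₑ ^ p := h1.trans (by gcongr)
  have h5 := ENNReal.toReal_mono (ENNReal.mul_ne_top (ENNReal.inv_ne_top.2 hV0) h3.ne) h4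
  rw [ENNReal.toReal_mul, ENNReal.toReal_inv, ENNReal.toReal_ofReal hVpos.le,
    ← enorm_abs_rpow hp, Real.enorm_of_nonneg (Real.rpow_nonneg (abs_nonneg _) _),
    ENNReal.toReal_ofReal (Real.rpow_nonneg (abs_nonneg _) _), ← integral_abs_rpow hp hgm] at h5
  exact h5

end H930.BL.XAvB

namespace H930.BL

export XAvB (av_eq av_local avs_local avs_contDiff avs_contr avs_sub avs_bound)

end H930.BL
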