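import Pool.Agent.Helper930.BL.AvB

set_option autoImplicit false

open MeasureTheory Metric Set Filter Topology
open scoped ENNReal NNReal ContDiff

namespace H930.BL.XAvC

variable {n : ℕ}


theorem shift_eq (F : E n → ℝ) (x v : E n) (t : ℝ) :
    ∫ y in closedBall x t, F (y + v) = ∫ y in closedBall (x + v) t, F y := by
  have h := (measurePreserving_add_right (volume : Measure (E n)) v).setIntegral_preimage_emb
    (measurableEmbedding_addRight v) F (closedBall (x + v) t)
  have h2 : (fun y : E n => y + v) ⁻¹' (closedBall (x + v) t) = closedBall x t := by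
    ext y
    simp only [mem_preimage, mem_closedBall, dist_add_right]
  rw [h2] at h
  exact h

theorem shift_le {F : E n → ℝ} (hF : Continuous F) (hF0 : ∀ y, 0 ≤ F y) (x v : E n) (t ρ : ℝ)
    (hv : ‖v‖ ≤ ρ) :
    ∫ y in closedBall x t, F (y + v) ≤ ∫ y in closedBall x (t + ρ), F y := by
  rw [shift_eq]
  refine setIntegral_mono_set (hF.continuousOn.integrableOn_compact (isCompact_closedBall _ _))
    (Filter.Eventually.of_forall hF0) (LE.le.eventuallyLE ?_)
  intro y hy
  rw [mem_closedBall] at hy ⊢
  calc dist y x ≤ dist y (x + v) + dist (x + v) x := dist_triangle _ _ _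
    _ ≤ t + ρ := by
      rw [dist_self_add_left]
      exact add_le_add hy hv

theorem cont_rpow {X : Type*} [TopologicalSpace X] {p : ℝ} (hp : 1 ≤ p) {u : X → ℝ}
    (hu : Continuous u) : Continuous fun y => u y ^ p :=
  hu.rpow_const fun _ => Or.inr (by linarith)

/-- swap on compact sets -/
theorem swap_cpt {X Y : Type*} [TopologicalSpace X] [TopologicalSpace Y] [MeasurableSpace X]
    [MeasurableSpace Y] [OpensMeasurableSpace X] [OpensMeasurableSpace Y]
    [SecondCountableTopology X] [SecondCountableTopology Y] [T2Space X] [T2Space Y]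
    (μ : Measure X) (ν : Measure Y) [IsFiniteMeasureOnCompacts μ] [IsFiniteMeasureOnCompacts ν]
    [SFinite μ] [SFinite ν] [IsFiniteMeasureOnCompacts (μ.prod ν)]
    {F : X → Y → ℝ} (hF : Continuous (Function.uncurry F)) {K : Set X} {L : Set Y}
    (hK : IsCompact K) (hL : IsCompact L) :
    Integrable (Function.uncurry F) ((μ.restrict K).prod (ν.restrict L)) := by
  rw [Measure.prod_restrict]
  exact hF.continuousOn.integrableOn_compact (hK.prod hL)

theorem jensen01 {p : ℝ} (hp : 1 ≤ p) {u : ℝ → ℝ} (hu : Continuous u) (hu0 : ∀ θ, 0 ≤ u θ) :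
    (∫ θ in Icc (0 : ℝ) 1, u θ) ^ p ≤ ∫ θ in Icc (0 : ℝ) 1, u θ ^ p := by
  have hprob : IsProbabilityMeasure (volume.restrict (Icc (0 : ℝ) 1)) :=
    ⟨by rw [Measure.restrict_apply_univ, Real.volume_Icc]; norm_num⟩
  exact (convexOn_rpow hp).map_integral_le (μ := volume.restrict (Icc (0 : ℝ) 1)) (f := u)
    ((continuous_id.rpow_const fun _ => Or.inr (by linarith)).continuousOn) isClosed_Ici
    (Filter.Eventually.of_forall fun θ => hu0 θ)
    (hu.continuousOn.integrableOn_compact isCompact_Icc)
    ((cont_rpow hp hu).continuousOn.integrableOn_compact isCompact_Icc)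

theorem close_base {p : ℝ} (hp : 1 ≤ p) {g : E n → ℝ} (hg : ContDiff ℝ 1 g) (x : E n) (t ρ : ℝ)
    (hρ : 0 ≤ ρ) (w : E n) (hw : ‖w‖ ≤ ρ) :
    ∫ y in closedBall x t, |g y - g (y + w)| ^ p ≤
      ρ ^ p * ∫ y in closedBall x (t + ρ), gr g y ^ p := by
  have hp0 : 0 ≤ p := by linarith
  have hgr := continuous_gr hg
  have hgrp : Continuous fun y => gr g y ^ p := cont_rpow hp hgr
  have hgd : Differentiable ℝ g := hg.differentiable one_ne_zero
  have hline : ∀ y : E n, Continuous fun θ : ℝ => y + θ • w := fun y =>
    continuous_const.add (continuous_id.smul continuous_const)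
  have hpt : ∀ y, |g y - g (y + w)| ^ p ≤ ρ ^ p * ∫ θ in Icc (0 : ℝ) 1, gr g (y + θ • w) ^ p := by
    intro y
    have h1 : ∀ θ : ℝ, HasDerivAt (fun θ : ℝ => g (y + θ • w)) (fderiv ℝ g (y + θ • w) w) θ := by
      intro θ
      have e1 : HasDerivAt (fun θ : ℝ => y + θ • w) w θ := by
        simpa using ((hasDerivAt_id θ).smul_const w).const_add y
      exact (hgd (y + θ • w)).hasFDerivAt.comp_hasDerivAt θ e1
    have hc1 : Continuous fun θ : ℝ => fderiv ℝ g (y + θ • w) w :=
      ((hg.continuous_fderiv one_ne_zero).comp (hline y)).clm_apply continuous_const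
    have h2 : ∫ θ in (0 : ℝ)..1, fderiv ℝ g (y + θ • w) w = g (y + w) - g y := by
      rw [intervalIntegral.integral_eq_sub_of_hasDerivAt (fun θ _ => h1 θ)
        (hc1.intervalIntegrable _ _)]
      simp
    have h3 : |g y - g (y + w)| ≤ ρ * ∫ θ in Icc (0 : ℝ) 1, gr g (y + θ • w) := by
      rw [abs_sub_comm, ← h2, intervalIntegral.integral_of_le zero_le_one,
        integral_Icc_eq_integral_Ioc, ← integral_const_mul]
      refine (abs_integral_le_integral_abs).trans ?_
      refine integral_mono_of_nonneg (Filter.Eventually.of_forall fun θ => abs_nonneg _) ?_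
        (Filter.Eventually.of_forall fun θ => ?_)
      · exact ((continuous_const.mul (hgr.comp (hline y))).continuousOn.integrableOn_compact
          isCompact_Icc).mono_set Ioc_subset_Icc_self
      · dsimp only
        refine (abs_fderiv_apply_le g _ w).trans ?_
        rw [mul_comm]
        exact mul_le_mul_of_nonneg_right hw (gr_nonneg _ _)
    have h4 : 0 ≤ ∫ θ in Icc (0 : ℝ) 1, gr g (y + θ • w) :=
      integral_nonneg fun θ => gr_nonneg _ _
    calc |g y - g (y + w)| ^ p ≤ (ρ * ∫ θ in Icc (0 : ℝ) 1, gr g (y + θ • w)) ^ p :=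
          Real.rpow_le_rpow (abs_nonneg _) h3 hp0
      _ = ρ ^ p * (∫ θ in Icc (0 : ℝ) 1, gr g (y + θ • w)) ^ p := Real.mul_rpow hρ h4
      _ ≤ ρ ^ p * ∫ θ in Icc (0 : ℝ) 1, gr g (y + θ • w) ^ p :=
          mul_le_mul_of_nonneg_left (jensen01 hp (hgr.comp (hline y)) fun θ => gr_nonneg _ _)
            (Real.rpow_nonneg hρ p)
  have hcF : Continuous (Function.uncurry fun (y : E n) (θ : ℝ) => gr g (y + θ • w) ^ p) := by
    apply hgrp.comp
    exact continuous_fst.add (continuous_snd.smul continuous_const)
  have hint := swap_cpt (volume : Measure (E n)) (volume : Measure ℝ) hcF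
    (isCompact_closedBall x t) (isCompact_Icc (a := (0 : ℝ)) (b := 1))
  have hLHS : IntegrableOn (fun y => |g y - g (y + w)| ^ p) (closedBall x t) := by
    refine (cont_rpow hp ?_).continuousOn.integrableOn_compact (isCompact_closedBall _ _)
    exact (hg.continuous.sub (hg.continuous.comp (continuous_id.add continuous_const))).abs
  calc ∫ y in closedBall x t, |g y - g (y + w)| ^ p
      ≤ ∫ y in closedBall x t, ρ ^ p * ∫ θ in Icc (0 : ℝ) 1, gr g (y + θ • w) ^ p :=
        setIntegral_mono hLHS (hint.integral_prod_left.const_mul _) hpt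
    _ = ρ ^ p * ∫ y in closedBall x t, ∫ θ in Icc (0 : ℝ) 1, gr g (y + θ • w) ^ p :=
        integral_const_mul _ _
    _ = ρ ^ p * ∫ θ in Icc (0 : ℝ) 1, ∫ y in closedBall x t, gr g (y + θ • w) ^ p := by
        rw [integral_integral_swap hint]
    _ ≤ ρ ^ p * ∫ θ in Icc (0 : ℝ) 1, ∫ y in closedBall x (t + ρ), gr g y ^ p := by
        refine mul_le_mul_of_nonneg_left ?_ (Real.rpow_nonneg hρ p)
        refine setIntegral_mono_on hint.integral_prod_right
          (integrable_const _) measurableSet_Icc ?_
        intro θ hθ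
        refine shift_le (F := fun y => gr g y ^ p) hgrp
          (fun y => Real.rpow_nonneg (gr_nonneg _ _) _) x (θ • w) t ρ ?_
        rw [norm_smul, Real.norm_eq_abs, abs_of_nonneg hθ.1]
        calc θ * ‖w‖ ≤ 1 * ‖w‖ := mul_le_mul_of_nonneg_right hθ.2 (norm_nonneg _)
          _ ≤ ρ := by rw [one_mul]; exact hw
    _ = ρ ^ p * ∫ y in closedBall x (t + ρ), gr g y ^ p := by
        rw [setIntegral_const, measureReal_def, Real.volume_Icc]
        simp

theorem close_aux {p : ℝ} (hp : 1 ≤ p) {g : E n → ℝ} (hg : ContDiff ℝ 1 g) (x : E n) (l : List ℝ) :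
    (∀ r ∈ l, 0 < r) → ∀ (t ρ : ℝ), 0 < t → 0 ≤ ρ → ∀ w : E n, ‖w‖ ≤ ρ →
    ∫ y in closedBall x t, |g y - avs l g (y + w)| ^ p ≤
      (ρ + l.sum) ^ p * ∫ y in closedBall x (t + (ρ + l.sum)), gr g y ^ p := by
  have hp0 : 0 ≤ p := by linarith
  induction l with
  | nil =>
    intro _ t ρ _ hρ w hw
    simp only [avs, List.sum_nil, add_zero]
    exact close_base hp hg x t ρ hρ w hw
  | cons r l ih =>
    intro hl t ρ ht hρ w hw
    have hr : 0 < r := hl r (by simp)
    have hl' : ∀ r ∈ l, 0 < r := fun s hs => hl s (by simp [hs])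
    have hA := (avs_contDiff l hl' hg).1.continuous
    have hA' := (avs_contDiff (r :: l) hl hg).1.continuous
    have hgc := hg.continuous
    have hrn : (0 : ℝ) < (2 * r) ^ n := by positivity
    have hvol : ∀ z : E n, (volume (closedBall z r)).toReal = (2 * r) ^ n := by
      intro z
      rw [volume_cube z hr.le, ENNReal.toReal_ofReal hrn.le]
    set X : ℝ := ∫ y in closedBall x (t + (ρ + (r :: l).sum)), gr g y ^ p with hX
    -- pointwise
    have hpt : ∀ y, |g y - avs (r :: l) g (y + w)| ^ p ≤
        ((2 * r) ^ n)⁻¹ * ∫ v in closedBall (0 : E n) r, |g y - avs l g (y + (w + v))| ^ p := by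
      intro y
      have hcd : Continuous fun y' => |g y - avs l g y'| ^ p :=
        cont_rpow hp (continuous_const.sub hA).abs
      have h1 := avs_bound hp hr [] (by simp) (g := fun y' => g y - avs l g y')
        (continuous_const.sub hA).measurable (x := y + w)
        (hcd.continuousOn.integrableOn_compact (isCompact_closedBall _ _))
      have h2 : avs [r] (fun y' => g y - avs l g y') (y + w) = g y - avs (r :: l) g (y + w) := by
        simp only [avs, av]
        rw [integral_sub (continuous_const.continuousOn.integrableOn_compact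
            (isCompact_closedBall _ _))
          (hA.continuousOn.integrableOn_compact (isCompact_closedBall _ _)), setIntegral_const,
          measureReal_def, hvol, smul_eq_mul, mul_sub, ← mul_assoc, inv_mul_cancel₀ hrn.ne', one_mul]
      rw [h2] at h1
      refine h1.trans (le_of_eq ?_)
      congr 1
      simp only [List.sum_nil, add_zero]
      have h3 := shift_eq (fun z => |g y - avs l g z| ^ p) 0 (y + w) r
      rw [zero_add] at h3
      rw [← h3]
      refine setIntegral_congr_fun measurableSet_closedBall fun v _ => ?_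
      change |g y - avs l g (v + (y + w))| ^ p = |g y - avs l g (y + (w + v))| ^ p
      rw [show v + (y + w) = y + (w + v) by abel]
    have hcF : Continuous (Function.uncurry fun (y v : E n) => |g y - avs l g (y + (w + v))| ^ p) := by
      refine cont_rpow hp ?_
      exact ((hgc.comp continuous_fst).sub (hA.comp
        (continuous_fst.add (continuous_const.add continuous_snd)))).abs
    have hint := swap_cpt (volume : Measure (E n)) (volume : Measure (E n)) hcF
      (isCompact_closedBall x t) (isCompact_closedBall (0 : E n) r)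
    have hLHS : IntegrableOn (fun y => |g y - avs (r :: l) g (y + w)| ^ p) (closedBall x t) := by
      refine (cont_rpow hp ?_).continuousOn.integrableOn_compact (isCompact_closedBall _ _)
      exact (hgc.sub (hA'.comp (continuous_id.add continuous_const))).abs
    have hIH : ∀ v ∈ closedBall (0 : E n) r,
        ∫ y in closedBall x t, |g y - avs l g (y + (w + v))| ^ p ≤ (ρ + (r :: l).sum) ^ p * X := by
      intro v hv
      rw [mem_closedBall_zero_iff] at hv
      have h1 := ih hl' t (ρ + r) ht (by linarith) (w + v) ((norm_add_le _ _).trans (add_le_add hw hv))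
      rw [hX, List.sum_cons, ← add_assoc ρ r l.sum]
      exact h1
    calc ∫ y in closedBall x t, |g y - avs (r :: l) g (y + w)| ^ p
        ≤ ∫ y in closedBall x t, ((2 * r) ^ n)⁻¹ *
            ∫ v in closedBall (0 : E n) r, |g y - avs l g (y + (w + v))| ^ p :=
          setIntegral_mono hLHS (hint.integral_prod_left.const_mul _) hpt
      _ = ((2 * r) ^ n)⁻¹ * ∫ y in closedBall x t,
            ∫ v in closedBall (0 : E n) r, |g y - avs l g (y + (w + v))| ^ p :=
          integral_const_mul _ _
      _ = ((2 * r) ^ n)⁻¹ * ∫ v in closedBall (0 : E n) r,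
            ∫ y in closedBall x t, |g y - avs l g (y + (w + v))| ^ p := by
          rw [integral_integral_swap hint]
      _ ≤ ((2 * r) ^ n)⁻¹ * ∫ _v in closedBall (0 : E n) r, (ρ + (r :: l).sum) ^ p * X := by
          refine mul_le_mul_of_nonneg_left ?_ (inv_nonneg.2 hrn.le)
          refine setIntegral_mono_on hint.integral_prod_right ?_ measurableSet_closedBall hIH
          exact continuous_const.continuousOn.integrableOn_compact (isCompact_closedBall _ _)
      _ = (ρ + (r :: l).sum) ^ p * X := by
          rw [setIntegral_const, measureReal_def, hvol, smul_eq_mul, ← mul_assoc,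
            inv_mul_cancel₀ hrn.ne', one_mul]

/-- `g` is close to its iterated averages -/
theorem avs_close {n : ℕ} {p : ℝ} (hp : 1 ≤ p) (l : List ℝ) (hl : ∀ r ∈ l, 0 < r) {g : E n → ℝ}
    (hg : ContDiff ℝ 1 g) (x : E n) {t : ℝ} (ht : 0 < t) :
    ∫ y in closedBall x t, |g y - avs l g y| ^ p ≤
      l.sum ^ p * ∫ y in closedBall x (t + l.sum), gr g y ^ p := by
  have h := close_aux hp hg x l hl t 0 ht (le_refl _) 0 (by simp)
  simpa only [add_zero, zero_add] using h

end H930.BL.XAvC

namespace H930.BL

export XAvC (avs_close)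

end H930.BL
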