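import Pool.Agent.Helper930.BL.Hol
import Pool.Agent.Helper930.BL.Moll
import Pool.Agent.Helper930.BL.Poin
import Pool.Agent.Helper930.BL.AvC

set_option autoImplicit false

open MeasureTheory Metric Set Filter Topology
open scoped ENNReal NNReal ContDiff

namespace H930.BL.XCloseA

variable {n : ℕ}



lemma sum_rpow_le {m : ℕ} (a : Fin m → ℝ) (ha : ∀ j, 0 ≤ a j) {p : ℝ} (hp : 0 < p) :
    (∑ j, a j) ^ p ≤ (m : ℝ) ^ p * ∑ j, a j ^ p := by
  rcases Nat.eq_zero_or_pos m with rfl | hm
  · simp [Real.zero_rpow hp.ne']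
  · haveI : Nonempty (Fin m) := ⟨⟨0, hm⟩⟩
    obtain ⟨k, -, hk⟩ := Finset.exists_max_image (Finset.univ : Finset (Fin m)) a
      Finset.univ_nonempty
    have h1 : ∑ j, a j ≤ m * a k := by
      calc ∑ j, a j ≤ ∑ _j : Fin m, a k := Finset.sum_le_sum fun j _ => hk j (Finset.mem_univ j)
        _ = m * a k := by simp
    calc (∑ j, a j) ^ p ≤ (m * a k) ^ p :=
          Real.rpow_le_rpow (Finset.sum_nonneg fun j _ => ha j) h1 hp.le
      _ = (m : ℝ) ^ p * a k ^ p := Real.mul_rpow (Nat.cast_nonneg _) (ha k)
      _ ≤ (m : ℝ) ^ p * ∑ j, a j ^ p := by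
          apply mul_le_mul_of_nonneg_left _ (Real.rpow_nonneg (Nat.cast_nonneg _) _)
          exact Finset.single_le_sum (f := fun j => a j ^ p)
            (fun j _ => Real.rpow_nonneg (ha j) _) (Finset.mem_univ k)

lemma abs_add_two {p : ℝ} (hp : 0 < p) (a b : ℝ) :
    |a + b| ^ p ≤ 2 ^ p * (|a| ^ p + |b| ^ p) := by
  have h := sum_rpow_le (fun i : Fin 2 => |![a, b] i|) (fun _ => abs_nonneg _) hp
  simp only [Fin.sum_univ_two, Matrix.cons_val_zero, Matrix.cons_val_one, Nat.cast_ofNat] at h
  exact (Real.rpow_le_rpow (abs_nonneg _) (abs_add_le _ _) hp.le).trans h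

lemma abs_add_three' {p : ℝ} (hp : 0 < p) (a b c : ℝ) :
    |a + b + c| ^ p ≤ 3 ^ p * (|a| ^ p + |b| ^ p + |c| ^ p) := by
  have h := sum_rpow_le (fun i : Fin 3 => |![a, b, c] i|) (fun _ => abs_nonneg _) hp
  simp only [Fin.sum_univ_three, Matrix.cons_val_zero, Matrix.cons_val_one, Matrix.cons_val,
    Nat.cast_ofNat] at h
  refine (Real.rpow_le_rpow (abs_nonneg _) ?_ hp.le).trans h
  exact (abs_add_le _ _).trans (add_le_add (abs_add_le _ _) le_rfl)

lemma continuous_abs_rpow {g : E n → ℝ} (hg : Continuous g) {p : ℝ} (hp : 0 < p) :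
    Continuous fun y => |g y| ^ p :=
  hg.abs.rpow_const fun _ => Or.inr hp.le

lemma pe_ge {n : ℕ} (hn : 2 ≤ n) : 1 ≤ pe n := by
  unfold pe
  have : (2 : ℝ) ≤ n := by exact_mod_cast hn
  linarith

/-- the approximation package -/
lemma approx_pack {n : ℕ} (hn : 2 ≤ n) {f : E n → E n} {D : E n → Matrix (Fin n) (Fin n) ℝ}
    {Ω : Set (E n)} (h : FDMap f D Ω) {K : Set (E n)} (hK : IsCompact K) (hKΩ : K ⊆ Ω)
    {ε : ℝ} (hε : 0 < ε) :
    ∃ F : E n → E n, ContDiff ℝ 1 F ∧ (∀ x ∈ K, ∀ i, |f x i - F x i| ^ pe n ≤ ε) ∧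
      (∫ x in K, sn (jac F x) ^ pe n ≤ (∫ x in K, sn (D x) ^ pe n) + ε) ∧
      (∀ i j, ∫ x in K, |jac F x i j - D x i j| ^ pe n ≤ ε) := by
  have hp1 := pe_ge hn
  have hp0 : 0 < pe n := by linarith
  have hI : ∀ K, IsCompact K → K ⊆ Ω → IntegrableOn (fun x => sn (D x) ^ pe n) K :=
    fun K hK hKΩ => (hol2 h (by omega) hK hKΩ).1
  obtain ⟨F, hF1, hF2, hF3, Φ, hΦ1, hΦ2⟩ := moll (by omega) h.isOpen h.cont h.meas h.weak hp1 hI
    hK hKΩ
  have hFc : ∀ k, ContDiff ℝ 1 (F k) := fun k => (hF1 k).of_le (by exact_mod_cast le_top)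
  -- convergence of T_k
  have hT : Tendsto (fun k => ∫ x in K, sn (jac (F k) x) ^ pe n) atTop
      (𝓝 (∫ x in K, sn (D x) ^ pe n)) := by
    refine tendsto_integral_of_dominated_convergence Φ ?_ hΦ1 ?_ ?_
    · intro k
      have : Continuous fun x => sn (jac (F k) x) ^ pe n :=
        (continuous_sn.comp (continuous_jac (hFc k))).rpow_const fun _ => Or.inr hp0.le
      exact this.aestronglyMeasurable
    · intro k
      filter_upwards [hΦ2] with x hx
      rw [Real.norm_of_nonneg (Real.rpow_nonneg (sn_nonneg _) _)]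
      exact hx k
    · filter_upwards [hF3] with x hx
      exact ((continuous_sn.tendsto _).comp hx).rpow_const (Or.inr hp0.le)
  have hJ : ∀ i j, Tendsto (fun k => ∫ x in K, |jac (F k) x i j - D x i j| ^ pe n) atTop
      (𝓝 0) := by
    intro i j
    have h0 : (0 : ℝ) = ∫ x in K, (0 : ℝ) := by simp
    rw [h0]
    refine tendsto_integral_of_dominated_convergence
      (fun x => 2 ^ pe n * (Φ x + sn (D x) ^ pe n)) ?_ ?_ ?_ ?_
    · intro k
      have h1 : Continuous fun x => jac (F k) x i j :=
        (continuous_apply_apply i j).comp (continuous_jac (hFc k))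
      have h2 : Measurable fun x => |jac (F k) x i j - D x i j| ^ pe n :=
        ((h1.measurable.sub (h.meas i j)).abs).pow_const _
      exact h2.aestronglyMeasurable
    · exact (hΦ1.add (hI K hK hKΩ)).const_mul _
    · intro k
      filter_upwards [hΦ2] with x hx
      rw [Real.norm_of_nonneg (Real.rpow_nonneg (abs_nonneg _) _)]
      have h1 : jac (F k) x i j - D x i j = jac (F k) x i j + (- D x i j) := by ring
      rw [h1]
      refine (abs_add_two hp0 _ _).trans ?_
      apply mul_le_mul_of_nonneg_left _ (Real.rpow_nonneg (by norm_num) _)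
      rw [abs_neg]
      apply add_le_add
      · exact (Real.rpow_le_rpow (abs_nonneg _) (abs_entry_le_sn _ i j) hp0.le).trans (hx k)
      · exact Real.rpow_le_rpow (abs_nonneg _) (abs_entry_le_sn _ i j) hp0.le
    · filter_upwards [hF3] with x hx
      have h1 : Tendsto (fun k => jac (F k) x i j) atTop (𝓝 (D x i j)) :=
        ((continuous_apply_apply i j).tendsto _).comp hx
      have h2 : Tendsto (fun k => jac (F k) x i j - D x i j) atTop (𝓝 0) := by
        have := h1.sub_const (D x i j)
        rwa [sub_self] at this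
      have h3 : Tendsto (fun k => |jac (F k) x i j - D x i j|) atTop (𝓝 0) := by
        have := h2.abs
        rwa [abs_zero] at this
      have h4 := h3.rpow_const (p := pe n) (Or.inr hp0.le)
      rwa [Real.zero_rpow hp0.ne'] at h4
  have hδ : 0 < ε ^ (1 / pe n) := Real.rpow_pos_of_pos hε _
  have e1 : ∀ᶠ k in atTop, ∀ x ∈ K, dist (f x) (F k x) < ε ^ (1 / pe n) :=
    Metric.tendstoUniformlyOn_iff.1 hF2 _ hδ
  have e2 : ∀ᶠ k in atTop, ∫ x in K, sn (jac (F k) x) ^ pe n <
      (∫ x in K, sn (D x) ^ pe n) + ε := hT.eventually_lt_const (by linarith)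
  have e3 : ∀ᶠ k in atTop, ∀ i j, ∫ x in K, |jac (F k) x i j - D x i j| ^ pe n < ε := by
    rw [Filter.eventually_all]
    intro i
    rw [Filter.eventually_all]
    intro j
    exact (hJ i j).eventually_lt_const hε
  obtain ⟨k, hk1, hk2, hk3⟩ := (e1.and (e2.and e3)).exists
  refine ⟨F k, hFc k, ?_, hk2.le, fun i j => (hk3 i j).le⟩
  intro x hx i
  have h1 : |f x i - F k x i| ≤ ε ^ (1 / pe n) := by
    have h2 := hk1 x hx
    rw [dist_eq_norm] at h2
    have h3 := norm_le_pi_norm (f x - F k x) i
    rw [Real.norm_eq_abs, Pi.sub_apply] at h3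
    linarith
  calc |f x i - F k x i| ^ pe n ≤ (ε ^ (1 / pe n)) ^ pe n :=
        Real.rpow_le_rpow (abs_nonneg _) h1 hp0.le
    _ = ε := by
        rw [← Real.rpow_mul hε.le, one_div, inv_mul_cancel₀ hp0.ne', Real.rpow_one]

lemma pd_affine (M : Matrix (Fin n) (Fin n) ℝ) (x₀ : E n) (i j : Fin n) (x : E n)
    {w : E n → ℝ} (hw : DifferentiableAt ℝ w x) :
    pd (fun y => w y - M.mulVec (y - x₀) i) j x = pd w j x - M i j := by
  have h1 : (fun y : E n => M.mulVec (y - x₀) i) = fun y => ∑ k, M i k * (y k - x₀ k) := by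
    funext y
    simp [Matrix.mulVec, dotProduct]
  have h2 : HasFDerivAt (fun y : E n => ∑ k, M i k * (y k - x₀ k))
      (∑ k, M i k • (ContinuousLinearMap.proj (R := ℝ) (φ := fun _ : Fin n => ℝ) k)) x := by
    refine HasFDerivAt.fun_sum fun k _ => ?_
    have h3 : HasFDerivAt (fun y : E n => y k - x₀ k)
        (ContinuousLinearMap.proj (R := ℝ) (φ := fun _ : Fin n => ℝ) k) x :=
      (hasFDerivAt_apply k x).sub_const _
    exact h3.const_mul (M i k)
  have h6 : (fun y => w y - M.mulVec (y - x₀) i) =
      fun y => w y - ∑ k, M i k * (y k - x₀ k) := by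
    funext y
    rw [congrFun h1 y]
  unfold pd
  rw [h6]
  have h4 : fderiv ℝ (fun y => w y - ∑ k, M i k * (y k - x₀ k)) x = fderiv ℝ w x -
      (∑ k, M i k • (ContinuousLinearMap.proj (R := ℝ) (φ := fun _ : Fin n => ℝ) k)) :=
    (hw.hasFDerivAt.sub h2).fderiv
  have h5 : (fun y => w y - (fun y => ∑ k, M i k * (y k - x₀ k)) y) =
    (fun y => w y - ∑ k, M i k * (y k - x₀ k)) := rfl
  rw [h4]
  simp [Pi.single_apply]

lemma contDiff_affine (M : Matrix (Fin n) (Fin n) ℝ) (x₀ : E n) (i : Fin n) :
    ContDiff ℝ 1 (fun y : E n => M.mulVec (y - x₀) i) := by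
  have h1 : (fun y : E n => M.mulVec (y - x₀) i) = fun y => ∑ k, M i k * (y k - x₀ k) := by
    funext y
    simp [Matrix.mulVec, dotProduct]
  rw [h1]
  refine ContDiff.sum fun k _ => ?_
  exact contDiff_const.mul ((contDiff_apply ℝ ℝ k).sub contDiff_const)

theorem close_affine {n : ℕ} (hn : 2 ≤ n) : ∃ C : ℝ, 0 < C ∧ ∀ (f : E n → E n)
    (D : E n → Matrix (Fin n) (Fin n) ℝ) (Ω : Set (E n)), FDMap f D Ω →
    ∀ (x₀ : E n) (r : ℝ) (l : List ℝ) (G : Fin n → Fin n → E n → ℝ)
      (M : Matrix (Fin n) (Fin n) ℝ) (τ : ℝ), 0 < r → (∀ t ∈ l, 0 < t) → l.sum ≤ r → 0 < τ →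
    closedBall x₀ (2 * r) ⊆ Ω → (∀ i j, Measurable (G i j)) →
    (∀ i j, ∀ y ∈ closedBall x₀ (2 * r), G i j y = D y i j) →
    ∃ c : E n, ∫ y in closedBall x₀ r, ∑ i, |f y i - (M.mulVec (y - x₀) i + c i)| ^ pe n ≤
      C * (l.sum ^ pe n * (∫ y in closedBall x₀ (2 * r), sn (D y) ^ pe n) +
        r ^ pe n * ∑ i, ∑ j, ∫ y in closedBall x₀ r, |avs l (G i j) y - M i j| ^ pe n) + τ := by
  have hp1 := pe_ge hn
  set p : ℝ := pe n with hpdef
  have hp0 : 0 < p := by linarith
  have hn0 : (0 : ℝ) < n := by exact_mod_cast (by omega : 0 < n)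
  obtain ⟨C1, hC1, hPo⟩ := poincare_cube (n := n) (by omega) hp1
  have h3p : (0 : ℝ) < 3 ^ p := Real.rpow_pos_of_pos (by norm_num) _
  have h2p : (0 : ℝ) < 2 ^ p := Real.rpow_pos_of_pos (by norm_num) _
  have hnp : (0 : ℝ) < (n : ℝ) ^ p := Real.rpow_pos_of_pos hn0 _
  set C2 : ℝ := C1 * (n : ℝ) ^ p * 2 ^ p with hC2
  have hC20 : 0 < C2 := by positivity
  refine ⟨3 ^ p * (n + C2), by positivity, ?_⟩
  intro f D Ω hFD x₀ r l G M τ hr hl hlr hτ hball hGm hGD
  set K : Set (E n) := closedBall x₀ (2 * r) with hKdef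
  set B : Set (E n) := closedBall x₀ r with hBdef
  have hK : IsCompact K := isCompact_closedBall _ _
  have hB : IsCompact B := isCompact_closedBall _ _
  have hls : 0 ≤ l.sum := List.sum_nonneg fun t ht => (hl t ht).le
  have hBK : B ⊆ K := closedBall_subset_closedBall (by linarith)
  set B' : Set (E n) := closedBall x₀ (r + l.sum) with hB'def
  have hB'K : B' ⊆ K := closedBall_subset_closedBall (by linarith)
  have hB' : IsCompact B' := isCompact_closedBall _ _
  have hlp : 0 ≤ l.sum ^ p := Real.rpow_nonneg hls _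
  have hrp : 0 < r ^ p := Real.rpow_pos_of_pos hr _
  set V : ℝ := volume.real B with hV
  have hV0 : 0 ≤ V := measureReal_nonneg
  -- the error
  set Er : ℝ := 3 ^ p * (n * V + n * l.sum ^ p + C2 * r ^ p * n * n) with hEr
  have hEr0 : 0 ≤ Er := by positivity
  set ε : ℝ := τ / (Er + 1) with hε
  have hε0 : 0 < ε := by positivity
  have hEε : Er * ε ≤ τ := by
    rw [hε, mul_div_assoc', div_le_iff₀ (by linarith)]
    nlinarith
  obtain ⟨F, hF1, hF2, hF3, hF4⟩ := approx_pack hn hFD hK hball hε0
  have hFi : ∀ i, ContDiff ℝ 1 (fun y => F y i) := fun i => (contDiff_pi.1 hF1) i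
  have hTD : IntegrableOn (fun x => sn (D x) ^ p) K := (hol2 hFD (by omega) hK hball).1
  have hDint : ∀ i j, IntegrableOn (fun x => D x i j) K := (D_int hFD hn hK hball).2.2
  set T : ℝ := ∫ x in K, sn (D x) ^ p with hT
  have hT0 : 0 ≤ T := integral_nonneg fun x => Real.rpow_nonneg (sn_nonneg _) _
  -- integrability of G
  have hGint : ∀ i j, IntegrableOn (G i j) K := fun i j =>
    (hDint i j).congr_fun (fun y hy => (hGD i j y hy).symm) hK.measurableSet
  have hGp : ∀ i j, IntegrableOn (fun y => |G i j y| ^ p) K := by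
    intro i j
    refine Integrable.mono' hTD (((hGm i j).abs.pow_const _).aestronglyMeasurable) ?_
    rw [ae_restrict_iff' hK.measurableSet]
    refine Eventually.of_forall fun y hy => ?_
    rw [Real.norm_of_nonneg (Real.rpow_nonneg (abs_nonneg _) _), hGD i j y hy]
    exact Real.rpow_le_rpow (abs_nonneg _) (abs_entry_le_sn _ i j) hp0.le
  have hcontp : ∀ {g : E n → ℝ}, Continuous g → ∀ {S : Set (E n)}, IsCompact S →
      IntegrableOn (fun y => |g y| ^ p) S := fun hg S hS =>
    (continuous_abs_rpow hg hp0).continuousOn.integrableOn_compact hS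
  -- per-coordinate estimate
  have main : ∀ i, ∃ c : ℝ, ∫ y in B, |f y i - (M.mulVec (y - x₀) i + c)| ^ p ≤
      3 ^ p * (ε * V + l.sum ^ p * (T + ε) +
        C2 * r ^ p * ∑ j, ((∫ y in B, |avs l (G i j) y - M i j| ^ p) + ε)) := by
    intro i
    set v : E n → ℝ := fun y => F y i with hv
    have hv1 : ContDiff ℝ 1 v := hFi i
    obtain ⟨hw1, hw2⟩ := avs_contDiff l hl hv1
    set w : E n → ℝ := avs l v with hw
    set u : E n → ℝ := fun y => w y - M.mulVec (y - x₀) i with hu
    have hu1 : ContDiff ℝ 1 u := hw1.sub (contDiff_affine M x₀ i)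
    have hpdu : ∀ j x, pd u j x = avs l (pd v j) x - M i j := by
      intro j x
      rw [hu, pd_affine M x₀ i j x ((hw1.differentiable one_ne_zero) x), hw2]
    obtain ⟨c, hc⟩ := hPo u hu1 x₀ r hr
    refine ⟨c, ?_⟩
    -- (a)
    have ha : ∫ y in B, |v y - w y| ^ p ≤ l.sum ^ p * (T + ε) := by
      refine (avs_close hp1 l hl hv1 x₀ hr).trans ?_
      apply mul_le_mul_of_nonneg_left _ hlp
      have hg1 : ∀ x, gr v x ≤ sn (jac F x) := by
        intro x
        unfold gr sn
        exact Finset.single_le_sum (f := fun i => ∑ j, |jac F x i j|)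
          (fun _ _ => Finset.sum_nonneg fun _ _ => abs_nonneg _) (Finset.mem_univ i)
      have hsn_int : IntegrableOn (fun x => sn (jac F x) ^ p) K :=
        (((continuous_sn.comp (continuous_jac hF1)).rpow_const
          fun _ => Or.inr hp0.le).continuousOn).integrableOn_compact hK
      calc ∫ y in B', gr v y ^ p ≤ ∫ y in B', sn (jac F y) ^ p := by
            refine setIntegral_mono_on ?_ (hsn_int.mono_set hB'K) hB'.measurableSet ?_
            · exact (((continuous_gr hv1).rpow_const
                fun _ => Or.inr hp0.le).continuousOn).integrableOn_compact hB'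
            · intro x _
              exact Real.rpow_le_rpow (gr_nonneg _ _) (hg1 x) hp0.le
        _ ≤ ∫ y in K, sn (jac F y) ^ p := by
            refine setIntegral_mono_set hsn_int ?_ (LE.le.eventuallyLE hB'K)
            exact Eventually.of_forall fun x => Real.rpow_nonneg (sn_nonneg _) _
        _ ≤ T + ε := hF3
    -- (c)
    have hcj : ∀ j, ∫ y in B, |avs l (pd v j) y - M i j| ^ p ≤
        2 ^ p * ((∫ y in B, |avs l (G i j) y - M i j| ^ p) + ε) := by
      intro j
      have hpc : Continuous (pd v j) := continuous_pd hv1 j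
      have hsub := avs_sub l hl (g := pd v j) (g' := G i j) (x := x₀) (t := r)
        (hpc.continuousOn.integrableOn_compact hB') ((hGint i j).mono_set hB'K)
      have hdm : Measurable (fun y => pd v j y - G i j y) := hpc.measurable.sub (hGm i j)
      have hdiffint : IntegrableOn (fun y => |pd v j y - G i j y| ^ p) K := by
        refine Integrable.mono' (((hcontp hpc hK).add (hGp i j)).const_mul (2 ^ p))
          ((hdm.abs.pow_const _).aestronglyMeasurable) ?_
        refine Eventually.of_forall fun y => ?_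
        rw [Real.norm_of_nonneg (Real.rpow_nonneg (abs_nonneg _) _)]
        have h1 : pd v j y - G i j y = pd v j y + (- G i j y) := by ring
        rw [h1]
        refine (abs_add_two hp0 _ _).trans ?_
        rw [abs_neg]
        exact le_rfl
      obtain ⟨hc1, hc2, hc3⟩ := avs_contr hp1 l hl hdm (x := x₀) hr (hdiffint.mono_set hB'K)
      obtain ⟨hd1, hd2, hd3⟩ := avs_contr hp1 l hl (hGm i j) (x := x₀) hr
        ((hGp i j).mono_set hB'K)
      have hconst : IntegrableOn (fun _ : E n => |M i j| ^ p) B :=
        integrableOn_const hB.measure_lt_top.ne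
      have hGM : IntegrableOn (fun y => |avs l (G i j) y - M i j| ^ p) B := by
        refine Integrable.mono' ((hd2.add hconst).const_mul (2 ^ p))
          (((hd1.sub_const _).abs.pow_const _).aestronglyMeasurable) ?_
        refine Eventually.of_forall fun y => ?_
        rw [Real.norm_of_nonneg (Real.rpow_nonneg (abs_nonneg _) _)]
        have h1 : avs l (G i j) y - M i j = avs l (G i j) y + (- M i j) := by ring
        rw [h1]
        refine (abs_add_two hp0 _ _).trans ?_
        rw [abs_neg]
        exact le_rfl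
      have hlast : ∫ y in B, |avs l (fun y => pd v j y - G i j y) y| ^ p ≤ ε := by
        refine hc3.trans ?_
        calc ∫ y in B', |pd v j y - G i j y| ^ p ≤ ∫ y in K, |pd v j y - G i j y| ^ p := by
              refine setIntegral_mono_set hdiffint ?_ (LE.le.eventuallyLE hB'K)
              exact Eventually.of_forall fun x => Real.rpow_nonneg (abs_nonneg _) _
          _ = ∫ y in K, |jac F y i j - D y i j| ^ p := by
              refine setIntegral_congr_fun hK.measurableSet fun y hy => ?_
              show |pd v j y - G i j y| ^ p = |jac F y i j - D y i j| ^ p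
              rw [hGD i j y hy]
              rfl
          _ ≤ ε := hF4 i j
      calc ∫ y in B, |avs l (pd v j) y - M i j| ^ p
          ≤ ∫ y in B, 2 ^ p * (|avs l (G i j) y - M i j| ^ p +
              |avs l (fun y => pd v j y - G i j y) y| ^ p) := by
            have hpw : ∀ y ∈ B, |avs l (pd v j) y - M i j| ^ p ≤
                2 ^ p * (|avs l (G i j) y - M i j| ^ p +
                  |avs l (fun y => pd v j y - G i j y) y| ^ p) := by
              intro y hy
              have h1 : avs l (pd v j) y - M i j = (avs l (G i j) y - M i j) +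
                  avs l (fun y => pd v j y - G i j y) y := by
                rw [hsub y hy]; ring
              rw [h1]
              exact abs_add_two hp0 _ _
            refine setIntegral_mono_on ?_ ((hGM.add hc2).const_mul _) hB.measurableSet hpw
            have h5 : Continuous fun y => avs l (pd v j) y - M i j := by
              have h6 : (fun y => avs l (pd v j) y) = fun y => pd w j y := by
                funext y; rw [hw2]
              have h7 : Continuous fun y => avs l (pd v j) y := by
                rw [h6]; exact continuous_pd hw1 j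
              exact h7.sub continuous_const
            exact hcontp h5 hB
        _ = 2 ^ p * ((∫ y in B, |avs l (G i j) y - M i j| ^ p) +
              ∫ y in B, |avs l (fun y => pd v j y - G i j y) y| ^ p) := by
            rw [integral_const_mul, integral_add hGM hc2]
        _ ≤ _ := by
            apply mul_le_mul_of_nonneg_left _ h2p.le
            linarith
    -- (b)
    have hb : ∫ y in B, |u y - c| ^ p ≤
        C2 * r ^ p * ∑ j, ((∫ y in B, |avs l (G i j) y - M i j| ^ p) + ε) := by
      refine hc.trans ?_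
      have hgu : ∀ x, gr u x ^ p ≤ (n : ℝ) ^ p * ∑ j, |avs l (pd v j) x - M i j| ^ p := by
        intro x
        unfold gr
        have := sum_rpow_le (fun j => |pd u j x|) (fun _ => abs_nonneg _) hp0
        simpa only [hpdu] using this
      have hcj' : ∀ j, IntegrableOn (fun y => |avs l (pd v j) y - M i j| ^ p) B := by
        intro j
        have h5 : Continuous fun y => avs l (pd v j) y - M i j := by
          have h6 : (fun y => avs l (pd v j) y) = fun y => pd w j y := by
            funext y; rw [hw2]
          have h7 : Continuous fun y => avs l (pd v j) y := by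
            rw [h6]; exact continuous_pd hw1 j
          exact h7.sub continuous_const
        exact hcontp h5 hB
      have h8 : ∫ x in B, gr u x ^ p ≤
          (n : ℝ) ^ p * ∑ j, 2 ^ p * ((∫ y in B, |avs l (G i j) y - M i j| ^ p) + ε) := by
        calc ∫ x in B, gr u x ^ p
            ≤ ∫ x in B, (n : ℝ) ^ p * ∑ j, |avs l (pd v j) x - M i j| ^ p := by
              refine setIntegral_mono_on ?_ ?_ hB.measurableSet fun x _ => hgu x
              · exact (((continuous_gr hu1).rpow_const
                  fun _ => Or.inr hp0.le).continuousOn).integrableOn_compact hB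
              · exact (integrable_finsetSum _ fun j _ => hcj' j).const_mul _
          _ = (n : ℝ) ^ p * ∑ j, ∫ x in B, |avs l (pd v j) x - M i j| ^ p := by
              rw [integral_const_mul, integral_finsetSum _ fun j _ => hcj' j]
          _ ≤ _ := by
              apply mul_le_mul_of_nonneg_left _ hnp.le
              exact Finset.sum_le_sum fun j _ => hcj j
      calc C1 * r ^ p * ∫ x in B, gr u x ^ p
          ≤ C1 * r ^ p * ((n : ℝ) ^ p *
              ∑ j, 2 ^ p * ((∫ y in B, |avs l (G i j) y - M i j| ^ p) + ε)) :=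
            mul_le_mul_of_nonneg_left h8 (by positivity)
        _ = _ := by
            rw [← Finset.mul_sum, hC2]
            ring
    -- (d)
    have hfc : ContinuousOn (fun y => f y i) B :=
      ((continuous_apply i).comp_continuousOn hFD.cont).mono (hBK.trans hball)
    have hfv : ContinuousOn (fun y => |f y i - v y| ^ p) B :=
      ((hfc.sub hv1.continuous.continuousOn).abs).rpow_const fun _ _ => Or.inr hp0.le
    have hd : ∫ y in B, |f y i - v y| ^ p ≤ ε * V := by
      calc ∫ y in B, |f y i - v y| ^ p ≤ ∫ _y in B, ε := by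
            refine setIntegral_mono_on (hfv.integrableOn_compact hB)
              (integrableOn_const hB.measure_lt_top.ne) hB.measurableSet ?_
            intro y hy
            exact hF2 y (hBK hy) i
        _ = ε * V := by
            rw [setIntegral_const, smul_eq_mul, mul_comm]
    have hvw : Continuous fun y => v y - w y := hv1.continuous.sub hw1.continuous
    have huc : Continuous fun y => u y - c := hu1.continuous.sub continuous_const
    calc ∫ y in B, |f y i - (M.mulVec (y - x₀) i + c)| ^ p
        ≤ ∫ y in B, 3 ^ p * (|f y i - v y| ^ p + |v y - w y| ^ p + |u y - c| ^ p) := by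
          refine setIntegral_mono_on ?_ ?_ hB.measurableSet ?_
          · have h9 : ContinuousOn (fun y => |f y i - (M.mulVec (y - x₀) i + c)| ^ p) B := by
              refine ((hfc.sub ?_).abs).rpow_const fun _ _ => Or.inr hp0.le
              exact ((contDiff_affine M x₀ i).continuous.add continuous_const).continuousOn
            exact h9.integrableOn_compact hB
          · exact (((hfv.integrableOn_compact hB).add (hcontp hvw hB)).add
              (hcontp huc hB)).const_mul _
          · intro y _
            have h10 : f y i - (M.mulVec (y - x₀) i + c) = (f y i - v y) + (v y - w y) +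
                (u y - c) := by
              rw [hu]; ring
            rw [h10]
            exact abs_add_three' hp0 _ _ _
      _ = 3 ^ p * ((∫ y in B, |f y i - v y| ^ p) + (∫ y in B, |v y - w y| ^ p) +
            ∫ y in B, |u y - c| ^ p) := by
          rw [integral_const_mul, integral_add (f := fun y => |f y i - v y| ^ p + |v y - w y| ^ p)
            ((hfv.integrableOn_compact hB).add (hcontp hvw hB)) (hcontp huc hB),
            integral_add (hfv.integrableOn_compact hB) (hcontp hvw hB)]
      _ ≤ _ := by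
          apply mul_le_mul_of_nonneg_left _ h3p.le
          linarith
  choose c hc using main
  refine ⟨c, ?_⟩
  have hterm : ∀ i, IntegrableOn (fun y => |f y i - (M.mulVec (y - x₀) i + c i)| ^ p) B := by
    intro i
    have hfc : ContinuousOn (fun y => f y i) B :=
      ((continuous_apply i).comp_continuousOn hFD.cont).mono (hBK.trans hball)
    have h9 : ContinuousOn (fun y => |f y i - (M.mulVec (y - x₀) i + c i)| ^ p) B := by
      refine ((hfc.sub ?_).abs).rpow_const fun _ _ => Or.inr hp0.le
      exact ((contDiff_affine M x₀ i).continuous.add continuous_const).continuousOn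
    exact h9.integrableOn_compact hB
  rw [integral_finsetSum _ fun i _ => hterm i]
  set A : ℝ := ∑ i, ∑ j, ∫ y in B, |avs l (G i j) y - M i j| ^ p with hA
  have hA0 : 0 ≤ A := Finset.sum_nonneg fun i _ => Finset.sum_nonneg fun j _ =>
    integral_nonneg fun y => Real.rpow_nonneg (abs_nonneg _) _
  calc ∑ i, ∫ y in B, |f y i - (M.mulVec (y - x₀) i + c i)| ^ p
      ≤ ∑ i, 3 ^ p * (ε * V + l.sum ^ p * (T + ε) +
        C2 * r ^ p * ∑ j, ((∫ y in B, |avs l (G i j) y - M i j| ^ p) + ε)) :=
        Finset.sum_le_sum fun i _ => hc i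
    _ = 3 ^ p * (n * (ε * V) + n * (l.sum ^ p * (T + ε)) + C2 * r ^ p * (A + n * n * ε)) := by
        rw [← Finset.mul_sum, Finset.sum_add_distrib, ← Finset.mul_sum]
        simp only [Finset.sum_add_distrib, Finset.sum_const, Finset.card_univ, Fintype.card_fin,
          nsmul_eq_mul]
        rw [hA]
        ring
    _ = 3 ^ p * (n * (l.sum ^ p * T) + C2 * (r ^ p * A)) + Er * ε := by
        rw [hEr]; ring
    _ ≤ 3 ^ p * (n + C2) * (l.sum ^ p * T + r ^ p * A) + τ := by
        have h11 : 0 ≤ l.sum ^ p * T := mul_nonneg hlp hT0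
        have h12 : 0 ≤ r ^ p * A := mul_nonneg hrp.le hA0
        have h13 : n * (l.sum ^ p * T) + C2 * (r ^ p * A) ≤
            (n + C2) * (l.sum ^ p * T + r ^ p * A) := by
          nlinarith [mul_nonneg hn0.le h12, mul_nonneg hC20.le h11]
        have h14 := mul_le_mul_of_nonneg_left h13 h3p.le
        nlinarith

end H930.BL.XCloseA

namespace H930.BL

export XCloseA (close_affine)

end H930.BL
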