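import Pool.Agent.Helper930.BL.Degree

set_option autoImplicit false

open MeasureTheory Metric Set Filter Topology
open scoped ENNReal NNReal ContDiff

namespace H930.BL


theorem bump_exists {n : ℕ} (y : E n) {ρ : ℝ} (hρ : 0 < ρ) :
    ∃ ψ : E n → ℝ, Continuous ψ ∧ HasCompactSupport ψ ∧ tsupport ψ ⊆ ball y ρ ∧
      (∀ z, z ∉ ball y ρ → ψ z = 0) ∧ 0 < ∫ z, ψ z := by
  let b : ContDiffBump y := ⟨ρ / 4, ρ / 2, by linarith, by linarith⟩
  have hts : tsupport b ⊆ ball y ρ := by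
    rw [b.tsupport_eq]
    exact closedBall_subset_ball (show ρ / 2 < ρ by linarith)
  refine ⟨b, b.continuous, b.hasCompactSupport, hts, ?_, b.integral_pos⟩
  intro z hz
  exact image_eq_zero_of_notMem_tsupport (fun h => hz (hts h))

theorem fibre_conn {n : ℕ} (hn : 2 ≤ n) {f : E n → E n} {D : E n → Matrix (Fin n) (Fin n) ℝ}
    {Ω : Set (E n)} (h : FDMap f D Ω) {a : E n} {s : ℝ} (hs : 0 < s) (hsΩ : closedBall a s ⊆ Ω)
    {y₀ : E n} {r : ℝ} (hr : 0 < r) (hout : ∀ x ∈ sphere a s, f x ∉ closedBall y₀ r)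
    {ψ₀ : E n → ℝ} (hψ : Continuous ψ₀) (hψc : HasCompactSupport ψ₀)
    (hψs : tsupport ψ₀ ⊆ ball y₀ r) (hψ0 : ∫ y, ψ₀ y ≠ 0)
    (hone : |∫ x in ball a s, ψ₀ (f x) * (D x).det| = |∫ y, ψ₀ y|) :
    (∀ y ∈ ball y₀ r, {x | x ∈ ball a s ∧ f x = y}.Nonempty ∧
      IsPreconnected {x | x ∈ ball a s ∧ f x = y}) ∧
    ∀ ψ : E n → ℝ, Continuous ψ → HasCompactSupport ψ → tsupport ψ ⊆ ball y₀ r →
      IntegrableOn (fun x => ψ (f x) * (D x).det) (ball a s) ∧
      ∫ x in ball a s, ψ (f x) * (D x).det = ∫ z, ψ z := by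
  have hcont : ContinuousOn f (closedBall a s) := h.cont.mono hsΩ
  have hballC : ball a s ⊆ closedBall a s := ball_subset_closedBall
  have hnosph : ∀ x ∈ closedBall a s, f x ∈ closedBall y₀ r → x ∈ ball a s := by
    intro x hx hfx
    by_contra hxb
    rw [mem_closedBall] at hx
    rw [mem_ball, not_lt] at hxb
    exact hout x (mem_sphere.mpr (le_antisymm hx hxb)) hfx
  have hKc : ∀ (y : E n) (r' : ℝ), IsCompact {x | x ∈ closedBall a s ∧ f x ∈ closedBall y r'} := by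
    intro y r'
    have h1 : IsClosed (closedBall a s ∩ f ⁻¹' closedBall y r') :=
      hcont.preimage_isClosed_of_isClosed isClosed_closedBall isClosed_closedBall
    exact (isCompact_closedBall a s).of_isClosed_subset h1 Set.inter_subset_left
  obtain ⟨d, hd1, hd2⟩ := degree hn h (V := ball a s) isOpen_ball (hballC.trans hsΩ)
    (y := y₀) (r := r) hr (by
      intro r' hr'
      have : {x | x ∈ ball a s ∧ f x ∈ closedBall y₀ r'} =
          {x | x ∈ closedBall a s ∧ f x ∈ closedBall y₀ r'} := by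
        ext x
        constructor
        · rintro ⟨h1, h2⟩
          exact ⟨hballC h1, h2⟩
        · rintro ⟨h1, h2⟩
          exact ⟨hnosph x h1 (closedBall_subset_closedBall hr'.le h2), h2⟩
      rw [this]
      exact hKc y₀ r')
  have hd : (d : ℝ) = 1 := by
    have h1 := (hd2 ψ₀ hψ hψc hψs).2
    rw [h1, abs_mul] at hone
    have h2 : |∫ y, ψ₀ y| ≠ 0 := abs_ne_zero.mpr hψ0
    have h3 : |(d : ℝ)| = 1 := by
      have h4 : |(d : ℝ)| * |∫ y, ψ₀ y| = 1 * |∫ y, ψ₀ y| := by rw [hone, one_mul]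
      exact mul_right_cancel₀ h2 h4
    rwa [abs_of_nonneg (Nat.cast_nonneg d)] at h3
  have hsec : ∀ ψ : E n → ℝ, Continuous ψ → HasCompactSupport ψ → tsupport ψ ⊆ ball y₀ r →
      IntegrableOn (fun x => ψ (f x) * (D x).det) (ball a s) ∧
      ∫ x in ball a s, ψ (f x) * (D x).det = ∫ z, ψ z := by
    intro ψ h1 h2 h3
    obtain ⟨h4, h5⟩ := hd2 ψ h1 h2 h3
    rw [hd, one_mul] at h5
    exact ⟨h4, h5⟩
  refine ⟨?_, hsec⟩
  intro y hy
  have hyc : y ∈ closedBall y₀ r := ball_subset_closedBall hy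
  -- small balls missing a compact image
  have hmiss : ∀ T : Set (E n), IsCompact T → T ⊆ closedBall a s → (∀ x ∈ T, f x ≠ y) →
      ∃ ρ : ℝ, 0 < ρ ∧ ball y ρ ⊆ ball y₀ r ∧ ∀ x ∈ T, f x ∉ ball y ρ := by
    intro T hT hTs hTy
    have h1 : IsCompact (f '' T) := hT.image_of_continuousOn (hcont.mono hTs)
    have h2 : IsOpen ((f '' T)ᶜ ∩ ball y₀ r) := h1.isClosed.isOpen_compl.inter isOpen_ball
    have h3 : y ∈ (f '' T)ᶜ ∩ ball y₀ r := by
      refine ⟨?_, hy⟩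
      rintro ⟨x, hx, hxy⟩
      exact hTy x hx hxy
    obtain ⟨ρ, hρ, hρs⟩ := Metric.isOpen_iff.mp h2 y h3
    refine ⟨ρ, hρ, fun z hz => (hρs hz).2, fun x hx hfx => (hρs hfx).1 ⟨x, hx, rfl⟩⟩
  constructor
  · by_contra hemp
    rw [Set.not_nonempty_iff_eq_empty] at hemp
    obtain ⟨ρ, hρ, hρs, hρT⟩ := hmiss (closedBall a s) (isCompact_closedBall a s) (le_refl _) (by
      intro x hx hxy
      have : x ∈ {x | x ∈ ball a s ∧ f x = y} := ⟨hnosph x hx (by rw [hxy]; exact hyc), hxy⟩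
      rw [hemp] at this
      exact this)
    obtain ⟨ψ, hψ1, hψ2, hψ3, hψ4, hψ5⟩ := bump_exists y hρ
    have h1 := (hsec ψ hψ1 hψ2 (hψ3.trans hρs)).2
    have h2 : ∫ x in ball a s, ψ (f x) * (D x).det = 0 := by
      rw [setIntegral_eq_zero_of_forall_eq_zero]
      intro x hx
      rw [hψ4 _ (hρT x (hballC hx)), zero_mul]
    rw [h2] at h1
    linarith
  · rw [isPreconnected_closed_iff]
    intro t t' ht ht' hsub hne hne'
    by_contra hcon
    rw [Set.not_nonempty_iff_eq_empty] at hcon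
    set F : Set (E n) := {x | x ∈ ball a s ∧ f x = y} with hF
    have hFeq : F = {x | x ∈ closedBall a s ∧ f x ∈ closedBall y 0} := by
      ext x
      rw [hF]
      simp only [Set.mem_ofPred_eq, closedBall_zero, Set.mem_singleton_iff]
      constructor
      · rintro ⟨h1, h2⟩
        exact ⟨hballC h1, h2⟩
      · rintro ⟨h1, h2⟩
        exact ⟨hnosph x h1 (by rw [h2]; exact hyc), h2⟩
    have hFc : IsCompact F := by rw [hFeq]; exact hKc y 0
    have hF1 : IsCompact (F ∩ t) := hFc.inter_right ht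
    have hF2 : IsCompact (F ∩ t') := hFc.inter_right ht'
    have hdisj : Disjoint (F ∩ t) (F ∩ t') := by
      rw [Set.disjoint_left]
      rintro x ⟨hx, hxt⟩ ⟨_, hxt'⟩
      have : x ∈ F ∩ (t ∩ t') := ⟨hx, hxt, hxt'⟩
      rw [hcon] at this
      exact this
    obtain ⟨M1, M2, hM1, hM2, hFM1, hFM2, hM12⟩ := SeparatedNhds.of_isCompact_isCompact hF1 hF2 hdisj
    set N1 := M1 ∩ ball a s with hN1
    set N2 := M2 ∩ ball a s with hN2
    have hN1o : IsOpen N1 := hM1.inter isOpen_ball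
    have hN2o : IsOpen N2 := hM2.inter isOpen_ball
    have hN12 : ∀ x ∈ N1, x ∉ N2 := fun x hx1 hx2 => Set.disjoint_left.mp hM12 hx1.1 hx2.1
    have hN1B : N1 ⊆ ball a s := Set.inter_subset_right
    have hN2B : N2 ⊆ ball a s := Set.inter_subset_right
    have hFN : ∀ x ∈ F, x ∈ N1 ∪ N2 := by
      intro x hx
      rcases hsub hx with h1 | h1
      · exact Or.inl ⟨hFM1 ⟨hx, h1⟩, hx.1⟩
      · exact Or.inr ⟨hFM2 ⟨hx, h1⟩, hx.1⟩
    obtain ⟨ρ, hρ, hρs, hρT⟩ := hmiss (closedBall a s \ (N1 ∪ N2))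
      ((isCompact_closedBall a s).diff (hN1o.union hN2o)) Set.sdiff_subset (by
        rintro x ⟨hx1, hx2⟩ hxy
        exact hx2 (hFN x ⟨hnosph x hx1 (by rw [hxy]; exact hyc), hxy⟩))
    have hcompN : ∀ (P Q : Set (E n)), IsOpen Q → P ⊆ ball a s → (∀ x ∈ P, x ∉ Q) →
        N1 ∪ N2 ⊆ P ∪ Q →
        ∀ r' < ρ, IsCompact {x | x ∈ P ∧ f x ∈ closedBall y r'} := by
      intro P Q hQ hPB hPQ hsubPQ r' hr'
      have : {x | x ∈ P ∧ f x ∈ closedBall y r'} =
          {x | x ∈ closedBall a s ∧ f x ∈ closedBall y r'} \ Q := by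
        ext x
        constructor
        · rintro ⟨h1, h2⟩
          exact ⟨⟨hballC (hPB h1), h2⟩, hPQ x h1⟩
        · rintro ⟨⟨h1, h2⟩, h3⟩
          refine ⟨?_, h2⟩
          by_contra hxP
          have hxT : x ∈ closedBall a s \ (N1 ∪ N2) := by
            refine ⟨h1, fun h4 => ?_⟩
            rcases hsubPQ h4 with h5 | h5
            · exact hxP h5
            · exact h3 h5
          exact hρT x hxT (closedBall_subset_ball hr' h2)
      rw [this]
      exact (hKc y r').diff hQ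
    have hyρ : y ∈ ball y ρ := mem_ball_self hρ
    obtain ⟨d1, hd11, hd12⟩ := degree hn h (V := N1) hN1o ((hN1B.trans hballC).trans hsΩ)
      (y := y) (r := ρ) hρ (hcompN N1 N2 hN2o hN1B hN12 (le_refl _))
    obtain ⟨d2, hd21, hd22⟩ := degree hn h (V := N2) hN2o ((hN2B.trans hballC).trans hsΩ)
      (y := y) (r := ρ) hρ (hcompN N2 N1 hN1o hN2B (fun x hx hx' => hN12 x hx' hx)
        (by rw [Set.union_comm]))
    have hd1' : 1 ≤ d1 := by
      apply hd11
      obtain ⟨x, hx, hxt⟩ := hne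
      exact ⟨x, ⟨hFM1 ⟨hx, hxt⟩, hx.1⟩, by rw [hx.2]; exact hyρ⟩
    have hd2' : 1 ≤ d2 := by
      apply hd21
      obtain ⟨x, hx, hxt⟩ := hne'
      exact ⟨x, ⟨hFM2 ⟨hx, hxt⟩, hx.1⟩, by rw [hx.2]; exact hyρ⟩
    obtain ⟨ψ, hψ1, hψ2, hψ3, hψ4, hψ5⟩ := bump_exists y hρ
    obtain ⟨hi1, he1⟩ := hd12 ψ hψ1 hψ2 hψ3
    obtain ⟨hi2, he2⟩ := hd22 ψ hψ1 hψ2 hψ3
    obtain ⟨hi, he⟩ := hsec ψ hψ1 hψ2 (hψ3.trans hρs)
    have h1 : ∫ x in ball a s, ψ (f x) * (D x).det = ∫ x in N1 ∪ N2, ψ (f x) * (D x).det := by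
      apply setIntegral_eq_of_subset_of_forall_sdiff_eq_zero measurableSet_ball
        (Set.union_subset hN1B hN2B)
      rintro x ⟨hx1, hx2⟩
      rw [hψ4 _ (hρT x ⟨hballC hx1, hx2⟩), zero_mul]
    rw [setIntegral_union (Set.disjoint_left.mpr hN12) hN2o.measurableSet hi1 hi2, he1, he2, he] at h1
    have h2 : (1:ℝ) ≤ d1 := by exact_mod_cast hd1'
    have h3 : (1:ℝ) ≤ d2 := by exact_mod_cast hd2'
    nlinarith

end H930.BL
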