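import Mathlib

set_option autoImplicit false

open MeasureTheory Metric Set Filter Topology
open scoped ENNReal NNReal ContDiff

namespace H930.BL

/-- the ambient space (sup norm, closed balls are cubes) -/
abbrev E (n : ℕ) := Fin n → ℝ

/-- `j`-th partial derivative -/
noncomputable def pd {n : ℕ} (h : E n → ℝ) (j : Fin n) (x : E n) : ℝ :=
  fderiv ℝ h x (Pi.single j 1)

/-- sum of the absolute values of the partial derivatives -/
noncomputable def gr {n : ℕ} (h : E n → ℝ) (x : E n) : ℝ := ∑ j, |pd h j x|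

/-- Jacobian matrix -/
noncomputable def jac {n : ℕ} (f : E n → E n) (x : E n) : Matrix (Fin n) (Fin n) ℝ :=
  Matrix.of fun i j => pd (fun y => f y i) j x

/-- sum of the absolute values of the entries -/
noncomputable def sn {n : ℕ} (M : Matrix (Fin n) (Fin n) ℝ) : ℝ := ∑ i, ∑ j, |M i j|

/-- the set where the maximal function exceeds `lam` -/
def bad {n : ℕ} (g : E n → ℝ) (lam : ℝ) : Set (E n) :=
  {z | ∃ ρ : ℝ, 0 < ρ ∧ lam * (2 * ρ) ^ n < ∫ x in closedBall z ρ, g x}

/-- linear map of a matrix -/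
noncomputable def toC {n : ℕ} (M : Matrix (Fin n) (Fin n) ℝ) : E n →L[ℝ] E n :=
  LinearMap.toContinuousLinearMap (Matrix.toLin' M)

/-- `K_I^{1/(n-1)}` -/
noncomputable def kk {n : ℕ} (M : Matrix (Fin n) (Fin n) ℝ) : ℝ :=
  (if M.det = 0 then (1 : ℝ) else
    ‖Matrix.toEuclideanCLM (𝕜 := ℝ) M.adjugate‖ ^ n / M.det ^ (n - 1)) ^ ((1 : ℝ) / ((n : ℝ) - 1))

/-! ### basic facts -/

variable {n : ℕ}

lemma gr_nonneg (h : E n → ℝ) (x : E n) : 0 ≤ gr h x :=
  Finset.sum_nonneg fun _ _ => abs_nonneg _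

lemma sn_nonneg (M : Matrix (Fin n) (Fin n) ℝ) : 0 ≤ sn M :=
  Finset.sum_nonneg fun _ _ => Finset.sum_nonneg fun _ _ => abs_nonneg _

lemma abs_entry_le_sn (M : Matrix (Fin n) (Fin n) ℝ) (i j : Fin n) : |M i j| ≤ sn M := by
  unfold sn
  calc |M i j| ≤ ∑ j, |M i j| :=
        Finset.single_le_sum (f := fun j => |M i j|) (fun _ _ => abs_nonneg _) (Finset.mem_univ j)
    _ ≤ _ := Finset.single_le_sum (f := fun i => ∑ j, |M i j|)
        (fun _ _ => Finset.sum_nonneg fun _ _ => abs_nonneg _) (Finset.mem_univ i)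

lemma abs_pd_le_gr (h : E n → ℝ) (j : Fin n) (x : E n) : |pd h j x| ≤ gr h x :=
  Finset.single_le_sum (f := fun j => |pd h j x|) (fun _ _ => abs_nonneg _) (Finset.mem_univ j)

lemma fderiv_apply_eq (h : E n → ℝ) (x v : E n) : fderiv ℝ h x v = ∑ j, v j * pd h j x := by
  have h1 : v = ∑ j, v j • (Pi.single j (1 : ℝ) : E n) := by
    ext i
    simp [Finset.sum_apply, Pi.single_apply]
  conv_lhs => rw [h1]
  simp [map_sum, pd]

lemma abs_fderiv_apply_le (h : E n → ℝ) (x v : E n) : |fderiv ℝ h x v| ≤ gr h x * ‖v‖ := by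
  rw [fderiv_apply_eq, gr, Finset.sum_mul]
  refine (Finset.abs_sum_le_sum_abs _ _).trans (Finset.sum_le_sum fun j _ => ?_)
  rw [abs_mul, mul_comm]
  exact mul_le_mul_of_nonneg_left (norm_le_pi_norm v j) (abs_nonneg _)

lemma norm_fderiv_le_gr (h : E n → ℝ) (x : E n) : ‖fderiv ℝ h x‖ ≤ gr h x :=
  ContinuousLinearMap.opNorm_le_bound _ (gr_nonneg h x) fun v => abs_fderiv_apply_le h x v

lemma lip_of_gr {h : E n → ℝ} (hh : Differentiable ℝ h) {L : ℝ} (hL : ∀ x, gr h x ≤ L) (x y : E n) :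
    |h x - h y| ≤ L * dist x y := by
  have := Convex.norm_image_sub_le_of_norm_fderiv_le (𝕜 := ℝ) (s := univ) (f := h)
    (fun z _ => hh z) (fun z _ => (norm_fderiv_le_gr h z).trans (hL z)) convex_univ
    (mem_univ y) (mem_univ x)
  rwa [Real.norm_eq_abs, ← dist_eq_norm] at this

lemma pd_mul {u v : E n → ℝ} {x : E n} (hu : DifferentiableAt ℝ u x) (hv : DifferentiableAt ℝ v x)
    (j : Fin n) : pd (fun y => u y * v y) j x = u x * pd v j x + v x * pd u j x := by
  unfold pd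
  rw [fderiv_fun_mul hu hv]
  simp

lemma gr_mul_le {u v : E n → ℝ} {x : E n} (hu : DifferentiableAt ℝ u x)
    (hv : DifferentiableAt ℝ v x) :
    gr (fun y => u y * v y) x ≤ |u x| * gr v x + |v x| * gr u x := by
  unfold gr
  rw [Finset.mul_sum, Finset.mul_sum, ← Finset.sum_add_distrib]
  refine Finset.sum_le_sum fun j _ => ?_
  rw [pd_mul hu hv, ← abs_mul, ← abs_mul]
  exact abs_add_le _ _

lemma pd_one_sub (u : E n → ℝ) (j : Fin n) (x : E n) : pd (fun y => 1 - u y) j x = - pd u j x := by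
  unfold pd
  rw [fderiv_const_sub]
  simp

lemma gr_one_sub (u : E n → ℝ) (x : E n) : gr (fun y => 1 - u y) x = gr u x := by
  unfold gr
  refine Finset.sum_congr rfl fun j _ => ?_
  rw [pd_one_sub, abs_neg]

lemma pd_sub_const (u : E n → ℝ) (c : ℝ) (j : Fin n) (x : E n) :
    pd (fun y => u y - c) j x = pd u j x := by
  unfold pd
  rw [fderiv_sub_const]

lemma gr_sub_const (u : E n → ℝ) (c : ℝ) (x : E n) : gr (fun y => u y - c) x = gr u x := by
  unfold gr
  simp only [pd_sub_const]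

lemma gr_const (c : ℝ) (x : E n) : gr (fun _ : E n => c) x = 0 := by
  simp [gr, pd]

lemma gr_prod_le {ι : Type*} (s : Finset ι) {φ : ι → E n → ℝ} {x : E n}
    (hd : ∀ j ∈ s, DifferentiableAt ℝ (φ j) x) (h0 : ∀ j ∈ s, 0 ≤ φ j x)
    (h1 : ∀ j ∈ s, φ j x ≤ 1) :
    gr (fun y => ∏ j ∈ s, φ j y) x ≤ ∑ j ∈ s, gr (φ j) x := by
  classical
  induction s using Finset.induction_on with
  | empty => simp [gr_const]
  | insert a s ha ih =>
    have hP : DifferentiableAt ℝ (fun y => ∏ j ∈ s, φ j y) x :=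
      (HasFDerivAt.finsetProd fun j hj =>
        (hd j (Finset.mem_insert_of_mem hj)).hasFDerivAt).differentiableAt
    have hP0 : 0 ≤ ∏ j ∈ s, φ j x :=
      Finset.prod_nonneg fun j hj => h0 j (Finset.mem_insert_of_mem hj)
    have hP1 : ∏ j ∈ s, φ j x ≤ 1 :=
      Finset.prod_le_one (fun j hj => h0 j (Finset.mem_insert_of_mem hj))
        fun j hj => h1 j (Finset.mem_insert_of_mem hj)
    have ha0 := h0 a (Finset.mem_insert_self _ _)
    have ha1 := h1 a (Finset.mem_insert_self _ _)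
    have h2 := ih (fun j hj => hd j (Finset.mem_insert_of_mem hj))
      (fun j hj => h0 j (Finset.mem_insert_of_mem hj)) (fun j hj => h1 j (Finset.mem_insert_of_mem hj))
    have h3 := gr_mul_le (hd a (Finset.mem_insert_self _ _)) hP
    have h4 : (fun y => ∏ j ∈ insert a s, φ j y) = fun y => φ a y * ∏ j ∈ s, φ j y := by
      ext y; rw [Finset.prod_insert ha]
    rw [h4, Finset.sum_insert ha]
    refine h3.trans ?_
    rw [abs_of_nonneg ha0, abs_of_nonneg hP0]
    have h5 := gr_nonneg (φ a) x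
    have h6 := gr_nonneg (fun y => ∏ j ∈ s, φ j y) x
    nlinarith

/-! continuity -/

lemma continuous_pd {h : E n → ℝ} (hh : ContDiff ℝ 1 h) (j : Fin n) : Continuous (pd h j) := by
  unfold pd
  exact (hh.continuous_fderiv one_ne_zero).clm_apply continuous_const

lemma continuous_gr {h : E n → ℝ} (hh : ContDiff ℝ 1 h) : Continuous (gr h) := by
  unfold gr
  exact continuous_finsetSum _ fun j _ => (continuous_pd hh j).abs

lemma contDiff_comp_apply {f : E n → E n} {k : ℕ∞} (hf : ContDiff ℝ k f) (i : Fin n) :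
    ContDiff ℝ k (fun y => f y i) := by
  exact (contDiff_pi.1 hf) i

lemma continuous_jac {f : E n → E n} (hf : ContDiff ℝ 1 f) : Continuous (jac f) := by
  refine continuous_matrix fun i j => ?_
  exact continuous_pd ((contDiff_pi.1 hf) i) j

lemma continuous_sn : Continuous (sn : Matrix (Fin n) (Fin n) ℝ → ℝ) := by
  unfold sn
  exact continuous_finsetSum _ fun i _ => continuous_finsetSum _ fun j _ =>
    ((continuous_apply_apply i j)).abs

lemma continuous_sn_adj {f : E n → E n} (hf : ContDiff ℝ 1 f) :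
    Continuous fun x => sn (jac f x).adjugate :=
  continuous_sn.comp (continuous_jac hf).matrix_adjugate

lemma continuous_det_jac {f : E n → E n} (hf : ContDiff ℝ 1 f) :
    Continuous fun x => (jac f x).det :=
  (continuous_jac hf).matrix_det

lemma toC_det (M : Matrix (Fin n) (Fin n) ℝ) : (toC M).det = M.det := by
  unfold toC
  show LinearMap.det _ = _
  simp

lemma volume_cube (x : E n) {r : ℝ} (hr : 0 ≤ r) :
    volume (closedBall x r) = ENNReal.ofReal ((2 * r) ^ n) := by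
  rw [Real.volume_pi_closedBall x hr]; simp

lemma pd_eq_zero_of_notMem {h : E n → ℝ} {x : E n} (hx : x ∉ tsupport h) (j : Fin n) :
    pd h j x = 0 := by
  unfold pd
  rw [fderiv_of_notMem_tsupport (𝕜 := ℝ) hx]
  simp

lemma gr_eq_zero_of_notMem {h : E n → ℝ} {x : E n} (hx : x ∉ tsupport h) : gr h x = 0 := by
  unfold gr
  simp [pd_eq_zero_of_notMem hx]

lemma abs_sum_adj_le (M : Matrix (Fin n) (Fin n) ℝ) (h : E n → ℝ) (x : E n) (i : Fin n) :
    |∑ j, M j i * pd h j x| ≤ gr h x * sn M := by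
  refine (Finset.abs_sum_le_sum_abs _ _).trans ?_
  unfold gr
  rw [Finset.sum_mul]
  refine Finset.sum_le_sum fun j _ => ?_
  rw [abs_mul, mul_comm]
  exact mul_le_mul_of_nonneg_left (abs_entry_le_sn M j i) (abs_nonneg _)

/-! ### mappings of finite distortion -/

/-- distortion of a matrix -/
noncomputable def kd {n : ℕ} (M : Matrix (Fin n) (Fin n) ℝ) : ℝ :=
  if M.det = 0 then 1 else sn M ^ n / M.det

/-- mapping of finite distortion on an open set, all powers of the distortion locally integrable,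
together with the change of variables identity -/
structure FDMap {n : ℕ} (f : E n → E n) (D : E n → Matrix (Fin n) (Fin n) ℝ) (Ω : Set (E n)) :
    Prop where
  isOpen : IsOpen Ω
  cont : ContinuousOn f Ω
  meas : ∀ i j, Measurable fun x => D x i j
  weak : ∀ φ : E n → ℝ, ContDiff ℝ ∞ φ → HasCompactSupport φ → tsupport φ ⊆ Ω →
    ∀ i j, ∫ x, f x i * pd φ j x = - ∫ x, D x i j * φ x
  pos : ∀ᵐ x ∂(volume.restrict Ω), 0 ≤ (D x).det ∧ ((D x).det = 0 → D x = 0)
  det_int : ∀ K, IsCompact K → K ⊆ Ω → IntegrableOn (fun x => (D x).det) K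
  kd_int : ∀ q : ℕ, ∀ K, IsCompact K → K ⊆ Ω → IntegrableOn (fun x => kd (D x) ^ q) K
  ident : ∀ η : E n → ℝ, ContDiff ℝ ∞ η → HasCompactSupport η → tsupport η ⊆ Ω →
    ∀ ψ : E n → ℝ, ContDiff ℝ ∞ ψ → ∀ i,
      ∫ x, η x * pd ψ i (f x) * (D x).det =
        - ∫ x, ψ (f x) * ∑ j, (D x).adjugate j i * pd η j x

/-- `f` maps some open `U ⊆ Ω` homeomorphically onto the cube `ball y r` -/
def Univ {n : ℕ} (f : E n → E n) (Ω : Set (E n)) (y : E n) (r : ℝ) : Prop :=
  ∃ (U : Set (E n)) (g : E n → E n), IsOpen U ∧ U ⊆ Ω ∧ ContinuousOn g (ball y r) ∧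
    (∀ z ∈ ball y r, g z ∈ U ∧ f (g z) = z) ∧ (∀ x ∈ U, f x ∈ ball y r ∧ g (f x) = x)

/-- average over the cube of half side `r` -/
noncomputable def av {n : ℕ} (r : ℝ) (g : E n → ℝ) (x : E n) : ℝ :=
  ((2 * r) ^ n)⁻¹ * ∫ y in closedBall x r, g y

/-- iterated averages -/
noncomputable def avs {n : ℕ} : List ℝ → (E n → ℝ) → E n → ℝ
  | [], g => g
  | r :: l, g => av r (avs l g)

/-- exponents -/
noncomputable def pe (n : ℕ) : ℝ := (n : ℝ) - 1 / 2

noncomputable def pf (n : ℕ) : ℝ := (n : ℝ) - 1 / 4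

end H930.BL
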