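import Pool.Agent.Helper930.BL.Defs

set_option autoImplicit false

open MeasureTheory Metric Set Filter Topology
open scoped ENNReal NNReal ContDiff

namespace H930.BL

/-- the radii `ρ k, ..., ρ (S-1)` -/
noncomputable def lst (ρ : ℕ → ℝ) (S k : ℕ) : List ℝ := (List.range' k (S - k)).map ρ

/-- output of the selection: a cube on which the map is well approximated -/
structure Good {n : ℕ} (D : E n → Matrix (Fin n) (Fin n) ℝ) (ρ κ C : ℝ) (x : E n) (r : ℝ)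
    (l : List ℝ) (G : Fin n → Fin n → E n → ℝ) (M : Matrix (Fin n) (Fin n) ℝ) (w : ℝ) : Prop where
  r_pos : 0 < r
  r_le : r ≤ 1
  l_pos : ∀ t ∈ l, 0 < t
  l_sum : l.sum ≤ 2 * ρ * r
  G_meas : ∀ i j, Measurable (G i j)
  G_eq : ∀ i j, ∀ y ∈ closedBall x (2 * r), G i j y = D y i j
  w_pos : 0 < w
  w_le : w ≤ ((r / 2) ^ n)⁻¹ * ∫ y in closedBall x (r / 4), sn (D y) ^ pe n
  osc : ∑ i, ∑ j, ∫ y in closedBall x r, |avs l (G i j) y - M i j| ^ pe n ≤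
    C * ρ ^ (1 / 4 - κ) * r ^ n * w
  outer : ∫ y in closedBall x (2 * r), sn (D y) ^ pe n ≤ C * ρ ^ (-κ) * r ^ n * w
  kdb : ∫ y in closedBall x r, kd (D y) ^ (2 * n - 1) ≤ C * ρ ^ (-κ) * r ^ n
  w_ge : C⁻¹ * ρ ^ (2 * n) ≤ w
  M_le : ∀ i j, |M i j| ^ pe n ≤ C * ρ ^ (-κ) * w

/-- Euclidean norm -/
noncomputable def en {n : ℕ} (x : E n) : ℝ := Real.sqrt (∑ i, x i ^ 2)

/-- Euclidean balls -/
def Bn (n : ℕ) (R : ℝ) : Set (E n) := {x | en x < R}

/-- outer distortion with respect to the Euclidean operator norm -/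
noncomputable def ko {n : ℕ} (M : Matrix (Fin n) (Fin n) ℝ) : ℝ :=
  if M.det = 0 then 1 else ‖Matrix.toEuclideanCLM (𝕜 := ℝ) M‖ ^ n / M.det

end H930.BL
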