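import Pool.Agent.Helper930.BL.J01

set_option autoImplicit false
open MeasureTheory Metric Set Filter Topology
open scoped ENNReal NNReal ContDiff

namespace H930.BL.J02







theorem aux_jac {n : ℕ} {f : E n → E n} (hf : ContDiff ℝ ∞ f) (x : E n) (i j : Fin n) :
    jac f x i j = fderiv ℝ f x (Pi.single j 1) i := by
  have hd : DifferentiableAt ℝ f x := (hf.differentiable (by simp)) x
  have h1 := (hasFDerivAt_pi'.mp hd.hasFDerivAt) i
  unfold jac pd
  rw [Matrix.of_apply, h1.fderiv]
  rfl

theorem aux_det {n : ℕ} (A : Matrix (Fin n) (Fin n) ℝ) (i : Fin n) (b : Fin n → ℝ) :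
    (A.updateRow i b).det = ∑ j, A.adjugate j i * b j := by
  rw [← Matrix.cramer_transpose_apply, Matrix.cramer_eq_adjugate_mulVec,
    ← Matrix.adjugate_transpose]
  rfl

theorem aux_lin {n : ℕ} (g : E n → ℝ) (y w : E n) :
    fderiv ℝ g y w = ∑ l, w l * pd g l y := by
  have hw : w = ∑ l, w l • (Pi.single l (1 : ℝ) : E n) := by
    conv_lhs => rw [← Finset.univ_sum_single w]
    apply Finset.sum_congr rfl
    intro l _
    rw [← Pi.single_smul, smul_eq_mul, mul_one]
  conv_lhs => rw [hw]
  rw [map_sum]
  apply Finset.sum_congr rfl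
  intro l _
  rw [map_smul, smul_eq_mul]
  rfl

theorem aux_pd {n : ℕ} {f : E n → E n} (hf : ContDiff ℝ ∞ f) {h : E n → ℝ}
    (hh : ContDiff ℝ ∞ h) {ψ : E n → ℝ} (hψ : ContDiff ℝ ∞ ψ) (x : E n) (j : Fin n) :
    pd (fun x => h x * ψ (f x)) j x =
      h x * (∑ l, jac f x l j * pd ψ l (f x)) + ψ (f x) * pd h j x := by
  have hdf : DifferentiableAt ℝ f x := (hf.differentiable (by simp)) x
  have hdh : DifferentiableAt ℝ h x := (hh.differentiable (by simp)) x
  have hdψ : DifferentiableAt ℝ ψ (f x) := (hψ.differentiable (by simp)) (f x)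
  have h1 : HasFDerivAt (fun x => ψ (f x)) ((fderiv ℝ ψ (f x)).comp (fderiv ℝ f x)) x :=
    hdψ.hasFDerivAt.comp x hdf.hasFDerivAt
  have h2 := (hdh.hasFDerivAt.mul h1).fderiv
  unfold pd at *
  have e : fderiv ℝ (fun x => h x * ψ (f x)) x = fderiv ℝ (h * fun x => ψ (f x)) x := rfl
  rw [e, h2]
  simp only [ContinuousLinearMap.add_apply, ContinuousLinearMap.smul_apply, smul_eq_mul,
    ContinuousLinearMap.comp_apply]
  rw [aux_lin]
  unfold pd
  congr 2
  apply Finset.sum_congr rfl
  intro l _
  rw [aux_jac hf]

theorem aux_cont_pd {n : ℕ} {g : E n → ℝ} (hg : ContDiff ℝ ∞ g) (j : Fin n) :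
    Continuous (fun x => pd g j x) := by
  unfold pd
  exact (hg.continuous_fderiv (by simp)).clm_apply continuous_const

theorem aux_cont_jac {n : ℕ} {f : E n → E n} (hf : ContDiff ℝ ∞ f) :
    Continuous (fun x => jac f x) := by
  apply continuous_matrix
  intro i j
  unfold jac
  simp only [Matrix.of_apply]
  exact aux_cont_pd ((contDiff_pi.mp hf) i) j

/-- L1b. integration by parts for smooth maps -/
theorem ibp_smooth {n : ℕ} {f : E n → E n} (hf : ContDiff ℝ ∞ f) {h : E n → ℝ}
    (hh : ContDiff ℝ ∞ h) (hc : HasCompactSupport h) {ψ : E n → ℝ} (hψ : ContDiff ℝ ∞ ψ)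
    (i : Fin n) :
    ∫ x, h x * pd ψ i (f x) * (jac f x).det =
      - ∫ x, ψ (f x) * ∑ j, (jac f x).adjugate j i * pd h j x := by
  have hu : ContDiff ℝ ∞ (fun x => h x * ψ (f x)) := hh.mul (hψ.comp hf)
  have huc : HasCompactSupport (fun x => h x * ψ (f x)) := hc.mul_right
  have h0 := null_lagrangian hf hu huc i
  have key : ∀ x, ((jac f x).updateRow i (fun j => pd (fun x => h x * ψ (f x)) j x)).det =
      h x * pd ψ i (f x) * (jac f x).det +
        ψ (f x) * ∑ j, (jac f x).adjugate j i * pd h j x := by
    intro x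
    rw [aux_det]
    simp only [aux_pd hf hh hψ, mul_add, Finset.sum_add_distrib]
    congr 1
    · have h1 : ∀ l, ∑ j, jac f x l j * (jac f x).adjugate j i =
          if l = i then (jac f x).det else 0 := by
        intro l
        have h2 : (jac f x * (jac f x).adjugate) l i = ((jac f x).det • (1 : Matrix _ _ ℝ)) l i := by
          rw [Matrix.mul_adjugate]
        rw [Matrix.mul_apply] at h2
        rw [h2, Matrix.smul_apply, Matrix.one_apply]
        split_ifs <;> simp
      calc ∑ j, (jac f x).adjugate j i * (h x * ∑ l, jac f x l j * pd ψ l (f x))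
          = ∑ j, ∑ l, h x * pd ψ l (f x) * (jac f x l j * (jac f x).adjugate j i) := by
            apply Finset.sum_congr rfl
            intro j _
            rw [Finset.mul_sum, Finset.mul_sum]
            apply Finset.sum_congr rfl
            intro l _
            ring
        _ = ∑ l, h x * pd ψ l (f x) * ∑ j, jac f x l j * (jac f x).adjugate j i := by
            rw [Finset.sum_comm]
            apply Finset.sum_congr rfl
            intro l _
            rw [Finset.mul_sum]
        _ = h x * pd ψ i (f x) * (jac f x).det := by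
            simp only [h1, mul_ite, mul_zero]
            rw [Finset.sum_ite_eq' Finset.univ i]
            simp
    · rw [Finset.mul_sum]
      apply Finset.sum_congr rfl
      intro j _
      ring
  simp only [key] at h0
  have hcd : Continuous (fun x => (jac f x).det) := (aux_cont_jac hf).matrix_det
  have hca : ∀ j, Continuous (fun x => (jac f x).adjugate j i) := fun j =>
    ((aux_cont_jac hf).matrix_adjugate).matrix_elem j i
  have hcψ : Continuous (fun x => ψ (f x)) := hψ.continuous.comp hf.continuous
  have hcp : Continuous (fun x => pd ψ i (f x)) := (aux_cont_pd hψ i).comp hf.continuous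
  have hi1 : Integrable (fun x => h x * pd ψ i (f x) * (jac f x).det) := by
    apply Continuous.integrable_of_hasCompactSupport
    · exact (hh.continuous.mul hcp).mul hcd
    · exact (hc.mul_right).mul_right
  have hi2 : Integrable (fun x => ψ (f x) * ∑ j, (jac f x).adjugate j i * pd h j x) := by
    simp only [Finset.mul_sum]
    apply integrable_finset_sum
    intro j _
    apply Continuous.integrable_of_hasCompactSupport
    · exact hcψ.mul ((hca j).mul (aux_cont_pd hh j))
    · have h3 : HasCompactSupport (fun x => pd h j x) := hc.fderiv_apply ℝ _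
      exact (h3.mul_left).mul_left
  rw [integral_add hi1 hi2] at h0
  linarith

lemma det_fderiv {n : ℕ} {f : E n → E n} (hf : ContDiff ℝ ∞ f) (x : E n) :
    (fderiv ℝ f x).det = (jac f x).det := by
  have hM : jac f x = LinearMap.toMatrix' ((fderiv ℝ f x : E n →L[ℝ] E n) : E n →ₗ[ℝ] E n) := by
    ext i j
    rw [aux_jac hf, LinearMap.toMatrix'_apply]
    congr 2
    try (ext k; simp [Pi.single_apply])
  rw [hM, LinearMap.det_toMatrix']


end H930.BL.J02

namespace H930.BL

export J02 (ibp_smooth det_fderiv)

end H930.BL
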