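import Pool.Agent.Helper930.BL.Defs

set_option autoImplicit false
open MeasureTheory Metric Set Filter Topology
open scoped ENNReal NNReal ContDiff

namespace H930.BL.J08




lemma exists_C0 : ∃ C : ℝ, 0 < C ∧ ∀ s : ℝ, |deriv Real.smoothTransition s| ≤ C := by
  have hs : ContDiff ℝ 1 Real.smoothTransition := Real.smoothTransition.contDiff
  have hc : Continuous (deriv Real.smoothTransition) := hs.continuous_deriv le_rfl
  obtain ⟨C, hC⟩ := isCompact_Icc.exists_bound_of_continuousOn
    (s := Icc (0 : ℝ) 1) hc.continuousOn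
  refine ⟨|C| + 1, by positivity, fun s => ?_⟩
  by_cases h : s ∈ Icc (0 : ℝ) 1
  · have := hC s h
    rw [Real.norm_eq_abs] at this
    have := le_abs_self C
    linarith
  · have h0 : deriv Real.smoothTransition s = 0 := by
      rw [mem_Icc, not_and_or, not_le, not_le] at h
      rcases h with h | h
      · have : IsLocalMin Real.smoothTransition s := by
          refine Filter.Eventually.of_forall fun y => ?_
          rw [Real.smoothTransition.zero_of_nonpos h.le]
          exact Real.smoothTransition.nonneg y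
        exact this.deriv_eq_zero
      · have : IsLocalMax Real.smoothTransition s := by
          refine Filter.Eventually.of_forall fun y => ?_
          rw [Real.smoothTransition.one_of_one_le h.le]
          exact Real.smoothTransition.le_one y
        exact this.deriv_eq_zero
    rw [h0, abs_zero]
    positivity

/-- one-dimensional cutoff -/
noncomputable def ph (t δ s : ℝ) : ℝ :=
  Real.smoothTransition ((t + δ - s) / δ) * Real.smoothTransition ((t + δ + s) / δ)

lemma ph_nonneg (t δ s : ℝ) : 0 ≤ ph t δ s :=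
  mul_nonneg (Real.smoothTransition.nonneg _) (Real.smoothTransition.nonneg _)

lemma ph_le_one (t δ s : ℝ) : ph t δ s ≤ 1 :=
  mul_le_one₀ (Real.smoothTransition.le_one _) (Real.smoothTransition.nonneg _)
    (Real.smoothTransition.le_one _)

lemma ph_one {t δ s : ℝ} (hδ : 0 < δ) (h : |s| ≤ t) : ph t δ s = 1 := by
  obtain ⟨h1, h2⟩ := abs_le.mp h
  unfold ph
  rw [Real.smoothTransition.one_of_one_le, Real.smoothTransition.one_of_one_le, one_mul]
  · rw [le_div_iff₀ hδ]; linarith
  · rw [le_div_iff₀ hδ]; linarith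

lemma ph_zero {t δ s : ℝ} (hδ : 0 < δ) (h : t + δ ≤ |s|) : ph t δ s = 0 := by
  unfold ph
  rcases le_abs.mp h with h | h
  · rw [Real.smoothTransition.zero_of_nonpos, zero_mul]
    exact div_nonpos_of_nonpos_of_nonneg (by linarith) hδ.le
  · rw [Real.smoothTransition.zero_of_nonpos (x := (t + δ + s) / δ), mul_zero]
    exact div_nonpos_of_nonpos_of_nonneg (by linarith) hδ.le

lemma ph_contDiff (t δ : ℝ) : ContDiff ℝ ∞ (ph t δ) := by
  unfold ph
  apply ContDiff.mul
  · exact Real.smoothTransition.contDiff.comp (by fun_prop)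
  · exact Real.smoothTransition.contDiff.comp (by fun_prop)

lemma ph_deriv {C : ℝ} (hC : ∀ s : ℝ, |deriv Real.smoothTransition s| ≤ C) {t δ : ℝ}
    (hδ : 0 < δ) (s : ℝ) : |deriv (ph t δ) s| ≤ 2 * C / δ := by
  have hd : ∀ y, HasDerivAt Real.smoothTransition (deriv Real.smoothTransition y) y := fun y =>
    (((Real.smoothTransition.contDiff (n := 1)).differentiable (by simp)) y).hasDerivAt
  have h1 : HasDerivAt (fun s : ℝ => (t + δ - s) / δ) (-1 / δ) s := by
    have := ((hasDerivAt_id s).const_sub (t + δ)).div_const δ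
    simpa using this
  have h2 : HasDerivAt (fun s : ℝ => (t + δ + s) / δ) (1 / δ) s := by
    have := ((hasDerivAt_id s).const_add (t + δ)).div_const δ
    simpa using this
  have h3 := (hd ((t + δ - s) / δ)).comp s h1
  have h4 := (hd ((t + δ + s) / δ)).comp s h2
  have h5 := h3.mul h4
  have h6 : deriv (ph t δ) s = _ := h5.deriv
  rw [h6]
  have a1 := hC ((t + δ - s) / δ)
  have a2 := hC ((t + δ + s) / δ)
  have b1 : |Real.smoothTransition ((t + δ - s) / δ)| ≤ 1 := by
    rw [abs_of_nonneg (Real.smoothTransition.nonneg _)]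
    exact Real.smoothTransition.le_one _
  have b2 : |Real.smoothTransition ((t + δ + s) / δ)| ≤ 1 := by
    rw [abs_of_nonneg (Real.smoothTransition.nonneg _)]
    exact Real.smoothTransition.le_one _
  have hC0 : 0 ≤ C := (abs_nonneg _).trans a1
  refine (abs_add_le _ _).trans ?_
  simp only [abs_mul, Function.comp]
  have e1 : |(-1 : ℝ) / δ| = 1 / δ := by
    rw [abs_div, abs_neg, abs_one, abs_of_pos hδ]
  have e2 : |(1 : ℝ) / δ| = 1 / δ := by
    rw [abs_div, abs_one, abs_of_pos hδ]
  rw [e1, e2]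
  have hd0 : 0 ≤ 1 / δ := by positivity
  have c1 : |deriv Real.smoothTransition ((t + δ - s) / δ)| * (1 / δ) *
      |Real.smoothTransition ((t + δ + s) / δ)| ≤ C * (1 / δ) * 1 := by
    gcongr
  have c2 : |Real.smoothTransition ((t + δ - s) / δ)| *
      (|deriv Real.smoothTransition ((t + δ + s) / δ)| * (1 / δ)) ≤ 1 * (C * (1 / δ)) := by
    gcongr
  calc _ ≤ C * (1 / δ) * 1 + 1 * (C * (1 / δ)) := add_le_add c1 c2
    _ = 2 * C / δ := by ring

/-- L7. cutoffs -/
theorem cutoff (n : ℕ) : ∃ C : ℝ, 0 < C ∧ ∀ (a : E n) (t δ : ℝ), 0 < t → 0 < δ →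
    ∃ χ : E n → ℝ, ContDiff ℝ ∞ χ ∧ (∀ x, 0 ≤ χ x) ∧ (∀ x, χ x ≤ 1) ∧
      (∀ x ∈ closedBall a t, χ x = 1) ∧ (∀ x ∉ closedBall a (t + δ), χ x = 0) ∧
      (∀ x, gr χ x ≤ (closedBall a (t + δ) \ closedBall a t).indicator (fun _ => C / δ) x) := by
  obtain ⟨C0, hC0, hb⟩ := exists_C0
  refine ⟨2 * n * C0 + 1, by positivity, ?_⟩
  intro a t δ ht hδ
  set χ : E n → ℝ := fun x => ∏ l, ph t δ (x l - a l) with hχ
  have hsm : ContDiff ℝ ∞ χ := by
    apply contDiff_prod
    intro l _
    exact (ph_contDiff t δ).comp (by fun_prop)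
  have h0 : ∀ x, 0 ≤ χ x := fun x => Finset.prod_nonneg fun l _ => ph_nonneg _ _ _
  have h1 : ∀ x, χ x ≤ 1 := fun x =>
    Finset.prod_le_one (fun l _ => ph_nonneg _ _ _) (fun l _ => ph_le_one _ _ _)
  have hone : ∀ x ∈ closedBall a t, χ x = 1 := by
    intro x hx
    apply Finset.prod_eq_one
    intro l _
    apply ph_one hδ
    rw [mem_closedBall, dist_pi_le_iff ht.le] at hx
    have := hx l
    rwa [Real.dist_eq] at this
  have hzero : ∀ x ∉ closedBall a (t + δ), χ x = 0 := by
    intro x hx
    rw [mem_closedBall, dist_pi_le_iff (by positivity)] at hx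
    push Not at hx
    obtain ⟨l, hl⟩ := hx
    rw [Real.dist_eq] at hl
    exact Finset.prod_eq_zero (Finset.mem_univ l) (ph_zero hδ hl.le)
  refine ⟨χ, hsm, h0, h1, hone, hzero, ?_⟩
  have hgr0 : ∀ x, (χ x = 1 ∨ χ x = 0) → gr χ x = 0 := by
    intro x hx
    have hf : fderiv ℝ χ x = 0 := by
      rcases hx with hx | hx
      · have : IsLocalMax χ x := Filter.Eventually.of_forall fun y => by
          rw [hx]; exact h1 y
        exact this.fderiv_eq_zero
      · have : IsLocalMin χ x := Filter.Eventually.of_forall fun y => by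
          rw [hx]; exact h0 y
        exact this.fderiv_eq_zero
    simp [gr, pd, hf]
  intro x
  by_cases hx1 : x ∈ closedBall a t
  · rw [hgr0 x (Or.inl (hone x hx1)), indicator_of_notMem (fun h => h.2 hx1)]
  by_cases hx2 : x ∈ closedBall a (t + δ)
  swap
  · rw [hgr0 x (Or.inr (hzero x hx2)), indicator_of_notMem (fun h => hx2 h.1)]
  rw [indicator_of_mem (show x ∈ closedBall a (t + δ) \ closedBall a t from ⟨hx2, hx1⟩)]
  have hpd : ∀ j, |pd χ j x| ≤ 2 * C0 / δ := by
    intro j
    have hdiff : DifferentiableAt ℝ χ x := (hsm.differentiable (by simp)) x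
    have e : pd χ j x = lineDeriv ℝ χ x (Pi.single j 1) :=
      (hdiff.lineDeriv_eq_fderiv).symm
    rw [e, lineDeriv]
    have e2 : (fun s : ℝ => χ (x + s • (Pi.single j 1 : E n))) =
        fun s => ph t δ (s + (x j - a j)) * ∏ l ∈ Finset.univ.erase j, ph t δ (x l - a l) := by
      funext s
      simp only [hχ]
      rw [← Finset.mul_prod_erase Finset.univ _ (Finset.mem_univ j)]
      congr 1
      · congr 1
        simp
        ring
      · apply Finset.prod_congr rfl
        intro l hl
        rw [Finset.mem_erase] at hl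
        congr 2
        simp [Pi.single_eq_of_ne hl.1]
    rw [e2, deriv_mul_const_field, deriv_comp_add_const, zero_add, abs_mul]
    have p1 : |∏ l ∈ Finset.univ.erase j, ph t δ (x l - a l)| ≤ 1 := by
      rw [abs_of_nonneg (Finset.prod_nonneg fun l _ => ph_nonneg _ _ _)]
      exact Finset.prod_le_one (fun l _ => ph_nonneg _ _ _) (fun l _ => ph_le_one _ _ _)
    have p2 := ph_deriv hb (t := t) hδ (x j - a j)
    calc _ ≤ (2 * C0 / δ) * 1 := by
          apply mul_le_mul p2 p1 (abs_nonneg _) (by positivity)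
      _ = _ := mul_one _
  calc gr χ x ≤ ∑ j : Fin n, 2 * C0 / δ := Finset.sum_le_sum fun j _ => hpd j
    _ = n * (2 * C0 / δ) := by simp
    _ ≤ (2 * n * C0 + 1) / δ := by
      rw [mul_div_assoc', div_le_div_iff_of_pos_right hδ]
      linarith


end H930.BL.J08

namespace H930.BL

export J08 (cutoff)

end H930.BL
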