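import Pool.Agent.Helper930.BL.Hol
import Pool.Agent.Helper930.BL.Moll
import Pool.Agent.Helper930.BL.J02
import Pool.Agent.Helper930.BL.J08
import Pool.Agent.Helper930.BL.J20

set_option autoImplicit false

open MeasureTheory Metric Set Filter Topology
open scoped ENNReal NNReal ContDiff

namespace H930.BL.XDegAff

variable {n : ℕ}


theorem exists_potential {n : ℕ} (i0 : Fin n) {ψ : E n → ℝ} (hψ : ContDiff ℝ ∞ ψ)
    (hc : HasCompactSupport ψ) : ∃ Ψ : E n → ℝ, ContDiff ℝ ∞ Ψ ∧ ∀ x, pd Ψ i0 x = ψ x := by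
  classical
  set e : E n := Pi.single i0 1 with he
  have he1 : ‖e‖ = 1 := by rw [he, Pi.norm_single]; simp
  have hlin : Continuous fun t : ℝ => t • e := continuous_id.smul continuous_const
  set μ : Measure (E n) := (volume.restrict (Ioi (0:ℝ))).map (fun t => t • e) with hμ
  have hfin : IsLocallyFiniteMeasure μ := by
    refine ⟨fun x => ⟨ball x 1, ball_mem_nhds _ one_pos, ?_⟩⟩
    rw [hμ, Measure.map_apply hlin.measurable measurableSet_ball]
    refine lt_of_le_of_lt (Measure.restrict_apply_le _ _) ?_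
    refine lt_of_le_of_lt (measure_mono (t := ball (x i0) 1) ?_) measure_ball_lt_top
    intro t ht
    have h1 : dist (t • e) x < 1 := ht
    have h2 : dist ((t • e) i0) (x i0) ≤ dist (t • e) x := dist_le_pi_dist _ _ i0
    have h3 : (t • e) i0 = t := by simp [he]
    rw [h3] at h2
    exact lt_of_le_of_lt h2 h1
  have hloc : LocallyIntegrable (fun _ : E n => (1:ℝ)) μ := locallyIntegrable_const _
  have hΨ : ContDiff ℝ ∞ (convolution (fun _ : E n => (1:ℝ)) ψ (ContinuousLinearMap.lsmul ℝ ℝ) μ) :=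
    HasCompactSupport.contDiff_convolution_right _ hc hloc hψ
  refine ⟨convolution (fun _ : E n => (1:ℝ)) ψ (ContinuousLinearMap.lsmul ℝ ℝ) μ, hΨ, fun x => ?_⟩
  have hform : ∀ z, convolution (fun _ : E n => (1:ℝ)) ψ (ContinuousLinearMap.lsmul ℝ ℝ) μ z =
      ∫ t in Ioi (0:ℝ), ψ (z - t • e) := by
    intro z
    rw [convolution_def]
    simp only [ContinuousLinearMap.lsmul_apply, one_smul]
    rw [hμ, integral_map hlin.aemeasurable]
    exact (hψ.continuous.comp (continuous_const.sub continuous_id)).aestronglyMeasurable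
  -- the function along the line
  set φ : ℝ → ℝ := fun u => ψ (x + u • e) with hφ
  have hφc : Continuous φ := hψ.continuous.comp (continuous_const.add hlin)
  obtain ⟨R, hR⟩ := hc.isCompact.isBounded.subset_closedBall x
  have hφ0 : ∀ u, R < |u| → φ u = 0 := by
    intro u hu
    by_contra hne
    have h6 : x + u • e ∈ closedBall x R := hR (subset_tsupport _ hne)
    rw [mem_closedBall, dist_eq_norm] at h6
    have h7 : x + u • e - x = u • e := by abel
    rw [h7, norm_smul, he1, mul_one, Real.norm_eq_abs] at h6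
    exact absurd h6 (not_le.2 hu)
  set Φ : ℝ → ℝ := fun u => ∫ v in (0:ℝ)..u, φ v with hΦ
  have hΦd : ∀ u, HasDerivAt Φ (φ u) u := fun u =>
    intervalIntegral.integral_hasDerivAt_right (hφc.intervalIntegrable _ _)
      (hφc.stronglyMeasurableAtFilter _ _) hφc.continuousAt
  have hΦc : ∀ u, u ≤ -(|R|+1) → Φ u = Φ (-(|R|+1)) := by
    intro u hu
    have h1 : Φ u = Φ (-(|R|+1)) + ∫ v in (-(|R|+1))..u, φ v := by
      rw [hΦ]
      simp only
      rw [intervalIntegral.integral_add_adjacent_intervals (hφc.intervalIntegrable _ _)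
        (hφc.intervalIntegrable _ _)]
    rw [h1]
    have h2 : ∫ v in (-(|R|+1))..u, φ v = ∫ v in (-(|R|+1))..u, (0:ℝ) := by
      refine intervalIntegral.integral_congr fun v hv => ?_
      rw [uIcc_of_ge hu] at hv
      apply hφ0
      have h3 : v ≤ -(|R|+1) := hv.2
      have h4 : |v| = -v := abs_of_nonpos (by linarith [abs_nonneg R])
      rw [h4]
      linarith [le_abs_self R]
    rw [h2]; simp
  have hkey : ∀ s : ℝ, convolution (fun _ : E n => (1:ℝ)) ψ (ContinuousLinearMap.lsmul ℝ ℝ) μ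
      (x + s • e) = Φ s - Φ (-(|R|+1)) := by
    intro s
    rw [hform]
    have h1 : ∀ t : ℝ, ψ (x + s • e - t • e) = φ (s - t) := by
      intro t
      simp only [hφ, sub_smul]
      congr 1
      abel
    simp only [h1]
    have h2 : ∀ t ∈ Ici (0:ℝ), HasDerivAt (fun t => - Φ (s - t)) (φ (s - t)) t := by
      intro t _
      have h3 : HasDerivAt (fun t : ℝ => s - t) (-1) t := by
        simpa using (hasDerivAt_id t).const_sub s
      have h4 := ((hΦd (s - t)).comp t h3).neg
      have h5 : -(φ (s - t) * -1) = φ (s - t) := by ring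
      rw [h5] at h4
      exact h4
    have h3 : IntegrableOn (fun t => φ (s - t)) (Ioi (0:ℝ)) := by
      have h4 : HasCompactSupport (fun t => φ (s - t)) := by
        refine HasCompactSupport.intro (K := closedBall s R) (isCompact_closedBall _ _) ?_
        intro t ht
        apply hφ0
        rw [mem_closedBall, not_le, Real.dist_eq, abs_sub_comm] at ht
        exact ht
      exact ((hφc.comp (continuous_const.sub continuous_id)).integrable_of_hasCompactSupport
        h4).integrableOn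
    have h4 : Tendsto (fun t => - Φ (s - t)) atTop (𝓝 (-Φ (-(|R|+1)))) := by
      refine tendsto_const_nhds.congr' ?_
      filter_upwards [eventually_ge_atTop (s + (|R|+1))] with t ht
      rw [hΦc (s - t) (by linarith)]
    rw [integral_Ioi_of_hasDerivAt_of_tendsto' h2 h3 h4]
    simp only [sub_zero]
    ring
  have h1 : HasDerivAt (fun s : ℝ => x + s • e) e 0 := by
    simpa using ((hasDerivAt_id (0:ℝ)).smul_const e).const_add x
  have h2 := (((hΨ.differentiable (by simp)) (x + (0:ℝ) • e)).hasFDerivAt).comp_hasDerivAt (0:ℝ) h1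
  have h3 : HasDerivAt (fun s : ℝ => Φ s - Φ (-(|R|+1))) (φ 0) 0 := (hΦd 0).sub_const _
  have h4 := h2.congr_of_eventuallyEq (f₁ := fun s : ℝ => Φ s - Φ (-(|R|+1)))
    (Eventually.of_forall fun s => (hkey s).symm)
  have h5 := h4.unique h3
  have h6 : x + (0:ℝ) • e = x := by simp
  rw [h6] at h5
  unfold pd
  rw [h5]
  simp [hφ]

/-- the affine map -/
theorem near_pt {n : ℕ} {M : Matrix (Fin n) (Fin n) ℝ} {c : E n} {σ : ℝ} (hσ : 0 < σ)
    (hM : ∀ x : E n, σ * ‖x‖ ≤ ‖M.mulVec x‖) {x z : E n}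
    (hz : ∀ i, |z i - (M.mulVec x i + c i)| ≤ σ / 15) (hzc : z ∈ ball c (σ / 8)) : ‖x‖ < 1 / 5 := by
  have h1 : ‖M.mulVec x‖ ≤ σ / 15 + σ / 8 := by
    refine (pi_norm_le_iff_of_nonneg (by positivity)).2 fun i => ?_
    have h2 : |z i - c i| ≤ σ / 8 := by
      have h3 : dist (z i) (c i) ≤ dist z c := dist_le_pi_dist _ _ i
      rw [Real.dist_eq] at h3
      exact h3.trans (le_of_lt hzc)
    have h4 : M.mulVec x i = (z i - c i) - (z i - (M.mulVec x i + c i)) := by ring
    rw [h4, Real.norm_eq_abs]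
    refine (abs_sub _ _).trans ?_
    have := hz i
    linarith
  have h5 := hM x
  have h6 : σ * ‖x‖ < σ * (1/5) := by
    have : σ / 15 + σ / 8 < σ * (1/5) := by linarith
    linarith
  exact lt_of_mul_lt_mul_left h6 hσ.le

theorem contDiff_aff {n : ℕ} (M : Matrix (Fin n) (Fin n) ℝ) (c : E n) :
    ContDiff ℝ ∞ (fun x : E n => M.mulVec x + c) := by
  have h : (fun x : E n => M.mulVec x + c) = fun x => toC M x + c := by
    ext x i; simp [toC]
  rw [h]
  exact (toC M).contDiff.add contDiff_const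

theorem jac_aff {n : ℕ} (M : Matrix (Fin n) (Fin n) ℝ) (c : E n) (x : E n) :
    jac (fun x : E n => M.mulVec x + c) x = M := by
  ext i j
  have h1 : HasFDerivAt (fun y : E n => M.mulVec y + c) (toC M) x := by
    have h : (fun x : E n => M.mulVec x + c) = fun x => toC M x + c := by
      ext x i; simp [toC]
    rw [h]
    exact (toC M).hasFDerivAt.add_const c
  have h2 := (hasFDerivAt_pi'.1 h1) i
  unfold jac pd
  simp only [Matrix.of_apply]
  have h3 : fderiv ℝ (fun y : E n => (M.mulVec y + c) i) x =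
      (ContinuousLinearMap.proj i).comp (toC M) := h2.fderiv
  rw [h3]
  simp [toC]

theorem jac_congr {n : ℕ} {f g : E n → E n} {x : E n} (h : f =ᶠ[𝓝 x] g) : jac f x = jac g x := by
  ext i j
  unfold jac pd
  simp only [Matrix.of_apply]
  have h1 : (fun y => f y i) =ᶠ[𝓝 x] fun y => g y i := h.mono fun y hy => by simp only [hy]
  rw [h1.fderiv_eq]

theorem pd_eq_zero_of_const_near {n : ℕ} {h : E n → ℝ} {c : ℝ} {x : E n}
    (hx : ∀ᶠ y in 𝓝 x, h y = c) (j : Fin n) : pd h j x = 0 := by
  unfold pd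
  have : h =ᶠ[𝓝 x] fun _ => c := hx
  rw [this.fderiv_eq]
  simp

/-- the degree of a smooth map uniformly close to an affine map -/
theorem deg_smooth {n : ℕ} {M : Matrix (Fin n) (Fin n) ℝ} {c : E n} {σ : ℝ} (hσ : 0 < σ)
    (hM : ∀ x : E n, σ * ‖x‖ ≤ ‖M.mulVec x‖) {G : E n → E n} (hG : ContDiff ℝ ∞ G)
    (hGA : ∀ x ∈ closedBall (0 : E n) (1 / 2), ∀ i, |G x i - (M.mulVec x i + c i)| ≤ σ / 15)
    {ψ Ψ : E n → ℝ} (hψs : tsupport ψ ⊆ ball c (σ / 8))
    (hΨ : ContDiff ℝ ∞ Ψ) (i0 : Fin n) (hpd : ∀ y, pd Ψ i0 y = ψ y)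
    {χ : E n → ℝ} (hχ1 : ∀ x ∈ closedBall (0 : E n) (1/4), χ x = 1)
    (hχ0 : ∀ x ∉ closedBall (0 : E n) (3/8), χ x = 0) :
    ∫ x, χ x * ψ (G x) * (jac G x).det = ∫ x, ψ (M.mulVec x + c) * M.det := by
  have hψ0 : ∀ z, z ∉ ball c (σ / 8) → ψ z = 0 := fun z hz => by
    by_contra hne
    exact hz (hψs (subset_tsupport _ hne))
  obtain ⟨C, hC, hcut⟩ := cutoff n
  obtain ⟨θ, hθ, hθ0, hθ1, hθin, hθout, -⟩ := hcut 0 (3/8) (1/16) (by norm_num) (by norm_num)
  obtain ⟨X, hX, hX0, hX1, hXin, hXout, -⟩ := hcut 0 1 1 (by norm_num) (by norm_num)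
  set A : E n → E n := fun x => M.mulVec x + c with hA
  have hAs : ContDiff ℝ ∞ A := contDiff_aff M c
  set H : E n → E n := fun x => A x + θ x • (G x - A x) with hH
  have hHs : ContDiff ℝ ∞ H := hAs.add (hθ.smul (hG.sub hAs))
  have hHA : ∀ x i, |H x i - (M.mulVec x i + c i)| ≤ σ / 15 := by
    intro x i
    have h1 : H x i - (M.mulVec x i + c i) = θ x * (G x i - (M.mulVec x i + c i)) := by
      simp only [hH, hA, Pi.add_apply, Pi.smul_apply, Pi.sub_apply, smul_eq_mul]
      ring
    rw [h1, abs_mul, abs_of_nonneg (hθ0 x)]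
    by_cases hx : x ∈ closedBall (0 : E n) (3/8 + 1/16)
    · have h2 := hGA x (closedBall_subset_closedBall (by norm_num) hx) i
      calc θ x * |G x i - (M.mulVec x i + c i)| ≤ 1 * (σ / 15) :=
            mul_le_mul (hθ1 x) h2 (abs_nonneg _) zero_le_one
        _ = σ / 15 := one_mul _
    · rw [hθout x hx, zero_mul]; positivity
  have hHψ : ∀ x, ψ (H x) ≠ 0 → ‖x‖ < 1/5 := fun x hx =>
    near_pt hσ hM (hHA x) (by by_contra hne; exact hx (hψ0 _ hne))
  have hAψ : ∀ x, ψ (A x) ≠ 0 → ‖x‖ < 1/5 := fun x hx =>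
    near_pt hσ hM (z := A x) (fun i => by
        have h0 : A x i = M.mulVec x i + c i := rfl
        rw [h0, sub_self, abs_zero]; positivity)
      (by by_contra hne; exact hx (hψ0 _ hne))
  -- step 1
  have s1 : ∀ x, χ x * ψ (G x) * (jac G x).det = ψ (H x) * (jac H x).det := by
    intro x
    by_cases hx : ‖x‖ < 1/5
    · have h1 : x ∈ closedBall (0 : E n) (1/4) := by
        rw [mem_closedBall, dist_zero_right]; linarith
      have h2 : H =ᶠ[𝓝 x] G := by
        have h3 : ball (0 : E n) (3/8) ∈ 𝓝 x := isOpen_ball.mem_nhds (by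
          rw [mem_ball, dist_zero_right]; linarith)
        filter_upwards [h3] with y hy
        simp only [hH, hθin y (ball_subset_closedBall hy), one_smul]
        abel
      rw [hχ1 x h1, one_mul, jac_congr h2, h2.eq_of_nhds]
    · have h1 : ψ (H x) = 0 := by by_contra hne; exact hx (hHψ x hne)
      have h2 : χ x * ψ (G x) = 0 := by
        by_cases h3 : x ∈ closedBall (0 : E n) (3/8)
        · have h4 : ψ (G x) = 0 := by
            by_contra hne
            refine hx (near_pt hσ hM (hGA x (closedBall_subset_closedBall (by norm_num) h3))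
              (by by_contra hne'; exact hne (hψ0 _ hne')))
          rw [h4, mul_zero]
        · rw [hχ0 x h3, zero_mul]
      rw [h1, h2, zero_mul, zero_mul]
  have s2 : ∀ x, ψ (H x) * (jac H x).det = X x * pd Ψ i0 (H x) * (jac H x).det := by
    intro x
    rw [hpd]
    by_cases hx : ψ (H x) = 0
    · rw [hx]; simp
    · rw [hXin x (by rw [mem_closedBall, dist_zero_right]; linarith [hHψ x hx]), one_mul]
  have s3 : ∀ x, ψ (A x) * M.det = X x * pd Ψ i0 (A x) * (jac A x).det := by
    intro x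
    rw [hpd, jac_aff]
    by_cases hx : ψ (A x) = 0
    · rw [hx]; simp
    · rw [hXin x (by rw [mem_closedBall, dist_zero_right]; linarith [hAψ x hx]), one_mul]
  have hXc : HasCompactSupport X :=
    HasCompactSupport.intro (isCompact_closedBall (0 : E n) (1+1)) fun x hx => hXout x hx
  have e1 : ∫ x, χ x * ψ (G x) * (jac G x).det = ∫ x, X x * pd Ψ i0 (H x) * (jac H x).det :=
    integral_congr_ae (Eventually.of_forall fun x => (s1 x).trans (s2 x))
  have e2 : ∫ x, ψ (A x) * M.det = ∫ x, X x * pd Ψ i0 (A x) * (jac A x).det :=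
    integral_congr_ae (Eventually.of_forall s3)
  show _ = ∫ x, ψ (A x) * M.det
  rw [e1, e2, ibp_smooth hHs hX hXc hΨ i0, ibp_smooth hAs hX hXc hΨ i0]
  congr 1
  refine integral_congr_ae (Eventually.of_forall fun x => ?_)
  simp only
  by_cases hx : x ∈ ball (0 : E n) 1
  · have h1 : ∀ j, pd X j x = 0 := fun j =>
      pd_eq_zero_of_const_near (c := 1) (by
        filter_upwards [isOpen_ball.mem_nhds hx] with y hy
        exact hXin y (ball_subset_closedBall hy)) j
    simp [h1]
  · have h2 : H =ᶠ[𝓝 x] A := by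
      have h3 : (closedBall (0 : E n) (3/8+1/16))ᶜ ∈ 𝓝 x :=
        isClosed_closedBall.isOpen_compl.mem_nhds (by
          rw [mem_compl_iff, mem_closedBall]
          rw [mem_ball, not_lt] at hx
          intro h; linarith)
      filter_upwards [h3] with y hy
      simp only [hH, hθout y hy, zero_smul, add_zero]
    rw [jac_congr h2, h2.eq_of_nhds]

theorem det_ne {n : ℕ} {M : Matrix (Fin n) (Fin n) ℝ} {σ : ℝ} (hσ : 0 < σ)
    (hM : ∀ x : E n, σ * ‖x‖ ≤ ‖M.mulVec x‖) : M.det ≠ 0 := by
  intro h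
  obtain ⟨v, hv, hv0⟩ := Matrix.exists_mulVec_eq_zero_iff.2 h
  have h1 := hM v
  rw [hv0, norm_zero] at h1
  have h2 : 0 < ‖v‖ := norm_pos_iff.2 hv
  nlinarith

theorem integral_aff {n : ℕ} {M : Matrix (Fin n) (Fin n) ℝ} (hd : M.det ≠ 0) (c : E n)
    {ψ : E n → ℝ} (hψ : Continuous ψ) :
    ∫ x, ψ (M.mulVec x + c) = |M.det|⁻¹ * ∫ y, ψ y := by
  have h1 := Real.map_matrix_volume_pi_eq_smul_volume_pi hd
  have h2 : ∫ y, ψ (y + c) ∂(Measure.map (Matrix.toLin' M) volume) = ∫ x, ψ (M.mulVec x + c) := by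
    rw [integral_map]
    · simp only [Matrix.toLin'_apply]
    · exact (LinearMap.continuous_of_finiteDimensional _).aemeasurable
    · exact (hψ.comp (continuous_id.add continuous_const)).aestronglyMeasurable
  rw [← h2, h1, integral_smul_measure]
  rw [ENNReal.toReal_ofReal (abs_nonneg _), abs_inv, smul_eq_mul]
  congr 1
  exact integral_add_right_eq_self (fun y => ψ y) c

theorem deg_affine {n : ℕ} (hn : 2 ≤ n) {f : E n → E n} {D : E n → Matrix (Fin n) (Fin n) ℝ}
    {Ω : Set (E n)} (h : FDMap f D Ω) (hΩ : closedBall 0 (1 / 2) ⊆ Ω)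
    (M : Matrix (Fin n) (Fin n) ℝ) (c : E n) {σ : ℝ} (hσ : 0 < σ)
    (hM : ∀ x : E n, σ * ‖x‖ ≤ ‖M.mulVec x‖)
    (hf : ∀ x ∈ closedBall (0 : E n) (1 / 2), ∀ i, |f x i - (M.mulVec x i + c i)| ≤ σ / 16)
    {ψ : E n → ℝ} (hψ : ContDiff ℝ ∞ ψ) (hψc : HasCompactSupport ψ)
    (hψs : tsupport ψ ⊆ ball c (σ / 8)) :
    |∫ x in ball 0 (1 / 2), ψ (f x) * (D x).det| = |∫ y, ψ y| := by
  classical
  have hn1 : 1 ≤ n := by omega
  set B : Set (E n) := closedBall 0 (1/2) with hB
  have hBc : IsCompact B := isCompact_closedBall _ _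
  let i0 : Fin n := ⟨0, by omega⟩
  obtain ⟨Ψ, hΨ, hpd⟩ := exists_potential i0 hψ hψc
  obtain ⟨C, hC, hcut⟩ := cutoff n
  obtain ⟨χ, hχ, hχnn, hχle, hχin, hχout', hχgr⟩ := hcut 0 (1/4) (1/8) (by norm_num) (by norm_num)
  have hχout : ∀ x ∉ closedBall (0 : E n) (3/8), χ x = 0 := by
    intro x hx; apply hχout'; convert hx using 2; norm_num
  have hχts : tsupport χ ⊆ closedBall (0 : E n) (3/8) := by
    refine closure_minimal (fun x hx => ?_) isClosed_closedBall
    by_contra hne; exact hx (hχout x hne)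
  have h38 : closedBall (0 : E n) (3/8) ⊆ B := closedBall_subset_closedBall (by norm_num)
  have hχc : HasCompactSupport χ :=
    HasCompactSupport.intro (isCompact_closedBall (0 : E n) (3/8)) fun x hx => hχout x hx
  have hψ0 : ∀ z, z ∉ ball c (σ / 8) → ψ z = 0 := fun z hz => by
    by_contra hne
    exact hz (hψs (subset_tsupport _ hne))
  -- identity for f
  have hid := h.ident χ hχ hχc ((hχts.trans h38).trans hΩ) Ψ hΨ i0
  have hL : ∫ x in ball 0 (1 / 2), ψ (f x) * (D x).det =
      ∫ x, χ x * pd Ψ i0 (f x) * (D x).det := by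
    rw [← integral_indicator measurableSet_ball]
    refine integral_congr_ae (Eventually.of_forall fun x => ?_)
    simp only
    by_cases hx : x ∈ ball (0 : E n) (1/2)
    · rw [indicator_of_mem hx, hpd]
      by_cases hz : ψ (f x) = 0
      · rw [hz]; simp
      · have h1 : ‖x‖ < 1/5 := near_pt hσ hM
          (fun i => (hf x (ball_subset_closedBall hx) i).trans (by linarith))
          (by by_contra hne; exact hz (hψ0 _ hne))
        rw [hχin x (by rw [mem_closedBall, dist_zero_right]; linarith), one_mul]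
    · rw [indicator_of_notMem hx, hχout x (fun h' => hx (by
        rw [mem_closedBall] at h'; rw [mem_ball]; linarith)), zero_mul, zero_mul]
  -- approximation
  set p : ℝ := ((n - 1 : ℕ) : ℝ) with hp
  have hp1 : 1 ≤ p := by rw [hp]; exact_mod_cast (by omega : 1 ≤ n - 1)
  obtain ⟨F, hFs, hFu, hFj, Φ, hΦi, hΦ⟩ := moll hn1 h.isOpen h.cont h.meas h.weak hp1
    (fun K hK hKΩ => by
      have := (D_int h hn hK hKΩ).2.1
      simpa only [hp, Real.rpow_natCast] using this) hBc hΩ
  obtain ⟨Ca, hCa, hadj⟩ := sn_adj_le (n := n) hn1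
  -- eventually close
  have hclose : ∀ᶠ k in atTop, ∀ x ∈ B, ∀ i, |F k x i - (M.mulVec x i + c i)| ≤ σ / 15 := by
    have h1 := Metric.tendstoUniformlyOn_iff.1 hFu (σ / 240) (by positivity)
    filter_upwards [h1] with k hk x hx i
    have h2 := hk x hx
    have h3 : dist (f x i) (F k x i) ≤ dist (f x) (F k x) := dist_le_pi_dist _ _ i
    rw [Real.dist_eq] at h3
    have h4 := hf x hx i
    have h5 : F k x i - (M.mulVec x i + c i) = (f x i - (M.mulVec x i + c i)) - (f x i - F k x i) := by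
      ring
    rw [h5]
    refine (abs_sub _ _).trans ?_
    linarith
  -- bound for Ψ
  have hAc : Continuous fun x : E n => M.mulVec x + c := (contDiff_aff M c).continuous
  obtain ⟨R, hR⟩ := (hBc.image hAc).isBounded.subset_closedBall (0 : E n)
  obtain ⟨P, hP⟩ := (isCompact_closedBall (0 : E n) (R + σ)).exists_bound_of_continuousOn
    hΨ.continuous.continuousOn
  have hPb : ∀ x ∈ B, ∀ z : E n, (∀ i, |z i - (M.mulVec x i + c i)| ≤ σ / 15) → |Ψ z| ≤ P := by
    intro x hx z hz
    have h1 : M.mulVec x + c ∈ closedBall (0 : E n) R := hR (mem_image_of_mem _ hx)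
    have h2 : ‖z - (M.mulVec x + c)‖ ≤ σ := by
      refine (pi_norm_le_iff_of_nonneg hσ.le).2 fun i => ?_
      have h3 := hz i
      rw [Real.norm_eq_abs]
      exact h3.trans (by linarith)
    have h4 : z ∈ closedBall (0 : E n) (R + σ) := by
      rw [mem_closedBall, dist_zero_right] at h1 ⊢
      calc ‖z‖ = ‖(M.mulVec x + c) + (z - (M.mulVec x + c))‖ := by congr 1; abel
        _ ≤ ‖M.mulVec x + c‖ + ‖z - (M.mulVec x + c)‖ := norm_add_le _ _
        _ ≤ R + σ := add_le_add h1 h2
    exact hP z h4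
  -- convergence
  have hzero : ∀ x ∉ B, ∀ j, pd χ j x = 0 := fun x hx j =>
    pd_eq_zero_of_notMem (fun h' => hx (h38 (hχts h'))) j
  have hset : ∀ (w : E n → E n) (Q : E n → Matrix (Fin n) (Fin n) ℝ),
      ∫ x, Ψ (w x) * ∑ j, (Q x).adjugate j i0 * pd χ j x =
        ∫ x in B, Ψ (w x) * ∑ j, (Q x).adjugate j i0 * pd χ j x := by
    intro w Q
    symm
    apply setIntegral_eq_integral_of_forall_compl_eq_zero
    intro x hx
    simp [hzero x hx]
  have hconv : Tendsto (fun k => ∫ x in B, Ψ (F k x) * ∑ j, (jac (F k) x).adjugate j i0 * pd χ j x)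
      atTop (𝓝 (∫ x in B, Ψ (f x) * ∑ j, (D x).adjugate j i0 * pd χ j x)) := by
    have hgr : ∀ x, gr χ x ≤ C / (1/8) := by
      intro x
      refine (hχgr x).trans ?_
      refine indicator_le_self' (fun _ _ => by positivity) x |>.trans le_rfl
    refine tendsto_integral_filter_of_dominated_convergence
      (bound := fun x => P * (C / (1/8) * (Ca * Φ x))) ?_ ?_ ?_ ?_
    · refine Eventually.of_forall fun k => Continuous.aestronglyMeasurable ?_
      have hF1 : ContDiff ℝ 1 (F k) := (hFs k).of_le (by exact_mod_cast le_top)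
      have hχ1 : ContDiff ℝ 1 χ := hχ.of_le (by exact_mod_cast le_top)
      refine (hΨ.continuous.comp (hFs k).continuous).mul (continuous_finsetSum _ fun j _ => ?_)
      exact (((continuous_jac hF1).matrix_adjugate).matrix_elem j i0).mul (continuous_pd hχ1 j)
    · filter_upwards [hclose] with k hk
      filter_upwards [hΦ, ae_restrict_mem hBc.measurableSet] with x hx hxB
      rw [norm_mul, Real.norm_eq_abs, Real.norm_eq_abs]
      have h1 := hPb x hxB (F k x) (hk x hxB)
      have h2 := abs_sum_adj_le (jac (F k) x).adjugate χ x i0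
      have h3 := hadj (jac (F k) x)
      have h4 := hx k
      rw [hp, Real.rpow_natCast] at h4
      have h5 : 0 ≤ gr χ x := gr_nonneg _ _
      have h6 : 0 ≤ sn (jac (F k) x).adjugate := sn_nonneg _
      have hC8 : 0 ≤ C / (1/8) := by positivity
      calc |Ψ (F k x)| * |∑ j, (jac (F k) x).adjugate j i0 * pd χ j x|
          ≤ P * (gr χ x * sn (jac (F k) x).adjugate) :=
            mul_le_mul h1 h2 (abs_nonneg _) ((abs_nonneg _).trans h1)
        _ ≤ P * (C / (1/8) * (Ca * Φ x)) := by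
            refine mul_le_mul_of_nonneg_left ?_ ((abs_nonneg _).trans h1)
            refine mul_le_mul (hgr x) (h3.trans ?_) h6 hC8
            exact mul_le_mul_of_nonneg_left h4 hCa.le
    · exact ((hΦi.const_mul _).const_mul _).const_mul _
    · filter_upwards [hFj, ae_restrict_mem hBc.measurableSet] with x hx hxB
      have h1 : Tendsto (fun k => F k x) atTop (𝓝 (f x)) := hFu.tendsto_at hxB
      refine ((hΨ.continuous.tendsto _).comp h1).mul (tendsto_finsetSum _ fun j _ => ?_)
      refine Tendsto.mul_const _ ?_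
      have h2 : Continuous fun Q : Matrix (Fin n) (Fin n) ℝ => Q.adjugate j i0 :=
        (continuous_id.matrix_adjugate).matrix_elem j i0
      exact (h2.tendsto _).comp hx
  have hevt : ∀ᶠ k in atTop, ∫ x in B, Ψ (F k x) * ∑ j, (jac (F k) x).adjugate j i0 * pd χ j x =
      - ∫ x, ψ (M.mulVec x + c) * M.det := by
    filter_upwards [hclose] with k hk
    have h1 := deg_smooth hσ hM (hFs k) hk hψs hΨ i0 hpd hχin hχout
    have h2 := ibp_smooth (hFs k) hχ hχc hΨ i0
    simp only [hpd] at h2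
    rw [h1, hset] at h2
    rw [h2, neg_neg]
  have hlim : ∫ x in B, Ψ (f x) * ∑ j, (D x).adjugate j i0 * pd χ j x =
      - ∫ x, ψ (M.mulVec x + c) * M.det :=
    tendsto_nhds_unique (hconv.congr' hevt) tendsto_const_nhds |>.symm ▸ rfl
  have hdet := det_ne hσ hM
  rw [hL, hid, hset, hlim, neg_neg, integral_mul_const, integral_aff hdet c hψ.continuous]
  rw [abs_mul, abs_mul, abs_inv, abs_abs]
  field_simp

end H930.BL.XDegAff

namespace H930.BL

export XDegAff (deg_affine)

end H930.BL
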