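import Pool.Agent.Helper930.BL.Defs

set_option autoImplicit false
open MeasureTheory Metric Set Filter Topology
open scoped ENNReal NNReal ContDiff

namespace H930.BL.J13


open scoped Convolution in
theorem const_of_weak {n : ℕ} {a : E n} {r : ℝ} (hr : 0 < r) {v : E n → ℝ}
    (hv : LocallyIntegrable v)
    (h : ∀ φ : E n → ℝ, ContDiff ℝ ∞ φ → HasCompactSupport φ → tsupport φ ⊆ ball a r →
      ∀ j, ∫ x, v x * pd φ j x = 0) :
    ∃ c : ℝ, ∀ᵐ x ∂(volume.restrict (closedBall a r)), v x = c := by
  let φ : ℕ → ContDiffBump (0 : E n) := fun k =>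
    ⟨1 / (2 * ((k : ℝ) + 1)), 1 / ((k : ℝ) + 1), by positivity, by
      apply one_div_lt_one_div_of_lt <;> [positivity; nlinarith [Nat.cast_nonneg (α := ℝ) k]]⟩
  have hφ : Tendsto (fun i => (φ i).rOut) atTop (𝓝 0) := tendsto_one_div_add_atTop_nhds_zero_nat
  have hφ' : ∀ᶠ i in atTop, (φ i).rOut ≤ 2 * (φ i).rIn := by
    filter_upwards with i
    change 1 / ((i : ℝ) + 1) ≤ 2 * (1 / (2 * ((i : ℝ) + 1)))
    apply le_of_eq
    field_simp
  have hae := ContDiffBump.ae_convolution_tendsto_right_of_locallyIntegrable (μ := volume) hφ hφ' hv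
  set w : ℕ → E n → ℝ := fun k =>
    ((φ k).normed volume ⋆[ContinuousLinearMap.lsmul ℝ ℝ, volume] v) with hw
  -- zero derivative
  have hder : ∀ k : ℕ, ∀ x ∈ ball a (r - (φ k).rOut),
      HasFDerivAt (w k) (0 : E n →L[ℝ] ℝ) x := by
    intro k x hx
    set ρ : E n → ℝ := (φ k).normed volume with hρ
    have hρs : ContDiff ℝ ∞ ρ := (φ k).contDiff_normed
    have hρc : HasCompactSupport ρ := (φ k).hasCompactSupport_normed
    have h1 := hρc.hasFDerivAt_convolution_left (ContinuousLinearMap.lsmul ℝ ℝ)
      (hρs.of_le (by exact_mod_cast le_top)) hv x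
    suffices hsuf : (fderiv ℝ ρ ⋆[(ContinuousLinearMap.lsmul ℝ ℝ).precompL (E n), volume] v) x
        = 0 by
      rw [hsuf] at h1
      exact h1
    apply ContinuousLinearMap.ext
    intro e
    have hzero : ∀ j : Fin n, ((fderiv ℝ ρ ⋆[(ContinuousLinearMap.lsmul ℝ ℝ).precompL (E n),
        volume] v) x) (Pi.single j 1) = 0 := by
      intro j
      have hint : Integrable (fun t => ((ContinuousLinearMap.lsmul ℝ ℝ).precompL (E n))
          (fderiv ℝ ρ t) (v (x - t))) := by
        exact (hρc.fderiv ℝ).convolutionExists_left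
          ((ContinuousLinearMap.lsmul ℝ ℝ).precompL (E n))
          (hρs.continuous_fderiv (by simp)) hv x
      unfold MeasureTheory.convolution
      rw [ContinuousLinearMap.integral_apply hint]
      have h2 : (fun t => (((ContinuousLinearMap.lsmul ℝ ℝ).precompL (E n))
          (fderiv ℝ ρ t) (v (x - t))) (Pi.single j 1)) =
          fun t => (fun y => fderiv ℝ ρ (x - y) (Pi.single j 1) * v y) (x - t) := by
        funext t
        simp [ContinuousLinearMap.precompL_apply]
      rw [h2, integral_sub_left_eq_self (fun y => fderiv ℝ ρ (x - y) (Pi.single j 1) * v y)]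
      set ψ : E n → ℝ := fun y => ρ (x - y) with hψ
      have hψs : ContDiff ℝ ∞ ψ := hρs.comp (contDiff_const.sub contDiff_id)
      have hsupp : Function.support ψ ⊆ closedBall x (φ k).rOut := by
        intro y hy
        rw [Function.mem_support] at hy
        have h3 : x - y ∈ Function.support ρ := hy
        rw [hρ, ContDiffBump.support_normed_eq, mem_ball_zero_iff] at h3
        rw [mem_closedBall, dist_comm, dist_eq_norm]
        exact h3.le
      have hψc : HasCompactSupport ψ :=
        HasCompactSupport.of_support_subset_isCompact (isCompact_closedBall _ _) hsupp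
      have hts : tsupport ψ ⊆ ball a r := by
        refine (closure_minimal hsupp isClosed_closedBall).trans ?_
        intro y hy
        rw [mem_closedBall] at hy
        rw [mem_ball] at hx ⊢
        have := dist_triangle y x a
        linarith
      have h4 := h ψ hψs hψc hts j
      have h5 : ∀ y, pd ψ j y = -(fderiv ℝ ρ (x - y) (Pi.single j 1)) := by
        intro y
        have h6 : HasFDerivAt (fun y : E n => x - y) (-(ContinuousLinearMap.id ℝ (E n))) y := by
          exact (hasFDerivAt_id (𝕜 := ℝ) y).const_sub x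
        have h7 : HasFDerivAt ρ (fderiv ℝ ρ (x - y)) (x - y) :=
          ((hρs.differentiable (by simp)) (x - y)).hasFDerivAt
        have h8 := h7.comp y h6
        unfold pd
        have h9 : fderiv ℝ ψ y = (fderiv ℝ ρ (x - y)).comp (-(ContinuousLinearMap.id ℝ (E n))) :=
          h8.fderiv
        rw [h9]
        simp
      have h10 : (fun y => fderiv ℝ ρ (x - y) (Pi.single j 1) * v y) =
          fun y => -(v y * pd ψ j y) := by
        funext y
        rw [h5]; ring
      rw [h10, integral_neg, h4, neg_zero]
    have hbasis : e = ∑ j, e j • (Pi.single j (1 : ℝ) : E n) := by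
      funext i
      simp [Finset.sum_apply, Pi.single_apply]
    rw [hbasis, map_sum]
    simp only [map_smul, hzero]
    simp
  have hconst : ∀ k : ℕ, ∀ x ∈ ball a (r - (φ k).rOut), ∀ y ∈ ball a (r - (φ k).rOut),
      w k x = w k y := by
    intro k x hx y hy
    refine IsOpen.is_const_of_fderiv_eq_zero (𝕜 := ℝ) isOpen_ball
      (convex_ball a _).isPreconnected ?_ ?_ hx hy
    · intro z hz
      exact (hder k z hz).differentiableAt.differentiableWithinAt
    · intro z hz
      exact (hder k z hz).fderiv
  have hev : ∀ x ∈ ball a r, ∀ᶠ k in atTop, x ∈ ball a (r - (φ k).rOut) := by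
    intro x hx
    rw [mem_ball] at hx
    have h3 : ∀ᶠ k in atTop, (φ k).rOut < r - dist x a :=
      (tendsto_order.1 hφ).2 _ (by linarith)
    filter_upwards [h3] with k hk
    rw [mem_ball]
    linarith
  have hsame : ∀ x ∈ ball a r, ∀ y ∈ ball a r,
      Tendsto (fun k => w k x) atTop (𝓝 (v x)) → Tendsto (fun k => w k y) atTop (𝓝 (v y)) →
      v x = v y := by
    intro x hx y hy h1 h2
    refine tendsto_nhds_unique_of_eventuallyEq h1 h2 ?_
    filter_upwards [hev x hx, hev y hy] with k hk1 hk2
    exact hconst k x hk1 y hk2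
  by_cases hex : ∃ x0 ∈ ball a r, Tendsto (fun k => w k x0) atTop (𝓝 (v x0))
  · obtain ⟨x0, hx0, hx0t⟩ := hex
    refine ⟨v x0, ?_⟩
    rw [ae_restrict_iff' isClosed_closedBall.measurableSet]
    have hsph : ∀ᵐ x ∂(volume : Measure (E n)), x ∉ sphere a r := by
      exact compl_mem_ae_iff.2 (Measure.addHaar_sphere_of_ne_zero _ a hr.ne')
    filter_upwards [hae, hsph] with x hx1 hx2 hx3
    have hxb : x ∈ ball a r := by
      rw [mem_closedBall] at hx3
      rw [mem_ball]
      exact lt_of_le_of_ne hx3 hx2
    exact hsame x hxb x0 hx0 hx1 hx0t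
  · refine ⟨0, ?_⟩
    rw [ae_restrict_iff' isClosed_closedBall.measurableSet]
    have hsph : ∀ᵐ x ∂(volume : Measure (E n)), x ∉ sphere a r := by
      exact compl_mem_ae_iff.2 (Measure.addHaar_sphere_of_ne_zero _ a hr.ne')
    filter_upwards [hae, hsph] with x hx1 hx2 hx3
    exfalso
    apply hex
    refine ⟨x, ?_, hx1⟩
    rw [mem_closedBall] at hx3
    rw [mem_ball]
    exact lt_of_le_of_ne hx3 hx2

/-! distributional identity -/

theorem sn_entry_le {n : ℕ} (M : Matrix (Fin n) (Fin n) ℝ) (i j : Fin n) : |M i j| ≤ sn M := by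
  unfold sn
  calc |M i j| ≤ ∑ j, |M i j| :=
        Finset.single_le_sum (f := fun j => |M i j|) (fun j _ => abs_nonneg _) (Finset.mem_univ j)
    _ ≤ ∑ i, ∑ j, |M i j| :=
        Finset.single_le_sum (f := fun i => ∑ j, |M i j|)
          (fun i _ => Finset.sum_nonneg fun j _ => abs_nonneg _) (Finset.mem_univ i)

theorem ibp_limit {n : ℕ} {f : E n → E n} {Df : E n → Matrix (Fin n) (Fin n) ℝ}
    {a : E n} {R : ℝ}
    {F : ℕ → E n → E n} (hF : ∀ k, ContDiff ℝ ∞ (F k)) {Φ : E n → ℝ}
    (hΦ : IntegrableOn Φ (closedBall a R))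
    (hconv : ∀ᵐ x ∂(volume.restrict (closedBall a R)),
      Tendsto (fun k => F k x) atTop (𝓝 (f x)) ∧ Tendsto (fun k => jac (F k) x) atTop (𝓝 (Df x)))
    (hdom : ∀ᵐ x ∂(volume.restrict (closedBall a R)), ∀ k, sn (jac (F k) x) ≤ Φ x)
    (i : Fin n) {φ : E n → ℝ} (hφ : ContDiff ℝ ∞ φ) (hφc : HasCompactSupport φ)
    (hφs : tsupport φ ⊆ closedBall a R) (j : Fin n)
    (h : ℝ → ℝ) (hc : Continuous h) (hcs : HasCompactSupport h) (h0 : ∀ t, 0 ≤ h t)
    (h1 : ∀ t, h t ≤ 1) :
    ∫ x in closedBall a R, (∫ s in Iic (f x i), h s) * pd φ j x =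
      -∫ x in closedBall a R, h (f x i) * Df x i j * φ x := by
  have hint : Integrable h := hc.integrable_of_hasCompactSupport hcs
  set H : ℝ → ℝ := fun t => ∫ s in Iic t, h s with hH
  have hHd : ∀ t, HasDerivAt H (h t) t := by
    intro t
    have h2 : H = fun u => (∫ s in Iic (0 : ℝ), h s) + ∫ s in (0 : ℝ)..u, h s := by
      funext u
      have := intervalIntegral.integral_Iic_sub_Iic (μ := volume) (f := h) (a := 0) (b := u)
        hint.integrableOn hint.integrableOn
      simp only [hH]
      linarith
    rw [h2]
    have h3 := (hc.integral_hasStrictDerivAt 0 t).hasDerivAt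
    simpa using h3.const_add (∫ s in Iic (0 : ℝ), h s)
  have hHc : Continuous H := continuous_iff_continuousAt.2 fun t => (hHd t).continuousAt
  set M : ℝ := ∫ s, h s with hM
  have hHb : ∀ t, |H t| ≤ M := by
    intro t
    have h2 : 0 ≤ H t := integral_nonneg fun s => h0 s
    rw [abs_of_nonneg h2]
    exact setIntegral_le_integral hint (Eventually.of_forall h0)
  have hM0 : 0 ≤ M := (abs_nonneg _).trans (hHb 0)
  have hpdc : Continuous (pd φ j) := by
    unfold pd
    exact (hφ.continuous_fderiv (by simp)).clm_apply continuous_const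
  have hpds : HasCompactSupport (pd φ j) := by
    have h2 := hφc.fderiv (𝕜 := ℝ)
    refine h2.mono ?_
    intro x hx
    rw [Function.mem_support] at hx ⊢
    intro h3
    apply hx
    unfold pd
    rw [h3]; rfl
  have hout : ∀ x, x ∉ closedBall a R → φ x = 0 := by
    intro x hx
    by_contra h2
    exact hx (hφs (subset_tsupport φ h2))
  have hout' : ∀ x, x ∉ closedBall a R → pd φ j x = 0 := by
    intro x hx
    unfold pd
    rw [fderiv_of_notMem_tsupport ℝ (fun h2 => hx (hφs h2))]
    rfl
  obtain ⟨Cφ, hCφ⟩ := hφc.exists_bound_of_continuous hφ.continuous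
  have hCφ0 : 0 ≤ Cφ := (norm_nonneg _).trans (hCφ a)
  -- identity for each k
  have hk : ∀ k, ∫ x in closedBall a R, H (F k x i) * pd φ j x =
      -∫ x in closedBall a R, h (F k x i) * jac (F k) x i j * φ x := by
    intro k
    set u : E n → ℝ := fun y => F k y i with hu
    have hus : ContDiff ℝ ∞ u := contDiff_pi.1 (hF k) i
    have hfd : ∀ x, HasFDerivAt (fun x => H (u x)) (h (u x) • fderiv ℝ u x) x := by
      intro x
      exact (hHd (u x)).comp_hasFDerivAt x ((hus.differentiable (by simp)) x).hasFDerivAt
    have hpd : ∀ x, fderiv ℝ (fun x => H (u x)) x (Pi.single j 1) = h (u x) * pd u j x := by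
      intro x
      rw [(hfd x).fderiv]
      rfl
    have hpduc : Continuous (pd u j) := by
      unfold pd
      exact (hus.continuous_fderiv (by simp)).clm_apply continuous_const
    have hHuc : Continuous fun x => H (u x) := hHc.comp hus.continuous
    have hI := integral_mul_fderiv_eq_neg_fderiv_mul_of_integrable (μ := (volume : Measure (E n)))
      (f := fun x => H (u x)) (g := φ) (v := (Pi.single j 1 : E n)) (by
        have h3 : (fun x => fderiv ℝ (fun x => H (u x)) x (Pi.single j 1) * φ x) =
            fun x => (h (u x) * pd u j x) * φ x := by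
          funext x; rw [hpd]
        rw [h3]
        refine Continuous.integrable_of_hasCompactSupport ?_ hφc.mul_left
        exact ((hc.comp hus.continuous).mul hpduc).mul hφ.continuous) (by
        exact Continuous.integrable_of_hasCompactSupport (hHuc.mul hpdc) hpds.mul_left) (by
        exact Continuous.integrable_of_hasCompactSupport (hHuc.mul hφ.continuous) hφc.mul_left)
        (fun x _ => (hfd x).differentiableAt) (fun x _ => (hφ.differentiable (by simp)) x)
    rw [setIntegral_eq_integral_of_forall_compl_eq_zero, setIntegral_eq_integral_of_forall_compl_eq_zero]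
    · refine hI.trans ?_
      congr 1
      apply integral_congr_ae
      filter_upwards with x
      rw [hpd]
      rfl
    · intro x hx
      rw [hout x hx, mul_zero]
    · intro x hx
      rw [hout' x hx, mul_zero]
  have hL : Tendsto (fun k => ∫ x in closedBall a R, H (F k x i) * pd φ j x) atTop
      (𝓝 (∫ x in closedBall a R, H (f x i) * pd φ j x)) := by
    apply tendsto_integral_of_dominated_convergence (fun x => M * |pd φ j x|)
    · intro k
      have : Continuous fun x => F k x i := (contDiff_pi.1 (hF k) i).continuous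
      exact ((hHc.comp this).mul hpdc).aestronglyMeasurable
    · exact ((hpdc.integrable_of_hasCompactSupport hpds).norm.const_mul M).integrableOn
    · intro k
      filter_upwards with x
      rw [norm_mul, Real.norm_eq_abs, Real.norm_eq_abs]
      exact mul_le_mul_of_nonneg_right (hHb _) (abs_nonneg _)
    · filter_upwards [hconv] with x hx
      have h2 : Tendsto (fun k => F k x i) atTop (𝓝 (f x i)) := (tendsto_pi_nhds.1 hx.1) i
      exact ((hHc.tendsto _).comp h2).mul_const _
  have hRt : Tendsto (fun k => ∫ x in closedBall a R, h (F k x i) * jac (F k) x i j * φ x) atTop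
      (𝓝 (∫ x in closedBall a R, h (f x i) * Df x i j * φ x)) := by
    apply tendsto_integral_of_dominated_convergence (fun x => Φ x * Cφ)
    · intro k
      have h2 : ContDiff ℝ ∞ fun x => F k x i := contDiff_pi.1 (hF k) i
      have h3 : Continuous fun x => jac (F k) x i j := by
        change Continuous fun x => fderiv ℝ (fun y => F k y i) x (Pi.single j 1)
        exact (h2.continuous_fderiv (by simp)).clm_apply continuous_const
      exact (((hc.comp h2.continuous).mul h3).mul hφ.continuous).aestronglyMeasurable
    · exact hΦ.mul_const Cφ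
    · intro k
      filter_upwards [hdom] with x hx
      have h2 := sn_entry_le (jac (F k) x) i j
      have h3 := hx k
      rw [norm_mul, norm_mul, Real.norm_eq_abs, Real.norm_eq_abs, abs_of_nonneg (h0 _)]
      have h4 : h (F k x i) * |jac (F k) x i j| ≤ Φ x := by
        calc h (F k x i) * |jac (F k) x i j| ≤ 1 * |jac (F k) x i j| :=
              mul_le_mul_of_nonneg_right (h1 _) (abs_nonneg _)
          _ = |jac (F k) x i j| := one_mul _
          _ ≤ Φ x := h2.trans h3
      exact mul_le_mul h4 (hCφ x) (norm_nonneg _) ((mul_nonneg (h0 _) (abs_nonneg _)).trans h4)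
    · filter_upwards [hconv] with x hx
      have h2 : Tendsto (fun k => F k x i) atTop (𝓝 (f x i)) := (tendsto_pi_nhds.1 hx.1) i
      have h3 : Tendsto (fun k => jac (F k) x i j) atTop (𝓝 (Df x i j)) :=
        (tendsto_pi_nhds.1 ((tendsto_pi_nhds.1 hx.2) i)) j
      exact (((hc.tendsto _).comp h2).mul h3).mul_const _
  have h2 := hRt.neg
  have h3 : (fun k => -∫ x in closedBall a R, h (F k x i) * jac (F k) x i j * φ x) =
      fun k => ∫ x in closedBall a R, H (F k x i) * pd φ j x := by
    funext k
    rw [hk k]
  rw [h3] at h2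
  exact tendsto_nhds_unique hL h2



/-- L14. -/
theorem level_const {n : ℕ} (hn : 1 ≤ n) {f : E n → E n} {Df : E n → Matrix (Fin n) (Fin n) ℝ}
    (hfm : Measurable f) (hDm : ∀ i j, Measurable fun x => Df x i j) {a : E n} {R : ℝ} (hR : 0 < R)
    {F : ℕ → E n → E n} (hF : ∀ k, ContDiff ℝ ∞ (F k)) {Φ : E n → ℝ}
    (hΦ : IntegrableOn Φ (closedBall a R))
    (hconv : ∀ᵐ x ∂(volume.restrict (closedBall a R)),
      Tendsto (fun k => F k x) atTop (𝓝 (f x)) ∧ Tendsto (fun k => jac (F k) x) atTop (𝓝 (Df x)))
    (hdom : ∀ᵐ x ∂(volume.restrict (closedBall a R)), ∀ k, sn (jac (F k) x) ≤ Φ x)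
    (i : Fin n) {K : Set ℝ} (hK : IsCompact K) {r : ℝ} (hr : 0 < r) (hrR : r ≤ R)
    (h0 : ∀ᵐ x ∂(volume.restrict (closedBall a r)), f x i ∈ K → ∀ j, Df x i j = 0) :
    ∃ c : ℝ, ∀ᵐ x ∂(volume.restrict (closedBall a r)),
      (volume (K ∩ Iic (f x i))).toReal = c := by
  rcases K.eq_empty_or_nonempty with hKe | hKne
  · refine ⟨0, ?_⟩
    filter_upwards with x
    simp [hKe]
  have hKfin : volume K ≠ ⊤ := hK.measure_lt_top.ne
  have hmono : Monotone fun t : ℝ => (volume (K ∩ Iic t)).toReal := by
    intro s t hst
    apply ENNReal.toReal_mono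
    · exact ((measure_mono inter_subset_left).trans_lt hK.measure_lt_top).ne
    · exact measure_mono (inter_subset_inter_right _ (Iic_subset_Iic.2 hst))
  have hVm : Measurable fun t : ℝ => (volume (K ∩ Iic t)).toReal := hmono.measurable
  have hui : Measurable fun x : E n => f x i := (measurable_pi_apply i).comp hfm
  apply const_of_weak hr (v := fun x => (volume (K ∩ Iic (f x i))).toReal)
  · apply (locallyIntegrable_const (volume K).toReal).mono
    · exact (hVm.comp hui).aestronglyMeasurable
    · filter_upwards with x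
      rw [Real.norm_of_nonneg ENNReal.toReal_nonneg, Real.norm_of_nonneg ENNReal.toReal_nonneg]
      exact ENNReal.toReal_mono hKfin (measure_mono inter_subset_left)
  intro φ hφ hφc hφs j
  have hφs' : tsupport φ ⊆ closedBall a R :=
    hφs.trans (ball_subset_closedBall.trans (closedBall_subset_closedBall hrR))
  obtain ⟨Cφ, hCφ⟩ := hφc.exists_bound_of_continuous hφ.continuous
  have hCφ0 : 0 ≤ Cφ := (norm_nonneg _).trans (hCφ a)
  -- the functions h_m
  set h : ℕ → ℝ → ℝ := fun m t => max 0 (1 - ((m : ℝ) + 1) * infDist t K) with hh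
  have hhc : ∀ m, Continuous (h m) := fun m =>
    continuous_const.max (continuous_const.sub (continuous_const.mul (continuous_infDist_pt K)))
  have hh0 : ∀ m t, 0 ≤ h m t := fun m t => le_max_left _ _
  have hh1 : ∀ m t, h m t ≤ 1 := by
    intro m t
    apply max_le zero_le_one
    have : 0 ≤ ((m : ℝ) + 1) * infDist t K := mul_nonneg (by positivity) infDist_nonneg
    linarith
  have hhle : ∀ m t, h m t ≤ h 0 t := by
    intro m t
    apply max_le_max le_rfl
    have h2 : 0 ≤ infDist t K := infDist_nonneg
    have h3 : 0 ≤ (m : ℝ) * infDist t K := mul_nonneg (Nat.cast_nonneg m) h2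
    push_cast
    nlinarith
  obtain ⟨MK, hMK⟩ := hK.isBounded.subset_closedBall (0 : ℝ)
  have hhcs : ∀ m, HasCompactSupport (h m) := by
    intro m
    apply HasCompactSupport.of_support_subset_isCompact (isCompact_closedBall (0 : ℝ) (MK + 1))
    intro t ht
    rw [Function.mem_support] at ht
    have h2 : 0 < 1 - ((m : ℝ) + 1) * infDist t K := by
      by_contra h3
      push Not at h3
      exact ht (max_eq_left h3)
    have h3 : infDist t K < 1 := by
      have h4 : 0 ≤ infDist t K := infDist_nonneg
      have h5 : 0 ≤ (m : ℝ) * infDist t K := mul_nonneg (Nat.cast_nonneg m) h4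
      nlinarith
    rw [infDist_lt_iff hKne] at h3
    obtain ⟨y, hy, hty⟩ := h3
    have h4 := hMK hy
    rw [mem_closedBall] at h4 ⊢
    have := dist_triangle t y 0
    linarith
  have hhint : ∀ m, Integrable (h m) := fun m =>
    (hhc m).integrable_of_hasCompactSupport (hhcs m)
  have hhlim : ∀ t, Tendsto (fun m => h m t) atTop (𝓝 (K.indicator (fun _ => (1 : ℝ)) t)) := by
    intro t
    by_cases ht : t ∈ K
    · rw [indicator_of_mem ht]
      have h2 : (fun m => h m t) = fun _ => (1 : ℝ) := by
        funext m
        simp [hh, infDist_zero_of_mem ht]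
      rw [h2]
      exact tendsto_const_nhds
    · rw [indicator_of_notMem ht]
      have hd : 0 < infDist t K := (hK.isClosed.notMem_iff_infDist_pos hKne).1 ht
      apply tendsto_const_nhds.congr'
      obtain ⟨m0, hm0⟩ := exists_nat_gt (1 / infDist t K)
      filter_upwards [eventually_ge_atTop m0] with m hm
      symm
      apply max_eq_left
      have h2 : (m0 : ℝ) ≤ m := by exact_mod_cast hm
      have h3 : 1 / infDist t K < (m : ℝ) + 1 := by linarith
      rw [div_lt_iff₀ hd] at h3
      linarith
  have hHlim : ∀ t, Tendsto (fun m => ∫ s in Iic t, h m s) atTop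
      (𝓝 (volume (K ∩ Iic t)).toReal) := by
    intro t
    have h2 : (volume (K ∩ Iic t)).toReal = ∫ s in Iic t, K.indicator (fun _ => (1 : ℝ)) s := by
      rw [setIntegral_indicator hK.measurableSet, setIntegral_const, inter_comm]
      simp [Measure.real]
    rw [h2]
    apply tendsto_integral_of_dominated_convergence (h 0)
    · intro m
      exact (hhc m).aestronglyMeasurable
    · exact (hhint 0).integrableOn
    · intro m
      filter_upwards with s
      rw [Real.norm_of_nonneg (hh0 m s)]
      exact hhle m s
    · filter_upwards with s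
      exact hhlim s
  have hpdc : Continuous (pd φ j) := by
    unfold pd
    exact (hφ.continuous_fderiv (by simp)).clm_apply continuous_const
  have hpds : HasCompactSupport (pd φ j) := by
    have h2 := hφc.fderiv (𝕜 := ℝ)
    refine h2.mono ?_
    intro x hx
    rw [Function.mem_support] at hx ⊢
    intro h3
    apply hx
    unfold pd
    rw [h3]; rfl
  have hid : ∀ m, ∫ x in closedBall a R, (∫ s in Iic (f x i), h m s) * pd φ j x =
      -∫ x in closedBall a R, h m (f x i) * Df x i j * φ x := fun m =>
    ibp_limit hF hΦ hconv hdom i hφ hφc hφs' j (h m) (hhc m) (hhcs m) (hh0 m) (hh1 m)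
  have hL : Tendsto (fun m => ∫ x in closedBall a R, (∫ s in Iic (f x i), h m s) * pd φ j x) atTop
      (𝓝 (∫ x in closedBall a R, (volume (K ∩ Iic (f x i))).toReal * pd φ j x)) := by
    apply tendsto_integral_of_dominated_convergence (fun x => (∫ s, h 0 s) * |pd φ j x|)
    · intro m
      have h2 : Continuous fun t => ∫ s in Iic t, h m s := by
        have h3 : (fun t => ∫ s in Iic t, h m s) =
            fun u => (∫ s in Iic (0 : ℝ), h m s) + ∫ s in (0 : ℝ)..u, h m s := by
          funext u
          have := intervalIntegral.integral_Iic_sub_Iic (μ := volume) (f := h m) (a := 0) (b := u)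
            (hhint m).integrableOn (hhint m).integrableOn
          linarith
        rw [h3]
        exact continuous_const.add (intervalIntegral.continuous_primitive
          (fun a b => (hhc m).intervalIntegrable a b) 0)
      exact ((h2.measurable.comp hui).mul hpdc.measurable).aestronglyMeasurable
    · exact ((hpdc.integrable_of_hasCompactSupport hpds).norm.const_mul _).integrableOn
    · intro m
      filter_upwards with x
      rw [norm_mul, Real.norm_eq_abs, Real.norm_eq_abs]
      apply mul_le_mul_of_nonneg_right _ (abs_nonneg _)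
      rw [abs_of_nonneg (integral_nonneg fun s => hh0 m s)]
      calc ∫ s in Iic (f x i), h m s ≤ ∫ s, h m s :=
            setIntegral_le_integral (hhint m) (Eventually.of_forall (hh0 m))
        _ ≤ ∫ s, h 0 s := integral_mono (hhint m) (hhint 0) (hhle m)
    · filter_upwards with x
      exact (hHlim (f x i)).mul_const _
  have hDle : ∀ᵐ x ∂(volume.restrict (closedBall a R)), |Df x i j| ≤ Φ x := by
    filter_upwards [hconv, hdom] with x hx hx2
    have h3 : Tendsto (fun k => jac (F k) x i j) atTop (𝓝 (Df x i j)) :=
      (tendsto_pi_nhds.1 ((tendsto_pi_nhds.1 hx.2) i)) j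
    exact le_of_tendsto' h3.abs fun k => (sn_entry_le (jac (F k) x) i j).trans (hx2 k)
  have hRt : Tendsto (fun m => ∫ x in closedBall a R, h m (f x i) * Df x i j * φ x) atTop
      (𝓝 (∫ x in closedBall a R, (0 : ℝ))) := by
    apply tendsto_integral_of_dominated_convergence (fun x => Φ x * Cφ)
    · intro m
      exact ((((hhc m).measurable.comp hui).mul (hDm i j)).mul
        hφ.continuous.measurable).aestronglyMeasurable
    · exact hΦ.mul_const Cφ
    · intro m
      filter_upwards [hDle] with x hx
      rw [norm_mul, norm_mul, Real.norm_eq_abs, Real.norm_eq_abs, abs_of_nonneg (hh0 _ _)]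
      have h4 : h m (f x i) * |Df x i j| ≤ Φ x := by
        calc h m (f x i) * |Df x i j| ≤ 1 * |Df x i j| :=
              mul_le_mul_of_nonneg_right (hh1 _ _) (abs_nonneg _)
          _ = |Df x i j| := one_mul _
          _ ≤ Φ x := hx
      exact mul_le_mul h4 (hCφ x) (norm_nonneg _) ((mul_nonneg (hh0 _ _) (abs_nonneg _)).trans h4)
    · have h0' : ∀ᵐ x ∂(volume : Measure (E n)), x ∈ closedBall a r →
          (f x i ∈ K → ∀ j, Df x i j = 0) :=
        (ae_restrict_iff' isClosed_closedBall.measurableSet).1 h0
      filter_upwards [ae_restrict_of_ae h0'] with x hx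
      by_cases hxr : x ∈ closedBall a r
      · by_cases hxK : f x i ∈ K
        · have h2 : (fun m => h m (f x i) * Df x i j * φ x) = fun _ => (0 : ℝ) := by
            funext m
            rw [hx hxr hxK j]
            ring
          rw [h2]
          exact tendsto_const_nhds
        · have h2 := hhlim (f x i)
          rw [indicator_of_notMem hxK] at h2
          have h3 := (h2.mul_const (Df x i j)).mul_const (φ x)
          simpa using h3
      · have h2 : φ x = 0 := by
          by_contra h3
          exact hxr (ball_subset_closedBall (hφs (subset_tsupport φ h3)))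
        have h3 : (fun m => h m (f x i) * Df x i j * φ x) = fun _ => (0 : ℝ) := by
          funext m
          rw [h2]
          ring
        rw [h3]
        exact tendsto_const_nhds
  have h2 := hRt.neg
  have h3 : (fun m => -∫ x in closedBall a R, h m (f x i) * Df x i j * φ x) =
      fun m => ∫ x in closedBall a R, (∫ s in Iic (f x i), h m s) * pd φ j x := by
    funext m
    rw [hid m]
  rw [h3] at h2
  have h4 := tendsto_nhds_unique hL h2
  simp only [integral_zero, neg_zero] at h4
  rw [setIntegral_eq_integral_of_forall_compl_eq_zero] at h4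
  · exact h4
  · intro x hx
    have h5 : pd φ j x = 0 := by
      unfold pd
      rw [fderiv_of_notMem_tsupport ℝ (fun h2 => hx (hφs' h2))]
      rfl
    rw [h5, mul_zero]


end H930.BL.J13

namespace H930.BL

export J13 (level_const)

end H930.BL
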