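import Pool.Agent.Helper930.BL.J13

set_option autoImplicit false

open MeasureTheory Metric Set Filter Topology
open scoped ENNReal NNReal ContDiff

namespace H930.BL

open J13 (const_of_weak)


theorem loc_const {n : ℕ} {f : E n → E n} {D : E n → Matrix (Fin n) (Fin n) ℝ} {Ω : Set (E n)}
    (h : FDMap f D Ω) {V : Set (E n)} (hV : IsOpen V) (hVΩ : V ⊆ Ω)
    (h0 : ∀ᵐ x ∂(volume.restrict V), (D x).det = 0) : ∀ x ∈ V, ∀ᶠ y in 𝓝 x, f y = f x := by
  have hD0 : ∀ᵐ x ∂(volume.restrict V), D x = 0 := by
    filter_upwards [h0, ae_restrict_of_ae_restrict_of_subset hVΩ h.pos] with x hx hp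
    exact hp.2 hx
  rw [ae_restrict_iff' hV.measurableSet] at hD0
  intro x0 hx0
  obtain ⟨r, hr, hrV⟩ := Metric.nhds_basis_closedBall.mem_iff.1 (hV.mem_nhds hx0)
  have hrΩ : closedBall x0 r ⊆ Ω := hrV.trans hVΩ
  have key : ∀ i, ∃ c : ℝ, ∀ x ∈ ball x0 r, f x i = c := by
    intro i
    have hci : ContinuousOn (fun x => f x i) Ω := (continuous_apply i).comp_continuousOn h.cont
    have hint : Integrable (indicator (closedBall x0 r) (fun x => f x i)) := by
      rw [integrable_indicator_iff measurableSet_closedBall]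
      exact (hci.mono hrΩ).integrableOn_compact (isCompact_closedBall x0 r)
    obtain ⟨c, hc⟩ := const_of_weak hr hint.locallyIntegrable (by
      intro φ hφ hφc hφs j
      have hφΩ : tsupport φ ⊆ Ω := hφs.trans (ball_subset_closedBall.trans hrΩ)
      have e1 : ∀ x, indicator (closedBall x0 r) (fun x => f x i) x * pd φ j x =
          f x i * pd φ j x := by
        intro x
        by_cases hx : x ∈ closedBall x0 r
        · rw [indicator_of_mem hx]
        · have h3 : x ∉ tsupport φ := fun h4 => hx (ball_subset_closedBall (hφs h4))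
          rw [pd_eq_zero_of_notMem h3, mul_zero, mul_zero]
      have e2 : ∫ x, D x i j * φ x = 0 := by
        apply integral_eq_zero_of_ae
        filter_upwards [hD0] with x hx
        by_cases hxV : x ∈ V
        · rw [hx hxV]; simp
        · have h3 : x ∉ tsupport φ := fun h4 => hxV (hrV (ball_subset_closedBall (hφs h4)))
          rw [image_eq_zero_of_notMem_tsupport h3]; simp
      simp_rw [e1]
      rw [h.weak φ hφ hφc hφΩ i j, e2, neg_zero])
    refine ⟨c, ?_⟩
    rw [ae_restrict_iff' measurableSet_closedBall] at hc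
    have hW : IsOpen (ball x0 r ∩ (fun x => f x i) ⁻¹' {c}ᶜ) :=
      (hci.mono (ball_subset_closedBall.trans hrΩ)).isOpen_inter_preimage isOpen_ball
        isOpen_compl_singleton
    have hW0 : volume (ball x0 r ∩ (fun x => f x i) ⁻¹' {c}ᶜ) = 0 := by
      refine measure_mono_null ?_ hc
      rintro x ⟨hx1, hx2⟩ hx3
      have hx4 := ball_subset_closedBall hx1
      have h5 := hx3 hx4
      rw [indicator_of_mem hx4] at h5
      exact hx2 h5
    have hWe := hW.eq_empty_of_measure_zero hW0
    intro x hx
    by_contra hne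
    have : x ∈ ball x0 r ∩ (fun x => f x i) ⁻¹' {c}ᶜ := ⟨hx, hne⟩
    rw [hWe] at this
    exact this
  filter_upwards [ball_mem_nhds x0 hr] with y hy
  funext i
  obtain ⟨c, hc⟩ := key i
  rw [hc y hy, hc x0 (mem_ball_self hr)]

theorem no_compact_open {n : ℕ} (hn : 1 ≤ n) {K : Set (E n)} (hK : IsCompact K) (hO : IsOpen K) :
    K = ∅ := by
  have h1 : IsClopen K := ⟨hK.isClosed, hO⟩
  rcases isClopen_iff.1 h1 with h2 | h2
  · exact h2
  · exfalso
    have : Nonempty (Fin n) := ⟨⟨0, by omega⟩⟩
    have : Nontrivial (E n) := inferInstance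
    have : NoncompactSpace (E n) := NormedSpace.noncompactSpace ℝ (E n)
    rw [h2] at hK
    exact noncompact_univ (E n) hK

end H930.BL
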