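import Pool.Agent.Helper930.BL.Hol
import Pool.Agent.Helper930.BL.Area
import Pool.Agent.Helper930.BL.J13
import Pool.Agent.Helper930.BL.LocConst

set_option autoImplicit false

open MeasureTheory Metric Set Filter Topology
open scoped ENNReal NNReal ContDiff

namespace H930.BL

open J13 (const_of_weak)


lemma cutoff_aux {n : ℕ} {V Z : Set (E n)} (hV : IsOpen V) (hZ : IsCompact Z) (hZV : Z ⊆ V) :
    ∃ η : E n → ℝ, ContDiff ℝ ∞ η ∧ HasCompactSupport η ∧ tsupport η ⊆ V ∧
      ∀ᶠ x in 𝓝ˢ Z, η x = 1 := by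
  obtain ⟨t, ht, hZt, htV⟩ := exists_compact_between hZ hV hZV
  obtain ⟨g, hg1, hg0, -⟩ := exists_contMDiffMap_one_nhds_of_subset_interior (n := (⊤ : ℕ∞))
    (modelWithCornersSelf ℝ (E n)) hZ.isClosed hZt
  have hsup : tsupport (g : E n → ℝ) ⊆ t := by
    refine closure_minimal ?_ ht.isClosed
    intro x hx
    by_contra hxt
    exact hx (hg0 x hxt)
  refine ⟨g, g.contMDiff.contDiff, ?_, hsup.trans htV, hg1⟩
  exact ht.of_isClosed_subset (isClosed_tsupport _) hsup

lemma deg_aux {n : ℕ} (hn : 2 ≤ n) {f : E n → E n} {D : E n → Matrix (Fin n) (Fin n) ℝ}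
    {Ω : Set (E n)} (h : FDMap f D Ω) {V : Set (E n)} (hV : IsOpen V) (hVΩ : V ⊆ Ω)
    {y : E n} {r' : ℝ} (hr : 0 < r')
    (hprop : IsCompact {x | x ∈ V ∧ f x ∈ closedBall y r'}) :
    ∃ d : ℕ, ((∃ x ∈ V, f x ∈ ball y r') → d ≠ 0) ∧
      ∀ ψ : E n → ℝ, Continuous ψ → HasCompactSupport ψ → tsupport ψ ⊆ ball y r' →
        IntegrableOn (fun x => ψ (f x) * (D x).det) V ∧
        ∫ x in V, ψ (f x) * (D x).det = d * ∫ z, ψ z := by
  classical
  set Kc : Set (E n) := {x | x ∈ V ∧ f x ∈ closedBall y r'} with hKc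
  have hKcΩ : Kc ⊆ Ω := fun x hx => hVΩ hx.1
  have hfV : ContinuousOn f V := h.cont.mono hVΩ
  have hfK : ContinuousOn f Kc := hfV.mono fun x hx => hx.1
  set S : Set (E n) := V ∩ f ⁻¹' ball y r' with hS
  have hSo : IsOpen S := hfV.isOpen_inter_preimage hV isOpen_ball
  have hSK : S ⊆ Kc := fun x hx => ⟨hx.1, ball_subset_closedBall hx.2⟩
  have hSV : S ⊆ V := fun x hx => hx.1
  have hdetK : IntegrableOn (fun x => (D x).det) Kc := h.det_int Kc hprop hKcΩ
  have hdetS : IntegrableOn (fun x => (D x).det) S := hdetK.mono_set hSK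
  obtain ⟨N, hNm, hNi, hN⟩ := area h hn hSo.measurableSet (hSV.trans hVΩ) hdetS
  -- N is constant
  have hweak : ∀ φ : E n → ℝ, ContDiff ℝ ∞ φ → HasCompactSupport φ → tsupport φ ⊆ ball y r' →
      ∀ j, ∫ x, (N x : ℝ) * pd φ j x = 0 := by
    intro φ hφ hφc hφs j
    have hφ1 : ContDiff ℝ 1 φ := hφ.of_le (by exact_mod_cast le_top)
    have hpc : Continuous (pd φ j) := continuous_pd hφ1 j
    have hpcs : HasCompactSupport (pd φ j) := by
      refine hφc.mono' ?_
      intro x hx
      by_contra hxs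
      exact hx (pd_eq_zero_of_notMem hxs j)
    obtain ⟨C, hC⟩ := hpcs.exists_bound_of_continuous hpc
    have h1 := hN (pd φ j) hpc.measurable ⟨C, fun y => by simpa [Real.norm_eq_abs] using hC y⟩
    set Z : Set (E n) := Kc ∩ f ⁻¹' tsupport φ with hZ
    have hZc : IsCompact Z := by
      refine hprop.of_isClosed_subset ?_ inter_subset_left
      exact hfK.preimage_isClosed_of_isClosed hprop.isClosed (isClosed_tsupport φ)
    have hZV : Z ⊆ V := fun x hx => hx.1.1
    obtain ⟨η, hη, hηc, hηs, hη1⟩ := cutoff_aux hV hZc hZV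
    have h2 := h.ident η hη hηc (hηs.trans hVΩ) φ hφ j
    have hZmem : ∀ x ∈ V, f x ∈ tsupport φ → x ∈ Z := fun x hx hfx =>
      ⟨⟨hx, ball_subset_closedBall (hφs hfx)⟩, hfx⟩
    have hR : ∫ x, φ (f x) * ∑ k, (D x).adjugate k j * pd η k x = 0 := by
      have : (fun x => φ (f x) * ∑ k, (D x).adjugate k j * pd η k x) = fun _ => (0 : ℝ) := by
        ext x
        by_cases hx : x ∈ tsupport η
        · by_cases hfx : f x ∈ tsupport φ
          · have hxZ := hZmem x (hηs hx) hfx
            have hev : ∀ᶠ z in 𝓝 x, η z = 1 := (eventually_nhdsSet_iff_forall.1 hη1) x hxZ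
            have hp0 : ∀ k, pd η k x = 0 := by
              intro k
              unfold pd
              have : η =ᶠ[𝓝 x] fun _ => (1 : ℝ) := hev
              rw [this.fderiv_eq]
              simp
            simp [hp0]
          · rw [image_eq_zero_of_notMem_tsupport hfx, zero_mul]
        · have hp0 : ∀ k, pd η k x = 0 := fun k => pd_eq_zero_of_notMem hx k
          simp [hp0]
      rw [this, integral_zero]
    rw [hR, neg_zero] at h2
    have hL : ∫ x, η x * pd φ j (f x) * (D x).det = ∫ x in S, pd φ j (f x) * (D x).det := by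
      rw [← integral_indicator hSo.measurableSet]
      congr 1
      ext x
      by_cases hxS : x ∈ S
      · rw [indicator_of_mem hxS]
        by_cases hfx : f x ∈ tsupport φ
        · have hxZ := hZmem x hxS.1 hfx
          have hev : ∀ᶠ z in 𝓝 x, η z = 1 := (eventually_nhdsSet_iff_forall.1 hη1) x hxZ
          rw [hev.self_of_nhds, one_mul]
        · rw [pd_eq_zero_of_notMem hfx]; simp
      · rw [indicator_of_notMem hxS]
        by_cases hxV : x ∈ V
        · have hfx : f x ∉ tsupport φ := fun hfx => hxS ⟨hxV, hφs hfx⟩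
          rw [pd_eq_zero_of_notMem hfx]; simp
        · have : η x = 0 := image_eq_zero_of_notMem_tsupport fun hx => hxV (hηs hx)
          rw [this]; simp
    rw [← hL, h2] at h1
    rw [h1]
    refine integral_congr_ae (Eventually.of_forall fun x => ?_)
    show (N x : ℝ) * pd φ j x = pd φ j x * N x
    ring
  obtain ⟨c, hc⟩ := const_of_weak hr hNi.locallyIntegrable hweak
  -- c is a natural number
  have hpos : 0 < volume (closedBall y r') := measure_closedBall_pos volume y hr
  obtain ⟨z0, hz0⟩ : ∃ z0, (N z0 : ℝ) = c := by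
    have hne : (ae (volume.restrict (closedBall y r'))).NeBot := by
      rw [ae_neBot]
      intro h0
      rw [Measure.restrict_eq_zero] at h0
      exact hpos.ne' h0
    exact hc.exists
  set d : ℕ := N z0 with hd
  have hNd : ∀ᵐ x ∂(volume.restrict (closedBall y r')), (N x : ℝ) = d := by
    filter_upwards [hc] with x hx
    rw [hx, hz0]
  refine ⟨d, ?_, ?_⟩
  · rintro ⟨x0, hx0V, hx0b⟩ hd0
    -- det = 0 a.e. on S
    have hNball : ∀ᵐ x ∂(volume.restrict (ball y r')), (N x : ℝ) = 0 := by
      have := ae_restrict_of_ae_restrict_of_subset ball_subset_closedBall hNd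
      filter_upwards [this] with x hx
      rw [hx, hd0]; simp
    have h3 := hN ((ball y r').indicator fun _ => (1 : ℝ))
      (measurable_const.indicator measurableSet_ball) ⟨1, fun z => by
        by_cases hz : z ∈ ball y r'
        · rw [indicator_of_mem hz]; simp
        · rw [indicator_of_notMem hz]; simp⟩
    have h4 : ∫ z, (ball y r').indicator (fun _ => (1 : ℝ)) z * (N z : ℝ) = 0 := by
      have : (fun z => (ball y r').indicator (fun _ => (1 : ℝ)) z * (N z : ℝ))
          = (ball y r').indicator fun z => (N z : ℝ) := by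
        ext z
        by_cases hz : z ∈ ball y r'
        · rw [indicator_of_mem hz, indicator_of_mem hz, one_mul]
        · rw [indicator_of_notMem hz, indicator_of_notMem hz, zero_mul]
      rw [this, integral_indicator measurableSet_ball]
      rw [integral_congr_ae hNball, integral_zero]
    have h5 : ∫ x in S, (D x).det = 0 := by
      rw [h4] at h3
      rw [← h3]
      refine setIntegral_congr_fun hSo.measurableSet fun x hx => ?_
      show (D x).det = (ball y r').indicator (fun _ => (1 : ℝ)) (f x) * (D x).det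
      rw [indicator_of_mem (show f x ∈ ball y r' from hx.2), one_mul]
    have hpos' : ∀ᵐ x ∂(volume.restrict S), 0 ≤ (D x).det := by
      have := ae_restrict_of_ae_restrict_of_subset (hSV.trans hVΩ) h.pos
      filter_upwards [this] with x hx using hx.1
    have h6 : ∀ᵐ x ∂(volume.restrict S), (D x).det = 0 := by
      have := (integral_eq_zero_iff_of_nonneg_ae hpos' hdetS).1 h5
      filter_upwards [this] with x hx using hx
    have hloc := loc_const h hSo (hSV.trans hVΩ) h6
    set P : Set (E n) := Kc ∩ f ⁻¹' {f x0} with hP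
    have hPc : IsCompact P := by
      refine hprop.of_isClosed_subset ?_ inter_subset_left
      exact hfK.preimage_isClosed_of_isClosed hprop.isClosed isClosed_singleton
    have hPo : IsOpen P := by
      rw [isOpen_iff_mem_nhds]
      intro x hx
      have hfx : f x = f x0 := hx.2
      have hxS : x ∈ S := ⟨hx.1.1, by show f x ∈ ball y r'; rw [hfx]; exact hx0b⟩
      have h7 := hloc x hxS
      have h8 : ∀ᶠ z in 𝓝 x, z ∈ S := hSo.mem_nhds hxS
      filter_upwards [h7, h8] with z hz hzS
      exact ⟨hSK hzS, by show f z = f x0; rw [hz, hfx]⟩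
    have hPe := no_compact_open (by omega : 1 ≤ n) hPc hPo
    have : x0 ∈ P := ⟨⟨hx0V, ball_subset_closedBall hx0b⟩, rfl⟩
    rw [hPe] at this
    exact this
  · intro ψ hψ hψc hψs
    obtain ⟨C, hC⟩ := hψc.exists_bound_of_continuous hψ
    have hvan : ∀ x ∈ V \ S, ψ (f x) * (D x).det = 0 := by
      intro x hx
      have hfx : f x ∉ tsupport ψ := fun hfx => hx.2 ⟨hx.1, hψs hfx⟩
      rw [image_eq_zero_of_notMem_tsupport hfx, zero_mul]
    have hiK : IntegrableOn (fun x => ψ (f x) * (D x).det) Kc :=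
      IntegrableOn.continuousOn_mul (hψ.comp_continuousOn hfK) hdetK hprop
    have hiS : IntegrableOn (fun x => ψ (f x) * (D x).det) S := hiK.mono_set hSK
    have hiV : IntegrableOn (fun x => ψ (f x) * (D x).det) V :=
      hiS.of_forall_sdiff_eq_zero hV.measurableSet hvan
    refine ⟨hiV, ?_⟩
    rw [setIntegral_eq_of_subset_of_forall_sdiff_eq_zero hV.measurableSet hSV hvan,
      hN ψ hψ.measurable ⟨C, fun z => by simpa [Real.norm_eq_abs] using hC z⟩,
      ← integral_const_mul]
    have h9 : ∀ᵐ x ∂(volume : Measure (E n)), x ∈ closedBall y r' → (N x : ℝ) = d :=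
      (ae_restrict_iff' measurableSet_closedBall).1 hNd
    refine integral_congr_ae ?_
    filter_upwards [h9] with x hx
    by_cases hxs : x ∈ tsupport ψ
    · rw [hx (ball_subset_closedBall (hψs hxs)), mul_comm]
    · rw [image_eq_zero_of_notMem_tsupport hxs]; simp

theorem degree {n : ℕ} (hn : 2 ≤ n) {f : E n → E n} {D : E n → Matrix (Fin n) (Fin n) ℝ}
    {Ω : Set (E n)} (h : FDMap f D Ω) {V : Set (E n)} (hV : IsOpen V) (hVΩ : V ⊆ Ω)
    {y : E n} {r : ℝ} (hr : 0 < r)
    (hprop : ∀ r' < r, IsCompact {x | x ∈ V ∧ f x ∈ closedBall y r'}) :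
    ∃ d : ℕ, ((∃ x ∈ V, f x ∈ ball y r) → 1 ≤ d) ∧
      ∀ ψ : E n → ℝ, Continuous ψ → HasCompactSupport ψ → tsupport ψ ⊆ ball y r →
        IntegrableOn (fun x => ψ (f x) * (D x).det) V ∧
        ∫ x in V, ψ (f x) * (D x).det = d * ∫ z, ψ z := by
  -- a bump function
  set ψ0 : E n → ℝ := fun z => max 0 (r / 4 - dist z y) with hψ0
  have hψ0c : Continuous ψ0 := continuous_const.max (continuous_const.sub (continuous_id.dist continuous_const))
  have hψ0s : tsupport ψ0 ⊆ closedBall y (r / 4) := by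
    refine closure_minimal ?_ isClosed_closedBall
    intro z hz
    rw [mem_closedBall]
    by_contra hcon
    push Not at hcon
    apply hz
    rw [hψ0]
    simp only
    exact max_eq_left (by linarith)
  have hψ0cs : HasCompactSupport ψ0 :=
    (isCompact_closedBall y (r / 4)).of_isClosed_subset (isClosed_tsupport _) hψ0s
  have hψ0i : 0 < ∫ z, ψ0 z := by
    refine hψ0c.integral_pos_of_hasCompactSupport_nonneg_nonzero hψ0cs ?_ (x := y) ?_
    · intro z; exact le_max_left _ _
    · rw [hψ0]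
      simp only [dist_self, sub_zero]
      rw [max_eq_right (by linarith)]
      linarith
  have hex : ∀ r' : ℝ, 0 < r' → r' < r → ∃ d : ℕ, ((∃ x ∈ V, f x ∈ ball y r') → d ≠ 0) ∧
      ∀ ψ : E n → ℝ, Continuous ψ → HasCompactSupport ψ → tsupport ψ ⊆ ball y r' →
        IntegrableOn (fun x => ψ (f x) * (D x).det) V ∧
        ∫ x in V, ψ (f x) * (D x).det = d * ∫ z, ψ z := fun r' h1 h2 =>
    deg_aux hn h hV hVΩ h1 (hprop r' h2)
  obtain ⟨d, -, hd⟩ := hex (r / 2) (by linarith) (by linarith)
  have hsame : ∀ r' : ℝ, r / 2 ≤ r' → r' < r → ((∃ x ∈ V, f x ∈ ball y r') → d ≠ 0) ∧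
      ∀ ψ : E n → ℝ, Continuous ψ → HasCompactSupport ψ → tsupport ψ ⊆ ball y r' →
        IntegrableOn (fun x => ψ (f x) * (D x).det) V ∧
        ∫ x in V, ψ (f x) * (D x).det = d * ∫ z, ψ z := by
    intro r' h1 h2
    obtain ⟨d', hd'1, hd'⟩ := hex r' (by linarith) h2
    have e1 := (hd ψ0 hψ0c hψ0cs (hψ0s.trans (closedBall_subset_ball (by linarith)))).2
    have e2 := (hd' ψ0 hψ0c hψ0cs (hψ0s.trans (closedBall_subset_ball (by linarith)))).2
    have e3 : (d' : ℝ) * ∫ z, ψ0 z = d * ∫ z, ψ0 z := by rw [← e1, ← e2]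
    have e4 : (d' : ℝ) = d := mul_right_cancel₀ hψ0i.ne' e3
    have e5 : d' = d := by exact_mod_cast e4
    subst e5
    exact ⟨hd'1, hd'⟩
  refine ⟨d, ?_, ?_⟩
  · rintro ⟨x0, hx0V, hx0b⟩
    have hx0 : dist (f x0) y < r := hx0b
    set r' := max (r / 2) ((dist (f x0) y + r) / 2) with hr'
    have h1 : r / 2 ≤ r' := le_max_left _ _
    have h2 : r' < r := max_lt (by linarith) (by linarith)
    have h3 : f x0 ∈ ball y r' := by
      rw [mem_ball]
      have := le_max_right (r / 2) ((dist (f x0) y + r) / 2)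
      have h4 : (dist (f x0) y + r) / 2 ≤ r' := this
      linarith
    exact Nat.one_le_iff_ne_zero.2 ((hsame r' h1 h2).1 ⟨x0, hx0V, h3⟩)
  · intro ψ hψ hψc hψs
    obtain ⟨r1, hr1, hsub⟩ := exists_lt_subset_ball (isClosed_tsupport ψ) hψs
    set r' := max (r / 2) r1 with hr'
    have h1 : r / 2 ≤ r' := le_max_left _ _
    have h2 : r' < r := max_lt (by linarith) hr1
    exact (hsame r' h1 h2).2 ψ hψ hψc (hsub.trans (ball_subset_ball (le_max_right _ _)))

end H930.BL
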