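import Pool.Agent.Helper930.BL.Hol
import Pool.Agent.Helper930.BL.J08
import Pool.Agent.Helper930.BL.J20

set_option autoImplicit false

open MeasureTheory Metric Set Filter Topology
open scoped ENNReal NNReal ContDiff

namespace H930.BL


theorem ei_pd_pow {n : ℕ} {χ : E n → ℝ} (hχ : ContDiff ℝ ∞ χ) (j : Fin n) (x : E n) :
    pd (fun y => χ y ^ n) j x = n * χ x ^ (n - 1) * pd χ j x := by
  have hd : DifferentiableAt ℝ χ x := (hχ.differentiable (by simp)) x
  unfold pd
  rw [fderiv_fun_pow n hd]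
  simp [mul_assoc]

theorem ei_pd_lin {n : ℕ} (u : Fin n → ℝ) (c : ℝ) (i : Fin n) (y : E n) :
    pd (fun z : E n => ∑ k, u k * z k - c) i y = u i := by
  have h : HasFDerivAt (fun z : E n => ∑ k, u k * z k - c)
      (∑ k, u k • (ContinuousLinearMap.proj k : E n →L[ℝ] ℝ)) y := by
    refine HasFDerivAt.sub_const c ?_
    refine HasFDerivAt.fun_sum fun k _ => ?_
    exact (ContinuousLinearMap.proj k : E n →L[ℝ] ℝ).hasFDerivAt.const_mul (u k)
  unfold pd
  rw [h.fderiv]
  simp [Pi.single_apply]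

theorem ei_alg {n : ℕ} (hn : 2 ≤ n) {X Y B : ℝ} (hX : 0 ≤ X) (hY : 0 ≤ Y) (hB : 0 ≤ B)
    (h : X ≤ B * (X ^ (1 - 1 / (n : ℝ)) * Y ^ (1 / (n : ℝ)))) : X ≤ B ^ n * Y := by
  have hn0 : (0 : ℝ) < n := by exact_mod_cast (by omega : 0 < n)
  rcases hX.eq_or_lt with h0 | h0
  · rw [← h0]; positivity
  · have h1 : X = X ^ (1 - 1 / (n : ℝ)) * X ^ (1 / (n : ℝ)) := by
      rw [← Real.rpow_add h0, sub_add_cancel, Real.rpow_one]
    have h2 : 0 < X ^ (1 - 1 / (n : ℝ)) := Real.rpow_pos_of_pos h0 _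
    have h3 : X ^ (1 / (n : ℝ)) ≤ B * Y ^ (1 / (n : ℝ)) := by
      have h4 : X ^ (1 - 1 / (n : ℝ)) * X ^ (1 / (n : ℝ)) ≤
          X ^ (1 - 1 / (n : ℝ)) * (B * Y ^ (1 / (n : ℝ))) := by
        rw [← h1]
        calc X ≤ B * (X ^ (1 - 1 / (n : ℝ)) * Y ^ (1 / (n : ℝ))) := h
          _ = _ := by ring
      exact le_of_mul_le_mul_left h4 h2
    have h5 := pow_le_pow_left₀ (Real.rpow_nonneg hX _) h3 n
    have h6 : ∀ Z : ℝ, 0 ≤ Z → (Z ^ (1 / (n : ℝ))) ^ n = Z := by
      intro Z hZ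
      rw [← Real.rpow_natCast, ← Real.rpow_mul hZ, one_div, inv_mul_cancel₀ hn0.ne', Real.rpow_one]
    rwa [mul_pow, h6 X hX, h6 Y hY] at h5

theorem ei_point {n : ℕ} (hn : 2 ≤ n) {M : Matrix (Fin n) (Fin n) ℝ} (h0 : 0 ≤ M.det)
    (h1 : M.det = 0 → M = 0) {t : ℝ} (ht : 0 ≤ t) :
    t ^ (n - 1) * sn M ^ (n - 1) =
      (t ^ n * M.det) ^ (1 - 1 / (n : ℝ)) * (kd M ^ (n - 1)) ^ (1 / (n : ℝ)) := by
  have hn0 : (0 : ℝ) < n := by exact_mod_cast (by omega : 0 < n)
  have hkd := kd_nonneg h0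
  have hsn := sn_nonneg M
  have e1 : (t * sn M) ^ n = (t ^ n * M.det) * kd M := by
    rw [mul_pow, sn_pow_eq (by omega) h0 h1]; ring
  have e2 : (t * sn M) ^ (n - 1) = ((t * sn M) ^ n) ^ (1 - 1 / (n : ℝ)) := by
    rw [← Real.rpow_natCast (t * sn M) n, ← Real.rpow_mul (by positivity), ← Real.rpow_natCast]
    congr 1
    rw [Nat.cast_sub (by omega)]
    push_cast
    field_simp
  have e3 : kd M ^ (1 - 1 / (n : ℝ)) = (kd M ^ (n - 1)) ^ (1 / (n : ℝ)) := by
    rw [← Real.rpow_natCast (kd M) (n - 1), ← Real.rpow_mul hkd]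
    congr 1
    rw [Nat.cast_sub (by omega)]
    push_cast
    field_simp
  rw [← mul_pow, e2, e1, Real.mul_rpow (by positivity) hkd, e3]

theorem energy_ineq {n : ℕ} (hn : 2 ≤ n) : ∃ C : ℝ, 0 < C ∧ ∀ (f : E n → E n)
    (D : E n → Matrix (Fin n) (Fin n) ℝ) (Ω : Set (E n)), FDMap f D Ω →
    ∀ (a : E n) (s δ : ℝ), 0 < s → 0 < δ → closedBall a (s + δ) ⊆ Ω →
    ∀ (u : Fin n → ℝ), ∑ i, u i ^ 2 = 1 → ∀ (c w : ℝ), 0 ≤ w →
    (∀ x ∈ closedBall a (s + δ), |∑ i, u i * f x i - c| ≤ w) →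
    ∫ x in closedBall a s, (D x).det ≤
      C * (w / δ) ^ n * ∫ x in closedBall a (s + δ), kd (D x) ^ (n - 1) := by
  obtain ⟨C1, hC1, hcut⟩ := cutoff n
  obtain ⟨C2, hC2, hadj⟩ := sn_adj_le (n := n) (by omega)
  have hn0 : (0 : ℝ) < n := by exact_mod_cast (by omega : 0 < n)
  have hn2 : (2 : ℝ) ≤ n := by exact_mod_cast hn
  refine ⟨((n : ℝ) * (n * C1 * C2)) ^ n, by positivity, ?_⟩
  intro f D Ω h a s δ hs hδ hΩ u hu c w hw hosc
  obtain ⟨χ, hχs, hχ0, hχ1, hχin, hχout, hχgr⟩ := hcut a s δ hs hδ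
  have hK : IsCompact (closedBall a (s + δ)) := isCompact_closedBall a (s + δ)
  have hKm : MeasurableSet (closedBall a (s + δ)) := isClosed_closedBall.measurableSet
  have hgr : ∀ x, gr χ x ≤ C1 / δ := by
    intro x
    refine (hχgr x).trans ?_
    by_cases hx : x ∈ closedBall a (s + δ) \ closedBall a s
    · rw [indicator_of_mem hx]
    · rw [indicator_of_notMem hx]; positivity
  have hgr0 : ∀ x, x ∉ closedBall a (s + δ) → ∀ j, pd χ j x = 0 := by
    intro x hx j
    have h1 := hχgr x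
    rw [indicator_of_notMem (fun hh => hx hh.1)] at h1
    have h2 := abs_pd_le_gr χ j x
    exact abs_eq_zero.1 (le_antisymm (h2.trans h1) (abs_nonneg _))
  have hsupp : Function.support (fun x => χ x ^ n) ⊆ closedBall a (s + δ) := by
    intro x hx
    by_contra hcon
    apply hx
    show χ x ^ n = 0
    rw [hχout x hcon, zero_pow (by omega)]
  have hηs : ContDiff ℝ ∞ (fun x => χ x ^ n) := hχs.pow n
  have hηc : HasCompactSupport (fun x => χ x ^ n) :=
    HasCompactSupport.of_support_subset_isCompact hK hsupp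
  have hηt : tsupport (fun x => χ x ^ n) ⊆ Ω :=
    (closure_minimal hsupp isClosed_closedBall).trans hΩ
  have hψs : ContDiff ℝ ∞ (fun y : E n => ∑ i, u i * y i - c) := by
    refine ContDiff.sub (ContDiff.sum fun i _ => contDiff_const.mul (contDiff_apply ℝ ℝ i))
      contDiff_const
  have hae : ∀ᵐ x ∂(volume.restrict (closedBall a (s + δ))),
      0 ≤ (D x).det ∧ ((D x).det = 0 → D x = 0) := ae_restrict_of_ae_restrict_of_subset hΩ h.pos
  have hdi := h.det_int _ hK hΩ
  have hki := h.kd_int (n - 1) _ hK hΩ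
  have hsi := (D_int h hn hK hΩ).2.1
  have hχm : Measurable χ := hχs.continuous.measurable
  -- the energy
  obtain ⟨X, hX⟩ : ∃ X : ℝ, X = ∫ x in closedBall a (s + δ), χ x ^ n * (D x).det := ⟨_, rfl⟩
  obtain ⟨Y, hY⟩ : ∃ Y : ℝ, Y = ∫ x in closedBall a (s + δ), kd (D x) ^ (n - 1) := ⟨_, rfl⟩
  have hXi : IntegrableOn (fun x => χ x ^ n * (D x).det) (closedBall a (s + δ)) := by
    refine Integrable.mono' hdi.norm
      ((hχm.pow_const n).mul (meas_det' h.meas)).aestronglyMeasurable ?_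
    refine Eventually.of_forall fun x => ?_
    rw [norm_mul, Real.norm_eq_abs (χ x ^ n), abs_of_nonneg (pow_nonneg (hχ0 x) n)]
    exact mul_le_of_le_one_left (norm_nonneg _) (pow_le_one₀ (hχ0 x) (hχ1 x))
  have hXae : ∀ᵐ x ∂(volume.restrict (closedBall a (s + δ))), 0 ≤ χ x ^ n * (D x).det := by
    filter_upwards [hae] with x hx
    exact mul_nonneg (pow_nonneg (hχ0 x) n) hx.1
  have hX0 : 0 ≤ X := by rw [hX]; exact integral_nonneg_of_ae hXae
  have hY0 : 0 ≤ Y := by
    rw [hY]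
    refine integral_nonneg_of_ae ?_
    filter_upwards [hae] with x hx
    exact pow_nonneg (kd_nonneg hx.1) _
  -- the middle integral
  have hZi : IntegrableOn (fun x => χ x ^ (n - 1) * sn (D x) ^ (n - 1)) (closedBall a (s + δ)) := by
    refine Integrable.mono' hsi
      ((hχm.pow_const _).mul ((meas_sn' h.meas).pow_const _)).aestronglyMeasurable ?_
    refine Eventually.of_forall fun x => ?_
    rw [norm_mul, Real.norm_eq_abs, Real.norm_eq_abs, abs_of_nonneg (pow_nonneg (hχ0 x) _),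
      abs_of_nonneg (pow_nonneg (sn_nonneg _) _)]
    exact mul_le_of_le_one_left (pow_nonneg (sn_nonneg _) _) (pow_le_one₀ (hχ0 x) (hχ1 x))
  obtain ⟨Z, hZ⟩ : ∃ Z : ℝ, Z = ∫ x in closedBall a (s + δ), χ x ^ (n - 1) * sn (D x) ^ (n - 1) :=
    ⟨_, rfl⟩
  have hXw : X = ∫ x, χ x ^ n * (D x).det := by
    rw [hX]
    refine setIntegral_eq_integral_of_forall_compl_eq_zero fun x hx => ?_
    rw [hχout x hx, zero_pow (by omega), zero_mul]
  have hi : ∀ i, |u i * ∫ x, χ x ^ n * pd (fun y : E n => ∑ i, u i * y i - c) i (f x) * (D x).det| ≤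
      w * (n * (C1 / δ) * C2) * Z := by
    intro i
    rw [h.ident _ hηs hηc hηt _ hψs i]
    have hui : |u i| ≤ 1 := by
      have h1 : u i ^ 2 ≤ 1 := by
        rw [← hu]
        exact Finset.single_le_sum (f := fun i => u i ^ 2) (fun _ _ => sq_nonneg _)
          (Finset.mem_univ i)
      rw [← sq_abs] at h1
      exact (sq_le_one_iff₀ (abs_nonneg _)).1 h1
    rw [abs_mul, abs_neg]
    have h2 : |∫ x, (∑ i, u i * f x i - c) * ∑ j, (D x).adjugate j i * pd (fun x => χ x ^ n) j x| ≤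
        ∫ x, (closedBall a (s + δ)).indicator
          (fun x => (w * (n * (C1 / δ) * C2)) * (χ x ^ (n - 1) * sn (D x) ^ (n - 1))) x := by
      rw [← Real.norm_eq_abs]
      refine norm_integral_le_of_norm_le ?_ ?_
      · rw [integrable_indicator_iff hKm]
        exact hZi.const_mul _
      · refine Eventually.of_forall fun x => ?_
        by_cases hx : x ∈ closedBall a (s + δ)
        · rw [indicator_of_mem hx, norm_mul, Real.norm_eq_abs, Real.norm_eq_abs]
          have h3 : |∑ j, (D x).adjugate j i * pd (fun x => χ x ^ n) j x| ≤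
              (n * (C1 / δ) * C2) * (χ x ^ (n - 1) * sn (D x) ^ (n - 1)) := by
            have e : ∑ j, (D x).adjugate j i * pd (fun x => χ x ^ n) j x =
                (n * χ x ^ (n - 1)) * ∑ j, (D x).adjugate j i * pd χ j x := by
              rw [Finset.mul_sum]
              refine Finset.sum_congr rfl fun j _ => ?_
              rw [ei_pd_pow hχs]; ring
            rw [e, abs_mul, abs_of_nonneg (mul_nonneg hn0.le (pow_nonneg (hχ0 x) _))]
            have h4 : |∑ j, (D x).adjugate j i * pd χ j x| ≤ (C1 / δ) * (C2 * sn (D x) ^ (n - 1)) := by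
              refine (abs_sum_adj_le (D x).adjugate χ x i).trans ?_
              exact mul_le_mul (hgr x) (hadj _) (sn_nonneg _) (by positivity)
            calc n * χ x ^ (n - 1) * |∑ j, (D x).adjugate j i * pd χ j x| ≤
                n * χ x ^ (n - 1) * ((C1 / δ) * (C2 * sn (D x) ^ (n - 1))) :=
                  mul_le_mul_of_nonneg_left h4 (mul_nonneg hn0.le (pow_nonneg (hχ0 x) _))
              _ = _ := by ring
          calc |∑ i, u i * f x i - c| * |∑ j, (D x).adjugate j i * pd (fun x => χ x ^ n) j x| ≤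
              w * ((n * (C1 / δ) * C2) * (χ x ^ (n - 1) * sn (D x) ^ (n - 1))) :=
                mul_le_mul (hosc x hx) h3 (abs_nonneg _) hw
            _ = _ := by ring
        · rw [indicator_of_notMem hx]
          have e : ∑ j, (D x).adjugate j i * pd (fun x => χ x ^ n) j x = 0 := by
            refine Finset.sum_eq_zero fun j _ => ?_
            rw [ei_pd_pow hχs, hgr0 x hx j]; ring
          rw [e, mul_zero, norm_zero]
    rw [integral_indicator hKm, integral_const_mul, ← hZ] at h2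
    calc |u i| * _ ≤ 1 * (w * (n * (C1 / δ) * C2) * Z) :=
          mul_le_mul hui h2 (abs_nonneg _) zero_le_one
      _ = _ := one_mul _
  have hXle : X ≤ (n * (n * C1 * C2) * (w / δ)) * Z := by
    have e1 : X = ∑ i, u i * ∫ x, χ x ^ n * pd (fun y : E n => ∑ i, u i * y i - c) i (f x) * (D x).det := by
      have e2 : ∀ i, ∫ x, χ x ^ n * pd (fun y : E n => ∑ i, u i * y i - c) i (f x) * (D x).det =
          u i * X := by
        intro i
        rw [hXw, ← integral_const_mul]
        refine integral_congr_ae (Eventually.of_forall fun x => ?_)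
        simp only [ei_pd_lin]
        ring
      simp only [e2]
      calc X = (∑ i, u i ^ 2) * X := by rw [hu, one_mul]
        _ = _ := by rw [Finset.sum_mul]; exact Finset.sum_congr rfl fun i _ => by ring
    calc X ≤ |X| := le_abs_self X
      _ ≤ ∑ i, |u i * ∫ x, χ x ^ n * pd (fun y : E n => ∑ i, u i * y i - c) i (f x) * (D x).det| := by
          conv_lhs => rw [e1]
          exact Finset.abs_sum_le_sum_abs _ _
      _ ≤ ∑ _i : Fin n, w * (n * (C1 / δ) * C2) * Z := Finset.sum_le_sum fun i _ => hi i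
      _ = _ := by
          rw [Finset.sum_const, Finset.card_univ, Fintype.card_fin, nsmul_eq_mul]
          ring
  -- Hölder
  have ht : (0 : ℝ) < 1 - 1 / (n : ℝ) := by
    rw [sub_pos, div_lt_one hn0]; linarith
  have hHol : Z ≤ X ^ (1 - 1 / (n : ℝ)) * Y ^ (1 / (n : ℝ)) := by
    have e1 : Z = ∫ x in closedBall a (s + δ), (χ x ^ n * (D x).det) ^ (1 - 1 / (n : ℝ)) *
        (kd (D x) ^ (n - 1)) ^ (1 / (n : ℝ)) := by
      rw [hZ]
      refine integral_congr_ae ?_
      filter_upwards [hae] with x hx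
      exact ei_point hn hx.1 hx.2 (hχ0 x)
    have hpq : ((1 - 1 / (n : ℝ))⁻¹).HolderConjugate (n : ℝ) := by
      rw [Real.holderConjugate_iff]
      constructor
      · rw [one_lt_inv₀ ht]
        have : (0 : ℝ) < 1 / (n : ℝ) := by positivity
        linarith
      · rw [inv_inv]
        have : (n : ℝ)⁻¹ = 1 / (n : ℝ) := by rw [one_div]
        rw [this]; ring
    have hF : ∀ᵐ x ∂(volume.restrict (closedBall a (s + δ))),
        ((χ x ^ n * (D x).det) ^ (1 - 1 / (n : ℝ))) ^ (1 - 1 / (n : ℝ))⁻¹ = χ x ^ n * (D x).det := by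
      filter_upwards [hXae] with x hx
      exact Real.rpow_rpow_inv hx ht.ne'
    have hG : ∀ᵐ x ∂(volume.restrict (closedBall a (s + δ))),
        ((kd (D x) ^ (n - 1)) ^ (1 / (n : ℝ))) ^ (n : ℝ) = kd (D x) ^ (n - 1) := by
      filter_upwards [hae] with x hx
      rw [one_div]
      exact Real.rpow_inv_rpow (pow_nonneg (kd_nonneg hx.1) _) hn0.ne'
    have hFm : Measurable fun x => (χ x ^ n * (D x).det) ^ (1 - 1 / (n : ℝ)) :=
      ((hχm.pow_const n).mul (meas_det' h.meas)).pow_const _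
    have hGm : Measurable fun x => (kd (D x) ^ (n - 1)) ^ (1 / (n : ℝ)) :=
      ((meas_kd h.meas).pow_const _).pow_const _
    have hF0 : ∀ᵐ x ∂(volume.restrict (closedBall a (s + δ))),
        0 ≤ (χ x ^ n * (D x).det) ^ (1 - 1 / (n : ℝ)) := by
      filter_upwards [hXae] with x hx
      exact Real.rpow_nonneg hx _
    have hG0 : ∀ᵐ x ∂(volume.restrict (closedBall a (s + δ))),
        0 ≤ (kd (D x) ^ (n - 1)) ^ (1 / (n : ℝ)) := by
      filter_upwards [hae] with x hx
      exact Real.rpow_nonneg (pow_nonneg (kd_nonneg hx.1) _) _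
    have hFL : MemLp (fun x => (χ x ^ n * (D x).det) ^ (1 - 1 / (n : ℝ)))
        (ENNReal.ofReal (1 - 1 / (n : ℝ))⁻¹) (volume.restrict (closedBall a (s + δ))) := by
      have hp : (0 : ℝ) < (1 - 1 / (n : ℝ))⁻¹ := inv_pos.2 ht
      rw [← integrable_norm_rpow_iff hFm.aestronglyMeasurable (ENNReal.ofReal_pos.2 hp).ne'
        ENNReal.ofReal_ne_top, ENNReal.toReal_ofReal hp.le]
      refine hXi.congr ?_
      filter_upwards [hF, hF0] with x hx hx0
      rw [Real.norm_eq_abs, abs_of_nonneg hx0, hx]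
    have hGL : MemLp (fun x => (kd (D x) ^ (n - 1)) ^ (1 / (n : ℝ)))
        (ENNReal.ofReal (n : ℝ)) (volume.restrict (closedBall a (s + δ))) := by
      rw [← integrable_norm_rpow_iff hGm.aestronglyMeasurable (ENNReal.ofReal_pos.2 hn0).ne'
        ENNReal.ofReal_ne_top, ENNReal.toReal_ofReal hn0.le]
      refine hki.congr ?_
      filter_upwards [hG, hG0] with x hx hx0
      rw [Real.norm_eq_abs, abs_of_nonneg hx0, hx]
    have hh := integral_mul_le_Lp_mul_Lq_of_nonneg hpq hF0 hG0 hFL hGL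
    rw [e1]
    refine hh.trans (le_of_eq ?_)
    rw [integral_congr_ae hF, integral_congr_ae hG, one_div (1 - 1 / (n : ℝ))⁻¹, inv_inv, ← hX, ← hY]
  have hfin : X ≤ (n * (n * C1 * C2) * (w / δ)) ^ n * Y := by
    refine ei_alg hn hX0 hY0 (by positivity) (hXle.trans ?_)
    exact mul_le_mul_of_nonneg_left hHol (by positivity)
  rw [mul_pow, hY] at hfin
  refine le_trans ?_ hfin
  have e3 : ∫ x in closedBall a s, (D x).det = ∫ x in closedBall a s, χ x ^ n * (D x).det := by
    refine setIntegral_congr_fun isClosed_closedBall.measurableSet fun x hx => ?_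
    simp only [hχin x hx, one_pow, one_mul]
  rw [e3, hX]
  refine setIntegral_mono_set hXi hXae ?_
  exact (closedBall_subset_closedBall (by linarith)).eventuallyLE

end H930.BL
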