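import Pool.Agent.Helper930.BL.J08

set_option autoImplicit false

open MeasureTheory Metric Set Filter Topology
open scoped ENNReal NNReal ContDiff

namespace H930.BL


lemma lc_pd_sum {n : ℕ} (s : Finset ℕ) (χ : ℕ → E n → ℝ) (hχ : ∀ k, Differentiable ℝ (χ k)) (c : ℝ)
    (j : Fin n) (x : E n) :
    pd (fun y => c * ∑ k ∈ s, χ k y) j x = c * ∑ k ∈ s, pd (χ k) j x := by
  have h : HasFDerivAt (fun y => c * ∑ k ∈ s, χ k y) (c • ∑ k ∈ s, fderiv ℝ (χ k) x) x :=
    (HasFDerivAt.fun_sum fun k _ => (hχ k x).hasFDerivAt).const_mul c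
  unfold pd
  rw [h.fderiv]
  simp

lemma lc_gr_sum {n : ℕ} (s : Finset ℕ) (χ : ℕ → E n → ℝ) (hχ : ∀ k, Differentiable ℝ (χ k)) (c : ℝ)
    (hc : 0 ≤ c) (x : E n) :
    gr (fun y => c * ∑ k ∈ s, χ k y) x ≤ c * ∑ k ∈ s, gr (χ k) x := by
  unfold gr
  rw [Finset.sum_comm, Finset.mul_sum]
  refine Finset.sum_le_sum fun j _ => ?_
  rw [lc_pd_sum s χ hχ, abs_mul, abs_of_nonneg hc]
  exact mul_le_mul_of_nonneg_left (Finset.abs_sum_le_sum_abs _ _) hc

lemma lc_pow (s : Finset ℕ) (f : ℕ → ℝ) (n : ℕ) (hn : 1 ≤ n) (hf : ∀ k, 0 ≤ f k)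
    (h : ∀ j k, f j ≠ 0 → f k ≠ 0 → j = k) : (∑ k ∈ s, f k) ^ n ≤ ∑ k ∈ s, f k ^ n := by
  by_cases h0 : ∃ k ∈ s, f k ≠ 0
  · obtain ⟨k, hk, hk0⟩ := h0
    rw [Finset.sum_eq_single k]
    · exact Finset.single_le_sum (f := fun k => f k ^ n) (fun i _ => pow_nonneg (hf i) n) hk
    · intro b _ hb
      by_contra hb0
      exact hb (h b k hb0 hk0)
    · intro hh; exact absurd hk hh
  · push Not at h0
    rw [Finset.sum_eq_zero h0, zero_pow (by omega)]
    exact Finset.sum_nonneg fun i _ => pow_nonneg (hf i) n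

theorem logcut {n : ℕ} (hn : 2 ≤ n) {ρ ε : ℝ} (hρ : 0 < ρ) (hε : 0 < ε) :
    ∃ θ : E n → ℝ, ContDiff ℝ ∞ θ ∧ tsupport θ ⊆ ball 0 ρ ∧ (∀ x, 0 ≤ θ x) ∧ (∀ x, θ x ≤ 1) ∧
      θ 0 = 1 ∧ ∫ x, gr θ x ^ n ≤ ε := by
  obtain ⟨C, hC, hcut⟩ := cutoff n
  set t : ℕ → ℝ := fun k => ρ / 4 ^ (k + 1) with ht
  have htpos : ∀ k, 0 < t k := fun k => by simp only [ht]; positivity
  have ht2 : ∀ k, 2 * t k ≤ ρ / 2 := by
    intro k
    have h1 : t k ≤ ρ / 4 := by
      simp only [ht]
      apply div_le_div_of_nonneg_left hρ.le (by norm_num)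
      calc (4 : ℝ) = 4 ^ 1 := by norm_num
        _ ≤ 4 ^ (k + 1) := pow_le_pow_right₀ (by norm_num) (by omega)
    linarith
  have hlt : ∀ j k, j < k → 4 * t k ≤ t j := by
    intro j k hjk
    simp only [ht]
    rw [mul_div_assoc', div_le_div_iff₀ (by positivity) (by positivity)]
    have h1 : (4 : ℝ) ^ (j + 1 + 1) ≤ 4 ^ (k + 1) := pow_le_pow_right₀ (by norm_num) (by omega)
    have h2 : (4 : ℝ) * ρ * 4 ^ (j + 1) = ρ * 4 ^ (j + 1 + 1) := by ring
    rw [h2]
    exact mul_le_mul_of_nonneg_left h1 hρ.le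
  choose χ hχ1 hχ2 hχ3 hχ4 hχ5 hχ6 using fun k => hcut 0 (t k) (t k) (htpos k) (htpos k)
  obtain ⟨N, hN⟩ := exists_nat_ge ((4 * C) ^ n / ε)
  have hN0 : 0 < (N : ℝ) := lt_of_lt_of_le (by positivity) hN
  have hN1 : (1 : ℝ) ≤ N := by
    have : 0 < N := by exact_mod_cast hN0
    exact_mod_cast this
  have hχd : ∀ k, Differentiable ℝ (χ k) := fun k => (hχ1 k).differentiable (by simp)
  set θ : E n → ℝ := fun x => (N : ℝ)⁻¹ * ∑ k ∈ Finset.range N, χ k x with hθ
  have hsum_le : ∀ x, ∑ k ∈ Finset.range N, χ k x ≤ N := by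
    intro x
    calc ∑ k ∈ Finset.range N, χ k x ≤ ∑ k ∈ Finset.range N, (1 : ℝ) :=
          Finset.sum_le_sum fun k _ => hχ3 k x
      _ = N := by simp
  refine ⟨θ, ?_, ?_, ?_, ?_, ?_, ?_⟩
  · exact contDiff_const.mul (ContDiff.sum fun k _ => hχ1 k)
  · have h1 : Function.support θ ⊆ closedBall 0 (ρ / 2) := by
      intro x hx
      by_contra hx2
      apply hx
      have : ∀ k ∈ Finset.range N, χ k x = 0 := by
        intro k _
        apply hχ5
        intro hx3
        apply hx2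
        rw [mem_closedBall_zero_iff] at hx3 ⊢
        have := ht2 k
        linarith
      simp only [hθ, Finset.sum_eq_zero this, mul_zero]
    have h2 : tsupport θ ⊆ closedBall 0 (ρ / 2) := closure_minimal h1 isClosed_closedBall
    refine h2.trans ?_
    intro x hx
    rw [mem_closedBall_zero_iff] at hx
    rw [mem_ball_zero_iff]
    linarith
  · intro x
    exact mul_nonneg (by positivity) (Finset.sum_nonneg fun k _ => hχ2 k x)
  · intro x
    show (N : ℝ)⁻¹ * ∑ k ∈ Finset.range N, χ k x ≤ 1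
    calc (N : ℝ)⁻¹ * ∑ k ∈ Finset.range N, χ k x ≤ (N : ℝ)⁻¹ * N :=
          mul_le_mul_of_nonneg_left (hsum_le x) (by positivity)
      _ = 1 := inv_mul_cancel₀ hN0.ne'
  · show (N : ℝ)⁻¹ * ∑ k ∈ Finset.range N, χ k 0 = 1
    have : ∀ k ∈ Finset.range N, χ k 0 = 1 := fun k _ =>
      hχ4 k 0 (mem_closedBall_self (htpos k).le)
    rw [Finset.sum_congr rfl this]
    simp only [Finset.sum_const, Finset.card_range, nsmul_eq_mul, mul_one]
    exact inv_mul_cancel₀ hN0.ne'
  · set g : E n → ℝ := fun x => ∑ k ∈ Finset.range N,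
      (closedBall (0 : E n) (t k + t k)).indicator (fun _ => ((N : ℝ)⁻¹ * (C / t k)) ^ n) x with hg
    have hle : ∀ x, gr θ x ^ n ≤ g x := by
      intro x
      have h1 : gr θ x ≤ ∑ k ∈ Finset.range N,
          (closedBall (0 : E n) (t k + t k) \ closedBall 0 (t k)).indicator
            (fun _ => (N : ℝ)⁻¹ * (C / t k)) x := by
        refine (lc_gr_sum (Finset.range N) χ hχd (N : ℝ)⁻¹ (by positivity) x).trans ?_
        rw [Finset.mul_sum]
        refine Finset.sum_le_sum fun k _ => ?_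
        have h2 := mul_le_mul_of_nonneg_left (hχ6 k x) (show (0 : ℝ) ≤ (N : ℝ)⁻¹ by positivity)
        refine h2.trans (le_of_eq ?_)
        by_cases hx : x ∈ closedBall (0 : E n) (t k + t k) \ closedBall 0 (t k)
        · rw [indicator_of_mem hx, indicator_of_mem hx]
        · rw [indicator_of_notMem hx, indicator_of_notMem hx, mul_zero]
      refine (pow_le_pow_left₀ (gr_nonneg _ _) h1 n).trans ?_
      refine (lc_pow _ _ n (by omega) ?_ ?_).trans ?_
      · intro k
        apply indicator_nonneg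
        intro _ _
        have := htpos k
        positivity
      · have key : ∀ j k, j < k →
            x ∈ closedBall (0 : E n) (t j + t j) \ closedBall 0 (t j) →
            x ∈ closedBall (0 : E n) (t k + t k) \ closedBall 0 (t k) → False := by
          intro j k hjk h3 h4
          have h5 := h3.2
          have h6 := h4.1
          rw [mem_closedBall_zero_iff] at h5 h6
          have h7 := hlt j k hjk
          have h8 := htpos k
          apply h5
          linarith
        intro j k hj hk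
        have hj' := mem_of_indicator_ne_zero hj
        have hk' := mem_of_indicator_ne_zero hk
        rcases lt_trichotomy j k with h | h | h
        · exact (key j k h hj' hk').elim
        · exact h
        · exact (key k j h hk' hj').elim
      · refine Finset.sum_le_sum fun k _ => ?_
        by_cases hx : x ∈ closedBall (0 : E n) (t k + t k) \ closedBall 0 (t k)
        · rw [indicator_of_mem hx, indicator_of_mem hx.1]
        · rw [indicator_of_notMem hx, zero_pow (by omega)]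
          apply indicator_nonneg
          intro _ _
          have := htpos k
          positivity
    have hint : ∀ k ∈ Finset.range N, Integrable (fun x : E n =>
        (closedBall (0 : E n) (t k + t k)).indicator (fun _ => ((N : ℝ)⁻¹ * (C / t k)) ^ n) x) := by
      intro k _
      refine (integrable_indicator_iff isClosed_closedBall.measurableSet).2 ?_
      refine integrableOn_const ?_
      rw [volume_cube _ (by have := htpos k; linarith)]
      exact ENNReal.ofReal_ne_top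
    have h1 : ∫ x, gr θ x ^ n ≤ ∫ x, g x := by
      refine integral_mono_of_nonneg (Eventually.of_forall fun x => pow_nonneg (gr_nonneg _ _) n)
        (integrable_finsetSum _ hint) (Eventually.of_forall hle)
    refine h1.trans ?_
    rw [hg, integral_finsetSum _ hint]
    have h2 : ∀ k ∈ Finset.range N, ∫ x, (closedBall (0 : E n) (t k + t k)).indicator
        (fun _ => ((N : ℝ)⁻¹ * (C / t k)) ^ n) x = (N : ℝ)⁻¹ ^ n * (4 * C) ^ n := by
      intro k _
      have h0 := htpos k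
      rw [integral_indicator isClosed_closedBall.measurableSet, setIntegral_const,
        Measure.real, volume_cube _ (by linarith), ENNReal.toReal_ofReal (by positivity),
        smul_eq_mul, ← mul_pow, ← mul_pow]
      congr 1
      field_simp
      ring
    rw [Finset.sum_congr rfl h2, Finset.sum_const, Finset.card_range, nsmul_eq_mul]
    obtain ⟨m, rfl⟩ : ∃ m, n = m + 2 := ⟨n - 2, by omega⟩
    have h3 : (N : ℝ) * ((N : ℝ)⁻¹ ^ (m + 2) * (4 * C) ^ (m + 2)) =
        (N : ℝ)⁻¹ ^ m * ((N : ℝ)⁻¹ * (4 * C) ^ (m + 2)) := by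
      rw [pow_succ, pow_succ]
      have : (N : ℝ) * (N : ℝ)⁻¹ = 1 := mul_inv_cancel₀ hN0.ne'
      calc (N : ℝ) * ((N : ℝ)⁻¹ ^ m * (N : ℝ)⁻¹ * (N : ℝ)⁻¹ * (4 * C) ^ (m + 2))
          = ((N : ℝ) * (N : ℝ)⁻¹) * ((N : ℝ)⁻¹ ^ m * ((N : ℝ)⁻¹ * (4 * C) ^ (m + 2))) := by ring
        _ = _ := by rw [this, one_mul]
    rw [h3]
    have h4 : (N : ℝ)⁻¹ ^ m ≤ 1 := pow_le_one₀ (by positivity) (inv_le_one_of_one_le₀ hN1)
    have h5 : (N : ℝ)⁻¹ * (4 * C) ^ (m + 2) ≤ ε := by
      rw [inv_mul_le_iff₀ hN0]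
      rw [div_le_iff₀ hε] at hN
      linarith
    calc (N : ℝ)⁻¹ ^ m * ((N : ℝ)⁻¹ * (4 * C) ^ (m + 2)) ≤ 1 * ((N : ℝ)⁻¹ * (4 * C) ^ (m + 2)) :=
          mul_le_mul_of_nonneg_right h4 (by positivity)
      _ ≤ ε := by rw [one_mul]; exact h5

end H930.BL
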