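import Pool.Agent.Helper930.BL.J14

set_option autoImplicit false

open MeasureTheory Metric Set Filter Topology
open scoped ENNReal NNReal ContDiff

namespace H930.BL


theorem slice_morrey {m : ℕ} (hm : 1 ≤ m) {p : ℝ} (hp : (m : ℝ) < p) :
    ∃ C : ℝ≥0∞, C ≠ ⊤ ∧ ∀ (u : E (m + 1) → ℝ), ContDiff ℝ 1 u → ∀ (a : E (m + 1)) (L δ : ℝ),
      0 < δ → δ ≤ L → ∀ i : Fin (m + 1), ∃ Λ : ℝ → ℝ≥0∞, Measurable Λ ∧
      (∀ x ∈ closedBall a L, ENNReal.ofReal (|u x| ^ p) ≤ C * Λ (x i)) ∧
      ∫⁻ s, Λ s ≤ ∫⁻ x in closedBall a L,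
        ENNReal.ofReal (δ ^ (-(m : ℝ)) * |u x| ^ p + δ ^ (p - m) * gr u x ^ p) := by
  have hm1 : (1 : ℝ) ≤ (m : ℝ) := by exact_mod_cast hm
  have hp1 : (1 : ℝ) < p := lt_of_le_of_lt hm1 hp
  have hp0 : (0 : ℝ) < p := by linarith
  have hfr : (Module.finrank ℝ (E m) : ℝ) < p := by
    rw [Module.finrank_fin_fun]; exact hp
  obtain ⟨C0, hC0, hmor⟩ := J14.morrey_abstract (volume : Measure (E m)) hfr hp1
    (ρ := 1 / 2) (by norm_num)
  set B : Set (E m) := closedBall (0 : E m) (1 / 2) with hB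
  have hBv : volume B = 1 := by
    rw [hB, Real.volume_pi_closedBall (0 : E m) (by norm_num)]; norm_num
  refine ⟨2 ^ (p - 1) * (1 + C0 ^ p), ?_, ?_⟩
  · refine ENNReal.mul_ne_top (ENNReal.rpow_ne_top_of_nonneg (by linarith) (by norm_num))
      (ENNReal.add_ne_top.2 ⟨ENNReal.one_ne_top, ENNReal.rpow_ne_top_of_nonneg hp0.le hC0⟩)
  intro u hu a L δ hδ hδL i
  have hgc := J14.gr_cont hu
  have hg0 : ∀ x, 0 ≤ gr u x := fun x => Finset.sum_nonneg fun j _ => abs_nonneg _
  set G : E (m + 1) → ℝ≥0∞ := fun x =>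
    ENNReal.ofReal (δ ^ (-(m : ℝ)) * |u x| ^ p + δ ^ (p - m) * gr u x ^ p) with hG
  have hGm : Measurable G := by
    refine ENNReal.measurable_ofReal.comp (Measurable.add ?_ ?_)
    · exact (hu.continuous.abs.measurable.pow_const p).const_mul _
    · exact (hgc.measurable.pow_const p).const_mul _
  set Q : Set (E (m + 1)) := closedBall a L with hQ
  have hQm : MeasurableSet Q := measurableSet_closedBall
  set G1 : E (m + 1) → ℝ≥0∞ := Q.indicator G with hG1
  have hG1m : Measurable G1 := hGm.indicator hQm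
  have hinsm : Measurable fun q : ℝ × E m => (i.insertNth q.1 q.2 : E (m + 1)) :=
    (MeasurableEquiv.piFinSuccAbove (fun _ => ℝ) i).symm.measurable
  refine ⟨fun s => ∫⁻ z : E m, G1 (i.insertNth s z), ?_, ?_, ?_⟩
  · exact (hG1m.comp hinsm).lintegral_prod_right'
  · intro x hxQ
    have hL : 0 < L := lt_of_lt_of_le hδ hδL
    set t : ℝ := x i with ht
    set z : E m := i.removeNth x with hz
    set a' : E m := i.removeNth a with ha'
    have hx : i.insertNth t z = x := by rw [ht, hz]; exact Fin.insertNth_self_removeNth i x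
    have hxc : ∀ j, |x j - a j| ≤ L := by
      intro j
      have h1 := mem_closedBall.1 hxQ
      have h2 := (dist_pi_le_iff hL.le).1 h1 j
      rwa [Real.dist_eq] at h2
    have hzc : ∀ j, |z j - a' j| ≤ L := fun j => hxc (i.succAbove j)
    -- the small cube
    set z0 : E m := fun j => max (a' j - L + δ / 2) (min (z j) (a' j + L - δ / 2)) with hz0
    have hz0a : ∀ j, |z0 j - a' j| ≤ L - δ / 2 := by
      intro j
      have h1 := abs_le.1 (hzc j)
      rw [abs_le, hz0]
      simp only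
      constructor
      · have := le_max_left (a' j - L + δ / 2) (min (z j) (a' j + L - δ / 2))
        linarith
      · have h2 : max (a' j - L + δ / 2) (min (z j) (a' j + L - δ / 2)) ≤ a' j + L - δ / 2 :=
          max_le (by linarith) (min_le_right _ _)
        linarith
    have hz0z : ∀ j, |z j - z0 j| ≤ δ / 2 := by
      intro j
      have h1 := abs_le.1 (hzc j)
      rw [abs_le, hz0]
      simp only
      rcases le_total (z j) (a' j + L - δ / 2) with h | h
      · rw [min_eq_left h]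
        rcases le_total (a' j - L + δ / 2) (z j) with h' | h'
        · rw [max_eq_right h']; constructor <;> linarith
        · rw [max_eq_left h']; constructor <;> linarith
      · rw [min_eq_right h]
        have h' : a' j - L + δ / 2 ≤ a' j + L - δ / 2 := by linarith
        rw [max_eq_right h']; constructor <;> linarith
    -- points of the rescaled cube
    have hmem : ∀ ζ ∈ B, (i.insertNth t (z0 + δ • ζ) : E (m + 1)) ∈ Q := by
      intro ζ hζ
      rw [hQ, mem_closedBall, dist_pi_le_iff hL.le]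
      intro k
      rw [Real.dist_eq]
      refine Fin.succAboveCases i ?_ (fun j => ?_) k
      · simpa using hxc i
      · rw [Fin.insertNth_apply_succAbove]
        have h1 : ‖ζ‖ ≤ 1 / 2 := by simpa [hB] using hζ
        have h2 : |ζ j| ≤ 1 / 2 := (norm_le_pi_norm ζ j).trans h1
        have h3 : |δ * ζ j| ≤ δ / 2 := by
          rw [abs_mul, abs_of_pos hδ]
          nlinarith
        have h4 := hz0a j
        have h5 : (z0 + δ • ζ) j - a (i.succAbove j) = (z0 j - a' j) + δ * ζ j := by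
          simp [ha', Fin.removeNth]; ring
        rw [h5]
        calc |z0 j - a' j + δ * ζ j| ≤ |z0 j - a' j| + |δ * ζ j| := abs_add_le _ _
          _ ≤ L := by linarith
    set w : E m → ℝ := fun ζ => u (i.insertNth t (z0 + δ • ζ)) with hw
    set h : E m → ℝ≥0∞ := fun ζ => ENNReal.ofReal (δ * gr u (i.insertNth t (z0 + δ • ζ))) with hh
    have hins2 : Measurable fun ζ : E m => (i.insertNth t (z0 + δ • ζ) : E (m + 1)) :=
      hinsm.comp (measurable_const.prodMk (by fun_prop))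
    have hhm : Measurable h :=
      ENNReal.measurable_ofReal.comp ((hgc.measurable.comp hins2).const_mul δ)
    have hwm : Measurable w := hu.continuous.measurable.comp hins2
    have hseg : ∀ x' ∈ B, ∀ y' ∈ B,
        ‖w x' - w y'‖ₑ ≤ ∫⁻ s in Ioo (0 : ℝ) 1, h (x' + s • (y' - x')) * ‖y' - x'‖ₑ := by
      intro x' _ y' _
      refine (J14.seg_bound hu i t z0 (δ • x') (δ • y')).trans (le_of_eq ?_)
      refine lintegral_congr fun s => ?_
      have e1 : δ • x' + s • (δ • y' - δ • x') = δ • (x' + s • (y' - x')) := by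
        ext j; simp only [Pi.add_apply, Pi.smul_apply, Pi.sub_apply, smul_eq_mul]; ring
      have e2 : ‖δ • y' - δ • x'‖ₑ = ENNReal.ofReal δ * ‖y' - x'‖ₑ := by
        rw [← smul_sub, enorm_smul, Real.enorm_eq_ofReal hδ.le]
      rw [e1, e2, hh]
      simp only
      rw [ENNReal.ofReal_mul hδ.le]
      ring
    have hmor' := hmor h w hhm hseg
    set ζx : E m := δ⁻¹ • (z - z0) with hζx
    have hζxB : ζx ∈ B := by
      rw [hB, mem_closedBall_zero_iff, pi_norm_le_iff_of_nonneg (by norm_num)]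
      intro j
      rw [hζx, Real.norm_eq_abs]
      simp only [Pi.smul_apply, Pi.sub_apply, smul_eq_mul]
      rw [abs_mul, abs_of_pos (inv_pos.2 hδ)]
      have h1 := hz0z j
      calc δ⁻¹ * |z j - z0 j| ≤ δ⁻¹ * (δ / 2) := by gcongr
        _ = 1 / 2 := by field_simp
    have hwx : w ζx = u x := by
      rw [hw, hζx]
      simp only
      rw [smul_smul, mul_inv_cancel₀ hδ.ne', one_smul, add_sub_cancel, hx]
    set Hs : ℝ≥0∞ := ∫⁻ ζ in B, h ζ ^ p with hHs
    set W : ℝ≥0∞ := ∫⁻ ζ in B, ‖w ζ‖ₑ ^ p with hW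
    have hpt : ∀ ζ ∈ B, ‖w ζx‖ₑ ^ p ≤ 2 ^ (p - 1) * (‖w ζ‖ₑ ^ p + C0 ^ p * Hs) := by
      intro ζ hζ
      have h1 := hmor' ζx hζxB ζ hζ
      have h2 : ‖w ζx‖ₑ ≤ ‖w ζ‖ₑ + ‖w ζx - w ζ‖ₑ := by
        have : w ζx = w ζ + (w ζx - w ζ) := by ring
        conv_lhs => rw [this]
        exact enorm_add_le _ _
      have h3 : ‖w ζx - w ζ‖ₑ ^ p ≤ C0 ^ p * Hs := by
        calc ‖w ζx - w ζ‖ₑ ^ p ≤ (C0 * Hs ^ (1 / p)) ^ p := by gcongr
          _ = C0 ^ p * Hs := by
              rw [ENNReal.mul_rpow_of_nonneg _ _ hp0.le, ← ENNReal.rpow_mul, one_div,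
                inv_mul_cancel₀ hp0.ne', ENNReal.rpow_one]
      calc ‖w ζx‖ₑ ^ p ≤ (‖w ζ‖ₑ + ‖w ζx - w ζ‖ₑ) ^ p := by gcongr
        _ ≤ 2 ^ (p - 1) * (‖w ζ‖ₑ ^ p + ‖w ζx - w ζ‖ₑ ^ p) :=
            ENNReal.rpow_add_le_mul_rpow_add_rpow _ _ hp1.le
        _ ≤ _ := by gcongr
    have hint : ‖w ζx‖ₑ ^ p ≤ 2 ^ (p - 1) * (W + C0 ^ p * Hs) := by
      calc ‖w ζx‖ₑ ^ p = ∫⁻ ζ in B, ‖w ζx‖ₑ ^ p := by
            rw [setLIntegral_const, hBv, mul_one]
        _ ≤ ∫⁻ ζ in B, 2 ^ (p - 1) * (‖w ζ‖ₑ ^ p + C0 ^ p * Hs) :=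
            setLIntegral_mono' measurableSet_closedBall hpt
        _ = 2 ^ (p - 1) * (W + C0 ^ p * Hs) := by
            rw [lintegral_const_mul _ ((hwm.enorm.pow_const p).add_const _),
              lintegral_add_right _ measurable_const, setLIntegral_const, hBv, mul_one]
    have hδm : (0 : ℝ) < δ ^ m := by positivity
    have hsum : W + Hs ≤ ∫⁻ z' : E m, G1 (i.insertNth t z') := by
      have hchg := J14.lintegral_homothety (volume : Measure (E m)) hδ z0
        (h := fun z' => G1 (i.insertNth t z'))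
        (hG1m.comp (hinsm.comp (measurable_const.prodMk measurable_id)))
      rw [Module.finrank_fin_fun] at hchg
      have hpoint : ∀ ζ ∈ B, ‖w ζ‖ₑ ^ p + h ζ ^ p
          = ENNReal.ofReal (δ ^ m) * G1 (i.insertNth t (z0 + δ • ζ)) := by
        intro ζ hζ
        rw [hG1, indicator_of_mem (hmem ζ hζ), hG, hw, hh]
        simp only
        have h6 := hg0 (i.insertNth t (z0 + δ • ζ))
        rw [Real.enorm_eq_ofReal_abs, ENNReal.ofReal_rpow_of_nonneg (abs_nonneg _) hp0.le,
          ENNReal.ofReal_rpow_of_nonneg (by positivity) hp0.le,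
          ← ENNReal.ofReal_add (by positivity) (by positivity), ← ENNReal.ofReal_mul hδm.le]
        congr 1
        rw [Real.mul_rpow hδ.le h6, mul_add, ← mul_assoc, ← mul_assoc, ← Real.rpow_natCast δ m,
          ← Real.rpow_add hδ, ← Real.rpow_add hδ]
        rw [add_neg_cancel, Real.rpow_zero, one_mul]
        congr 3
        ring
      calc W + Hs = ∫⁻ ζ in B, (‖w ζ‖ₑ ^ p + h ζ ^ p) := by
            rw [hW, hHs, lintegral_add_left (hwm.enorm.pow_const p)]
        _ = ∫⁻ ζ in B, ENNReal.ofReal (δ ^ m) * G1 (i.insertNth t (z0 + δ • ζ)) :=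
            setLIntegral_congr_fun measurableSet_closedBall hpoint
        _ ≤ ∫⁻ ζ, ENNReal.ofReal (δ ^ m) * G1 (i.insertNth t (z0 + δ • ζ)) :=
            setLIntegral_le_lintegral _ _
        _ = ENNReal.ofReal (δ ^ m) * ∫⁻ ζ, G1 (i.insertNth t (z0 + δ • ζ)) := by
            exact lintegral_const_mul _ (hG1m.comp hins2)
        _ = ENNReal.ofReal (δ ^ m) * (ENNReal.ofReal ((δ ^ m)⁻¹) *
              ∫⁻ z' : E m, G1 (i.insertNth t z')) := by
            rw [hchg]
        _ = ∫⁻ z' : E m, G1 (i.insertNth t z') := by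
            rw [← mul_assoc, ← ENNReal.ofReal_mul hδm.le, mul_inv_cancel₀ hδm.ne',
              ENNReal.ofReal_one, one_mul]
    have hux : ENNReal.ofReal (|u x| ^ p) = ‖w ζx‖ₑ ^ p := by
      rw [hwx, Real.enorm_eq_ofReal_abs, ENNReal.ofReal_rpow_of_nonneg (abs_nonneg _) hp0.le]
    show ENNReal.ofReal (|u x| ^ p) ≤ _ * ∫⁻ z' : E m, G1 (i.insertNth t z')
    rw [hux]
    calc ‖w ζx‖ₑ ^ p ≤ 2 ^ (p - 1) * (W + C0 ^ p * Hs) := hint
      _ ≤ 2 ^ (p - 1) * ((1 + C0 ^ p) * (W + Hs)) := by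
          gcongr
          calc W + C0 ^ p * Hs ≤ (W + Hs) + (C0 ^ p * W + C0 ^ p * Hs) :=
                add_le_add le_self_add le_add_self
            _ = (1 + C0 ^ p) * (W + Hs) := by ring
      _ ≤ 2 ^ (p - 1) * ((1 + C0 ^ p) * ∫⁻ z' : E m, G1 (i.insertNth t z')) := by gcongr
      _ = _ := by rw [mul_assoc]
  · have hmp := (volume_preserving_piFinSuccAbove (fun _ : Fin (m + 1) => ℝ) i).symm
    have h1 := hmp.lintegral_comp hG1m
    rw [← lintegral_indicator hQm, ← hG1, ← h1, Measure.volume_eq_prod]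
    exact ((lintegral_prod (fun q : ℝ × E m => G1 (i.insertNth q.1 q.2))
      (hG1m.comp hinsm).aemeasurable).symm).le

end H930.BL
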