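import Pool.Agent.Helper930.BL.Hol
import Pool.Agent.Helper930.BL.Moll
import Pool.Agent.Helper930.BL.Slice
import Pool.Agent.Helper930.BL.Poin
import Pool.Agent.Helper930.BL.LogCut

set_option autoImplicit false

open MeasureTheory Metric Set Filter Topology
open scoped ENNReal NNReal ContDiff

namespace H930.BL.XFibrePt

variable {n : ℕ}


theorem bl20_slice {m : ℕ} (hm : 1 ≤ m) {p : ℝ} (hp : (m : ℝ) < p) (a : E (m + 1)) {s : ℝ}
    (hs : 0 < s) :
    ∃ C : ℝ, 0 ≤ C ∧ ∀ u : E (m + 1) → ℝ, ContDiff ℝ 1 u → (∀ x ∈ sphere a s, u x = 0) →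
      ∀ (i : Fin (m + 1)) (t1 t2 : ℝ), t1 ≤ t2 →
      (∀ t ∈ Icc t1 t2, ∃ x ∈ closedBall a s, x i = t ∧ 1 / 2 ≤ u x) →
      t2 - t1 ≤ C * ∫ x in closedBall a s, gr u x ^ p := by
  obtain ⟨C, hC, hmain⟩ := slice_morrey hm hp
  have hp0 : 0 < p := lt_of_le_of_lt (Nat.cast_nonneg m) hp
  have hp1 : 1 ≤ p := by
    have : (1 : ℝ) ≤ m := by exact_mod_cast hm
    linarith
  set c1 : ℝ := s ^ (-(m : ℝ)) with hc1
  set c2 : ℝ := s ^ (p - m) with hc2
  have hc1p : 0 < c1 := Real.rpow_pos_of_pos hs _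
  have hc2p : 0 < c2 := Real.rpow_pos_of_pos hs _
  refine ⟨2 ^ p * (C.toReal * (c1 * (2 * s) ^ p + c2)), by positivity, ?_⟩
  intro u hu hu0 i t1 t2 ht h
  obtain ⟨Λ, hΛm, hΛ, hΛi⟩ := hmain u hu a s s hs le_rfl i
  have hcu : Continuous fun x => |u x| ^ p :=
    (hu.continuous.abs).rpow_const (fun x => Or.inr hp0.le)
  have hcg : Continuous fun x => gr u x ^ p :=
    (continuous_gr hu).rpow_const (fun x => Or.inr hp0.le)
  have hcomp : IsCompact (closedBall a s) := isCompact_closedBall a s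
  have hiu : IntegrableOn (fun x => |u x| ^ p) (closedBall a s) :=
    hcu.continuousOn.integrableOn_compact hcomp
  have hig : IntegrableOn (fun x => gr u x ^ p) (closedBall a s) :=
    hcg.continuousOn.integrableOn_compact hcomp
  have hI0 : 0 ≤ ∫ x in closedBall a s, gr u x ^ p :=
    integral_nonneg (fun x => Real.rpow_nonneg (gr_nonneg u x) p)
  have h1 : ∫ x in closedBall a s, (c1 * |u x| ^ p + c2 * gr u x ^ p) ≤
      (c1 * (2 * s) ^ p + c2) * ∫ x in closedBall a s, gr u x ^ p := by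
    rw [integral_add (hiu.const_mul _) (hig.const_mul _), integral_const_mul, integral_const_mul]
    have h2 := poincare_zero (by omega : 1 ≤ m + 1) hp1 u hu a s hs hu0
    have h3 := mul_le_mul_of_nonneg_left h2 hc1p.le
    linarith
  have h2 : ∫⁻ x in closedBall a s, ENNReal.ofReal (c1 * |u x| ^ p + c2 * gr u x ^ p) =
      ENNReal.ofReal (∫ x in closedBall a s, (c1 * |u x| ^ p + c2 * gr u x ^ p)) := by
    rw [ofReal_integral_eq_lintegral_ofReal]
    · exact (hiu.const_mul _).add (hig.const_mul _)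
    · exact ae_of_all _ (fun x => by
        have := gr_nonneg u x
        show 0 ≤ c1 * |u x| ^ p + c2 * gr u x ^ p
        positivity)
  have h3 : ENNReal.ofReal ((1 / 2 : ℝ) ^ p) * ENNReal.ofReal (t2 - t1) ≤ C * ∫⁻ t, Λ t := by
    calc ENNReal.ofReal ((1 / 2 : ℝ) ^ p) * ENNReal.ofReal (t2 - t1)
        = ∫⁻ t in Icc t1 t2, ENNReal.ofReal ((1 / 2 : ℝ) ^ p) := by
          rw [setLIntegral_const, Real.volume_Icc]
      _ ≤ ∫⁻ t in Icc t1 t2, C * Λ t := by
          apply setLIntegral_mono' measurableSet_Icc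
          intro t htt
          obtain ⟨x, hx, hxt, hxu⟩ := h t htt
          calc ENNReal.ofReal ((1 / 2 : ℝ) ^ p) ≤ ENNReal.ofReal (|u x| ^ p) := by
                apply ENNReal.ofReal_le_ofReal
                exact Real.rpow_le_rpow (by norm_num) (hxu.trans (le_abs_self _)) hp0.le
            _ ≤ C * Λ (x i) := hΛ x hx
            _ = C * Λ t := by rw [hxt]
      _ ≤ ∫⁻ t, C * Λ t := setLIntegral_le_lintegral _ _
      _ = C * ∫⁻ t, Λ t := lintegral_const_mul _ hΛm
  have h4 : ENNReal.ofReal ((1 / 2 : ℝ) ^ p * (t2 - t1)) ≤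
      ENNReal.ofReal (C.toReal * ((c1 * (2 * s) ^ p + c2) * ∫ x in closedBall a s, gr u x ^ p)) := by
    rw [ENNReal.ofReal_mul (by positivity)]
    refine h3.trans ?_
    rw [ENNReal.ofReal_mul ENNReal.toReal_nonneg, ENNReal.ofReal_toReal hC]
    refine mul_le_mul_right ?_ C
    refine hΛi.trans ?_
    rw [h2]
    exact ENNReal.ofReal_le_ofReal h1
  have h5 := (ENNReal.ofReal_le_ofReal_iff (by positivity)).1 h4
  have h6 : (2 : ℝ) ^ p * (1 / 2) ^ p = 1 := by
    rw [← Real.mul_rpow (by norm_num) (by norm_num)]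
    norm_num
  have h7 : (0 : ℝ) < 2 ^ p := by positivity
  calc t2 - t1 = 2 ^ p * ((1 / 2) ^ p * (t2 - t1)) := by rw [← mul_assoc, h6, one_mul]
    _ ≤ 2 ^ p * (C.toReal * ((c1 * (2 * s) ^ p + c2) * ∫ x in closedBall a s, gr u x ^ p)) :=
        mul_le_mul_of_nonneg_left h5 h7.le
    _ = _ := by ring

theorem bl20_chain {n : ℕ} {θ : E n → ℝ} (hθ : ContDiff ℝ ∞ θ) {F : E n → E n}
    (hF : ContDiff ℝ ∞ F) (y x : E n) :
    gr (fun x => θ (F x - y)) x ≤ gr θ (F x - y) * sn (jac F x) := by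
  have hFd : DifferentiableAt ℝ F x := (hF.differentiable (by simp)) x
  have hθd : DifferentiableAt ℝ θ (F x - y) := (hθ.differentiable (by simp)) _
  have hpd : ∀ j, pd (fun x => θ (F x - y)) j x = ∑ l, jac F x l j * pd θ l (F x - y) := by
    intro j
    have h1 : HasFDerivAt (fun x => θ (F x - y)) ((fderiv ℝ θ (F x - y)).comp (fderiv ℝ F x)) x := by
      have := hθd.hasFDerivAt.comp x (hFd.hasFDerivAt.sub_const y)
      exact this
    show fderiv ℝ (fun x => θ (F x - y)) x (Pi.single j 1) = _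
    rw [h1.fderiv, ContinuousLinearMap.comp_apply, fderiv_apply_eq]
    apply Finset.sum_congr rfl
    intro l _
    congr 1
    have h2 : HasFDerivAt (fun x => F x l) ((ContinuousLinearMap.proj l).comp (fderiv ℝ F x)) x :=
      (hasFDerivAt_pi'.1 hFd.hasFDerivAt) l
    show _ = fderiv ℝ (fun y => F y l) x (Pi.single j 1)
    rw [h2.fderiv]
    rfl
  calc gr (fun x => θ (F x - y)) x = ∑ j, |∑ l, jac F x l j * pd θ l (F x - y)| := by
        unfold gr
        exact Finset.sum_congr rfl fun j _ => by rw [hpd]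
    _ ≤ ∑ j, ∑ l, gr θ (F x - y) * |jac F x l j| := by
        refine Finset.sum_le_sum fun j _ => (Finset.abs_sum_le_sum_abs _ _).trans ?_
        refine Finset.sum_le_sum fun l _ => ?_
        rw [abs_mul, mul_comm]
        exact mul_le_mul_of_nonneg_right (abs_pd_le_gr _ _ _) (abs_nonneg _)
    _ = gr θ (F x - y) * sn (jac F x) := by
        rw [Finset.sum_comm]
        unfold sn
        rw [Finset.mul_sum]
        exact Finset.sum_congr rfl fun l _ => by rw [Finset.mul_sum]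

theorem bl20_bdd {n : ℕ} {θ : E n → ℝ} (hθ : ContDiff ℝ ∞ θ) (hθc : HasCompactSupport θ) :
    ∃ M : ℝ, 0 ≤ M ∧ ∀ z, gr θ z ≤ M := by
  have h1 : HasCompactSupport (gr θ) :=
    HasCompactSupport.intro hθc (fun x hx => gr_eq_zero_of_notMem hx)
  obtain ⟨M, hM⟩ := h1.exists_bound_of_continuous (continuous_gr (hθ.of_le (by simp)))
  refine ⟨M, (norm_nonneg _).trans (hM 0), fun z => (le_abs_self _).trans (hM z)⟩

theorem bl20_limit {n : ℕ} {f : E n → E n} {D : E n → Matrix (Fin n) (Fin n) ℝ} {K : Set (E n)}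
    (hKc : IsCompact K) {p : ℝ} (hp : 0 < p) {θ : E n → ℝ} (hθ : ContDiff ℝ ∞ θ)
    (hθc : HasCompactSupport θ) (y : E n) {F : ℕ → E n → E n} (hF : ∀ k, ContDiff ℝ ∞ (F k))
    (hFu : TendstoUniformlyOn F f atTop K)
    (hFj : ∀ᵐ x ∂(volume.restrict K), Tendsto (fun k => jac (F k) x) atTop (𝓝 (D x)))
    {Φ : E n → ℝ} (hΦ : IntegrableOn Φ K)
    (hb : ∀ᵐ x ∂(volume.restrict K), ∀ k, sn (jac (F k) x) ^ p ≤ Φ x) :
    Tendsto (fun k => ∫ x in K, (gr θ (F k x - y) * sn (jac (F k) x)) ^ p) atTop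
      (𝓝 (∫ x in K, (gr θ (f x - y) * sn (D x)) ^ p)) := by
  obtain ⟨M, hM0, hM⟩ := bl20_bdd hθ hθc
  have hcg : Continuous (gr θ) := continuous_gr (hθ.of_le (by simp))
  have hcont : ∀ k, Continuous fun x => (gr θ (F k x - y) * sn (jac (F k) x)) ^ p := by
    intro k
    have h1 : Continuous fun x => gr θ (F k x - y) :=
      hcg.comp ((hF k).continuous.sub continuous_const)
    have h2 : Continuous fun x => sn (jac (F k) x) :=
      continuous_sn.comp (continuous_jac ((hF k).of_le (by simp)))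
    exact (h1.mul h2).rpow_const (fun x => Or.inr hp.le)
  have hmem : ∀ᵐ x ∂(volume.restrict K), x ∈ K := ae_restrict_mem hKc.measurableSet
  refine tendsto_integral_of_dominated_convergence (fun x => M ^ p * Φ x)
    (fun k => (hcont k).aestronglyMeasurable) (hΦ.const_mul _) (fun k => ?_) ?_
  · filter_upwards [hb] with x hx
    have h1 : 0 ≤ gr θ (F k x - y) := gr_nonneg _ _
    have h2 : 0 ≤ sn (jac (F k) x) := sn_nonneg _
    rw [Real.norm_of_nonneg (by positivity), Real.mul_rpow h1 h2]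
    exact mul_le_mul (Real.rpow_le_rpow h1 (hM _) hp.le) (hx k) (by positivity) (by positivity)
  · filter_upwards [hFj, hmem] with x hx hxK
    have h1 : Tendsto (fun k => F k x) atTop (𝓝 (f x)) := hFu.tendsto_at hxK
    have h2 : Tendsto (fun k => gr θ (F k x - y)) atTop (𝓝 (gr θ (f x - y))) :=
      (hcg.tendsto _).comp (h1.sub_const y)
    have h3 : Tendsto (fun k => sn (jac (F k) x)) atTop (𝓝 (sn (D x))) :=
      (continuous_sn.tendsto _).comp hx
    exact (h2.mul h3).rpow_const (Or.inr hp.le)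

theorem bl20_holder {n : ℕ} (hn : 3 ≤ n) {f : E n → E n} {D : E n → Matrix (Fin n) (Fin n) ℝ}
    {Ω : Set (E n)} (h : FDMap f D Ω) {K : Set (E n)} (hK : IsCompact K) (hKΩ : K ⊆ Ω)
    {g : E n → ℝ} (hg : Continuous g) (hg0 : ∀ x, 0 ≤ g x) :
    ∫ x in K, (g (f x) * sn (D x)) ^ pe n ≤
      (∫ x in K, g (f x) ^ n * (D x).det) ^ (1 - 1 / (2 * (n : ℝ))) *
      (∫ x in K, kd (D x) ^ (2 * n - 1)) ^ (1 / (2 * (n : ℝ))) := by
  have hnR : (3 : ℝ) ≤ n := by exact_mod_cast hn
  have hn0 : (0 : ℝ) < n := by linarith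
  set α : ℝ := 1 - 1 / (2 * (n : ℝ)) with hα
  have hα0 : 0 < α := by
    have : 1 / (2 * (n : ℝ)) < 1 := by
      rw [div_lt_one (by positivity)]
      linarith
    linarith
  have hconj : (1 / α).HolderConjugate (2 * (n : ℝ)) := by
    rw [Real.holderConjugate_iff]
    refine ⟨?_, ?_⟩
    · rw [lt_div_iff₀ hα0, one_mul, hα]
      have : 0 < 1 / (2 * (n : ℝ)) := by positivity
      linarith
    · rw [one_div, inv_inv, hα]
      rw [one_div]
      ring
  have hpe : pe n = (n : ℝ) * α := by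
    unfold pe
    rw [hα]
    field_simp
  have hmemK : ∀ᵐ x ∂(volume.restrict K), x ∈ K := ae_restrict_mem hK.measurableSet
  have hpos : ∀ᵐ x ∂(volume.restrict K), 0 ≤ (D x).det ∧ ((D x).det = 0 → D x = 0) :=
    ae_restrict_of_ae_restrict_of_subset hKΩ h.pos
  have hgf : ContinuousOn (fun x => g (f x) ^ n) K :=
    (hg.comp_continuousOn (h.cont.mono hKΩ)).pow n
  have hint1 : IntegrableOn (fun x => g (f x) ^ n * (D x).det) K :=
    (h.det_int K hK hKΩ).continuousOn_mul hgf hK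
  have hint2 : IntegrableOn (fun x => kd (D x) ^ (2 * n - 1)) K := h.kd_int _ K hK hKΩ
  have hAm : AEStronglyMeasurable (fun x => (g (f x) ^ n * (D x).det) ^ α) (volume.restrict K) :=
    (hint1.1.aemeasurable.pow_const α).aestronglyMeasurable
  have hBm : AEStronglyMeasurable (fun x => kd (D x) ^ α) (volume.restrict K) :=
    ((meas_kd h.meas).pow_const α).aestronglyMeasurable
  have hA0 : ∀ᵐ x ∂(volume.restrict K), 0 ≤ g (f x) ^ n * (D x).det := by
    filter_upwards [hpos] with x hx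
    exact mul_nonneg (pow_nonneg (hg0 _) _) hx.1
  have hB0 : ∀ᵐ x ∂(volume.restrict K), 0 ≤ kd (D x) := by
    filter_upwards [hpos] with x hx
    exact kd_nonneg hx.1
  have hApow : ∀ᵐ x ∂(volume.restrict K),
      ((g (f x) ^ n * (D x).det) ^ α) ^ (1 / α) = g (f x) ^ n * (D x).det := by
    filter_upwards [hA0] with x hx
    rw [← Real.rpow_mul hx, mul_one_div_cancel hα0.ne', Real.rpow_one]
  have hBpow : ∀ᵐ x ∂(volume.restrict K),
      (kd (D x) ^ α) ^ (2 * (n : ℝ)) = kd (D x) ^ (2 * n - 1) := by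
    filter_upwards [hB0] with x hx
    rw [← Real.rpow_mul hx, ← Real.rpow_natCast]
    congr 1
    rw [Nat.cast_sub (by omega), Nat.cast_mul, hα]
    field_simp
    push_cast
    ring
  have hAL : MemLp (fun x => (g (f x) ^ n * (D x).det) ^ α) (ENNReal.ofReal (1 / α))
      (volume.restrict K) := by
    rw [← integrable_norm_rpow_iff hAm (by
      rw [Ne, ENNReal.ofReal_eq_zero, not_le]
      positivity) ENNReal.ofReal_ne_top]
    rw [ENNReal.toReal_ofReal (by positivity)]
    refine hint1.congr ?_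
    filter_upwards [hA0, hApow] with x hx hx2
    rw [Real.norm_of_nonneg (Real.rpow_nonneg hx _), hx2]
  have hBL : MemLp (fun x => kd (D x) ^ α) (ENNReal.ofReal (2 * (n : ℝ)))
      (volume.restrict K) := by
    rw [← integrable_norm_rpow_iff hBm (by
      rw [Ne, ENNReal.ofReal_eq_zero, not_le]
      positivity) ENNReal.ofReal_ne_top]
    rw [ENNReal.toReal_ofReal (by positivity)]
    refine hint2.congr ?_
    filter_upwards [hB0, hBpow] with x hx hx2
    rw [Real.norm_of_nonneg (Real.rpow_nonneg hx _), hx2]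
  have hmain := integral_mul_le_Lp_mul_Lq_of_nonneg (μ := volume.restrict K) hconj
    (f := fun x => (g (f x) ^ n * (D x).det) ^ α) (g := fun x => kd (D x) ^ α)
    (by filter_upwards [hA0] with x hx using Real.rpow_nonneg hx _)
    (by filter_upwards [hB0] with x hx using Real.rpow_nonneg hx _) hAL hBL
  rw [integral_congr_ae hApow, integral_congr_ae hBpow, one_div_one_div] at hmain
  refine le_trans (le_of_eq ?_) hmain
  apply integral_congr_ae
  filter_upwards [hpos, hA0, hB0] with x hx hx2 hx3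
  have h1 := sn_pow_eq (by omega : 1 ≤ n) hx.1 hx.2
  rw [← Real.mul_rpow hx2 hx3, hpe, Real.rpow_mul (mul_nonneg (hg0 _) (sn_nonneg _)),
    Real.rpow_natCast, mul_pow, h1]
  congr 1
  ring

theorem bl20_eps {n : ℕ} (hn : 3 ≤ n) {f : E n → E n} {D : E n → Matrix (Fin n) (Fin n) ℝ}
    {Ω : Set (E n)} (h : FDMap f D Ω) {a : E n} {s : ℝ} (hs : 0 < s) (hsΩ : closedBall a s ⊆ Ω)
    {y₀ : E n} {r : ℝ} (hr : 0 < r) (hout : ∀ x ∈ sphere a s, f x ∉ closedBall y₀ r)
    (hdeg : ∀ ψ : E n → ℝ, Continuous ψ → HasCompactSupport ψ → tsupport ψ ⊆ ball y₀ r →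
      IntegrableOn (fun x => ψ (f x) * (D x).det) (ball a s) ∧
      ∫ x in ball a s, ψ (f x) * (D x).det = ∫ z, ψ z)
    {y : E n} (hy : y ∈ ball y₀ r) :
    ∃ C : ℝ, 0 ≤ C ∧ ∀ (i : Fin n) (t1 t2 : ℝ), t1 ≤ t2 →
      (∀ t ∈ Icc t1 t2, ∃ x, (x ∈ ball a s ∧ f x = y) ∧ x i = t) →
      ∀ ε : ℝ, 0 < ε → t2 - t1 ≤ C * ε ^ (1 - 1 / (2 * (n : ℝ))) := by
  obtain ⟨m, rfl⟩ : ∃ m, n = m + 1 := ⟨n - 1, by omega⟩
  have hp : (m : ℝ) < pe (m + 1) := by
    unfold pe
    push_cast
    linarith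
  have hp0 : 0 < pe (m + 1) := lt_of_le_of_lt (Nat.cast_nonneg m) hp
  have hp1 : 1 ≤ pe (m + 1) := by
    have : (2 : ℝ) ≤ m := by exact_mod_cast (by omega : 2 ≤ m)
    linarith
  obtain ⟨C, hC0, hC⟩ := bl20_slice (by omega : 1 ≤ m) hp a hs
  have hcomp : IsCompact (closedBall a s) := isCompact_closedBall a s
  set Kq : ℝ := (∫ x in closedBall a s, kd (D x) ^ (2 * (m + 1) - 1)) ^
    (1 / (2 * ((m + 1 : ℕ) : ℝ))) with hKq
  have hKq0 : 0 ≤ Kq := by
    apply Real.rpow_nonneg
    have hpos : ∀ᵐ x ∂(volume.restrict (closedBall a s)),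
      0 ≤ (D x).det ∧ ((D x).det = 0 → D x = 0) := ae_restrict_of_ae_restrict_of_subset hsΩ h.pos
    apply integral_nonneg_of_ae
    filter_upwards [hpos] with x hx
    exact pow_nonneg (kd_nonneg hx.1) _
  refine ⟨C * Kq, mul_nonneg hC0 hKq0, ?_⟩
  intro i t1 t2 ht hcov ε hε
  obtain ⟨F, hF, hFu, hFj, Φ, hΦ, hb⟩ := moll (by omega : 1 ≤ m + 1) h.isOpen h.cont h.meas h.weak
    hp1 (fun K hK hKΩ => (hol2 h (by omega) hK hKΩ).1) hcomp hsΩ
  rw [mem_ball] at hy
  set ρ : ℝ := (r - dist y y₀) / 2 with hρ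
  have hρ0 : 0 < ρ := by rw [hρ]; linarith
  obtain ⟨θ, hθ, hθs, hθ0, hθ1, hθ00, hθi⟩ := logcut (by omega : 2 ≤ m + 1) hρ0 hε
  have hθc : HasCompactSupport θ :=
    HasCompactSupport.of_support_subset_isCompact (isCompact_closedBall (0 : E (m + 1)) ρ)
      ((subset_tsupport θ).trans (hθs.trans ball_subset_closedBall))
  have hcg : Continuous (gr θ) := continuous_gr (hθ.of_le (by simp))
  have hgrc : HasCompactSupport (gr θ) :=
    HasCompactSupport.intro hθc (fun x hx => gr_eq_zero_of_notMem hx)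
  -- the comparison function
  set ψ : E (m + 1) → ℝ := fun z => gr θ (z - y) ^ (m + 1) with hψ
  have hψc : Continuous ψ := (hcg.comp (continuous_id.sub continuous_const)).pow _
  have hψ0 : ∀ z, z ∉ closedBall y ρ → ψ z = 0 := by
    intro z hz
    have h1 : z - y ∉ tsupport θ := by
      intro h2
      apply hz
      have h3 := hθs h2
      rw [mem_ball_zero_iff] at h3
      rw [mem_closedBall, dist_eq_norm]
      exact h3.le
    show gr θ (z - y) ^ (m + 1) = 0
    rw [gr_eq_zero_of_notMem h1, zero_pow (by omega)]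
  have hψts : tsupport ψ ⊆ closedBall y ρ := by
    apply closure_minimal _ isClosed_closedBall
    intro z hz
    by_contra h2
    exact hz (hψ0 z h2)
  have hballsub : closedBall y ρ ⊆ ball y₀ r := by
    intro z hz
    rw [mem_closedBall] at hz
    rw [mem_ball]
    have := dist_triangle z y y₀
    rw [hρ] at hz
    linarith
  have hψcs : HasCompactSupport ψ :=
    HasCompactSupport.of_support_subset_isCompact (isCompact_closedBall y ρ)
      ((subset_tsupport ψ).trans hψts)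
  have hψint := (hdeg ψ hψc hψcs (hψts.trans hballsub)).2
  have hψint2 : ∫ x in closedBall a s, ψ (f x) * (D x).det ≤ ε := by
    have h1 : ∫ x in closedBall a s, ψ (f x) * (D x).det = ∫ x in ball a s, ψ (f x) * (D x).det := by
      apply setIntegral_eq_of_subset_of_forall_sdiff_eq_zero isClosed_closedBall.measurableSet
        ball_subset_closedBall
      intro x hx
      have hx1 : x ∈ sphere a s := by
        rw [mem_sphere]
        have h2 := mem_closedBall.1 hx.1
        have h3 : ¬ dist x a < s := fun h4 => hx.2 (mem_ball.2 h4)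
        exact le_antisymm h2 (not_lt.1 h3)
      rw [hψ0 (f x) (fun h2 => hout x hx1 (ball_subset_closedBall (hballsub h2))), zero_mul]
    rw [h1, hψint]
    have h2 : ∫ z, ψ z = ∫ z, gr θ z ^ (m + 1) :=
      integral_sub_right_eq_self (fun z => gr θ z ^ (m + 1)) y
    rw [h2]
    exact hθi
  -- lower bound for large k
  obtain ⟨η, hη0, hη⟩ : ∃ η > 0, ∀ z : E (m + 1), dist z 0 < η → dist (θ z) (θ 0) < 1 / 2 :=
    Metric.continuous_iff.1 hθ.continuous 0 (1 / 2) (by norm_num)
  have hev : ∀ᶠ k in atTop, t2 - t1 ≤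
      C * ∫ x in closedBall a s, (gr θ (F k x - y) * sn (jac (F k) x)) ^ pe (m + 1) := by
    have hu := Metric.tendstoUniformlyOn_iff.1 hFu (min ρ η) (lt_min hρ0 hη0)
    filter_upwards [hu] with k hk
    set v : E (m + 1) → ℝ := fun x => θ (F k x - y) with hv
    have hvc : ContDiff ℝ ∞ v := hθ.comp ((hF k).sub contDiff_const)
    have hvc1 : ContDiff ℝ 1 v := hvc.of_le (by simp)
    have hv0 : ∀ x ∈ sphere a s, v x = 0 := by
      intro x hx
      have h1 := hk x (sphere_subset_closedBall hx)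
      have h2 : ¬ dist (f x) y₀ ≤ r := fun h3 => hout x hx (mem_closedBall.2 h3)
      have h3 : ρ < dist (F k x) y := by
        have h4 := dist_triangle (f x) y y₀
        have h5 := dist_triangle (f x) (F k x) y
        have h6 : dist (f x) (F k x) < ρ := lt_of_lt_of_le h1 (min_le_left _ _)
        rw [hρ] at h6 ⊢
        linarith [not_le.1 h2]
      show θ (F k x - y) = 0
      apply image_eq_zero_of_notMem_tsupport
      intro h4
      have h5 := hθs h4
      rw [mem_ball_zero_iff, ← dist_eq_norm] at h5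
      linarith
    have hv1 : ∀ t ∈ Icc t1 t2, ∃ x ∈ closedBall a s, x i = t ∧ 1 / 2 ≤ v x := by
      intro t htt
      obtain ⟨x, ⟨hxb, hxy⟩, hxt⟩ := hcov t htt
      refine ⟨x, ball_subset_closedBall hxb, hxt, ?_⟩
      have h1 := hk x (ball_subset_closedBall hxb)
      have h2 : dist (F k x - y) 0 < η := by
        rw [dist_zero_right, ← dist_eq_norm, ← hxy, dist_comm]
        exact lt_of_lt_of_le h1 (min_le_right _ _)
      have h3 := hη _ h2
      rw [hθ00, Real.dist_eq, abs_lt] at h3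
      show 1 / 2 ≤ θ (F k x - y)
      linarith [h3.1]
    refine (hC v hvc1 hv0 i t1 t2 ht hv1).trans (mul_le_mul_of_nonneg_left ?_ hC0)
    have hcont1 : Continuous fun x => gr v x ^ pe (m + 1) :=
      (continuous_gr hvc1).rpow_const (fun x => Or.inr hp0.le)
    have hcont2 : Continuous fun x => (gr θ (F k x - y) * sn (jac (F k) x)) ^ pe (m + 1) := by
      have h1 : Continuous fun x => gr θ (F k x - y) :=
        hcg.comp ((hF k).continuous.sub continuous_const)
      have h2 : Continuous fun x => sn (jac (F k) x) :=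
        continuous_sn.comp (continuous_jac ((hF k).of_le (by simp)))
      exact (h1.mul h2).rpow_const (fun x => Or.inr hp0.le)
    apply setIntegral_mono_on (hcont1.continuousOn.integrableOn_compact hcomp)
      (hcont2.continuousOn.integrableOn_compact hcomp) isClosed_closedBall.measurableSet
    intro x _
    exact Real.rpow_le_rpow (gr_nonneg _ _) (bl20_chain hθ (hF k) y x) hp0.le
  have hlim := bl20_limit hcomp hp0 hθ hθc y hF hFu hFj hΦ hb
  have hle : t2 - t1 ≤
      C * ∫ x in closedBall a s, (gr θ (f x - y) * sn (D x)) ^ pe (m + 1) :=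
    ge_of_tendsto (hlim.const_mul C) hev
  refine hle.trans ?_
  rw [mul_assoc]
  refine mul_le_mul_of_nonneg_left ?_ hC0
  have hhol := bl20_holder hn h hcomp hsΩ (g := fun z => gr θ (z - y))
    (hcg.comp (continuous_id.sub continuous_const)) (fun z => gr_nonneg _ _)
  refine hhol.trans ?_
  rw [mul_comm]
  refine mul_le_mul_of_nonneg_left ?_ hKq0
  have hn1 : (1 : ℝ) ≤ ((m + 1 : ℕ) : ℝ) := by exact_mod_cast (by omega : 1 ≤ m + 1)
  refine Real.rpow_le_rpow ?_ hψint2 ?_
  · have hpos : ∀ᵐ x ∂(volume.restrict (closedBall a s)),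
      0 ≤ (D x).det ∧ ((D x).det = 0 → D x = 0) := ae_restrict_of_ae_restrict_of_subset hsΩ h.pos
    apply integral_nonneg_of_ae
    filter_upwards [hpos] with x hx
    exact mul_nonneg (pow_nonneg (gr_nonneg _ _) _) hx.1
  · have : 1 / (2 * ((m + 1 : ℕ) : ℝ)) ≤ 1 := by
      rw [div_le_one (by positivity)]
      linarith
    linarith

theorem fibre_point {n : ℕ} (hn : 3 ≤ n) {f : E n → E n} {D : E n → Matrix (Fin n) (Fin n) ℝ}
    {Ω : Set (E n)} (h : FDMap f D Ω) {a : E n} {s : ℝ} (hs : 0 < s) (hsΩ : closedBall a s ⊆ Ω)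
    {y₀ : E n} {r : ℝ} (hr : 0 < r) (hout : ∀ x ∈ sphere a s, f x ∉ closedBall y₀ r)
    (hdeg : ∀ ψ : E n → ℝ, Continuous ψ → HasCompactSupport ψ → tsupport ψ ⊆ ball y₀ r →
      IntegrableOn (fun x => ψ (f x) * (D x).det) (ball a s) ∧
      ∫ x in ball a s, ψ (f x) * (D x).det = ∫ z, ψ z)
    {y : E n} (hy : y ∈ ball y₀ r) (hconn : IsPreconnected {x | x ∈ ball a s ∧ f x = y}) :
    {x | x ∈ ball a s ∧ f x = y}.Subsingleton := by
  obtain ⟨C, hC0, hC⟩ := bl20_eps hn h hs hsΩ hr hout hdeg hy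
  have hnR : (3 : ℝ) ≤ n := by exact_mod_cast hn
  set α : ℝ := 1 - 1 / (2 * (n : ℝ)) with hα
  have hα0 : 0 < α := by
    have : 1 / (2 * (n : ℝ)) < 1 := by
      rw [div_lt_one (by positivity)]
      linarith
    linarith
  have key : ∀ z1 ∈ {x | x ∈ ball a s ∧ f x = y}, ∀ z2 ∈ {x | x ∈ ball a s ∧ f x = y},
      ∀ i, ¬ z1 i < z2 i := by
    intro z1 hz1 z2 hz2 i hlt
    have himg : IsPreconnected ((fun x : E n => x i) '' {x | x ∈ ball a s ∧ f x = y}) :=
      hconn.image _ (continuous_apply i).continuousOn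
    have hIcc := himg.Icc_subset ⟨z1, hz1, rfl⟩ ⟨z2, hz2, rfl⟩
    have hcov : ∀ t ∈ Icc (z1 i) (z2 i), ∃ x, (x ∈ ball a s ∧ f x = y) ∧ x i = t := by
      intro t ht
      obtain ⟨x, hx, hxt⟩ := hIcc ht
      exact ⟨x, hx, hxt⟩
    have hδ : 0 < z2 i - z1 i := by linarith
    set δ : ℝ := z2 i - z1 i with hδd
    have hb0 : 0 < δ / (2 * (C + 1)) := by positivity
    have h1 := hC i (z1 i) (z2 i) hlt.le hcov ((δ / (2 * (C + 1))) ^ (1 / α)) (by positivity)
    rw [← Real.rpow_mul hb0.le, one_div_mul_cancel hα0.ne', Real.rpow_one] at h1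
    have h2 : C * (δ / (2 * (C + 1))) < δ := by
      rw [mul_div_assoc', div_lt_iff₀ (by positivity)]
      nlinarith
    linarith
  intro x1 hx1 x2 hx2
  ext i
  exact le_antisymm (not_lt.1 (key x2 hx2 x1 hx1 i)) (not_lt.1 (key x1 hx1 x2 hx2 i))

end H930.BL.XFibrePt

namespace H930.BL

export XFibrePt (fibre_point)

end H930.BL
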