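import Pool.Agent.Helper930.BL.Defs2

set_option autoImplicit false

open MeasureTheory Metric Set Filter Topology
open scoped ENNReal NNReal ContDiff

namespace H930.BL

theorem en_eq {n : ℕ} (x : E n) : en x = ‖(WithLp.toLp 2 x : EuclideanSpace ℝ (Fin n))‖ := by
  rw [EuclideanSpace.norm_eq]
  unfold en
  simp [Real.norm_eq_abs, sq_abs]

theorem norm_le_en {n : ℕ} (x : E n) : ‖x‖ ≤ ‖(WithLp.toLp 2 x : EuclideanSpace ℝ (Fin n))‖ := by
  rw [pi_norm_le_iff_of_nonneg (norm_nonneg _)]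
  intro i
  exact PiLp.norm_apply_le (p := 2) (WithLp.toLp 2 x : EuclideanSpace ℝ (Fin n)) i

theorem eucl_dist_le {n : ℕ} (x y : E n) :
    dist (WithLp.toLp 2 x : EuclideanSpace ℝ (Fin n)) (WithLp.toLp 2 y) ≤ (n : ℝ) * dist x y := by
  rw [EuclideanSpace.dist_eq]
  have h1 : ∀ i, dist (x i) (y i) ≤ dist x y := fun i => dist_le_pi_dist x y i
  have h2 : ∑ i, dist ((WithLp.toLp 2 x : EuclideanSpace ℝ (Fin n)) i)
      ((WithLp.toLp 2 y : EuclideanSpace ℝ (Fin n)) i) ^ 2 ≤ ((n : ℝ) * dist x y) ^ 2 := by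
    calc ∑ i, dist ((WithLp.toLp 2 x : EuclideanSpace ℝ (Fin n)) i)
          ((WithLp.toLp 2 y : EuclideanSpace ℝ (Fin n)) i) ^ 2
        ≤ ∑ _i : Fin n, (dist x y) ^ 2 := by
          refine Finset.sum_le_sum fun i _ => ?_
          exact pow_le_pow_left₀ dist_nonneg (h1 i) 2
      _ = (n : ℝ) * (dist x y) ^ 2 := by simp
      _ ≤ ((n : ℝ) * dist x y) ^ 2 := by
          rw [mul_pow]
          refine mul_le_mul_of_nonneg_right ?_ (sq_nonneg _)
          have : (n : ℝ) = 0 ∨ 1 ≤ (n : ℝ) := by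
            rcases Nat.eq_zero_or_pos n with h | h
            · left; simp [h]
            · right; exact_mod_cast h
          rcases this with h | h
          · simp [h]
          · nlinarith
  calc Real.sqrt _ ≤ Real.sqrt (((n : ℝ) * dist x y) ^ 2) := Real.sqrt_le_sqrt h2
    _ = (n : ℝ) * dist x y := Real.sqrt_sq (by positivity)

/-- from a coordinate version to the final statement -/
theorem final {n : ℕ} {f : EuclideanSpace ℝ (Fin n) → EuclideanSpace ℝ (Fin n)}
    (hf : ContinuousOn f (Metric.ball 0 1)) {y : E n} {r : ℝ}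
    (h : Univ (fun (x : E n) (i : Fin n) => f (WithLp.toLp 2 x) i) (Bn n 1) y r) :
    ∃ y : EuclideanSpace ℝ (Fin n), ∃ U ⊆ Metric.ball (0 : EuclideanSpace ℝ (Fin n)) 1,
      IsOpen U ∧ ∃ h : U ≃ₜ Metric.ball y r, ∀ x : U,
        ((h x : EuclideanSpace ℝ (Fin n))) = f x := by
  obtain ⟨U, g, hU, hUs, hg, hg1, hg2⟩ := h
  have hval : ∀ x : EuclideanSpace ℝ (Fin n),
      (fun i => f (WithLp.toLp 2 (WithLp.ofLp x)) i) = WithLp.ofLp (f x) := by
    intro x; rfl
  have hball : ∀ z ∈ Metric.ball (WithLp.toLp 2 y : EuclideanSpace ℝ (Fin n)) r,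
      WithLp.ofLp z ∈ ball y r := by
    intro z hz
    rw [mem_ball, dist_eq_norm] at hz ⊢
    refine lt_of_le_of_lt ?_ hz
    have := norm_le_en (WithLp.ofLp z - y)
    simpa using this
  have hUb : ∀ x : EuclideanSpace ℝ (Fin n), WithLp.ofLp x ∈ U → x ∈ Metric.ball 0 1 := by
    intro x hx
    have h1 := hUs hx
    have h2 : en (WithLp.ofLp x) < 1 := h1
    rw [en_eq] at h2
    simpa using h2
  have hcl : Continuous (fun x : EuclideanSpace ℝ (Fin n) => WithLp.ofLp x) :=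
    PiLp.continuous_ofLp 2 _
  have hct : Continuous (fun x : E n => (WithLp.toLp 2 x : EuclideanSpace ℝ (Fin n))) :=
    PiLp.continuous_toLp 2 _
  set V : Set (EuclideanSpace ℝ (Fin n)) :=
    {x | WithLp.ofLp x ∈ U ∧ f x ∈ Metric.ball (WithLp.toLp 2 y) r} with hV
  have hVopen : IsOpen V := by
    have h1 : IsOpen {x : EuclideanSpace ℝ (Fin n) | WithLp.ofLp x ∈ U} := hU.preimage hcl
    have h2 : ContinuousOn f {x : EuclideanSpace ℝ (Fin n) | WithLp.ofLp x ∈ U} :=
      hf.mono fun x hx => hUb x hx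
    have hB : IsOpen (Metric.ball (WithLp.toLp 2 y : EuclideanSpace ℝ (Fin n)) r) := isOpen_ball
    have h3 : IsOpen ({x : EuclideanSpace ℝ (Fin n) | WithLp.ofLp x ∈ U} ∩
        f ⁻¹' Metric.ball (WithLp.toLp 2 y : EuclideanSpace ℝ (Fin n)) r) :=
      h2.isOpen_inter_preimage h1 hB
    have h4 : V = ({x : EuclideanSpace ℝ (Fin n) | WithLp.ofLp x ∈ U} ∩
        f ⁻¹' Metric.ball (WithLp.toLp 2 y : EuclideanSpace ℝ (Fin n)) r) := by
      ext x
      simp only [hV, Set.mem_inter_iff, Set.mem_preimage, Set.mem_ofPred_eq]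
    rw [h4]
    exact h3
  have hG : ∀ z ∈ Metric.ball (WithLp.toLp 2 y : EuclideanSpace ℝ (Fin n)) r,
      g (WithLp.ofLp z) ∈ U ∧ f (WithLp.toLp 2 (g (WithLp.ofLp z))) = z := by
    intro z hz
    have h1 := hg1 (WithLp.ofLp z) (hball z hz)
    refine ⟨h1.1, ?_⟩
    apply WithLp.ofLp_injective 2
    exact h1.2
  have hG2 : ∀ x ∈ V, WithLp.toLp 2 (g (WithLp.ofLp (f x))) = x := by
    intro x hx
    have h1 : g (WithLp.ofLp (f x)) = WithLp.ofLp x := (hg2 (WithLp.ofLp x) hx.1).2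
    rw [h1]
  have hGV : ∀ z ∈ Metric.ball (WithLp.toLp 2 y : EuclideanSpace ℝ (Fin n)) r,
      (WithLp.toLp 2 (g (WithLp.ofLp z)) : EuclideanSpace ℝ (Fin n)) ∈ V := by
    intro z hz
    obtain ⟨h1, h2⟩ := hG z hz
    refine ⟨h1, ?_⟩
    rw [h2]
    exact hz
  have hc1 : Continuous (fun x : V => (⟨f x, x.2.2⟩ : Metric.ball (WithLp.toLp 2 y) r)) :=
    Continuous.subtype_mk ((hf.mono fun x (hx : x ∈ V) => hUb x hx.1).restrict) _
  have hc2 : Continuous (fun z : Metric.ball (WithLp.toLp 2 y : EuclideanSpace ℝ (Fin n)) r =>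
      (⟨WithLp.toLp 2 (g (WithLp.ofLp z.1)), hGV z.1 z.2⟩ : V)) := by
    refine Continuous.subtype_mk ?_ _
    refine hct.comp ?_
    refine hg.comp_continuous (hcl.comp continuous_subtype_val) ?_
    intro z
    exact hball _ z.2
  refine ⟨WithLp.toLp 2 y, V, fun x hx => hUb x hx.1, hVopen, ?_⟩
  refine ⟨{ toFun := fun x => ⟨f x, x.2.2⟩
            invFun := fun z => ⟨WithLp.toLp 2 (g (WithLp.ofLp z.1)), hGV z.1 z.2⟩
            left_inv := fun x => Subtype.ext (hG2 x.1 x.2)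
            right_inv := fun z => Subtype.ext (hG z.1 z.2).2
            continuous_toFun := hc1
            continuous_invFun := hc2 }, fun x => rfl⟩

theorem diam_bound {n : ℕ} {f : EuclideanSpace ℝ (Fin n) → EuclideanSpace ℝ (Fin n)}
    (hf : ContinuousOn f (Metric.ball 0 1)) (hd : Metric.diam (f '' Metric.ball 0 (1 / 2)) = 1) :
    1 ≤ (n : ℝ) * Metric.diam
      ((fun (x : E n) (i : Fin n) => f (WithLp.toLp 2 x) i) '' Bn n (1 / 2)) := by
  have hb : Bornology.IsBounded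
      ((fun (x : E n) (i : Fin n) => f (WithLp.toLp 2 x) i) '' Bn n (1 / 2)) := by
    have h1 : IsCompact (f '' closedBall (0 : EuclideanSpace ℝ (Fin n)) (1 / 2)) :=
      (isCompact_closedBall _ _).image_of_continuousOn
        (hf.mono (closedBall_subset_ball (by norm_num)))
    have h2 : IsCompact ((fun x : EuclideanSpace ℝ (Fin n) => WithLp.ofLp x) ''
        (f '' closedBall (0 : EuclideanSpace ℝ (Fin n)) (1 / 2))) :=
      h1.image (PiLp.continuous_ofLp 2 _)
    refine h2.isBounded.subset ?_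
    rintro _ ⟨x, hx, rfl⟩
    refine ⟨f (WithLp.toLp 2 x), ⟨WithLp.toLp 2 x, ?_, rfl⟩, rfl⟩
    have : en x < 1 / 2 := hx
    rw [en_eq] at this
    rw [mem_closedBall, dist_zero_right]
    exact this.le
  refine le_trans (le_of_eq hd.symm) ?_
  refine Metric.diam_le_of_forall_dist_le (by positivity) ?_
  rintro _ ⟨x, hx, rfl⟩ _ ⟨z, hz, rfl⟩
  have h1 := eucl_dist_le (WithLp.ofLp (f x)) (WithLp.ofLp (f z))
  have h2 : dist (WithLp.ofLp (f x)) (WithLp.ofLp (f z)) ≤ Metric.diam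
      ((fun (x : E n) (i : Fin n) => f (WithLp.toLp 2 x) i) '' Bn n (1 / 2)) := by
    refine Metric.dist_le_diam_of_mem hb ⟨WithLp.ofLp x, ?_, rfl⟩ ⟨WithLp.ofLp z, ?_, rfl⟩
    · show en _ < _
      rw [en_eq]
      simpa using hx
    · show en _ < _
      rw [en_eq]
      simpa using hz
  calc dist (f x) (f z) ≤ (n : ℝ) * dist (WithLp.ofLp (f x)) (WithLp.ofLp (f z)) := by simpa using h1
    _ ≤ _ := mul_le_mul_of_nonneg_left h2 (by positivity)

end H930.BL
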