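import Pool.Agent.Helper930.BL.J09b
import Pool.Agent.Helper930.BL.J10
import Pool.Agent.Helper930.BL.J21
import Pool.Agent.Helper930.BL.J08

set_option autoImplicit false

open MeasureTheory Metric Set Filter Topology
open scoped ENNReal NNReal ContDiff

namespace H930.BL


theorem gid_local {n : ℕ} {f : E n → E n} {D : E n → Matrix (Fin n) (Fin n) ℝ} {Ω : Set (E n)}
    (hn : 2 ≤ n) (hΩ : IsOpen Ω) (hf : ContinuousOn f Ω)
    (hD : ∀ i j, Measurable fun x => D x i j)
    (hW : ∀ φ : E n → ℝ, ContDiff ℝ ∞ φ → HasCompactSupport φ → tsupport φ ⊆ Ω →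
      ∀ i j, ∫ x, f x i * pd φ j x = - ∫ x, D x i j * φ x)
    (hpos : ∀ᵐ x ∂(volume.restrict Ω), 0 ≤ (D x).det ∧ ((D x).det = 0 → D x = 0))
    (hJ : ∀ K, IsCompact K → K ⊆ Ω → IntegrableOn (fun x => (D x).det) K)
    {l : ℝ} (hl : 0 < l)
    (hexp : ∀ K, IsCompact K → K ⊆ Ω → IntegrableOn (fun x => Real.exp (l * kk (D x))) K)
    {a : E n} {R : ℝ} (hR : 0 < R) (haR : closedBall a (2 * R) ⊆ Ω)
    {η : E n → ℝ} (hη : ContDiff ℝ ∞ η) (hηs : tsupport η ⊆ closedBall a (R / 2))
    {ψ : E n → ℝ} (hψ : ContDiff ℝ ∞ ψ) (hψc : HasCompactSupport ψ) (i : Fin n) :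
    ∫ x, η x * pd ψ i (f x) * (D x).det =
      - ∫ x, ψ (f x) * ∑ j, (D x).adjugate j i * pd η j x := by
  classical
  have hfhm : Measurable (Ω.indicator f) := by
    have := ContinuousOn.measurable_piecewise (f := f) (g := fun _ => (0 : E n)) hf
      continuousOn_const hΩ.measurableSet
    rw [← Set.piecewise_eq_indicator]
    exact this
  have hfeq : ∀ x ∈ Ω, Ω.indicator f x = f x := fun x hx => indicator_of_mem hx f
  have hB : IsCompact (closedBall a (2 * R)) := isCompact_closedBall a _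
  have hRR : closedBall a R ⊆ closedBall a (2 * R) := closedBall_subset_closedBall (by linarith)
  have hR2 : closedBall a (R / 2) ⊆ closedBall a R := closedBall_subset_closedBall (by linarith)
  have hfi : ∀ i, IntegrableOn (fun x => Ω.indicator f x i) (closedBall a (2 * R)) := by
    intro i
    have h1 : ContinuousOn (fun x => f x i) (closedBall a (2 * R)) :=
      (continuous_apply i).comp_continuousOn (hf.mono haR)
    refine (h1.integrableOn_compact hB).congr_fun ?_ isClosed_closedBall.measurableSet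
    intro x hx
    show f x i = Ω.indicator f x i
    rw [hfeq x (haR hx)]
  have hW' : ∀ φ : E n → ℝ, ContDiff ℝ ∞ φ → tsupport φ ⊆ closedBall a (2 * R) →
      ∀ i j, ∫ x, Ω.indicator f x i * pd φ j x = - ∫ x, D x i j * φ x := by
    intro φ hφ hφs i j
    rw [← hW φ hφ (hB.of_isClosed_subset (isClosed_tsupport _) hφs) (hφs.trans haR) i j]
    apply integral_congr_ae
    refine Eventually.of_forall fun x => ?_
    by_cases hx : x ∈ Ω
    · show Ω.indicator f x i * pd φ j x = f x i * pd φ j x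
      rw [hfeq x hx]
    · have : pd φ j x = 0 := pd_eq_zero_of_notMem (fun h => hx (haR (hφs h))) j
      show Ω.indicator f x i * pd φ j x = f x i * pd φ j x
      rw [this, mul_zero, mul_zero]
  obtain ⟨_, hsn, hzyg, _⟩ := integrability_facts hn hD hB hl (hJ _ hB haR)
    (ae_restrict_of_ae_restrict_of_subset haR hpos) (hexp _ hB haR)
  obtain ⟨F, hF, hconv, Φ, hΦ, hdom⟩ := mollification (by omega : 1 ≤ n) hfhm hD hR hfi hW'
    (by omega : 1 ≤ n - 1) hsn
  obtain ⟨C, hC, hadj⟩ := sn_adj_le (n := n) (by omega)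
  have hmain := identity_B hn hfhm hD hR hF (Φ := fun x => C * Φ x) (hΦ.const_mul C) hconv
    (by
      filter_upwards [hdom] with x hx k
      exact (hadj _).trans (mul_le_mul_of_nonneg_left (hx k) hC.le))
    ((hJ _ hB haR).mono_set hRR) (hzyg.mono_set hRR) hη hηs hψ hψc i
  have e1 : ∫ x in closedBall a R, η x * pd ψ i (Ω.indicator f x) * (D x).det =
      ∫ x, η x * pd ψ i (f x) * (D x).det := by
    have e2 : ∫ x in closedBall a R, η x * pd ψ i (Ω.indicator f x) * (D x).det =
        ∫ x in closedBall a R, η x * pd ψ i (f x) * (D x).det := by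
      apply setIntegral_congr_fun isClosed_closedBall.measurableSet
      intro x hx
      show η x * pd ψ i (Ω.indicator f x) * (D x).det = η x * pd ψ i (f x) * (D x).det
      rw [hfeq x (haR (hRR hx))]
    rw [e2]
    apply setIntegral_eq_integral_of_forall_compl_eq_zero
    intro x hx
    have : x ∉ tsupport η := fun h => hx (hR2 (hηs h))
    rw [image_eq_zero_of_notMem_tsupport this, zero_mul, zero_mul]
  have e3 : ∫ x in closedBall a R, ψ (Ω.indicator f x) * ∑ j, (D x).adjugate j i * pd η j x =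
      ∫ x, ψ (f x) * ∑ j, (D x).adjugate j i * pd η j x := by
    have e2 : ∫ x in closedBall a R, ψ (Ω.indicator f x) * ∑ j, (D x).adjugate j i * pd η j x =
        ∫ x in closedBall a R, ψ (f x) * ∑ j, (D x).adjugate j i * pd η j x := by
      apply setIntegral_congr_fun isClosed_closedBall.measurableSet
      intro x hx
      show ψ (Ω.indicator f x) * _ = ψ (f x) * _
      rw [hfeq x (haR (hRR hx))]
    rw [e2]
    apply setIntegral_eq_integral_of_forall_compl_eq_zero
    intro x hx
    have h1 : x ∉ tsupport η := fun h => hx (hR2 (hηs h))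
    have : ∑ j, (D x).adjugate j i * pd η j x = 0 :=
      Finset.sum_eq_zero fun j _ => by rw [pd_eq_zero_of_notMem h1 j, mul_zero]
    rw [this, mul_zero]
  rw [← e1, ← e3]
  exact hmain

theorem gid_local2 {n : ℕ} {f : E n → E n} {D : E n → Matrix (Fin n) (Fin n) ℝ} {Ω : Set (E n)}
    (hn : 2 ≤ n) (hΩ : IsOpen Ω) (hf : ContinuousOn f Ω)
    (hD : ∀ i j, Measurable fun x => D x i j)
    (hW : ∀ φ : E n → ℝ, ContDiff ℝ ∞ φ → HasCompactSupport φ → tsupport φ ⊆ Ω →
      ∀ i j, ∫ x, f x i * pd φ j x = - ∫ x, D x i j * φ x)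
    (hpos : ∀ᵐ x ∂(volume.restrict Ω), 0 ≤ (D x).det ∧ ((D x).det = 0 → D x = 0))
    (hJ : ∀ K, IsCompact K → K ⊆ Ω → IntegrableOn (fun x => (D x).det) K)
    {l : ℝ} (hl : 0 < l)
    (hexp : ∀ K, IsCompact K → K ⊆ Ω → IntegrableOn (fun x => Real.exp (l * kk (D x))) K)
    {a : E n} {R : ℝ} (hR : 0 < R) (haR : closedBall a (2 * R) ⊆ Ω)
    {η : E n → ℝ} (hη : ContDiff ℝ ∞ η) (hηs : tsupport η ⊆ closedBall a (R / 2))
    {ψ : E n → ℝ} (hψ : ContDiff ℝ ∞ ψ) (i : Fin n) :
    ∫ x, η x * pd ψ i (f x) * (D x).det =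
      - ∫ x, ψ (f x) * ∑ j, (D x).adjugate j i * pd η j x := by
  classical
  have hηΩ : tsupport η ⊆ Ω :=
    hηs.trans ((closedBall_subset_closedBall (by linarith)).trans haR)
  have hηK : IsCompact (tsupport η) :=
    (isCompact_closedBall a (R/2)).of_isClosed_subset (isClosed_tsupport _) hηs
  have hK : IsCompact (f '' tsupport η) := hηK.image_of_continuousOn (hf.mono hηΩ)
  obtain ⟨r, hr0, hr⟩ : ∃ r : ℝ, 0 < r ∧ f '' tsupport η ⊆ closedBall 0 r := by
    obtain ⟨r, hr⟩ := hK.isBounded.subset_closedBall 0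
    refine ⟨max r 1, by positivity, hr.trans (closedBall_subset_closedBall (le_max_left _ _))⟩
  obtain ⟨_, _, hcut⟩ := cutoff n
  obtain ⟨b, hb, -, -, hb1, hb0, -⟩ := hcut 0 (r + 1) 1 (by positivity) one_pos
  have hψb : ContDiff ℝ ∞ (fun y => ψ y * b y) := hψ.mul hb
  have hψbc : HasCompactSupport (fun y => ψ y * b y) := by
    refine HasCompactSupport.intro (isCompact_closedBall (0 : E n) (r + 1 + 1)) ?_
    intro x hx
    rw [hb0 x hx, mul_zero]
  have hmain := gid_local hn hΩ hf hD hW hpos hJ hl hexp hR haR hη hηs hψb hψbc i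
  have hv : ∀ x ∈ tsupport η, (fun y => ψ y * b y) =ᶠ[𝓝 (f x)] ψ := by
    intro x hx
    have h1 : f x ∈ ball (0 : E n) (r + 1) := by
      have := hr (mem_image_of_mem f hx)
      rw [mem_closedBall] at this
      rw [mem_ball]
      linarith
    filter_upwards [isOpen_ball.mem_nhds h1] with y hy
    rw [hb1 y (ball_subset_closedBall hy), mul_one]
  have e1 : ∫ x, η x * pd ψ i (f x) * (D x).det =
      ∫ x, η x * pd (fun y => ψ y * b y) i (f x) * (D x).det := by
    apply integral_congr_ae
    refine Eventually.of_forall fun x => ?_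
    show η x * pd ψ i (f x) * (D x).det = η x * pd (fun y => ψ y * b y) i (f x) * (D x).det
    by_cases hx : x ∈ tsupport η
    · congr 2
      unfold pd
      rw [(hv x hx).fderiv_eq]
    · rw [image_eq_zero_of_notMem_tsupport hx]
      simp
  have e2 : ∫ x, ψ (f x) * ∑ j, (D x).adjugate j i * pd η j x =
      ∫ x, (fun y => ψ y * b y) (f x) * ∑ j, (D x).adjugate j i * pd η j x := by
    apply integral_congr_ae
    refine Eventually.of_forall fun x => ?_
    show ψ (f x) * _ = (fun y => ψ y * b y) (f x) * _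
    by_cases hx : x ∈ tsupport η
    · have h1 : (fun y => ψ y * b y) (f x) = ψ (f x) := (hv x hx).eq_of_nhds
      rw [h1]
    · have : ∑ j, (D x).adjugate j i * pd η j x = 0 :=
        Finset.sum_eq_zero fun j _ => by rw [pd_eq_zero_of_notMem hx j, mul_zero]
      rw [this, mul_zero, mul_zero]
  rw [e1, e2]
  exact hmain


theorem gid {n : ℕ} {f : E n → E n} {D : E n → Matrix (Fin n) (Fin n) ℝ} {Ω : Set (E n)}
    (hn : 2 ≤ n) (hΩ : IsOpen Ω) (hf : ContinuousOn f Ω)
    (hD : ∀ i j, Measurable fun x => D x i j)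
    (hW : ∀ φ : E n → ℝ, ContDiff ℝ ∞ φ → HasCompactSupport φ → tsupport φ ⊆ Ω →
      ∀ i j, ∫ x, f x i * pd φ j x = - ∫ x, D x i j * φ x)
    (hpos : ∀ᵐ x ∂(volume.restrict Ω), 0 ≤ (D x).det ∧ ((D x).det = 0 → D x = 0))
    (hJ : ∀ K, IsCompact K → K ⊆ Ω → IntegrableOn (fun x => (D x).det) K)
    {l : ℝ} (hl : 0 < l)
    (hexp : ∀ K, IsCompact K → K ⊆ Ω → IntegrableOn (fun x => Real.exp (l * kk (D x))) K)
    {η : E n → ℝ} (hη : ContDiff ℝ ∞ η) (hηc : HasCompactSupport η) (hηs : tsupport η ⊆ Ω)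
    {ψ : E n → ℝ} (hψ : ContDiff ℝ ∞ ψ) (i : Fin n) :
    ∫ x, η x * pd ψ i (f x) * (D x).det =
      - ∫ x, ψ (f x) * ∑ j, (D x).adjugate j i * pd η j x := by
  classical
  have hηK : IsCompact (tsupport η) := hηc
  -- measurability of minors
  have hdetm : ∀ A : E n → Matrix (Fin n) (Fin n) ℝ, (∀ i j, Measurable fun x => A x i j) →
      Measurable fun x => (A x).det := by
    intro A hA
    simp_rw [Matrix.det_apply']
    refine Finset.measurable_sum _ fun σ _ => ?_
    refine Measurable.mul measurable_const ?_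
    exact Finset.measurable_prod _ fun k _ => hA _ _
  have hadjm : ∀ j, Measurable fun x => (D x).adjugate j i := by
    intro j
    simp_rw [Matrix.adjugate_apply]
    apply hdetm
    intro k m
    by_cases hk : k = i
    · subst hk
      simp_rw [Matrix.updateRow_self]
      exact measurable_const
    · simp_rw [Matrix.updateRow_ne hk]
      exact hD k m
  obtain ⟨C, hC, hadj⟩ := sn_adj_le (n := n) (by omega)
  have hadji : ∀ K, IsCompact K → K ⊆ Ω → ∀ j, IntegrableOn (fun x => (D x).adjugate j i) K := by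
    intro K hK hKΩ j
    obtain ⟨_, hsn, _, _⟩ := integrability_facts hn hD hK hl (hJ _ hK hKΩ)
      (ae_restrict_of_ae_restrict_of_subset hKΩ hpos) (hexp _ hK hKΩ)
    refine Integrable.mono' (hsn.const_mul C) (hadjm j).aestronglyMeasurable ?_
    refine Eventually.of_forall fun x => ?_
    rw [Real.norm_eq_abs]
    exact (abs_entry_le_sn _ _ _).trans (hadj _)
  have hψ1 : ContDiff ℝ 1 ψ := hψ.of_le (by exact_mod_cast le_top)
  have hintL : ∀ ζ : E n → ℝ, ContDiff ℝ ∞ ζ → IsCompact (tsupport ζ) → tsupport ζ ⊆ Ω →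
      Integrable fun x => ζ x * pd ψ i (f x) * (D x).det := by
    intro ζ hζ hζK hζΩ
    have h1 : IntegrableOn (fun x => ζ x * pd ψ i (f x) * (D x).det) (tsupport ζ) := by
      have h2 : ContinuousOn (fun x => ζ x * pd ψ i (f x)) (tsupport ζ) :=
        hζ.continuous.continuousOn.mul
          ((continuous_pd hψ1 i).comp_continuousOn (hf.mono hζΩ))
      exact IntegrableOn.continuousOn_mul h2 (hJ _ hζK hζΩ) hζK
    rw [integrableOn_iff_integrable_of_support_subset] at h1
    · exact h1
    · intro x hx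
      by_contra h
      apply hx
      show ζ x * pd ψ i (f x) * (D x).det = 0
      rw [image_eq_zero_of_notMem_tsupport h, zero_mul, zero_mul]
  have hintR : ∀ ζ : E n → ℝ, ContDiff ℝ ∞ ζ → IsCompact (tsupport ζ) → tsupport ζ ⊆ Ω →
      Integrable fun x => ψ (f x) * ∑ j, (D x).adjugate j i * pd ζ j x := by
    intro ζ hζ hζK hζΩ
    have hζ1 : ContDiff ℝ 1 ζ := hζ.of_le (by exact_mod_cast le_top)
    have h1 : IntegrableOn (fun x => ψ (f x) * ∑ j, (D x).adjugate j i * pd ζ j x)
        (tsupport ζ) := by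
      have h2 : ∀ x, ψ (f x) * ∑ j, (D x).adjugate j i * pd ζ j x =
          ∑ j, (ψ (f x) * pd ζ j x) * (D x).adjugate j i := by
        intro x
        rw [Finset.mul_sum]
        exact Finset.sum_congr rfl fun j _ => by ring
      simp_rw [h2]
      apply integrable_finsetSum
      intro j _
      have h3 : ContinuousOn (fun x => ψ (f x) * pd ζ j x) (tsupport ζ) :=
        (hψ.continuous.comp_continuousOn (hf.mono hζΩ)).mul
          (continuous_pd hζ1 j).continuousOn
      exact IntegrableOn.continuousOn_mul h3 (hadji _ hζK hζΩ j) hζK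
    rw [integrableOn_iff_integrable_of_support_subset] at h1
    · exact h1
    · intro x hx
      by_contra h
      apply hx
      show ψ (f x) * ∑ j, (D x).adjugate j i * pd ζ j x = 0
      have : ∑ j, (D x).adjugate j i * pd ζ j x = 0 :=
        Finset.sum_eq_zero fun j _ => by rw [pd_eq_zero_of_notMem h j, mul_zero]
      rw [this, mul_zero]
  -- the cover
  have hrad : ∀ x : E n, ∃ R : ℝ, 0 < R ∧ (x ∈ tsupport η → closedBall x (2 * R) ⊆ Ω) := by
    intro x
    by_cases hx : x ∈ tsupport η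
    · obtain ⟨ε, hε, h⟩ := Metric.isOpen_iff.1 hΩ x (hηs hx)
      exact ⟨ε / 4, by positivity, fun _ => (closedBall_subset_ball (by linarith)).trans h⟩
    · exact ⟨1, one_pos, fun h => absurd h hx⟩
  choose R hR0 hR using hrad
  obtain ⟨t, ht, htc⟩ := hηK.elim_nhds_subcover (fun x => ball x (R x / 2))
    (fun x _ => ball_mem_nhds x (by have := hR0 x; positivity))
  obtain ⟨θ, hθ⟩ := SmoothPartitionOfUnity.exists_isSubordinate (modelWithCornersSelf ℝ (E n))
    (isClosed_tsupport η) (fun x : t => ball (x : E n) (R x / 2)) (fun _ => isOpen_ball) (by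
      intro x hx
      obtain ⟨y, hy, hxy⟩ := mem_iUnion₂.1 (htc hx)
      exact mem_iUnion.2 ⟨⟨y, hy⟩, hxy⟩)
  have hθs : ∀ k : t, ContDiff ℝ ∞ (θ k) := fun k => (θ k).contMDiff.contDiff
  have hks : ∀ k : t, ContDiff ℝ ∞ (fun x => η x * θ k x) := fun k => hη.mul (hθs k)
  have hkt : ∀ k : t, tsupport (fun x => η x * θ k x) ⊆ tsupport η := fun k =>
    tsupport_mul_subset_left
  have hkb : ∀ k : t, tsupport (fun x => η x * θ k x) ⊆ closedBall (k : E n) (R k / 2) := fun k =>
    (tsupport_mul_subset_right.trans (hθ k)).trans ball_subset_closedBall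
  have hkK : ∀ k : t, IsCompact (tsupport (fun x => η x * θ k x)) := fun k =>
    hηK.of_isClosed_subset (isClosed_tsupport _) (hkt k)
  have hsum : ∀ x, η x = ∑ k : t, η x * θ k x := by
    intro x
    by_cases hx : x ∈ tsupport η
    · have h1 := θ.sum_eq_one hx
      rw [finsum_eq_sum_of_fintype] at h1
      rw [← Finset.mul_sum, h1, mul_one]
    · simp [image_eq_zero_of_notMem_tsupport hx]
  have hsumpd : ∀ j x, pd η j x = ∑ k : t, pd (fun x => η x * θ k x) j x := by
    intro j x
    have h1 : η = fun x => ∑ k : t, η x * θ k x := funext hsum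
    conv_lhs => rw [h1]
    unfold pd
    rw [fderiv_fun_sum]
    · rw [_root_.sum_apply]
    · intro k _
      exact (hks k).differentiable (by simp) x
  have hterm : ∀ k : t, ∫ x, (η x * θ k x) * pd ψ i (f x) * (D x).det =
      - ∫ x, ψ (f x) * ∑ j, (D x).adjugate j i * pd (fun x => η x * θ k x) j x := fun k =>
    gid_local2 hn hΩ hf hD hW hpos hJ hl hexp (hR0 k) (hR k (ht k k.2)) (hks k) (hkb k) hψ i
  calc ∫ x, η x * pd ψ i (f x) * (D x).det
      = ∫ x, ∑ k : t, (η x * θ k x) * pd ψ i (f x) * (D x).det := by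
        apply integral_congr_ae
        refine Eventually.of_forall fun x => ?_
        show η x * pd ψ i (f x) * (D x).det = _
        conv_lhs => rw [hsum x]
        rw [Finset.sum_mul, Finset.sum_mul]
    _ = ∑ k : t, ∫ x, (η x * θ k x) * pd ψ i (f x) * (D x).det := by
        rw [integral_finsetSum]
        intro k _
        exact hintL _ (hks k) (hkK k) ((hkt k).trans hηs)
    _ = ∑ k : t, - ∫ x, ψ (f x) * ∑ j, (D x).adjugate j i * pd (fun x => η x * θ k x) j x :=
        Finset.sum_congr rfl fun k _ => hterm k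
    _ = - ∫ x, ∑ k : t, ψ (f x) * ∑ j, (D x).adjugate j i * pd (fun x => η x * θ k x) j x := by
        rw [Finset.sum_neg_distrib, integral_finsetSum]
        intro k _
        exact hintR _ (hks k) (hkK k) ((hkt k).trans hηs)
    _ = - ∫ x, ψ (f x) * ∑ j, (D x).adjugate j i * pd η j x := by
        congr 1
        apply integral_congr_ae
        refine Eventually.of_forall fun x => ?_
        show ∑ k : t, ψ (f x) * ∑ j, (D x).adjugate j i * pd (fun x => η x * θ k x) j x =
          ψ (f x) * ∑ j, (D x).adjugate j i * pd η j x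
        rw [← Finset.mul_sum, Finset.sum_comm]
        congr 1
        refine Finset.sum_congr rfl fun j _ => ?_
        rw [hsumpd j x, Finset.mul_sum]


end H930.BL
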