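import Pool.Agent.Helper930.BL.MainQ

set_option autoImplicit false

open MeasureTheory Metric Set Filter Topology
open scoped ENNReal NNReal ContDiff

namespace H930.BL.XGrowthMain

variable {n : ℕ}



lemma en_eq (x : E n) : en x = ‖(WithLp.toLp 2 x : EuclideanSpace ℝ (Fin n))‖ := by
  rw [EuclideanSpace.norm_eq]
  unfold en
  congr 1
  refine Finset.sum_congr rfl fun i _ => ?_
  simp

lemma en_nonneg (x : E n) : 0 ≤ en x := Real.sqrt_nonneg _

lemma en_add_le (x y : E n) : en (x + y) ≤ en x + en y := by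
  rw [en_eq, en_eq, en_eq, WithLp.toLp_add]
  exact norm_add_le _ _

lemma en_smul (c : ℝ) (x : E n) : en (c • x) = |c| * en x := by
  rw [en_eq, en_eq, WithLp.toLp_smul, norm_smul, Real.norm_eq_abs]

lemma abs_le_en (x : E n) (i : Fin n) : |x i| ≤ en x := by
  unfold en
  rw [← Real.sqrt_sq_eq_abs]
  exact Real.sqrt_le_sqrt (Finset.single_le_sum (f := fun i => x i ^ 2)
    (fun _ _ => sq_nonneg _) (Finset.mem_univ i))

lemma norm_le_en (x : E n) : ‖x‖ ≤ en x :=
  (pi_norm_le_iff_of_nonneg (en_nonneg x)).2 fun i => abs_le_en x i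

lemma en_le (x : E n) : en x ≤ n * ‖x‖ := by
  unfold en
  rw [Real.sqrt_le_left (by positivity)]
  have h1 : ∀ i ∈ (Finset.univ : Finset (Fin n)), x i ^ 2 ≤ ‖x‖ ^ 2 := by
    intro i _
    have := norm_le_pi_norm x i
    rw [Real.norm_eq_abs] at this
    rw [← sq_abs]
    exact pow_le_pow_left₀ (abs_nonneg _) this 2
  have h2 := Finset.sum_le_sum h1
  refine h2.trans ?_
  simp only [Finset.sum_const, Finset.card_univ, Fintype.card_fin, nsmul_eq_mul]
  have h3 : (n : ℝ) ≤ (n : ℝ) ^ 2 := by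
    have : n ≤ n ^ 2 := Nat.le_self_pow (by norm_num) n
    exact_mod_cast this
  rw [mul_pow]
  exact mul_le_mul_of_nonneg_right h3 (sq_nonneg _)

lemma continuous_en : Continuous (en : E n → ℝ) := by
  unfold en
  fun_prop

lemma isCompact_enle (R : ℝ) : IsCompact {x : E n | en x ≤ R} := by
  refine Metric.isCompact_of_isClosed_isBounded (isClosed_le continuous_en continuous_const) ?_
  rw [isBounded_iff_forall_norm_le]
  exact ⟨R, fun x hx => (norm_le_en x).trans hx⟩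

theorem growth_main {n : ℕ} (hn : 3 ≤ n) (A : ℕ → ℝ) : ∃ r : ℝ, 0 < r ∧
    ∀ (f : E n → E n) (D : E n → Matrix (Fin n) (Fin n) ℝ), FDMap f D (Bn n 1) →
    (∀ (q : ℕ) (K : Set (E n)), IsCompact K → K ⊆ Bn n 1 → ∫ x in K, kd (D x) ^ q ≤ A q) →
    1 ≤ (n : ℝ) * Metric.diam (f '' Bn n (1 / 2)) →
    ∃ y, Univ f (Bn n 1) y r := by
  obtain ⟨ρ₀, hρ₀, hρ₀', hmain⟩ := mainq hn (fun q => (2 * (n : ℝ)) ^ n * max (A q) 0)
  have hn0 : (0 : ℝ) < n := by
    have : 0 < n := by omega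
    exact_mod_cast this
  have hn1 : (1 : ℝ) ≤ n := by
    have : 1 ≤ n := by omega
    exact_mod_cast this
  obtain ⟨c, hcdef⟩ : ∃ c, c = min ρ₀ (min (1 / 64) (1 / (8 * (n : ℝ)))) := ⟨_, rfl⟩
  have hc0 : 0 < c := by
    rw [hcdef]
    have : 0 < 1 / (8 * (n : ℝ)) := by positivity
    refine lt_min hρ₀ (lt_min (by norm_num) this)
  have hc1 : c ≤ ρ₀ := by rw [hcdef]; exact min_le_left _ _
  have hc2 : c ≤ 1 / 64 := by rw [hcdef]; exact (min_le_right _ _).trans (min_le_left _ _)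
  have hc3 : c ≤ 1 / (8 * (n : ℝ)) := by
    rw [hcdef]; exact (min_le_right _ _).trans (min_le_right _ _)
  refine ⟨1 / n * Real.exp (-1 - 1 / c), by positivity, ?_⟩
  intro f D hFD hA hdiam
  -- boundedness
  have hbdd : ∀ R, R < 1 → Bornology.IsBounded (f '' Bn n R) := by
    intro R hR
    have hsub : {x : E n | en x ≤ R} ⊆ Bn n 1 := fun x hx => lt_of_le_of_lt hx hR
    have h1 : IsCompact (f '' {x : E n | en x ≤ R}) :=
      (isCompact_enle R).image_of_continuousOn (hFD.cont.mono hsub)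
    exact h1.isBounded.subset (image_mono fun x (hx : en x < R) => hx.le)
  have hmono : ∀ R R', 1 / 2 ≤ R → R ≤ R' → R' ≤ 3 / 4 →
      (n : ℝ) * Metric.diam (f '' Bn n R) ≤ (n : ℝ) * Metric.diam (f '' Bn n R') := by
    intro R R' _ h2 h3
    refine mul_le_mul_of_nonneg_left ?_ hn0.le
    refine Metric.diam_mono (image_mono fun x (hx : en x < R) => lt_of_lt_of_le hx h2) ?_
    exact hbdd R' (by linarith)
  obtain ⟨R, hR1, hR2, hR3⟩ := growth (t := fun R => (n : ℝ) * Metric.diam (f '' Bn n R))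
    hmono hdiam hc0 hc2
  obtain ⟨T, hT⟩ : ∃ T, T = (n : ℝ) * Metric.diam (f '' Bn n R) := ⟨_, rfl⟩
  simp only [← hT] at hR2 hR3
  obtain ⟨ρ, hρ⟩ : ∃ ρ, ρ = c / (1 + Real.log T) ^ 2 := ⟨_, rfl⟩
  rw [← hρ] at hR2 hR3
  have hR34 : R ≤ 3 / 4 := by
    have : 0 ≤ ρ := by rw [hρ]; positivity
    linarith
  have hT1 : 1 ≤ T := by
    rw [hT]
    exact hdiam.trans (hmono (1 / 2) R le_rfl hR1 hR34)
  have hlog : 0 ≤ Real.log T := Real.log_nonneg hT1
  have hρ0 : 0 < ρ := by rw [hρ]; positivity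
  have hρc : ρ ≤ c := by
    rw [hρ, div_le_iff₀ (by positivity)]
    have : 1 ≤ (1 + Real.log T) ^ 2 := by nlinarith
    nlinarith
  have hT0 : 0 < T := by linarith
  -- two points
  obtain ⟨x, hx, y, hy, hxy⟩ : ∃ x ∈ Bn n R, ∃ y ∈ Bn n R, T / (2 * n) < dist (f x) (f y) := by
    by_contra hcon
    push Not at hcon
    have h1 : Metric.diam (f '' Bn n R) ≤ T / (2 * n) := by
      refine Metric.diam_le_of_forall_dist_le (by positivity) ?_
      rintro _ ⟨x, hx, rfl⟩ _ ⟨y, hy, rfl⟩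
      exact hcon x hx y hy
    have h2 : T ≤ n * (T / (2 * n)) := by
      conv_lhs => rw [hT]
      exact mul_le_mul_of_nonneg_left h1 hn0.le
    have h3 : n * (T / (2 * n)) = T / 2 := by field_simp
    linarith
  obtain ⟨a, ha⟩ : ∃ a, a = ρ / (2 * n) := ⟨_, rfl⟩
  have ha0 : 0 < a := by rw [ha]; positivity
  have ha1 : a ≤ 1 / 2 := by
    rw [ha, div_le_iff₀ (by positivity)]
    nlinarith
  obtain ⟨N, hN⟩ : ∃ N : ℕ, N = ⌈3 / (2 * a)⌉₊ := ⟨_, rfl⟩
  have hN1 : 3 / (2 * a) ≤ N := by rw [hN]; exact Nat.le_ceil _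
  have hN2 : (N : ℝ) ≤ 2 / a := by
    have h1 : (N : ℝ) < 3 / (2 * a) + 1 := by rw [hN]; exact Nat.ceil_lt_add_one (by positivity)
    have h2 : 3 / (2 * a) + 1 ≤ 2 / a := by
      rw [div_add_one (by positivity), div_le_div_iff₀ (by positivity) ha0]
      nlinarith
    linarith
  have hN0 : (0 : ℝ) < N := lt_of_lt_of_le (by positivity) hN1
  have hN3 : 3 / 2 ≤ a * N := by
    rw [div_le_iff₀ (by positivity)] at hN1
    linarith
  -- chain
  obtain ⟨ξ, hξ⟩ : ∃ ξ : ℕ → E n, ξ = fun j : ℕ => x + ((j : ℝ) / N) • (y - x) := ⟨_, rfl⟩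
  have hξ0 : ξ 0 = x := by rw [hξ]; simp
  have hξN : ξ N = y := by
    rw [hξ]
    show x + ((N : ℝ) / N) • (y - x) = y
    rw [div_self hN0.ne']
    simp
  obtain ⟨j, hjN, hj⟩ : ∃ j < N, T / (2 * n) / N ≤ dist (f (ξ j)) (f (ξ (j + 1))) := by
    by_contra hcon
    push Not at hcon
    have h1 := dist_le_range_sum_dist (fun j => f (ξ j)) N
    have h2 : ∑ i ∈ Finset.range N, dist (f (ξ i)) (f (ξ (i + 1)))
        ≤ ∑ i ∈ Finset.range N, T / (2 * n) / N :=
      Finset.sum_le_sum fun i hi => (hcon i (Finset.mem_range.1 hi)).le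
    have h3 : ∑ i ∈ Finset.range N, T / (2 * n) / N = T / (2 * n) := by
      rw [Finset.sum_const, Finset.card_range, nsmul_eq_mul]
      field_simp
    simp only [hξ0, hξN] at h1
    linarith
  obtain ⟨p, hp⟩ : ∃ p, p = ξ j := ⟨_, rfl⟩
  obtain ⟨w, hw⟩ : ∃ w, w = ξ (j + 1) := ⟨_, rfl⟩
  rw [← hp, ← hw] at hj
  have hpR : en p < R := by
    have h1 : p = (1 - (j : ℝ) / N) • x + ((j : ℝ) / N) • y := by
      rw [hp, hξ]
      simp only [smul_sub, sub_smul, one_smul]
      abel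
    have hj0 : 0 ≤ (j : ℝ) / N := by positivity
    have hj1 : (j : ℝ) / N < 1 := by
      rw [div_lt_one hN0]
      exact_mod_cast hjN
    have h2 := en_add_le ((1 - (j : ℝ) / N) • x) (((j : ℝ) / N) • y)
    rw [← h1, en_smul, en_smul, abs_of_nonneg hj0, abs_of_nonneg (by linarith)] at h2
    have hx' : en x < R := hx
    have hy' : en y < R := hy
    nlinarith
  have hwp : ‖w - p‖ ≤ a := by
    have h1 : w - p = ((1 : ℝ) / N) • (y - x) := by
      rw [hp, hw, hξ]
      simp only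
      push_cast
      rw [add_div, add_smul]
      abel
    rw [h1, norm_smul, Real.norm_eq_abs, abs_of_nonneg (by positivity)]
    have h2 : ‖y - x‖ ≤ 3 / 2 := by
      have h3 := norm_sub_le y x
      have h4 := norm_le_en x
      have h5 := norm_le_en y
      have hx' : en x < R := hx
      have hy' : en y < R := hy
      linarith
    rw [one_div, inv_mul_le_iff₀ hN0]
    linarith
  have hballsub : ∀ z ∈ closedBall (0 : E n) 4, en (p + a • z) < R + 2 * ρ := by
    intro z hz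
    rw [mem_closedBall_zero_iff] at hz
    have h1 := en_add_le p (a • z)
    have h2 := en_le (a • z)
    rw [norm_smul, Real.norm_eq_abs, abs_of_pos ha0] at h2
    have h3 : (n : ℝ) * (a * ‖z‖) ≤ 2 * ρ := by
      have : (n : ℝ) * (a * 4) = 2 * ρ := by
        rw [ha]; field_simp; norm_num
      rw [← this]
      gcongr
    linarith
  have hpB : p ∈ Bn n 1 := by
    show en p < 1
    linarith
  obtain ⟨μ, hμ⟩ : ∃ μ, μ = n / T := ⟨_, rfl⟩
  have hμ0 : 0 < μ := by rw [hμ]; positivity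
  have hFD' := rescale hFD (by omega) ha0 hμ0 p (f p)
  have hsubΩ : closedBall (0 : E n) 4 ⊆ {z | p + a • z ∈ Bn n 1} := by
    intro z hz
    show en (p + a • z) < 1
    have := hballsub z hz
    linarith
  -- some coordinate
  have hcoord : ∃ i, T * ρ / (8 * n ^ 2) ≤ |f p i - f w i| := by
    by_contra hcon
    push Not at hcon
    have h1 : ‖f p - f w‖ < T * ρ / (8 * n ^ 2) := by
      rw [pi_norm_lt_iff (by positivity)]
      intro i
      rw [Real.norm_eq_abs]
      exact hcon i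
    rw [← dist_eq_norm] at h1
    have h2 : T * ρ / (8 * n ^ 2) ≤ T / (2 * n) / N := by
      rw [le_div_iff₀ hN0]
      have h4 : T * ρ / (8 * n ^ 2) * N ≤ T * ρ / (8 * n ^ 2) * (2 / a) := by gcongr
      refine h4.trans (le_of_eq ?_)
      rw [ha]
      field_simp
      norm_num
    linarith
  obtain ⟨i, hi⟩ := hcoord
  have hbound : ∀ z ∈ closedBall (0 : E n) 4, ∀ i, |(μ • (f (p + a • z) - f p)) i| ≤ 3 := by
    intro z hz i
    have h1 : dist (f (p + a • z)) (f p) ≤ Metric.diam (f '' Bn n (R + 2 * ρ)) := by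
      refine Metric.dist_le_diam_of_mem (hbdd _ (by linarith)) ?_ ?_
      · exact mem_image_of_mem _ (hballsub z hz)
      · refine mem_image_of_mem _ ?_
        show en p < R + 2 * ρ
        linarith
    have h2 : |(f (p + a • z) - f p) i| ≤ dist (f (p + a • z)) (f p) := by
      rw [dist_eq_norm]
      exact norm_le_pi_norm (f (p + a • z) - f p) i
    rw [Pi.smul_apply, smul_eq_mul, abs_mul, abs_of_pos hμ0]
    have h3 : μ * |(f (p + a • z) - f p) i| ≤ μ * Metric.diam (f '' Bn n (R + 2 * ρ)) :=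
      mul_le_mul_of_nonneg_left (h2.trans h1) hμ0.le
    have h4 : μ * Metric.diam (f '' Bn n (R + 2 * ρ)) ≤ Real.exp 1 := by
      rw [hμ, div_mul_eq_mul_div, div_le_iff₀ hT0]
      exact hR3
    have h5 := Real.exp_one_lt_d9
    linarith
  have hosc : ∃ x ∈ closedBall (0 : E n) 1, ∃ y ∈ closedBall (0 : E n) 1, ∃ i,
      ρ ^ 2 ≤ |(μ • (f (p + a • x) - f p)) i - (μ • (f (p + a • y) - f p)) i| := by
    refine ⟨0, by simp, a⁻¹ • (w - p), ?_, i, ?_⟩
    · rw [mem_closedBall_zero_iff, norm_smul, Real.norm_eq_abs, abs_of_pos (by positivity),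
        inv_mul_le_iff₀ ha0]
      linarith
    · have h1 : p + a • a⁻¹ • (w - p) = w := by
        rw [smul_smul, mul_inv_cancel₀ ha0.ne', one_smul]
        abel
      rw [h1]
      simp only [smul_zero, add_zero, sub_self, Pi.zero_apply, Pi.smul_apply, Pi.sub_apply,
        smul_eq_mul, mul_zero, zero_sub, abs_neg, abs_mul, abs_of_pos hμ0]
      rw [abs_sub_comm] at hi
      have h2 : μ * (T * ρ / (8 * n ^ 2)) ≤ μ * |f w i - f p i| :=
        mul_le_mul_of_nonneg_left hi hμ0.le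
      refine le_trans ?_ h2
      have h3 : μ * (T * ρ / (8 * n ^ 2)) = ρ * (1 / (8 * n)) := by
        rw [hμ]
        field_simp
      rw [h3, sq]
      exact mul_le_mul_of_nonneg_left (hρc.trans hc3) hρ0.le
  have hmom : ∀ q : ℕ, ∫ x in closedBall (0 : E n) 4, kd ((μ * a) • D (p + a • x)) ^ q
      ≤ ((2 * (n : ℝ)) ^ n * max (A q) 0) * (ρ ^ n)⁻¹ := by
    intro q
    have h1 : ∀ x, kd ((μ * a) • D (p + a • x)) ^ q = kd (D (p + a • x)) ^ q := by
      intro x
      rw [kd_smul (mul_pos hμ0 ha0)]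
    simp only [h1]
    rw [setIntegral_affine ha0 p (fun x => kd (D x) ^ q) 4]
    have hKsub : closedBall p (a * 4) ⊆ Bn n 1 := by
      intro x hx
      rw [mem_closedBall, dist_eq_norm] at hx
      have h2 : a⁻¹ • (x - p) ∈ closedBall (0 : E n) 4 := by
        rw [mem_closedBall_zero_iff, norm_smul, Real.norm_eq_abs, abs_of_pos (by positivity),
          inv_mul_le_iff₀ ha0]
        exact hx
      have h3 := hsubΩ h2
      have h4 : p + a • a⁻¹ • (x - p) = x := by
        rw [smul_smul, mul_inv_cancel₀ ha0.ne', one_smul]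
        abel
      simpa only [mem_ofPred_eq, h4] using h3
    have h2 := hA q (closedBall p (a * 4)) (isCompact_closedBall _ _) hKsub
    have h3 : (a ^ n)⁻¹ = (2 * (n : ℝ)) ^ n * (ρ ^ n)⁻¹ := by
      rw [ha, div_pow, inv_div, div_eq_mul_inv]
    rw [h3]
    have h4 : ∫ x in closedBall p (a * 4), kd (D x) ^ q ≤ max (A q) 0 := h2.trans (le_max_left _ _)
    have h5 : 0 ≤ (2 * (n : ℝ)) ^ n * (ρ ^ n)⁻¹ := by positivity
    calc (2 * (n : ℝ)) ^ n * (ρ ^ n)⁻¹ * ∫ x in closedBall p (a * 4), kd (D x) ^ q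
        ≤ (2 * (n : ℝ)) ^ n * (ρ ^ n)⁻¹ * max (A q) 0 := mul_le_mul_of_nonneg_left h4 h5
      _ = _ := by ring
  obtain ⟨y', hy'⟩ := hmain ρ hρ0 (hρc.trans hc1) _ _ _ hFD' hsubΩ hbound hosc hmom
  have hU1 := univ_mono hy' (hFD'.cont.mono hsubΩ) le_rfl hsubΩ
  have hU2 := univ_rescale ha0 hμ0 p (f p) y' _ hU1
  refine ⟨_, univ_mono hU2 hFD.cont ?_ subset_rfl⟩
  have h1 := radius_bound hc0 hT1
  rw [← hρ] at h1
  have h2 : μ⁻¹ = 1 / n * T := by
    rw [hμ, inv_div]
    ring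
  rw [h2, mul_assoc]
  exact mul_le_mul_of_nonneg_left h1 (by positivity)

end H930.BL.XGrowthMain

namespace H930.BL

export XGrowthMain (growth_main)

end H930.BL
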