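import Pool.Agent.Helper930.BL.Defs

set_option autoImplicit false

open MeasureTheory Metric Set Filter Topology
open scoped ENNReal NNReal ContDiff

namespace H930.BL


theorem sn_pow_eq {n : ℕ} (hn : 1 ≤ n) {M : Matrix (Fin n) (Fin n) ℝ} (h0 : 0 ≤ M.det)
    (h1 : M.det = 0 → M = 0) : sn M ^ n = kd M * M.det := by
  by_cases h : M.det = 0
  · have h2 : sn M = 0 := by rw [h1 h]; simp [sn]
    rw [h, h2, mul_zero, zero_pow (by omega)]
  · unfold kd
    rw [if_neg h, div_mul_cancel₀ _ h]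

theorem kd_nonneg {n : ℕ} {M : Matrix (Fin n) (Fin n) ℝ} (h0 : 0 ≤ M.det) : 0 ≤ kd M := by
  unfold kd
  split_ifs
  · exact zero_le_one
  · exact div_nonneg (pow_nonneg (sn_nonneg M) _) h0

theorem meas_sn' {n : ℕ} {D : E n → Matrix (Fin n) (Fin n) ℝ}
    (hD : ∀ i j, Measurable fun x => D x i j) : Measurable fun x => sn (D x) := by
  unfold sn
  exact Finset.measurable_fun_sum _ fun i _ => Finset.measurable_fun_sum _ fun j _ =>
    continuous_abs.measurable.comp (hD i j)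

theorem meas_det' {n : ℕ} {D : E n → Matrix (Fin n) (Fin n) ℝ}
    (hD : ∀ i j, Measurable fun x => D x i j) : Measurable fun x => (D x).det := by
  simp only [Matrix.det_apply']
  exact Finset.measurable_fun_sum _ fun σ _ =>
    (Finset.measurable_fun_prod _ fun i _ => hD (σ i) i).const_mul _

theorem meas_kd {n : ℕ} {D : E n → Matrix (Fin n) (Fin n) ℝ}
    (hD : ∀ i j, Measurable fun x => D x i j) : Measurable fun x => kd (D x) := by
  unfold kd
  exact Measurable.ite ((meas_det' hD) (measurableSet_singleton (0 : ℝ))) measurable_const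
    (((meas_sn' hD).pow_const n).div (meas_det' hD))

/-- the pointwise identity behind Hölder -/
theorem sn_rpow_eq {n k : ℕ} (hn : 1 ≤ n) (hk : 1 ≤ k) {M : Matrix (Fin n) (Fin n) ℝ}
    (h0 : 0 ≤ M.det) (h1 : M.det = 0 → M = 0) (hkn : 2 ≤ k * n) :
    sn M ^ ((n : ℝ) - 1 / (k : ℝ)) =
      M.det ^ (1 - 1 / ((k : ℝ) * (n : ℝ))) * (kd M ^ (k * n - 1)) ^ (1 / ((k : ℝ) * (n : ℝ))) := by
  have hn' : (0 : ℝ) < n := by exact_mod_cast hn
  have hk' : (0 : ℝ) < k := by exact_mod_cast hk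
  have hN : (2 : ℝ) ≤ (k : ℝ) * n := by exact_mod_cast hkn
  have hN0 : (0 : ℝ) < (k : ℝ) * n := by linarith
  have ht : (0 : ℝ) < 1 - 1 / ((k : ℝ) * (n : ℝ)) := by
    rw [sub_pos, div_lt_one hN0]; linarith
  have hexp : (n : ℝ) - 1 / (k : ℝ) = n * (1 - 1 / ((k : ℝ) * (n : ℝ))) := by field_simp
  have hkd := kd_nonneg h0
  have hsn := sn_nonneg M
  rcases h0.eq_or_lt with h | h
  · have h2 : sn M = 0 := by rw [h1 h.symm]; simp [sn]
    rw [← h, h2, Real.zero_rpow ht.ne', zero_mul, hexp, Real.zero_rpow (mul_pos hn' ht).ne']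
  · rw [hexp, Real.rpow_mul hsn, Real.rpow_natCast, sn_pow_eq hn h0 h1, Real.mul_rpow hkd h0,
      mul_comm]
    congr 1
    rw [← Real.rpow_natCast (kd M) (k * n - 1), ← Real.rpow_mul hkd]
    congr 1
    rw [Nat.cast_sub (by omega)]
    push_cast
    field_simp

/-- `sn M ^ (n - 1/k) ≤ det M + kd M ^ (k n - 1)` -/
theorem sn_rpow_le {n k : ℕ} (hn : 1 ≤ n) (hk : 1 ≤ k) {M : Matrix (Fin n) (Fin n) ℝ}
    (h0 : 0 ≤ M.det) (h1 : M.det = 0 → M = 0) (hkn : 2 ≤ k * n) :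
    sn M ^ ((n : ℝ) - 1 / (k : ℝ)) ≤ M.det + kd M ^ (k * n - 1) := by
  have hn' : (0 : ℝ) < n := by exact_mod_cast hn
  have hk' : (0 : ℝ) < k := by exact_mod_cast hk
  have hN : (2 : ℝ) ≤ (k : ℝ) * n := by exact_mod_cast hkn
  have hN0 : (0 : ℝ) < (k : ℝ) * n := by linarith
  have ht : (0 : ℝ) < 1 - 1 / ((k : ℝ) * (n : ℝ)) := by
    rw [sub_pos, div_lt_one hN0]; linarith
  have ht1 : (0 : ℝ) < 1 / ((k : ℝ) * (n : ℝ)) := by positivity
  have hkd : 0 ≤ kd M ^ (k * n - 1) := pow_nonneg (kd_nonneg h0) _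
  rw [sn_rpow_eq hn hk h0 h1 hkn]
  refine (Real.geom_mean_le_arith_mean2_weighted ht.le ht1.le h0 hkd (by ring)).trans ?_
  have h2 : (1 - 1 / ((k : ℝ) * (n : ℝ))) * M.det ≤ 1 * M.det :=
    mul_le_mul_of_nonneg_right (by linarith) h0
  have h3 : (1 / ((k : ℝ) * (n : ℝ))) * kd M ^ (k * n - 1) ≤ 1 * kd M ^ (k * n - 1) :=
    mul_le_mul_of_nonneg_right (by linarith) hkd
  linarith

theorem holk {n k : ℕ} {f : E n → E n} {D : E n → Matrix (Fin n) (Fin n) ℝ} {Ω : Set (E n)}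
    (h : FDMap f D Ω) (hn : 1 ≤ n) (hk : 2 ≤ k) {K : Set (E n)} (hK : IsCompact K) (hKΩ : K ⊆ Ω) :
    IntegrableOn (fun x => sn (D x) ^ ((n : ℝ) - 1 / (k : ℝ))) K ∧
    ∫ x in K, sn (D x) ^ ((n : ℝ) - 1 / (k : ℝ)) ≤
      (∫ x in K, (D x).det) ^ (1 - 1 / ((k : ℝ) * (n : ℝ))) *
      (∫ x in K, kd (D x) ^ (k * n - 1)) ^ (1 / ((k : ℝ) * (n : ℝ))) := by
  have hk1 : 1 ≤ k := by omega
  have hkn : 2 ≤ k * n := by nlinarith
  have hn' : (0 : ℝ) < n := by exact_mod_cast hn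
  have hk' : (0 : ℝ) < k := by exact_mod_cast hk1
  have hN : (2 : ℝ) ≤ (k : ℝ) * n := by exact_mod_cast hkn
  have hN0 : (0 : ℝ) < (k : ℝ) * n := by linarith
  have ht : (0 : ℝ) < 1 - 1 / ((k : ℝ) * (n : ℝ)) := by
    rw [sub_pos, div_lt_one hN0]; linarith
  have hae : ∀ᵐ x ∂(volume.restrict K), 0 ≤ (D x).det ∧ ((D x).det = 0 → D x = 0) :=
    ae_restrict_of_ae_restrict_of_subset hKΩ h.pos
  have hdi := h.det_int K hK hKΩ
  have hki := h.kd_int (k * n - 1) K hK hKΩ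
  have hms : Measurable fun x => sn (D x) ^ ((n : ℝ) - 1 / (k : ℝ)) :=
    (meas_sn' h.meas).pow_const _
  refine ⟨?_, ?_⟩
  · refine Integrable.mono' (hdi.add hki) hms.aestronglyMeasurable ?_
    filter_upwards [hae] with x hx
    rw [Real.norm_eq_abs, abs_of_nonneg (Real.rpow_nonneg (sn_nonneg _) _)]
    exact sn_rpow_le hn hk1 hx.1 hx.2 hkn
  · have e1 : ∫ x in K, sn (D x) ^ ((n : ℝ) - 1 / (k : ℝ)) =
        ∫ x in K, (D x).det ^ (1 - 1 / ((k : ℝ) * (n : ℝ))) *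
          (kd (D x) ^ (k * n - 1)) ^ (1 / ((k : ℝ) * (n : ℝ))) := by
      refine integral_congr_ae ?_
      filter_upwards [hae] with x hx
      exact sn_rpow_eq hn hk1 hx.1 hx.2 hkn
    have hpq : ((1 - 1 / ((k : ℝ) * (n : ℝ)))⁻¹).HolderConjugate ((k : ℝ) * (n : ℝ)) := by
      rw [Real.holderConjugate_iff]
      constructor
      · rw [one_lt_inv₀ ht]
        have : (0 : ℝ) < 1 / ((k : ℝ) * (n : ℝ)) := by positivity
        linarith
      · rw [inv_inv]
        have : ((k : ℝ) * (n : ℝ))⁻¹ = 1 / ((k : ℝ) * (n : ℝ)) := by rw [one_div]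
        rw [this]; ring
    have hF : ∀ᵐ x ∂(volume.restrict K),
        ((D x).det ^ (1 - 1 / ((k : ℝ) * (n : ℝ)))) ^ (1 - 1 / ((k : ℝ) * (n : ℝ)))⁻¹ = (D x).det := by
      filter_upwards [hae] with x hx
      exact Real.rpow_rpow_inv hx.1 ht.ne'
    have hG : ∀ᵐ x ∂(volume.restrict K),
        ((kd (D x) ^ (k * n - 1)) ^ (1 / ((k : ℝ) * (n : ℝ)))) ^ ((k : ℝ) * (n : ℝ)) =
          kd (D x) ^ (k * n - 1) := by
      filter_upwards [hae] with x hx
      rw [one_div]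
      exact Real.rpow_inv_rpow (pow_nonneg (kd_nonneg hx.1) _) hN0.ne'
    have hFm : Measurable fun x => (D x).det ^ (1 - 1 / ((k : ℝ) * (n : ℝ))) :=
      (meas_det' h.meas).pow_const _
    have hGm : Measurable fun x => (kd (D x) ^ (k * n - 1)) ^ (1 / ((k : ℝ) * (n : ℝ))) :=
      ((meas_kd h.meas).pow_const _).pow_const _
    have hF0 : ∀ᵐ x ∂(volume.restrict K), 0 ≤ (D x).det ^ (1 - 1 / ((k : ℝ) * (n : ℝ))) := by
      filter_upwards [hae] with x hx
      exact Real.rpow_nonneg hx.1 _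
    have hG0 : ∀ᵐ x ∂(volume.restrict K),
        0 ≤ (kd (D x) ^ (k * n - 1)) ^ (1 / ((k : ℝ) * (n : ℝ))) := by
      filter_upwards [hae] with x hx
      exact Real.rpow_nonneg (pow_nonneg (kd_nonneg hx.1) _) _
    have hFL : MemLp (fun x => (D x).det ^ (1 - 1 / ((k : ℝ) * (n : ℝ))))
        (ENNReal.ofReal (1 - 1 / ((k : ℝ) * (n : ℝ)))⁻¹) (volume.restrict K) := by
      have hp : (0 : ℝ) < (1 - 1 / ((k : ℝ) * (n : ℝ)))⁻¹ := inv_pos.2 ht
      rw [← integrable_norm_rpow_iff hFm.aestronglyMeasurable (by simpa using hp)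
        ENNReal.ofReal_ne_top, ENNReal.toReal_ofReal hp.le]
      refine hdi.congr ?_
      filter_upwards [hF, hF0] with x hx hx0
      rw [Real.norm_eq_abs, abs_of_nonneg hx0, hx]
    have hGL : MemLp (fun x => (kd (D x) ^ (k * n - 1)) ^ (1 / ((k : ℝ) * (n : ℝ))))
        (ENNReal.ofReal ((k : ℝ) * (n : ℝ))) (volume.restrict K) := by
      rw [← integrable_norm_rpow_iff hGm.aestronglyMeasurable (ENNReal.ofReal_pos.2 hN0).ne'
        ENNReal.ofReal_ne_top, ENNReal.toReal_ofReal hN0.le]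
      refine hki.congr ?_
      filter_upwards [hG, hG0] with x hx hx0
      rw [Real.norm_eq_abs, abs_of_nonneg hx0, hx]
    have hh := integral_mul_le_Lp_mul_Lq_of_nonneg hpq hF0 hG0 hFL hGL
    rw [e1]
    refine hh.trans (le_of_eq ?_)
    rw [integral_congr_ae hF, integral_congr_ae hG, one_div (1 - 1 / ((k : ℝ) * (n : ℝ)))⁻¹, inv_inv]

theorem hol2 {n : ℕ} {f : E n → E n} {D : E n → Matrix (Fin n) (Fin n) ℝ} {Ω : Set (E n)}
    (h : FDMap f D Ω) (hn : 1 ≤ n) {K : Set (E n)} (hK : IsCompact K) (hKΩ : K ⊆ Ω) :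
    IntegrableOn (fun x => sn (D x) ^ pe n) K ∧
    ∫ x in K, sn (D x) ^ pe n ≤ (∫ x in K, (D x).det) ^ (1 - 1 / (2 * (n : ℝ))) *
      (∫ x in K, kd (D x) ^ (2 * n - 1)) ^ (1 / (2 * (n : ℝ))) := by
  have := holk (k := 2) h hn le_rfl hK hKΩ
  simp only [Nat.cast_ofNat] at this
  exact this

theorem hol4 {n : ℕ} {f : E n → E n} {D : E n → Matrix (Fin n) (Fin n) ℝ} {Ω : Set (E n)}
    (h : FDMap f D Ω) (hn : 1 ≤ n) {K : Set (E n)} (hK : IsCompact K) (hKΩ : K ⊆ Ω) :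
    IntegrableOn (fun x => sn (D x) ^ pf n) K ∧
    ∫ x in K, sn (D x) ^ pf n ≤ (∫ x in K, (D x).det) ^ (1 - 1 / (4 * (n : ℝ))) *
      (∫ x in K, kd (D x) ^ (4 * n - 1)) ^ (1 / (4 * (n : ℝ))) := by
  have := holk (k := 4) h hn (by norm_num) hK hKΩ
  simp only [Nat.cast_ofNat] at this
  exact this

theorem rpow_le_one_add {s a b : ℝ} (hs : 0 ≤ s) (ha : 0 ≤ a) (hab : a ≤ b) :
    s ^ a ≤ 1 + s ^ b := by
  have h2 : 0 ≤ s ^ b := Real.rpow_nonneg hs _
  rcases le_total s 1 with h | h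
  · have := Real.rpow_le_one hs h ha
    linarith
  · have := Real.rpow_le_rpow_of_exponent_le h hab
    linarith

/-- the entries of `D` are locally integrable -/
theorem D_int {n : ℕ} {f : E n → E n} {D : E n → Matrix (Fin n) (Fin n) ℝ} {Ω : Set (E n)}
    (h : FDMap f D Ω) (hn : 2 ≤ n) {K : Set (E n)} (hK : IsCompact K) (hKΩ : K ⊆ Ω) :
    IntegrableOn (fun x => sn (D x)) K ∧ IntegrableOn (fun x => sn (D x) ^ (n - 1)) K ∧
      ∀ i j, IntegrableOn (fun x => D x i j) K := by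
  have hn' : (2 : ℝ) ≤ n := by exact_mod_cast hn
  have h1 := (hol2 h (by omega) hK hKΩ).1
  have hc : IntegrableOn (fun _ : E n => (1 : ℝ)) K :=
    integrableOn_const hK.measure_lt_top.ne
  have h2 : IntegrableOn (fun x => 1 + sn (D x) ^ pe n) K := hc.add h1
  have h3 : IntegrableOn (fun x => sn (D x)) K := by
    refine Integrable.mono' h2 (meas_sn' h.meas).aestronglyMeasurable ?_
    refine Eventually.of_forall fun x => ?_
    rw [Real.norm_eq_abs, abs_of_nonneg (sn_nonneg _)]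
    have := rpow_le_one_add (a := 1) (b := pe n) (sn_nonneg (D x)) zero_le_one (by unfold pe; linarith)
    rwa [Real.rpow_one] at this
  refine ⟨h3, ?_, fun i j => ?_⟩
  · refine Integrable.mono' h2 ((meas_sn' h.meas).pow_const _).aestronglyMeasurable ?_
    refine Eventually.of_forall fun x => ?_
    rw [Real.norm_eq_abs, abs_of_nonneg (pow_nonneg (sn_nonneg _) _)]
    have := rpow_le_one_add (a := ((n - 1 : ℕ) : ℝ)) (b := pe n) (sn_nonneg (D x))
      (Nat.cast_nonneg _) (by rw [Nat.cast_sub (by omega)]; unfold pe; push_cast; linarith)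
    rwa [Real.rpow_natCast] at this
  · refine Integrable.mono' h3 (h.meas i j).aestronglyMeasurable ?_
    refine Eventually.of_forall fun x => ?_
    rw [Real.norm_eq_abs]
    exact abs_entry_le_sn _ _ _

end H930.BL
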