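import Pool.Agent.Helper930.BL.J02
import Pool.Agent.Helper930.BL.J03
import Pool.Agent.Helper930.BL.J04a

set_option autoImplicit false
open MeasureTheory Metric Set Filter Topology
open scoped ENNReal NNReal ContDiff

namespace H930.BL.J04b









/-- Fatou with a uniform bound -/
lemma fatou_bound {α : Type*} [MeasurableSpace α] {μ : Measure α} {F : ℕ → α → ℝ≥0∞}
    {G : α → ℝ≥0∞} (hF : ∀ m, Measurable (F m))
    (hlim : ∀ᵐ y ∂μ, Tendsto (fun m => F m y) atTop (𝓝 (G y))) {B : ℝ≥0∞}
    (hB : ∀ m, ∫⁻ y, F m y ∂μ ≤ B) : ∫⁻ y, G y ∂μ ≤ B := by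
  have h1 : ∫⁻ y, G y ∂μ = ∫⁻ y, liminf (fun m => F m y) atTop ∂μ := by
    refine lintegral_congr_ae ?_
    filter_upwards [hlim] with y hy using hy.liminf_eq.symm
  rw [h1]
  refine (lintegral_liminf_le hF).trans ?_
  refine (liminf_le_limsup (by isBoundedDefault) (by isBoundedDefault)).trans ?_
  exact limsup_le_of_le (by isBoundedDefault) (Eventually.of_forall hB)

/-- L3. isoperimetric inequality -/
theorem iso {n : ℕ} (hn : 2 ≤ n) : ∃ C : ℝ, 0 < C ∧
    ∀ (f : E n → E n), ContDiff ℝ ∞ f → ∀ (D K : Set (E n)), MeasurableSet D → IsCompact K →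
    D ⊆ K → ∀ (h : ℕ → E n → ℝ), (∀ m, ContDiff ℝ ∞ (h m)) → (∀ m, tsupport (h m) ⊆ K) →
    (∀ m x, |h m x| ≤ 1) →
    (∀ x, Tendsto (fun m => h m x) atTop (𝓝 (D.indicator (fun _ => (1 : ℝ)) x))) →
    ∀ (A : ℝ), (∀ m, ∫ x, gr (h m) x * sn (jac f x).adjugate ≤ A) →
    ∀ (ψ : E n → ℝ) (P : ℝ), Measurable ψ → (∀ y, |ψ y| ≤ P) →
    |∫ x in D, ψ (f x) * (jac f x).det| ≤ C * P * A ^ ((n : ℝ) / ((n : ℝ) - 1)) := by
  obtain ⟨C, hC, hiso⟩ := iso_push hn
  refine ⟨C, hC, ?_⟩
  intro f hf D K hD hK hDK h hh hhK hh1 hlim A hA ψ P hψ hP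
  set q : ℝ := (n : ℝ) / ((n : ℝ) - 1) with hq
  have hn2 : (2 : ℝ) ≤ n := by exact_mod_cast hn
  have hq1 : 1 ≤ q := by
    rw [hq, le_div_iff₀ (by linarith)]; linarith
  have hA0 : 0 ≤ A := by
    refine le_trans (integral_nonneg fun x => ?_) (hA 0)
    refine mul_nonneg ?_ ?_
    · exact Finset.sum_nonneg fun j _ => abs_nonneg _
    · exact Finset.sum_nonneg fun i _ => Finset.sum_nonneg fun j _ => abs_nonneg _
  have hP0 : 0 ≤ P := (abs_nonneg _).trans (hP 0)
  have hJc : Continuous fun x => (jac f x).det := by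
    have h1 : (fun x => (jac f x).det) = fun x => (fderiv ℝ f x).det := by
      funext x; exact (det_fderiv hf x).symm
    rw [h1]
    exact ContinuousLinearMap.continuous_det.comp (hf.continuous_fderiv (by simp))
  have hJK : IntegrableOn (fun x => (jac f x).det) K := hJc.continuousOn.integrableOn_compact hK
  have hJD : IntegrableOn (fun x => (jac f x).det) D := hJK.mono_set hDK
  have hint : IntegrableOn (fun x => (fderiv ℝ f x).det) D := by
    have h1 : (fun x => (fderiv ℝ f x).det) = fun x => (jac f x).det := by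
      funext x; exact det_fderiv hf x
    rw [h1]; exact hJD
  obtain ⟨N, hNm, hNi, hN, -⟩ := area_integer (f := f) (f' := fderiv ℝ f) hD
    (fun x _ => ((hf.differentiable (by simp)) x).hasFDerivAt.hasFDerivWithinAt) hint
  have hN' : ∀ ψ : E n → ℝ, Measurable ψ → (∃ C : ℝ, ∀ y, |ψ y| ≤ C) →
        ∫ x in D, ψ (f x) * (jac f x).det = ∫ y, ψ y * N y := by
    intro ψ h1 h2
    rw [← hN ψ h1 h2]
    refine integral_congr_ae (Eventually.of_forall fun x => ?_)
    simp only [det_fderiv hf x]
  -- first Fatou
  have key : ∀ ρ : E n → ℝ, ContDiff ℝ ∞ ρ → HasCompactSupport ρ → (∀ x, 0 ≤ ρ x) →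
      ∫ x, ρ x = 1 →
      ∫⁻ y, ENNReal.ofReal (|∫ z, ρ (y - z) * (N z : ℝ)| ^ q) ≤ ENNReal.ofReal (C * A ^ q) := by
    intro ρ hρ hρc hρ0 hρ1
    obtain ⟨R, hR⟩ : ∃ R : ℝ, ∀ y, ‖ρ y‖ ≤ R := hρ.continuous.bounded_above_of_compact_support hρc
    refine fatou_bound (F := fun m y => ENNReal.ofReal
      (|∫ x, ρ (y - f x) * (h m x * (jac f x).det)| ^ q)) ?_ ?_ ?_
    · intro m
      refine Measurable.ennreal_ofReal ?_
      refine Measurable.pow_const ?_ _
      have h1 : StronglyMeasurable (Function.uncurry fun (y x : E n) =>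
          ρ (y - f x) * (h m x * (jac f x).det)) := by
        refine Continuous.stronglyMeasurable ?_
        refine Continuous.mul ?_ ?_
        · exact hρ.continuous.comp (continuous_fst.sub (hf.continuous.comp continuous_snd))
        · exact ((hh m).continuous.mul hJc).comp continuous_snd
      have h2 := h1.integral_prod_right (ν := (volume : Measure (E n)))
      exact h2.measurable.norm
    · refine Eventually.of_forall fun y => ?_
      have h3 : Tendsto (fun m => ∫ x, ρ (y - f x) * (h m x * (jac f x).det)) atTop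
          (𝓝 (∫ z, ρ (y - z) * (N z : ℝ))) := by
        have h4 : ∫ z, ρ (y - z) * (N z : ℝ) =
            ∫ x, ρ (y - f x) * (D.indicator (fun _ => (1 : ℝ)) x * (jac f x).det) := by
          rw [← hN' (fun z => ρ (y - z))
            (hρ.continuous.comp (continuous_const.sub continuous_id)).measurable
            ⟨R, fun z => hR _⟩, ← integral_indicator hD]
          refine integral_congr_ae (Eventually.of_forall fun x => ?_)
          by_cases hx : x ∈ D
          · simp [hx]
          · simp [hx]
        rw [h4]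
        refine tendsto_integral_of_dominated_convergence
          (K.indicator fun x => R * |(jac f x).det|) ?_ ?_ ?_ ?_
        · intro m
          refine Continuous.aestronglyMeasurable ?_
          exact (hρ.continuous.comp (continuous_const.sub hf.continuous)).mul
            ((hh m).continuous.mul hJc)
        · rw [integrable_indicator_iff hK.measurableSet]
          exact (hJK.norm.const_mul R)
        · intro m
          refine Eventually.of_forall fun x => ?_
          by_cases hx : x ∈ K
          · rw [Set.indicator_of_mem hx, norm_mul, norm_mul]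
            have h5 := hR (y - f x)
            have h6 := hh1 m x
            calc ‖ρ (y - f x)‖ * (‖h m x‖ * ‖(jac f x).det‖)
                ≤ R * (1 * |(jac f x).det|) := by
                  refine mul_le_mul h5 (mul_le_mul h6 le_rfl (norm_nonneg _) zero_le_one)
                    (mul_nonneg (norm_nonneg _) (norm_nonneg _)) ((norm_nonneg _).trans h5)
              _ = R * |(jac f x).det| := by rw [one_mul]
          · have h7 : h m x = 0 := by
              by_contra h8
              exact hx (hhK m (subset_tsupport _ h8))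
            rw [Set.indicator_of_notMem hx, h7]; simp
        · refine Eventually.of_forall fun x => ?_
          exact Tendsto.const_mul _ ((hlim x).mul_const _)
      refine ENNReal.tendsto_ofReal ?_
      exact (h3.norm).rpow_const (Or.inr (by linarith))
    · intro m
      have hcs : HasCompactSupport (h m) := HasCompactSupport.of_support_subset_isCompact hK
        ((subset_tsupport _).trans (hhK m))
      exact hiso f hf (h m) (hh m) hcs ρ hρ hρc hρ0 hρ1 A (hA m)
  -- mollifiers
  let φ : ℕ → ContDiffBump (0 : E n) := fun k =>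
    { rIn := 1 / ((k : ℝ) + 1), rOut := 2 * (1 / ((k : ℝ) + 1)),
      rIn_pos := by positivity,
      rIn_lt_rOut := by
        have : (0 : ℝ) < 1 / ((k : ℝ) + 1) := by positivity
        linarith }
  have hφ0 : Tendsto (fun k => (φ k).rOut) atTop (𝓝 0) := by
    have h1 := (tendsto_one_div_add_atTop_nhds_zero_nat (𝕜 := ℝ)).const_mul 2
    simpa [φ] using h1
  have hconv := ContDiffBump.ae_convolution_tendsto_right_of_locallyIntegrable (μ := volume)
    (K := 2) hφ0 (Eventually.of_forall fun k => le_of_eq rfl) hNi.locallyIntegrable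
  have h2 : ∫⁻ y, ENNReal.ofReal (|(N y : ℝ)| ^ q) ≤ ENNReal.ofReal (C * A ^ q) := by
    refine fatou_bound (F := fun k y => ENNReal.ofReal
      (|∫ z, (φ k).normed volume (y - z) * (N z : ℝ)| ^ q)) ?_ ?_ ?_
    · intro k
      refine Measurable.ennreal_ofReal ?_
      refine Measurable.pow_const ?_ _
      have h1 : StronglyMeasurable (Function.uncurry fun (y z : E n) =>
          (φ k).normed volume (y - z) * (N z : ℝ)) := by
        refine Measurable.stronglyMeasurable ?_
        refine Measurable.mul ?_ ?_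
        · exact ((φ k).continuous_normed.comp (continuous_fst.sub continuous_snd)).measurable
        · have h3 : Measurable fun z : E n => (N z : ℝ) :=
            (measurable_from_top (f := fun a : ℤ => (a : ℝ))).comp hNm
          exact h3.comp measurable_snd
      have h2 := h1.integral_prod_right (ν := (volume : Measure (E n)))
      exact h2.measurable.norm
    · filter_upwards [hconv] with y hy
      have h3 : Tendsto (fun k => ∫ z, (φ k).normed volume (y - z) * (N z : ℝ)) atTop
          (𝓝 (N y : ℝ)) := by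
        refine hy.congr fun k => ?_
        rw [convolution_eq_swap]
        rfl
      refine ENNReal.tendsto_ofReal ?_
      exact (h3.norm).rpow_const (Or.inr (by linarith))
    · intro k
      exact key _ (φ k).contDiff_normed (φ k).hasCompactSupport_normed
        (fun x => (φ k).nonneg_normed x) (φ k).integral_normed
  have h3 : ∫ y, |(N y : ℝ)| ≤ C * A ^ q := by
    have h4 : ENNReal.ofReal (∫ y, |(N y : ℝ)|) ≤ ENNReal.ofReal (C * A ^ q) := by
      rw [ofReal_integral_eq_lintegral_ofReal (f := fun y => |(N y : ℝ)|) hNi.abs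
        (Eventually.of_forall fun y => abs_nonneg _)]
      refine le_trans (lintegral_mono fun y => ?_) h2
      refine ENNReal.ofReal_le_ofReal ?_
      by_cases h5 : N y = 0
      · rw [h5]; simp only [Int.cast_zero, abs_zero]
        exact Real.rpow_nonneg le_rfl _
      · have h6 : (1 : ℝ) ≤ |(N y : ℝ)| := by
          have h7 : (1 : ℤ) ≤ |N y| := Int.one_le_abs h5
          exact_mod_cast h7
        calc |(N y : ℝ)| = |(N y : ℝ)| ^ (1 : ℝ) := (Real.rpow_one _).symm
          _ ≤ |(N y : ℝ)| ^ q := Real.rpow_le_rpow_of_exponent_le h6 hq1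
    exact (ENNReal.ofReal_le_ofReal_iff (mul_nonneg hC.le (Real.rpow_nonneg hA0 _))).1 h4
  rw [hN' ψ hψ ⟨P, hP⟩]
  have h4 : ‖∫ y, ψ y * (N y : ℝ)‖ ≤ ∫ y, P * |(N y : ℝ)| := by
    refine norm_integral_le_of_norm_le (hNi.norm.const_mul P) (Eventually.of_forall fun y => ?_)
    rw [norm_mul]
    exact mul_le_mul_of_nonneg_right (hP y) (norm_nonneg _)
  rw [integral_const_mul] at h4
  calc |∫ y, ψ y * (N y : ℝ)| ≤ P * ∫ y, |(N y : ℝ)| := h4
    _ ≤ P * (C * A ^ q) := mul_le_mul_of_nonneg_left h3 hP0
    _ = C * P * A ^ q := by ring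


end H930.BL.J04b

namespace H930.BL

export J04b (iso)

end H930.BL
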