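import Pool.Agent.Helper930.BL.Defs

set_option autoImplicit false
open MeasureTheory Metric Set Filter Topology
open scoped ENNReal NNReal ContDiff

namespace H930.BL.J05




theorem aux_set_mono {n : ℕ} {g : E n → ℝ} (hg : Integrable g) (hg0 : ∀ x, 0 ≤ g x)
    {s t : Set (E n)} (hst : s ⊆ t) : ∫ x in s, g x ≤ ∫ x in t, g x :=
  setIntegral_mono_set hg.integrableOn (Eventually.of_forall hg0) (Eventually.of_forall hst)

/-- L4a -/
theorem bad_open {n : ℕ} {g : E n → ℝ} (hg : Integrable g) (hg0 : ∀ x, 0 ≤ g x) (lam : ℝ) :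
    IsOpen (bad g lam) := by
  rw [Metric.isOpen_iff]
  rintro z ⟨ρ, hρ, hlt⟩
  have hc : Continuous (fun s : ℝ => lam * (2 * s) ^ n) := by fun_prop
  have hev : ∀ᶠ s in 𝓝 ρ, lam * (2 * s) ^ n < ∫ x in closedBall z ρ, g x :=
    hc.continuousAt.eventually_lt continuousAt_const hlt
  obtain ⟨δ, hδ, hδ2⟩ := Metric.eventually_nhds_iff.1 hev
  refine ⟨δ / 2, by positivity, ?_⟩
  intro z' hz'
  rw [mem_ball] at hz'
  refine ⟨ρ + δ / 2, by positivity, ?_⟩
  have h1 : lam * (2 * (ρ + δ / 2)) ^ n < ∫ x in closedBall z ρ, g x := by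
    apply hδ2
    rw [Real.dist_eq, add_sub_cancel_left, abs_of_pos (by positivity)]
    linarith
  refine h1.trans_le (aux_set_mono hg hg0 ?_)
  apply closedBall_subset_closedBall'
  rw [dist_comm]
  linarith

/-- L4b. weak type estimate -/
theorem bad_volume {n : ℕ} {g : E n → ℝ} (hg : Integrable g) (hg0 : ∀ x, 0 ≤ g x) {lam : ℝ}
    (hlam : 0 < lam) :
    volume (bad g lam) ≤
      ENNReal.ofReal (2 * 5 ^ n / lam * ∫ x in {x | lam / 2 < g x}, g x) := by
  obtain ⟨A, hA⟩ : ∃ A : Set (E n), A = {x | lam / 2 < g x} := ⟨_, rfl⟩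
  rw [← hA]
  have hAm : NullMeasurableSet A volume := by
    rw [hA]; exact nullMeasurableSet_lt aemeasurable_const hg.aemeasurable
  obtain ⟨g', hg'⟩ : ∃ g' : E n → ℝ, g' = A.indicator g := ⟨_, rfl⟩
  have hg'i : Integrable g' := hg' ▸ hg.indicator₀ hAm
  have hg'0 : ∀ x, 0 ≤ g' x := by
    intro x
    rw [hg']
    exact Set.indicator_nonneg (fun x _ => hg0 x) x
  have hgg' : ∀ x, g x ≤ g' x + lam / 2 := by
    intro x
    by_cases hx : x ∈ A
    · rw [hg', Set.indicator_of_mem hx]; linarith
    · rw [hg', Set.indicator_of_notMem hx]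
      rw [hA] at hx
      have : g x ≤ lam / 2 := not_lt.1 hx
      linarith
  have hIg' : ∫ x in A, g x = ∫ x, g' x := by
    rw [hg', integral_indicator₀ hAm]
  rw [hIg']
  -- bounded radii
  obtain ⟨R, hR⟩ : ∃ R : ℝ, R = max 1 ((∫ x, g x) / lam) := ⟨_, rfl⟩
  have hrad : ∀ z : E n, ∃ ρ : ℝ, z ∈ bad g lam → 0 < ρ ∧ ρ ≤ R ∧
      lam * (2 * ρ) ^ n < ∫ x in closedBall z ρ, g x := by
    intro z
    by_cases hz : z ∈ bad g lam
    · obtain ⟨ρ, hρ, hlt⟩ := hz
      rcases Nat.eq_zero_or_pos n with hn | hn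
      · subst hn
        refine ⟨1, fun _ => ⟨one_pos, by rw [hR]; exact le_max_left _ _, ?_⟩⟩
        have e1 : closedBall z ρ = closedBall z 1 := by
          ext y
          have : y = z := Subsingleton.elim _ _
          subst this
          simp [hρ.le]
        rw [e1] at hlt
        simpa using hlt
      · refine ⟨ρ, fun _ => ⟨hρ, ?_, hlt⟩⟩
        rcases le_total ρ 1 with h | h
        · rw [hR]; exact h.trans (le_max_left _ _)
        · rw [hR]
          refine le_trans ?_ (le_max_right _ _)
          rw [le_div_iff₀ hlam]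
          have h1 : ∫ x in closedBall z ρ, g x ≤ ∫ x, g x := by
            have h3 := aux_set_mono hg hg0 (Set.subset_univ (closedBall z ρ))
            rwa [setIntegral_univ] at h3
          have h2 : 2 * ρ ≤ (2 * ρ) ^ n := le_self_pow₀ (by linarith) (by omega)
          nlinarith
    · exact ⟨1, fun h => absurd h hz⟩
  choose r hr using hrad
  obtain ⟨u, hu, hdisj, hcov⟩ := Vitali.exists_disjoint_subfamily_covering_enlargement_closedBall
    (bad g lam) (fun z => z) r R (fun z hz => (hr z hz).2.1) 5 (by norm_num)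
  have hcount : u.Countable := by
    refine hdisj.countable_of_nonempty_interior ?_
    intro z hz
    refine ⟨z, ?_⟩
    exact ball_subset_interior_closedBall (mem_ball_self (hr z (hu hz)).1)
  have hsub : bad g lam ⊆ ⋃ b ∈ u, closedBall b (5 * r b) := by
    intro z hz
    obtain ⟨b, hb, hzb⟩ := hcov z hz
    simp only [Set.mem_iUnion]
    exact ⟨b, hb, hzb (mem_closedBall_self (hr z hz).1.le)⟩
  have hball : ∀ b ∈ u, volume (closedBall b (5 * r b)) ≤
      ENNReal.ofReal (2 * 5 ^ n / lam) * ∫⁻ x in closedBall b (r b), ENNReal.ofReal (g' x) := by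
    intro b hb
    obtain ⟨hr0, _, hlt⟩ := hr b (hu hb)
    have hv : volume (closedBall b (r b)) = ENNReal.ofReal ((2 * r b) ^ n) := by
      rw [Real.volume_pi_closedBall b hr0.le, Fintype.card_fin]
    have hvr : volume.real (closedBall b (r b)) = (2 * r b) ^ n := by
      rw [Measure.real, hv, ENNReal.toReal_ofReal (by positivity)]
    have h1 : ∫ x in closedBall b (r b), g x ≤
        (∫ x in closedBall b (r b), g' x) + lam / 2 * (2 * r b) ^ n := by
      have hi : IntegrableOn (fun _ : E n => lam / 2) (closedBall b (r b)) volume := by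
        apply integrableOn_const
        · rw [hv]; exact ENNReal.ofReal_ne_top
        · exact enorm_ne_top
      calc ∫ x in closedBall b (r b), g x ≤ ∫ x in closedBall b (r b), (g' x + lam / 2) := by
            apply integral_mono hg.integrableOn (hg'i.integrableOn.add hi)
            exact hgg'
        _ = _ := by
            rw [integral_add hg'i.integrableOn hi, setIntegral_const, hvr]
            simp only [smul_eq_mul]
            ring
    have h2 : (2 * r b) ^ n ≤ 2 / lam * ∫ x in closedBall b (r b), g' x := by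
      rw [div_mul_eq_mul_div, le_div_iff₀ hlam]
      linarith
    rw [← ofReal_integral_eq_lintegral_ofReal hg'i.integrableOn (Eventually.of_forall hg'0),
      Real.volume_pi_closedBall b (by positivity), Fintype.card_fin,
      ← ENNReal.ofReal_mul (by positivity)]
    apply ENNReal.ofReal_le_ofReal
    have h3 : (2 * (5 * r b)) ^ n = 5 ^ n * (2 * r b) ^ n := by
      rw [← mul_pow]; congr 1; ring
    rw [h3]
    calc (5:ℝ) ^ n * (2 * r b) ^ n ≤ 5 ^ n * (2 / lam * ∫ x in closedBall b (r b), g' x) := by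
          apply mul_le_mul_of_nonneg_left h2 (by positivity)
      _ = _ := by ring
  calc volume (bad g lam) ≤ volume (⋃ b ∈ u, closedBall b (5 * r b)) := measure_mono hsub
    _ ≤ ∑' b : u, volume (closedBall (b : E n) (5 * r b)) := measure_biUnion_le _ hcount _
    _ ≤ ∑' b : u, ENNReal.ofReal (2 * 5 ^ n / lam) *
        ∫⁻ x in closedBall (b : E n) (r b), ENNReal.ofReal (g' x) :=
        ENNReal.tsum_le_tsum fun b => hball b b.2
    _ = ENNReal.ofReal (2 * 5 ^ n / lam) *
        ∑' b : u, ∫⁻ x in closedBall (b : E n) (r b), ENNReal.ofReal (g' x) :=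
        ENNReal.tsum_mul_left
    _ = ENNReal.ofReal (2 * 5 ^ n / lam) *
        ∫⁻ x in ⋃ b ∈ u, closedBall (b : E n) (r b), ENNReal.ofReal (g' x) := by
        rw [lintegral_biUnion hcount (fun b _ => isClosed_closedBall.measurableSet) hdisj]
    _ ≤ ENNReal.ofReal (2 * 5 ^ n / lam) * ∫⁻ x, ENNReal.ofReal (g' x) := by
        gcongr
        exact Measure.restrict_le_self
    _ = ENNReal.ofReal (2 * 5 ^ n / lam * ∫ x, g' x) := by
        rw [← ofReal_integral_eq_lintegral_ofReal hg'i (Eventually.of_forall hg'0),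
          ← ENNReal.ofReal_mul (by positivity)]


end H930.BL.J05

namespace H930.BL

export J05 (bad_open bad_volume)

end H930.BL
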