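import Pool.Agent.Helper930.BL.Defs

set_option autoImplicit false
open MeasureTheory Metric Set Filter Topology
open scoped ENNReal NNReal ContDiff

namespace H930.BL.J07




/-- L6. good radius -/
theorem good_radius {n : ℕ} {g : E n → ℝ} (hg : Integrable g) (hg0 : ∀ x, 0 ≤ g x)
    {B : ℝ} (hgB : ∀ x, g x ≤ B) (x : E n) {r S : ℝ} (hr : 0 < r)
    (hS : ∫ y in closedBall x (2 * r), g y < S * r) :
    ∃ t ∈ Ico r (2 * r), ∃ δ : ℕ → ℝ, (∀ m, 0 < δ m) ∧ (∀ m, δ m ≤ r) ∧
      Tendsto δ atTop (𝓝 0) ∧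
      ∀ m, ∫ y in closedBall x (t + δ m) \ closedBall x t, g y ≤ S * δ m := by
  by_contra hcon
  have key : ∀ t ∈ Ico r (2 * r), ∃ ε > 0, ∀ δ, 0 < δ → δ < ε → δ ≤ r →
      S * δ < ∫ y in closedBall x (t + δ) \ closedBall x t, g y := by
    intro t ht
    by_contra h
    push Not at h
    apply hcon
    have h' : ∀ m : ℕ, ∃ δ : ℝ, 0 < δ ∧ δ < 1 / ((m : ℝ) + 1) ∧ δ ≤ r ∧
        ∫ y in closedBall x (t + δ) \ closedBall x t, g y ≤ S * δ := by
      intro m
      exact h (1 / ((m : ℝ) + 1)) (by positivity)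
    choose δ h1 h2 h3 h4 using h'
    refine ⟨t, ht, δ, h1, h3, ?_, h4⟩
    exact squeeze_zero (fun m => (h1 m).le) (fun m => (h2 m).le) tendsto_one_div_add_atTop_nhds_zero_nat
  set G : ℝ → ℝ := fun t => ∫ y in closedBall x t, g y with hG
  have hGmono : Monotone G := by
    intro s t hst
    exact setIntegral_mono_set hg.integrableOn (Eventually.of_forall (fun y => hg0 y))
      (HasSubset.Subset.eventuallyLE (closedBall_subset_closedBall hst))
  have hG0 : ∀ t, 0 ≤ G t := fun t => integral_nonneg (fun y => hg0 y)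
  have hSpos : 0 < S := by
    by_contra hS'
    push Not at hS'
    have h1 := hG0 (2 * r)
    have h2 : S * r ≤ 0 := mul_nonpos_of_nonpos_of_nonneg hS' hr.le
    have h3 : G (2 * r) < S * r := hS
    linarith
  have hdiff : ∀ t δ, 0 < δ → ∫ y in closedBall x (t + δ) \ closedBall x t, g y = G (t + δ) - G t := by
    intro t δ hδ
    exact setIntegral_sdiff measurableSet_closedBall hg.integrableOn
      (closedBall_subset_closedBall (by linarith))
  set A : Set ℝ := {t | t ∈ Icc r (2 * r) ∧ G r + S * (t - r) ≤ G t} with hA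
  have hrA : r ∈ A := ⟨⟨le_rfl, by linarith⟩, by simp⟩
  have hbdd : BddAbove A := ⟨2 * r, fun t ht => ht.1.2⟩
  set T := sSup A with hT
  have hTA : T ∈ A := by
    have hrT : r ≤ T := le_csSup hbdd hrA
    have hT2 : T ≤ 2 * r := csSup_le ⟨r, hrA⟩ (fun t ht => ht.1.2)
    refine ⟨⟨hrT, hT2⟩, ?_⟩
    apply le_of_forall_pos_le_add
    intro ε hε
    obtain ⟨t, htA, ht⟩ := exists_lt_of_lt_csSup ⟨r, hrA⟩ (show T - ε / S < sSup A by
      have : 0 < ε / S := div_pos hε hSpos
      rw [← hT]; linarith)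
    have h1 : G t ≤ G T := hGmono (le_csSup hbdd htA)
    have h2 := htA.2
    have h3 : S * (T - ε / S) < S * t := mul_lt_mul_of_pos_left ht hSpos
    have h4 : S * (ε / S) = ε := by field_simp
    nlinarith
  by_cases hT2 : T < 2 * r
  · obtain ⟨ε, hε, hkey⟩ := key T ⟨hTA.1.1, hT2⟩
    set δ := min (ε / 2) (2 * r - T) with hδ
    have hδ0 : 0 < δ := lt_min (by linarith) (by linarith)
    have hδε : δ < ε := lt_of_le_of_lt (min_le_left _ _) (by linarith)
    have hδr : δ ≤ 2 * r - T := min_le_right _ _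
    have hδr' : δ ≤ r := hδr.trans (by linarith [hTA.1.1])
    have h1 := hkey δ hδ0 hδε hδr'
    rw [hdiff T δ hδ0] at h1
    have h2 : T + δ ∈ A := by
      refine ⟨⟨by linarith [hTA.1.1], by linarith⟩, ?_⟩
      have := hTA.2
      nlinarith
    have h3 := le_csSup hbdd h2
    linarith
  · have hTe : T = 2 * r := le_antisymm hTA.1.2 (not_lt.1 hT2)
    have h1 := hTA.2
    rw [hTe] at h1
    have h2 := hG0 r
    have h3 : G (2 * r) < S * r := hS
    nlinarith


end H930.BL.J07

namespace H930.BL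

export J07 (good_radius)

end H930.BL
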