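import Pool.Agent.Helper930.BL.Defs

set_option autoImplicit false
open MeasureTheory Metric Set Filter Topology
open scoped ENNReal NNReal ContDiff

namespace H930.BL.J14


/-! ### AVAILABLE (proved; from Pool/Agent/Helper795/LusinN.lean) -/

open Module in
/-- Jensen / Hölder on a set of finite measure. -/
lemma lintegral_le_rpow {α : Type*} [MeasurableSpace α] (μ : Measure α) {p : ℝ} (hp : 1 < p)
    {h : α → ℝ≥0∞} (hh : AEMeasurable h μ) :
    ∫⁻ a, h a ∂μ ≤ (∫⁻ a, h a ^ p ∂μ) ^ (1 / p) * (μ univ) ^ (1 - 1 / p) := by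
  have hpq : p.HolderConjugate (Real.conjExponent p) := Real.HolderConjugate.conjExponent hp
  have := ENNReal.lintegral_mul_le_Lp_mul_Lq μ hpq hh (g := fun _ => 1) aemeasurable_const
  simp only [Pi.mul_apply, mul_one, ENNReal.one_rpow, lintegral_const, one_mul] at this
  refine this.trans (le_of_eq ?_)
  congr 2
  have := hpq.one_sub_inv
  simp only [one_div]
  exact this.symm

open Module in
lemma lintegral_homothety {F : Type*} [NormedAddCommGroup F] [NormedSpace ℝ F]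
    [FiniteDimensional ℝ F] [MeasurableSpace F] [BorelSpace F] (μ : Measure F) [μ.IsAddHaarMeasure]
    {s : ℝ} (hs : 0 < s) (c : F) {h : F → ℝ≥0∞} (hh : Measurable h) :
    ∫⁻ y, h (c + s • y) ∂μ = ENNReal.ofReal ((s ^ finrank ℝ F)⁻¹) * ∫⁻ z, h z ∂μ := by
  have h1 : ∫⁻ y, h (c + s • y) ∂μ = ∫⁻ z, h (c + z) ∂(Measure.map (s • ·) μ) := by
    rw [lintegral_map (by fun_prop) (measurable_const_smul s)]
  rw [h1, Measure.map_addHaar_smul μ hs.ne', lintegral_smul_measure,
    abs_of_nonneg (by positivity), lintegral_add_left_eq_self]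
  rfl

open Module in
theorem morrey_abstract {F : Type*} [NormedAddCommGroup F] [NormedSpace ℝ F]
    [FiniteDimensional ℝ F] [MeasurableSpace F] [BorelSpace F] (μ : Measure F) [μ.IsAddHaarMeasure]
    {p : ℝ} (hp : (finrank ℝ F : ℝ) < p) (hp1 : 1 < p) {ρ : ℝ} (hρ : 0 < ρ) :
    ∃ C : ℝ≥0∞, C ≠ ⊤ ∧ ∀ (h : F → ℝ≥0∞) (w : F → ℝ), Measurable h →
      (∀ x ∈ closedBall (0 : F) ρ, ∀ y ∈ closedBall (0 : F) ρ,
        ‖w x - w y‖ₑ ≤ ∫⁻ s in Ioo (0 : ℝ) 1, h (x + s • (y - x)) * ‖y - x‖ₑ) →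
      ∀ x ∈ closedBall (0 : F) ρ, ∀ y ∈ closedBall (0 : F) ρ,
        ‖w x - w y‖ₑ ≤ C * (∫⁻ z in closedBall (0 : F) ρ, h z ^ p ∂μ) ^ (1 / p) := by
  set B : Set F := closedBall (0 : F) ρ with hB
  have hBm : MeasurableSet B := measurableSet_closedBall
  have hBc : Convex ℝ B := convex_closedBall _ _
  have hB0 : μ B ≠ 0 := (measure_closedBall_pos μ 0 hρ).ne'
  have hBt : μ B ≠ ⊤ := measure_closedBall_lt_top.ne
  set m : ℕ := finrank ℝ F with hm
  have hp0 : 0 < p := by linarith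
  set I : ℝ≥0∞ := ∫⁻ s in Ioo (0 : ℝ) 1, ENNReal.ofReal ((s ^ m)⁻¹) ^ (1 / p) with hI
  have hIt : I ≠ ⊤ := by
    have h1 : IntegrableOn (fun s : ℝ => s ^ (-((m : ℝ) / p))) (Ioo 0 1) := by
      rw [intervalIntegral.integrableOn_Ioo_rpow_iff zero_lt_one]
      have : (m : ℝ) / p < 1 := (div_lt_one hp0).2 hp
      linarith
    have h2 := h1.2
    rw [hasFiniteIntegral_iff_enorm] at h2
    refine ne_of_lt (lt_of_le_of_lt (le_of_eq ?_) h2)
    refine setLIntegral_congr_fun measurableSet_Ioo fun s hs => ?_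
    have hs0 : 0 < s := hs.1
    rw [Real.enorm_eq_ofReal (by positivity), ENNReal.ofReal_rpow_of_nonneg (by positivity)
      (by positivity)]
    congr 1
    rw [← Real.rpow_natCast s m, ← Real.rpow_neg hs0.le, ← Real.rpow_mul hs0.le]
    congr 1
    ring
  refine ⟨2 * (ENNReal.ofReal (2 * ρ) * (I * (μ B) ^ (1 - 1 / p))) * (μ B)⁻¹, ?_, ?_⟩
  · refine ENNReal.mul_ne_top (ENNReal.mul_ne_top (by norm_num) (ENNReal.mul_ne_top
      ENNReal.ofReal_ne_top (ENNReal.mul_ne_top hIt ?_))) (ENNReal.inv_ne_top.2 hB0)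
    refine ENNReal.rpow_ne_top_of_nonneg ?_ hBt
    have : 1 / p < 1 := by rw [div_lt_one hp0]; exact hp1
    linarith
  intro h w hh hw
  set J : ℝ≥0∞ := (∫⁻ z in B, h z ^ p ∂μ) ^ (1 / p) with hJ
  -- the averaged bound
  set H : F → F → ℝ≥0∞ := fun x y => ∫⁻ s in Ioo (0 : ℝ) 1, h (x + s • (y - x)) *
    ENNReal.ofReal (2 * ρ) with hH
  have hHm : ∀ x, Measurable (H x) := by
    intro x
    have : Measurable fun q : F × ℝ => h (x + q.2 • (q.1 - x)) * ENNReal.ofReal (2 * ρ) := by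
      refine (hh.comp ?_).mul_const _
      fun_prop
    exact this.lintegral_prod_right' (ν := volume.restrict (Ioo (0 : ℝ) 1))
  have key : ∀ x ∈ B, ∫⁻ y in B, H x y ∂μ ≤ ENNReal.ofReal (2 * ρ) * (I * (μ B) ^ (1 - 1 / p)) * J := by
    intro x hx
    have hsw : ∫⁻ y in B, H x y ∂μ = ∫⁻ s in Ioo (0 : ℝ) 1, ∫⁻ y in B, h (x + s • (y - x)) *
        ENNReal.ofReal (2 * ρ) ∂μ := by
      rw [hH]
      refine lintegral_lintegral_swap ?_
      refine Measurable.aemeasurable ?_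
      refine Measurable.mul_const (hh.comp ?_) _
      fun_prop
    rw [hsw]
    have hin : ∀ s ∈ Ioo (0 : ℝ) 1, ∫⁻ y in B, h (x + s • (y - x)) * ENNReal.ofReal (2 * ρ) ∂μ ≤
        ENNReal.ofReal ((s ^ m)⁻¹) ^ (1 / p) *
          (ENNReal.ofReal (2 * ρ) * (μ B) ^ (1 - 1 / p) * J) := by
      intro s hs
      have hs0 : 0 < s := hs.1
      have hmeas : Measurable fun y : F => h (x + s • (y - x)) := hh.comp (by fun_prop)
      rw [lintegral_mul_const _ hmeas]
      have h1 := lintegral_le_rpow (μ.restrict B) hp1 (h := fun y => h (x + s • (y - x)))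
        hmeas.aemeasurable
      rw [Measure.restrict_apply_univ] at h1
      have h2 : ∫⁻ y in B, h (x + s • (y - x)) ^ p ∂μ ≤ ENNReal.ofReal ((s ^ m)⁻¹) *
          ∫⁻ z in B, h z ^ p ∂μ := by
        have hg : Measurable (B.indicator fun z => h z ^ p) := (hh.pow_const p).indicator hBm
        have h3 := lintegral_homothety μ hs0 (x - s • x) hg
        rw [lintegral_indicator hBm] at h3
        rw [← h3, ← lintegral_indicator hBm]
        refine lintegral_mono fun y => ?_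
        by_cases hy : y ∈ B
        · rw [indicator_of_mem hy]
          have he : x + s • (y - x) = x - s • x + s • y := by rw [smul_sub]; abel
          have hmem : x - s • x + s • y ∈ B := by
            rw [← he]
            exact hBc.add_smul_sub_mem hx hy ⟨hs.1.le, hs.2.le⟩
          rw [indicator_of_mem hmem, he]
        · rw [indicator_of_notMem hy]; exact zero_le
      have h4 : (∫⁻ y in B, h (x + s • (y - x)) ^ p ∂μ) ^ (1 / p) ≤
          ENNReal.ofReal ((s ^ m)⁻¹) ^ (1 / p) * J := by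
        rw [hJ, ← ENNReal.mul_rpow_of_nonneg _ _ (by positivity)]
        exact ENNReal.rpow_le_rpow h2 (by positivity)
      calc (∫⁻ y in B, h (x + s • (y - x)) ∂μ) * ENNReal.ofReal (2 * ρ)
          ≤ ((ENNReal.ofReal ((s ^ m)⁻¹) ^ (1 / p) * J) * μ B ^ (1 - 1 / p)) *
            ENNReal.ofReal (2 * ρ) := by
            gcongr
            exact h1.trans (by gcongr)
        _ = _ := by ring
    calc ∫⁻ s in Ioo (0 : ℝ) 1, ∫⁻ y in B, h (x + s • (y - x)) * ENNReal.ofReal (2 * ρ) ∂μ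
        ≤ ∫⁻ s in Ioo (0 : ℝ) 1, ENNReal.ofReal ((s ^ m)⁻¹) ^ (1 / p) *
          (ENNReal.ofReal (2 * ρ) * (μ B) ^ (1 - 1 / p) * J) :=
          setLIntegral_mono' measurableSet_Ioo hin
      _ = I * (ENNReal.ofReal (2 * ρ) * (μ B) ^ (1 - 1 / p) * J) := by
          rw [lintegral_mul_const, hI]
          refine Measurable.pow_const ?_ _
          exact ENNReal.measurable_ofReal.comp (by fun_prop)
      _ = _ := by ring
  intro x hx y hy
  have hle : ∀ x ∈ B, ∀ y ∈ B, ‖w x - w y‖ₑ ≤ H x y := by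
    intro x hx y hy
    refine (hw x hx y hy).trans ?_
    refine lintegral_mono fun s => ?_
    gcongr
    rw [← ofReal_norm]
    refine ENNReal.ofReal_le_ofReal ?_
    have h1 : ‖x‖ ≤ ρ := by simpa [hB] using hx
    have h2 : ‖y‖ ≤ ρ := by simpa [hB] using hy
    calc ‖y - x‖ ≤ ‖y‖ + ‖x‖ := norm_sub_le _ _
      _ ≤ 2 * ρ := by linarith
  have htot : ‖w x - w y‖ₑ * μ B ≤ 2 * (ENNReal.ofReal (2 * ρ) * (I * (μ B) ^ (1 - 1 / p)) * J) := by
    calc ‖w x - w y‖ₑ * μ B = ∫⁻ z in B, ‖w x - w y‖ₑ ∂μ := by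
          rw [lintegral_const, Measure.restrict_apply_univ]
      _ ≤ ∫⁻ z in B, (H x z + H y z) ∂μ := by
          refine setLIntegral_mono' hBm fun z hz => ?_
          have h1 := hle x hx z hz
          have h2 := hle y hy z hz
          have h3 : ‖w x - w y‖ₑ ≤ ‖w x - w z‖ₑ + ‖w y - w z‖ₑ := by
            have : w x - w y = (w x - w z) - (w y - w z) := by ring
            rw [this]
            exact enorm_sub_le
          exact h3.trans (add_le_add h1 h2)
      _ = ∫⁻ z in B, H x z ∂μ + ∫⁻ z in B, H y z ∂μ := by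
          rw [lintegral_add_left (hHm x)]
      _ ≤ _ := by
          rw [two_mul]
          exact add_le_add (key x hx) (key y hy)
  calc ‖w x - w y‖ₑ = ‖w x - w y‖ₑ * μ B * (μ B)⁻¹ := by
        rw [mul_assoc, ENNReal.mul_inv_cancel hB0 hBt, mul_one]
    _ ≤ 2 * (ENNReal.ofReal (2 * ρ) * (I * (μ B) ^ (1 - 1 / p)) * J) * (μ B)⁻¹ := by gcongr
    _ = _ := by ring



lemma gr_cont {n : ℕ} {u : E n → ℝ} (hu : ContDiff ℝ 1 u) : Continuous (gr u) := by
  unfold gr pd
  refine continuous_finsetSum _ fun j _ => ?_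
  exact ((hu.continuous_fderiv one_ne_zero).clm_apply continuous_const).abs

lemma fderiv_le_gr {n : ℕ} (u : E n → ℝ) (p v : E n) : |fderiv ℝ u p v| ≤ gr u p * ‖v‖ := by
  have h1 : v = ∑ j, v j • (Pi.single j (1 : ℝ) : E n) := by
    ext k
    simp [Finset.sum_apply, Pi.single_apply]
  have h2 : fderiv ℝ u p v = ∑ j, v j * fderiv ℝ u p (Pi.single j 1) := by
    conv_lhs => rw [h1]
    rw [map_sum]
    refine Finset.sum_congr rfl fun j _ => ?_
    rw [map_smul, smul_eq_mul]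
  rw [h2]
  refine (Finset.abs_sum_le_sum_abs _ _).trans ?_
  unfold gr pd
  rw [Finset.sum_mul]
  refine Finset.sum_le_sum fun j _ => ?_
  rw [abs_mul, mul_comm]
  refine mul_le_mul_of_nonneg_left ?_ (abs_nonneg _)
  exact norm_le_pi_norm v j

lemma pow_add_le' (a b : ℝ≥0∞) (n : ℕ) : (a + b) ^ n ≤ 2 ^ n * (a ^ n + b ^ n) := by
  rcases le_total a b with h | h
  · calc (a + b) ^ n ≤ (2 * b) ^ n := by
          gcongr
          rw [two_mul]; gcongr
      _ = 2 ^ n * b ^ n := mul_pow _ _ _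
      _ ≤ _ := by gcongr; exact le_add_self
  · calc (a + b) ^ n ≤ (2 * a) ^ n := by
          gcongr
          rw [two_mul]; gcongr
      _ = 2 ^ n * a ^ n := mul_pow _ _ _
      _ ≤ _ := by gcongr; exact le_self_add

lemma seg_bound {m : ℕ} {u : E (m + 1) → ℝ} (hu : ContDiff ℝ 1 u) (i : Fin (m + 1)) (c : ℝ)
    (z0 a b : E m) :
    ‖u (i.insertNth c (z0 + a)) - u (i.insertNth c (z0 + b))‖ₑ ≤
      ∫⁻ s in Ioo (0 : ℝ) 1, ENNReal.ofReal (gr u (i.insertNth c (z0 + (a + s • (b - a))))) *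
        ‖b - a‖ₑ := by
  set v : E (m + 1) := i.insertNth 0 (b - a) with hv
  set q : E (m + 1) := i.insertNth c (z0 + a) with hq
  have hlin : ∀ s : ℝ, i.insertNth c (z0 + (a + s • (b - a))) = q + s • v := by
    intro s
    rw [hq, hv]
    ext k
    refine Fin.succAboveCases i ?_ (fun j => ?_) k
    · simp
    · simp [add_assoc]
  have hvn : ‖v‖ ≤ ‖b - a‖ := by
    rw [pi_norm_le_iff_of_nonneg (norm_nonneg _)]
    intro k
    refine Fin.succAboveCases i ?_ (fun j => ?_) k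
    · simp [hv]
    · rw [hv, Fin.insertNth_apply_succAbove]
      exact norm_le_pi_norm (b - a) j
  have hud : Differentiable ℝ u := hu.differentiable one_ne_zero
  have hderiv : ∀ s : ℝ, HasDerivAt (fun s : ℝ => u (q + s • v)) (fderiv ℝ u (q + s • v) v) s := by
    intro s
    have h1 : HasDerivAt (fun s : ℝ => q + s • v) v s := by
      simpa using ((hasDerivAt_id s).smul_const v).const_add q
    exact (hud (q + s • v)).hasFDerivAt.comp_hasDerivAt s h1
  have hcont : Continuous fun s : ℝ => fderiv ℝ u (q + s • v) v :=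
    ((hu.continuous_fderiv one_ne_zero).comp (by fun_prop)).clm_apply continuous_const
  have hint : ∫ s in (0 : ℝ)..1, fderiv ℝ u (q + s • v) v = u (q + (1 : ℝ) • v) - u (q + (0 : ℝ) • v) :=
    intervalIntegral.integral_eq_sub_of_hasDerivAt (fun s _ => hderiv s)
      (hcont.intervalIntegrable _ _)
  have hb : u (i.insertNth c (z0 + b)) = u (q + (1 : ℝ) • v) := by
    rw [← hlin 1]
    congr 2
    simp
  have ha : u q = u (q + (0 : ℝ) • v) := by simp
  rw [hb, ha, enorm_sub_rev, ← hint, intervalIntegral.integral_of_le zero_le_one,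
    integral_Ioc_eq_integral_Ioo]
  refine (enorm_integral_le_lintegral_enorm _).trans ?_
  refine lintegral_mono fun s => ?_
  rw [hlin s, Real.enorm_eq_ofReal_abs]
  refine (ENNReal.ofReal_le_ofReal (fderiv_le_gr u _ v)).trans ?_
  have hg : 0 ≤ gr u (q + s • v) := Finset.sum_nonneg fun j _ => abs_nonneg _
  rw [← ofReal_norm (b - a), ← ENNReal.ofReal_mul hg]
  exact ENNReal.ofReal_le_ofReal (mul_le_mul_of_nonneg_left hvn hg)

/-- Cap1. supremum on slices -/
theorem slice_sup {m : ℕ} (hm : 1 ≤ m) : ∃ C : ℝ≥0∞, C ≠ ⊤ ∧ ∀ (u : E (m + 1) → ℝ),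
    ContDiff ℝ 1 u → ∀ i : Fin (m + 1), ∃ Λ : ℝ → ℝ≥0∞, Measurable Λ ∧
    (∀ x, ENNReal.ofReal (|u x| ^ (m + 1)) ≤ C * Λ (x i)) ∧
    ∫⁻ s, Λ s = ∫⁻ x, ENNReal.ofReal (|u x| ^ (m + 1) + gr u x ^ (m + 1)) := by
  have hp1 : (1 : ℝ) < ((m + 1 : ℕ) : ℝ) := by exact_mod_cast Nat.lt_succ_of_le hm
  have hfr : (Module.finrank ℝ (E m) : ℝ) < ((m + 1 : ℕ) : ℝ) := by
    rw [Module.finrank_fin_fun]; exact_mod_cast Nat.lt_succ_self m
  obtain ⟨C, hC, hmor⟩ := morrey_abstract (volume : Measure (E m)) hfr hp1 (ρ := 1) one_pos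
  set B : Set (E m) := closedBall (0 : E m) 1 with hB
  have hV0 : volume B ≠ 0 := (measure_closedBall_pos volume (0 : E m) one_pos).ne'
  have hVt : volume B ≠ ⊤ := measure_closedBall_lt_top.ne
  refine ⟨2 ^ (m + 1) * ((volume B)⁻¹ + C ^ (m + 1)), ?_, ?_⟩
  · refine ENNReal.mul_ne_top (by simp) (ENNReal.add_ne_top.2 ⟨ENNReal.inv_ne_top.2 hV0, ?_⟩)
    exact ENNReal.pow_ne_top hC
  intro u hu i
  have hgc := gr_cont hu
  have hg0 : ∀ x, 0 ≤ gr u x := fun x => Finset.sum_nonneg fun j _ => abs_nonneg _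
  set G : E (m + 1) → ℝ≥0∞ := fun x => ENNReal.ofReal (|u x| ^ (m + 1) + gr u x ^ (m + 1)) with hG
  have hGm : Measurable G := by
    refine ENNReal.measurable_ofReal.comp (Continuous.measurable ?_)
    exact (hu.continuous.abs.pow _).add (hgc.pow _)
  have hinsm : Measurable fun q : ℝ × E m => (i.insertNth q.1 q.2 : E (m + 1)) :=
    (MeasurableEquiv.piFinSuccAbove (fun _ => ℝ) i).symm.measurable
  refine ⟨fun s => ∫⁻ z : E m, G (i.insertNth s z), ?_, ?_, ?_⟩
  · exact (hGm.comp hinsm).lintegral_prod_right'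
  · intro x
    set z0 : E m := i.removeNth x with hz0
    set c : ℝ := x i with hc
    have hx : i.insertNth c z0 = x := by rw [hc, hz0]; exact Fin.insertNth_self_removeNth i x
    set w : E m → ℝ := fun z => u (i.insertNth c (z0 + z)) with hw
    set h : E m → ℝ≥0∞ := fun z => ENNReal.ofReal (gr u (i.insertNth c (z0 + z))) with hh
    have hins2 : Measurable fun z : E m => (i.insertNth c (z0 + z) : E (m + 1)) :=
      hinsm.comp (measurable_const.prodMk (measurable_const_add z0))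
    have hhm : Measurable h := ENNReal.measurable_ofReal.comp (hgc.measurable.comp hins2)
    have hwm : Measurable w := hu.continuous.measurable.comp hins2
    have hmor' := hmor h w hhm (fun a _ b _ => seg_bound hu i c z0 a b)
    have h0B : (0 : E m) ∈ B := by simp [hB]
    set Hs : ℝ≥0∞ := ∫⁻ z, h z ^ (m + 1) with hHs
    set W : ℝ≥0∞ := ∫⁻ z, ‖w z‖ₑ ^ (m + 1) with hW
    have hpt : ∀ z ∈ B, ‖w 0‖ₑ ^ (m + 1) ≤ 2 ^ (m + 1) * (‖w z‖ₑ ^ (m + 1) + C ^ (m + 1) * Hs) := by
      intro z hz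
      have h1 := hmor' 0 h0B z hz
      have h2 : ‖w 0‖ₑ ≤ ‖w z‖ₑ + ‖w 0 - w z‖ₑ := by
        have : w 0 = w z + (w 0 - w z) := by ring
        conv_lhs => rw [this]
        exact enorm_add_le _ _
      have h3 : ‖w 0 - w z‖ₑ ^ (m + 1) ≤ C ^ (m + 1) * Hs := by
        calc ‖w 0 - w z‖ₑ ^ (m + 1)
            ≤ (C * (∫⁻ z in B, h z ^ (((m + 1 : ℕ) : ℝ))) ^ (1 / (((m + 1 : ℕ) : ℝ)))) ^ (m + 1) := by
              gcongr
          _ = C ^ (m + 1) * ∫⁻ z in B, h z ^ (((m + 1 : ℕ) : ℝ)) := by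
              rw [mul_pow]
              congr 1
              rw [← ENNReal.rpow_natCast, ← ENNReal.rpow_mul, one_div, inv_mul_cancel₀ (by positivity),
                ENNReal.rpow_one]
          _ ≤ C ^ (m + 1) * Hs := by
              gcongr
              rw [hHs]
              refine (setLIntegral_le_lintegral _ _).trans (le_of_eq ?_)
              refine lintegral_congr fun z => ?_
              rw [ENNReal.rpow_natCast]
      calc ‖w 0‖ₑ ^ (m + 1) ≤ (‖w z‖ₑ + ‖w 0 - w z‖ₑ) ^ (m + 1) := by gcongr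
        _ ≤ 2 ^ (m + 1) * (‖w z‖ₑ ^ (m + 1) + ‖w 0 - w z‖ₑ ^ (m + 1)) := pow_add_le' _ _ _
        _ ≤ _ := by gcongr
    have hint : ‖w 0‖ₑ ^ (m + 1) * volume B ≤ 2 ^ (m + 1) * (W + C ^ (m + 1) * Hs * volume B) := by
      calc ‖w 0‖ₑ ^ (m + 1) * volume B = ∫⁻ z in B, ‖w 0‖ₑ ^ (m + 1) := by
            rw [setLIntegral_const]
        _ ≤ ∫⁻ z in B, 2 ^ (m + 1) * (‖w z‖ₑ ^ (m + 1) + C ^ (m + 1) * Hs) :=
            setLIntegral_mono' measurableSet_closedBall hpt
        _ = 2 ^ (m + 1) * ((∫⁻ z in B, ‖w z‖ₑ ^ (m + 1)) + C ^ (m + 1) * Hs * volume B) := by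
            rw [lintegral_const_mul _ (by fun_prop), lintegral_add_right _ measurable_const,
              setLIntegral_const]
        _ ≤ _ := by
            gcongr
            exact setLIntegral_le_lintegral _ _
    have hΛ : ∫⁻ z : E m, G (i.insertNth c z) = W + Hs := by
      rw [← lintegral_add_left_eq_self (fun z : E m => G (i.insertNth c z)) z0, hW, hHs,
        ← lintegral_add_left (by fun_prop)]
      refine lintegral_congr fun z => ?_
      rw [hG]
      simp only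
      rw [ENNReal.ofReal_add (by positivity) (by have := hg0 (i.insertNth c (z0 + z)); positivity),
        ENNReal.ofReal_pow (abs_nonneg _), ENNReal.ofReal_pow (hg0 _), hw, hh]
      simp only
      rw [Real.enorm_eq_ofReal_abs]
    have hux : ENNReal.ofReal (|u x| ^ (m + 1)) = ‖w 0‖ₑ ^ (m + 1) := by
      rw [hw]
      simp only [add_zero]
      rw [hx, Real.enorm_eq_ofReal_abs, ENNReal.ofReal_pow (abs_nonneg _)]
    show ENNReal.ofReal (|u x| ^ (m + 1)) ≤ _ * ∫⁻ z : E m, G (i.insertNth c z)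
    rw [hΛ, hux]
    calc ‖w 0‖ₑ ^ (m + 1) = ‖w 0‖ₑ ^ (m + 1) * volume B * (volume B)⁻¹ := by
          rw [mul_assoc, ENNReal.mul_inv_cancel hV0 hVt, mul_one]
      _ ≤ 2 ^ (m + 1) * (W + C ^ (m + 1) * Hs * volume B) * (volume B)⁻¹ := by gcongr
      _ = 2 ^ (m + 1) * (W * (volume B)⁻¹ + C ^ (m + 1) * Hs * (volume B * (volume B)⁻¹)) := by ring
      _ = 2 ^ (m + 1) * (W * (volume B)⁻¹ + C ^ (m + 1) * Hs) := by
          rw [ENNReal.mul_inv_cancel hV0 hVt, mul_one]
      _ ≤ 2 ^ (m + 1) * ((volume B)⁻¹ + C ^ (m + 1)) * (W + Hs) := by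
          rw [mul_assoc]
          gcongr
          calc W * (volume B)⁻¹ + C ^ (m + 1) * Hs
              ≤ (W * (volume B)⁻¹ + Hs * (volume B)⁻¹) + (C ^ (m + 1) * W + C ^ (m + 1) * Hs) :=
                add_le_add le_self_add le_add_self
            _ = _ := by ring
  · have hmp := (volume_preserving_piFinSuccAbove (fun _ : Fin (m + 1) => ℝ) i).symm
    have h1 := hmp.lintegral_comp hGm
    rw [← h1, Measure.volume_eq_prod]
    exact (lintegral_prod (fun q : ℝ × E m => G (i.insertNth q.1 q.2))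
      (hGm.comp hinsm).aemeasurable).symm


end H930.BL.J14

namespace H930.BL

export J14 (slice_sup)

end H930.BL
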