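import Pool.Agent.Helper930.BL.Defs

set_option autoImplicit false

open MeasureTheory Metric Set Filter Topology
open scoped ENNReal NNReal ContDiff

namespace H930.BL.XJGap

variable {n : ℕ}


theorem abs_rpow_eq (t p : ℝ) : |t| ^ p = (t ^ 2) ^ (p / 2) := by
  rw [← sq_abs t, ← Real.rpow_natCast, ← Real.rpow_mul (abs_nonneg t)]
  congr 1
  push_cast
  ring

theorem clarkson {p : ℝ} (hp : 2 ≤ p) (x y : ℝ) :
    |(x + y) / 2| ^ p + |(x - y) / 2| ^ p ≤ (|x| ^ p + |y| ^ p) / 2 := by
  have hq : 1 ≤ p / 2 := by linarith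
  rw [abs_rpow_eq, abs_rpow_eq, abs_rpow_eq, abs_rpow_eq]
  have h1 := Real.add_rpow_le_rpow_add (sq_nonneg ((x + y) / 2)) (sq_nonneg ((x - y) / 2)) hq
  have h2 := (convexOn_rpow hq).2 (show x ^ 2 ∈ Ici (0 : ℝ) from sq_nonneg x)
    (show y ^ 2 ∈ Ici (0 : ℝ) from sq_nonneg y) (show (0 : ℝ) ≤ 1 / 2 by norm_num)
    (show (0 : ℝ) ≤ 1 / 2 by norm_num) (by norm_num)
  simp only [smul_eq_mul] at h2
  have e : ((x + y) / 2) ^ 2 + ((x - y) / 2) ^ 2 = 1 / 2 * x ^ 2 + 1 / 2 * y ^ 2 := by ring
  rw [e] at h1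
  linarith

/-- a subgradient of `|.|^p` -/
theorem subgrad {p : ℝ} (hp : 1 ≤ p) (m : ℝ) : ∃ c : ℝ, ∀ t : ℝ, |m| ^ p + c * (t - m) ≤ |t| ^ p := by
  by_cases hm : m = 0
  · refine ⟨0, fun t => ?_⟩
    rw [hm, abs_zero, Real.zero_rpow (by linarith)]
    simp only [zero_mul, add_zero]
    positivity
  · refine ⟨|m| ^ p * p / m, fun t => ?_⟩
    have hma : 0 < |m| := abs_pos.2 hm
    have hmp : 0 < |m| ^ p := Real.rpow_pos_of_pos hma p
    have e1 : |m| ^ p + |m| ^ p * p / m * (t - m) = |m| ^ p * (1 + p * (t / m - 1)) := by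
      field_simp
    have e2 : |t| ^ p = |m| ^ p * |t / m| ^ p := by
      rw [← Real.mul_rpow (abs_nonneg _) (abs_nonneg _), ← abs_mul]
      congr 2
      field_simp
    rw [e1, e2]
    apply mul_le_mul_of_nonneg_left _ hmp.le
    rcases le_or_gt 0 (t / m) with h | h
    · rw [abs_of_nonneg h]
      have := one_add_mul_self_le_rpow_one_add (s := t / m - 1) (by linarith) hp
      have e3 : 1 + (t / m - 1) = t / m := by ring
      rw [e3] at this
      exact this
    · have h1 : 1 + p * (t / m - 1) ≤ 0 := by nlinarith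
      exact h1.trans (by positivity)

theorem scalar_gap {p : ℝ} (hp : 2 ≤ p) (m : ℝ) : ∃ c : ℝ, ∀ b : ℝ,
    |m| ^ p + c * (b - m) + 2 ^ (1 - p) * |b - m| ^ p ≤ |b| ^ p := by
  obtain ⟨c, hc⟩ := subgrad (by linarith : (1 : ℝ) ≤ p) m
  refine ⟨c, fun b => ?_⟩
  have h1 := clarkson hp b m
  have h2 := hc ((b + m) / 2)
  have e1 : |(b - m) / 2| ^ p = 2 ^ (-p) * |b - m| ^ p := by
    rw [abs_div, abs_of_pos (two_pos : (0 : ℝ) < 2), Real.div_rpow (abs_nonneg _) two_pos.le,
      Real.rpow_neg two_pos.le]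
    field_simp
  have e2 : (2 : ℝ) ^ (1 - p) = 2 * 2 ^ (-p) := by
    rw [sub_eq_add_neg, Real.rpow_add two_pos, Real.rpow_one]
  have e3 : (b + m) / 2 - m = (b - m) / 2 := by ring
  rw [e1] at h1
  rw [e3] at h2
  rw [e2]
  nlinarith

/-- normalised Lebesgue measure on the cube -/
noncomputable def nu (n : ℕ) (r : ℝ) : Measure (E n) :=
  (ENNReal.ofReal ((2 * r) ^ n))⁻¹ • volume.restrict (closedBall 0 r)

theorem nu_prob (n : ℕ) {r : ℝ} (hr : 0 < r) : IsProbabilityMeasure (nu n r) := by
  constructor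
  unfold nu
  rw [Measure.smul_apply, Measure.restrict_apply_univ, volume_cube 0 hr.le, smul_eq_mul]
  apply ENNReal.inv_mul_cancel
  · have : 0 < (2 * r) ^ n := by positivity
    simpa using this
  · exact ENNReal.ofReal_ne_top

theorem av_eq {n : ℕ} {r : ℝ} (hr : 0 < r) (h : E n → ℝ) (x : E n) :
    av r h x = ∫ w, h (x + w) ∂(nu n r) := by
  unfold av nu
  rw [integral_smul_measure, smul_eq_mul, ENNReal.toReal_inv, ENNReal.toReal_ofReal (by positivity)]
  congr 1
  have h1 := (measurePreserving_add_left (volume : Measure (E n)) x).setIntegral_preimage_emb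
    (MeasurableEquiv.addLeft x).measurableEmbedding h (closedBall x r)
  have h2 : (fun w => x + w) ⁻¹' closedBall x r = closedBall (0 : E n) r := by
    ext w
    simp [dist_eq_norm]
  rw [h2] at h1
  exact h1.symm

theorem shift_integrable {n : ℕ} {r : ℝ} (hr : 0 < r) {h : E n → ℝ} (hm : Measurable h)
    (hi : Integrable h) : Integrable (fun q : E n × E n => h (q.1 + q.2)) (volume.prod (nu n r)) := by
  have := nu_prob n hr
  have hm2 : Measurable (fun q : E n × E n => h (q.1 + q.2)) := hm.comp (by fun_prop)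
  rw [integrable_prod_iff' hm2.aestronglyMeasurable]
  constructor
  · refine ae_of_all _ ?_
    intro w
    exact hi.comp_add_right w
  · have e : ∀ w : E n, ∫ x : E n, ‖h (x + w)‖ = ∫ x : E n, ‖h x‖ := by
      intro w
      exact integral_add_right_eq_self (fun x => ‖h x‖) w
    simp only [e]
    exact integrable_const _

theorem integral_shift {n : ℕ} {r : ℝ} (hr : 0 < r) {h : E n → ℝ} (hm : Measurable h)
    (hi : Integrable h) : ∫ x, (∫ w, h (x + w) ∂(nu n r)) = ∫ x, h x := by
  have := nu_prob n hr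
  rw [integral_integral_swap (f := fun x w => h (x + w)) (shift_integrable hr hm hi)]
  have e : ∀ w : E n, ∫ x : E n, h (x + w) = ∫ x : E n, h x := by
    intro w
    exact integral_add_right_eq_self h w
  simp only [e]
  simp

theorem jensen_gap {n : ℕ} {p : ℝ} (hp : 2 ≤ p) {r : ℝ} (hr : 0 < r) {g : E n → ℝ}
    (hgm : Measurable g) (hg : Integrable g) (hgp : Integrable fun x => |g x| ^ p) :
    Measurable (av r g) ∧ Integrable (av r g) ∧ Integrable (fun x => |av r g x| ^ p) ∧
    Integrable (fun x => av r (fun y => |g y - av r g x| ^ p) x) ∧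
    (∫ x, |av r g x| ^ p) + 2 ^ (1 - p) * (∫ x, av r (fun y => |g y - av r g x| ^ p) x) ≤
      ∫ x, |g x| ^ p := by
  have hprob := nu_prob n hr
  obtain ⟨m, hm⟩ : ∃ m : E n → ℝ, m = av r g := ⟨_, rfl⟩
  have hmx : ∀ x, m x = ∫ w, g (x + w) ∂(nu n r) := by
    intro x; rw [hm, av_eq hr]
  rw [← hm]
  have hgpm : Measurable (fun x => |g x| ^ p) := by fun_prop
  have hjm : Measurable (fun q : E n × E n => g (q.1 + q.2)) := hgm.comp (by fun_prop)
  have hmm : Measurable m := by
    have h1 : StronglyMeasurable (fun x => ∫ w, g (x + w) ∂(nu n r)) :=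
      hjm.stronglyMeasurable.integral_prod_right'
    have h2 : m = fun x => ∫ w, g (x + w) ∂(nu n r) := funext hmx
    rw [h2]
    exact h1.measurable
  have hmi : Integrable m := by
    have h1 := (shift_integrable hr hgm hg).integral_prod_left
    have h2 : m = fun x => ∫ w, g (x + w) ∂(nu n r) := funext hmx
    rw [h2]
    exact h1
  obtain ⟨P, hP⟩ : ∃ P : E n → ℝ, P = fun x => ∫ w, |g (x + w)| ^ p ∂(nu n r) := ⟨_, rfl⟩
  obtain ⟨Gp, hGp⟩ : ∃ Gp : E n → ℝ, Gp = fun x => ∫ w, |g (x + w) - m x| ^ p ∂(nu n r) := ⟨_, rfl⟩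
  have hPi : Integrable P := by
    rw [hP]
    exact (shift_integrable hr hgpm hgp).integral_prod_left
  have hPint : ∫ x, P x = ∫ x, |g x| ^ p := by
    rw [hP]
    exact integral_shift hr hgpm hgp
  have hGm : Measurable Gp := by
    rw [hGp]
    have h1 : Measurable (fun q : E n × E n => |g (q.1 + q.2) - m q.1| ^ p) := by
      have h2 : Measurable (fun q : E n × E n => m q.1) := hmm.comp measurable_fst
      fun_prop
    exact (h1.stronglyMeasurable.integral_prod_right').measurable
  have hav : (fun x => av r (fun y => |g y - m x| ^ p) x) = Gp := by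
    rw [hGp]
    funext x
    rw [av_eq hr]
  have hG0 : ∀ x, 0 ≤ Gp x := by
    intro x
    rw [hGp]
    apply integral_nonneg
    intro w
    simp only [Pi.zero_apply]
    positivity
  have hae : ∀ᵐ x, |m x| ^ p + 2 ^ (1 - p) * Gp x ≤ P x := by
    filter_upwards [(shift_integrable hr hgm hg).prod_right_ae,
      (shift_integrable hr hgpm hgp).prod_right_ae] with x h1 h2
    obtain ⟨c, hc⟩ := scalar_gap hp (m x)
    have h2p : (0 : ℝ) < 2 ^ (1 - p) := Real.rpow_pos_of_pos two_pos _
    have i1 : Integrable (fun w => |g (x + w)| ^ p - |m x| ^ p - c * (g (x + w) - m x)) (nu n r) :=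
      (h2.sub (integrable_const _)).sub ((h1.sub (integrable_const _)).const_mul c)
    have hmeas : Measurable (fun w => 2 ^ (1 - p) * |g (x + w) - m x| ^ p) := by
      have : Measurable (fun w => g (x + w)) := hgm.comp (by fun_prop)
      fun_prop
    have i2 : Integrable (fun w => 2 ^ (1 - p) * |g (x + w) - m x| ^ p) (nu n r) := by
      refine i1.mono' hmeas.aestronglyMeasurable (ae_of_all _ ?_)
      intro w
      rw [Real.norm_eq_abs, abs_of_nonneg (by positivity)]
      have := hc (g (x + w))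
      linarith
    have h3 : ∫ w, 2 ^ (1 - p) * |g (x + w) - m x| ^ p ∂(nu n r) ≤
        ∫ w, (|g (x + w)| ^ p - |m x| ^ p - c * (g (x + w) - m x)) ∂(nu n r) := by
      apply integral_mono i2 i1
      intro w
      have := hc (g (x + w))
      change 2 ^ (1 - p) * |g (x + w) - m x| ^ p ≤
        |g (x + w)| ^ p - |m x| ^ p - c * (g (x + w) - m x)
      linarith
    have j1 : Integrable (fun w => |g (x + w)| ^ p - |m x| ^ p) (nu n r) := h2.sub (integrable_const _)
    have j2 : Integrable (fun w => c * (g (x + w) - m x)) (nu n r) :=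
      (h1.sub (integrable_const _)).const_mul c
    rw [integral_const_mul, integral_sub j1 j2, integral_sub h2 (integrable_const _),
      integral_const_mul, integral_sub h1 (integrable_const _), ← hmx x] at h3
    simp only [integral_const, probReal_univ, smul_eq_mul, one_mul, sub_self, mul_zero,
      sub_zero] at h3
    have e1 : ∫ w, |g (x + w)| ^ p ∂(nu n r) = P x := by rw [hP]
    have e2 : ∫ w, |g (x + w) - m x| ^ p ∂(nu n r) = Gp x := by rw [hGp]
    rw [e1, e2] at h3
    linarith
  have h2p : (0 : ℝ) < 2 ^ (1 - p) := Real.rpow_pos_of_pos two_pos _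
  have hmpm : Measurable (fun x => |m x| ^ p) := by fun_prop
  have hmpi : Integrable (fun x => |m x| ^ p) := by
    refine hPi.mono' hmpm.aestronglyMeasurable ?_
    filter_upwards [hae] with x hx
    rw [Real.norm_eq_abs, abs_of_nonneg (by positivity)]
    have := mul_nonneg h2p.le (hG0 x)
    linarith
  have hGi' : Integrable (fun x => 2 ^ (1 - p) * Gp x) := by
    refine hPi.mono' (by fun_prop) ?_
    filter_upwards [hae] with x hx
    rw [Real.norm_eq_abs, abs_of_nonneg (mul_nonneg h2p.le (hG0 x))]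
    have : 0 ≤ |m x| ^ p := by positivity
    linarith
  have hGi : Integrable Gp := by
    have h1 := hGi'.const_mul ((2 : ℝ) ^ (1 - p))⁻¹
    refine h1.congr (ae_of_all _ ?_)
    intro x
    simp only
    rw [inv_mul_cancel_left₀ h2p.ne']
  refine ⟨hmm, hmi, hmpi, ?_, ?_⟩
  · rw [hav]
    exact hGi
  · rw [hav, ← hPint, ← integral_const_mul, ← integral_add hmpi hGi']
    exact integral_mono_ae (hmpi.add hGi') hPi hae

end H930.BL.XJGap

namespace H930.BL

export XJGap (jensen_gap)

end H930.BL
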