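import Pool.Agent.Helper930.BL.Defs

set_option autoImplicit false

open MeasureTheory Metric Set Filter Topology
open scoped ENNReal NNReal ContDiff

namespace H930.BL


theorem sn_smul {n : ℕ} {M : Matrix (Fin n) (Fin n) ℝ} {t : ℝ} (ht : 0 < t) :
    sn (t • M) = t * sn M := by
  unfold sn
  simp only [Matrix.smul_apply, smul_eq_mul, abs_mul, abs_of_pos ht, Finset.mul_sum]

theorem kd_smul {n : ℕ} {M : Matrix (Fin n) (Fin n) ℝ} {t : ℝ} (ht : 0 < t) :
    kd (t • M) = kd M := by
  unfold kd
  have hd : (t • M).det = t ^ n * M.det := by rw [Matrix.det_smul]; simp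
  rw [hd, sn_smul ht]
  by_cases h : M.det = 0
  · simp [h]
  · have ht' : t ^ n ≠ 0 := (pow_pos ht n).ne'
    rw [if_neg h, if_neg (mul_ne_zero ht' h), mul_pow, mul_div_mul_left _ _ ht']

theorem integral_affine {n : ℕ} {s : ℝ} (hs : 0 < s) (a : E n) (F : E n → ℝ) :
    ∫ z, F (a + s • z) = (s ^ n)⁻¹ * ∫ x, F x := by
  have h := Measure.integral_comp_smul (volume : Measure (E n)) (fun x => F (a + x)) s
  rw [h, integral_add_left_eq_self (μ := (volume : Measure (E n))) F a]
  have : Module.finrank ℝ (E n) = n := by simp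
  rw [this, abs_of_pos (by positivity), smul_eq_mul]

theorem mem_cb {n : ℕ} {s : ℝ} (hs : 0 < s) (a z : E n) (r : ℝ) :
    a + s • z ∈ closedBall a (s * r) ↔ z ∈ closedBall 0 r := by
  rw [mem_closedBall, mem_closedBall, dist_zero_right, dist_eq_norm, add_sub_cancel_left,
    norm_smul, Real.norm_eq_abs, abs_of_pos hs]
  exact mul_le_mul_iff_right₀ hs

theorem setIntegral_affine {n : ℕ} {s : ℝ} (hs : 0 < s) (a : E n) (F : E n → ℝ) (r : ℝ) :
    ∫ z in closedBall 0 r, F (a + s • z) = (s ^ n)⁻¹ * ∫ x in closedBall a (s * r), F x := by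
  rw [← integral_indicator isClosed_closedBall.measurableSet,
    ← integral_indicator isClosed_closedBall.measurableSet, ← integral_affine hs a]
  congr 1
  ext z
  by_cases hz : z ∈ closedBall 0 r
  · rw [indicator_of_mem hz, indicator_of_mem ((mem_cb hs a z r).2 hz)]
  · rw [indicator_of_notMem hz, indicator_of_notMem (fun h => hz ((mem_cb hs a z r).1 h))]

/-! helper lemmas for the rescaling -/

theorem aff_inv {n : ℕ} {s : ℝ} (hs : 0 < s) (a z : E n) : s⁻¹ • ((a + s • z) - a) = z := by
  rw [add_sub_cancel_left, smul_smul, inv_mul_cancel₀ hs.ne', one_smul]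

theorem aff_inv' {n : ℕ} {s : ℝ} (hs : 0 < s) (a x : E n) : a + s • (s⁻¹ • (x - a)) = x := by
  rw [smul_smul, mul_inv_cancel₀ hs.ne', one_smul, add_sub_cancel]

/-- partial derivative of a function precomposed with a similarity -/
theorem pd_comp_affine {n : ℕ} {φ : E n → ℝ} (hφ : Differentiable ℝ φ) (t : ℝ) (a : E n)
    (j : Fin n) (x : E n) :
    pd (fun x => φ (t • (x - a))) j x = t * pd φ j (t • (x - a)) := by
  unfold pd
  have h1 : HasFDerivAt (fun x : E n => t • (x - a)) (t • ContinuousLinearMap.id ℝ (E n)) x :=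
    ((hasFDerivAt_id x).sub_const a).const_smul t
  have h2 := ((hφ (t • (x - a))).hasFDerivAt.comp x h1).fderiv
  have h3 : (φ ∘ fun x : E n => t • (x - a)) = fun x => φ (t • (x - a)) := rfl
  rw [h3] at h2
  rw [h2]
  simp

theorem integrableOn_affine {n : ℕ} {s : ℝ} (hs : 0 < s) (a : E n) {g : E n → ℝ} {K : Set (E n)}
    (hK : IsCompact K) (h : IntegrableOn g ((fun z => a + s • z) '' K)) :
    IntegrableOn (fun z => g (a + s • z)) K := by
  have hc : Continuous fun z : E n => a + s • z := by fun_prop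
  have hinj : Function.Injective fun z : E n => a + s • z := by
    intro x y hxy
    have := congrArg (fun w => s⁻¹ • (w - a)) hxy
    simpa only [aff_inv hs] using this
  rw [← integrable_indicator_iff hK.measurableSet]
  rw [← integrable_indicator_iff (hK.image hc).measurableSet] at h
  have h2 := (h.comp_add_left a)
  have h3 := (integrable_comp_smul_iff (volume : Measure (E n)) _ hs.ne').2 h2
  refine h3.congr (Filter.Eventually.of_forall fun z => ?_)
  symm
  simp only
  by_cases hz : z ∈ K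
  · rw [indicator_of_mem hz, indicator_of_mem (mem_image_of_mem _ hz)]
  · rw [indicator_of_notMem hz, indicator_of_notMem]
    rintro ⟨w, hw, hwz⟩
    exact hz (hinj hwz ▸ hw)

theorem ae_affine {n : ℕ} {s : ℝ} (hs : 0 < s) (a : E n) {P : E n → Prop}
    (h : ∀ᵐ x ∂(volume : Measure (E n)), P x) : ∀ᵐ z ∂(volume : Measure (E n)), P (a + s • z) := by
  rw [ae_iff] at h ⊢
  have e : {z : E n | ¬ P (a + s • z)} = (fun z : E n => s • z) ⁻¹' ((fun x => a + x) ⁻¹' {x | ¬ P x}) := rfl
  rw [e, Measure.addHaar_preimage_smul volume hs.ne', measure_preimage_add, h, mul_zero]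

theorem tsupport_comp_affine {n : ℕ} {s : ℝ} (hs : 0 < s) (a : E n) (φ : E n → ℝ) :
    tsupport (fun x => φ (s⁻¹ • (x - a))) = (fun z => a + s • z) '' tsupport φ := by
  let T : E n ≃ₜ E n :=
    { toFun := fun x => s⁻¹ • (x - a)
      invFun := fun z => a + s • z
      left_inv := fun x => aff_inv' hs a x
      right_inv := fun z => aff_inv hs a z
      continuous_toFun := by fun_prop
      continuous_invFun := by fun_prop }
  have h := tsupport_comp_eq_preimage φ T
  have h2 : (fun z => a + s • z) '' tsupport φ = T ⁻¹' tsupport φ := T.symm.image_eq_preimage_symm _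
  rw [h2]
  exact h

theorem compact_tsupport_affine {n : ℕ} {s : ℝ} (hs : 0 < s) (a : E n) {φ : E n → ℝ}
    (hφ : HasCompactSupport φ) : HasCompactSupport (fun x => φ (s⁻¹ • (x - a))) := by
  unfold HasCompactSupport
  rw [tsupport_comp_affine hs]
  exact hφ.isCompact.image (by fun_prop)

theorem integral_pd_eq_zero {n : ℕ} {φ : E n → ℝ} (hφ : ContDiff ℝ ∞ φ)
    (hc : HasCompactSupport φ) (j : Fin n) : ∫ x, pd φ j x = 0 := by
  have hcont : Continuous (pd φ j) := continuous_pd (hφ.of_le (by exact_mod_cast le_top)) j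
  have hcs : HasCompactSupport (pd φ j) :=
    hc.mono' fun x hx => by
      by_contra hcon
      exact hx (pd_eq_zero_of_notMem hcon j)
  have hdiff : Differentiable ℝ φ := hφ.differentiable (by simp)
  have h := integral_mul_fderiv_eq_neg_fderiv_mul_of_integrable (μ := (volume : Measure (E n)))
    (𝕜 := ℝ) (f := fun _ : E n => (1 : ℝ)) (g := φ) (v := Pi.single j 1)
    (by simp) (by simp only [one_mul]; exact hcont.integrable_of_hasCompactSupport hcs)
    (by simp only [one_mul]; exact hφ.continuous.integrable_of_hasCompactSupport hc)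
    (fun x _ => differentiableAt_const _) (fun x _ => hdiff x)
  simpa [pd] using h

theorem integrable_mul_pd {n : ℕ} {f : E n → ℝ} {Ω : Set (E n)} (hΩ : IsOpen Ω)
    (hf : ContinuousOn f Ω) {φ : E n → ℝ} (hφ : ContDiff ℝ ∞ φ)
    (hc : HasCompactSupport φ) (hs : tsupport φ ⊆ Ω) (j : Fin n) :
    Integrable fun x => f x * pd φ j x := by
  have hcont : Continuous (pd φ j) := continuous_pd (hφ.of_le (by exact_mod_cast le_top)) j
  have hsub : Function.support (fun x => f x * pd φ j x) ⊆ tsupport φ := by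
    intro x hx
    by_contra hcon
    apply hx
    simp only
    rw [pd_eq_zero_of_notMem hcon, mul_zero]
  have hts : tsupport (fun x => f x * pd φ j x) ⊆ tsupport φ :=
    closure_minimal hsub (isClosed_tsupport φ)
  have h1 : Continuous fun x => f x * pd φ j x := by
    apply continuous_of_tsupport
    intro x hx
    exact (hf.continuousAt (hΩ.mem_nhds (hs (hts hx)))).mul hcont.continuousAt
  exact h1.integrable_of_hasCompactSupport (hc.mono' hsub)

theorem rescale {n : ℕ} {f : E n → E n} {D : E n → Matrix (Fin n) (Fin n) ℝ} {Ω : Set (E n)}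
    (h : FDMap f D Ω) (hn : 2 ≤ n) {s μ : ℝ} (hs : 0 < s) (hμ : 0 < μ) (a c : E n) :
    FDMap (fun z => μ • (f (a + s • z) - c)) (fun z => (μ * s) • D (a + s • z))
      {z | a + s • z ∈ Ω} := by
  have hT : Continuous fun z : E n => a + s • z := by fun_prop
  have hμs : 0 < μ * s := mul_pos hμ hs
  have hmaps : MapsTo (fun z : E n => a + s • z) {z | a + s • z ∈ Ω} Ω := fun z hz => hz
  have himg : ∀ K : Set (E n), K ⊆ {z | a + s • z ∈ Ω} → (fun z => a + s • z) '' K ⊆ Ω := by
    rintro K hK _ ⟨z, hz, rfl⟩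
    exact hK hz
  have hcont : ContinuousOn (fun z => f (a + s • z)) {z | a + s • z ∈ Ω} :=
    h.cont.comp hT.continuousOn hmaps
  have hdet : ∀ M : Matrix (Fin n) (Fin n) ℝ, ((μ * s) • M).det = (μ * s) ^ n * M.det := by
    intro M; rw [Matrix.det_smul]; simp
  have hopen : IsOpen {z : E n | a + s • z ∈ Ω} := h.isOpen.preimage hT
  refine ⟨hopen, ?_, ?_, ?_, ?_, ?_, ?_, ?_⟩
  · exact (hcont.sub continuousOn_const).const_smul μ
  · intro i j
    simp only [Matrix.smul_apply, smul_eq_mul]
    exact ((h.meas i j).comp hT.measurable).const_mul _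
  · -- weak
    intro φ hφ hc hsub i j
    set φt : E n → ℝ := fun x => φ (s⁻¹ • (x - a)) with hφt
    have hφt_smooth : ContDiff ℝ ∞ φt := hφ.comp ((contDiff_id.sub contDiff_const).const_smul _)
    have hφt_c : HasCompactSupport φt := compact_tsupport_affine hs a hc
    have hφt_s : tsupport φt ⊆ Ω := by
      rw [hφt, tsupport_comp_affine hs]
      exact himg _ hsub
    have hw := h.weak φt hφt_smooth hφt_c hφt_s i j
    have hpd : ∀ x, pd φt j x = s⁻¹ * pd φ j (s⁻¹ • (x - a)) := fun x =>
      pd_comp_affine (hφ.differentiable (by simp)) s⁻¹ a j x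
    have hpd2 : ∀ z, pd φ j z = s * pd φt j (a + s • z) := by
      intro z
      rw [hpd, aff_inv hs, ← mul_assoc, mul_inv_cancel₀ hs.ne', one_mul]
    have hφ2 : ∀ z, φ z = φt (a + s • z) := by
      intro z
      simp only [hφt, aff_inv hs]
    have hi := integrable_mul_pd hopen (f := fun z => f (a + s • z) i)
      (fun z hz => (continuous_apply i).continuousAt.comp_continuousWithinAt (hcont z hz))
      hφ hc hsub j
    have hi2 := integrable_mul_pd hopen (f := fun _ => c i) continuousOn_const hφ hc hsub j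
    have e1 : ∫ x, (μ • (f (a + s • x) - c)) i * pd φ j x
        = μ * (∫ x, f (a + s • x) i * pd φ j x) - μ * (∫ x, c i * pd φ j x) := by
      rw [← integral_const_mul, ← integral_const_mul, ← integral_sub (hi.const_mul μ) (hi2.const_mul μ)]
      congr 1
      ext x
      simp only [Pi.smul_apply, Pi.sub_apply, smul_eq_mul]
      ring
    have e2 : ∫ x, c i * pd φ j x = 0 := by
      rw [integral_const_mul, integral_pd_eq_zero hφ hc, mul_zero]
    have e3 : ∫ x, f (a + s • x) i * pd φ j x = s * ((s ^ n)⁻¹ * ∫ x, f x i * pd φt j x) := by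
      rw [← integral_affine hs a (fun x => f x i * pd φt j x), ← integral_const_mul]
      congr 1
      ext x
      rw [hpd2]
      ring
    have e4 : ∫ x, ((μ * s) • D (a + s • x)) i j * φ x
        = (μ * s) * ((s ^ n)⁻¹ * ∫ x, D x i j * φt x) := by
      rw [← integral_affine hs a (fun x => D x i j * φt x), ← integral_const_mul]
      congr 1
      ext x
      rw [hφ2]
      simp only [Matrix.smul_apply, smul_eq_mul]
      ring
    rw [e1, e2, e3, e4, hw]
    ring
  · -- pos
    have h1 := h.pos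
    rw [ae_restrict_iff' h.isOpen.measurableSet] at h1
    rw [ae_restrict_iff' hopen.measurableSet]
    filter_upwards [ae_affine hs a h1] with z hz hzΩ
    obtain ⟨h2, h3⟩ := hz hzΩ
    have hp : 0 < (μ * s) ^ n := pow_pos hμs n
    rw [hdet]
    refine ⟨mul_nonneg hp.le h2, fun h4 => ?_⟩
    rw [h3 ((mul_eq_zero.1 h4).resolve_left hp.ne'), smul_zero]
  · intro K hK hKs
    simp only [hdet]
    exact (integrableOn_affine hs a hK (h.det_int _ (hK.image hT) (himg K hKs))).const_mul _
  · intro q K hK hKs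
    simp only [kd_smul hμs]
    exact integrableOn_affine hs a hK (h.kd_int q _ (hK.image hT) (himg K hKs))
  · -- ident
    intro η hη hηc hηs ψ hψ i
    set ηt : E n → ℝ := fun x => η (s⁻¹ • (x - a)) with hηt
    set ψt : E n → ℝ := fun y => ψ (μ • (y - c)) with hψt
    have hηt_smooth : ContDiff ℝ ∞ ηt := hη.comp ((contDiff_id.sub contDiff_const).const_smul _)
    have hψt_smooth : ContDiff ℝ ∞ ψt := hψ.comp ((contDiff_id.sub contDiff_const).const_smul _)
    have hηt_c : HasCompactSupport ηt := compact_tsupport_affine hs a hηc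
    have hηt_s : tsupport ηt ⊆ Ω := by
      rw [hηt, tsupport_comp_affine hs]
      exact himg _ hηs
    have hw := h.ident ηt hηt_smooth hηt_c hηt_s ψt hψt_smooth i
    have hpdη : ∀ j z, pd η j z = s * pd ηt j (a + s • z) := by
      intro j z
      have : pd ηt j (a + s • z) = s⁻¹ * pd η j (s⁻¹ • ((a + s • z) - a)) :=
        pd_comp_affine (hη.differentiable (by simp)) s⁻¹ a j _
      rw [this, aff_inv hs, ← mul_assoc, mul_inv_cancel₀ hs.ne', one_mul]
    have hpdψ : ∀ y, pd ψ i (μ • (y - c)) = μ⁻¹ * pd ψt i y := by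
      intro y
      have : pd ψt i y = μ * pd ψ i (μ • (y - c)) :=
        pd_comp_affine (hψ.differentiable (by simp)) μ c i _
      rw [this, ← mul_assoc, inv_mul_cancel₀ hμ.ne', one_mul]
    have hη2 : ∀ z, η z = ηt (a + s • z) := by
      intro z
      simp only [hηt, aff_inv hs]
    have hadj : ∀ M : Matrix (Fin n) (Fin n) ℝ,
        ((μ * s) • M).adjugate = (μ * s) ^ (n - 1) • M.adjugate := by
      intro M; rw [Matrix.adjugate_smul]; simp
    have e1 : ∫ x, η x * pd ψ i (μ • (f (a + s • x) - c)) * ((μ * s) • D (a + s • x)).det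
        = (μ⁻¹ * (μ * s) ^ n) * ((s ^ n)⁻¹ * ∫ x, ηt x * pd ψt i (f x) * (D x).det) := by
      rw [← integral_affine hs a (fun x => ηt x * pd ψt i (f x) * (D x).det), ← integral_const_mul]
      congr 1
      ext x
      rw [hη2, hpdψ, hdet]
      ring
    have e2 : ∫ x, ψ (μ • (f (a + s • x) - c)) *
          ∑ j, ((μ * s) • D (a + s • x)).adjugate j i * pd η j x
        = ((μ * s) ^ (n - 1) * s) * ((s ^ n)⁻¹ *
          ∫ x, ψt (f x) * ∑ j, (D x).adjugate j i * pd ηt j x) := by
      rw [← integral_affine hs a (fun x => ψt (f x) * ∑ j, (D x).adjugate j i * pd ηt j x),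
        ← integral_const_mul]
      congr 1
      ext x
      rw [hadj]
      have : ∑ j, ((μ * s) ^ (n - 1) • (D (a + s • x)).adjugate) j i * pd η j x
          = ((μ * s) ^ (n - 1) * s) * ∑ j, (D (a + s • x)).adjugate j i * pd ηt j (a + s • x) := by
        rw [Finset.mul_sum]
        refine Finset.sum_congr rfl fun j _ => ?_
        rw [hpdη, Matrix.smul_apply, smul_eq_mul]
        ring
      rw [this]
      simp only [hψt]
      ring
    rw [e1, e2, hw]
    obtain ⟨m, rfl⟩ : ∃ m, n = m + 1 := ⟨n - 1, by omega⟩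
    rw [Nat.add_sub_cancel]
    field_simp
    ring

theorem univ_rescale {n : ℕ} {f : E n → E n} {Ω : Set (E n)} {s μ : ℝ} (hs : 0 < s) (hμ : 0 < μ)
    (a c y : E n) (r : ℝ)
    (h : Univ (fun z => μ • (f (a + s • z) - c)) {z | a + s • z ∈ Ω} y r) :
    Univ f Ω (c + μ⁻¹ • y) (μ⁻¹ * r) := by
  obtain ⟨U, g, hU, hUΩ, hg, h1, h2⟩ := h
  have hball : ∀ y', y' ∈ ball (c + μ⁻¹ • y) (μ⁻¹ * r) ↔ μ • (y' - c) ∈ ball y r := by
    intro y'
    rw [mem_ball, mem_ball, dist_eq_norm, dist_eq_norm]
    have e : μ • (y' - c) - y = μ • (y' - (c + μ⁻¹ • y)) := by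
      rw [smul_sub, smul_sub, smul_add, smul_smul, mul_inv_cancel₀ hμ.ne', one_smul]
      abel
    rw [e, norm_smul, Real.norm_eq_abs, abs_of_pos hμ, lt_inv_mul_iff₀ hμ]
  refine ⟨{x | s⁻¹ • (x - a) ∈ U}, fun y' => a + s • g (μ • (y' - c)), ?_, ?_, ?_, ?_, ?_⟩
  · exact hU.preimage (by fun_prop)
  · intro x hx
    have := hUΩ hx
    simp only [mem_ofPred_eq, aff_inv' hs] at this
    exact this
  · refine continuousOn_const.add (ContinuousOn.const_smul ?_ s)
    exact hg.comp (by fun_prop) fun y' hy' => (hball y').1 hy'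
  · intro z hz
    obtain ⟨h3, h4⟩ := h1 _ ((hball z).1 hz)
    refine ⟨?_, ?_⟩
    · simp only [mem_ofPred_eq, aff_inv hs]
      exact h3
    · have := congrArg (fun w => c + μ⁻¹ • w) h4
      simp only [smul_smul, inv_mul_cancel₀ hμ.ne', one_smul, add_sub_cancel] at this
      exact this
  · intro x hx
    obtain ⟨h3, h4⟩ := h2 _ hx
    simp only [aff_inv' hs] at h3 h4
    refine ⟨(hball _).2 h3, ?_⟩
    simp only
    rw [h4, aff_inv' hs]

theorem univ_mono {n : ℕ} {f : E n → E n} {Ω Ω' : Set (E n)} {y : E n} {r r' : ℝ}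
    (h : Univ f Ω y r) (hf : ContinuousOn f Ω) (hr : r' ≤ r) (hΩ : Ω ⊆ Ω') : Univ f Ω' y r' := by
  obtain ⟨U, g, hU, hUΩ, hg, h1, h2⟩ := h
  refine ⟨U ∩ f ⁻¹' ball y r', g, (hf.mono hUΩ).isOpen_inter_preimage hU isOpen_ball,
    fun x hx => hΩ (hUΩ hx.1), hg.mono (ball_subset_ball hr), ?_, ?_⟩
  · intro z hz
    obtain ⟨h3, h4⟩ := h1 z (ball_subset_ball hr hz)
    refine ⟨⟨h3, ?_⟩, h4⟩
    rw [mem_preimage, h4]
    exact hz
  · rintro x ⟨hx, hx2⟩
    exact ⟨hx2, (h2 x hx).2⟩

end H930.BL
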