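import Pool.Agent.Helper930.BL.Hol
import Pool.Agent.Helper930.BL.EnergyIneq

set_option autoImplicit false

open MeasureTheory Metric Set Filter Topology
open scoped ENNReal NNReal ContDiff

namespace H930.BL


namespace SLAux

theorem ae_pos {n : ℕ} {f : E n → E n} {D : E n → Matrix (Fin n) (Fin n) ℝ} {Ω : Set (E n)}
    (h : FDMap f D Ω) {K : Set (E n)} (hK : K ⊆ Ω) :
    ∀ᵐ x ∂(volume.restrict K), 0 ≤ (D x).det :=
  (ae_restrict_of_ae_restrict_of_subset hK h.pos).mono fun _ hx => hx.1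

theorem kd_mono {n : ℕ} {f : E n → E n} {D : E n → Matrix (Fin n) (Fin n) ℝ} {Ω : Set (E n)}
    (h : FDMap f D Ω) {K L : Set (E n)} (hKL : K ⊆ L) (hLc : IsCompact L) (hL : L ⊆ Ω) (q : ℕ) :
    ∫ x in K, kd (D x) ^ q ≤ ∫ x in L, kd (D x) ^ q := by
  refine setIntegral_mono_set (h.kd_int q L hLc hL) ?_ (Filter.Eventually.of_forall hKL)
  filter_upwards [ae_pos h hL] with x hx
  exact pow_nonneg (kd_nonneg hx) _

theorem kd_low {n : ℕ} (hn : 2 ≤ n) {f : E n → E n} {D : E n → Matrix (Fin n) (Fin n) ℝ}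
    {Ω : Set (E n)} (h : FDMap f D Ω) (h1 : closedBall 0 1 ⊆ Ω) {Λ : ℝ}
    (hΛ : ∫ x in closedBall 0 1, kd (D x) ^ (2 * n - 1) ≤ Λ) :
    ∫ x in closedBall (0 : E n) (1 / 2), kd (D x) ^ (n - 1) ≤ 1 + Λ := by
  have hs : closedBall (0 : E n) (1 / 2) ⊆ closedBall 0 1 := closedBall_subset_closedBall (by norm_num)
  have hc : IsCompact (closedBall (0 : E n) (1 / 2)) := isCompact_closedBall _ _
  have hi1 := h.kd_int (n - 1) _ hc (hs.trans h1)
  have hi2 := h.kd_int (2 * n - 1) _ hc (hs.trans h1)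
  have hfin : volume (closedBall (0 : E n) (1 / 2)) = 1 := by
    rw [volume_cube _ (by norm_num)]; norm_num
  have hic : IntegrableOn (fun _ : E n => (1 : ℝ)) (closedBall (0 : E n) (1 / 2)) := by
    refine integrableOn_const ?_
    rw [hfin]; exact ENNReal.one_ne_top
  have hle : ∫ x in closedBall (0 : E n) (1 / 2), kd (D x) ^ (n - 1) ≤
      ∫ x in closedBall (0 : E n) (1 / 2), ((1 : ℝ) + kd (D x) ^ (2 * n - 1)) := by
    refine integral_mono_ae hi1 (hic.add hi2) ?_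
    filter_upwards [ae_pos h (hs.trans h1)] with x hx
    have hk := kd_nonneg hx
    show kd (D x) ^ (n - 1) ≤ 1 + kd (D x) ^ (2 * n - 1)
    rcases le_total (kd (D x)) 1 with h2 | h2
    · have := pow_le_one₀ hk h2 (n := n - 1)
      have h3 := pow_nonneg hk (2 * n - 1)
      linarith
    · have := pow_le_pow_right₀ h2 (show n - 1 ≤ 2 * n - 1 by omega)
      linarith
  have hadd : ∫ x in closedBall (0 : E n) (1 / 2), ((1 : ℝ) + kd (D x) ^ (2 * n - 1)) =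
      1 + ∫ x in closedBall (0 : E n) (1 / 2), kd (D x) ^ (2 * n - 1) := by
    rw [integral_add hic hi2]
    congr 1
    rw [setIntegral_const]
    simp [measureReal_def]
  rw [hadd] at hle
  have := kd_mono h hs (isCompact_closedBall _ _) h1 (2 * n - 1)
  linarith

theorem J_low {n : ℕ} (hn : 2 ≤ n) {f : E n → E n} {D : E n → Matrix (Fin n) (Fin n) ℝ}
    {Ω : Set (E n)} (h : FDMap f D Ω) (h1 : closedBall 0 1 ⊆ Ω) {Λ : ℝ} (hΛ1 : 1 ≤ Λ)
    (hlow : Λ⁻¹ ≤ ∫ x in closedBall 0 (1 / 4), sn (D x) ^ pe n)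
    (hΛ : ∫ x in closedBall 0 1, kd (D x) ^ (2 * n - 1) ≤ Λ) :
    (Λ ^ 3)⁻¹ ≤ ∫ x in closedBall (0 : E n) (1 / 4), (D x).det := by
  have hs : closedBall (0 : E n) (1 / 4) ⊆ closedBall 0 1 := closedBall_subset_closedBall (by norm_num)
  have hc : IsCompact (closedBall (0 : E n) (1 / 4)) := isCompact_closedBall _ _
  set J := ∫ x in closedBall (0 : E n) (1 / 4), (D x).det with hJ
  have hJ0 : 0 ≤ J := integral_nonneg_of_ae (ae_pos h (hs.trans h1))
  have hol := (hol2 h (by omega) hc (hs.trans h1)).2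
  set I := ∫ x in closedBall (0 : E n) (1 / 4), kd (D x) ^ (2 * n - 1) with hI
  have hI0 : 0 ≤ I := by
    refine integral_nonneg_of_ae ?_
    filter_upwards [ae_pos h (hs.trans h1)] with x hx
    exact pow_nonneg (kd_nonneg hx) _
  have hIΛ : I ≤ Λ := (kd_mono h hs (isCompact_closedBall _ _) h1 (2 * n - 1)).trans hΛ
  have hΛ0 : 0 < Λ := by linarith
  have hn0 : (0 : ℝ) < n := by exact_mod_cast (show 0 < n by omega)
  have h2n : (0 : ℝ) < 2 * (n : ℝ) := by linarith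
  have key : Λ⁻¹ ≤ J ^ (1 - 1 / (2 * (n : ℝ))) * Λ ^ (1 / (2 * (n : ℝ))) := by
    refine hlow.trans (hol.trans ?_)
    refine mul_le_mul_of_nonneg_left ?_ (Real.rpow_nonneg hJ0 _)
    exact Real.rpow_le_rpow hI0 hIΛ (by positivity)
  have key2 : (Λ⁻¹) ^ (2 * n) ≤ J ^ (2 * n - 1) * Λ := by
    have h3 := pow_le_pow_left₀ (inv_nonneg.2 hΛ0.le) key (2 * n)
    rw [mul_pow, ← Real.rpow_natCast (J ^ _) (2 * n), ← Real.rpow_mul hJ0,
      ← Real.rpow_natCast (Λ ^ _) (2 * n), ← Real.rpow_mul hΛ0.le] at h3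
    have e1 : (1 - 1 / (2 * (n : ℝ))) * ((2 * n : ℕ) : ℝ) = ((2 * n - 1 : ℕ) : ℝ) := by
      rw [Nat.cast_sub (by omega)]
      push_cast
      field_simp
    have e2 : 1 / (2 * (n : ℝ)) * ((2 * n : ℕ) : ℝ) = 1 := by
      push_cast
      field_simp
    rw [e1, e2, Real.rpow_natCast, Real.rpow_one] at h3
    exact h3
  have key3 : ((Λ ^ 3)⁻¹) ^ (2 * n - 1) ≤ J ^ (2 * n - 1) := by
    have h4 : (Λ⁻¹) ^ (2 * n) * Λ⁻¹ ≤ J ^ (2 * n - 1) := by
      have := mul_le_mul_of_nonneg_right key2 (inv_nonneg.2 hΛ0.le)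
      rwa [mul_assoc, mul_inv_cancel₀ hΛ0.ne', mul_one] at this
    refine le_trans ?_ h4
    rw [← pow_succ, ← inv_pow, ← pow_mul]
    exact pow_le_pow_of_le_one (inv_nonneg.2 hΛ0.le) (inv_le_one_of_one_le₀ hΛ1) (by omega)
  exact le_of_pow_le_pow_left₀ (by omega) hJ0 key3

theorem w_low {n : ℕ} (hn : 2 ≤ n) {C : ℝ} (hC : 0 < C) {Λ w J : ℝ} (hΛ1 : 1 ≤ Λ) (hw : 0 ≤ w)
    (hJ : (Λ ^ 3)⁻¹ ≤ J) (hE : J ≤ C * (w / (1 / 4)) ^ n * (1 + Λ)) :
    min 1 (2 * C)⁻¹ / 4 * (Λ ^ 2)⁻¹ ≤ w := by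
  by_contra hcon
  push Not at hcon
  have hΛ0 : 0 < Λ := by linarith
  set c := min 1 (2 * C)⁻¹ with hc
  have hc0 : 0 < c := lt_min one_pos (by positivity)
  have h1 : w / (1 / 4) < c * (Λ ^ 2)⁻¹ := by
    have : w / (1 / 4) = 4 * w := by ring
    rw [this]
    linarith
  have h2 : (w / (1 / 4)) ^ n < (c * (Λ ^ 2)⁻¹) ^ n :=
    pow_lt_pow_left₀ h1 (by positivity) (by omega)
  have h3 : (c * (Λ ^ 2)⁻¹) ^ n ≤ (2 * C)⁻¹ * (Λ ^ 4)⁻¹ := by
    rw [mul_pow]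
    refine mul_le_mul ?_ ?_ (by positivity) (by positivity)
    · calc c ^ n ≤ c ^ 1 := pow_le_pow_of_le_one hc0.le (min_le_left _ _) (by omega)
        _ = c := pow_one c
        _ ≤ _ := min_le_right _ _
    · rw [← inv_pow, ← inv_pow, ← pow_mul]
      exact pow_le_pow_of_le_one (inv_nonneg.2 hΛ0.le) (inv_le_one_of_one_le₀ hΛ1) (by omega)
  have h4 : (w / (1 / 4)) ^ n < (2 * C)⁻¹ * (Λ ^ 4)⁻¹ := lt_of_lt_of_le h2 h3
  have h5 : C * (w / (1 / 4)) ^ n * (1 + Λ) < C * ((2 * C)⁻¹ * (Λ ^ 4)⁻¹) * (1 + Λ) := by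
    refine mul_lt_mul_of_pos_right ?_ (by linarith)
    exact mul_lt_mul_of_pos_left h4 hC
  have h6 : C * ((2 * C)⁻¹ * (Λ ^ 4)⁻¹) * (1 + Λ) ≤ (Λ ^ 3)⁻¹ := by
    have e : C * ((2 * C)⁻¹ * (Λ ^ 4)⁻¹) * (1 + Λ) = (Λ ^ 3)⁻¹ * ((1 + Λ) / (2 * Λ)) := by
      field_simp
    rw [e]
    have : (1 + Λ) / (2 * Λ) ≤ 1 := by
      rw [div_le_one (by positivity)]; linarith
    calc _ ≤ (Λ ^ 3)⁻¹ * 1 := mul_le_mul_of_nonneg_left this (by positivity)
      _ = _ := mul_one _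
  linarith

theorem lin_bound {n : ℕ} (M : Matrix (Fin n) (Fin n) ℝ) (c : E n) (g : E n) {ε : ℝ}
    (u : Fin n → ℝ) (hu : ∑ i, u i ^ 2 = 1) (x : E n) (hx : ‖x‖ ≤ 1 / 2)
    (hg : ∀ i, |g i - (M.mulVec x i + c i)| ≤ ε) :
    |∑ i, u i * g i - ∑ i, u i * c i| ≤ 1 / 2 * ∑ j, |∑ i, M i j * u i| + n * ε := by
  have hu1 : ∀ i, |u i| ≤ 1 := by
    intro i
    have h1 : u i ^ 2 ≤ 1 := by
      rw [← hu]
      exact Finset.single_le_sum (f := fun i => u i ^ 2) (fun _ _ => sq_nonneg _)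
        (Finset.mem_univ i)
    exact abs_le_one_iff_mul_self_le_one.2 (by nlinarith)
  have e : ∑ i, u i * g i - ∑ i, u i * c i =
      ∑ i, u i * (g i - (M.mulVec x i + c i)) + ∑ j, (∑ i, M i j * u i) * x j := by
    have e2 : ∑ j, (∑ i, M i j * u i) * x j = ∑ i, u i * M.mulVec x i := by
      simp only [Matrix.mulVec, dotProduct, Finset.sum_mul, Finset.mul_sum]
      rw [Finset.sum_comm]
      refine Finset.sum_congr rfl fun i _ => Finset.sum_congr rfl fun j _ => by ring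
    rw [e2, ← Finset.sum_add_distrib, ← Finset.sum_sub_distrib]
    refine Finset.sum_congr rfl fun i _ => by ring
  rw [e]
  refine (abs_add_le _ _).trans ?_
  rw [add_comm]
  refine add_le_add ?_ ?_
  · refine (Finset.abs_sum_le_sum_abs _ _).trans ?_
    rw [Finset.mul_sum]
    refine Finset.sum_le_sum fun j _ => ?_
    rw [abs_mul, mul_comm]
    refine mul_le_mul_of_nonneg_right ?_ (abs_nonneg _)
    exact (norm_le_pi_norm x j).trans hx
  · refine (Finset.abs_sum_le_sum_abs _ _).trans ?_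
    calc ∑ i, |u i * (g i - (M.mulVec x i + c i))| ≤ ∑ _i : Fin n, ε := by
          refine Finset.sum_le_sum fun i _ => ?_
          rw [abs_mul]
          calc |u i| * |g i - (M.mulVec x i + c i)| ≤ 1 * |g i - (M.mulVec x i + c i)| :=
                mul_le_mul_of_nonneg_right (hu1 i) (abs_nonneg _)
            _ ≤ ε := by rw [one_mul]; exact hg i
      _ = n * ε := by simp

theorem homog {n : ℕ} (M : Matrix (Fin n) (Fin n) ℝ) {σ : ℝ} (hσ : 0 ≤ σ)
    (h : ∀ u : Fin n → ℝ, ∑ i, u i ^ 2 = 1 → σ ≤ ∑ j, |∑ i, M i j * u i|) (v : Fin n → ℝ)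
    (k : Fin n) : σ * |v k| ≤ ∑ j, |∑ i, M i j * v i| := by
  by_cases hv : v k = 0
  · rw [hv, abs_zero, mul_zero]
    exact Finset.sum_nonneg fun _ _ => abs_nonneg _
  · set N := Real.sqrt (∑ i, v i ^ 2) with hN
    have hs : v k ^ 2 ≤ ∑ i, v i ^ 2 :=
      Finset.single_le_sum (f := fun i => v i ^ 2) (fun _ _ => sq_nonneg _) (Finset.mem_univ k)
    have hpos : 0 < ∑ i, v i ^ 2 := lt_of_lt_of_le (by positivity) hs
    have hN0 : 0 < N := Real.sqrt_pos.2 hpos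
    have hNs : N ^ 2 = ∑ i, v i ^ 2 := Real.sq_sqrt hpos.le
    have hkN : |v k| ≤ N := Real.abs_le_sqrt hs
    have h1 := h (fun i => v i / N) (by
      simp only [div_pow]
      rw [← Finset.sum_div, hNs, div_self hpos.ne'])
    have e : ∀ j, |∑ i, M i j * (v i / N)| = |∑ i, M i j * v i| / N := by
      intro j
      rw [← abs_of_pos hN0, ← abs_div, abs_of_pos hN0, Finset.sum_div]
      congr 1
      refine Finset.sum_congr rfl fun i _ => by ring
    simp only [e] at h1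
    rw [← Finset.sum_div, le_div_iff₀ hN0] at h1
    exact (mul_le_mul_of_nonneg_left hkN hσ).trans h1

theorem conclude {n : ℕ} (M : Matrix (Fin n) (Fin n) ℝ) {σ : ℝ} (hσ : 0 < σ)
    (h : ∀ (v : Fin n → ℝ) (k : Fin n), σ * |v k| ≤ ∑ j, |∑ i, M i j * v i|) (x : E n) :
    σ * ‖x‖ ≤ n * ‖M.mulVec x‖ := by
  have hinj : Function.Injective (Matrix.toLin' M.transpose) := by
    rw [injective_iff_map_eq_zero]
    intro v hv
    funext k
    have h1 := h v k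
    have h2 : ∑ j, |∑ i, M i j * v i| = 0 := by
      refine Finset.sum_eq_zero fun j _ => ?_
      have h3 := congrFun hv j
      simp only [Matrix.toLin'_apply, Matrix.mulVec, dotProduct, Matrix.transpose_apply,
        Pi.zero_apply] at h3
      rw [h3, abs_zero]
    rw [h2] at h1
    have h4 : |v k| ≤ 0 := by
      by_contra hcon
      push Not at hcon
      have := mul_pos hσ hcon
      linarith
    exact abs_eq_zero.1 (le_antisymm h4 (abs_nonneg _))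
  have hsurj := LinearMap.injective_iff_surjective.1 hinj
  have hx : ∀ k, σ * |x k| ≤ n * ‖M.mulVec x‖ := by
    intro k
    obtain ⟨v, hv⟩ := hsurj (Pi.single k 1)
    have hv' : ∀ j, ∑ i, M i j * v i = (Pi.single k (1 : ℝ) : Fin n → ℝ) j := by
      intro j
      have h3 := congrFun hv j
      simp only [Matrix.toLin'_apply, Matrix.mulVec, dotProduct, Matrix.transpose_apply] at h3
      exact h3
    have hvb : ∀ j, σ * |v j| ≤ 1 := by
      intro j
      refine (h v j).trans (le_of_eq ?_)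
      simp only [hv']
      rw [Finset.sum_eq_single k]
      · simp
      · intro b _ hb
        rw [Pi.single_eq_of_ne hb, abs_zero]
      · simp
    have hxk : x k = ∑ i, v i * M.mulVec x i := by
      have e2 : ∑ i, v i * M.mulVec x i = ∑ j, (∑ i, M i j * v i) * x j := by
        simp only [Matrix.mulVec, dotProduct, Finset.sum_mul, Finset.mul_sum]
        rw [Finset.sum_comm]
        refine Finset.sum_congr rfl fun i _ => Finset.sum_congr rfl fun j _ => by ring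
      rw [e2]
      simp only [hv']
      rw [Finset.sum_eq_single k]
      · simp
      · intro b _ hb
        rw [Pi.single_eq_of_ne hb, zero_mul]
      · simp
    rw [hxk]
    calc σ * |∑ i, v i * M.mulVec x i| ≤ σ * ∑ i, |v i * M.mulVec x i| :=
          mul_le_mul_of_nonneg_left (Finset.abs_sum_le_sum_abs _ _) hσ.le
      _ = ∑ i, σ * |v i| * |M.mulVec x i| := by
          rw [Finset.mul_sum]
          refine Finset.sum_congr rfl fun i _ => by rw [abs_mul]; ring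
      _ ≤ ∑ _i : Fin n, 1 * ‖M.mulVec x‖ := by
          refine Finset.sum_le_sum fun i _ => ?_
          exact mul_le_mul (hvb i) (norm_le_pi_norm (M.mulVec x) i) (abs_nonneg _) zero_le_one
      _ = n * ‖M.mulVec x‖ := by simp
  have h0 : 0 ≤ (n : ℝ) * ‖M.mulVec x‖ := by positivity
  have h5 : ‖x‖ ≤ n * ‖M.mulVec x‖ / σ := by
    rw [pi_norm_le_iff_of_nonneg (by positivity)]
    intro k
    rw [le_div_iff₀ hσ, mul_comm]
    exact hx k
  rw [le_div_iff₀ hσ, mul_comm] at h5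
  exact h5

end SLAux

theorem sigma_lower {n : ℕ} (hn : 2 ≤ n) : ∃ κ : ℝ, 0 < κ ∧ ∀ (f : E n → E n)
    (D : E n → Matrix (Fin n) (Fin n) ℝ) (Ω : Set (E n)), FDMap f D Ω → closedBall 0 1 ⊆ Ω →
    ∀ (M : Matrix (Fin n) (Fin n) ℝ) (c : E n) (Λ ε : ℝ), 1 ≤ Λ → 0 ≤ ε →
    (∀ x ∈ closedBall (0 : E n) (1 / 2), ∀ i, |f x i - (M.mulVec x i + c i)| ≤ ε) →
    Λ⁻¹ ≤ ∫ x in closedBall 0 (1 / 4), sn (D x) ^ pe n →
    ∫ x in closedBall 0 1, kd (D x) ^ (2 * n - 1) ≤ Λ →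
    ε ≤ κ * (Λ ^ 2)⁻¹ → ∀ x : E n, κ * (Λ ^ 2)⁻¹ * ‖x‖ ≤ ‖M.mulVec x‖ := by
  obtain ⟨C, hC, hen⟩ := energy_ineq hn
  have hn0 : (0 : ℝ) < n := by exact_mod_cast (show 0 < n by omega)
  set c1 : ℝ := min 1 (2 * C)⁻¹ / 4 with hc1
  have hc10 : 0 < c1 := by
    have : 0 < min 1 (2 * C)⁻¹ := lt_min one_pos (by positivity)
    positivity
  refine ⟨c1 / (2 * n), by positivity, ?_⟩
  intro f D Ω h h1 M c Λ ε hΛ1 hε haff hlow hΛ hεκ x
  have hΛ0 : 0 < Λ := by linarith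
  have hJ := SLAux.J_low hn h h1 hΛ1 hlow hΛ
  have hK := SLAux.kd_low hn h h1 hΛ
  have hsum : ((1 : ℝ) / 4 + 1 / 4) = 1 / 2 := by norm_num
  have hL : (0 : ℝ) < (Λ ^ 2)⁻¹ := by positivity
  have hunit : ∀ u : Fin n → ℝ, ∑ i, u i ^ 2 = 1 →
      c1 * (Λ ^ 2)⁻¹ ≤ ∑ j, |∑ i, M i j * u i| := by
    intro u hu
    have hS0 : 0 ≤ ∑ j, |∑ i, M i j * u i| := Finset.sum_nonneg fun _ _ => abs_nonneg _
    have hw0 : 0 ≤ 1 / 2 * ∑ j, |∑ i, M i j * u i| + n * ε := by positivity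
    have hE := hen f D Ω h 0 (1 / 4) (1 / 4) (by norm_num) (by norm_num) (by
      rw [hsum]
      exact (closedBall_subset_closedBall (by norm_num)).trans h1) u hu (∑ i, u i * c i)
      (1 / 2 * ∑ j, |∑ i, M i j * u i| + n * ε) hw0 (by
        intro y hy
        rw [hsum] at hy
        exact SLAux.lin_bound M c (f y) u hu y (by simpa using hy) (haff y hy))
    rw [hsum] at hE
    have hE2 : ∫ x in closedBall (0 : E n) (1 / 4), (D x).det ≤
        C * ((1 / 2 * ∑ j, |∑ i, M i j * u i| + n * ε) / (1 / 4)) ^ n * (1 + Λ) := by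
      refine hE.trans (mul_le_mul_of_nonneg_left hK ?_)
      have := pow_nonneg (div_nonneg hw0 (show (0 : ℝ) ≤ 1 / 4 by norm_num)) n
      positivity
    have hw := SLAux.w_low hn hC hΛ1 hw0 hJ hE2
    have h2 : (n : ℝ) * ε ≤ c1 * (Λ ^ 2)⁻¹ / 2 := by
      calc (n : ℝ) * ε ≤ n * (c1 / (2 * n) * (Λ ^ 2)⁻¹) := mul_le_mul_of_nonneg_left hεκ hn0.le
        _ = c1 * (Λ ^ 2)⁻¹ / 2 := by field_simp
    rw [← hc1] at hw
    linarith
  have hσ : 0 < c1 * (Λ ^ 2)⁻¹ := by positivity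
  have hfin := SLAux.conclude M hσ (fun v k => SLAux.homog M hσ.le hunit v k) x
  have h3 : c1 / (2 * n) * (Λ ^ 2)⁻¹ * ‖x‖ = (c1 * (Λ ^ 2)⁻¹ * ‖x‖) / (2 * n) := by
    field_simp
  rw [h3, div_le_iff₀ (by positivity)]
  have h4 : 0 ≤ (n : ℝ) * ‖M.mulVec x‖ := by positivity
  linarith

end H930.BL
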