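import Pool.Agent.Helper930.BL.Defs

set_option autoImplicit false

open MeasureTheory Metric Set Filter Topology
open scoped ENNReal NNReal ContDiff

namespace H930.BL


theorem univ_of_fibres {n : ℕ} {f : E n → E n} {a : E n} {s : ℝ} (hs : 0 < s)
    (hf : ContinuousOn f (closedBall a s))
    {y₀ : E n} {r : ℝ} (hr : 0 < r) (hout : ∀ x ∈ sphere a s, f x ∉ closedBall y₀ r)
    (hne : ∀ y ∈ ball y₀ r, {x | x ∈ ball a s ∧ f x = y}.Nonempty)
    (hss : ∀ y ∈ ball y₀ r, {x | x ∈ ball a s ∧ f x = y}.Subsingleton) :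
    Univ f (ball a s) y₀ r := by
  classical
  let g : E n → E n := fun y => if h : y ∈ ball y₀ r then (hne y h).some else a
  have hg : ∀ y ∈ ball y₀ r, g y ∈ ball a s ∧ f (g y) = y := by
    intro y hy
    have h1 : g y = (hne y hy).some := dif_pos hy
    rw [h1]
    exact (hne y hy).some_mem
  have hfb : ContinuousOn f (ball a s) := hf.mono ball_subset_closedBall
  refine ⟨ball a s ∩ f ⁻¹' ball y₀ r, g, hfb.isOpen_inter_preimage isOpen_ball isOpen_ball,
    inter_subset_left, ?_, ?_, ?_⟩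
  · intro y hy
    refine ContinuousAt.continuousWithinAt ?_
    rw [ContinuousAt, _root_.tendsto_nhds]
    intro V hVo hgV
    -- compact set
    have hK : IsCompact (closedBall a s \ V) := (isCompact_closedBall a s).diff hVo
    have hfK : IsClosed (f '' (closedBall a s \ V)) :=
      (hK.image_of_continuousOn (hf.mono diff_subset)).isClosed
    have hynot : y ∉ f '' (closedBall a s \ V) := by
      rintro ⟨x, ⟨hx, hxV⟩, hfx⟩
      rcases eq_or_lt_of_le (mem_closedBall.1 hx) with h | h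
      · exact hout x (mem_sphere.2 h) (by rw [hfx]; exact ball_subset_closedBall hy)
      · have h1 := hss y hy (show x ∈ {x | x ∈ ball a s ∧ f x = y} from ⟨h, hfx⟩) (hg y hy)
        rw [h1] at hxV
        exact hxV hgV
    have h1 : (f '' (closedBall a s \ V))ᶜ ∈ 𝓝 y := hfK.isOpen_compl.mem_nhds hynot
    have h2 : ball y₀ r ∈ 𝓝 y := isOpen_ball.mem_nhds hy
    filter_upwards [h1, h2] with y' hy' hy'b
    by_contra hV
    have h3 := hg y' hy'b
    exact hy' ⟨g y', ⟨ball_subset_closedBall h3.1, hV⟩, h3.2⟩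
  · intro z hz
    have h3 := hg z hz
    refine ⟨⟨h3.1, ?_⟩, h3.2⟩
    rw [mem_preimage, h3.2]
    exact hz
  · rintro x ⟨hx, hfx⟩
    refine ⟨hfx, ?_⟩
    exact hss (f x) hfx (hg (f x) hfx) ⟨hx, rfl⟩

end H930.BL
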