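import Pool.Agent.Helper930.BL.SupClose
import Pool.Agent.Helper930.BL.Sigma
import Pool.Agent.Helper930.BL.DegAff
import Pool.Agent.Helper930.BL.Conn
import Pool.Agent.Helper930.BL.FibrePt
import Pool.Agent.Helper930.BL.TopoU
import Pool.Agent.Helper930.BL.Resc

set_option autoImplicit false

open MeasureTheory Metric Set Filter Topology
open scoped ENNReal NNReal ContDiff

namespace H930.BL.XLoc

variable {n : ℕ}


theorem loc {n : ℕ} (hn : 3 ≤ n) : ∃ C : ℝ, 1 ≤ C ∧ ∀ (f : E n → E n)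
    (D : E n → Matrix (Fin n) (Fin n) ℝ) (Ω : Set (E n)), FDMap f D Ω → closedBall 0 1 ⊆ Ω →
    ∀ (M : Matrix (Fin n) (Fin n) ℝ) (c : E n) (Λ ε : ℝ), 1 ≤ Λ → 0 < ε →
    sn M ≤ Λ → ∫ x in closedBall 0 1, sn (D x) ^ pe n ≤ 1 →
    Λ⁻¹ ≤ ∫ x in closedBall 0 (1 / 4), sn (D x) ^ pe n →
    ∫ x in closedBall 0 1, kd (D x) ^ (2 * n - 1) ≤ Λ →
    ∫ x in closedBall 0 1, ∑ i, |f x i - (M.mulVec x i + c i)| ^ pe n ≤ ε ^ pe n →
    ε * (C * Λ ^ 3) ^ (8 * n) ≤ 1 →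
    ∃ y, Univ f (closedBall 0 1) y ((C * Λ ^ 2)⁻¹) := by
  obtain ⟨C1, hC1, hsup⟩ := sup_close (n := n) (by omega)
  obtain ⟨κ, hκ, hsig⟩ := sigma_lower (n := n) (by omega)
  obtain ⟨C, hC⟩ : ∃ C : ℝ, C = 4 + 16 * C1 / κ + 8 / κ := ⟨_, rfl⟩
  have hC4 : 4 ≤ C := by
    rw [hC]
    have h1 : 0 < 16 * C1 / κ := by positivity
    have h2 : 0 < 8 / κ := by positivity
    linarith
  have hCa : 16 * C1 / κ ≤ C := by
    rw [hC]
    have h2 : 0 < 8 / κ := by positivity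
    linarith
  have hCb : 8 / κ ≤ C := by
    rw [hC]
    have h1 : 0 < 16 * C1 / κ := by positivity
    linarith
  have hC0 : 0 < C := by linarith
  refine ⟨C, by linarith, ?_⟩
  intro f D Ω h hΩ M c Λ ε hΛ hε hM hD hlow hkd hclose hsmall
  have hn0 : 0 < n := by omega
  obtain ⟨T, hT⟩ : ∃ T : ℝ, T = C * Λ ^ 3 := ⟨_, rfl⟩
  rw [← hT] at hsmall
  have hΛ3 : 1 ≤ Λ ^ 3 := one_le_pow₀ hΛ
  have hT4 : 4 ≤ T := by
    rw [hT]; nlinarith
  have hT0 : 0 < T := by linarith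
  have hεT : ε ≤ (T⁻¹) ^ (8 * n) := by
    rw [inv_pow, ← one_div, le_div_iff₀ (by positivity)]
    exact hsmall
  have hε8 : ε ≤ (1 / 4) ^ 8 := by
    refine hεT.trans ?_
    have h1 : T⁻¹ ≤ 1 / 4 := by
      rw [← one_div]
      exact one_div_le_one_div_of_le (by norm_num) hT4
    calc (T⁻¹) ^ (8 * n) ≤ (1 / 4) ^ (8 * n) := by
          exact pow_le_pow_left₀ (by positivity) h1 _
      _ ≤ (1 / 4) ^ 8 := pow_le_pow_of_le_one (by norm_num) (by norm_num) (by omega)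
  have hεr : ε ^ (1 / (8 * (n : ℝ))) ≤ T⁻¹ := by
    have h1 : ε ^ (1 / (8 * (n : ℝ))) ≤ ((T⁻¹) ^ (8 * n)) ^ (1 / (8 * (n : ℝ))) :=
      Real.rpow_le_rpow hε.le hεT (by positivity)
    refine h1.trans (le_of_eq ?_)
    rw [← Real.rpow_natCast, ← Real.rpow_mul (by positivity)]
    have h2 : ((8 * n : ℕ) : ℝ) * (1 / (8 * (n : ℝ))) = 1 := by
      have : (n : ℝ) ≠ 0 := by exact_mod_cast hn0.ne'
      push_cast
      field_simp
    rw [h2, Real.rpow_one]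
  obtain ⟨σ, hσ⟩ : ∃ σ : ℝ, σ = κ * (Λ ^ 2)⁻¹ := ⟨_, rfl⟩
  have hΛ0 : 0 < Λ := by linarith
  have hσ0 : 0 < σ := by rw [hσ]; positivity
  obtain ⟨ε', hε'⟩ : ∃ ε' : ℝ, ε' = (C1 / C) * (Λ ^ 2)⁻¹ := ⟨_, rfl⟩
  have hε'0 : 0 ≤ ε' := by rw [hε']; positivity
  have hε'σ : ε' ≤ σ / 16 := by
    rw [hε', hσ]
    have h1 : C1 / C ≤ κ / 16 := by
      rw [div_le_div_iff₀ hC0 (by norm_num)]
      rw [div_le_iff₀ hκ] at hCa
      linarith
    have h2 : 0 < (Λ ^ 2)⁻¹ := by positivity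
    calc C1 / C * (Λ ^ 2)⁻¹ ≤ κ / 16 * (Λ ^ 2)⁻¹ := by gcongr
      _ = κ * (Λ ^ 2)⁻¹ / 16 := by ring
  have hf1 : ∀ x ∈ closedBall (0 : E n) (1 / 2), ∀ i,
      |f x i - (M.mulVec x i + c i)| ≤ ε' := by
    intro x hx i
    refine (hsup f D Ω h hΩ M c Λ ε hΛ hε hε8 hM hD hclose x hx i).trans ?_
    calc C1 * Λ * ε ^ (1 / (8 * (n : ℝ))) ≤ C1 * Λ * T⁻¹ := by gcongr
      _ = ε' := by
        rw [hε', hT]
        field_simp
  have hlb := hsig f D Ω h hΩ M c Λ ε' hΛ hε'0 hf1 hlow hkd (by rw [← hσ]; linarith)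
  rw [← hσ] at hlb
  have hf2 : ∀ x ∈ closedBall (0 : E n) (1 / 2), ∀ i,
      |f x i - (M.mulVec x i + c i)| ≤ σ / 16 := fun x hx i => (hf1 x hx i).trans hε'σ
  have hΩ2 : closedBall (0 : E n) (1 / 2) ⊆ Ω :=
    (closedBall_subset_closedBall (by norm_num)).trans hΩ
  have hcont : ContinuousOn f (closedBall (0 : E n) (1 / 2)) := h.cont.mono hΩ2
  have hout : ∀ x ∈ sphere (0 : E n) (1 / 2), f x ∉ closedBall c (σ / 8) := by
    intro x hx hx2
    have hxn : ‖x‖ = 1 / 2 := by simpa using hx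
    have h1 := hlb x
    rw [hxn] at h1
    have h2 : ‖f x - (M.mulVec x + c)‖ ≤ σ / 16 := by
      rw [pi_norm_le_iff_of_nonneg (by positivity)]
      intro i
      rw [Real.norm_eq_abs]
      exact hf2 x (sphere_subset_closedBall hx) i
    have h3 : ‖f x - c‖ ≤ σ / 8 := by
      rw [mem_closedBall, dist_eq_norm] at hx2
      exact hx2
    have h4 : ‖M.mulVec x‖ ≤ ‖f x - c‖ + ‖f x - (M.mulVec x + c)‖ := by
      have h5 : M.mulVec x = (f x - c) - (f x - (M.mulVec x + c)) := by abel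
      calc ‖M.mulVec x‖ = ‖(f x - c) - (f x - (M.mulVec x + c))‖ := by rw [← h5]
        _ ≤ _ := norm_sub_le _ _
    linarith
  let ψ : ContDiffBump c := ⟨σ / 32, σ / 16, by positivity, by linarith⟩
  have hψs : tsupport ψ ⊆ ball c (σ / 8) := by
    rw [ψ.tsupport_eq]
    exact closedBall_subset_ball (by show σ / 16 < σ / 8; linarith)
  have hψi : 0 < ∫ y, ψ y := ψ.integral_pos
  have hdeg := deg_affine (n := n) (by omega) h hΩ2 M c hσ0 hlb hf2 (ψ := ψ) ψ.contDiff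
    ψ.hasCompactSupport hψs
  obtain ⟨hfib, hdeg2⟩ := fibre_conn (n := n) (by omega) h (a := 0) (s := 1 / 2) (by norm_num) hΩ2
    (y₀ := c) (r := σ / 8) (by positivity) hout (ψ₀ := ψ) ψ.continuous ψ.hasCompactSupport hψs
    hψi.ne' hdeg
  have huniv : Univ f (ball 0 (1 / 2)) c (σ / 8) :=
    univ_of_fibres (by norm_num) hcont (by positivity) hout (fun y hy => (hfib y hy).1)
      (fun y hy => fibre_point hn h (by norm_num) hΩ2 (by positivity) hout hdeg2 hy (hfib y hy).2)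
  refine ⟨c, univ_mono huniv (hcont.mono ball_subset_closedBall) ?_ ?_⟩
  · rw [hσ, mul_inv]
    have h1 : C⁻¹ ≤ κ / 8 := by
      rw [← one_div, div_le_div_iff₀ hC0 (by norm_num)]
      rw [div_le_iff₀ hκ] at hCb
      linarith
    calc C⁻¹ * (Λ ^ 2)⁻¹ ≤ κ / 8 * (Λ ^ 2)⁻¹ := by gcongr
      _ = κ * (Λ ^ 2)⁻¹ / 8 := by ring
  · exact ball_subset_closedBall.trans (closedBall_subset_closedBall (by norm_num))

end H930.BL.XLoc

namespace H930.BL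

export XLoc (loc)

end H930.BL
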