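import Pool.Agent.Helper930.BL.Defs2
import Pool.Agent.Helper930.BL.CloseA
import Pool.Agent.Helper930.BL.Loc
import Pool.Agent.Helper930.BL.Resc
import Pool.Agent.Helper930.BL.Hol

set_option autoImplicit false

open MeasureTheory Metric Set Filter Topology
open scoped ENNReal NNReal ContDiff

namespace H930.BL.XMqL

variable {n : ℕ}


theorem auxmq_sn_smul {n : ℕ} {t : ℝ} (ht : 0 ≤ t) (M : Matrix (Fin n) (Fin n) ℝ) :
    sn (t • M) = t * sn M := by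
  unfold sn
  simp only [Matrix.smul_apply, smul_eq_mul, abs_mul, abs_of_nonneg ht, Finset.mul_sum]

/-- the exponent estimate -/
theorem auxmq_eps {n : ℕ} (hn : 3 ≤ n) {κ C2 C4 ρ p : ℝ} (hκ : 0 < κ)
    (hκn : κ ≤ 1 / (200 * (n : ℝ) ^ 2)) (hC2 : 1 ≤ C2) (hC4 : 1 ≤ C4) (hρ0 : 0 < ρ)
    (hρ1 : ρ ≤ 1 / 2) (hρ2 : ρ ≤ (((2 : ℝ) ^ n * C2 * C4) ^ (8 * n))⁻¹) (hp1 : 1 ≤ p) (hpn : p ≤ n) :
    (2 ^ n * C2 * ρ ^ (1 / 4 - κ)) ^ (1 / p) * (C4 * (ρ ^ (-κ)) ^ (24 * n)) ≤ 1 := by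
  have hnR : (3 : ℝ) ≤ n := by exact_mod_cast hn
  have hn0 : (0 : ℝ) < n := by linarith
  have hρ1' : ρ ≤ 1 := by linarith
  have h200 : 0 < 200 * (n : ℝ) ^ 2 := by positivity
  have hκ1 : κ * (200 * (n : ℝ) ^ 2) ≤ 1 := by
    rwa [le_div_iff₀ h200] at hκn
  have hn2 : (9 : ℝ) ≤ (n : ℝ) ^ 2 := by nlinarith
  have hκ2 : κ ≤ 1 / 1800 := by
    have h1 : κ * 1800 ≤ κ * (200 * (n : ℝ) ^ 2) := by
      apply mul_le_mul_of_nonneg_left _ hκ.le
      linarith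
    linarith
  have hκ3 : κ * (1 + 24 * (n : ℝ) ^ 2) ≤ 1 / 8 := by
    have h1 : κ * (1 + 24 * (n : ℝ) ^ 2) ≤ κ * (25 * (n : ℝ) ^ 2) := by
      apply mul_le_mul_of_nonneg_left _ hκ.le
      linarith
    linarith
  set C5 : ℝ := (2 : ℝ) ^ n * C2 * C4 with hC5
  have h2n : (1 : ℝ) ≤ 2 ^ n := one_le_pow₀ (by norm_num)
  have hB : (1 : ℝ) ≤ 2 ^ n * C2 := by nlinarith
  have hC5' : 1 ≤ C5 := by nlinarith
  have hip : 1 / p ≤ 1 := by
    rw [div_le_one (by linarith)]; exact hp1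
  have hip0 : 0 < 1 / p := by positivity
  -- first factor
  have h1 : (2 ^ n * C2 * ρ ^ (1 / 4 - κ)) ^ (1 / p) ≤ 2 ^ n * C2 * ρ ^ ((1 / 4 - κ) / n) := by
    rw [Real.mul_rpow (by positivity) (by positivity), ← Real.rpow_mul hρ0.le]
    have h2 : (2 ^ n * C2) ^ (1 / p) ≤ 2 ^ n * C2 := by
      calc (2 ^ n * C2) ^ (1 / p) ≤ (2 ^ n * C2) ^ (1 : ℝ) :=
            Real.rpow_le_rpow_of_exponent_le hB hip
        _ = 2 ^ n * C2 := Real.rpow_one _
    have h3 : ρ ^ ((1 / 4 - κ) * (1 / p)) ≤ ρ ^ ((1 / 4 - κ) / n) := by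
      apply Real.rpow_le_rpow_of_exponent_ge hρ0 hρ1'
      rw [div_eq_mul_one_div]
      apply mul_le_mul_of_nonneg_left _ (by linarith)
      exact one_div_le_one_div_of_le (by linarith) hpn
    gcongr
  have h2 : (ρ ^ (-κ)) ^ (24 * n) = ρ ^ (-κ * (24 * n)) := by
    rw [← Real.rpow_natCast, ← Real.rpow_mul hρ0.le]
    push_cast
    ring_nf
  have h3 : ρ ^ ((1 / 4 - κ) / n) * ρ ^ (-κ * (24 * n)) ≤ ρ ^ (1 / (8 * (n : ℝ))) := by
    rw [← Real.rpow_add hρ0]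
    apply Real.rpow_le_rpow_of_exponent_ge hρ0 hρ1'
    rw [div_add' _ _ _ hn0.ne', div_le_div_iff₀ (by positivity) hn0]
    nlinarith
  have h4 : ρ ^ (1 / (8 * (n : ℝ))) ≤ C5⁻¹ := by
    have h5 : ρ ^ (1 / (8 * (n : ℝ))) ≤ ((C5 ^ (8 * n))⁻¹) ^ (1 / (8 * (n : ℝ))) :=
      Real.rpow_le_rpow hρ0.le hρ2 (by positivity)
    refine h5.trans (le_of_eq ?_)
    rw [← inv_pow, ← Real.rpow_natCast, ← Real.rpow_mul (by positivity)]
    have h6 : ((8 * n : ℕ) : ℝ) * (1 / (8 * (n : ℝ))) = 1 := by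
      push_cast
      field_simp
    rw [h6, Real.rpow_one]
  calc (2 ^ n * C2 * ρ ^ (1 / 4 - κ)) ^ (1 / p) * (C4 * (ρ ^ (-κ)) ^ (24 * n))
      ≤ (2 ^ n * C2 * ρ ^ ((1 / 4 - κ) / n)) * (C4 * (ρ ^ (-κ)) ^ (24 * n)) := by gcongr
    _ = (2 ^ n * C2 * C4) * (ρ ^ ((1 / 4 - κ) / n) * ρ ^ (-κ * (24 * n))) := by rw [h2]; ring
    _ ≤ C5 * C5⁻¹ := by
        rw [← hC5]
        gcongr
        exact h3.trans h4
    _ = 1 := mul_inv_cancel₀ (by positivity)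

theorem mq_local {n : ℕ} (hn : 3 ≤ n) {κ C : ℝ} (hκ : 0 < κ) (hκn : κ ≤ 1 / (200 * (n : ℝ) ^ 2))
    (hC : 1 ≤ C) : ∃ (C' ρ₀ : ℝ), 1 ≤ C' ∧ 0 < ρ₀ ∧ ρ₀ ≤ 1 / 2 ∧ ∀ ρ, 0 < ρ → ρ ≤ ρ₀ →
    ∀ (f : E n → E n) (D : E n → Matrix (Fin n) (Fin n) ℝ) (Ω : Set (E n)), FDMap f D Ω →
    ∀ (x : E n) (r : ℝ) (l : List ℝ) (G : Fin n → Fin n → E n → ℝ)
      (M : Matrix (Fin n) (Fin n) ℝ) (w : ℝ), Good D ρ κ C x r l G M w →
      closedBall x (2 * r) ⊆ Ω →
      ∃ y, Univ f (closedBall x r) y (C'⁻¹ * r * ρ ^ (2 * n + 1)) := by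
  obtain ⟨C1, hC1, hclose⟩ := close_affine (n := n) (by omega)
  obtain ⟨C3, hC3, hloc⟩ := loc hn
  have hnR : (3 : ℝ) ≤ n := by exact_mod_cast hn
  have hn0 : (0 : ℝ) < n := by linarith
  have hpe : pe n = (n : ℝ) - 1 / 2 := rfl
  have hp52 : 5 / 2 ≤ pe n := by rw [hpe]; linarith
  have hp0 : 0 < pe n := by linarith
  have hp1 : 1 ≤ pe n := by linarith
  have hpn : pe n ≤ n := by rw [hpe]; linarith
  have hip : 1 / pe n ≤ 1 := by
    rw [div_le_one (by linarith)]; exact hp1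
  have hip0 : 0 < 1 / pe n := by positivity
  have h200 : 0 < 200 * (n : ℝ) ^ 2 := by positivity
  have hn2 : (9 : ℝ) ≤ (n : ℝ) ^ 2 := by nlinarith
  have hκ2 : κ ≤ 1 / 1800 := by
    have h1 : κ * (200 * (n : ℝ) ^ 2) ≤ 1 := by
      rwa [le_div_iff₀ h200] at hκn
    have h2 : κ * 1800 ≤ κ * (200 * (n : ℝ) ^ 2) := by
      apply mul_le_mul_of_nonneg_left _ hκ.le
      linarith
    linarith
  have hC0 : 0 < C := by linarith
  have h2p : (0 : ℝ) < 2 ^ pe n := by positivity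
  set C2 : ℝ := C1 * C * (2 ^ pe n + 1) + 1 with hC2def
  have hC2 : 1 ≤ C2 := by
    have : 0 < C1 * C * (2 ^ pe n + 1) := by positivity
    linarith
  set N0 : ℝ := (n : ℝ) ^ 2 * 2 ^ n * C with hN0
  have h2n : (1 : ℝ) ≤ 2 ^ n := one_le_pow₀ (by norm_num)
  have hN01 : 1 ≤ N0 := by
    have h1 : (1 : ℝ) ≤ (n : ℝ) ^ 2 := by linarith
    have h2 : (1 : ℝ) ≤ (n : ℝ) ^ 2 * 2 ^ n := by nlinarith
    rw [hN0]
    nlinarith
  set C4 : ℝ := (C3 * N0 ^ 3) ^ (8 * n) with hC4def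
  have hC4 : 1 ≤ C4 := by
    apply one_le_pow₀
    have : 1 ≤ N0 ^ 3 := one_le_pow₀ hN01
    nlinarith
  refine ⟨2 ^ n * C * (C3 * N0 ^ 2), min (1 / 2) (((2 : ℝ) ^ n * C2 * C4) ^ (8 * n))⁻¹, ?_,
    by positivity, min_le_left _ _, ?_⟩
  · have h1 : 1 ≤ (2 : ℝ) ^ n * C := by nlinarith
    have h2 : 1 ≤ N0 ^ 2 := one_le_pow₀ hN01
    have h3 : 1 ≤ C3 * N0 ^ 2 := by nlinarith
    nlinarith
  intro ρ hρ0 hρ f D Ω hFD x r l G M w g hball
  have hρ1 : ρ ≤ 1 / 2 := hρ.trans (min_le_left _ _)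
  have hρ1' : ρ ≤ 1 := by linarith
  have hρ2 := hρ.trans (min_le_right _ _)
  have hr := g.r_pos
  have hw := g.w_pos
  have hrn : 0 < r ^ n := by positivity
  have hρκ : 0 < ρ ^ (-κ) := by positivity
  have hρκ1 : 1 ≤ ρ ^ (-κ) := by
    rw [Real.rpow_neg hρ0.le]
    apply one_le_inv_iff₀.2
    exact ⟨by positivity, Real.rpow_le_one hρ0.le hρ1' hκ.le⟩
  have hρq : 0 < ρ ^ (1 / 4 - κ) := by positivity
  have hrp : 0 < r ^ pe n := by positivity
  have hlsum0 : 0 ≤ l.sum := List.sum_nonneg (fun t ht => (g.l_pos t ht).le)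
  have hlsum : l.sum ≤ r := by
    refine g.l_sum.trans ?_
    nlinarith
  -- step 1: affine approximation
  obtain ⟨c, hc⟩ := hclose f D Ω hFD x r l G M (r ^ pe n * r ^ n * w * ρ ^ (1 / 4 - κ)) hr g.l_pos
    hlsum (by positivity) hball g.G_meas g.G_eq
  set X : ℝ := ∫ y in closedBall x r, ∑ i, |f y i - (M.mulVec (y - x) i + c i)| ^ pe n with hX
  have hXle : X ≤ C2 * (r ^ pe n * r ^ n * w * ρ ^ (1 / 4 - κ)) := by
    refine hc.trans ?_
    have hout0 : 0 ≤ ∫ y in closedBall x (2 * r), sn (D y) ^ pe n :=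
      integral_nonneg (fun y => Real.rpow_nonneg (sn_nonneg _) _)
    have h1 : l.sum ^ pe n ≤ 2 ^ pe n * ρ ^ pe n * r ^ pe n := by
      rw [← Real.mul_rpow (by norm_num) hρ0.le, ← Real.mul_rpow (by positivity) hr.le]
      exact Real.rpow_le_rpow hlsum0 g.l_sum hp0.le
    have h2 : l.sum ^ pe n * (∫ y in closedBall x (2 * r), sn (D y) ^ pe n) ≤
        (2 ^ pe n * ρ ^ pe n * r ^ pe n) * (C * ρ ^ (-κ) * r ^ n * w) :=
      mul_le_mul h1 g.outer hout0 (by positivity)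
    have h3 : ρ ^ pe n * ρ ^ (-κ) ≤ ρ ^ (1 / 4 - κ) := by
      rw [← Real.rpow_add hρ0]
      apply Real.rpow_le_rpow_of_exponent_ge hρ0 hρ1'
      linarith
    have h4 : (2 ^ pe n * ρ ^ pe n * r ^ pe n) * (C * ρ ^ (-κ) * r ^ n * w) ≤
        C * 2 ^ pe n * (r ^ pe n * r ^ n * w * ρ ^ (1 / 4 - κ)) := by
      calc (2 ^ pe n * ρ ^ pe n * r ^ pe n) * (C * ρ ^ (-κ) * r ^ n * w)
          = C * 2 ^ pe n * (r ^ pe n * r ^ n * w * (ρ ^ pe n * ρ ^ (-κ))) := by ring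
        _ ≤ _ := by gcongr
    have h5 : r ^ pe n * ∑ i, ∑ j, ∫ y in closedBall x r, |avs l (G i j) y - M i j| ^ pe n ≤
        C * (r ^ pe n * r ^ n * w * ρ ^ (1 / 4 - κ)) := by
      calc r ^ pe n * ∑ i, ∑ j, ∫ y in closedBall x r, |avs l (G i j) y - M i j| ^ pe n
          ≤ r ^ pe n * (C * ρ ^ (1 / 4 - κ) * r ^ n * w) := by
            have := g.osc
            gcongr
        _ = _ := by ring
    have h6 : C1 * (l.sum ^ pe n * (∫ y in closedBall x (2 * r), sn (D y) ^ pe n) +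
        r ^ pe n * ∑ i, ∑ j, ∫ y in closedBall x r, |avs l (G i j) y - M i j| ^ pe n) ≤
        C1 * (C * 2 ^ pe n * (r ^ pe n * r ^ n * w * ρ ^ (1 / 4 - κ)) +
          C * (r ^ pe n * r ^ n * w * ρ ^ (1 / 4 - κ))) := by
      exact mul_le_mul_of_nonneg_left (add_le_add (h2.trans h4) h5) hC1.le
    calc _ ≤ C1 * (C * 2 ^ pe n * (r ^ pe n * r ^ n * w * ρ ^ (1 / 4 - κ)) +
          C * (r ^ pe n * r ^ n * w * ρ ^ (1 / 4 - κ))) + r ^ pe n * r ^ n * w * ρ ^ (1 / 4 - κ) := by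
          gcongr
      _ = _ := by rw [hC2def]; ring
  -- step 2: mass
  have hint2 : IntegrableOn (fun x => sn (D x) ^ pe n) (closedBall x (2 * r)) :=
    (hol2 hFD (by omega) (isCompact_closedBall x (2 * r)) hball).1
  have hsub : closedBall x r ⊆ closedBall x (2 * r) := closedBall_subset_closedBall (by linarith)
  have hint1 : IntegrableOn (fun x => sn (D x) ^ pe n) (closedBall x r) := hint2.mono_set hsub
  set Z : ℝ := ∫ y in closedBall x r, sn (D y) ^ pe n with hZ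
  set I4 : ℝ := ∫ y in closedBall x (r / 4), sn (D y) ^ pe n with hI4
  have hI4low : (r / 2) ^ n * w ≤ I4 := by
    have h1 : 0 < (r / 2) ^ n := by positivity
    have := g.w_le
    rw [inv_mul_eq_div, le_div_iff₀ h1] at this
    linarith
  have hI4Z : I4 ≤ Z := by
    refine setIntegral_mono_set hint1 ?_ ?_
    · filter_upwards with y
      exact Real.rpow_nonneg (sn_nonneg _) _
    · exact (closedBall_subset_closedBall (by linarith)).eventuallyLE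
  have hZout : Z ≤ C * ρ ^ (-κ) * r ^ n * w := by
    refine le_trans ?_ g.outer
    refine setIntegral_mono_set hint2 ?_ ?_
    · filter_upwards with y
      exact Real.rpow_nonneg (sn_nonneg _) _
    · exact HasSubset.Subset.eventuallyLE hsub
  set A : ℝ := Z / r ^ n with hA
  have hr2 : (r / 2) ^ n = r ^ n / 2 ^ n := div_pow _ _ _
  have hA1 : w / 2 ^ n ≤ A := by
    rw [hA, div_le_div_iff₀ (by positivity) hrn]
    have h1 := hI4low.trans hI4Z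
    rw [hr2] at h1
    have h2 : r ^ n / 2 ^ n * w * 2 ^ n = w * r ^ n := by field_simp
    nlinarith
  have hA0 : 0 < A := lt_of_lt_of_le (by positivity) hA1
  have hA2 : A ≤ C * ρ ^ (-κ) * w := by
    rw [hA, div_le_iff₀ hrn]
    linarith
  have hwA : w / A ≤ 2 ^ n := by
    rw [div_le_iff₀ hA0]
    rw [div_le_iff₀ (by positivity)] at hA1
    linarith
  have hZA : Z = A * r ^ n := by rw [hA]; field_simp
  -- step 3: scaling
  set lam : ℝ := A ^ (-(1 / pe n)) with hlam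
  have hlam0 : 0 < lam := by positivity
  have hlamp : lam ^ pe n = A⁻¹ := by
    rw [hlam, ← Real.rpow_mul hA0.le]
    have : -(1 / pe n) * pe n = -1 := by field_simp
    rw [this, Real.rpow_neg_one]
  set μ : ℝ := lam / r with hμ
  have hμ0 : 0 < μ := by positivity
  have hμr : μ * r = lam := by rw [hμ]; field_simp
  have hFDt := rescale hFD (by omega) hr hμ0 x c
  set ft : E n → E n := fun z => μ • (f (x + r • z) - c) with hft
  set Dt : E n → Matrix (Fin n) (Fin n) ℝ := fun z => (μ * r) • D (x + r • z) with hDt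
  have hcb : closedBall (0 : E n) 1 = {z | x + r • z ∈ closedBall x r} := by
    ext z
    simp only [mem_closedBall, dist_zero_right, mem_setOf_eq, dist_self_add_left, norm_smul,
      Real.norm_eq_abs, abs_of_pos hr]
    constructor
    · intro h; nlinarith
    · intro h
      by_contra hcon
      rw [not_le] at hcon
      nlinarith
  have hsnt : ∀ z, sn (Dt z) ^ pe n = A⁻¹ * sn (D (x + r • z)) ^ pe n := by
    intro z
    rw [hDt]
    simp only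
    rw [hμr, auxmq_sn_smul hlam0.le, Real.mul_rpow hlam0.le (sn_nonneg _), hlamp]
  set B : ℝ := 2 ^ n * C * ρ ^ (-κ) with hB
  have hB1 : 1 ≤ B := by
    have h1 : 1 ≤ (2 : ℝ) ^ n * C := by nlinarith
    rw [hB]
    nlinarith
  set Λ : ℝ := N0 * ρ ^ (-κ) with hΛ
  have hΛB : Λ = (n : ℝ) ^ 2 * B := by rw [hΛ, hN0, hB]; ring
  have hBΛ : B ≤ Λ := by rw [hΛB]; nlinarith
  have hΛ1 : 1 ≤ Λ := hB1.trans hBΛ
  have hBCρ : C * ρ ^ (-κ) ≤ B := by
    rw [hB]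
    have : 0 < C * ρ ^ (-κ) := by positivity
    nlinarith
  set ε : ℝ := (2 ^ n * C2 * ρ ^ (1 / 4 - κ)) ^ (1 / pe n) with hε
  have hε0 : 0 < ε := by positivity
  have hεp : ε ^ pe n = 2 ^ n * C2 * ρ ^ (1 / 4 - κ) := by
    rw [hε, ← Real.rpow_mul (by positivity)]
    have : 1 / pe n * pe n = 1 := by field_simp
    rw [this, Real.rpow_one]
  have hmain : ∃ y, Univ ft (closedBall 0 1) y ((C3 * Λ ^ 2)⁻¹) := by
    refine hloc ft Dt {z | x + r • z ∈ Ω} hFDt ?_ (lam • M) 0 Λ ε hΛ1 hε0 ?_ ?_ ?_ ?_ ?_ ?_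
    · -- closedBall 0 1 ⊆ Ωt
      rw [hcb]
      intro z hz
      exact hball (hsub hz)
    · -- sn Mt ≤ Λ
      have h1 : ∀ i j, |(lam • M) i j| ≤ B := by
        intro i j
        have h2 : |(lam • M) i j| ^ pe n ≤ B := by
          rw [Matrix.smul_apply, smul_eq_mul, abs_mul, abs_of_pos hlam0,
            Real.mul_rpow hlam0.le (abs_nonneg _), hlamp]
          calc A⁻¹ * |M i j| ^ pe n ≤ A⁻¹ * (C * ρ ^ (-κ) * w) := by
                have := g.M_le i j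
                gcongr
            _ = (w / A) * (C * ρ ^ (-κ)) := by field_simp
            _ ≤ 2 ^ n * (C * ρ ^ (-κ)) := by gcongr
            _ = B := by rw [hB]; ring
        by_contra hcon
        rw [not_le] at hcon
        have h3 : 1 ≤ |(lam • M) i j| := by linarith
        have h4 : |(lam • M) i j| ^ (1 : ℝ) ≤ |(lam • M) i j| ^ pe n :=
          Real.rpow_le_rpow_of_exponent_le h3 hp1
        rw [Real.rpow_one] at h4
        linarith
      have h2 : sn (lam • M) ≤ ∑ _i : Fin n, ∑ _j : Fin n, B :=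
        Finset.sum_le_sum (fun i _ => Finset.sum_le_sum (fun j _ => h1 i j))
      refine h2.trans (le_of_eq ?_)
      simp only [Finset.sum_const, Finset.card_univ, Fintype.card_fin, nsmul_eq_mul]
      rw [hΛB]; ring
    · -- mass ≤ 1
      have h1 : ∫ z in closedBall (0 : E n) 1, sn (Dt z) ^ pe n = 1 := by
        simp only [hsnt]
        rw [integral_const_mul, setIntegral_affine hr x (fun y => sn (D y) ^ pe n) 1, mul_one, ← hZ,
          hZA]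
        field_simp
      rw [h1]
    · -- lower mass
      simp only [hsnt]
      rw [integral_const_mul, setIntegral_affine hr x (fun y => sn (D y) ^ pe n) (1 / 4)]
      have h4 : r * (1 / 4) = r / 4 := by ring
      rw [h4, ← hI4]
      have h5 : B⁻¹ ≤ A⁻¹ * ((r ^ n)⁻¹ * I4) := by
        calc B⁻¹ = (C * ρ ^ (-κ) * w)⁻¹ * ((r ^ n)⁻¹ * ((r / 2) ^ n * w)) := by
              rw [hB, hr2]; field_simp
          _ ≤ A⁻¹ * ((r ^ n)⁻¹ * I4) := by gcongr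
      exact (inv_anti₀ (by linarith) hBΛ).trans h5
    · -- distortion
      have h1 : ∀ z, kd (Dt z) = kd (D (x + r • z)) := by
        intro z
        rw [hDt]
        exact kd_smul (by positivity)
      simp only [h1]
      rw [setIntegral_affine hr x (fun y => kd (D y) ^ (2 * n - 1)) 1, mul_one]
      have h2 := g.kdb
      calc (r ^ n)⁻¹ * ∫ y in closedBall x r, kd (D y) ^ (2 * n - 1)
          ≤ (r ^ n)⁻¹ * (C * ρ ^ (-κ) * r ^ n) := by gcongr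
        _ = C * ρ ^ (-κ) := by field_simp
        _ ≤ Λ := hBCρ.trans hBΛ
    · -- closeness
      have h1 : ∀ z : E n, ∑ i, |ft z i - ((lam • M).mulVec z i + (0 : E n) i)| ^ pe n =
          μ ^ pe n * ∑ i, |f (x + r • z) i - (M.mulVec (x + r • z - x) i + c i)| ^ pe n := by
        intro z
        rw [Finset.mul_sum]
        refine Finset.sum_congr rfl (fun i _ => ?_)
        rw [← Real.mul_rpow hμ0.le (abs_nonneg _)]
        congr 1
        rw [← abs_of_pos hμ0, ← abs_mul]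
        congr 1
        rw [add_sub_cancel_left, Matrix.mulVec_smul, Matrix.smul_mulVec, ← hμr, hft]
        simp only [Pi.smul_apply, Pi.sub_apply, smul_eq_mul, Pi.zero_apply]
        ring
      simp only [h1]
      rw [integral_const_mul, setIntegral_affine hr x
        (fun y => ∑ i, |f y i - (M.mulVec (y - x) i + c i)| ^ pe n) 1, mul_one, ← hX, hεp]
      have hμp : μ ^ pe n = A⁻¹ / r ^ pe n := by
        rw [hμ, Real.div_rpow hlam0.le hr.le, hlamp]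
      rw [hμp]
      calc A⁻¹ / r ^ pe n * ((r ^ n)⁻¹ * X)
          ≤ A⁻¹ / r ^ pe n * ((r ^ n)⁻¹ * (C2 * (r ^ pe n * r ^ n * w * ρ ^ (1 / 4 - κ)))) := by
            gcongr
        _ = (w / A) * (C2 * ρ ^ (1 / 4 - κ)) := by field_simp
        _ ≤ 2 ^ n * (C2 * ρ ^ (1 / 4 - κ)) := by gcongr
        _ = _ := by ring
    · -- smallness
      have h1 : (C3 * Λ ^ 3) ^ (8 * n) = C4 * (ρ ^ (-κ)) ^ (24 * n) := by
        have h2 : C3 * Λ ^ 3 = (C3 * N0 ^ 3) * (ρ ^ (-κ)) ^ 3 := by rw [hΛ]; ring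
        rw [h2, hC4def, mul_pow, ← pow_mul (ρ ^ (-κ))]
        congr 2
        ring
      rw [h1]
      exact auxmq_eps hn hκ hκn hC2 hC4 hρ0 hρ1 hρ2 hp1 hpn
  obtain ⟨y, hy⟩ := hmain
  -- conclusion
  rw [hcb] at hy
  have hU := univ_rescale hr hμ0 x c y _ hy
  refine ⟨c + μ⁻¹ • y, univ_mono hU (hFD.cont.mono (hsub.trans hball)) ?_ (le_refl _)⟩
  -- radius
  have hμinv : (2 ^ n * C)⁻¹ * r * ρ ^ (2 * n) ≤ μ⁻¹ := by
    have h1 : μ⁻¹ = r * A ^ (1 / pe n) := by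
      rw [hμ, inv_div, hlam, Real.rpow_neg hA0.le, div_inv_eq_mul]
    rw [h1]
    have h2 : (2 ^ n * C)⁻¹ * ρ ^ (2 * n) ≤ A := by
      have h3 := g.w_ge
      calc (2 ^ n * C)⁻¹ * ρ ^ (2 * n) = (C⁻¹ * ρ ^ (2 * n)) / 2 ^ n := by field_simp
        _ ≤ w / 2 ^ n := by gcongr
        _ ≤ A := hA1
    have h3 : 0 < (2 ^ n * C)⁻¹ * ρ ^ (2 * n) := by positivity
    have h4 : (2 ^ n * C)⁻¹ * ρ ^ (2 * n) ≤ 1 := by
      have h5 : (2 ^ n * C)⁻¹ ≤ 1 := inv_le_one_of_one_le₀ (by nlinarith)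
      have h6 : ρ ^ (2 * n) ≤ 1 := pow_le_one₀ hρ0.le hρ1'
      have h7 : 0 ≤ ρ ^ (2 * n) := by positivity
      nlinarith
    have h5 : (2 ^ n * C)⁻¹ * ρ ^ (2 * n) ≤ A ^ (1 / pe n) := by
      calc (2 ^ n * C)⁻¹ * ρ ^ (2 * n) = ((2 ^ n * C)⁻¹ * ρ ^ (2 * n)) ^ (1 : ℝ) :=
            (Real.rpow_one _).symm
        _ ≤ ((2 ^ n * C)⁻¹ * ρ ^ (2 * n)) ^ (1 / pe n) :=
            Real.rpow_le_rpow_of_exponent_ge h3 h4 hip
        _ ≤ A ^ (1 / pe n) := Real.rpow_le_rpow h3.le h2 hip0.le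
    calc (2 ^ n * C)⁻¹ * r * ρ ^ (2 * n) = r * ((2 ^ n * C)⁻¹ * ρ ^ (2 * n)) := by ring
      _ ≤ _ := by gcongr
  have hΛinv : (C3 * N0 ^ 2)⁻¹ * ρ ≤ (C3 * Λ ^ 2)⁻¹ := by
    have h1 : (C3 * Λ ^ 2)⁻¹ = (C3 * N0 ^ 2)⁻¹ * ((ρ ^ (-κ)) ^ 2)⁻¹ := by
      rw [hΛ, ← mul_inv]; congr 1; ring
    rw [h1]
    gcongr
    have h2 : ((ρ ^ (-κ)) ^ 2)⁻¹ = ρ ^ (2 * κ) := by
      rw [← Real.rpow_natCast, ← Real.rpow_mul hρ0.le, ← Real.rpow_neg hρ0.le]
      congr 1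
      push_cast
      ring
    rw [h2]
    calc ρ = ρ ^ (1 : ℝ) := (Real.rpow_one _).symm
      _ ≤ ρ ^ (2 * κ) := Real.rpow_le_rpow_of_exponent_ge hρ0 hρ1' (by linarith)
  calc (2 ^ n * C * (C3 * N0 ^ 2))⁻¹ * r * ρ ^ (2 * n + 1)
      = ((2 ^ n * C)⁻¹ * r * ρ ^ (2 * n)) * ((C3 * N0 ^ 2)⁻¹ * ρ) := by
        rw [pow_succ, mul_inv]; ring
    _ ≤ μ⁻¹ * (C3 * Λ ^ 2)⁻¹ := by
        gcongr


end H930.BL.XMqL

namespace H930.BL

export XMqL (mq_local)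

end H930.BL
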