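import Pool.Agent.Helper930.BL.Defs

set_option autoImplicit false

open MeasureTheory Metric Set Filter Topology
open scoped ENNReal NNReal ContDiff

namespace H930.BL.XMqR

variable {n : ℕ}


theorem radii_pigeon (n : ℕ) {κ C : ℝ} (hκ : 0 < κ) (hC : 1 ≤ C) : ∃ (J : ℕ) (ρ₀ : ℝ), 1 ≤ J ∧
    0 < ρ₀ ∧ ρ₀ ≤ 1 ∧ ∀ ρ, 0 < ρ → ρ ≤ ρ₀ → ∀ T : ℝ → ℝ, (∀ s t, s ≤ t → T s ≤ T t) →
    C⁻¹ * ρ ^ (2 * n) ≤ T 2 → T 3 ≤ C * (ρ ^ n)⁻¹ →
    ∃ s, 2 ≤ s ∧ s + 1 / (J : ℝ) ≤ 3 ∧ T (s + 1 / (J : ℝ)) ≤ ρ ^ (-κ) * T s := by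
  have hC0 : 0 < C := by linarith
  refine ⟨max 1 ⌈(3 * n + 1) / κ⌉₊, (C ^ 2 + 1)⁻¹, le_max_left _ _, by positivity, ?_, ?_⟩
  · apply inv_le_one_of_one_le₀
    have := sq_nonneg C
    linarith
  intro ρ hρ hρ0 T _ hT2 hT3
  set J : ℕ := max 1 ⌈(3 * n + 1) / κ⌉₊ with hJ
  have hJ1 : 1 ≤ J := le_max_left _ _
  have hJp : (0 : ℝ) < J := by exact_mod_cast hJ1
  have hJκ : (3 * n + 1 : ℝ) ≤ κ * J := by
    have h1 : ((3 * n + 1 : ℝ)) / κ ≤ J := by
      refine (Nat.le_ceil _).trans ?_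
      have h2 : ⌈((3 * n + 1 : ℝ)) / κ⌉₊ ≤ J := le_max_right _ _
      exact Nat.cast_le.2 h2
    rw [div_le_iff₀ hκ] at h1
    linarith
  have hρ1 : ρ ≤ 1 := by
    refine hρ0.trans (inv_le_one_of_one_le₀ ?_)
    have := sq_nonneg C
    linarith
  by_contra hcon
  push Not at hcon
  have hA : 0 < ρ ^ (-κ) := Real.rpow_pos_of_pos hρ _
  have key : ∀ j : ℕ, j ≤ J → (ρ ^ (-κ)) ^ j * T 2 ≤ T (2 + j / J) := by
    intro j
    induction j with
    | zero => intro _; simp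
    | succ j ih =>
      intro hj
      have h1 := ih (by omega)
      have hj' : (j : ℝ) + 1 ≤ J := by exact_mod_cast hj
      have e1 : (2 : ℝ) + ((j + 1 : ℕ) : ℝ) / J = (2 + j / J) + 1 / J := by
        push_cast
        ring
      have h2 := hcon (2 + j / J) (by
        have : (0 : ℝ) ≤ j / J := by positivity
        linarith) (by
        have h3 : (j : ℝ) / J + 1 / J ≤ 1 := by
          rw [← add_div, div_le_one hJp]
          exact hj'
        linarith)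
      rw [e1, pow_succ]
      refine le_trans ?_ h2.le
      calc (ρ ^ (-κ)) ^ j * ρ ^ (-κ) * T 2 = ρ ^ (-κ) * ((ρ ^ (-κ)) ^ j * T 2) := by ring
        _ ≤ ρ ^ (-κ) * T (2 + j / J) := mul_le_mul_of_nonneg_left h1 hA.le
  have h4 := key J le_rfl
  rw [div_self hJp.ne'] at h4
  have e3 : (2 : ℝ) + 1 = 3 := by norm_num
  rw [e3] at h4
  have h5 : (ρ ^ (3 * n + 1))⁻¹ ≤ (ρ ^ (-κ)) ^ J := by
    rw [← Real.rpow_natCast (ρ ^ (-κ)) J, ← Real.rpow_mul hρ.le, ← Real.rpow_natCast ρ (3 * n + 1),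
      ← Real.rpow_neg hρ.le]
    apply Real.rpow_le_rpow_of_exponent_ge hρ hρ1
    push_cast
    linarith
  have hT2p : 0 < T 2 := lt_of_lt_of_le (by positivity) hT2
  have h6 : (ρ ^ (3 * n + 1))⁻¹ * (C⁻¹ * ρ ^ (2 * n)) ≤ C * (ρ ^ n)⁻¹ := by
    calc (ρ ^ (3 * n + 1))⁻¹ * (C⁻¹ * ρ ^ (2 * n)) ≤ (ρ ^ (-κ)) ^ J * T 2 := by
          apply mul_le_mul h5 hT2 (by positivity) (by positivity)
      _ ≤ T 3 := h4
      _ ≤ _ := hT3
  have h7 : ρ ^ (2 * n) ≤ C ^ 2 * ρ * ρ ^ (2 * n) := by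
    have hp : 0 < ρ ^ (3 * n + 1) * C := by positivity
    have h8 := mul_le_mul_of_nonneg_left h6 hp.le
    have e4 : ρ ^ (3 * n + 1) * C * ((ρ ^ (3 * n + 1))⁻¹ * (C⁻¹ * ρ ^ (2 * n))) = ρ ^ (2 * n) := by
      field_simp
    have e5 : ρ ^ (3 * n + 1) * C * (C * (ρ ^ n)⁻¹) = C ^ 2 * ρ * ρ ^ (2 * n) := by
      have : ρ ^ (3 * n + 1) = ρ ^ (2 * n) * ρ * ρ ^ n := by ring
      rw [this]
      field_simp
    rw [e4, e5] at h8
    exact h8
  have h9 : C ^ 2 * ρ < 1 := by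
    have h10 : ρ * (C ^ 2 + 1) ≤ 1 := by
      have := mul_le_mul_of_nonneg_right hρ0 (by positivity : 0 ≤ C ^ 2 + 1)
      rwa [inv_mul_cancel₀ (by positivity)] at this
    nlinarith
  have h11 : 0 < ρ ^ (2 * n) := by positivity
  have := mul_lt_mul_of_pos_right h9 h11
  linarith

theorem growth {t : ℝ → ℝ} (hmono : ∀ R R', 1 / 2 ≤ R → R ≤ R' → R' ≤ 3 / 4 → t R ≤ t R')
    (h1 : 1 ≤ t (1 / 2)) {c : ℝ} (hc : 0 < c) (hc' : c ≤ 1 / 64) :
    ∃ R, 1 / 2 ≤ R ∧ R + 2 * (c / (1 + Real.log (t R)) ^ 2) ≤ 3 / 4 ∧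
      t (R + 2 * (c / (1 + Real.log (t R)) ^ 2)) ≤ Real.exp 1 * t R := by
  by_contra hcon
  push Not at hcon
  set r : ℕ → ℝ := fun j => (fun R => R + 2 * (c / (1 + Real.log (t R)) ^ 2))^[j] (1 / 2) with hr
  have hr0 : r 0 = 1 / 2 := rfl
  have hrs : ∀ j, r (j + 1) = r j + 2 * (c / (1 + Real.log (t (r j))) ^ 2) := by
    intro j
    simp only [hr, Function.iterate_succ_apply']
  have key : ∀ j : ℕ, 1 / 2 ≤ r j ∧ r j ≤ 1 / 2 + 2 * c * (3 - 2 / ((j : ℝ) + 1)) ∧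
      Real.exp j ≤ t (r j) := by
    intro j
    induction j with
    | zero =>
      rw [hr0]
      refine ⟨le_rfl, ?_, ?_⟩
      · norm_num
        exact hc.le
      · simpa using h1
    | succ j ih =>
      obtain ⟨ih1, ih2, ih3⟩ := ih
      have hlog : (j : ℝ) ≤ Real.log (t (r j)) := by
        rw [Real.le_log_iff_exp_le (lt_of_lt_of_le (Real.exp_pos _) ih3)]
        exact ih3
      have hj0 : (0 : ℝ) ≤ j := Nat.cast_nonneg j
      have hφ : c / (1 + Real.log (t (r j))) ^ 2 ≤ c / ((j : ℝ) + 1) ^ 2 := by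
        apply div_le_div_of_nonneg_left hc.le (by positivity)
        apply pow_le_pow_left₀ (by positivity)
        linarith
      have hφ0 : 0 ≤ c / (1 + Real.log (t (r j))) ^ 2 := by positivity
      have hstep : (2 : ℝ) / (((j + 1 : ℕ) : ℝ) + 1) + 1 / ((j : ℝ) + 1) ^ 2 ≤ 2 / ((j : ℝ) + 1) := by
        have hj1 : (0 : ℝ) < (j : ℝ) + 1 := by positivity
        have hj2 : (0 : ℝ) < (j : ℝ) + 2 := by positivity
        push_cast
        rw [show (j : ℝ) + 1 + 1 = j + 2 by ring, div_add_div _ _ hj2.ne' (by positivity),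
          div_le_div_iff₀ (by positivity) hj1]
        nlinarith [mul_nonneg hj0 hj0, mul_nonneg hj0 (mul_nonneg hj0 hj0)]
      have hub : r (j + 1) ≤ 1 / 2 + 2 * c * (3 - 2 / (((j + 1 : ℕ) : ℝ) + 1)) := by
        rw [hrs]
        have h2 : c / ((j : ℝ) + 1) ^ 2 = c * (1 / ((j : ℝ) + 1) ^ 2) := by ring
        rw [h2] at hφ
        have h3 := mul_le_mul_of_nonneg_left hstep (by linarith : 0 ≤ 2 * c)
        nlinarith
      have h34 : r (j + 1) ≤ 3 / 4 := by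
        have h4 : (0 : ℝ) ≤ 2 / (((j + 1 : ℕ) : ℝ) + 1) := by positivity
        have h5 : 2 * c * (3 - 2 / (((j + 1 : ℕ) : ℝ) + 1)) ≤ 2 * c * 3 :=
          mul_le_mul_of_nonneg_left (by linarith) (by linarith)
        linarith
      refine ⟨?_, hub, ?_⟩
      · rw [hrs]; linarith
      · have h6 := hcon (r j) ih1 (by rw [← hrs]; exact h34)
        rw [← hrs] at h6
        refine le_trans ?_ h6.le
        push_cast
        rw [add_comm, Real.exp_add]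
        exact mul_le_mul_of_nonneg_left ih3 (Real.exp_pos _).le
  -- contradiction
  obtain ⟨j, hj⟩ := exists_nat_ge (t (3 / 4))
  obtain ⟨k1, k2, k3⟩ := key j
  have h34 : r j ≤ 3 / 4 := by
    have h4 : (0 : ℝ) ≤ 2 / ((j : ℝ) + 1) := by positivity
    have h5 : 2 * c * (3 - 2 / ((j : ℝ) + 1)) ≤ 2 * c * 3 :=
      mul_le_mul_of_nonneg_left (by linarith) (by linarith)
    linarith
  have h7 := hmono (r j) (3 / 4) k1 h34 le_rfl
  have h8 := Real.add_one_le_exp (j : ℝ)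
  linarith

theorem radius_bound {c t : ℝ} (hc : 0 < c) (ht : 1 ≤ t) :
    Real.exp (-1 - 1 / c) ≤
      t * Real.exp (-(c / (1 + Real.log t) ^ 2) ^ (-(1 / 3) : ℝ)) := by
  have ht0 : 0 < t := by linarith
  have hlog : 0 ≤ Real.log t := Real.log_nonneg ht
  set L : ℝ := 1 + Real.log t with hL
  have hL1 : 1 ≤ L := by linarith
  have hL0 : 0 < L := by linarith
  set x : ℝ := (c / L ^ 2) ^ (-(1 / 3) : ℝ) with hx
  have hq : 0 < c / L ^ 2 := by positivity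
  have hx0 : 0 < x := Real.rpow_pos_of_pos hq _
  have hx3 : x ^ 3 = L ^ 2 * (1 / c) := by
    rw [hx, ← Real.rpow_natCast, ← Real.rpow_mul hq.le]
    have : (-(1 / 3) : ℝ) * ((3 : ℕ) : ℝ) = -1 := by norm_num
    rw [this, Real.rpow_neg_one]
    field_simp
  have hB : 0 < 1 / c := by positivity
  have hle : x ≤ L + 1 / c := by
    have h1 : x ^ 3 ≤ (L + 1 / c) ^ 3 := by
      rw [hx3]
      have e : (L + 1 / c) ^ 3 = L ^ 2 * (1 / c) + (L ^ 3 + 2 * (L ^ 2 * (1 / c)) +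
        3 * (L * (1 / c) ^ 2) + (1 / c) ^ 3) := by ring
      rw [e]
      have : 0 ≤ L ^ 3 + 2 * (L ^ 2 * (1 / c)) + 3 * (L * (1 / c) ^ 2) + (1 / c) ^ 3 := by positivity
      linarith
    exact le_of_pow_le_pow_left₀ (by norm_num) (by positivity) h1
  have e2 : t = Real.exp (L - 1) := by
    rw [hL, add_sub_cancel_left, Real.exp_log ht0]
  conv_rhs => rw [e2]
  rw [← Real.exp_add]
  apply Real.exp_le_exp.2
  linarith

end H930.BL.XMqR

namespace H930.BL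

export XMqR (radii_pigeon growth radius_bound)

end H930.BL
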