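import Pool.Agent.Helper930.BL.JGap
import Pool.Agent.Helper930.BL.Defs2

set_option autoImplicit false

open MeasureTheory Metric Set Filter Topology
open scoped ENNReal NNReal ContDiff

namespace H930.BL.XQdP

variable {n : ℕ}


lemma lst_cons (ρ : ℕ → ℝ) {S k : ℕ} (h : k < S) : lst ρ S k = ρ k :: lst ρ S (k + 1) := by
  unfold lst
  have h1 : S - k = (S - (k + 1)) + 1 := by omega
  rw [h1, List.range'_succ]
  simp

theorem qd_pigeon {n : ℕ} {p : ℝ} (hp : 2 ≤ p) {S : ℕ} (hS : 1 ≤ S) {ρ : ℕ → ℝ}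
    (hρ : ∀ k, 0 < ρ k) {ι : Type} [Fintype ι] (G : ι → E n → ℝ) (hGm : ∀ i, Measurable (G i))
    (hG : ∀ i, Integrable (G i)) (hGp : ∀ i, Integrable fun x => |G i x| ^ p) :
    ∃ k < S, (∀ i, Integrable (fun x => av (ρ k)
        (fun y => |avs (lst ρ S (k + 1)) (G i) y - avs (lst ρ S k) (G i) x| ^ p) x)) ∧
      ∑ i, ∫ x, av (ρ k)
        (fun y => |avs (lst ρ S (k + 1)) (G i) y - avs (lst ρ S k) (G i) x| ^ p) x ≤
      2 ^ (p - 1) / (S : ℝ) * ∑ i, ∫ x, |G i x| ^ p := by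
  have hcons : ∀ k < S, ∀ i, avs (lst ρ S k) (G i) = av (ρ k) (avs (lst ρ S (k + 1)) (G i)) := by
    intro k hk i
    rw [lst_cons ρ hk]
    rfl
  have hbase : ∀ i, avs (lst ρ S S) (G i) = G i := by
    intro i
    have : lst ρ S S = [] := by simp [lst]
    rw [this]
    rfl
  have hreg : ∀ m k, k + m = S → ∀ i, Measurable (avs (lst ρ S k) (G i)) ∧
      Integrable (avs (lst ρ S k) (G i)) ∧
      Integrable (fun x => |avs (lst ρ S k) (G i) x| ^ p) := by
    intro m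
    induction m with
    | zero =>
      intro k hk i
      have hk' : k = S := by omega
      subst hk'
      rw [hbase i]
      exact ⟨hGm i, hG i, hGp i⟩
    | succ m ih =>
      intro k hk i
      obtain ⟨h1, h2, h3⟩ := ih (k + 1) (by omega) i
      obtain ⟨j1, j2, j3, _, _⟩ := jensen_gap hp (hρ k) h1 h2 h3
      rw [hcons k (by omega) i]
      exact ⟨j1, j2, j3⟩
  have hstep : ∀ k < S, ∀ i, Integrable (fun x => av (ρ k)
        (fun y => |avs (lst ρ S (k + 1)) (G i) y - avs (lst ρ S k) (G i) x| ^ p) x) ∧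
      (∫ x, |avs (lst ρ S k) (G i) x| ^ p) + 2 ^ (1 - p) * (∫ x, av (ρ k)
        (fun y => |avs (lst ρ S (k + 1)) (G i) y - avs (lst ρ S k) (G i) x| ^ p) x) ≤
      ∫ x, |avs (lst ρ S (k + 1)) (G i) x| ^ p := by
    intro k hk i
    obtain ⟨h1, h2, h3⟩ := hreg (S - (k + 1)) (k + 1) (by omega) i
    obtain ⟨_, _, _, j4, j5⟩ := jensen_gap hp (hρ k) h1 h2 h3
    rw [hcons k hk i]
    exact ⟨j4, j5⟩
  set a : ℕ → ℝ := fun k => ∑ i, ∫ x, |avs (lst ρ S k) (G i) x| ^ p with ha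
  set b : ℕ → ℝ := fun k => ∑ i, ∫ x, av (ρ k)
        (fun y => |avs (lst ρ S (k + 1)) (G i) y - avs (lst ρ S k) (G i) x| ^ p) x with hb
  have haS : a S = ∑ i, ∫ x, |G i x| ^ p := by
    simp only [ha, hbase]
  have ha0 : 0 ≤ a 0 := by
    refine Finset.sum_nonneg fun i _ => integral_nonneg fun x => ?_
    exact Real.rpow_nonneg (abs_nonneg _) _
  have hab : ∀ k < S, 2 ^ (1 - p) * b k ≤ a (k + 1) - a k := by
    intro k hk
    have : ∑ i, ((∫ x, |avs (lst ρ S k) (G i) x| ^ p) + 2 ^ (1 - p) * (∫ x, av (ρ k)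
        (fun y => |avs (lst ρ S (k + 1)) (G i) y - avs (lst ρ S k) (G i) x| ^ p) x)) ≤
        ∑ i, ∫ x, |avs (lst ρ S (k + 1)) (G i) x| ^ p :=
      Finset.sum_le_sum fun i _ => (hstep k hk i).2
    rw [Finset.sum_add_distrib, ← Finset.mul_sum] at this
    simp only [ha, hb]
    linarith
  have hS' : (0 : ℝ) < S := by exact_mod_cast hS
  have h2p : (0 : ℝ) < 2 ^ (1 - p) := Real.rpow_pos_of_pos two_pos _
  have h2pp : (2 : ℝ) ^ (1 - p) * 2 ^ (p - 1) = 1 := by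
    rw [← Real.rpow_add two_pos]
    simp
  have hex : ∃ k < S, b k ≤ 2 ^ (p - 1) / (S : ℝ) * a S := by
    by_contra hcon
    push Not at hcon
    have h1 : ∑ k ∈ Finset.range S, 2 ^ (1 - p) * b k ≤ a S - a 0 := by
      rw [← Finset.sum_range_sub a S]
      exact Finset.sum_le_sum fun k hk => hab k (Finset.mem_range.1 hk)
    have h2 : ∑ k ∈ Finset.range S, 2 ^ (1 - p) * (2 ^ (p - 1) / (S : ℝ) * a S) <
        ∑ k ∈ Finset.range S, 2 ^ (1 - p) * b k := by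
      refine Finset.sum_lt_sum_of_nonempty ⟨0, Finset.mem_range.2 hS⟩ fun k hk => ?_
      exact mul_lt_mul_of_pos_left (hcon k (Finset.mem_range.1 hk)) h2p
    rw [Finset.sum_const, Finset.card_range, nsmul_eq_mul] at h2
    have h3 : (S : ℝ) * (2 ^ (1 - p) * (2 ^ (p - 1) / (S : ℝ) * a S)) = a S := by
      have : (S : ℝ) * (2 ^ (1 - p) * (2 ^ (p - 1) / (S : ℝ) * a S)) =
          ((2 : ℝ) ^ (1 - p) * 2 ^ (p - 1)) * a S * ((S : ℝ) / S) := by ring
      rw [this, h2pp, div_self hS'.ne']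
      ring
    linarith
  obtain ⟨k, hk, hbk⟩ := hex
  refine ⟨k, hk, fun i => (hstep k hk i).1, ?_⟩
  rw [← haS]
  exact hbk

end H930.BL.XQdP

namespace H930.BL

export XQdP (qd_pigeon)

end H930.BL
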