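import Pool.Agent.Helper930.BL.Defs

set_option autoImplicit false

open MeasureTheory Metric Set Filter Topology
open scoped ENNReal NNReal ContDiff

namespace H930.BL.XSelect

variable {n : ℕ}


theorem select {n : ℕ} {w W e k : E n → ℝ} {T : Set (E n)} {I V ε Λ₁ Λ₂ : ℝ}
    (hw0 : ∀ x, 0 ≤ w x) (hW0 : ∀ x, 0 ≤ W x) (he0 : ∀ x, 0 ≤ e x)
    (hw : Integrable w) (hW : Integrable W) (he : Integrable e) (hk : Measurable k)
    (hI : 0 < I) (hwI : ∫ x, w x = I) (hε : 0 < ε) (hΛ : 0 < Λ₁)
    (heI : ∫ x, e x ≤ ε * I) (hWI : ∫ x, W x ≤ Λ₁ * I)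
    (hkI : ∫ x in {x | Λ₂ < k x}, w x ≤ I / 8)
    (hT : MeasurableSet T) (hV : 0 < V) (hTV : volume T ≤ ENNReal.ofReal V)
    (hwT : ∀ x ∉ T, w x = 0) :
    ∃ x, 0 < w x ∧ e x ≤ 8 * ε * w x ∧ W x ≤ 8 * Λ₁ * w x ∧ k x ≤ Λ₂ ∧ I / (8 * V) ≤ w x := by 
  by_contra hcon
  push Not at hcon
  have hk3 : MeasurableSet {x | Λ₂ < k x} := measurableSet_lt measurable_const hk
  have hTf : volume T ≠ ⊤ := (hTV.trans_lt ENNReal.ofReal_lt_top).ne
  have hc0 : 0 < I / (8 * V) := by positivity
  have hpt : ∀ x, w x ≤ ((8 * ε)⁻¹ * e x + (8 * Λ₁)⁻¹ * W x)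
      + (({x | Λ₂ < k x}.indicator w x) + T.indicator (fun _ => I / (8 * V)) x) := by
    intro x
    have a1 : 0 ≤ (8 * ε)⁻¹ * e x := mul_nonneg (by positivity) (he0 x)
    have a2 : 0 ≤ (8 * Λ₁)⁻¹ * W x := mul_nonneg (by positivity) (hW0 x)
    have a3 : 0 ≤ {x | Λ₂ < k x}.indicator w x := Set.indicator_nonneg (fun y _ => hw0 y) x
    have a4 : 0 ≤ T.indicator (fun _ => I / (8 * V)) x :=
      Set.indicator_nonneg (fun y _ => hc0.le) x
    rcases (hw0 x).eq_or_lt with h0 | h0
    · rw [← h0]; positivity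
    · have hxT : x ∈ T := by
        by_contra hx
        rw [hwT x hx] at h0
        exact lt_irrefl _ h0
      by_cases b1 : e x ≤ 8 * ε * w x
      · by_cases b2 : W x ≤ 8 * Λ₁ * w x
        · by_cases b3 : k x ≤ Λ₂
          · have b4 := hcon x h0 b1 b2 b3
            rw [Set.indicator_of_mem hxT] at *
            linarith
          · rw [Set.indicator_of_mem (show x ∈ {x | Λ₂ < k x} from not_le.1 b3)] at *
            linarith
        · have : w x < (8 * Λ₁)⁻¹ * W x := by
            rw [inv_mul_eq_div, lt_div_iff₀ (by positivity)]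
            linarith [not_le.1 b2]
          linarith
      · have : w x < (8 * ε)⁻¹ * e x := by
          rw [inv_mul_eq_div, lt_div_iff₀ (by positivity)]
          linarith [not_le.1 b1]
        linarith
  have i1 : Integrable fun x => (8 * ε)⁻¹ * e x := he.const_mul _
  have i2 : Integrable fun x => (8 * Λ₁)⁻¹ * W x := hW.const_mul _
  have i3 : Integrable ({x | Λ₂ < k x}.indicator w) := hw.indicator hk3
  have i4 : Integrable (T.indicator (fun _ => I / (8 * V))) :=
    (integrable_indicator_iff hT).2 (integrableOn_const hTf)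
  have h := integral_mono hw ((i1.add i2).add (i3.add i4)) hpt
  have e1 : ∫ x, (((fun x => (8 * ε)⁻¹ * e x) + fun x => (8 * Λ₁)⁻¹ * W x)
      + (({x | Λ₂ < k x}.indicator w) + T.indicator (fun _ => I / (8 * V)))) x
      = ((8 * ε)⁻¹ * ∫ x, e x) + ((8 * Λ₁)⁻¹ * ∫ x, W x)
        + ((∫ x in {x | Λ₂ < k x}, w x) + (volume T).toReal * (I / (8 * V))) := by
    rw [integral_add' (i1.add i2) (i3.add i4), integral_add' i1 i2, integral_add' i3 i4,
      integral_const_mul, integral_const_mul, integral_indicator hk3, integral_indicator hT]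
    simp [measureReal_def]
  rw [e1, hwI] at h
  have f1 : (8 * ε)⁻¹ * ∫ x, e x ≤ I / 8 := by
    rw [inv_mul_eq_div, div_le_iff₀ (by positivity)]
    linarith
  have f2 : (8 * Λ₁)⁻¹ * ∫ x, W x ≤ I / 8 := by
    rw [inv_mul_eq_div, div_le_iff₀ (by positivity)]
    linarith
  have f3 : (volume T).toReal ≤ V := by
    have := ENNReal.toReal_mono ENNReal.ofReal_ne_top hTV
    rwa [ENNReal.toReal_ofReal hV.le] at this
  have f4 : (volume T).toReal * (I / (8 * V)) ≤ I / 8 := by
    calc (volume T).toReal * (I / (8 * V)) ≤ V * (I / (8 * V)) := by gcongr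
      _ = I / 8 := by field_simp
  linarith


lemma av_vol {n : ℕ} {r : ℝ} (hr : 0 < r) (x : E n) :
    (volume : Measure (E n)).real (closedBall x r) = (2 * r) ^ n := by
  rw [measureReal_def, volume_cube x hr.le, ENNReal.toReal_ofReal (by positivity)]

lemma av_eq {n : ℕ} {r : ℝ} (hr : 0 < r) (g : E n → ℝ) (x : E n) :
    av r g x = ⨍ y in closedBall x r, g y := by
  rw [setAverage_eq, av_vol hr, smul_eq_mul]
  rfl

lemma av_jensen {n : ℕ} {r : ℝ} (hr : 0 < r) {g : E n → ℝ} {φ : ℝ → ℝ}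
    (hφ : ConvexOn ℝ (Ici 0) φ) (hφc : ContinuousOn φ (Ici 0)) (hg0 : ∀ x, 0 ≤ g x)
    (hg : Integrable g) (hgφ : Integrable fun x => φ (g x)) (x : E n) :
    φ (av r g x) ≤ av r (fun y => φ (g y)) x := by
  rw [av_eq hr, av_eq hr]
  refine hφ.map_set_average_le hφc isClosed_Ici ?_ ?_ (Filter.Eventually.of_forall hg0)
    hg.integrableOn hgφ.integrableOn
  · rw [volume_cube x hr.le]
    exact (ENNReal.ofReal_pos.2 (by positivity)).ne'
  · rw [volume_cube x hr.le]
    exact ENNReal.ofReal_ne_top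

theorem av_integral {n : ℕ} {r : ℝ} (hr : 0 < r) {g : E n → ℝ} (hgm : Measurable g)
    (hg : Integrable g) (hg0 : ∀ x, 0 ≤ g x) :
    Measurable (av r g) ∧ Integrable (av r g) ∧ (∀ x, 0 ≤ av r g x) ∧ ∫ x, av r g x = ∫ x, g x := by 
  have hS : MeasurableSet {p : E n × E n | dist p.1 p.2 ≤ r} :=
    measurableSet_le (measurable_fst.dist measurable_snd) measurable_const
  obtain ⟨F, hF⟩ : ∃ F : E n × E n → ℝ, F = {p : E n × E n | dist p.1 p.2 ≤ r}.indicator
    (fun p => g p.2) := ⟨_, rfl⟩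
  have hFm : Measurable F := by
    rw [hF]; exact (hgm.comp measurable_snd).indicator hS
  have hF0 : ∀ p, 0 ≤ F p := by
    rw [hF]; exact fun p => Set.indicator_nonneg (fun q _ => hg0 q.2) p
  have hFx : ∀ x, (fun y => F (x, y)) = (closedBall x r).indicator g := by
    intro x; funext y
    rw [hF]
    by_cases hy : dist x y ≤ r
    · rw [Set.indicator_of_mem (show (x, y) ∈ {p : E n × E n | dist p.1 p.2 ≤ r} from hy),
        Set.indicator_of_mem (by rw [mem_closedBall, dist_comm]; exact hy)]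
    · rw [Set.indicator_of_notMem (show (x, y) ∉ {p : E n × E n | dist p.1 p.2 ≤ r} from hy),
        Set.indicator_of_notMem (by rw [mem_closedBall, dist_comm]; exact hy)]
  have hFy : ∀ y, (fun x => F (x, y)) = (closedBall y r).indicator fun _ => g y := by
    intro y; funext x
    rw [hF]
    by_cases hy : dist x y ≤ r
    · rw [Set.indicator_of_mem (show (x, y) ∈ {p : E n × E n | dist p.1 p.2 ≤ r} from hy),
        Set.indicator_of_mem (by rw [mem_closedBall]; exact hy)]
    · rw [Set.indicator_of_notMem (show (x, y) ∉ {p : E n × E n | dist p.1 p.2 ≤ r} from hy),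
        Set.indicator_of_notMem (by rw [mem_closedBall]; exact hy)]
  have hint1 : ∀ x, ∫ y, F (x, y) = ∫ y in closedBall x r, g y := by
    intro x
    rw [hFx x, integral_indicator measurableSet_closedBall]
  have hint2 : ∀ y, ∫ x, F (x, y) = (2 * r) ^ n * g y := by
    intro y
    rw [hFy y, integral_indicator_const _ measurableSet_closedBall, av_vol hr, smul_eq_mul]
  have hFi : Integrable F ((volume : Measure (E n)).prod (volume : Measure (E n))) := by
    rw [integrable_prod_iff' hFm.aestronglyMeasurable]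
    constructor
    · refine Filter.Eventually.of_forall fun y => ?_
      rw [hFy y, integrable_indicator_iff measurableSet_closedBall]
      refine integrableOn_const ?_
      rw [volume_cube y hr.le]; exact ENNReal.ofReal_ne_top
    · have : (fun y => ∫ x, ‖F (x, y)‖) = fun y => (2 * r) ^ n * g y := by
        funext y
        rw [← hint2 y]
        refine integral_congr_ae (Filter.Eventually.of_forall fun x => ?_)
        exact Real.norm_of_nonneg (hF0 _)
      rw [this]
      exact hg.const_mul _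
  have hav : av r g = fun x => ((2 * r) ^ n)⁻¹ * ∫ y, F (x, y) := by
    funext x; rw [hint1]; rfl
  have hc : (0 : ℝ) < (2 * r) ^ n := by positivity
  refine ⟨?_, ?_, ?_, ?_⟩
  · rw [hav]
    exact (hFm.stronglyMeasurable.integral_prod_right').measurable.const_mul _
  · rw [hav]
    exact hFi.integral_prod_left.const_mul _
  · intro x
    rw [hav]
    exact mul_nonneg (by positivity) (integral_nonneg fun y => hF0 _)
  · rw [hav, integral_const_mul,
      integral_integral_swap (f := fun x y => F (x, y)) (by exact hFi)]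
    simp only [hint2]
    rw [integral_const_mul, inv_mul_cancel_left₀ hc.ne']

theorem bad_mass {n : ℕ} {r r' β Λ₂ : ℝ} {j : ℕ} (hr : 0 < r) (hr' : 0 < r') (hβ : 1 < β)
    (hΛ : 0 < Λ₂) (hj : 1 ≤ j) {w k : E n → ℝ} (hwm : Measurable w) (hkm : Measurable k)
    (hw0 : ∀ x, 0 ≤ w x) (hk0 : ∀ x, 0 ≤ k x) (hw : Integrable w)
    (hwβ : Integrable fun x => w x ^ β) (hk : Integrable k) (hkj : Integrable fun x => k x ^ j) :
    ∫ x in {x | Λ₂ < av r k x}, av r' w x ≤
      (∫ x, w x ^ β) ^ (1 / β) * ((Λ₂ ^ j)⁻¹ * ∫ x, k x ^ j) ^ (1 - 1 / β) := by 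
  have hβ0 : 0 < β := by linarith
  have hwβ0 : ∀ x, 0 ≤ w x ^ β := fun x => Real.rpow_nonneg (hw0 x) _
  have hkj0 : ∀ x, 0 ≤ k x ^ j := fun x => pow_nonneg (hk0 x) _
  obtain ⟨um, ui, u0, uI⟩ := av_integral hr' hwm hw hw0
  obtain ⟨vm, vi, v0, vI⟩ := av_integral hr hkm hk hk0
  obtain ⟨pm, pi, p0, pI⟩ := av_integral hr' (hwm.pow_const β) hwβ hwβ0
  obtain ⟨qm, qi, q0, qI⟩ := av_integral hr (hkm.pow_const j) hkj hkj0
  have hu : ∀ x, av r' w x ^ β ≤ av r' (fun y => w y ^ β) x := fun x =>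
    av_jensen hr' (convexOn_rpow hβ.le)
      (fun y _ => (Real.continuousAt_rpow_const y β (Or.inr hβ0.le)).continuousWithinAt)
      hw0 hw hwβ x
  have hv : ∀ x, av r k x ^ j ≤ av r (fun y => k y ^ j) x := fun x =>
    av_jensen hr (convexOn_pow j) (continuous_pow j).continuousOn hk0 hk hkj x
  have hBm : MeasurableSet {x | Λ₂ < av r k x} := measurableSet_lt measurable_const vm
  have hsub : {x | Λ₂ < av r k x} ⊆ {x | Λ₂ ^ j ≤ av r (fun y => k y ^ j) x} := by
    intro x hx
    exact (pow_le_pow_left₀ hΛ.le (le_of_lt hx) j).trans (hv x)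
  have hfin : volume {x | Λ₂ ^ j ≤ av r (fun y => k y ^ j) x} < ⊤ :=
    qi.measure_ge_lt_top (by positivity)
  have hBf : volume {x | Λ₂ < av r k x} < ⊤ := (measure_mono hsub).trans_lt hfin
  have hcheb : (volume : Measure (E n)).real {x | Λ₂ < av r k x}
      ≤ (Λ₂ ^ j)⁻¹ * ∫ x, k x ^ j := by
    have h1 := mul_meas_ge_le_integral_of_nonneg (Filter.Eventually.of_forall q0) qi (Λ₂ ^ j)
    rw [qI] at h1
    have h2 : (volume : Measure (E n)).real {x | Λ₂ < av r k x}
        ≤ (volume : Measure (E n)).real {x | Λ₂ ^ j ≤ av r (fun y => k y ^ j) x} :=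
      ENNReal.toReal_mono hfin.ne (measure_mono hsub)
    rw [inv_mul_eq_div, le_div_iff₀ (by positivity)]
    calc _ ≤ (volume : Measure (E n)).real {x | Λ₂ ^ j ≤ av r (fun y => k y ^ j) x} * Λ₂ ^ j := by
          gcongr
      _ ≤ _ := by rw [mul_comm]; exact h1
  have huβ : Integrable fun x => av r' w x ^ β := by
    refine pi.mono' (um.pow_const β).aestronglyMeasurable (Filter.Eventually.of_forall fun x => ?_)
    rw [Real.norm_of_nonneg (Real.rpow_nonneg (u0 x) _)]
    exact hu x
  have hup : MemLp (av r' w) (ENNReal.ofReal β) volume := by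
    rw [← integrable_norm_rpow_iff um.aestronglyMeasurable
      (ENNReal.ofReal_pos.2 hβ0).ne' ENNReal.ofReal_ne_top, ENNReal.toReal_ofReal hβ0.le]
    refine huβ.congr (Filter.Eventually.of_forall fun x => ?_)
    simp only
    rw [Real.norm_of_nonneg (u0 x)]
  have hconj : β.HolderConjugate (β / (β - 1)) := Real.HolderConjugate.conjExponent hβ
  have hq : MemLp ({x | Λ₂ < av r k x}.indicator fun _ => (1 : ℝ))
      (ENNReal.ofReal (β / (β - 1))) volume :=
    memLp_indicator_const _ hBm _ (Or.inr hBf.ne)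
  have hH := integral_mul_le_Lp_mul_Lq_of_nonneg hconj (Filter.Eventually.of_forall u0)
    (Filter.Eventually.of_forall fun x => Set.indicator_nonneg (fun _ _ => zero_le_one) x) hup hq
  have e1 : ∫ x, av r' w x * ({x | Λ₂ < av r k x}.indicator (fun _ => (1 : ℝ)) x)
      = ∫ x in {x | Λ₂ < av r k x}, av r' w x := by
    rw [← integral_indicator hBm]
    refine integral_congr_ae (Filter.Eventually.of_forall fun x => ?_)
    by_cases hx : x ∈ {x | Λ₂ < av r k x}
    · simp only [Set.indicator_of_mem hx, mul_one]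
    · simp only [Set.indicator_of_notMem hx, mul_zero]
  have hqpos : 0 < β / (β - 1) := div_pos hβ0 (by linarith)
  have e2 : ∫ x, ({x | Λ₂ < av r k x}.indicator (fun _ => (1 : ℝ)) x) ^ (β / (β - 1))
      = (volume : Measure (E n)).real {x | Λ₂ < av r k x} := by
    have h3 : (fun x => ({x | Λ₂ < av r k x}.indicator (fun _ => (1 : ℝ)) x) ^ (β / (β - 1)))
        = {x | Λ₂ < av r k x}.indicator (fun _ => (1 : ℝ)) := by
      funext x
      by_cases hx : x ∈ {x | Λ₂ < av r k x}
      · rw [Set.indicator_of_mem hx, Real.one_rpow]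
      · rw [Set.indicator_of_notMem hx, Real.zero_rpow hqpos.ne']
    rw [h3, integral_indicator_const _ hBm]
    simp
  rw [e1, e2] at hH
  have e3 : 1 / (β / (β - 1)) = 1 - 1 / β := by
    have : β - 1 ≠ 0 := by linarith
    field_simp
  rw [e3] at hH
  refine hH.trans ?_
  have h5 : (∫ x, av r' w x ^ β) ≤ ∫ x, w x ^ β := by
    rw [← pI]
    exact integral_mono huβ pi hu
  have h6 : 0 ≤ 1 - 1 / β := by
    rw [sub_nonneg, div_le_one hβ0]; exact hβ.le
  have h7 : 0 ≤ ∫ x, av r' w x ^ β := integral_nonneg fun x => Real.rpow_nonneg (u0 x) _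
  have h8 : 0 ≤ ∫ x, w x ^ β := integral_nonneg hwβ0
  exact mul_le_mul (Real.rpow_le_rpow h7 h5 (by positivity))
    (Real.rpow_le_rpow ENNReal.toReal_nonneg hcheb h6) (Real.rpow_nonneg ENNReal.toReal_nonneg _)
    (Real.rpow_nonneg h8 _)

end H930.BL.XSelect

namespace H930.BL

export XSelect (select av_integral bad_mass)

end H930.BL
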