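import Pool.Agent.Helper930.BL.Defs2
import Pool.Agent.Helper930.BL.QdP
import Pool.Agent.Helper930.BL.Select
import Pool.Agent.Helper930.BL.AvB
import Pool.Agent.Helper930.BL.Hol

set_option autoImplicit false

open MeasureTheory Metric Set Filter Topology
open scoped ENNReal NNReal ContDiff

namespace H930.BL.XMqS

variable {n : ℕ}

theorem cn_lst_sum {ρ c : ℝ} (hρ : 0 < ρ) (hρ2 : ρ ≤ 1 / 2) (hc : 0 < c) (m : ℕ) :
    ∀ k : ℕ, ((List.range' k m).map (fun i => c * ρ ^ i)).sum ≤ c * ρ ^ k * 2 := by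
  induction m with
  | zero =>
    intro k
    simp
    positivity
  | succ m ih =>
    intro k
    rw [List.range'_succ]
    simp only [List.map_cons, List.sum_cons]
    have h1 := ih (k + 1)
    have h2 : c * ρ ^ (k + 1) * 2 ≤ c * ρ ^ k := by
      rw [pow_succ]
      have : 0 < c * ρ ^ k := by positivity
      nlinarith
    linarith

theorem cn_sn_pf_int {n : ℕ} (hn : 1 ≤ n) {f : E n → E n} {D : E n → Matrix (Fin n) (Fin n) ℝ}
    {Ω : Set (E n)} (h : FDMap f D Ω) {K : Set (E n)} (hK : IsCompact K) (hKΩ : K ⊆ Ω) :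
    IntegrableOn (fun x => sn (D x) ^ pf n) K := by
  have hm : Measurable fun x => sn (D x) ^ pf n := (meas_sn' h.meas).pow_const _
  have h1 := h.det_int K hK hKΩ
  have h2 := h.kd_int (4 * n - 1) K hK hKΩ
  refine Integrable.mono' (h1.add h2) hm.aestronglyMeasurable ?_
  have hpos : ∀ᵐ x ∂(volume.restrict K), 0 ≤ (D x).det ∧ ((D x).det = 0 → D x = 0) :=
    ae_restrict_of_ae_restrict_of_subset hKΩ h.pos
  filter_upwards [hpos] with x hx
  obtain ⟨ha, hb⟩ := hx
  have hk := kd_nonneg ha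
  have hsn := sn_nonneg (D x)
  have heq := sn_pow_eq hn ha hb
  have hn0 : (0 : ℝ) < n := by exact_mod_cast hn
  rw [Real.norm_of_nonneg (Real.rpow_nonneg hsn _)]
  set a := (D x).det
  set b := kd (D x)
  have e1 : sn (D x) ^ pf n = (b * a) ^ (1 - 1 / (4 * (n : ℝ))) := by
    rw [← heq, ← Real.rpow_natCast, ← Real.rpow_mul hsn]
    congr 1
    unfold pf
    field_simp
  have e2 : (b * a) ^ (1 - 1 / (4 * (n : ℝ))) = a ^ (1 - 1 / (4 * (n : ℝ))) * (b ^ (4 * n - 1)) ^ (1 / (4 * (n : ℝ))) := by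
    rw [Real.mul_rpow hk ha, mul_comm]
    congr 1
    rw [← Real.rpow_natCast, ← Real.rpow_mul hk]
    congr 1
    have : ((4 * n - 1 : ℕ) : ℝ) = 4 * (n : ℝ) - 1 := by
      rw [Nat.cast_sub (by omega)]; push_cast; ring
    rw [this]
    field_simp
  rw [e1, e2]
  have hw1 : (0 : ℝ) ≤ 1 / (4 * (n : ℝ)) := by positivity
  have hw2 : 1 / (4 * (n : ℝ)) ≤ 1 := by
    rw [div_le_one (by positivity)]
    have : (1 : ℝ) ≤ n := by exact_mod_cast hn
    linarith
  have h3 := Real.geom_mean_le_arith_mean2_weighted (w₁ := 1 - 1 / (4 * (n : ℝ)))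
    (w₂ := 1 / (4 * (n : ℝ))) (by linarith) hw1 ha (pow_nonneg hk (4 * n - 1)) (by ring)
  refine h3.trans ?_
  have hb' : 0 ≤ b ^ (4 * n - 1) := pow_nonneg hk _
  show _ ≤ a + b ^ (4 * n - 1)
  nlinarith

theorem cn_bm {n : ℕ} (hn : 3 ≤ n) {f : E n → E n} {D : E n → Matrix (Fin n) (Fin n) ℝ}
    {Ω : Set (E n)} (h : FDMap f D Ω) (hΩ : closedBall 0 4 ⊆ Ω) {ρ κ C A' s : ℝ} {j : ℕ}
    (hρ : 0 < ρ) (hρ1 : ρ ≤ 1) (hκ : 0 < κ) (hC : 1 ≤ C) (hA' : 1 ≤ A')
    (hj : (20 * (n : ℝ) ^ 2 : ℝ) ≤ κ * j) (hj1 : 1 ≤ j)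
    (hA : ∫ x in closedBall 0 4, kd (D x) ^ ((2 * n - 1) * j) ≤ A' * (ρ ^ n)⁻¹)
    (hCi : ∫ x in closedBall 0 3, sn (D x) ^ pf n ≤ C * (ρ ^ n)⁻¹) (hs : s ≤ 3)
    {r r' : ℝ} (hr : 0 < r) (hr' : 0 < r') :
    ∫ x in {x | ρ ^ (-κ) < av r (indicator (closedBall 0 4) (fun x => |kd (D x)| ^ (2 * n - 1))) x},
      av r' (indicator (closedBall 0 s) (fun x => sn (D x) ^ pe n)) x ≤
      C * A' * ρ ^ (2 * n + 1) := by
  have hn1 : 1 ≤ n := by omega
  have hnR : (3 : ℝ) ≤ n := by exact_mod_cast hn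
  have hpe : 0 < pe n := by unfold pe; linarith
  have hpf : 0 < pf n := by unfold pf; linarith
  set β : ℝ := pf n / pe n with hβdef
  have hβ : 1 < β := by
    rw [hβdef, one_lt_div hpe]
    unfold pe pf; linarith
  have hs4 : closedBall (0 : E n) s ⊆ closedBall 0 4 := closedBall_subset_closedBall (by linarith)
  have hs3 : closedBall (0 : E n) s ⊆ closedBall 0 3 := closedBall_subset_closedBall hs
  have h34 : closedBall (0 : E n) 3 ⊆ closedBall 0 4 := closedBall_subset_closedBall (by norm_num)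
  set w₀ : E n → ℝ := indicator (closedBall 0 s) (fun x => sn (D x) ^ pe n) with hw₀
  set k₀ : E n → ℝ := indicator (closedBall 0 4) (fun x => |kd (D x)| ^ (2 * n - 1)) with hk₀
  have hwm : Measurable w₀ := ((meas_sn' h.meas).pow_const _).indicator measurableSet_closedBall
  have hkm : Measurable k₀ := (((meas_kd h.meas).abs).pow_const _).indicator measurableSet_closedBall
  have hw0 : ∀ x, 0 ≤ w₀ x := fun x => indicator_nonneg (fun _ _ => Real.rpow_nonneg (sn_nonneg _) _) x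
  have hk0 : ∀ x, 0 ≤ k₀ x := fun x => indicator_nonneg (fun _ _ => pow_nonneg (abs_nonneg _) _) x
  have hw : Integrable w₀ := (integrable_indicator_iff measurableSet_closedBall).2
    (hol2 h hn1 (isCompact_closedBall 0 s) (hs4.trans hΩ)).1
  have habs : ∀ q : ℕ, IntegrableOn (fun x => |kd (D x)| ^ q) (closedBall 0 4) := by
    intro q
    have := (h.kd_int q _ (isCompact_closedBall 0 4) hΩ).abs
    refine this.congr (Filter.Eventually.of_forall fun x => ?_)
    simp only [abs_pow]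
  have hk : Integrable k₀ := (integrable_indicator_iff measurableSet_closedBall).2 (habs _)
  have hwβeq : (fun x => w₀ x ^ β) = indicator (closedBall 0 s) (fun x => sn (D x) ^ pf n) := by
    ext x
    simp only [hw₀, indicator]
    split_ifs
    · rw [← Real.rpow_mul (sn_nonneg _), hβdef, mul_div_cancel₀ _ hpe.ne']
    · rw [Real.zero_rpow (by linarith)]
  have hpfint : IntegrableOn (fun x => sn (D x) ^ pf n) (closedBall 0 3) :=
    cn_sn_pf_int hn1 h (isCompact_closedBall 0 3) (h34.trans hΩ)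
  have hwβ : Integrable fun x => w₀ x ^ β := by
    rw [hwβeq]
    exact (integrable_indicator_iff measurableSet_closedBall).2 (hpfint.mono_set hs3)
  have hkjeq : (fun x => k₀ x ^ j) = indicator (closedBall 0 4) (fun x => |kd (D x)| ^ ((2 * n - 1) * j)) := by
    ext x
    simp only [hk₀, indicator]
    split_ifs
    · rw [pow_mul]
    · rw [zero_pow (by omega)]
  have hkj : Integrable fun x => k₀ x ^ j := by
    rw [hkjeq]
    exact (integrable_indicator_iff measurableSet_closedBall).2 (habs _)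
  have hbm := bad_mass hr hr' hβ (Real.rpow_pos_of_pos hρ (-κ)) hj1 hwm hkm hw0 hk0 hw hwβ hk hkj
  refine hbm.trans ?_
  have hX : ∫ x, w₀ x ^ β ≤ C * (ρ ^ n)⁻¹ := by
    rw [hwβeq, integral_indicator measurableSet_closedBall]
    refine le_trans ?_ hCi
    refine setIntegral_mono_set hpfint ?_ (Filter.Eventually.of_forall hs3)
    exact Filter.Eventually.of_forall fun x => Real.rpow_nonneg (sn_nonneg _) _
  have hX0 : 0 ≤ ∫ x, w₀ x ^ β := integral_nonneg fun x => Real.rpow_nonneg (hw0 x) _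
  have hY : ∫ x, k₀ x ^ j ≤ A' * (ρ ^ n)⁻¹ := by
    rw [hkjeq, integral_indicator measurableSet_closedBall]
    refine le_trans (le_of_eq ?_) hA
    refine integral_congr_ae ?_
    have hpos : ∀ᵐ x ∂(volume.restrict (closedBall (0 : E n) 4)), 0 ≤ (D x).det ∧ ((D x).det = 0 → D x = 0) :=
      ae_restrict_of_ae_restrict_of_subset hΩ h.pos
    filter_upwards [hpos] with x hx
    simp only [abs_of_nonneg (kd_nonneg hx.1)]
  have hY0 : 0 ≤ ∫ x, k₀ x ^ j := integral_nonneg fun x => pow_nonneg (hk0 x) _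
  have hρn : 1 ≤ (ρ ^ n)⁻¹ := (one_le_inv₀ (by positivity)).2 (pow_le_one₀ hρ.le hρ1)
  have hbase : 1 ≤ C * (ρ ^ n)⁻¹ := by nlinarith
  have hX1 : (∫ x, w₀ x ^ β) ^ (1 / β) ≤ C * (ρ ^ n)⁻¹ := by
    calc (∫ x, w₀ x ^ β) ^ (1 / β) ≤ (C * (ρ ^ n)⁻¹) ^ (1 / β) :=
          Real.rpow_le_rpow hX0 hX (by positivity)
      _ ≤ (C * (ρ ^ n)⁻¹) ^ (1 : ℝ) := by
          refine Real.rpow_le_rpow_of_exponent_le hbase ?_
          rw [div_le_one (by linarith)]; exact hβ.le
      _ = _ := Real.rpow_one _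
  have hθ : 1 - 1 / β = 1 / (4 * (n : ℝ) - 1) := by
    rw [hβdef]
    unfold pe pf
    have h1 : (n : ℝ) - 1 / 4 ≠ 0 := by linarith
    have h2 : (n : ℝ) - 1 / 2 ≠ 0 := by linarith
    have h3 : 4 * (n : ℝ) - 1 ≠ 0 := by linarith
    rw [one_div_div]
    have h4 : 4 * (n : ℝ) - 1 = 4 * ((n : ℝ) - 1 / 4) := by ring
    have h5 : (n : ℝ) - 1 / 2 = ((n : ℝ) - 1 / 4) - 1 / 4 := by ring
    rw [h4, h5]
    generalize (n : ℝ) - 1 / 4 = t at h1
    field_simp
    ring
  have hY1 : (((ρ ^ (-κ)) ^ j)⁻¹ * ∫ x, k₀ x ^ j) ^ (1 - 1 / β) ≤ A' * ρ ^ (3 * n + 1) := by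
    rw [hθ]
    set θ : ℝ := 1 / (4 * (n : ℝ) - 1) with hθd
    have hθ0 : 0 < θ := by
      rw [hθd]; apply div_pos one_pos; linarith
    have hθ1 : θ ≤ 1 := by
      rw [hθd, div_le_one (by linarith)]; linarith
    have e1 : ((ρ ^ (-κ)) ^ j)⁻¹ = ρ ^ (κ * j) := by
      rw [← Real.rpow_natCast, ← Real.rpow_mul hρ.le, ← Real.rpow_neg hρ.le]
      congr 1; ring
    rw [e1]
    have e2 : ρ ^ (κ * j) * (∫ x, k₀ x ^ j) ≤ A' * ρ ^ (κ * j - n) := by
      rw [Real.rpow_sub hρ, Real.rpow_natCast]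
      have : 0 < ρ ^ (κ * j) := Real.rpow_pos_of_pos hρ _
      calc ρ ^ (κ * j) * (∫ x, k₀ x ^ j) ≤ ρ ^ (κ * j) * (A' * (ρ ^ n)⁻¹) :=
            mul_le_mul_of_nonneg_left hY this.le
        _ = _ := by rw [div_eq_mul_inv]; ring
    calc (ρ ^ (κ * j) * ∫ x, k₀ x ^ j) ^ θ ≤ (A' * ρ ^ (κ * j - n)) ^ θ := by
          refine Real.rpow_le_rpow ?_ e2 hθ0.le
          exact mul_nonneg (Real.rpow_nonneg hρ.le _) hY0
      _ = A' ^ θ * ρ ^ ((κ * j - n) * θ) := by
          rw [Real.mul_rpow (by linarith) (Real.rpow_nonneg hρ.le _), ← Real.rpow_mul hρ.le]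
      _ ≤ A' * ρ ^ (3 * n + 1) := by
          have f1 : A' ^ θ ≤ A' := by
            calc A' ^ θ ≤ A' ^ (1 : ℝ) := Real.rpow_le_rpow_of_exponent_le hA' hθ1
              _ = A' := Real.rpow_one _
          have f2 : ρ ^ ((κ * j - n) * θ) ≤ ρ ^ (3 * n + 1) := by
            rw [← Real.rpow_natCast]
            refine Real.rpow_le_rpow_of_exponent_ge hρ hρ1 ?_
            push_cast
            rw [hθd, mul_one_div, le_div_iff₀ (by linarith)]
            nlinarith
          exact mul_le_mul f1 f2 (Real.rpow_nonneg hρ.le _) (by linarith)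
  calc (∫ x, w₀ x ^ β) ^ (1 / β) * (((ρ ^ (-κ)) ^ j)⁻¹ * ∫ x, k₀ x ^ j) ^ (1 - 1 / β)
      ≤ (C * (ρ ^ n)⁻¹) * (A' * ρ ^ (3 * n + 1)) := by
        refine mul_le_mul hX1 hY1 ?_ (by linarith)
        refine Real.rpow_nonneg (mul_nonneg ?_ hY0) _
        exact inv_nonneg.2 (pow_nonneg (Real.rpow_nonneg hρ.le _) _)
    _ = C * A' * ρ ^ (2 * n + 1) := by
        have : ρ ^ (3 * n + 1) = ρ ^ n * ρ ^ (2 * n + 1) := by rw [← pow_add]; congr 1; ring
        rw [this]
        have h0 : ρ ^ n ≠ 0 := by positivity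
        field_simp



theorem cn_av_mul {n : ℕ} {r : ℝ} (hr : 0 < r) (g : E n → ℝ) (x : E n) :
    (2 * r) ^ n * av r g x = ∫ y in closedBall x r, g y := by
  unfold av
  rw [← mul_assoc, mul_inv_cancel₀ (by positivity), one_mul]

theorem cn_core {n : ℕ} (hn : 3 ≤ n) {f : E n → E n} {D : E n → Matrix (Fin n) (Fin n) ℝ}
    {Ω : Set (E n)} (h : FDMap f D Ω) (hΩ : closedBall 0 4 ⊆ Ω) {ρ κ C A' s hh : ℝ} {j : ℕ}
    (hρ : 0 < ρ) (hρ2 : ρ ≤ 1 / 2) (hκ : 0 < κ) (hC : 1 ≤ C) (hA' : 1 ≤ A')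
    (hj : (20 * (n : ℝ) ^ 2 : ℝ) ≤ κ * j) (hj1 : 1 ≤ j)
    (hA : ∫ x in closedBall 0 4, kd (D x) ^ ((2 * n - 1) * j) ≤ A' * (ρ ^ n)⁻¹)
    (hCi : ∫ x in closedBall 0 3, sn (D x) ^ pf n ≤ C * (ρ ^ n)⁻¹)
    (hh0 : 0 < hh) (hh1 : hh ≤ 1) (hs2 : 2 ≤ s) (hs3 : s + hh ≤ 3)
    (hρ0 : C * A' * ρ * 8 * C ≤ 1)
    (hI : C⁻¹ * ρ ^ (2 * n) ≤ ∫ x in closedBall 0 s, sn (D x) ^ pe n)
    (hII : ∫ x in closedBall 0 (s + hh), sn (D x) ^ pe n ≤
      ρ ^ (-κ) * ∫ x in closedBall 0 s, sn (D x) ^ pe n)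
    {C4 C' : ℝ} (hC4 : C4 = 2 ^ (pe n - 1) * (n : ℝ) ^ 2)
    (hC' : C' = 1 + 2 ^ n * 8 * C4 + 4 ^ n * 8 + 2 ^ n + 8 * 8 ^ n * C + 2 ^ n * 8) :
    ∃ (x : E n) (r : ℝ) (l : List ℝ) (G : Fin n → Fin n → E n → ℝ)
      (M : Matrix (Fin n) (Fin n) ℝ) (w : ℝ), Good D ρ κ C' x r l G M w ∧
      closedBall x (2 * r) ⊆ closedBall 0 3 ∧
      hh / 16 * ρ ^ (ρ ^ (-(1 / 4) : ℝ)) ≤ r := by
  have hn1 : 1 ≤ n := by omega
  have hnR : (3 : ℝ) ≤ n := by exact_mod_cast hn
  have hp2 : 2 ≤ pe n := by unfold pe; linarith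
  have hpe : 0 < pe n := by linarith
  have hρ1 : ρ ≤ 1 := by linarith
  set p := pe n with hp
  set I := ∫ x in closedBall (0 : E n) s, sn (D x) ^ p with hIdef
  have hI0 : 0 < I := lt_of_lt_of_le (by positivity) hI
  have hC40 : 0 < C4 := by rw [hC4]; positivity
  have hρκ : 0 < ρ ^ (-κ) := Real.rpow_pos_of_pos hρ _
  have hsh4 : closedBall (0 : E n) (s + hh) ⊆ closedBall 0 4 := closedBall_subset_closedBall (by linarith)
  have hsh3 : closedBall (0 : E n) (s + hh) ⊆ closedBall 0 3 := closedBall_subset_closedBall (by linarith)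
  have h34 : closedBall (0 : E n) 3 ⊆ closedBall 0 4 := closedBall_subset_closedBall (by norm_num)
  have hssh : closedBall (0 : E n) s ⊆ closedBall 0 (s + hh) := closedBall_subset_closedBall (by linarith)
  have hsn4 : IntegrableOn (fun x => sn (D x) ^ p) (closedBall 0 4) :=
    (hol2 h hn1 (isCompact_closedBall 0 4) hΩ).1
  have hsn0 : ∀ x, 0 ≤ sn (D x) ^ p := fun x => Real.rpow_nonneg (sn_nonneg _) _
  have hsnm : Measurable fun x => sn (D x) ^ p := (meas_sn' h.meas).pow_const _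
  -- radii
  set c := hh / 16 with hc
  have hc0 : 0 < c := by positivity
  set ρs : ℕ → ℝ := fun k => c * ρ ^ k with hρs
  have hρspos : ∀ k, 0 < ρs k := fun k => by simp only [hρs]; positivity
  set S := ⌈ρ ^ (-(1 / 4) : ℝ)⌉₊ with hS
  have hρ4 : 0 < ρ ^ (-(1 / 4) : ℝ) := Real.rpow_pos_of_pos hρ _
  have hS1 : 1 ≤ S := Nat.one_le_iff_ne_zero.2 (Nat.ceil_pos.2 hρ4).ne'
  have hSr : ρ ^ (-(1 / 4) : ℝ) ≤ S := Nat.le_ceil _
  -- the functions G
  set G : Fin n × Fin n → E n → ℝ := fun q => indicator (closedBall 0 (s + hh)) (fun x => D x q.1 q.2) with hG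
  have hGm : ∀ q, Measurable (G q) := fun q => (h.meas _ _).indicator measurableSet_closedBall
  have hDint := (D_int h (by omega) (isCompact_closedBall (0 : E n) (s + hh)) (hsh4.trans hΩ)).2.2
  have hGi : ∀ q, Integrable (G q) := fun q =>
    (integrable_indicator_iff measurableSet_closedBall).2 (hDint q.1 q.2)
  have hGpeq : ∀ q, (fun x => |G q x| ^ p) = indicator (closedBall 0 (s + hh)) (fun x => |D x q.1 q.2| ^ p) := by
    intro q
    ext x
    simp only [hG, indicator]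
    split_ifs
    · rfl
    · rw [abs_zero, Real.zero_rpow hpe.ne']
  have hDle : ∀ x i j, |D x i j| ^ p ≤ sn (D x) ^ p := fun x i j =>
    Real.rpow_le_rpow (abs_nonneg _) (abs_entry_le_sn _ _ _) hpe.le
  have hDp : ∀ i j, ∀ K : Set (E n), K ⊆ closedBall 0 4 → MeasurableSet K → IntegrableOn (fun x => |D x i j| ^ p) K := by
    intro i j K hK _
    refine Integrable.mono' (hsn4.mono_set hK) (((h.meas i j).abs).pow_const _).aestronglyMeasurable ?_
    refine Filter.Eventually.of_forall fun x => ?_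
    rw [Real.norm_of_nonneg (Real.rpow_nonneg (abs_nonneg _) _)]
    exact hDle x i j
  have hGp : ∀ q, Integrable fun x => |G q x| ^ p := by
    intro q
    rw [hGpeq]
    exact (integrable_indicator_iff measurableSet_closedBall).2 (hDp _ _ _ hsh4 measurableSet_closedBall)
  have hGI : ∀ q, ∫ x, |G q x| ^ p ≤ ρ ^ (-κ) * I := by
    intro q
    rw [hGpeq, integral_indicator measurableSet_closedBall]
    refine le_trans ?_ hII
    refine setIntegral_mono (hDp _ _ _ hsh4 measurableSet_closedBall) (hsn4.mono_set hsh4) ?_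
    exact fun x => hDle x _ _
  obtain ⟨k, hkS, hkint, hksum⟩ := qd_pigeon hp2 hS1 hρspos G hGm hGi hGp
  set r := ρs k with hr
  have hr0 : 0 < r := hρspos k
  have hrle : r ≤ hh / 16 := by
    rw [hr]
    simp only [hρs]
    have := pow_le_one₀ hρ.le hρ1 (n := k)
    nlinarith
  set l := lst ρs S (k + 1) with hl
  have hlst : lst ρs S k = r :: l := by
    rw [hl, hr]
    unfold lst
    have : S - k = (S - (k + 1)) + 1 := by omega
    rw [this, List.range'_succ]
    rfl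
  have hlpos : ∀ t ∈ l, 0 < t := by
    intro t ht
    rw [hl] at ht
    unfold lst at ht
    rw [List.mem_map] at ht
    obtain ⟨i, _, rfl⟩ := ht
    exact hρspos i
  have hlsum : l.sum ≤ 2 * ρ * r := by
    have := cn_lst_sum hρ hρ2 hc0 (S - (k + 1)) (k + 1)
    have e : c * ρ ^ (k + 1) * 2 = 2 * ρ * r := by
      rw [hr]; simp only [hρs]; rw [pow_succ]; ring
    rw [← e]
    exact this
  have hlr : l.sum ≤ r := by nlinarith
  -- the functions for the selection
  set w₀ : E n → ℝ := indicator (closedBall 0 s) (fun x => sn (D x) ^ p) with hw₀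
  set W₀ : E n → ℝ := indicator (closedBall 0 (s + hh)) (fun x => sn (D x) ^ p) with hW₀
  set k₀ : E n → ℝ := indicator (closedBall 0 4) (fun x => |kd (D x)| ^ (2 * n - 1)) with hk₀
  have hr4 : 0 < r / 4 := by positivity
  have h2r : 0 < 2 * r := by positivity
  obtain ⟨hwm, hwi, hwnn, hwI⟩ := av_integral hr4 (hsnm.indicator measurableSet_closedBall)
    ((integrable_indicator_iff measurableSet_closedBall).2 (hsn4.mono_set (hssh.trans hsh4)))
    (fun x => indicator_nonneg (fun y _ => hsn0 y) x)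
  rw [integral_indicator measurableSet_closedBall, ← hIdef] at hwI
  obtain ⟨hWm, hWi, hWnn, hWI⟩ := av_integral h2r (hsnm.indicator measurableSet_closedBall)
    ((integrable_indicator_iff measurableSet_closedBall).2 (hsn4.mono_set hsh4))
    (fun x => indicator_nonneg (fun y _ => hsn0 y) x)
  rw [integral_indicator measurableSet_closedBall] at hWI
  have hkdint : ∀ q : ℕ, IntegrableOn (fun x => |kd (D x)| ^ q) (closedBall 0 4) := by
    intro q
    have := (h.kd_int q _ (isCompact_closedBall 0 4) hΩ).abs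
    refine this.congr (Filter.Eventually.of_forall fun x => ?_)
    simp only [abs_pow]
  obtain ⟨hkm, hki, hknn, -⟩ := av_integral hr0
    ((((meas_kd h.meas).abs).pow_const (2 * n - 1)).indicator (measurableSet_closedBall (x := (0 : E n)) (ε := 4)))
    ((integrable_indicator_iff measurableSet_closedBall).2 (hkdint _))
    (fun x => indicator_nonneg (fun y _ => pow_nonneg (abs_nonneg _) _) x)
  set e : E n → ℝ := fun x => ∑ q, av r (fun y => |avs l (G q) y - avs (lst ρs S k) (G q) x| ^ p) x with he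
  have he0 : ∀ x, 0 ≤ e x := by
    intro x
    refine Finset.sum_nonneg fun q _ => ?_
    unfold av
    refine mul_nonneg (by positivity) (integral_nonneg fun y => ?_)
    exact Real.rpow_nonneg (abs_nonneg _) _
  have hei : Integrable e := integrable_finsetSum _ fun q _ => hkint q
  set ε := C4 * ρ ^ (1 / 4 - κ) with hε
  have hρe : 0 < ρ ^ (1 / 4 - κ) := Real.rpow_pos_of_pos hρ _
  have hε0 : 0 < ε := mul_pos hC40 hρe
  have heI : ∫ x, e x ≤ ε * I := by
    have e1 : ∫ x, e x = ∑ q, ∫ x, av r (fun y => |avs l (G q) y - avs (lst ρs S k) (G q) x| ^ p) x := by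
      rw [he]
      exact integral_finsetSum _ fun q _ => hkint q
    rw [e1]
    refine hksum.trans ?_
    have e2 : ∑ q, ∫ x, |G q x| ^ p ≤ (n : ℝ) ^ 2 * (ρ ^ (-κ) * I) := by
      refine (Finset.sum_le_sum fun q _ => hGI q).trans ?_
      rw [Finset.sum_const, Finset.card_univ, Fintype.card_prod, Fintype.card_fin, nsmul_eq_mul]
      push_cast
      rw [sq]
    have e3 : 2 ^ (p - 1) / (S : ℝ) ≤ 2 ^ (p - 1) * ρ ^ (1 / 4 : ℝ) := by
      rw [div_eq_mul_inv]
      refine mul_le_mul_of_nonneg_left ?_ (by positivity)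
      rw [inv_le_comm₀ (by exact_mod_cast hS1) (Real.rpow_pos_of_pos hρ _), ← Real.rpow_neg hρ.le]
      exact hSr
    calc 2 ^ (p - 1) / (S : ℝ) * ∑ q, ∫ x, |G q x| ^ p
        ≤ (2 ^ (p - 1) * ρ ^ (1 / 4 : ℝ)) * ((n : ℝ) ^ 2 * (ρ ^ (-κ) * I)) := by
          refine mul_le_mul e3 e2 ?_ (by positivity)
          exact Finset.sum_nonneg fun q _ => integral_nonneg fun x => Real.rpow_nonneg (abs_nonneg _) _
      _ = ε * I := by
          rw [hε, hC4, sub_eq_add_neg (1 / 4 : ℝ) κ, Real.rpow_add hρ]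
          ring
  have hkI : ∫ x in {x | ρ ^ (-κ) < av r k₀ x}, av (r / 4) w₀ x ≤ I / 8 := by
    have h1 := cn_bm hn h hΩ hρ hρ1 hκ hC hA' hj hj1 hA hCi (by linarith : s ≤ 3) hr0 hr4
    refine h1.trans ?_
    have h2 : C * A' * ρ ^ (2 * n + 1) * 8 ≤ C⁻¹ * ρ ^ (2 * n) := by
      rw [pow_succ, ← div_eq_inv_mul, le_div_iff₀ (by linarith)]
      have : 0 < ρ ^ (2 * n) := by positivity
      calc C * A' * (ρ ^ (2 * n) * ρ) * 8 * C = (C * A' * ρ * 8 * C) * ρ ^ (2 * n) := by ring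
        _ ≤ 1 * ρ ^ (2 * n) := mul_le_mul_of_nonneg_right hρ0 this.le
        _ = _ := one_mul _
    linarith
  have hTV : volume (closedBall (0 : E n) 4) ≤ ENNReal.ofReal ((8 : ℝ) ^ n) := by
    rw [volume_cube 0 (by norm_num : (0 : ℝ) ≤ 4)]
    norm_num
  have hwT : ∀ x ∉ closedBall (0 : E n) 4, av (r / 4) w₀ x = 0 := by
    intro x hx
    rw [mem_closedBall, not_le] at hx
    rw [av_local (g' := fun _ => 0) (fun y hy => ?_)]
    · simp [av]
    · rw [hw₀]
      refine indicator_of_notMem ?_ _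
      rw [mem_closedBall, not_le]
      rw [mem_closedBall] at hy
      have h1 := dist_triangle_left x 0 y
      linarith
  obtain ⟨x, hx1, hx2, hx3, hx4, hx5⟩ := select hwnn hWnn he0 hwi hWi hei hkm hI0 hwI hε0 hρκ heI
    (by rw [hWI]; exact hII) hkI measurableSet_closedBall (by positivity) hTV hwT
  -- position of x
  have hxs : dist x 0 ≤ s + r / 4 := by
    by_contra hcon
    rw [not_le] at hcon
    have : av (r / 4) w₀ x = 0 := by
      rw [av_local (g' := fun _ => 0) (fun y hy => ?_)]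
      · simp [av]
      · rw [hw₀]
        refine indicator_of_notMem ?_ _
        rw [mem_closedBall, not_le]
        rw [mem_closedBall] at hy
        have h1 := dist_triangle_left x 0 y
        linarith
    exact absurd hx1 (by rw [this]; exact lt_irrefl _)
  have hx2r : closedBall x (2 * r) ⊆ closedBall 0 (s + hh) := by
    intro y hy
    rw [mem_closedBall] at hy ⊢
    have h1 := dist_triangle y x 0
    linarith
  have hWx : ∫ y in closedBall x (2 * r), sn (D y) ^ p = (2 * (2 * r)) ^ n * av (2 * r) W₀ x := by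
    rw [cn_av_mul h2r]
    refine setIntegral_congr_fun measurableSet_closedBall fun y hy => ?_
    rw [hW₀]
    have := indicator_of_mem (hx2r hy) (fun x => sn (D x) ^ p)
    exact this.symm
  have h2n : ((2 * r) ^ n : ℝ) = 2 ^ n * r ^ n := mul_pow _ _ _
  have h4n : ((2 * (2 * r)) ^ n : ℝ) = 4 ^ n * r ^ n := by rw [← mul_assoc, mul_pow]; norm_num
  have hC'1 : 2 ^ n * 8 * C4 ≤ C' := by
    rw [hC']
    have : (0 : ℝ) < 4 ^ n := by positivity
    have : (0 : ℝ) < 2 ^ n := by positivity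
    have : (0 : ℝ) < 8 * 8 ^ n * C := by positivity
    linarith
  have hb1 : (0 : ℝ) < 2 ^ n * 8 * C4 := by positivity
  have hb2 : (0 : ℝ) < 4 ^ n := by positivity
  have hb3 : (0 : ℝ) < 2 ^ n := by positivity
  have hb4 : (0 : ℝ) < 8 * 8 ^ n * C := by positivity
  have hb5 : (0 : ℝ) < r ^ n := by positivity
  set w := av (r / 4) w₀ x with hw
  have hx0w : 0 ≤ w := hx1.le
  refine ⟨x, r, l, fun i j => G (i, j), Matrix.of fun i j => avs (lst ρs S k) (G (i, j)) x, w, ?_, ?_, ?_⟩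
  · refine ⟨hr0, by linarith, hlpos, hlsum, fun i j => hGm _, ?_, hx1, ?_, ?_, ?_, ?_, ?_, ?_⟩
    · intro i j y hy
      simp only [hG]
      exact indicator_of_mem (hx2r hy) _
    · -- w_le
      rw [hw]
      unfold av
      have e1 : 2 * (r / 4) = r / 2 := by ring
      rw [e1]
      refine mul_le_mul_of_nonneg_left ?_ (by positivity)
      have hsub : closedBall x (r / 4) ⊆ closedBall 0 4 :=
        ((closedBall_subset_closedBall (by linarith)).trans hx2r).trans hsh4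
      refine setIntegral_mono ?_ (hsn4.mono_set hsub) ?_
      · refine Integrable.integrableOn ?_
        exact (integrable_indicator_iff measurableSet_closedBall).2 (hsn4.mono_set (hssh.trans hsh4))
      · intro y
        exact indicator_le_self' (fun _ _ => hsn0 _) y
    · -- osc
      have e1 : ∑ i, ∑ j, ∫ y in closedBall x r, |avs l (G (i, j)) y - (Matrix.of fun i j => avs (lst ρs S k) (G (i, j)) x) i j| ^ p
          = (2 * r) ^ n * e x := by
        simp only [he]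
        rw [Fintype.sum_prod_type, Finset.mul_sum]
        refine Finset.sum_congr rfl fun i _ => ?_
        rw [Finset.mul_sum]
        refine Finset.sum_congr rfl fun j _ => ?_
        rw [cn_av_mul hr0]
        rfl
      rw [e1, h2n]
      calc 2 ^ n * r ^ n * e x ≤ 2 ^ n * r ^ n * (8 * ε * w) := by
            exact mul_le_mul_of_nonneg_left hx2 (by positivity)
        _ = (2 ^ n * 8 * C4) * (ρ ^ (1 / 4 - κ) * r ^ n * w) := by rw [hε]; ring
        _ ≤ C' * (ρ ^ (1 / 4 - κ) * r ^ n * w) := mul_le_mul_of_nonneg_right hC'1 (by positivity)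
        _ = _ := by ring
    · -- outer
      rw [hWx, h4n]
      calc 4 ^ n * r ^ n * av (2 * r) W₀ x ≤ 4 ^ n * r ^ n * (8 * ρ ^ (-κ) * w) :=
            mul_le_mul_of_nonneg_left hx3 (by positivity)
        _ = (4 ^ n * 8) * (ρ ^ (-κ) * r ^ n * w) := by ring
        _ ≤ C' * (ρ ^ (-κ) * r ^ n * w) := by
            refine mul_le_mul_of_nonneg_right ?_ (by positivity)
            rw [hC']; linarith
        _ = _ := by ring
    · -- kdb
      have hsub : closedBall x r ⊆ closedBall 0 4 :=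
        ((closedBall_subset_closedBall (by linarith)).trans hx2r).trans hsh4
      have e1 : ∫ y in closedBall x r, kd (D y) ^ (2 * n - 1) = (2 * r) ^ n * av r k₀ x := by
        rw [cn_av_mul hr0]
        refine integral_congr_ae ?_
        have hpos : ∀ᵐ x ∂(volume.restrict (closedBall x r)), 0 ≤ (D x).det ∧ ((D x).det = 0 → D x = 0) :=
          ae_restrict_of_ae_restrict_of_subset (hsub.trans hΩ) h.pos
        filter_upwards [hpos, ae_restrict_mem measurableSet_closedBall] with y hy hyB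
        rw [hk₀, indicator_of_mem (hsub hyB), abs_of_nonneg (kd_nonneg hy.1)]
      rw [e1, h2n]
      calc 2 ^ n * r ^ n * av r k₀ x ≤ 2 ^ n * r ^ n * ρ ^ (-κ) :=
            mul_le_mul_of_nonneg_left hx4 (by positivity)
        _ = 2 ^ n * (ρ ^ (-κ) * r ^ n) := by ring
        _ ≤ C' * (ρ ^ (-κ) * r ^ n) := by
            refine mul_le_mul_of_nonneg_right ?_ (by positivity)
            rw [hC']; linarith
        _ = _ := by ring
    · -- w_ge
      refine le_trans ?_ hx5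
      have e1 : C'⁻¹ ≤ (8 * 8 ^ n * C)⁻¹ := by
        refine inv_anti₀ hb4 ?_
        rw [hC']; linarith
      calc C'⁻¹ * ρ ^ (2 * n) ≤ (8 * 8 ^ n * C)⁻¹ * ρ ^ (2 * n) :=
            mul_le_mul_of_nonneg_right e1 (by positivity)
        _ = (C⁻¹ * ρ ^ (2 * n)) / (8 * 8 ^ n) := by
            rw [mul_inv, div_eq_mul_inv]; ring
        _ ≤ I / (8 * 8 ^ n) := div_le_div_of_nonneg_right hI (by positivity)
    · -- M_le
      intro i j
      have hsub : closedBall x (r + l.sum) ⊆ closedBall x (2 * r) :=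
        closedBall_subset_closedBall (by linarith)
      have hb := avs_bound (p := p) (by linarith) hr0 l hlpos (hGm (i, j)) (x := x)
        ((hGp (i, j)).integrableOn)
      have e0 : (Matrix.of fun i j => avs (lst ρs S k) (G (i, j)) x) i j = avs (r :: l) (G (i, j)) x := by
        rw [← hlst]; rfl
      rw [e0]
      refine hb.trans ?_
      have e2 : ∫ y in closedBall x (r + l.sum), |G (i, j) y| ^ p ≤ ∫ y in closedBall x (2 * r), sn (D y) ^ p := by
        calc ∫ y in closedBall x (r + l.sum), |G (i, j) y| ^ p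
            ≤ ∫ y in closedBall x (2 * r), |G (i, j) y| ^ p := by
              refine setIntegral_mono_set ((hGp (i, j)).integrableOn) ?_ (Filter.Eventually.of_forall hsub)
              exact Filter.Eventually.of_forall fun y => Real.rpow_nonneg (abs_nonneg _) _
          _ ≤ _ := by
              refine setIntegral_mono_on ((hGp (i, j)).integrableOn) (hsn4.mono_set (hx2r.trans hsh4)) measurableSet_closedBall ?_
              intro y hy
              have : G (i, j) y = D y i j := by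
                simp only [hG]
                exact indicator_of_mem (hx2r hy) _
              rw [this]
              exact hDle y i j
      calc ((2 * r) ^ n)⁻¹ * ∫ y in closedBall x (r + l.sum), |G (i, j) y| ^ p
          ≤ ((2 * r) ^ n)⁻¹ * ((2 * (2 * r)) ^ n * av (2 * r) W₀ x) := by
            refine mul_le_mul_of_nonneg_left ?_ (by positivity)
            rw [← hWx]; exact e2
        _ = 2 ^ n * av (2 * r) W₀ x := by
            rw [mul_pow 2 (2 * r)]
            have : ((2 * r) ^ n : ℝ) ≠ 0 := by positivity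
            field_simp
        _ ≤ 2 ^ n * (8 * ρ ^ (-κ) * w) := mul_le_mul_of_nonneg_left hx3 (by positivity)
        _ = (2 ^ n * 8) * (ρ ^ (-κ) * w) := by ring
        _ ≤ C' * (ρ ^ (-κ) * w) := by
            refine mul_le_mul_of_nonneg_right ?_ (by positivity)
            rw [hC']; linarith
        _ = _ := by ring
  · exact hx2r.trans hsh3
  · rw [hr]
    simp only [hρs]
    refine mul_le_mul_of_nonneg_left ?_ hc0.le
    rw [← Real.rpow_natCast]
    refine Real.rpow_le_rpow_of_exponent_ge hρ hρ1 ?_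
    have h1 : (S : ℝ) < ρ ^ (-(1 / 4) : ℝ) + 1 := Nat.ceil_lt_add_one hρ4.le
    have h2 : (k : ℝ) + 1 ≤ S := by exact_mod_cast hkS
    linarith



theorem mq_select {n : ℕ} (hn : 3 ≤ n) (A : ℕ → ℝ) {κ C : ℝ} (hκ : 0 < κ) (hC : 1 ≤ C) {J : ℕ}
    (hJ : 1 ≤ J) : ∃ (C' ρ₀ : ℝ), 1 ≤ C' ∧ 0 < ρ₀ ∧ ρ₀ ≤ 1 / 2 ∧ ∀ ρ, 0 < ρ → ρ ≤ ρ₀ →
    ∀ (f : E n → E n) (D : E n → Matrix (Fin n) (Fin n) ℝ) (Ω : Set (E n)), FDMap f D Ω →
    closedBall 0 4 ⊆ Ω →
    (∀ q : ℕ, ∫ x in closedBall 0 4, kd (D x) ^ q ≤ A q * (ρ ^ n)⁻¹) →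
    ∫ x in closedBall 0 3, sn (D x) ^ pf n ≤ C * (ρ ^ n)⁻¹ →
    ∀ s : ℝ, 2 ≤ s → s + 1 / (J : ℝ) ≤ 3 →
    C⁻¹ * ρ ^ (2 * n) ≤ ∫ x in closedBall 0 s, sn (D x) ^ pe n →
    ∫ x in closedBall 0 (s + 1 / (J : ℝ)), sn (D x) ^ pe n ≤
      ρ ^ (-κ) * ∫ x in closedBall 0 s, sn (D x) ^ pe n →
    ∃ (x : E n) (r : ℝ) (l : List ℝ) (G : Fin n → Fin n → E n → ℝ)
      (M : Matrix (Fin n) (Fin n) ℝ) (w : ℝ), Good D ρ κ C' x r l G M w ∧
      closedBall x (2 * r) ⊆ closedBall 0 3 ∧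
      1 / (16 * (J : ℝ)) * ρ ^ (ρ ^ (-(1 / 4) : ℝ)) ≤ r := by
  set j : ℕ := ⌈20 * (n : ℝ) ^ 2 / κ⌉₊ with hj
  have hnR : (3 : ℝ) ≤ n := by exact_mod_cast hn
  have hJR : (1 : ℝ) ≤ J := by exact_mod_cast hJ
  have hq : 0 < 20 * (n : ℝ) ^ 2 / κ := by positivity
  have hj1 : 1 ≤ j := Nat.one_le_iff_ne_zero.2 (Nat.ceil_pos.2 hq).ne'
  have hjκ : 20 * (n : ℝ) ^ 2 ≤ κ * j := by
    have := Nat.le_ceil (20 * (n : ℝ) ^ 2 / κ)
    rw [div_le_iff₀ hκ] at this
    rw [hj]; linarith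
  set A' : ℝ := max 1 (A ((2 * n - 1) * j)) with hA'
  have hA'1 : 1 ≤ A' := le_max_left _ _
  set C4 : ℝ := 2 ^ (pe n - 1) * (n : ℝ) ^ 2 with hC4
  set C' : ℝ := 1 + 2 ^ n * 8 * C4 + 4 ^ n * 8 + 2 ^ n + 8 * 8 ^ n * C + 2 ^ n * 8 with hC'
  have hC40 : 0 < C4 := by rw [hC4]; positivity
  refine ⟨C', min (1 / 2) (1 / (8 * C * C * A')), ?_, ?_, min_le_left _ _, ?_⟩
  · rw [hC']
    have : 0 < 2 ^ n * 8 * C4 + 4 ^ n * 8 + 2 ^ n + 8 * 8 ^ n * C + 2 ^ n * 8 := by positivity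
    linarith
  · exact lt_min (by norm_num) (by positivity)
  · intro ρ hρ hρle f D Ω h hΩ hA hCi s hs2 hs3 hI hII
    have hρ2 : ρ ≤ 1 / 2 := hρle.trans (min_le_left _ _)
    have hρ3 : ρ ≤ 1 / (8 * C * C * A') := hρle.trans (min_le_right _ _)
    have hρn : 0 < (ρ ^ n)⁻¹ := by positivity
    have hh0 : 0 < 1 / (J : ℝ) := by positivity
    have hh1 : 1 / (J : ℝ) ≤ 1 := by rw [div_le_one (by positivity)]; exact hJR
    obtain ⟨x, r, l, G, M, w, h1, h2, h3⟩ := cn_core hn h hΩ hρ hρ2 hκ hC hA'1 hjκ hj1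
      ((hA _).trans (mul_le_mul_of_nonneg_right (le_max_right _ _) hρn.le)) hCi hh0 hh1 hs2 hs3
      (by
        rw [le_div_iff₀ (by positivity)] at hρ3
        calc C * A' * ρ * 8 * C = ρ * (8 * C * C * A') := by ring
          _ ≤ 1 := hρ3) hI hII hC4 hC'
    refine ⟨x, r, l, G, M, w, h1, h2, ?_⟩
    have : 1 / (16 * (J : ℝ)) = 1 / (J : ℝ) / 16 := by
      rw [div_div, mul_comm]
    rw [this]
    exact h3


end H930.BL.XMqS

namespace H930.BL

export XMqS (mq_select)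

end H930.BL
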