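import Pool.Agent.Helper930.BL.MqE
import Pool.Agent.Helper930.BL.MqR
import Pool.Agent.Helper930.BL.MqS
import Pool.Agent.Helper930.BL.MqL

set_option autoImplicit false

open MeasureTheory Metric Set Filter Topology
open scoped ENNReal NNReal ContDiff

namespace H930.BL.XMainQ

variable {n : ℕ}


theorem mainq_asymp (n : ℕ) {a : ℝ} (ha : 0 < a) : ∃ ρ₀ : ℝ, 0 < ρ₀ ∧ ∀ ρ, 0 < ρ → ρ ≤ ρ₀ →
    Real.exp (-ρ ^ (-(1 / 3) : ℝ)) ≤ a * ρ ^ (ρ ^ (-(1 / 4) : ℝ)) * ρ ^ (2 * n + 1) := by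
  have h1 : (fun X : ℝ => X ^ (1 / 4 : ℝ) * Real.log X) =o[atTop] fun X : ℝ => X ^ (1 / 3 : ℝ) := by
    have e1 : (fun X : ℝ => X ^ (1 / 4 : ℝ) * Real.log X) =o[atTop]
        fun X : ℝ => X ^ (1 / 4 : ℝ) * X ^ (1 / 12 : ℝ) :=
      (Asymptotics.isBigO_refl _ _).mul_isLittleO (isLittleO_log_rpow_atTop (by norm_num))
    refine e1.congr' (EventuallyEq.refl _ _) ?_
    filter_upwards [eventually_gt_atTop (0 : ℝ)] with X hX
    rw [← Real.rpow_add hX]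
    norm_num
  have h2 : (fun X : ℝ => (2 * (n : ℝ) + 1) * Real.log X) =o[atTop] fun X : ℝ => X ^ (1 / 3 : ℝ) :=
    (isLittleO_log_rpow_atTop (by norm_num)).const_mul_left _
  have h3 : (fun _ : ℝ => Real.log a) =o[atTop] fun X : ℝ => X ^ (1 / 3 : ℝ) := by
    refine Asymptotics.isLittleO_const_left.2 (Or.inr ?_)
    exact tendsto_norm_atTop_atTop.comp (tendsto_rpow_atTop (by norm_num))
  have h4 := ((h1.add h2).sub h3).def one_pos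
  rw [eventually_atTop] at h4
  obtain ⟨X0, hX0⟩ := h4
  refine ⟨(max X0 1)⁻¹, by positivity, fun ρ hρ hρ0 => ?_⟩
  have hX : max X0 1 ≤ ρ⁻¹ := by
    rw [le_inv_comm₀ (by positivity) hρ]
    exact hρ0
  have h5 := hX0 ρ⁻¹ ((le_max_left _ _).trans hX)
  have hX3 : 0 ≤ (ρ⁻¹) ^ (1 / 3 : ℝ) := by positivity
  rw [one_mul, Real.norm_of_nonneg hX3, Real.norm_eq_abs] at h5
  have h6 := (le_abs_self _).trans h5
  rw [Real.log_inv, Real.inv_rpow hρ.le, Real.inv_rpow hρ.le, ← Real.rpow_neg hρ.le,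
    ← Real.rpow_neg hρ.le] at h6
  have h7 : a * ρ ^ (ρ ^ (-(1 / 4) : ℝ)) * ρ ^ (2 * n + 1) =
      Real.exp (Real.log a + Real.log ρ * ρ ^ (-(1 / 4) : ℝ) + (2 * n + 1 : ℕ) * Real.log ρ) := by
    rw [Real.exp_add, Real.exp_add, Real.exp_log ha, Real.rpow_def_of_pos hρ (ρ ^ (-(1 / 4) : ℝ)),
      Real.exp_nat_mul, Real.exp_log hρ]
  rw [h7, Real.exp_le_exp]
  push_cast
  linarith

theorem mainq {n : ℕ} (hn : 3 ≤ n) (A : ℕ → ℝ) : ∃ ρ₀ : ℝ, 0 < ρ₀ ∧ ρ₀ ≤ 1 / 2 ∧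
    ∀ ρ, 0 < ρ → ρ ≤ ρ₀ → ∀ (f : E n → E n) (D : E n → Matrix (Fin n) (Fin n) ℝ) (Ω : Set (E n)),
    FDMap f D Ω → closedBall 0 4 ⊆ Ω → (∀ x ∈ closedBall (0 : E n) 4, ∀ i, |f x i| ≤ 3) →
    (∃ x ∈ closedBall (0 : E n) 1, ∃ y ∈ closedBall (0 : E n) 1, ∃ i, ρ ^ 2 ≤ |f x i - f y i|) →
    (∀ q : ℕ, ∫ x in closedBall 0 4, kd (D x) ^ q ≤ A q * (ρ ^ n)⁻¹) →
    ∃ y, Univ f (closedBall 0 4) y (Real.exp (-ρ ^ (-(1 / 3) : ℝ))) := by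
  have hn0 : (0 : ℝ) < n := by
    have : 0 < n := by omega
    exact_mod_cast this
  obtain ⟨κ, hκ⟩ : ∃ κ : ℝ, κ = 1 / (200 * (n : ℝ) ^ 2) := ⟨_, rfl⟩
  have hκ0 : 0 < κ := by rw [hκ]; positivity
  obtain ⟨C1, hC1, henergy⟩ := mq_energy (by omega : 2 ≤ n) A
  obtain ⟨J, ρ1, hJ, hρ1, hρ1', hrad⟩ := radii_pigeon n hκ0 hC1
  obtain ⟨C2, ρ2, hC2, hρ2, hρ2', hsel⟩ := mq_select hn A hκ0 hC1 hJ
  obtain ⟨C3, ρ3, hC3, hρ3, hρ3', hloc⟩ := mq_local hn hκ0 hκ.le hC2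
  have hJ0 : (0 : ℝ) < J := by
    have : 0 < J := by omega
    exact_mod_cast this
  have hC30 : 0 < C3 := by linarith
  obtain ⟨ρ4, hρ4, has⟩ := mainq_asymp n (a := C3⁻¹ * (1 / (16 * (J : ℝ)))) (by positivity)
  refine ⟨min (1 / 2) (min ρ1 (min ρ2 (min ρ3 ρ4))), by positivity, min_le_left _ _, ?_⟩
  intro ρ hρ hρle f D Ω hfd hΩ hb hosc hkd
  simp only [le_min_iff] at hρle
  obtain ⟨hle0, hle1, hle2, hle3, hle4⟩ := hρle
  obtain ⟨g1, g2, g3⟩ := henergy f D Ω hfd hΩ ρ hρ (by linarith) hb hosc hkd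
  have hint : ∀ t : ℝ, t ≤ 4 → IntegrableOn (fun x => sn (D x) ^ pe n) (closedBall (0 : E n) t) := by
    intro t ht
    exact (hol2 hfd (by omega) (isCompact_closedBall _ _)
      ((closedBall_subset_closedBall ht).trans hΩ)).1
  obtain ⟨T, hT⟩ : ∃ T : ℝ → ℝ, ∀ t, T t = ∫ x in closedBall (0 : E n) (min t 3), sn (D x) ^ pe n :=
    ⟨_, fun _ => rfl⟩
  have hTm : ∀ s t, s ≤ t → T s ≤ T t := by
    intro s t hst
    rw [hT, hT]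
    refine setIntegral_mono_set (hint _ ((min_le_right _ _).trans (by norm_num))) ?_ ?_
    · exact Filter.Eventually.of_forall fun x => Real.rpow_nonneg (sn_nonneg _) _
    · exact (closedBall_subset_closedBall (min_le_min_right _ hst)).eventuallyLE
  have hTe : ∀ t, t ≤ 3 → T t = ∫ x in closedBall (0 : E n) t, sn (D x) ^ pe n := by
    intro t ht
    rw [hT, min_eq_left ht]
  obtain ⟨s, hs2, hs3, hs⟩ := hrad ρ hρ hle1 T hTm (by rw [hTe 2 (by norm_num)]; exact g1)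
    (by rw [hTe 3 le_rfl]; exact g2)
  have hJi : 0 < 1 / (J : ℝ) := by positivity
  have hTs : C1⁻¹ * ρ ^ (2 * n) ≤ T s := by
    refine le_trans ?_ (hTm 2 s hs2)
    rw [hTe 2 (by norm_num)]
    exact g1
  rw [hTe s (by linarith)] at hTs hs
  rw [hTe _ hs3] at hs
  obtain ⟨x, r, l, G, M, w, hgood, hsub, hr⟩ := hsel ρ hρ hle2 f D Ω hfd hΩ hkd g3 s hs2 hs3 hTs hs
  have hsub4 : closedBall x (2 * r) ⊆ closedBall 0 4 :=
    hsub.trans (closedBall_subset_closedBall (by norm_num))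
  obtain ⟨y, hy⟩ := hloc ρ hρ hle3 f D Ω hfd x r l G M w hgood (hsub4.trans hΩ)
  have hr0 := hgood.r_pos
  have hsubr : closedBall x r ⊆ closedBall 0 4 :=
    (closedBall_subset_closedBall (by linarith)).trans hsub4
  refine ⟨y, univ_mono hy (hfd.cont.mono (hsubr.trans hΩ)) ?_ hsubr⟩
  refine (has ρ hρ hle4).trans ?_
  have h1 : 0 ≤ C3⁻¹ := by positivity
  have h2 : 0 ≤ ρ ^ (2 * n + 1) := by positivity
  calc C3⁻¹ * (1 / (16 * (J : ℝ))) * ρ ^ (ρ ^ (-(1 / 4) : ℝ)) * ρ ^ (2 * n + 1)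
      = C3⁻¹ * (1 / (16 * (J : ℝ)) * ρ ^ (ρ ^ (-(1 / 4) : ℝ))) * ρ ^ (2 * n + 1) := by ring
    _ ≤ C3⁻¹ * r * ρ ^ (2 * n + 1) :=
        mul_le_mul_of_nonneg_right (mul_le_mul_of_nonneg_left hr h1) h2

end H930.BL.XMainQ

namespace H930.BL

export XMainQ (mainq)

end H930.BL
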