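import Pool.Agent.Helper930.BL.Osc
import Pool.Agent.Helper930.BL.EnergyIneq

set_option autoImplicit false

open MeasureTheory Metric Set Filter Topology
open scoped ENNReal NNReal ContDiff

namespace H930.BL.XMqE

variable {n : ℕ}


theorem holder_aux {a b X θ : ℝ} (ha : 0 ≤ a) (hb : 0 ≤ b) (hX : 0 < X) (haX : a ≤ X)
    (hbX : b ≤ X) (h0 : 0 ≤ θ) (h1 : θ ≤ 1) : a ^ (1 - θ) * b ^ θ ≤ X := by
  calc a ^ (1 - θ) * b ^ θ ≤ X ^ (1 - θ) * X ^ θ := by
        apply mul_le_mul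
        · exact Real.rpow_le_rpow ha haX (by linarith)
        · exact Real.rpow_le_rpow hb hbX h0
        · exact Real.rpow_nonneg hb _
        · exact Real.rpow_nonneg hX.le _
    _ = X := by
        rw [← Real.rpow_add hX, sub_add_cancel, Real.rpow_one]

theorem mq_energy {n : ℕ} (hn : 2 ≤ n) (A : ℕ → ℝ) : ∃ C : ℝ, 1 ≤ C ∧ ∀ (f : E n → E n)
    (D : E n → Matrix (Fin n) (Fin n) ℝ) (Ω : Set (E n)), FDMap f D Ω → closedBall 0 4 ⊆ Ω →
    ∀ ρ : ℝ, 0 < ρ → ρ ≤ 1 → (∀ x ∈ closedBall (0 : E n) 4, ∀ i, |f x i| ≤ 3) →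
    (∃ x ∈ closedBall (0 : E n) 1, ∃ y ∈ closedBall (0 : E n) 1, ∃ i, ρ ^ 2 ≤ |f x i - f y i|) →
    (∀ q : ℕ, ∫ x in closedBall 0 4, kd (D x) ^ q ≤ A q * (ρ ^ n)⁻¹) →
    C⁻¹ * ρ ^ (2 * n) ≤ ∫ x in closedBall 0 2, sn (D x) ^ pe n ∧
    ∫ x in closedBall 0 3, sn (D x) ^ pe n ≤ C * (ρ ^ n)⁻¹ ∧
    ∫ x in closedBall 0 3, sn (D x) ^ pf n ≤ C * (ρ ^ n)⁻¹ := by
  obtain ⟨C1, hC1, osc⟩ := osc_est hn
  obtain ⟨C2, hC2, en⟩ := energy_ineq hn
  obtain ⟨B, hB⟩ : ∃ B : ℝ, B = 1 + C2 * 3 ^ n * |A (n - 1)| + |A (2 * n - 1)| +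
    |A (4 * n - 1)| := ⟨_, rfl⟩
  have hp1 : 0 ≤ C2 * 3 ^ n * |A (n - 1)| := by positivity
  have hp2 := abs_nonneg (A (2 * n - 1))
  have hp3 := abs_nonneg (A (4 * n - 1))
  have hB1 : 1 ≤ B := by rw [hB]; linarith
  refine ⟨C1 + B, by linarith, ?_⟩
  intro f D Ω hF hΩ ρ hρ hρ1 hf hosc hkd
  have hρn : 0 < (ρ ^ n)⁻¹ := by positivity
  have hX : 0 < B * (ρ ^ n)⁻¹ := by positivity
  have hXC : B * (ρ ^ n)⁻¹ ≤ (C1 + B) * (ρ ^ n)⁻¹ := by
    apply mul_le_mul_of_nonneg_right _ hρn.le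
    linarith
  have hb34 : closedBall (0 : E n) 3 ⊆ closedBall 0 4 := closedBall_subset_closedBall (by norm_num)
  have h3Ω : closedBall (0 : E n) 3 ⊆ Ω := hb34.trans hΩ
  have hae4 : ∀ᵐ x ∂(volume.restrict (closedBall (0 : E n) 4)), 0 ≤ (D x).det := by
    filter_upwards [ae_mono (Measure.restrict_mono hΩ le_rfl) hF.pos] with x hx
    exact hx.1
  have hae3 : ∀ᵐ x ∂(volume.restrict (closedBall (0 : E n) 3)), 0 ≤ (D x).det := by
    filter_upwards [ae_mono (Measure.restrict_mono h3Ω le_rfl) hF.pos] with x hx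
    exact hx.1
  -- determinant
  have hdet0 : 0 ≤ ∫ x in closedBall (0 : E n) 3, (D x).det := integral_nonneg_of_ae hae3
  have hdet : ∫ x in closedBall (0 : E n) 3, (D x).det ≤ B * (ρ ^ n)⁻¹ := by
    have i0 : Fin n := ⟨0, by omega⟩
    have h1 := en f D Ω hF 0 3 1 (by norm_num) one_pos (by norm_num; exact hΩ)
      (Pi.single i0 1) (by
        rw [Finset.sum_eq_single i0]
        · simp
        · intro b _ hb
          simp [Pi.single_eq_of_ne hb]
        · intro h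
          exact absurd (Finset.mem_univ _) h) 0 3 (by norm_num) (by
        intro x hx
        have hx' : x ∈ closedBall (0 : E n) 4 := by
          norm_num at hx ⊢
          exact hx
        rw [Finset.sum_eq_single i0]
        · simpa using hf x hx' i0
        · intro b _ hb
          simp [Pi.single_eq_of_ne hb]
        · intro h
          exact absurd (Finset.mem_univ _) h)
    have e4 : (3 : ℝ) + 1 = 4 := by norm_num
    rw [e4, div_one] at h1
    refine h1.trans ?_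
    have h2 := hkd (n - 1)
    have h3 : A (n - 1) * (ρ ^ n)⁻¹ ≤ |A (n - 1)| * (ρ ^ n)⁻¹ :=
      mul_le_mul_of_nonneg_right (le_abs_self _) hρn.le
    calc C2 * 3 ^ n * ∫ x in closedBall 0 4, kd (D x) ^ (n - 1)
        ≤ C2 * 3 ^ n * (|A (n - 1)| * (ρ ^ n)⁻¹) :=
          mul_le_mul_of_nonneg_left (h2.trans h3) (by positivity)
      _ = (C2 * 3 ^ n * |A (n - 1)|) * (ρ ^ n)⁻¹ := by ring
      _ ≤ B * (ρ ^ n)⁻¹ := by
          apply mul_le_mul_of_nonneg_right _ hρn.le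
          rw [hB]
          linarith
  -- distortion
  have hkd0 : ∀ q : ℕ, 0 ≤ ∫ x in closedBall (0 : E n) 3, kd (D x) ^ q := by
    intro q
    apply integral_nonneg_of_ae
    filter_upwards [hae3] with x hx
    exact pow_nonneg (kd_nonneg hx) q
  have hkd3 : ∀ q : ℕ, |A q| ≤ B → ∫ x in closedBall (0 : E n) 3, kd (D x) ^ q ≤
      B * (ρ ^ n)⁻¹ := by
    intro q hq
    have h1 : ∫ x in closedBall (0 : E n) 3, kd (D x) ^ q ≤
        ∫ x in closedBall (0 : E n) 4, kd (D x) ^ q := by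
      apply setIntegral_mono_set (hF.kd_int q _ (isCompact_closedBall _ _) hΩ)
      · filter_upwards [hae4] with x hx
        exact pow_nonneg (kd_nonneg hx) q
      · exact hb34.eventuallyLE
    refine h1.trans ((hkd q).trans ?_)
    exact mul_le_mul_of_nonneg_right ((le_abs_self _).trans hq) hρn.le
  have hn0 : (0 : ℝ) < n := by
    have : 0 < n := by omega
    exact_mod_cast this
  have hn2 : (2 : ℝ) ≤ n := by exact_mod_cast hn
  refine ⟨?_, ?_, ?_⟩
  · obtain ⟨x, hx, y, hy, i, hi⟩ := hosc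
    have h1 := osc f D Ω hF 0 1 one_pos (by
      rw [mul_one]
      exact (closedBall_subset_closedBall (by norm_num)).trans hΩ) x hx y hy i
    rw [Real.one_rpow, mul_one, mul_one] at h1
    have hpe : pe n = (n : ℝ) - 1 / 2 := rfl
    have h2 : ρ ^ (2 * n) ≤ (ρ ^ 2) ^ pe n := by
      rw [← Real.rpow_natCast ρ (2 * n), ← Real.rpow_natCast ρ 2, ← Real.rpow_mul hρ.le]
      apply Real.rpow_le_rpow_of_exponent_ge hρ hρ1
      rw [hpe]
      push_cast
      linarith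
    have h3 : (ρ ^ 2) ^ pe n ≤ |f x i - f y i| ^ pe n := by
      apply Real.rpow_le_rpow (by positivity) hi
      rw [hpe]
      linarith
    have h4 : ρ ^ (2 * n) ≤ C1 * ∫ x in closedBall (0 : E n) 2, sn (D x) ^ pe n :=
      h2.trans (h3.trans h1)
    have h5 : (C1 + B)⁻¹ * ρ ^ (2 * n) ≤ C1⁻¹ * ρ ^ (2 * n) := by
      apply mul_le_mul_of_nonneg_right _ (by positivity)
      apply inv_anti₀ hC1
      linarith
    refine h5.trans ?_
    rw [inv_mul_le_iff₀ hC1]
    exact h4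
  · have h1 := (hol2 hF (by omega) (isCompact_closedBall (0 : E n) 3) h3Ω).2
    refine h1.trans (le_trans ?_ hXC)
    apply holder_aux hdet0 (hkd0 _) hX hdet (hkd3 _ (by rw [hB]; linarith)) (by positivity)
    rw [div_le_one (by positivity)]
    linarith
  · have h1 := (hol4 hF (by omega) (isCompact_closedBall (0 : E n) 3) h3Ω).2
    refine h1.trans (le_trans ?_ hXC)
    apply holder_aux hdet0 (hkd0 _) hX hdet (hkd3 _ (by rw [hB]; linarith)) (by positivity)
    rw [div_le_one (by positivity)]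
    linarith

end H930.BL.XMqE

namespace H930.BL

export XMqE (mq_energy)

end H930.BL
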