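import Pool.Agent.Helper930.BL.J02
import Pool.Agent.Helper930.BL.J04b
import Pool.Agent.Helper930.BL.J05
import Pool.Agent.Helper930.BL.J06
import Pool.Agent.Helper930.BL.J07
import Pool.Agent.Helper930.BL.J08

set_option autoImplicit false

open MeasureTheory Metric Set Filter Topology
open scoped ENNReal NNReal ContDiff

namespace H930.BL

variable {n : ℕ}

/-- the bound on one piece -/
theorem piece_bound (hn : 2 ≤ n) : ∃ C : ℝ, 0 < C ∧
    ∀ (f : E n → E n), ContDiff ℝ ∞ f → ∀ (D K : Set (E n)), MeasurableSet D → IsCompact K →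
    D ⊆ K → ∀ (h : ℕ → E n → ℝ), (∀ m, ContDiff ℝ ∞ (h m)) → (∀ m, tsupport (h m) ⊆ K) →
    (∀ m x, |h m x| ≤ 1) →
    (∀ x, Tendsto (fun m => h m x) atTop (𝓝 (D.indicator (fun _ => (1 : ℝ)) x))) →
    ∀ (A : ℝ), (∀ m, ∫ x, gr (h m) x * sn (jac f x).adjugate ≤ A) →
    ∀ (η : E n → ℝ), ContDiff ℝ ∞ η →
    ∀ (ψ : E n → ℝ), ContDiff ℝ ∞ ψ → ∀ (i : Fin n) (P L : ℝ),
    (∀ x, |η x| ≤ L) → (∀ x, gr η x ≤ L) → (∀ y, |ψ y| ≤ P) → (∀ y, |pd ψ i y| ≤ P) →
    ∀ (c : E n) (s : ℝ), 0 ≤ s → (∀ x ∈ K, dist x c ≤ s) →
    |∫ x in D, η x * pd ψ i (f x) * (jac f x).det| ≤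
      C * P * L * (A ^ ((n : ℝ) / ((n : ℝ) - 1)) + s * A + ∫ x in K, sn (jac f x).adjugate) := by
  obtain ⟨C, hC, hiso⟩ := iso hn
  refine ⟨C + 1, by positivity, ?_⟩
  intro f hf D K hD hK hDK h hh hsupp hle hlim A hA η hη ψ hψ i P L hηL hgL hψP hψP' c s hs hKs
  have hf1 : ContDiff ℝ 1 f := hf.of_le (by norm_cast)
  have hψ1 : ContDiff ℝ 1 ψ := hψ.of_le (by norm_cast)
  have hη1 : ContDiff ℝ 1 η := hη.of_le (by norm_cast)
  have hP0 : 0 ≤ P := (abs_nonneg _).trans (hψP 0)
  have hL0 : 0 ≤ L := (abs_nonneg _).trans (hηL 0)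
  have hA0 : 0 ≤ A := le_trans (integral_nonneg fun x => mul_nonneg (gr_nonneg _ _) (sn_nonneg _)) (hA 0)
  have hcJ : Continuous fun x => (jac f x).det := continuous_det_jac hf1
  have hcS : Continuous fun x => sn (jac f x).adjugate := continuous_sn_adj hf1
  have hcψ : Continuous fun x => pd ψ i (f x) := (continuous_pd hψ1 i).comp hf.continuous
  have hKfin : volume K < ⊤ := hK.measure_lt_top
  have hKm : MeasurableSet K := hK.measurableSet
  set ηc : ℝ := η c with hηc
  -- first part
  have h1 : |ηc * ∫ x in D, pd ψ i (f x) * (jac f x).det| ≤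
      L * (C * P * A ^ ((n : ℝ) / ((n : ℝ) - 1))) := by
    rw [abs_mul]
    exact mul_le_mul (hηL c) (hiso f hf D K hD hK hDK h hh hsupp hle hlim A hA (pd ψ i) P
      (continuous_pd hψ1 i).measurable hψP') (abs_nonneg _) hL0
  -- second part
  have h2 : ∀ m, |∫ x, h m x * (η x - ηc) * pd ψ i (f x) * (jac f x).det| ≤
      P * (L * (s * A) + L * ∫ x in K, sn (jac f x).adjugate) := by
    intro m
    have hh1 : ContDiff ℝ 1 (h m) := (hh m).of_le (by norm_cast)
    have hsm : ContDiff ℝ ∞ (fun x => h m x * (η x - ηc)) := (hh m).mul (hη.sub contDiff_const)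
    have hcs : HasCompactSupport (h m) := hK.of_isClosed_subset (isClosed_tsupport _) (hsupp m)
    have hcs' : HasCompactSupport (fun x => h m x * (η x - ηc)) := hcs.mul_right
    have := ibp_smooth hf hsm hcs' hψ i
    rw [this, abs_neg, ← Real.norm_eq_abs]
    have hb : ∀ x, ‖ψ (f x) * ∑ j, (jac f x).adjugate j i * pd (fun x => h m x * (η x - ηc)) j x‖ ≤
        P * (L * s * (gr (h m) x * sn (jac f x).adjugate) +
          L * K.indicator (fun x => sn (jac f x).adjugate) x) := by
      intro x
      rw [norm_mul, Real.norm_eq_abs, Real.norm_eq_abs]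
      refine mul_le_mul (hψP _) ?_ (abs_nonneg _) hP0
      refine (abs_sum_adj_le _ _ _ _).trans ?_
      have hg := gr_mul_le (u := h m) (v := fun x => η x - ηc) (x := x)
        ((hh1.differentiable one_ne_zero) x)
        (((hη1.differentiable one_ne_zero) x).sub_const _)
      rw [gr_sub_const] at hg
      have hS0 := sn_nonneg (jac f x).adjugate
      by_cases hx : x ∈ K
      · rw [indicator_of_mem hx]
        have hd : |η x - ηc| ≤ L * s :=
          (lip_of_gr (hη1.differentiable one_ne_zero) hgL x c).trans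
            (mul_le_mul_of_nonneg_left (hKs x hx) hL0)
        have hg2 : gr (fun y => h m y * (η y - ηc)) x ≤ L + L * s * gr (h m) x := by
          refine hg.trans (add_le_add ?_ ?_)
          · calc |h m x| * gr η x ≤ 1 * L :=
                mul_le_mul (hle m x) (hgL x) (gr_nonneg _ _) zero_le_one
              _ = L := one_mul _
          · exact mul_le_mul_of_nonneg_right hd (gr_nonneg _ _)
        calc gr (fun y => h m y * (η y - ηc)) x * sn (jac f x).adjugate
            ≤ (L + L * s * gr (h m) x) * sn (jac f x).adjugate :=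
              mul_le_mul_of_nonneg_right hg2 hS0
          _ = _ := by ring
      · have hx' : x ∉ tsupport (fun x => h m x * (η x - ηc)) := by
          intro hc
          exact hx (hsupp m (closure_mono (Function.support_mul_subset_left _ _) hc))
        rw [gr_eq_zero_of_notMem hx', zero_mul]
        rw [indicator_of_notMem hx]
        have := gr_nonneg (h m) x
        positivity
    have hint1 : Integrable fun x => gr (h m) x * sn (jac f x).adjugate := by
      refine Continuous.integrable_of_hasCompactSupport ((continuous_gr hh1).mul hcS) ?_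
      refine HasCompactSupport.mul_right ?_
      refine HasCompactSupport.intro (hK) fun x hx => ?_
      exact gr_eq_zero_of_notMem fun hc => hx (hsupp m hc)
    have hint2 : Integrable (K.indicator fun x => sn (jac f x).adjugate) := by
      rw [integrable_indicator_iff hKm]
      exact hcS.continuousOn.integrableOn_compact hK
    have hint3 : Integrable fun x => P * (L * s * (gr (h m) x * sn (jac f x).adjugate) +
          L * K.indicator (fun x => sn (jac f x).adjugate) x) :=
      ((hint1.const_mul _).add (hint2.const_mul _)).const_mul _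
    refine (norm_integral_le_of_norm_le hint3 (Eventually.of_forall hb)).trans ?_
    rw [integral_const_mul, integral_add (hint1.const_mul _) (hint2.const_mul _),
      integral_const_mul, integral_const_mul, integral_indicator hKm]
    have := hA m
    have hLs : 0 ≤ L * s := by positivity
    refine mul_le_mul_of_nonneg_left (add_le_add ?_ le_rfl) hP0
    calc L * s * ∫ x, gr (h m) x * sn (jac f x).adjugate ≤ L * s * A :=
          mul_le_mul_of_nonneg_left this hLs
      _ = _ := by ring
  -- limit
  have h3 : Tendsto (fun m => ∫ x, h m x * (η x - ηc) * pd ψ i (f x) * (jac f x).det) atTop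
      (𝓝 (∫ x, D.indicator (fun _ => (1 : ℝ)) x * (η x - ηc) * pd ψ i (f x) * (jac f x).det)) := by
    have hcont : Continuous fun x => (η x - ηc) * pd ψ i (f x) * (jac f x).det :=
      ((hη.continuous.sub continuous_const).mul hcψ).mul hcJ
    refine tendsto_integral_of_dominated_convergence
      (K.indicator fun x => |(η x - ηc) * pd ψ i (f x) * (jac f x).det|) ?_ ?_ ?_ ?_
    · intro m
      exact ((((hh m).continuous.mul (hη.continuous.sub continuous_const)).mul hcψ).mul
        hcJ).aestronglyMeasurable
    · rw [integrable_indicator_iff hKm]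
      exact hcont.abs.continuousOn.integrableOn_compact hK
    · intro m
      refine Eventually.of_forall fun x => ?_
      by_cases hx : x ∈ K
      · rw [indicator_of_mem hx, Real.norm_eq_abs]
        have : h m x * (η x - ηc) * pd ψ i (f x) * (jac f x).det =
          h m x * ((η x - ηc) * pd ψ i (f x) * (jac f x).det) := by ring
        rw [this, abs_mul]
        calc |h m x| * |(η x - ηc) * pd ψ i (f x) * (jac f x).det| ≤
            1 * |(η x - ηc) * pd ψ i (f x) * (jac f x).det| :=
              mul_le_mul_of_nonneg_right (hle m x) (abs_nonneg _)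
          _ = _ := one_mul _
      · have : h m x = 0 := image_eq_zero_of_notMem_tsupport fun hc => hx (hsupp m hc)
        rw [this, indicator_of_notMem hx]
        simp
    · refine Eventually.of_forall fun x => ?_
      exact (((hlim x).mul_const _).mul_const _).mul_const _
  have h4 : |∫ x, D.indicator (fun _ => (1 : ℝ)) x * (η x - ηc) * pd ψ i (f x) * (jac f x).det| ≤
      P * (L * (s * A) + L * ∫ x in K, sn (jac f x).adjugate) :=
    le_of_tendsto h3.abs (Eventually.of_forall h2)
  have h5 : (∫ x, D.indicator (fun _ => (1 : ℝ)) x * (η x - ηc) * pd ψ i (f x) * (jac f x).det) =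
      ∫ x in D, (η x - ηc) * pd ψ i (f x) * (jac f x).det := by
    rw [← integral_indicator hD]
    refine integral_congr_ae (Eventually.of_forall fun x => ?_)
    by_cases hx : x ∈ D
    · simp [indicator_of_mem hx]
    · simp [indicator_of_notMem hx]
  rw [h5] at h4
  have hi1 : IntegrableOn (fun x => (η x - ηc) * pd ψ i (f x) * (jac f x).det) D := by
    have hcont : Continuous fun x => (η x - ηc) * pd ψ i (f x) * (jac f x).det :=
      ((hη.continuous.sub continuous_const).mul hcψ).mul hcJ
    exact (hcont.continuousOn.integrableOn_compact hK).mono_set hDK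
  have hi2 : IntegrableOn (fun x => ηc * (pd ψ i (f x) * (jac f x).det)) D := by
    have hcont : Continuous fun x => ηc * (pd ψ i (f x) * (jac f x).det) :=
      continuous_const.mul (hcψ.mul hcJ)
    exact (hcont.continuousOn.integrableOn_compact hK).mono_set hDK
  have h6 : (∫ x in D, η x * pd ψ i (f x) * (jac f x).det) =
      (∫ x in D, (η x - ηc) * pd ψ i (f x) * (jac f x).det) +
        ηc * ∫ x in D, pd ψ i (f x) * (jac f x).det := by
    rw [← integral_const_mul, ← integral_add hi1 hi2]
    refine integral_congr_ae (Eventually.of_forall fun x => ?_)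
    simp only
    ring
  rw [h6]
  refine (abs_add_le _ _).trans ((add_le_add h4 h1).trans ?_)
  have hq : 0 ≤ A ^ ((n : ℝ) / ((n : ℝ) - 1)) := Real.rpow_nonneg hA0 _
  have hI : 0 ≤ ∫ x in K, sn (jac f x).adjugate := integral_nonneg fun x => sn_nonneg _
  have hPL : 0 ≤ P * L := by positivity
  have e1 : (C + 1) * P * L * (A ^ ((n : ℝ) / ((n : ℝ) - 1)) + s * A + ∫ x in K, sn (jac f x).adjugate) =
    (P * (L * (s * A) + L * ∫ x in K, sn (jac f x).adjugate) +
      L * (C * P * A ^ ((n : ℝ) / ((n : ℝ) - 1)))) +
    (P * L * A ^ ((n : ℝ) / ((n : ℝ) - 1)) + C * (P * L) * (s * A) +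
      C * (P * L) * ∫ x in K, sn (jac f x).adjugate) := by ring
  rw [e1]
  have : 0 ≤ P * L * A ^ ((n : ℝ) / ((n : ℝ) - 1)) + C * (P * L) * (s * A) +
      C * (P * L) * ∫ x in K, sn (jac f x).adjugate := by positivity
  linarith


lemma rpow_aux (hn : 2 ≤ n) {r : ℝ} (hr : 0 ≤ r) :
    (r ^ (n - 1)) ^ ((n : ℝ) / ((n : ℝ) - 1)) = r ^ n := by
  have hn' : (2 : ℝ) ≤ n := by exact_mod_cast hn
  have h1 : ((n - 1 : ℕ) : ℝ) = (n : ℝ) - 1 := by
    rw [Nat.cast_sub (by omega)]; simp
  rw [← Real.rpow_natCast r (n - 1), ← Real.rpow_mul hr, h1, ← Real.rpow_natCast r n]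
  congr 1
  have h2 : (n : ℝ) - 1 ≠ 0 := by linarith
  field_simp

theorem smooth_bad (hn : 2 ≤ n) : ∃ C : ℝ, 0 < C ∧
    ∀ (f : E n → E n), ContDiff ℝ ∞ f → ∀ (a : E n) (R d : ℝ), 0 < d →
    ∀ (η : E n → ℝ), ContDiff ℝ ∞ η → tsupport η ⊆ closedBall a (R - d) →
    ∀ (ψ : E n → ℝ), ContDiff ℝ ∞ ψ → ∀ (i : Fin n) (P L : ℝ),
    (∀ x, |η x| ≤ L) → (∀ x, gr η x ≤ L) → (∀ y, |ψ y| ≤ P) → (∀ y, |pd ψ i y| ≤ P) →
    ∀ (lam : ℝ), 1 ≤ lam →
    C * ∫ x in closedBall a R, sn (jac f x).adjugate ≤ lam * d ^ n →
    ∃ V : Set (E n), MeasurableSet V ∧ V ⊆ closedBall a R ∧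
      (∀ x ∈ tsupport η, 2 * lam ≤ sn (jac f x).adjugate → x ∈ V) ∧
      (volume V).toReal ≤ C / lam * ∫ x in closedBall a R ∩ {x | lam / 2 < sn (jac f x).adjugate},
        sn (jac f x).adjugate ∧
      |∫ x in V, η x * pd ψ i (f x) * (jac f x).det| ≤
        C * P * L * lam ^ (1 / ((n : ℝ) - 1)) *
          ∫ x in closedBall a R ∩ {x | lam / 2 < sn (jac f x).adjugate}, sn (jac f x).adjugate := by
  classical
  obtain ⟨C3, hC3, hpiece⟩ := piece_bound (n := n) hn
  obtain ⟨C6, hC6, hcov⟩ := covering (n := n) (by omega)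
  obtain ⟨C7, hC7, hcut⟩ := cutoff n
  have hn' : (2 : ℝ) ≤ n := by exact_mod_cast hn
  set q : ℝ := (n : ℝ) / ((n : ℝ) - 1) with hq
  have hq1 : 1 ≤ q := by rw [hq, le_div_iff₀ (by linarith)]; linarith
  set CA : ℝ := C7 * 25 ^ n * C6 with hCA
  have hCA0 : 0 < CA := by positivity
  set Cv : ℝ := 4 ^ n * C6 * (2 * 5 ^ n) with hCv
  set Cb : ℝ := C3 * (CA ^ q + 3 * CA + 26 ^ n) * (C6 * (2 * 5 ^ n)) with hCb
  have hCv0 : 0 < Cv := by positivity
  have hCb0 : 0 < Cb := by positivity
  refine ⟨2 * 5 ^ n + Cv + Cb, by positivity, ?_⟩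
  intro f hf a R d hd η hη hsupp ψ hψ i₀ P L hηL hgL hψP hψP' lam hlam hbig
  have hlam0 : 0 < lam := by linarith
  have hP0 : 0 ≤ P := (abs_nonneg _).trans (hψP 0)
  have hL0 : 0 ≤ L := (abs_nonneg _).trans (hηL 0)
  have hf1 : ContDiff ℝ 1 f := hf.of_le (by norm_cast)
  have hψ1 : ContDiff ℝ 1 ψ := hψ.of_le (by norm_cast)
  set S : E n → ℝ := fun x => sn (jac f x).adjugate with hS
  have hcS : Continuous S := continuous_sn_adj hf1
  have hS0 : ∀ x, 0 ≤ S x := fun x => sn_nonneg _
  set B : Set (E n) := closedBall a R with hB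
  have hBc : IsCompact B := isCompact_closedBall a R
  have hBm : MeasurableSet B := measurableSet_closedBall
  set g : E n → ℝ := B.indicator S with hg
  have hgint : Integrable g := by
    rw [hg, integrable_indicator_iff hBm]
    exact hcS.continuousOn.integrableOn_compact hBc
  have hg0 : ∀ x, 0 ≤ g x := fun x => indicator_nonneg (fun _ _ => hS0 _) x
  obtain ⟨B0, hB0⟩ : ∃ B0, ∀ x, g x ≤ B0 := by
    obtain ⟨b, hb⟩ := hBc.exists_bound_of_continuousOn hcS.continuousOn
    refine ⟨max b 0, fun x => ?_⟩
    by_cases hx : x ∈ B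
    · rw [hg, indicator_of_mem hx]
      exact (le_abs_self _).trans ((hb x hx).trans (le_max_left _ _))
    · rw [hg, indicator_of_notMem hx]
      exact le_max_right _ _
  have hgS : ∀ x ∈ B, g x = S x := fun x hx => by rw [hg, indicator_of_mem hx]
  set I : ℝ := ∫ x in B ∩ {x | lam / 2 < S x}, S x with hI
  have hset : {x | lam / 2 < g x} = B ∩ {x | lam / 2 < S x} := by
    ext x
    constructor
    · intro hx
      by_cases hxB : x ∈ B
      · refine ⟨hxB, ?_⟩
        have hx' : lam / 2 < g x := hx
        rwa [hgS x hxB] at hx'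
      · have hx' : lam / 2 < g x := hx
        rw [hg, indicator_of_notMem hxB] at hx'
        linarith
    · rintro ⟨hxB, hx⟩
      show lam / 2 < g x
      rw [hgS x hxB]
      exact hx
  have hmS : MeasurableSet {x | lam / 2 < S x} := measurableSet_lt measurable_const hcS.measurable
  have hI' : ∫ x in {x | lam / 2 < g x}, g x = I := by
    rw [hset, hI]
    exact setIntegral_congr_fun (hBm.inter hmS) fun x hx => hgS x hx.1
  have hI0 : 0 ≤ I := integral_nonneg fun x => hS0 x
  have hIle : I ≤ ∫ x in B, S x :=
    setIntegral_mono_set (hcS.continuousOn.integrableOn_compact hBc)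
      (Eventually.of_forall fun x => hS0 x) (Eventually.of_forall fun x hx => hx.1)
  set U : Set (E n) := bad g lam with hU
  have hUo : IsOpen U := bad_open hgint hg0 lam
  have hUv : volume U ≤ ENNReal.ofReal (2 * 5 ^ n / lam * I) := by
    have := bad_volume hgint hg0 hlam0
    rwa [hI'] at this
  have hUt : volume U < ⊤ := hUv.trans_lt ENNReal.ofReal_lt_top
  have hUr : (volume U).toReal ≤ 2 * 5 ^ n / lam * I :=
    ENNReal.toReal_le_of_le_ofReal (by positivity) hUv
  set K : Set (E n) := tsupport η ∩ {x | 2 * lam ≤ S x} with hK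
  have hηB : tsupport η ⊆ B := hsupp.trans (closedBall_subset_closedBall (by linarith))
  have hKc : IsCompact K := by
    refine hBc.of_isClosed_subset ((isClosed_tsupport _).inter
      (isClosed_le continuous_const hcS)) (inter_subset_left.trans hηB)
  have hKU : K ⊆ U := by
    rintro x ⟨hx1, hx2⟩
    have hx2' : 2 * lam ≤ S x := hx2
    have h1 : ∀ᶠ y in 𝓝 x, 3 / 2 * lam < S y :=
      hcS.continuousAt.eventually_mem (IsOpen.mem_nhds isOpen_Ioi (by
        show 3 / 2 * lam < S x
        linarith))
    obtain ⟨ρ, hρ, hρS⟩ := Metric.nhds_basis_closedBall.mem_iff.1 h1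
    refine ⟨min ρ d, lt_min hρ hd, ?_⟩
    set ρ' := min ρ d
    have hρ' : 0 < ρ' := lt_min hρ hd
    have hsub : closedBall x ρ' ⊆ B := by
      intro y hy
      have h2 : dist x a ≤ R - d := hsupp hx1
      have h3 : dist y x ≤ ρ' := hy
      have h4 : ρ' ≤ d := min_le_right _ _
      show dist y a ≤ R
      linarith [dist_triangle y x a]
    have h5 : ∫ y in closedBall x ρ', (3 / 2 * lam : ℝ) ≤ ∫ y in closedBall x ρ', g y := by
      refine setIntegral_mono_on ?_ hgint.integrableOn measurableSet_closedBall ?_
      · exact integrableOn_const measure_closedBall_lt_top.ne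
      · intro y hy
        rw [hgS y (hsub hy)]
        exact le_of_lt (hρS (closedBall_subset_closedBall (min_le_left _ _) hy))
    rw [setIntegral_const, smul_eq_mul, Measure.real, volume_cube x hρ'.le,
      ENNReal.toReal_ofReal (by positivity)] at h5
    have h6 : 0 < (2 * ρ') ^ n := by positivity
    nlinarith
  obtain ⟨N, c, r, hcK, hr0, hKcov, hrU, hz, hrsum, hrnb⟩ := hcov U K hUo hUt hKc hKU
  -- radii are small
  have hrd : ∀ i, 20 * r i ≤ d := by
    intro i
    have h1 : (2 * (10 * r i)) ^ n ≤ d ^ n := by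
      refine (hrU i).trans (hUr.trans ?_)
      rw [div_mul_eq_mul_div, div_le_iff₀ hlam0]
      calc 2 * 5 ^ n * I ≤ (2 * 5 ^ n + Cv + Cb) * I := by
            refine mul_le_mul_of_nonneg_right ?_ hI0
            linarith
        _ ≤ (2 * 5 ^ n + Cv + Cb) * ∫ x in B, S x :=
            mul_le_mul_of_nonneg_left hIle (by positivity)
        _ ≤ lam * d ^ n := hbig
        _ = d ^ n * lam := mul_comm _ _
    have h2 := (pow_le_pow_iff_left₀ (by have := hr0 i; positivity) hd.le (by omega)).1 h1
    linarith
  have hball : ∀ i, closedBall (c i) (3 * r i) ⊆ B := by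
    intro i y hy
    have h1 : dist (c i) a ≤ R - d := hsupp (hcK i).1
    have h2 : dist y (c i) ≤ 3 * r i := hy
    have h3 := hrd i
    have h4 := hr0 i
    show dist y a ≤ R
    linarith [dist_triangle y (c i) a]
  -- mass of `g` on balls
  have hmass : ∀ i, ∀ ρ, 0 < ρ → ∫ y in closedBall (c i) (ρ * r i), g y ≤
      lam * (2 * ((10 + ρ) * r i)) ^ n := by
    intro i ρ hρ
    obtain ⟨z, hzU, hzd⟩ := hz i
    have hri := hr0 i
    have h1 : ¬ (lam * (2 * ((10 + ρ) * r i)) ^ n < ∫ x in closedBall z ((10 + ρ) * r i), g x) := by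
      intro hlt
      exact hzU ⟨(10 + ρ) * r i, by positivity, hlt⟩
    refine le_trans ?_ (not_lt.1 h1)
    refine setIntegral_mono_set hgint.integrableOn (Eventually.of_forall hg0)
      (Eventually.of_forall ?_)
    intro y hy
    have h2 : dist y (c i) ≤ ρ * r i := hy
    show dist y z ≤ (10 + ρ) * r i
    linarith [dist_triangle y (c i) z]
  set Sr : Fin N → ℝ := fun i => lam * 25 ^ n * r i ^ (n - 1) with hSr
  have hSlt : ∀ i, ∫ y in closedBall (c i) (2 * r i), g y < Sr i * r i := by
    intro i
    have hri := hr0 i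
    refine (hmass i 2 (by norm_num)).trans_lt ?_
    have h1 : Sr i * r i = lam * (25 * r i) ^ n := by
      simp only [hSr]
      obtain ⟨k, rfl⟩ : ∃ k, n = k + 1 := ⟨n - 1, by omega⟩
      simp only [Nat.add_sub_cancel]
      ring
    rw [h1]
    refine mul_lt_mul_of_pos_left ?_ hlam0
    refine pow_lt_pow_left₀ ?_ (by positivity) (by omega)
    linarith
  choose t ht δ hδ0 hδr hδlim hδS using fun i =>
    good_radius hgint hg0 hB0 (c i) (hr0 i) (hSlt i)
  have ht0 : ∀ i, 0 < t i := fun i => (hr0 i).trans_le (ht i).1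
  choose χ hχs hχ0 hχ1 hχin hχout hχg using fun i m =>
    hcut (c i) (t i) (δ i m) (ht0 i) (hδ0 i m)
  have hχd : ∀ i m, Differentiable ℝ (χ i m) := fun i m =>
    (hχs i m).differentiable (by norm_cast)
  have htδ : ∀ i m, t i + δ i m ≤ 3 * r i := fun i m => by
    have h1 := (ht i).2
    have h2 := hδr i m
    linarith
  -- energy of a cutoff
  have hχE : ∀ i m, ∫ x, gr (χ i m) x * S x ≤ C7 * Sr i := by
    intro i m
    set An : Set (E n) := closedBall (c i) (t i + δ i m) \ closedBall (c i) (t i) with hAn
    have hAnm : MeasurableSet An := measurableSet_closedBall.diff measurableSet_closedBall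
    have hAnB : An ⊆ B := sdiff_subset.trans
      ((closedBall_subset_closedBall (htδ i m)).trans (hball i))
    have h1 : ∫ x, gr (χ i m) x * S x ≤ ∫ x, An.indicator (fun x => C7 / δ i m * g x) x := by
      refine integral_mono_of_nonneg (Eventually.of_forall fun x => mul_nonneg (gr_nonneg _ _) (hS0 x))
        ?_ (Eventually.of_forall fun x => ?_)
      · rw [integrable_indicator_iff hAnm]
        exact (hgint.const_mul _).integrableOn
      · have h2 := hχg i m x
        by_cases hx : x ∈ An
        · rw [indicator_of_mem hx] at h2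
          simp only
          rw [indicator_of_mem hx, hgS x (hAnB hx)]
          exact mul_le_mul_of_nonneg_right h2 (hS0 x)
        · rw [indicator_of_notMem hx] at h2
          simp only
          rw [indicator_of_notMem hx]
          have h3 : gr (χ i m) x = 0 := le_antisymm h2 (gr_nonneg _ _)
          rw [h3, zero_mul]
    refine h1.trans ?_
    rw [integral_indicator hAnm, integral_const_mul]
    have h4 := hδS i m
    have h5 := hδ0 i m
    calc C7 / δ i m * ∫ x in An, g x ≤ C7 / δ i m * (Sr i * δ i m) :=
          mul_le_mul_of_nonneg_left h4 (by positivity)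
      _ = C7 * Sr i := by field_simp
  -- the pieces
  set Q : Fin N → Set (E n) := fun i => closedBall (c i) (t i) with hQ
  set D : Fin N → Set (E n) := fun i => Q i \ ⋃ j ∈ Finset.univ.filter (· < i), Q j with hD
  set h : Fin N → ℕ → E n → ℝ := fun i m x =>
    χ i m x * ∏ j ∈ Finset.univ.filter (· < i), (1 - χ j m x) with hh
  have hQm : ∀ i, MeasurableSet (Q i) := fun i => measurableSet_closedBall
  have hDm : ∀ i, MeasurableSet (D i) := fun i =>
    (hQm i).diff (Finset.measurableSet_biUnion _ fun j _ => hQm j)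
  have hhs : ∀ i m, ContDiff ℝ ∞ (h i m) := by
    intro i m
    exact (hχs i m).mul (contDiff_prod fun j _ => contDiff_const.sub (hχs j m))
  have hprod0 : ∀ i m x, 0 ≤ ∏ j ∈ Finset.univ.filter (· < i), (1 - χ j m x) := fun i m x =>
    Finset.prod_nonneg fun j _ => by linarith [hχ1 j m x]
  have hprod1 : ∀ i m x, ∏ j ∈ Finset.univ.filter (· < i), (1 - χ j m x) ≤ 1 := fun i m x =>
    Finset.prod_le_one (fun j _ => by linarith [hχ1 j m x]) fun j _ => by linarith [hχ0 j m x]
  have hh1 : ∀ i m x, |h i m x| ≤ 1 := by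
    intro i m x
    simp only [hh]
    rw [abs_mul, abs_of_nonneg (hχ0 i m x), abs_of_nonneg (hprod0 i m x)]
    exact mul_le_one₀ (hχ1 i m x) (hprod0 i m x) (hprod1 i m x)
  have hhsupp : ∀ i m, tsupport (h i m) ⊆ closedBall (c i) (3 * r i) := by
    intro i m
    refine closure_minimal ?_ isClosed_closedBall
    intro x hx
    by_contra hc
    apply hx
    have : x ∉ closedBall (c i) (t i + δ i m) := fun h' =>
      hc (closedBall_subset_closedBall (htδ i m) h')
    simp only [hh]
    rw [hχout i m x this, zero_mul]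
  have hχlim : ∀ i x, Tendsto (fun m => χ i m x) atTop (𝓝 ((Q i).indicator (fun _ => (1 : ℝ)) x)) := by
    intro i x
    by_cases hx : x ∈ Q i
    · rw [indicator_of_mem hx]
      refine tendsto_const_nhds.congr fun m => ?_
      exact (hχin i m x hx).symm
    · rw [indicator_of_notMem hx]
      have hx' : t i < dist x (c i) := by simpa [hQ] using hx
      have h1 : ∀ᶠ m in atTop, δ i m < dist x (c i) - t i :=
        (hδlim i).eventually_lt_const (by linarith)
      refine Tendsto.congr' ?_ tendsto_const_nhds
      filter_upwards [h1] with m hm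
      refine (hχout i m x ?_).symm
      intro hc
      have : dist x (c i) ≤ t i + δ i m := hc
      linarith
  have hhlim : ∀ i x, Tendsto (fun m => h i m x) atTop
      (𝓝 ((D i).indicator (fun _ => (1 : ℝ)) x)) := by
    intro i x
    have h1 : Tendsto (fun m => h i m x) atTop (𝓝 ((Q i).indicator (fun _ => (1 : ℝ)) x *
        ∏ j ∈ Finset.univ.filter (· < i), (1 - (Q j).indicator (fun _ => (1 : ℝ)) x))) :=
      (hχlim i x).mul (tendsto_finsetProd _ fun j _ => tendsto_const_nhds.sub (hχlim j x))
    convert h1 using 2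
    by_cases hx : x ∈ Q i
    · rw [indicator_of_mem hx, one_mul]
      by_cases hx2 : ∃ j ∈ Finset.univ.filter (· < i), x ∈ Q j
      · obtain ⟨j, hj, hxj⟩ := hx2
        rw [indicator_of_notMem]
        · symm
          apply Finset.prod_eq_zero hj
          rw [indicator_of_mem hxj, sub_self]
        · rintro ⟨_, hnot⟩
          exact hnot (mem_biUnion hj hxj)
      · push Not at hx2
        rw [indicator_of_mem]
        · symm
          apply Finset.prod_eq_one
          intro j hj
          rw [indicator_of_notMem (hx2 j hj), sub_zero]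
        · refine ⟨hx, ?_⟩
          simp only [mem_iUnion, not_exists]
          intro j hj
          exact hx2 j hj
    · rw [indicator_of_notMem hx, zero_mul, indicator_of_notMem]
      exact fun hc => hx hc.1
  set A : Fin N → ℝ := fun i => CA * lam * r i ^ (n - 1) with hA
  have hhA : ∀ i m, ∫ x, gr (h i m) x * S x ≤ A i := by
    intro i m
    set Nb := Finset.univ.filter fun j =>
      (closedBall (c i) (3 * r i) ∩ closedBall (c j) (3 * r j)).Nonempty with hNb
    have hiNb : i ∈ Nb := by
      simp only [hNb, Finset.mem_filter, Finset.mem_univ, true_and, inter_self]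
      exact ⟨c i, mem_closedBall_self (by have := hr0 i; positivity)⟩
    have hpt : ∀ x, gr (h i m) x ≤ ∑ j ∈ Nb, gr (χ j m) x := by
      intro x
      have hP : DifferentiableAt ℝ
          (fun y => ∏ j ∈ Finset.univ.filter (· < i), (1 - χ j m y)) x :=
        (HasFDerivAt.finsetProd fun j _ =>
          ((hχd j m x).const_sub 1).hasFDerivAt).differentiableAt
      have h1 := gr_mul_le (hχd i m x) hP
      have h2 := gr_prod_le (Finset.univ.filter (· < i)) (φ := fun j y => 1 - χ j m y) (x := x)
        (fun j _ => (hχd j m x).const_sub 1) (fun j _ => by linarith [hχ1 j m x])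
        (fun j _ => by linarith [hχ0 j m x])
      simp only [gr_one_sub] at h2
      rw [abs_of_nonneg (hχ0 i m x), abs_of_nonneg (hprod0 i m x)] at h1
      have h3 : (∏ j ∈ Finset.univ.filter (· < i), (1 - χ j m x)) * gr (χ i m) x ≤ gr (χ i m) x := by
        have := gr_nonneg (χ i m) x
        have := hprod1 i m x
        nlinarith
      have h4 : χ i m x * gr (fun y => ∏ j ∈ Finset.univ.filter (· < i), (1 - χ j m y)) x ≤
          ∑ j ∈ Nb.erase i, gr (χ j m) x := by
        by_cases hx : x ∈ closedBall (c i) (3 * r i)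
        · have h5 : ∑ j ∈ Finset.univ.filter (· < i), gr (χ j m) x ≤
              ∑ j ∈ Nb.erase i, gr (χ j m) x := by
            have h6 : ∑ j ∈ Finset.univ.filter (· < i), gr (χ j m) x =
                ∑ j ∈ (Finset.univ.filter (· < i)).filter (fun j => j ∈ Nb), gr (χ j m) x := by
              symm
              apply Finset.sum_filter_of_ne
              intro j _ hne
              simp only [hNb, Finset.mem_filter, Finset.mem_univ, true_and]
              refine ⟨x, hx, ?_⟩
              by_contra hxj
              apply hne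
              have h7 := hχg j m x
              rw [indicator_of_notMem] at h7
              · exact le_antisymm h7 (gr_nonneg _ _)
              · intro hc
                exact hxj (closedBall_subset_closedBall (htδ j m) hc.1)
            rw [h6]
            refine Finset.sum_le_sum_of_subset_of_nonneg ?_ fun j _ _ => gr_nonneg _ _
            intro j hj
            simp only [Finset.mem_filter, Finset.mem_univ, true_and] at hj
            exact Finset.mem_erase.2 ⟨hj.1.ne, hj.2⟩
          have h8 := hχ1 i m x
          have h9 := hχ0 i m x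
          have h10 := gr_nonneg (fun y => ∏ j ∈ Finset.univ.filter (· < i), (1 - χ j m y)) x
          nlinarith
        · have h5 : χ i m x = 0 := hχout i m x fun hc => hx
            (closedBall_subset_closedBall (htδ i m) hc)
          rw [h5, zero_mul]
          exact Finset.sum_nonneg fun j _ => gr_nonneg _ _
      rw [← Finset.add_sum_erase _ _ hiNb]
      refine h1.trans ?_
      linarith
    have hint : ∀ j, Integrable fun x => gr (χ j m) x * S x := by
      intro j
      refine Continuous.integrable_of_hasCompactSupport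
        ((continuous_gr ((hχs j m).of_le (by norm_cast))).mul hcS) ?_
      refine HasCompactSupport.mul_right ?_
      refine HasCompactSupport.intro (isCompact_closedBall (c j) (t j + δ j m)) fun x hx => ?_
      have h7 := hχg j m x
      rw [indicator_of_notMem fun hc => hx hc.1] at h7
      exact le_antisymm h7 (gr_nonneg _ _)
    calc ∫ x, gr (h i m) x * S x ≤ ∫ x, ∑ j ∈ Nb, gr (χ j m) x * S x := by
          refine integral_mono_of_nonneg
            (Eventually.of_forall fun x => mul_nonneg (gr_nonneg _ _) (hS0 x))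
            (integrable_finsetSum _ fun j _ => hint j) (Eventually.of_forall fun x => ?_)
          simp only
          rw [← Finset.sum_mul]
          exact mul_le_mul_of_nonneg_right (hpt x) (hS0 x)
      _ = ∑ j ∈ Nb, ∫ x, gr (χ j m) x * S x := integral_finsetSum _ fun j _ => hint j
      _ ≤ ∑ j ∈ Nb, C7 * Sr j := Finset.sum_le_sum fun j _ => hχE j m
      _ = C7 * 25 ^ n * lam * ∑ j ∈ Nb, r j ^ (n - 1) := by
          simp only [hSr]
          rw [Finset.mul_sum]
          refine Finset.sum_congr rfl fun j _ => ?_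
          ring
      _ ≤ C7 * 25 ^ n * lam * (C6 * r i ^ (n - 1)) :=
          mul_le_mul_of_nonneg_left (hrnb i) (by positivity)
      _ = A i := by simp only [hA, hCA]; ring
  -- the union
  set V : Set (E n) := ⋃ i, Q i with hV
  have hVm : MeasurableSet V := MeasurableSet.iUnion hQm
  have hQB : ∀ i, Q i ⊆ closedBall (c i) (3 * r i) := fun i =>
    closedBall_subset_closedBall (by have := (ht i).2; have := hr0 i; linarith)
  have hVB : V ⊆ B := iUnion_subset fun i => (hQB i).trans (hball i)
  have hVD : V = ⋃ i, D i := by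
    apply Subset.antisymm
    · intro x hx
      rw [hV, mem_iUnion] at hx
      obtain ⟨i, hi⟩ := hx
      have hne : (Finset.univ.filter fun i => x ∈ Q i).Nonempty :=
        ⟨i, by simp [hi]⟩
      set i1 := (Finset.univ.filter fun i => x ∈ Q i).min' hne with hi1
      have hmem := Finset.min'_mem _ hne
      rw [← hi1] at hmem
      simp only [Finset.mem_filter, Finset.mem_univ, true_and] at hmem
      refine mem_iUnion.2 ⟨i1, hmem, ?_⟩
      simp only [mem_iUnion, not_exists, Finset.mem_filter, Finset.mem_univ, true_and]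
      intro j hj hxj
      have := Finset.min'_le (Finset.univ.filter fun i => x ∈ Q i) j (by simp [hxj])
      exact absurd hj (not_lt.2 this)
    · exact iUnion_mono fun i => sdiff_subset
  have hDdisj : Pairwise (Function.onFun Disjoint D) := by
    intro i j hij
    rcases lt_or_gt_of_ne hij with hlt | hlt
    · refine Set.disjoint_left.2 fun x hx hx' => ?_
      exact hx'.2 (mem_biUnion (by simp [hlt]) hx.1)
    · refine Set.disjoint_left.2 fun x hx hx' => ?_
      exact hx.2 (mem_biUnion (by simp [hlt]) hx'.1)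
  refine ⟨V, hVm, hVB, ?_, ?_, ?_⟩
  · intro x hx hx2
    have hxK : x ∈ K := ⟨hx, hx2⟩
    obtain ⟨i, hi⟩ := mem_iUnion.1 (hKcov hxK)
    exact mem_iUnion.2 ⟨i, closedBall_subset_closedBall (ht i).1 hi⟩
  · have h1 : volume V ≤ ∑ i, ENNReal.ofReal ((4 * r i) ^ n) := by
      refine (measure_iUnion_fintype_le _ _).trans (Finset.sum_le_sum fun i _ => ?_)
      rw [hQ]
      simp only
      rw [volume_cube _ (ht0 i).le]
      refine ENNReal.ofReal_le_ofReal (pow_le_pow_left₀ (by have := ht0 i; positivity) ?_ _)
      have := (ht i).2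
      linarith
    have h2 : (volume V).toReal ≤ ∑ i, (4 * r i) ^ n := by
      rw [← ENNReal.ofReal_sum_of_nonneg (fun i _ => by have := hr0 i; positivity)] at h1
      exact ENNReal.toReal_le_of_le_ofReal
        (Finset.sum_nonneg fun i _ => by have := hr0 i; positivity) h1
    have h3 : ∑ i, (4 * r i) ^ n = 4 ^ n * ∑ i, r i ^ n := by
      rw [Finset.mul_sum]
      exact Finset.sum_congr rfl fun i _ => by ring
    calc (volume V).toReal ≤ 4 ^ n * ∑ i, r i ^ n := by rw [← h3]; exact h2
      _ ≤ 4 ^ n * (C6 * (2 * 5 ^ n / lam * I)) := by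
          refine mul_le_mul_of_nonneg_left (hrsum.trans ?_) (by positivity)
          exact mul_le_mul_of_nonneg_left hUr hC6.le
      _ = Cv / lam * I := by rw [hCv]; ring
      _ ≤ (2 * 5 ^ n + Cv + Cb) / lam * I := by
          refine mul_le_mul_of_nonneg_right ?_ hI0
          refine div_le_div_of_nonneg_right ?_ hlam0.le
          have : (0 : ℝ) < 2 * 5 ^ n := by positivity
          linarith
  · have hcont : Continuous fun x => η x * pd ψ i₀ (f x) * (jac f x).det :=
      (hη.continuous.mul ((continuous_pd hψ1 i₀).comp hf.continuous)).mul (continuous_det_jac hf1)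
    have hsum : ∫ x in V, η x * pd ψ i₀ (f x) * (jac f x).det =
        ∑ i, ∫ x in D i, η x * pd ψ i₀ (f x) * (jac f x).det := by
      rw [hVD]
      rw [integral_iUnion_fintype hDm hDdisj]
      intro i
      exact (hcont.continuousOn.integrableOn_compact (isCompact_closedBall (c i) (3 * r i))).mono_set
        (sdiff_subset.trans (hQB i))
    rw [hsum]
    have hone : ∀ i, |∫ x in D i, η x * pd ψ i₀ (f x) * (jac f x).det| ≤
        C3 * P * L * (lam ^ q * (CA ^ q + 3 * CA + 26 ^ n) * r i ^ n) := by
      intro i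
      have hri := hr0 i
      have h1 := hpiece f hf (D i) (closedBall (c i) (3 * r i)) (hDm i)
        (isCompact_closedBall _ _) (sdiff_subset.trans (hQB i)) (h i) (hhs i) (hhsupp i) (hh1 i)
        (hhlim i) (A i) (hhA i) η hη ψ hψ i₀ P L hηL hgL hψP hψP' (c i) (3 * r i)
        (by positivity) (fun x hx => hx)
      refine h1.trans (mul_le_mul_of_nonneg_left ?_ (by positivity))
      have h2 : A i ^ ((n : ℝ) / ((n : ℝ) - 1)) = CA ^ q * lam ^ q * r i ^ n := by
        simp only [hA]
        rw [Real.mul_rpow (by positivity) (by positivity), Real.mul_rpow hCA0.le hlam0.le,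
          rpow_aux hn hri.le]
      have h3 : ∫ x in closedBall (c i) (3 * r i), sn (jac f x).adjugate ≤
          lam * 26 ^ n * r i ^ n := by
        have h4 := hmass i 3 (by norm_num)
        have h5 : ∫ x in closedBall (c i) (3 * r i), g x =
            ∫ x in closedBall (c i) (3 * r i), sn (jac f x).adjugate :=
          setIntegral_congr_fun measurableSet_closedBall fun x hx => hgS x (hball i hx)
        rw [← h5]
        refine h4.trans (le_of_eq ?_)
        rw [show 2 * ((10 + 3) * r i) = 26 * r i by ring, mul_pow]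
        ring
      have h6 : 3 * r i * A i = 3 * CA * lam * r i ^ n := by
        simp only [hA]
        obtain ⟨k, rfl⟩ : ∃ k, n = k + 1 := ⟨n - 1, by omega⟩
        simp only [Nat.add_sub_cancel]
        ring
      have h7 : lam ≤ lam ^ q := by
        calc lam = lam ^ (1 : ℝ) := (Real.rpow_one _).symm
          _ ≤ lam ^ q := Real.rpow_le_rpow_of_exponent_le hlam hq1
      rw [h2, h6]
      have h8 : 0 ≤ r i ^ n := by positivity
      have h9 : 3 * CA * lam * r i ^ n ≤ lam ^ q * (3 * CA) * r i ^ n := by
        refine mul_le_mul_of_nonneg_right ?_ h8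
        nlinarith
      have h10 : lam * 26 ^ n * r i ^ n ≤ lam ^ q * 26 ^ n * r i ^ n := by
        refine mul_le_mul_of_nonneg_right ?_ h8
        exact mul_le_mul_of_nonneg_right h7 (by positivity)
      linarith
    calc |∑ i, ∫ x in D i, η x * pd ψ i₀ (f x) * (jac f x).det|
        ≤ ∑ i, |∫ x in D i, η x * pd ψ i₀ (f x) * (jac f x).det| :=
          Finset.abs_sum_le_sum_abs _ _
      _ ≤ ∑ i, C3 * P * L * (lam ^ q * (CA ^ q + 3 * CA + 26 ^ n) * r i ^ n) :=
          Finset.sum_le_sum fun i _ => hone i
      _ = C3 * P * L * (lam ^ q * (CA ^ q + 3 * CA + 26 ^ n)) * ∑ i, r i ^ n := by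
          rw [Finset.mul_sum]
          exact Finset.sum_congr rfl fun i _ => by ring
      _ ≤ C3 * P * L * (lam ^ q * (CA ^ q + 3 * CA + 26 ^ n)) *
            (C6 * (2 * 5 ^ n / lam * I)) := by
          refine mul_le_mul_of_nonneg_left (hrsum.trans ?_) (by positivity)
          exact mul_le_mul_of_nonneg_left hUr hC6.le
      _ = Cb * P * L * (lam ^ q / lam) * I := by rw [hCb]; ring
      _ = Cb * P * L * lam ^ (1 / ((n : ℝ) - 1)) * I := by
          congr 2
          rw [← Real.rpow_sub_one hlam0.ne']
          congr 1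
          rw [hq]
          have : (n : ℝ) - 1 ≠ 0 := by linarith
          field_simp
          ring
      _ ≤ (2 * 5 ^ n + Cv + Cb) * P * L * lam ^ (1 / ((n : ℝ) - 1)) * I := by
          refine mul_le_mul_of_nonneg_right ?_ hI0
          refine mul_le_mul_of_nonneg_right ?_ (by positivity)
          refine mul_le_mul_of_nonneg_right ?_ hL0
          refine mul_le_mul_of_nonneg_right ?_ hP0
          have : (0 : ℝ) < 2 * 5 ^ n := by positivity
          linarith

end H930.BL
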