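import Pool.Agent.Helper930.BL.Hol
import Pool.Agent.Helper930.BL.Moll
import Pool.Agent.Helper930.BL.Face
import Pool.Agent.Helper930.BL.Mono

set_option autoImplicit false

open MeasureTheory Metric Set Filter Topology
open scoped ENNReal NNReal ContDiff

namespace H930.BL.XSupClose

variable {n : ℕ}


theorem add_rpow_le_sc {a b p : ℝ} (ha : 0 ≤ a) (hb : 0 ≤ b) (hp : 0 ≤ p) :
    (a + b) ^ p ≤ 2 ^ p * (a ^ p + b ^ p) := by
  have ha' : 0 ≤ a ^ p := Real.rpow_nonneg ha p
  have hb' : 0 ≤ b ^ p := Real.rpow_nonneg hb p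
  have h2 : (0 : ℝ) ≤ 2 ^ p := Real.rpow_nonneg (by norm_num) p
  rcases le_total a b with h | h
  · calc (a + b) ^ p ≤ (2 * b) ^ p := Real.rpow_le_rpow (by linarith) (by linarith) hp
      _ = 2 ^ p * b ^ p := Real.mul_rpow (by norm_num) hb
      _ ≤ _ := mul_le_mul_of_nonneg_left (by linarith) h2
  · calc (a + b) ^ p ≤ (2 * a) ^ p := Real.rpow_le_rpow (by linarith) (by linarith) hp
      _ = 2 ^ p * a ^ p := Real.mul_rpow (by norm_num) ha
      _ ≤ _ := mul_le_mul_of_nonneg_left (by linarith) h2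

theorem mulVec_le_sc {n : ℕ} (M : Matrix (Fin n) (Fin n) ℝ) (z : E n) (i : Fin n) :
    |M.mulVec z i| ≤ sn M * ‖z‖ := by
  have h1 : M.mulVec z i = ∑ j, M i j * z j := rfl
  rw [h1]
  calc |∑ j, M i j * z j| ≤ ∑ j, |M i j * z j| := Finset.abs_sum_le_sum_abs _ _
    _ ≤ ∑ j, |M i j| * ‖z‖ := by
        refine Finset.sum_le_sum fun j _ => ?_
        rw [abs_mul]
        exact mul_le_mul_of_nonneg_left (norm_le_pi_norm z j) (abs_nonneg _)
    _ = (∑ j, |M i j|) * ‖z‖ := by rw [Finset.sum_mul]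
    _ ≤ sn M * ‖z‖ := by
        refine mul_le_mul_of_nonneg_right ?_ (norm_nonneg _)
        exact Finset.single_le_sum (f := fun i => ∑ j, |M i j|)
          (fun _ _ => Finset.sum_nonneg fun _ _ => abs_nonneg _) (Finset.mem_univ i)

theorem sn_jac_sub_sc {n : ℕ} {g : E n → E n} (hg : ContDiff ℝ 1 g)
    (M : Matrix (Fin n) (Fin n) ℝ) (c : E n) (x : E n) :
    sn (jac (fun y => fun i => g y i - (M.mulVec y i + c i)) x) ≤ sn (jac g x) + sn M := by
  have h1 : ∀ i j, jac (fun y => fun i => g y i - (M.mulVec y i + c i)) x i j =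
      jac g x i j - M i j := by
    intro i j
    have hgi : DifferentiableAt ℝ (fun y => g y i) x :=
      (((contDiff_pi.1 hg) i).differentiable one_ne_zero) x
    let L : E n →L[ℝ] ℝ := (ContinuousLinearMap.proj i).comp (toC M)
    have hL : ∀ y, L y = M.mulVec y i := fun y => rfl
    have h2 : HasFDerivAt (fun y => g y i - (M.mulVec y i + c i))
        (fderiv ℝ (fun y => g y i) x - L) x :=
      hgi.hasFDerivAt.sub ((L.hasFDerivAt (x := x)).add_const (c i))
    show pd (fun y => g y i - (M.mulVec y i + c i)) j x = pd (fun y => g y i) j x - M i j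
    unfold pd
    rw [h2.fderiv, sub_apply, hL]
    congr 1
    simp
  unfold sn
  rw [← Finset.sum_add_distrib]
  refine Finset.sum_le_sum fun i _ => ?_
  rw [← Finset.sum_add_distrib]
  refine Finset.sum_le_sum fun j _ => ?_
  rw [h1]
  exact abs_sub _ _

theorem sup_close {n : ℕ} (hn : 2 ≤ n) : ∃ C : ℝ, 0 < C ∧ ∀ (f : E n → E n)
    (D : E n → Matrix (Fin n) (Fin n) ℝ) (Ω : Set (E n)), FDMap f D Ω → closedBall 0 1 ⊆ Ω →
    ∀ (M : Matrix (Fin n) (Fin n) ℝ) (c : E n) (Λ ε : ℝ), 1 ≤ Λ → 0 < ε → ε ≤ (1 / 4) ^ 8 →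
    sn M ≤ Λ → ∫ x in closedBall 0 1, sn (D x) ^ pe n ≤ 1 →
    ∫ x in closedBall 0 1, ∑ i, |f x i - (M.mulVec x i + c i)| ^ pe n ≤ ε ^ pe n →
    ∀ x ∈ closedBall (0 : E n) (1 / 2), ∀ i,
      |f x i - (M.mulVec x i + c i)| ≤ C * Λ * ε ^ (1 / (8 * (n : ℝ))) := by
  obtain ⟨m, rfl⟩ : ∃ m, n = m + 1 := ⟨n - 1, by omega⟩
  have hm : 1 ≤ m := by omega
  set p : ℝ := pe (m + 1) with hp
  have hpm : p = m + 1 / 2 := by rw [hp, pe]; push_cast; ring
  have hm1 : (1 : ℝ) ≤ m := by exact_mod_cast hm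
  have hmp : (m : ℝ) < p := by rw [hpm]; linarith
  have hp1 : 1 ≤ p := by rw [hpm]; linarith
  have hp0 : 0 < p := by linarith
  obtain ⟨C0, hC0, hface⟩ := face_sup hm hmp
  set V : ℝ := volume.real (closedBall (0 : E (m+1)) 1) with hV
  have hV0 : 0 ≤ V := measureReal_nonneg
  set C1 : ℝ := 2 ^ p * (1 + (m + 1) * V) with hC1
  set C2 : ℝ := 2 ^ p * (2 + V) with hC2
  have hC1p : 0 < C1 := by positivity
  have hC2p : 0 < C2 := by positivity
  set C3 : ℝ := (C0 * (C1 + C2)) ^ (1 / p) with hC3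
  have hC3p : 0 < C3 := by positivity
  have hC3e : C3 ^ p = C0 * (C1 + C2) := by
    rw [hC3, ← Real.rpow_mul (by positivity), one_div_mul_cancel hp0.ne', Real.rpow_one]
  refine ⟨3 + C3, by positivity, ?_⟩
  intro f D Ω hfd hΩ M c Λ ε hΛ hε hε1 hM hD1 hfA x0 hx0 i
  have hn1 : 1 ≤ m + 1 := by omega
  have hΛ0 : 0 < Λ := by linarith
  have hε1' : ε ≤ 1 := hε1.trans (by norm_num)
  have hKc : IsCompact (closedBall (0 : E (m+1)) 1) := isCompact_closedBall _ _
  have hI : ∀ K, IsCompact K → K ⊆ Ω → IntegrableOn (fun x => sn (D x) ^ p) K := by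
    intro K hK hKΩ
    exact (hol2 hfd hn1 hK hKΩ).1
  obtain ⟨F, hFs, hFu, hFj, Φ, hΦ, hFΦ⟩ := moll hn1 hfd.isOpen hfd.cont hfd.meas hfd.weak hp1 hI hKc hΩ
  have hcsn : ∀ {g : E (m+1) → E (m+1)}, ContDiff ℝ 1 g →
      Continuous fun x => sn (jac g x) ^ p := by
    intro g hg
    exact (continuous_sn.comp (continuous_jac hg)).rpow_const (fun _ => Or.inr hp0.le)
  have hF1 : ∀ k, ContDiff ℝ 1 (F k) := fun k => (hFs k).of_le (by exact_mod_cast le_top)
  -- the integral of the jacobians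
  have hlim : Tendsto (fun k => ∫ x in closedBall (0 : E (m+1)) 1, sn (jac (F k) x) ^ p) atTop
      (𝓝 (∫ x in closedBall (0 : E (m+1)) 1, sn (D x) ^ p)) := by
    refine tendsto_integral_of_dominated_convergence Φ ?_ hΦ ?_ ?_
    · intro k
      exact (hcsn (hF1 k)).aestronglyMeasurable
    · intro k
      filter_upwards [hFΦ] with x hx
      rw [Real.norm_of_nonneg (Real.rpow_nonneg (sn_nonneg _) _)]
      exact hx k
    · filter_upwards [hFj] with x hx
      exact ((continuous_sn.tendsto _).comp hx).rpow_const (Or.inr hp0.le)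
  have hev1 : ∀ᶠ k in atTop, ∫ x in closedBall (0 : E (m+1)) 1, sn (jac (F k) x) ^ p < 2 :=
    hlim.eventually_lt_const (lt_of_le_of_lt hD1 (by norm_num))
  have hev2 : ∀ᶠ k in atTop, ∀ x ∈ closedBall (0 : E (m+1)) 1, dist (f x) (F k x) < ε :=
    Metric.tendstoUniformlyOn_iff.1 hFu ε hε
  obtain ⟨k, hk1, hk2⟩ := (hev1.and hev2).exists
  set g : E (m+1) → E (m+1) := F k with hg
  have hg1 : ContDiff ℝ 1 g := hF1 k
  have hclose : ∀ x ∈ closedBall (0 : E (m+1)) 1, ∀ i, |g x i - f x i| ≤ ε := by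
    intro x hx i
    have h1 : dist (f x i) (g x i) ≤ dist (f x) (g x) := dist_le_pi_dist _ _ _
    rw [Real.dist_eq, abs_sub_comm] at h1
    exact h1.trans (hk2 x hx).le
  set v : E (m+1) → E (m+1) := fun y => fun i => g y i - (M.mulVec y i + c i) with hv
  have hA1 : ∀ i, ContDiff ℝ 1 (fun y : E (m+1) => M.mulVec y i + c i) := by
    intro i
    let L : E (m+1) →L[ℝ] ℝ := (ContinuousLinearMap.proj i).comp (toC M)
    exact (L.contDiff (n := 1)).add contDiff_const
  have hv1 : ContDiff ℝ 1 v := by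
    rw [contDiff_pi]
    intro i
    exact ((contDiff_pi.1 hg1) i).sub (hA1 i)
  have hcv : Continuous fun x => ∑ i, |v x i| ^ p := by
    refine continuous_finsetSum _ fun i _ => ?_
    exact ((continuous_apply i).comp hv1.continuous).abs.rpow_const (fun _ => Or.inr hp0.le)
  have hcf : ContinuousOn (fun x => ∑ i, |f x i - (M.mulVec x i + c i)| ^ p)
      (closedBall (0 : E (m+1)) 1) := by
    refine continuousOn_finsetSum _ fun i _ => ?_
    refine ContinuousOn.rpow_const ?_ (fun _ _ => Or.inr hp0.le)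
    refine ContinuousOn.abs ?_
    refine ContinuousOn.sub ?_ (hA1 i).continuous.continuousOn
    exact (continuous_apply i).comp_continuousOn (hfd.cont.mono hΩ)
  have h2p : (0 : ℝ) < 2 ^ p := by positivity
  have hεp : 0 < ε ^ p := Real.rpow_pos_of_pos hε p
  have hΛp : 1 ≤ Λ ^ p := Real.one_le_rpow hΛ hp0.le
  have hconst : ∀ r : ℝ, IntegrableOn (fun _ : E (m+1) => r) (closedBall 0 1) volume :=
    fun r => continuousOn_const.integrableOn_compact hKc
  -- (1)
  have hB1 : ∫ x in closedBall (0 : E (m+1)) 1, ∑ i, |v x i| ^ p ≤ C1 * ε ^ p := by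
    have e1 : ∫ x in closedBall (0 : E (m+1)) 1, ∑ i, |v x i| ^ p ≤
        ∫ x in closedBall (0 : E (m+1)) 1,
          2 ^ p * ((m + 1) * ε ^ p + ∑ i, |f x i - (M.mulVec x i + c i)| ^ p) := by
      refine setIntegral_mono_on (hcv.continuousOn.integrableOn_compact hKc) ?_
        measurableSet_closedBall ?_
      · exact ((hconst ((m + 1) * ε ^ p)).add (hcf.integrableOn_compact hKc)).const_mul (2 ^ p)
      · intro x hx
        have e2 : ∀ i, |v x i| ^ p ≤ 2 ^ p * (ε ^ p + |f x i - (M.mulVec x i + c i)| ^ p) := by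
          intro i
          have e3 : |v x i| ≤ ε + |f x i - (M.mulVec x i + c i)| := by
            have : v x i = (g x i - f x i) + (f x i - (M.mulVec x i + c i)) := by
              simp only [hv]; ring
            rw [this]
            exact (abs_add_le _ _).trans (by linarith [hclose x hx i])
          calc |v x i| ^ p ≤ (ε + |f x i - (M.mulVec x i + c i)|) ^ p :=
                Real.rpow_le_rpow (abs_nonneg _) e3 hp0.le
            _ ≤ _ := add_rpow_le_sc hε.le (abs_nonneg _) hp0.le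
        calc ∑ i, |v x i| ^ p ≤ ∑ i, 2 ^ p * (ε ^ p + |f x i - (M.mulVec x i + c i)| ^ p) :=
              Finset.sum_le_sum fun i _ => e2 i
          _ = _ := by
              rw [← Finset.mul_sum, Finset.sum_add_distrib, Finset.sum_const, Finset.card_univ,
                Fintype.card_fin, nsmul_eq_mul]
              push_cast
              ring
    refine e1.trans ?_
    rw [integral_const_mul, integral_add (hconst _) (hcf.integrableOn_compact hKc), setIntegral_const, smul_eq_mul]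
    have e4 : V * ((m + 1) * ε ^ p) + ∫ x in closedBall (0 : E (m+1)) 1,
        ∑ i, |f x i - (M.mulVec x i + c i)| ^ p ≤ (1 + (m + 1) * V) * ε ^ p := by
      calc V * ((m + 1) * ε ^ p) + ∫ x in closedBall (0 : E (m+1)) 1,
            ∑ i, |f x i - (M.mulVec x i + c i)| ^ p ≤ V * ((m + 1) * ε ^ p) + ε ^ p :=
            add_le_add_right hfA _
        _ = _ := by ring
    calc _ ≤ 2 ^ p * ((1 + (m + 1) * V) * ε ^ p) := mul_le_mul_of_nonneg_left e4 h2p.le
      _ = _ := by rw [hC1]; ring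
  -- (2)
  have hB2 : ∫ x in closedBall (0 : E (m+1)) 1, sn (jac v x) ^ p ≤ C2 * Λ ^ p := by
    have e1 : ∫ x in closedBall (0 : E (m+1)) 1, sn (jac v x) ^ p ≤
        ∫ x in closedBall (0 : E (m+1)) 1, 2 ^ p * (sn (jac g x) ^ p + Λ ^ p) := by
      refine setIntegral_mono_on ((hcsn hv1).continuousOn.integrableOn_compact hKc) ?_
        measurableSet_closedBall ?_
      · exact (continuous_const.mul ((hcsn hg1).add continuous_const)).continuousOn.integrableOn_compact hKc
      · intro x hx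
        calc sn (jac v x) ^ p ≤ (sn (jac g x) + Λ) ^ p :=
              Real.rpow_le_rpow (sn_nonneg _)
                ((sn_jac_sub_sc hg1 M c x).trans (by linarith)) hp0.le
          _ ≤ _ := add_rpow_le_sc (sn_nonneg _) hΛ0.le hp0.le
    refine e1.trans ?_
    rw [integral_const_mul, integral_add ((hcsn hg1).continuousOn.integrableOn_compact hKc) (hconst _),
      setIntegral_const, smul_eq_mul]
    have e4 : (∫ x in closedBall (0 : E (m+1)) 1, sn (jac g x) ^ p) + V * Λ ^ p ≤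
        (2 + V) * Λ ^ p := by
      have := hk1.le
      nlinarith
    calc _ ≤ 2 ^ p * ((2 + V) * Λ ^ p) := mul_le_mul_of_nonneg_left e4 h2p.le
      _ = _ := by rw [hC2]; ring
  -- (3)
  set h : ℝ := ε ^ (1 / 8 : ℝ) with hh
  set δ : ℝ := ε ^ (1 / 2 : ℝ) with hδ
  have hh0 : 0 < h := Real.rpow_pos_of_pos hε _
  have hδ0 : 0 < δ := Real.rpow_pos_of_pos hε _
  have hδh : δ ≤ h := Real.rpow_le_rpow_of_exponent_ge hε hε1' (by norm_num)
  have hh4 : h ≤ 1 / 4 := by
    rw [hh]
    calc ε ^ (1 / 8 : ℝ) ≤ (((1 : ℝ) / 4) ^ 8) ^ (1 / 8 : ℝ) :=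
          Real.rpow_le_rpow hε.le hε1 (by norm_num)
      _ = 1 / 4 := by
          rw [← Real.rpow_natCast, ← Real.rpow_mul (by norm_num)]
          norm_num
  obtain ⟨s, hs, hsv⟩ := hface v hv1 x0 h δ hδ0 hδh
  have hx0' : ‖x0‖ ≤ 1 / 2 := by simpa using hx0
  have hsub : closedBall x0 (2 * h) ⊆ closedBall (0 : E (m+1)) 1 := by
    intro y hy
    have h1 : dist y x0 ≤ 2 * h := hy
    have h2 : dist x0 0 ≤ 1 / 2 := by rwa [dist_zero_right]
    have h3 := dist_triangle y x0 0
    show dist y 0 ≤ 1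
    linarith
  have hs0 : 0 < s := hh0.trans hs.1
  have hsub2 : closedBall x0 s ⊆ closedBall (0 : E (m+1)) 1 :=
    (closedBall_subset_closedBall hs.2.le).trans hsub
  set t : ℝ := ε ^ (1 / (8 * ((m + 1 : ℕ) : ℝ))) with ht
  have ht0 : 0 < t := Real.rpow_pos_of_pos hε _
  have hvy : ∀ y ∈ sphere x0 s, ∀ i, |v y i| ≤ C3 * Λ * t := by
    intro y hy i
    have e1 := hsv y hy i
    have e2 : ∫ x in closedBall x0 (2 * h), ∑ i, |v x i| ^ p ≤ C1 * ε ^ p := by
      refine le_trans ?_ hB1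
      refine setIntegral_mono_set (hcv.continuousOn.integrableOn_compact hKc) ?_ hsub.eventuallyLE
      exact Filter.Eventually.of_forall fun x =>
        Finset.sum_nonneg fun i _ => Real.rpow_nonneg (abs_nonneg _) _
    have e3 : ∫ x in closedBall x0 (2 * h), sn (jac v x) ^ p ≤ C2 * Λ ^ p := by
      refine le_trans ?_ hB2
      refine setIntegral_mono_set ((hcsn hv1).continuousOn.integrableOn_compact hKc) ?_ hsub.eventuallyLE
      exact Filter.Eventually.of_forall fun x => Real.rpow_nonneg (sn_nonneg _) _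
    have e4 : |v y i| ^ p ≤ C0 / h * (δ ^ (-(m : ℝ)) * (C1 * ε ^ p) +
        δ ^ (p - m) * (C2 * Λ ^ p)) := by
      refine e1.trans ?_
      have f1 : 0 ≤ δ ^ (-(m : ℝ)) := Real.rpow_nonneg hδ0.le _
      have f2 : 0 ≤ δ ^ (p - (m : ℝ)) := Real.rpow_nonneg hδ0.le _
      have f3 : 0 ≤ C0 / h := by positivity
      refine mul_le_mul_of_nonneg_left ?_ f3
      exact add_le_add (mul_le_mul_of_nonneg_left e2 f1) (mul_le_mul_of_nonneg_left e3 f2)
    have e5 : C0 / h * (δ ^ (-(m : ℝ)) * (C1 * ε ^ p)) = C0 * C1 * ε ^ ((m : ℝ) / 2 + 3 / 8) := by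
      have : ε ^ ((m : ℝ) / 2 + 3 / 8) = h⁻¹ * (δ ^ (-(m : ℝ)) * ε ^ p) := by
        rw [hh, hδ, ← Real.rpow_neg hε.le, ← Real.rpow_mul hε.le, ← Real.rpow_add hε,
          ← Real.rpow_add hε, hpm]
        congr 1
        ring
      rw [this, div_eq_mul_inv]
      ring
    have e6 : C0 / h * (δ ^ (p - (m : ℝ)) * (C2 * Λ ^ p)) = C0 * C2 * Λ ^ p * ε ^ (1 / 8 : ℝ) := by
      have : ε ^ (1 / 8 : ℝ) = h⁻¹ * δ ^ (p - (m : ℝ)) := by
        rw [hh, hδ, ← Real.rpow_neg hε.le, ← Real.rpow_mul hε.le, ← Real.rpow_add hε, hpm]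
        congr 1
        ring
      rw [this, div_eq_mul_inv]
      ring
    have e7 : ε ^ ((m : ℝ) / 2 + 3 / 8) ≤ ε ^ (1 / 8 : ℝ) :=
      Real.rpow_le_rpow_of_exponent_ge hε hε1' (by linarith)
    have e8 : ε ^ (1 / 8 : ℝ) ≤ t ^ p := by
      rw [ht, ← Real.rpow_mul hε.le]
      refine Real.rpow_le_rpow_of_exponent_ge hε hε1' ?_
      rw [hpm]
      push_cast
      rw [one_div_mul_eq_div, div_le_div_iff₀ (by positivity) (by norm_num)]
      linarith
    have e9 : |v y i| ^ p ≤ (C3 * Λ * t) ^ p := by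
      have f0 : 0 < ε ^ (1 / 8 : ℝ) := Real.rpow_pos_of_pos hε _
      calc |v y i| ^ p ≤ C0 * C1 * ε ^ ((m : ℝ) / 2 + 3 / 8) + C0 * C2 * Λ ^ p * ε ^ (1 / 8 : ℝ) := by
            rw [← e5, ← e6, ← mul_add]; exact e4
        _ ≤ C0 * C1 * (Λ ^ p * ε ^ (1 / 8 : ℝ)) + C0 * C2 * Λ ^ p * ε ^ (1 / 8 : ℝ) := by
            refine add_le_add_left (mul_le_mul_of_nonneg_left ?_ (by positivity)) _
            refine e7.trans ?_
            nlinarith
        _ = C0 * (C1 + C2) * Λ ^ p * ε ^ (1 / 8 : ℝ) := by ring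
        _ ≤ C0 * (C1 + C2) * Λ ^ p * t ^ p :=
            mul_le_mul_of_nonneg_left e8 (by positivity)
        _ = (C3 * Λ * t) ^ p := by
            rw [Real.mul_rpow (by positivity) ht0.le, Real.mul_rpow hC3p.le hΛ0.le, hC3e]
    exact (Real.rpow_le_rpow_iff (abs_nonneg _) (by positivity) hp0).1 e9
  -- (4)
  have hεt : ε ≤ t := by
    conv_lhs => rw [← Real.rpow_one ε]
    refine Real.rpow_le_rpow_of_exponent_ge hε hε1' ?_
    rw [div_le_one (by positivity)]
    push_cast
    linarith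
  have hht : h ≤ t := by
    refine Real.rpow_le_rpow_of_exponent_ge hε hε1' ?_
    rw [div_le_div_iff₀ (by positivity) (by norm_num)]
    push_cast
    linarith
  have hfy : ∀ y ∈ sphere x0 s, ∀ i, |f y i - (M.mulVec x0 i + c i)| ≤ (3 + C3) * Λ * t := by
    intro y hy i
    have hyK : y ∈ closedBall (0 : E (m+1)) 1 := hsub2 (sphere_subset_closedBall hy)
    have e1 := hclose y hyK i
    have e2 := hvy y hy i
    have e3 := mulVec_le_sc M (y - x0) i
    have e4 : M.mulVec (y - x0) i = M.mulVec y i - M.mulVec x0 i := by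
      rw [Matrix.mulVec_sub]; rfl
    have e5 : ‖y - x0‖ = s := by rw [← dist_eq_norm]; exact hy
    rw [e4, e5] at e3
    have e6 : f y i - (M.mulVec x0 i + c i) =
        (f y i - g y i) + v y i + (M.mulVec y i - M.mulVec x0 i) := by
      simp only [hv]; ring
    rw [e6]
    have e7 : sn M * s ≤ Λ * (2 * h) :=
      mul_le_mul hM hs.2.le hs0.le hΛ0.le
    have e8 : Λ * (2 * h) ≤ 2 * Λ * t := by nlinarith
    have e9 : ε ≤ Λ * t := by nlinarith
    rw [abs_sub_comm] at e1
    calc |(f y i - g y i) + v y i + (M.mulVec y i - M.mulVec x0 i)|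
        ≤ |(f y i - g y i) + v y i| + |M.mulVec y i - M.mulVec x0 i| := abs_add_le _ _
      _ ≤ |f y i - g y i| + |v y i| + |M.mulVec y i - M.mulVec x0 i| := by
          have := abs_add_le (f y i - g y i) (v y i)
          linarith
      _ ≤ Λ * t + C3 * Λ * t + 2 * Λ * t := by linarith
      _ = _ := by ring
  have hn2 : 2 ≤ m + 1 := by omega
  have hmx := mono_max hfd hn2 hs0 (hsub2.trans hΩ) i (M.mulVec x0 i + c i + (3 + C3) * Λ * t)
    (fun y hy => by have := (abs_le.1 (hfy y hy i)).2; linarith) x0 (mem_closedBall_self hs0.le)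
  have hmn := mono_min hfd hn2 hs0 (hsub2.trans hΩ) i (M.mulVec x0 i + c i - (3 + C3) * Λ * t)
    (fun y hy => by have := (abs_le.1 (hfy y hy i)).1; linarith) x0 (mem_closedBall_self hs0.le)
  rw [abs_le]
  constructor <;> linarith

end H930.BL.XSupClose

namespace H930.BL

export XSupClose (sup_close)

end H930.BL
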