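import Pool.Agent.Helper930.BL.Defs2

set_option autoImplicit false

open MeasureTheory Metric Set Filter Topology
open scoped ENNReal NNReal ContDiff

namespace H930.BL.XTrA

variable {n : ℕ}


/-- outer distortion with respect to the Euclidean operator norm -/
noncomputable def ko {n : ℕ} (M : Matrix (Fin n) (Fin n) ℝ) : ℝ :=
  if M.det = 0 then 1 else ‖Matrix.toEuclideanCLM (𝕜 := ℝ) M‖ ^ n / M.det


lemma entry_le_norm (M : Matrix (Fin n) (Fin n) ℝ) (i j : Fin n) :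
    |M i j| ≤ ‖Matrix.toEuclideanCLM (𝕜 := ℝ) M‖ := by
  have h1 : (Matrix.toEuclideanCLM (𝕜 := ℝ) M (EuclideanSpace.single j (1 : ℝ))) i = M i j := by
    rw [Matrix.ofLp_toEuclideanCLM]
    simp
  rw [← h1, ← Real.norm_eq_abs]
  calc ‖(Matrix.toEuclideanCLM (𝕜 := ℝ) M (EuclideanSpace.single j (1 : ℝ))) i‖
      ≤ ‖Matrix.toEuclideanCLM (𝕜 := ℝ) M (EuclideanSpace.single j (1 : ℝ))‖ :=
        PiLp.norm_apply_le _ i
    _ ≤ ‖Matrix.toEuclideanCLM (𝕜 := ℝ) M‖ * ‖(EuclideanSpace.single j (1 : ℝ))‖ :=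
        ContinuousLinearMap.le_opNorm _ _
    _ = _ := by simp

lemma euclid_norm_le_sum (v : EuclideanSpace ℝ (Fin n)) : ‖v‖ ≤ ∑ i, |v i| := by
  have h1 : v = ∑ i, EuclideanSpace.single i (v i) := by
    ext k
    simp [Finset.sum_apply, Pi.single_apply]
  calc ‖v‖ = ‖∑ i, EuclideanSpace.single i (v i)‖ := by rw [← h1]
    _ ≤ ∑ i, ‖EuclideanSpace.single i (v i)‖ := norm_sum_le _ _
    _ = ∑ i, |v i| := by simp

lemma norm_le_sn (M : Matrix (Fin n) (Fin n) ℝ) :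
    ‖Matrix.toEuclideanCLM (𝕜 := ℝ) M‖ ≤ sn M := by
  refine ContinuousLinearMap.opNorm_le_bound _ (sn_nonneg M) fun v => ?_
  refine (euclid_norm_le_sum _).trans ?_
  unfold sn
  rw [Finset.sum_mul]
  refine Finset.sum_le_sum fun i _ => ?_
  have h1 : (Matrix.toEuclideanCLM (𝕜 := ℝ) M v) i = ∑ j, M i j * v j := by
    rw [Matrix.ofLp_toEuclideanCLM]
    simp [Matrix.mulVec, dotProduct]
  rw [h1, Finset.sum_mul]
  refine (Finset.abs_sum_le_sum_abs _ _).trans (Finset.sum_le_sum fun j _ => ?_)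
  rw [abs_mul]
  refine mul_le_mul_of_nonneg_left ?_ (abs_nonneg _)
  rw [← Real.norm_eq_abs]
  exact PiLp.norm_apply_le v j

lemma adj_entry_le (hn : 2 ≤ n) (M : Matrix (Fin n) (Fin n) ℝ) {N : ℝ} (hN0 : 0 ≤ N)
    (hN : ∀ i j, |M i j| ≤ N) (i j : Fin n) :
    |M.adjugate i j| ≤ (Nat.factorial n : ℝ) * N ^ (n - 1) := by
  classical
  rw [Matrix.adjugate_apply, Matrix.det_apply]
  refine (Finset.abs_sum_le_sum_abs _ _).trans ?_
  have hterm : ∀ σ ∈ (Finset.univ : Finset (Equiv.Perm (Fin n))),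
      |Equiv.Perm.sign σ • ∏ k, (M.updateRow j (Pi.single i 1)) (σ k) k| ≤ N ^ (n - 1) := by
    intro σ _
    have hs : |Equiv.Perm.sign σ • ∏ k, (M.updateRow j (Pi.single i 1)) (σ k) k|
        = |∏ k, (M.updateRow j (Pi.single i 1)) (σ k) k| := by
      rcases Int.units_eq_one_or (Equiv.Perm.sign σ) with h | h <;> simp [h]
    rw [hs, ← Finset.mul_prod_erase Finset.univ _ (Finset.mem_univ (σ.symm j)), abs_mul,
      Finset.abs_prod]
    have h1 : |(M.updateRow j (Pi.single i 1)) (σ (σ.symm j)) (σ.symm j)| ≤ 1 := by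
      rw [Equiv.apply_symm_apply, Matrix.updateRow_self, Pi.single_apply]
      split_ifs <;> simp
    have h2 : ∏ k ∈ Finset.univ.erase (σ.symm j),
        |(M.updateRow j (Pi.single i 1)) (σ k) k| ≤ N ^ (n - 1) := by
      calc ∏ k ∈ Finset.univ.erase (σ.symm j), |(M.updateRow j (Pi.single i 1)) (σ k) k|
          ≤ ∏ k ∈ Finset.univ.erase (σ.symm j), N := by
            refine Finset.prod_le_prod (fun _ _ => abs_nonneg _) fun k hk => ?_
            have hk1 : σ k ≠ j := by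
              intro h
              exact (Finset.mem_erase.1 hk).1 (by rw [← h, Equiv.symm_apply_apply])
            rw [Matrix.updateRow_ne hk1]
            exact hN _ _
        _ = N ^ (n - 1) := by
            rw [Finset.prod_const, Finset.card_erase_of_mem (Finset.mem_univ _), Finset.card_univ,
              Fintype.card_fin]
    calc |(M.updateRow j (Pi.single i 1)) (σ (σ.symm j)) (σ.symm j)| *
        ∏ k ∈ Finset.univ.erase (σ.symm j), |(M.updateRow j (Pi.single i 1)) (σ k) k|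
        ≤ 1 * N ^ (n - 1) :=
          mul_le_mul h1 h2 (Finset.prod_nonneg fun _ _ => abs_nonneg _) zero_le_one
      _ = _ := one_mul _
  calc _ ≤ ∑ _σ : Equiv.Perm (Fin n), N ^ (n - 1) := Finset.sum_le_sum hterm
    _ = _ := by
      rw [Finset.sum_const, Finset.card_univ, Fintype.card_perm, Fintype.card_fin, nsmul_eq_mul]

theorem kd_kk_le {n : ℕ} (hn : 2 ≤ n) : ∃ c : ℝ, 1 ≤ c ∧ ∀ M : Matrix (Fin n) (Fin n) ℝ,
    0 ≤ M.det → kd M ≤ c * ko M ∧ kk M ≤ c * ko M ∧ 0 ≤ ko M := by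
  classical
  set c1 : ℝ := (n : ℝ) ^ 2 * (Nat.factorial n : ℝ) with hc1
  have hn1 : (2 : ℝ) ≤ n := by exact_mod_cast hn
  have hfac : (1 : ℝ) ≤ (Nat.factorial n : ℝ) := by exact_mod_cast Nat.one_le_iff_ne_zero.2 (Nat.factorial_ne_zero n)
  have hc1' : 1 ≤ c1 := by
    rw [hc1]
    nlinarith
  have hc10 : 0 ≤ c1 := by linarith
  have hA : 1 ≤ c1 ^ n := one_le_pow₀ hc1'
  have hB : 1 ≤ ((n : ℝ) ^ 2) ^ n := one_le_pow₀ (by nlinarith)
  refine ⟨((n : ℝ) ^ 2) ^ n + c1 ^ n, by linarith, fun M hM => ?_⟩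
  by_cases hd : M.det = 0
  · simp only [kd, kk, ko, hd, if_true, Real.one_rpow, mul_one]
    refine ⟨by linarith, by linarith, zero_le_one⟩
  have hpos : 0 < M.det := lt_of_le_of_ne hM (Ne.symm hd)
  set N : ℝ := ‖Matrix.toEuclideanCLM (𝕜 := ℝ) M‖ with hNdef
  have hN0 : 0 ≤ N := norm_nonneg _
  have hN : ∀ i j, |M i j| ≤ N := entry_le_norm M
  have hko : ko M = N ^ n / M.det := by simp [ko, hd, hNdef]
  have hko0 : 0 ≤ ko M := by rw [hko]; positivity
  have hsn : sn M ≤ (n : ℝ) ^ 2 * N := by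
    unfold sn
    calc ∑ i, ∑ j, |M i j| ≤ ∑ _i : Fin n, ∑ _j : Fin n, N :=
          Finset.sum_le_sum fun i _ => Finset.sum_le_sum fun j _ => hN i j
      _ = (n : ℝ) ^ 2 * N := by simp; ring
  refine ⟨?_, ?_, hko0⟩
  · have h1 : kd M ≤ ((n : ℝ) ^ 2) ^ n * ko M := by
      rw [hko]
      simp only [kd, hd, if_false]
      rw [mul_div_assoc', div_le_div_iff_of_pos_right hpos, ← mul_pow]
      exact pow_le_pow_left₀ (sn_nonneg M) hsn n
    have h2 : 0 ≤ c1 ^ n * ko M := by positivity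
    linarith
  · have hadj : ‖Matrix.toEuclideanCLM (𝕜 := ℝ) M.adjugate‖ ≤ c1 * N ^ (n - 1) := by
      refine (norm_le_sn _).trans ?_
      unfold sn
      calc ∑ i, ∑ j, |M.adjugate i j|
          ≤ ∑ _i : Fin n, ∑ _j : Fin n, (Nat.factorial n : ℝ) * N ^ (n - 1) :=
            Finset.sum_le_sum fun i _ => Finset.sum_le_sum fun j _ => adj_entry_le hn M hN0 hN i j
        _ = c1 * N ^ (n - 1) := by rw [hc1]; simp; ring
    have hm : 0 < (n : ℝ) - 1 := by linarith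
    have hkk : kk M ≤ c1 ^ n * ko M := by
      have hX : ‖Matrix.toEuclideanCLM (𝕜 := ℝ) M.adjugate‖ ^ n / M.det ^ (n - 1)
          ≤ (c1 ^ n * ko M) ^ (n - 1) := by
        rw [hko, mul_pow, div_pow, mul_div_assoc', div_le_div_iff_of_pos_right (pow_pos hpos _)]
        calc ‖Matrix.toEuclideanCLM (𝕜 := ℝ) M.adjugate‖ ^ n ≤ (c1 * N ^ (n - 1)) ^ n :=
              pow_le_pow_left₀ (norm_nonneg _) hadj n
          _ = c1 ^ n * (N ^ n) ^ (n - 1) := by
              rw [mul_pow, ← pow_mul, ← pow_mul, mul_comm (n - 1) n]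
          _ ≤ (c1 ^ n) ^ (n - 1) * (N ^ n) ^ (n - 1) := by
              refine mul_le_mul_of_nonneg_right ?_ (by positivity)
              exact le_self_pow₀ hA (by omega)
      have hkkdef : kk M = (‖Matrix.toEuclideanCLM (𝕜 := ℝ) M.adjugate‖ ^ n /
          M.det ^ (n - 1)) ^ ((1 : ℝ) / ((n : ℝ) - 1)) := by
        simp [kk, hd]
      rw [hkkdef]
      have hY0 : 0 ≤ c1 ^ n * ko M := by positivity
      calc (‖Matrix.toEuclideanCLM (𝕜 := ℝ) M.adjugate‖ ^ n /
          M.det ^ (n - 1)) ^ ((1 : ℝ) / ((n : ℝ) - 1))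
          ≤ ((c1 ^ n * ko M) ^ (n - 1)) ^ ((1 : ℝ) / ((n : ℝ) - 1)) :=
            Real.rpow_le_rpow (by positivity) hX (by positivity)
        _ = c1 ^ n * ko M := by
            have h5 : ((n : ℝ) - 1) = ((n - 1 : ℕ) : ℝ) := by
              rw [Nat.cast_sub (by omega)]; simp
            rw [h5, one_div, Real.pow_rpow_inv_natCast hY0 (by omega)]
    have h2 : 0 ≤ ((n : ℝ) ^ 2) ^ n * ko M := by positivity
    linarith

end H930.BL.XTrA

namespace H930.BL

export XTrA (kd_kk_le)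

end H930.BL
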