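import Pool.Agent.Helper930.BL.TrA
import Pool.Agent.Helper930.BL.Gid

set_option autoImplicit false

open MeasureTheory Metric Set Filter Topology
open scoped ENNReal NNReal ContDiff

namespace H930.BL.XTrB

variable {n : ℕ}


open WithLp

lemma me_toLp (n : ℕ) : MeasurableEmbedding (@toLp 2 (Fin n → ℝ)) :=
  (MeasurableEquiv.toLp 2 (Fin n → ℝ)).measurableEmbedding

lemma mp_toLp (n : ℕ) : MeasurePreserving (@toLp 2 (Fin n → ℝ)) volume volume :=
  PiLp.volume_preserving_toLp (Fin n)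

lemma preim_ball (n : ℕ) (R : ℝ) :
    (@toLp 2 (Fin n → ℝ)) ⁻¹' (Metric.ball (0 : EuclideanSpace ℝ (Fin n)) R) = Bn n R := by
  ext x
  simp [Bn, en, EuclideanSpace.norm_eq]

lemma mp_restrict (n : ℕ) : MeasurePreserving (@toLp 2 (Fin n → ℝ))
    (volume.restrict (Bn n 1))
    (volume.restrict (Metric.ball (0 : EuclideanSpace ℝ (Fin n)) 1)) := by
  rw [← preim_ball]
  exact (mp_toLp n).restrict_preimage_emb (me_toLp n) _

lemma cont_toLp (n : ℕ) : Continuous (@toLp 2 (Fin n → ℝ)) := PiLp.continuous_toLp 2 _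

lemma cont_ofLp (n : ℕ) : Continuous (@ofLp 2 (Fin n → ℝ)) := PiLp.continuous_ofLp 2 _

lemma isOpen_Bn (n : ℕ) (R : ℝ) : IsOpen (Bn n R) := by
  rw [← preim_ball]
  exact Metric.isOpen_ball.preimage (cont_toLp n)

/-- matrix of an operator -/
noncomputable def mat {n : ℕ} (L : EuclideanSpace ℝ (Fin n) →L[ℝ] EuclideanSpace ℝ (Fin n)) :
    Matrix (Fin n) (Fin n) ℝ := Matrix.of fun i j => L (EuclideanSpace.single j 1) i

lemma mat_toCLM {n : ℕ} (L : EuclideanSpace ℝ (Fin n) →L[ℝ] EuclideanSpace ℝ (Fin n)) :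
    Matrix.toEuclideanCLM (𝕜 := ℝ) (mat L) = L := by
  ext x i
  have h1 : x = ∑ j, x j • (EuclideanSpace.single j (1 : ℝ) : EuclideanSpace ℝ (Fin n)) := by
    ext i
    simp [Finset.sum_apply, Pi.single_apply]
  have h2 : L x i = ∑ j, x j * L (EuclideanSpace.single j 1) i := by
    conv_lhs => rw [h1]
    simp [map_sum]
  rw [h2]
  rw [Matrix.ofLp_toEuclideanCLM]
  simp only [Matrix.mulVec, dotProduct, mat, Matrix.of_apply]
  exact Finset.sum_congr rfl fun j _ => mul_comm _ _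

lemma mat_det {n : ℕ} (L : EuclideanSpace ℝ (Fin n) →L[ℝ] EuclideanSpace ℝ (Fin n)) :
    LinearMap.det (L : EuclideanSpace ℝ (Fin n) →ₗ[ℝ] EuclideanSpace ℝ (Fin n)) = (mat L).det := by
  conv_lhs => rw [← mat_toCLM L]
  rw [Matrix.coe_toEuclideanCLM_eq_toEuclideanLin, Matrix.toEuclideanLin_eq_toLin]
  exact LinearMap.det_toLin _ _

lemma mat_zero_iff {n : ℕ} (L : EuclideanSpace ℝ (Fin n) →L[ℝ] EuclideanSpace ℝ (Fin n)) :
    L = 0 → mat L = 0 := by
  rintro rfl
  ext i j
  simp [mat]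

lemma ko_mat {n : ℕ} (L : EuclideanSpace ℝ (Fin n) →L[ℝ] EuclideanSpace ℝ (Fin n)) :
    (if LinearMap.det (L : EuclideanSpace ℝ (Fin n) →ₗ[ℝ] EuclideanSpace ℝ (Fin n)) = 0
           then (1 : ℝ)
           else ‖L‖ ^ n / LinearMap.det
              (L : EuclideanSpace ℝ (Fin n) →ₗ[ℝ] EuclideanSpace ℝ (Fin n))) = ko (mat L) := by
  rw [ko, mat_det, mat_toCLM]

lemma meas_pi {n : ℕ} {D : E n → Matrix (Fin n) (Fin n) ℝ}
    (hD : ∀ i j, Measurable fun x => D x i j) :
    @Measurable _ (Fin n → Fin n → ℝ) _ _ D :=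
  measurable_pi_iff.2 fun i => measurable_pi_iff.2 fun j => hD i j

lemma meas_det {n : ℕ} {D : E n → Matrix (Fin n) (Fin n) ℝ}
    (hD : ∀ i j, Measurable fun x => D x i j) : Measurable fun x => (D x).det := by
  have h : @Continuous (Fin n → Fin n → ℝ) ℝ _ _ (fun M => Matrix.det (Matrix.of M)) :=
    Continuous.matrix_det (continuous_id (X := Matrix (Fin n) (Fin n) ℝ))
  exact h.measurable.comp (meas_pi hD)

lemma meas_sn {n : ℕ} {D : E n → Matrix (Fin n) (Fin n) ℝ}
    (hD : ∀ i j, Measurable fun x => D x i j) : Measurable fun x => sn (D x) := by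
  unfold sn
  exact Finset.measurable_sum _ fun i _ => Finset.measurable_sum _ fun j _ => (hD i j).abs

lemma cont_nrm {n : ℕ} : @Continuous (Fin n → Fin n → ℝ) ℝ _ _
    (fun M => ‖Matrix.toEuclideanCLM (𝕜 := ℝ) (Matrix.of M)‖) := by
  refine continuous_norm.comp ?_
  let A : (Fin n → Fin n → ℝ) →ₗ[ℝ] (EuclideanSpace ℝ (Fin n) →L[ℝ] EuclideanSpace ℝ (Fin n)) :=
    { toFun := fun M => Matrix.toEuclideanCLM (𝕜 := ℝ) (Matrix.of M)
      map_add' := fun M N => by
        show Matrix.toEuclideanCLM (𝕜 := ℝ) (Matrix.of (M + N)) = _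
        rw [← Matrix.of_add_of, map_add]
      map_smul' := fun c M => by
        show Matrix.toEuclideanCLM (𝕜 := ℝ) (Matrix.of (c • M)) = _
        rw [← Matrix.smul_of, map_smul]; rfl }
  exact A.continuous_of_finiteDimensional

lemma meas_nrm {n : ℕ} {D : E n → Matrix (Fin n) (Fin n) ℝ}
    (hD : ∀ i j, Measurable fun x => D x i j) :
    Measurable fun x => ‖Matrix.toEuclideanCLM (𝕜 := ℝ) (D x)‖ :=
  cont_nrm.measurable.comp (meas_pi hD)

lemma meas_nrm_adj {n : ℕ} {D : E n → Matrix (Fin n) (Fin n) ℝ}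
    (hD : ∀ i j, Measurable fun x => D x i j) :
    Measurable fun x => ‖Matrix.toEuclideanCLM (𝕜 := ℝ) (D x).adjugate‖ := by
  have h : @Continuous (Fin n → Fin n → ℝ) (Fin n → Fin n → ℝ) _ _
      (fun M => (Matrix.adjugate (Matrix.of M) : Matrix (Fin n) (Fin n) ℝ)) :=
    Continuous.matrix_adjugate (continuous_id (X := Matrix (Fin n) (Fin n) ℝ))
  exact (cont_nrm.comp h).measurable.comp (meas_pi hD)

lemma meas_kd {n : ℕ} {D : E n → Matrix (Fin n) (Fin n) ℝ}
    (hD : ∀ i j, Measurable fun x => D x i j) : Measurable fun x => kd (D x) := by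
  unfold kd
  exact Measurable.ite ((measurableSet_singleton (0:ℝ)).preimage (meas_det hD)) measurable_const
    (((meas_sn hD).pow_const n).div (meas_det hD))

lemma meas_ko {n : ℕ} {D : E n → Matrix (Fin n) (Fin n) ℝ}
    (hD : ∀ i j, Measurable fun x => D x i j) : Measurable fun x => ko (D x) := by
  unfold ko
  exact Measurable.ite ((measurableSet_singleton (0:ℝ)).preimage (meas_det hD)) measurable_const
    (((meas_nrm hD).pow_const n).div (meas_det hD))

lemma meas_kk {n : ℕ} {D : E n → Matrix (Fin n) (Fin n) ℝ}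
    (hD : ∀ i j, Measurable fun x => D x i j) : Measurable fun x => kk (D x) := by
  unfold kk
  exact (Measurable.ite ((measurableSet_singleton (0:ℝ)).preimage (meas_det hD)) measurable_const
    (((meas_nrm_adj hD).pow_const n).div ((meas_det hD).pow_const (n-1)))).pow_const _

lemma kd_nonneg {n : ℕ} {M : Matrix (Fin n) (Fin n) ℝ} (h : 0 ≤ M.det) : 0 ≤ kd M := by
  unfold kd
  split_ifs
  · exact zero_le_one
  · exact div_nonneg (pow_nonneg (sn_nonneg M) _) h

lemma pow_le_fac_exp {x : ℝ} (hx : 0 ≤ x) {lam : ℝ} (hl : 0 < lam) (q : ℕ) :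
    x ^ q ≤ (q.factorial : ℝ) / lam ^ q * Real.exp (lam * x) := by
  have h := Real.pow_div_factorial_le_exp (lam * x) (by positivity) q
  rw [mul_pow, div_le_iff₀ (by positivity)] at h
  rw [div_mul_eq_mul_div, le_div_iff₀ (by positivity)]
  linarith

lemma exists_D {n : ℕ}
    {Df : EuclideanSpace ℝ (Fin n) →
        (EuclideanSpace ℝ (Fin n) →L[ℝ] EuclideanSpace ℝ (Fin n))}
    (h : LocallyIntegrableOn Df (Metric.ball 0 1)) :
    ∃ D : E n → Matrix (Fin n) (Fin n) ℝ, (∀ i j, Measurable fun x => D x i j) ∧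
      ∀ᵐ x ∂(volume.restrict (Bn n 1)), D x = mat (Df (toLp 2 x)) := by
  have h1 : AEStronglyMeasurable Df
      (volume.restrict (Metric.ball (0 : EuclideanSpace ℝ (Fin n)) 1)) := h.aestronglyMeasurable
  have h2 := h1.comp_measurePreserving (mp_restrict n)
  have h3 : ∀ i j, AEMeasurable (fun x : E n => mat (Df (toLp 2 x)) i j)
      (volume.restrict (Bn n 1)) := by
    intro i j
    have hc : Continuous fun L : (EuclideanSpace ℝ (Fin n) →L[ℝ] EuclideanSpace ℝ (Fin n)) =>
        L (EuclideanSpace.single j 1) i := by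
      have : Continuous fun L : (EuclideanSpace ℝ (Fin n) →L[ℝ] EuclideanSpace ℝ (Fin n)) =>
        L (EuclideanSpace.single j 1) := continuous_id.clm_apply continuous_const
      exact (EuclideanSpace.proj (𝕜 := ℝ) i).continuous.comp this
    exact (hc.comp_aestronglyMeasurable h2).aemeasurable
  choose D' hm he using h3
  refine ⟨fun x => Matrix.of fun i j => D' i j x, fun i j => hm i j, ?_⟩
  have h4 : ∀ᵐ x ∂(volume.restrict (Bn n 1)), ∀ i j, mat (Df (toLp 2 x)) i j = D' i j x := by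
    rw [ae_all_iff]; intro i
    rw [ae_all_iff]; intro j
    exact he i j
  filter_upwards [h4] with x hx
  ext i j
  exact (hx i j).symm

/-- integrability and bound of the exponential -/
lemma exp_int {n : ℕ} {lam A : ℝ}
    {Df : EuclideanSpace ℝ (Fin n) →
        (EuclideanSpace ℝ (Fin n) →L[ℝ] EuclideanSpace ℝ (Fin n))}
    {D : E n → Matrix (Fin n) (Fin n) ℝ} (hm : ∀ i j, Measurable fun x => D x i j)
    (hD : ∀ᵐ x ∂(volume.restrict (Bn n 1)), D x = mat (Df (toLp 2 x)))
    (hA : (∫⁻ x in Metric.ball (0 : EuclideanSpace ℝ (Fin n)) 1,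
        ENNReal.ofReal (Real.exp (lam *
          (if LinearMap.det
              ((Df x : EuclideanSpace ℝ (Fin n) →L[ℝ] EuclideanSpace ℝ (Fin n)) :
                EuclideanSpace ℝ (Fin n) →ₗ[ℝ] EuclideanSpace ℝ (Fin n)) = 0
           then 1
           else ‖Df x‖ ^ n / LinearMap.det
              ((Df x : EuclideanSpace ℝ (Fin n) →L[ℝ] EuclideanSpace ℝ (Fin n)) :
                EuclideanSpace ℝ (Fin n) →ₗ[ℝ] EuclideanSpace ℝ (Fin n))))))
        ≤ ENNReal.ofReal A) :
    IntegrableOn (fun x => Real.exp (lam * ko (D x))) (Bn n 1) ∧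
    ∫ x in Bn n 1, Real.exp (lam * ko (D x)) ≤ max A 0 := by
  simp only [ko_mat] at hA
  have h1 := (mp_restrict n).lintegral_comp_emb (me_toLp n)
    (fun y => ENNReal.ofReal (Real.exp (lam * ko (mat (Df y)))))
  have h2 : ∫⁻ x in Bn n 1, ENNReal.ofReal (Real.exp (lam * ko (D x))) ≤ ENNReal.ofReal A := by
    refine le_trans (le_of_eq ?_) hA
    rw [← h1]
    refine lintegral_congr_ae ?_
    filter_upwards [hD] with x hx
    rw [hx]
  have hmeas : Measurable fun x => Real.exp (lam * ko (D x)) :=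
    ((meas_ko hm).const_mul lam).exp
  have h0 : 0 ≤ᵐ[volume.restrict (Bn n 1)] fun x => Real.exp (lam * ko (D x)) :=
    Eventually.of_forall fun x => (Real.exp_pos _).le
  refine ⟨⟨hmeas.aestronglyMeasurable, ?_⟩, ?_⟩
  · rw [hasFiniteIntegral_iff_ofReal h0]
    exact lt_of_le_of_lt h2 ENNReal.ofReal_lt_top
  · rw [integral_eq_lintegral_of_nonneg_ae h0 hmeas.aestronglyMeasurable]
    refine ENNReal.toReal_le_of_le_ofReal (le_max_right _ _) (h2.trans ?_)
    exact ENNReal.ofReal_le_ofReal (le_max_left _ _)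

lemma preim_img {n : ℕ} (K : Set (E n)) :
    (@toLp 2 (Fin n → ℝ)) ⁻¹' ((@toLp 2 (Fin n → ℝ)) '' K) = K :=
  Set.preimage_image_eq _ (WithLp.toLp_injective 2)

lemma img_sub {n : ℕ} {K : Set (E n)} (hK : K ⊆ Bn n 1) :
    (@toLp 2 (Fin n → ℝ)) '' K ⊆ Metric.ball (0 : EuclideanSpace ℝ (Fin n)) 1 := by
  rintro _ ⟨x, hx, rfl⟩
  have := hK hx
  rw [← preim_ball] at this
  exact this

/-- transfer of integrability on compact sets -/
lemma tr_int {n : ℕ} {G : EuclideanSpace ℝ (Fin n) → ℝ}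
    (h : LocallyIntegrableOn G (Metric.ball 0 1)) {K : Set (E n)} (hK : IsCompact K)
    (hKs : K ⊆ Bn n 1) : IntegrableOn (fun x => G (toLp 2 x)) K := by
  have h1 : IntegrableOn G ((@toLp 2 (Fin n → ℝ)) '' K) :=
    h.integrableOn_compact_subset (img_sub hKs) (hK.image (cont_toLp n))
  have h2 := ((mp_toLp n).integrableOn_comp_preimage (me_toLp n)).2 h1
  rwa [preim_img] at h2

/-- continuous function with compact support times locally integrable -/
lemma int_smul {n : ℕ} {F : Type*} [NormedAddCommGroup F] [NormedSpace ℝ F]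
    {G : EuclideanSpace ℝ (Fin n) → F} (h : LocallyIntegrableOn G (Metric.ball 0 1))
    {u : EuclideanSpace ℝ (Fin n) → ℝ} (hu : Continuous u) {K : Set (EuclideanSpace ℝ (Fin n))}
    (hK : IsCompact K) (hKs : K ⊆ Metric.ball 0 1) (h0 : ∀ x, x ∉ K → u x = 0) :
    IntegrableOn (fun x => u x • G x) (Metric.ball 0 1) := by
  have h1 : IntegrableOn G K := h.integrableOn_compact_subset hKs hK
  have h2 : IntegrableOn (fun x => u x • G x) K := h1.continuousOn_smul hu.continuousOn hK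
  refine h2.of_forall_diff_eq_zero measurableSet_ball ?_
  intro x hx
  rw [h0 x hx.2, zero_smul]

lemma weak_tr {n : ℕ} {f : EuclideanSpace ℝ (Fin n) → EuclideanSpace ℝ (Fin n)}
    {Df : EuclideanSpace ℝ (Fin n) →
        (EuclideanSpace ℝ (Fin n) →L[ℝ] EuclideanSpace ℝ (Fin n))}
    (hfl : LocallyIntegrableOn f (Metric.ball 0 1))
    (hDl : LocallyIntegrableOn Df (Metric.ball 0 1))
    (hW : ∀ φ : EuclideanSpace ℝ (Fin n) → ℝ,
        ContDiff ℝ ((⊤ : ℕ∞) : WithTop ℕ∞) φ → HasCompactSupport φ →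
        tsupport φ ⊆ Metric.ball 0 1 →
        ∀ v : EuclideanSpace ℝ (Fin n),
          ∫ x in Metric.ball (0 : EuclideanSpace ℝ (Fin n)) 1, (fderiv ℝ φ x v) • f x
            = - ∫ x in Metric.ball (0 : EuclideanSpace ℝ (Fin n)) 1, φ x • Df x v)
    {D : E n → Matrix (Fin n) (Fin n) ℝ}
    (hD : ∀ᵐ x ∂(volume.restrict (Bn n 1)), D x = mat (Df (toLp 2 x)))
    {φ : E n → ℝ} (hφ : ContDiff ℝ ∞ φ) (hφc : HasCompactSupport φ) (hφs : tsupport φ ⊆ Bn n 1)
    (i j : Fin n) :
    ∫ x, f (toLp 2 x) i * pd φ j x = - ∫ x, D x i j * φ x := by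
  let T : EuclideanSpace ℝ (Fin n) ≃L[ℝ] (Fin n → ℝ) := PiLp.continuousLinearEquiv 2 ℝ _
  let φ' : EuclideanSpace ℝ (Fin n) → ℝ := fun y => φ (T y)
  have hφ' : ContDiff ℝ ∞ φ' := hφ.comp T.contDiff
  have hts : tsupport φ' ⊆ T ⁻¹' tsupport φ := by
    refine closure_minimal ?_ ((isClosed_tsupport φ).preimage T.continuous)
    intro y hy
    exact subset_tsupport φ hy
  have hK : IsCompact (T ⁻¹' tsupport φ) :=
    T.toHomeomorph.isCompact_preimage.2 hφc
  have hKs : T ⁻¹' tsupport φ ⊆ Metric.ball 0 1 := by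
    intro y hy
    have := hφs hy
    rw [← preim_ball] at this
    exact this
  have hφ'c : HasCompactSupport φ' := hK.of_isClosed_subset (isClosed_tsupport _) hts
  have h1 := hW φ' hφ' hφ'c (hts.trans hKs) (EuclideanSpace.single j 1)
  have hfd : ∀ y, fderiv ℝ φ' y (EuclideanSpace.single j 1) = pd φ j (T y) := by
    intro y
    have : φ' = φ ∘ T := rfl
    rw [this, T.comp_right_fderiv]
    rfl
  simp only [hfd] at h1
  -- coordinates
  have hi1 : IntegrableOn (fun y => pd φ j (T y) • f y) (Metric.ball 0 1) := by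
    refine int_smul hfl ((continuous_pd (hφ.of_le (by exact_mod_cast le_top)) j).comp T.continuous)
      hK hKs ?_
    intro x hx
    exact pd_eq_zero_of_notMem hx j
  have hi2 : IntegrableOn (fun y => φ' y • Df y (EuclideanSpace.single j 1))
      (Metric.ball 0 1) := by
    have := int_smul hDl (hφ'.continuous) hK hKs (fun x hx => image_eq_zero_of_notMem_tsupport
      (fun h => hx (hts h)))
    exact (ContinuousLinearMap.apply ℝ (EuclideanSpace ℝ (Fin n))
      (EuclideanSpace.single j (1:ℝ))).integrable_comp this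
  have h2 := congrArg (EuclideanSpace.proj (𝕜 := ℝ) i) h1
  rw [map_neg, ← ContinuousLinearMap.integral_comp_comm _ hi1,
    ← ContinuousLinearMap.integral_comp_comm _ hi2] at h2
  rw [← (mp_restrict n).integral_comp (me_toLp n), ← (mp_restrict n).integral_comp (me_toLp n)] at h2
  have h3 : ∫ x in Bn n 1, f (toLp 2 x) i * pd φ j x = - ∫ x in Bn n 1, D x i j * φ x := by
    refine Eq.trans ?_ (h2.trans ?_)
    · refine integral_congr_ae (Eventually.of_forall fun x => ?_)
      exact mul_comm _ _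
    · refine congrArg Neg.neg ?_
      refine integral_congr_ae ?_
      filter_upwards [hD] with x hx
      rw [hx]
      exact mul_comm _ _
  rw [setIntegral_eq_integral_of_forall_compl_eq_zero, setIntegral_eq_integral_of_forall_compl_eq_zero] at h3
  · exact h3
  · intro x hx
    rw [image_eq_zero_of_notMem_tsupport (fun h => hx (hφs h)), mul_zero]
  · intro x hx
    rw [pd_eq_zero_of_notMem (fun h => hx (hφs h)), mul_zero]

/-! ## TARGET: prove everything below -/

theorem transfer {n : ℕ} (hn : 3 ≤ n) {lam : ℝ} (hlam : 0 < lam) (A : ℝ) : ∃ C : ℕ → ℝ,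
    ∀ (f : EuclideanSpace ℝ (Fin n) → EuclideanSpace ℝ (Fin n))
      (Df : EuclideanSpace ℝ (Fin n) →
        (EuclideanSpace ℝ (Fin n) →L[ℝ] EuclideanSpace ℝ (Fin n))),
      ContinuousOn f (Metric.ball 0 1) →
      LocallyIntegrableOn f (Metric.ball 0 1) →
      LocallyIntegrableOn Df (Metric.ball 0 1) →
      (∀ φ : EuclideanSpace ℝ (Fin n) → ℝ,
        ContDiff ℝ ((⊤ : ℕ∞) : WithTop ℕ∞) φ → HasCompactSupport φ →
        tsupport φ ⊆ Metric.ball 0 1 →
        ∀ v : EuclideanSpace ℝ (Fin n),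
          ∫ x in Metric.ball (0 : EuclideanSpace ℝ (Fin n)) 1, (fderiv ℝ φ x v) • f x
            = - ∫ x in Metric.ball (0 : EuclideanSpace ℝ (Fin n)) 1, φ x • Df x v) →
      LocallyIntegrableOn
        (fun x => LinearMap.det
          ((Df x : EuclideanSpace ℝ (Fin n) →L[ℝ] EuclideanSpace ℝ (Fin n)) :
            EuclideanSpace ℝ (Fin n) →ₗ[ℝ] EuclideanSpace ℝ (Fin n)))
        (Metric.ball 0 1) →
      (∀ᵐ x ∂(volume.restrict (Metric.ball (0 : EuclideanSpace ℝ (Fin n)) 1)),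
        0 ≤ LinearMap.det
            ((Df x : EuclideanSpace ℝ (Fin n) →L[ℝ] EuclideanSpace ℝ (Fin n)) :
              EuclideanSpace ℝ (Fin n) →ₗ[ℝ] EuclideanSpace ℝ (Fin n)) ∧
        (LinearMap.det
            ((Df x : EuclideanSpace ℝ (Fin n) →L[ℝ] EuclideanSpace ℝ (Fin n)) :
              EuclideanSpace ℝ (Fin n) →ₗ[ℝ] EuclideanSpace ℝ (Fin n)) = 0 → Df x = 0)) →
      (∫⁻ x in Metric.ball (0 : EuclideanSpace ℝ (Fin n)) 1,
        ENNReal.ofReal (Real.exp (lam *
          (if LinearMap.det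
              ((Df x : EuclideanSpace ℝ (Fin n) →L[ℝ] EuclideanSpace ℝ (Fin n)) :
                EuclideanSpace ℝ (Fin n) →ₗ[ℝ] EuclideanSpace ℝ (Fin n)) = 0
           then 1
           else ‖Df x‖ ^ n / LinearMap.det
              ((Df x : EuclideanSpace ℝ (Fin n) →L[ℝ] EuclideanSpace ℝ (Fin n)) :
                EuclideanSpace ℝ (Fin n) →ₗ[ℝ] EuclideanSpace ℝ (Fin n))))))
        ≤ ENNReal.ofReal A →
      ∃ D : E n → Matrix (Fin n) (Fin n) ℝ,
        FDMap (fun (x : E n) (i : Fin n) => f (WithLp.toLp 2 x) i) D (Bn n 1) ∧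
        ∀ (q : ℕ) (K : Set (E n)), IsCompact K → K ⊆ Bn n 1 → ∫ x in K, kd (D x) ^ q ≤ C q := by
  obtain ⟨c, hc1, hc⟩ := kd_kk_le (n := n) (by omega)
  have hc0 : 0 < c := lt_of_lt_of_le one_pos hc1
  refine ⟨fun q => c ^ q * ((q.factorial : ℝ) / lam ^ q) * max A 0, ?_⟩
  intro f Df hf hfl hDl hW hJ hpos hexp
  obtain ⟨D, hm, hD⟩ := exists_D hDl
  obtain ⟨hEi, hEb⟩ := exp_int (lam := lam) hm hD hexp
  have hcont : ContinuousOn (fun (x : E n) (i : Fin n) => f (WithLp.toLp 2 x) i) (Bn n 1) := by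
    have h1 : ContinuousOn (fun x : E n => f (toLp 2 x)) (Bn n 1) := by
      refine hf.comp (cont_toLp n).continuousOn ?_
      intro x hx
      rw [← preim_ball] at hx
      exact hx
    exact (cont_ofLp n).comp_continuousOn h1
  have hweak : ∀ φ : E n → ℝ, ContDiff ℝ ∞ φ → HasCompactSupport φ → tsupport φ ⊆ Bn n 1 →
      ∀ i j, ∫ x, (fun (x : E n) (i : Fin n) => f (WithLp.toLp 2 x) i) x i * pd φ j x
        = - ∫ x, D x i j * φ x :=
    fun φ h1 h2 h3 i j => weak_tr hfl hDl hW hD h1 h2 h3 i j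
  have hpos' : ∀ᵐ x ∂(volume.restrict (Bn n 1)), 0 ≤ (D x).det ∧ ((D x).det = 0 → D x = 0) := by
    have h1 := (mp_restrict n).quasiMeasurePreserving.ae hpos
    filter_upwards [h1, hD] with x hx hx2
    rw [mat_det] at hx
    rw [hx2]
    exact ⟨hx.1, fun h => mat_zero_iff _ (hx.2 h)⟩
  have hdet : ∀ K, IsCompact K → K ⊆ Bn n 1 → IntegrableOn (fun x => (D x).det) K := by
    intro K hK hKs
    refine (tr_int hJ hK hKs).congr_fun_ae ?_
    have h1 := ae_restrict_of_ae_restrict_of_subset hKs hD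
    filter_upwards [h1] with x hx
    rw [mat_det, hx]
  -- bounds
  have hkb : ∀ᵐ x ∂(volume.restrict (Bn n 1)), ∀ q : ℕ, 0 ≤ kd (D x) ^ q ∧
      kd (D x) ^ q ≤ c ^ q * ((q.factorial : ℝ) / lam ^ q) * Real.exp (lam * ko (D x)) := by
    filter_upwards [hpos'] with x hx q
    obtain ⟨h1, h2, h3⟩ := hc (D x) hx.1
    have h4 := kd_nonneg hx.1
    refine ⟨pow_nonneg h4 q, ?_⟩
    calc kd (D x) ^ q ≤ (c * ko (D x)) ^ q := pow_le_pow_left₀ h4 h1 q
      _ = c ^ q * ko (D x) ^ q := mul_pow _ _ _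
      _ ≤ c ^ q * ((q.factorial : ℝ) / lam ^ q * Real.exp (lam * ko (D x))) :=
          mul_le_mul_of_nonneg_left (pow_le_fac_exp h3 hlam q) (pow_nonneg hc0.le q)
      _ = _ := by ring
  have hkdi : ∀ q : ℕ, IntegrableOn (fun x => kd (D x) ^ q) (Bn n 1) := by
    intro q
    refine Integrable.mono' (hEi.const_mul (c ^ q * ((q.factorial : ℝ) / lam ^ q)))
      ((meas_kd hm).pow_const q).aestronglyMeasurable ?_
    filter_upwards [hkb] with x hx
    rw [Real.norm_eq_abs, abs_of_nonneg (hx q).1]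
    exact (hx q).2
  have hkki : IntegrableOn (fun x => Real.exp (lam / c * kk (D x))) (Bn n 1) := by
    refine Integrable.mono' hEi
      (((meas_kk hm).const_mul (lam / c)).exp).aestronglyMeasurable ?_
    filter_upwards [hpos'] with x hx
    obtain ⟨h1, h2, h3⟩ := hc (D x) hx.1
    rw [Real.norm_eq_abs, abs_of_nonneg (Real.exp_pos _).le]
    refine Real.exp_le_exp.2 ?_
    calc lam / c * kk (D x) ≤ lam / c * (c * ko (D x)) :=
          mul_le_mul_of_nonneg_left h2 (by positivity)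
      _ = lam * ko (D x) := by field_simp
  refine ⟨D, ?_, ?_⟩
  · exact {
      isOpen := isOpen_Bn n 1
      cont := hcont
      meas := hm
      weak := hweak
      pos := hpos'
      det_int := hdet
      kd_int := fun q K _ hKs => (hkdi q).mono_set hKs
      ident := fun η h1 h2 h3 ψ h4 i => gid (by omega) (isOpen_Bn n 1) hcont hm hweak hpos' hdet
        (l := lam / c) (by positivity) (fun K _ hKs => hkki.mono_set hKs) h1 h2 h3 h4 i }
  · intro q K hK hKs
    have h1 : ∫ x in K, kd (D x) ^ q ≤ ∫ x in Bn n 1, kd (D x) ^ q := by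
      refine setIntegral_mono_set (hkdi q) ?_ (HasSubset.Subset.eventuallyLE hKs)
      filter_upwards [hkb] with x hx
      exact (hx q).1
    have h2 : ∫ x in Bn n 1, kd (D x) ^ q ≤
        ∫ x in Bn n 1, c ^ q * ((q.factorial : ℝ) / lam ^ q) * Real.exp (lam * ko (D x)) := by
      refine integral_mono_ae (hkdi q) (hEi.const_mul _) ?_
      filter_upwards [hkb] with x hx
      exact (hx q).2
    rw [integral_const_mul] at h2
    refine h1.trans (h2.trans ?_)
    exact mul_le_mul_of_nonneg_left hEb (by positivity)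

end H930.BL.XTrB

namespace H930.BL

export XTrB (transfer)

end H930.BL
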